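import Mathlib

set_option autoImplicit false

namespace Pool.Agent.Q86.Curve

/-- the integer `x` lies in `T` -/
def TT (T : AddSubmonoid ℕ) (x : ℤ) : Prop := ∃ n ∈ T, (n : ℤ) = x

/-- The set of pseudo-Frobenius numbers of `T`. -/
def PF (T : AddSubmonoid ℕ) : Set ℤ := {x | ¬ TT T x ∧ ∀ s ∈ T, s ≠ 0 → TT T (x + s)}

variable {T : AddSubmonoid ℕ}

theorem TT_nonneg {x : ℤ} (h : TT T x) : 0 ≤ x := by
  obtain ⟨n, -, rfl⟩ := h; positivity

theorem TT_zero : TT T 0 := ⟨0, T.zero_mem, rfl⟩

theorem TT_add {x y : ℤ} (hx : TT T x) (hy : TT T y) : TT T (x + y) := by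
  obtain ⟨n, hn, rfl⟩ := hx
  obtain ⟨m, hm, rfl⟩ := hy
  exact ⟨n + m, T.add_mem hn hm, by push_cast; ring⟩

theorem PF_add {f x : ℤ} (hf : f ∈ PF T) (hx : TT T x) (h0 : x ≠ 0) : TT T (f + x) := by
  obtain ⟨n, hn, rfl⟩ := hx
  exact hf.2 n hn (by rintro rfl; exact h0 rfl)

/-- The data of the construction. -/
structure Dat (T : AddSubmonoid ℕ) where
  F : ℤ
  f1 : ℤ
  m : ℤ
  b : ℤ
  c : ℤ
  hF : F ∈ PF T
  hF2 : ∀ x, F < x → TT T x
  hf1 : f1 ∈ PF T
  hmin : ∀ f ∈ PF T, f1 ≤ f
  h1 : 0 < f1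
  hm : F < m
  hm2 : 2 * (F - f1) < m
  hb : 4 * m + 2 * F + 2 ≤ b
  hb2 : 2 * (2 * m - 1 + f1) + 1 < b
  hd : b + 2 * m ≤ c * b - (2 * m - 1 + f1)

namespace Dat

variable (D : Dat T)

def κ : ℤ := 2 * D.m - 1 + D.f1

def d : ℤ := D.c * D.b - D.κ

def HH (h : ℤ) : Prop := h = 0 ∨ (D.m ≤ h ∧ D.κ - h ∉ PF T)

theorem le_F {f : ℤ} (hf : f ∈ PF T) : f ≤ D.F := by
  by_contra h
  exact hf.1 (D.hF2 f (by omega))

theorem F_pos : 0 < D.F := by have := D.h1; have := D.le_F D.hf1; omega

theorem m_pos : 0 < D.m := by have := D.F_pos; have := D.hm; omega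

theorem b_pos : 0 < D.b := by have := D.F_pos; have := D.m_pos; have := D.hb; omega

theorem b_lt_d : D.b + 2 * D.m ≤ D.d := D.hd

theorem HH_zero : D.HH 0 := Or.inl rfl

theorem HH_of_ge {h : ℤ} (hh : 2 * D.m ≤ h) : D.HH h := by
  right
  have := D.m_pos
  refine ⟨by omega, fun hp => ?_⟩
  have := D.hmin _ hp
  unfold κ at this
  omega

theorem HH_nonneg {h : ℤ} (hh : D.HH h) : 0 ≤ h := by
  have := D.m_pos
  rcases hh with rfl | ⟨h1, -⟩ <;> omega

theorem HH_add {h h' : ℤ} (hh : D.HH h) (hh' : D.HH h') : D.HH (h + h') := by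
  rcases hh with rfl | ⟨h1, h2⟩
  · simpa using hh'
  · rcases hh' with rfl | ⟨h1', h2'⟩
    · right; simpa using ⟨h1, h2⟩
    · exact D.HH_of_ge (by omega)

theorem HH_b : D.HH D.b := D.HH_of_ge (by have := D.hb; have := D.F_pos; have := D.m_pos; omega)

theorem not_HH_PF {f : ℤ} (hf : f ∈ PF T) : ¬ D.HH (D.κ - f) := by
  have h1 := D.le_F hf
  have h2 := D.hm2
  have h3 := D.m_pos
  have h4 := D.h1
  have h5 := D.le_F D.hf1
  rintro (h | ⟨-, h⟩)
  · unfold κ at h; omega
  · rw [sub_sub_cancel] at h; exact h hf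

include D in
theorem exists_PF_ge (x : ℤ) (hx : ¬ TT T x) : ∃ f ∈ PF T, TT T (f - x) := by
  obtain ⟨n, hn⟩ : ∃ n : ℕ, D.F - x ≤ n := ⟨(D.F - x).toNat, Int.self_le_toNat _⟩
  induction n generalizing x with
  | zero =>
    have : ¬ D.F < x := fun h => hx (D.hF2 x h)
    have hx' : x = D.F := by push_cast at hn; omega
    subst hx'
    exact ⟨D.F, D.hF, by simpa using TT_zero⟩
  | succ n ih =>
    by_cases hp : x ∈ PF T
    · exact ⟨x, hp, by simpa using TT_zero⟩
    · have : ∃ s ∈ T, s ≠ 0 ∧ ¬ TT T (x + s) := by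
        by_contra hcon
        push Not at hcon
        exact hp ⟨hx, hcon⟩
      obtain ⟨s, hs, hs0, hxs⟩ := this
      obtain ⟨f, hf, hf2⟩ := ih (x + s) hxs (by push_cast at hn; omega)
      refine ⟨f, hf, ?_⟩
      have := TT_add hf2 ⟨s, hs, rfl⟩
      rwa [show f - (x + s) + s = f - x by ring] at this

/-- the case analysis -/
theorem core (x h r : ℤ) (hx : ¬ TT T x) (hh : D.HH h) (hhb : ¬ D.HH (h - D.b))
    (hr : h = r * D.b + D.κ - x)
    (hall : ∀ a, TT T a → D.HH (D.b - a) → TT T (x + a) ∨ D.HH (h - a)) :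
    x ∈ PF T ∧ r = 1 := by
  have hm0 := D.m_pos
  have hb0 := D.b_pos
  have hF0 := D.F_pos
  have hb := D.hb
  have hb2 := D.hb2
  have hm := D.hm
  have hm2 := D.hm2
  have hf1 := D.h1
  have hf1F := D.le_F D.hf1
  have hκ : D.κ = 2 * D.m - 1 + D.f1 := rfl
  have hhn := D.HH_nonneg hh
  have hnb : ¬ 2 * D.m ≤ h - D.b := fun h' => hhb (D.HH_of_ge h')
  have hxF : x ≤ D.F := by
    by_contra h'
    exact hx (D.hF2 x (by omega))
  by_cases hP : x ∈ PF T
  · refine ⟨hP, ?_⟩
    have hxf := D.hmin x hP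
    have hr1 : ¬ r < 0 := by
      intro h'
      have : r * D.b ≤ -D.b := by nlinarith
      omega
    have hr2 : ¬ 2 ≤ r := by
      intro h'
      have : 2 * D.b ≤ r * D.b := by nlinarith
      omega
    have hr3 : r ≠ 0 := by
      rintro rfl
      rw [zero_mul, zero_add] at hr
      exact D.not_HH_PF hP (hr ▸ hh)
    omega
  · exfalso
    rcases lt_or_ge x 0 with hx0 | hx0
    · -- negative
      rcases lt_or_ge x (-D.b) with hxb | hxb
      · rcases hall D.b (D.hF2 _ (by omega)) (by simpa using D.HH_zero) with h' | h'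
        · have := TT_nonneg h'; omega
        · exact hhb h'
      · obtain ⟨z, hz⟩ : ∃ z, x = z - D.b := ⟨x + D.b, by ring⟩
        have hz0 : 0 ≤ z := by omega
        have hzb : z < D.b := by omega
        have hr1 : ¬ r < -1 := by
          intro h'
          have : r * D.b ≤ -2 * D.b := by nlinarith
          omega
        have hr2 : ¬ 1 ≤ r := by
          intro h'
          have : 1 * D.b ≤ r * D.b := by nlinarith
          omega
        have hr3 : r = 0 ∨ r = -1 := by omega
        rcases hr3 with rfl | rfl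
        · -- r = 0
          have hh2 : h = D.κ + D.b - z := by rw [hr, hz]; ring
          have hκz : ¬ D.HH (D.κ - z) := by
            rw [hh2] at hhb
            rwa [show D.κ + D.b - z - D.b = D.κ - z by ring] at hhb
          by_cases hTz : TT T z
          · have hzP : z ∉ PF T := fun h' => h'.1 hTz
            have hzκ : z ≠ D.κ := by
              rintro rfl
              exact hκz (by simpa using D.HH_zero)
            have hκm : D.κ - z < D.m := by
              by_contra h'
              exact hκz (Or.inr ⟨by omega, by rwa [sub_sub_cancel]⟩)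
            have key : ∀ y ∈ PF T, D.HH (z - y) → D.F < D.b - z + y → False := by
              intro y hy hzy hF
              rcases hall (D.b - z + y) (D.hF2 _ hF)
                (by rwa [show D.b - (D.b - z + y) = z - y by ring]) with h' | h'
              · rw [hz, show z - D.b + (D.b - z + y) = y by ring] at h'
                exact hy.1 h'
              · rw [hh2, show D.κ + D.b - z - (D.b - z + y) = D.κ - y by ring] at h'
                exact D.not_HH_PF hy h'
            rcases lt_or_ge z (2 * D.m + D.F) with hzm | hzm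
            · by_cases hzf : D.HH (z - D.f1)
              · exact key _ D.hf1 hzf (by omega)
              · have hg : D.κ - (z - D.f1) ∈ PF T := by
                  by_contra h'
                  exact hzf (Or.inr ⟨by omega, h'⟩)
                have hg1 := D.hmin _ hg
                have hg2 := D.le_F hg
                refine key _ D.hF (Or.inr ⟨by omega, fun h' => ?_⟩) (by omega)
                have := D.le_F h'
                omega
            · exact key _ D.hF (D.HH_of_ge (by omega)) (by omega)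
          · rcases hall D.b (D.hF2 _ (by omega)) (by simpa using D.HH_zero) with h' | h'
            · rw [hz, sub_add_cancel] at h'; exact hTz h'
            · exact hhb h'
        · -- r = -1
          have hh2 : h = D.κ - z := by rw [hr, hz]; ring
          rcases hall (D.κ + 1) (D.hF2 _ (by omega)) (D.HH_of_ge (by omega)) with h' | h'
          · have := TT_nonneg h'; omega
          · have := D.HH_nonneg h'; omega
    · -- gap
      obtain ⟨f, hf, hf2⟩ := D.exists_PF_ge x hx
      have hfF := D.le_F hf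
      have hHx : D.HH (D.κ - x) := Or.inr ⟨by omega, by rwa [sub_sub_cancel]⟩
      have hr1 : ¬ r < 0 := by
        intro h'
        have : r * D.b ≤ -D.b := by nlinarith
        omega
      have hr2 : ¬ 2 ≤ r := by
        intro h'
        have : 2 * D.b ≤ r * D.b := by nlinarith
        omega
      have hr3 : r ≠ 1 := by
        rintro rfl
        apply hhb
        rwa [hr, show 1 * D.b + D.κ - x - D.b = D.κ - x by ring]
      have hr0 : r = 0 := by omega
      subst hr0
      rcases hall (f - x) hf2 (D.HH_of_ge (by omega)) with h' | h'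
      · rw [show x + (f - x) = f by ring] at h'
        exact hf.1 h'
      · rw [hr, show 0 * D.b + D.κ - x - (f - x) = D.κ - f by ring] at h'
        exact D.not_HH_PF hf h'

/-- `s` is a sum of `j` elements of the generating set -/
def G (j s : ℤ) : Prop :=
  ∃ i : ℤ, 0 ≤ i ∧ TT T (s - i * D.d) ∧ D.HH ((j - i) * D.b - (s - i * D.d))

theorem G_zero : D.G 0 0 := ⟨0, le_rfl, by simpa using TT_zero, by simpa using D.HH_zero⟩

theorem G_add {j s j' s' : ℤ} (h : D.G j s) (h' : D.G j' s') : D.G (j + j') (s + s') := by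
  obtain ⟨i, hi, h1, h2⟩ := h
  obtain ⟨i', hi', h1', h2'⟩ := h'
  refine ⟨i + i', by omega, ?_, ?_⟩
  · have := TT_add h1 h1'
    rwa [show s - i * D.d + (s' - i' * D.d) = s + s' - (i + i') * D.d by ring] at this
  · have := D.HH_add h2 h2'
    rwa [show (j - i) * D.b - (s - i * D.d) + ((j' - i') * D.b - (s' - i' * D.d)) =
      (j + j' - (i + i')) * D.b - (s + s' - (i + i') * D.d) by ring] at this

theorem TT_d : TT T D.d := D.hF2 _ (by
  have := D.b_lt_d; have := D.hb; have := D.m_pos; have := D.F_pos; omega)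

theorem TT_mul {i : ℤ} (hi : 0 ≤ i) : TT T (i * D.d) := by
  obtain ⟨n, rfl⟩ := Int.eq_ofNat_of_zero_le hi
  induction n with
  | zero => simpa using TT_zero
  | succ n ih =>
    have := TT_add (ih (by positivity)) D.TT_d
    rwa [show ((n : ℕ) : ℤ) * D.d + D.d = ((n + 1 : ℕ) : ℤ) * D.d by push_cast; ring] at this

theorem G_TT {j s : ℤ} (h : D.G j s) : TT T s := by
  obtain ⟨i, hi, h1, h2⟩ := h
  have := TT_add h1 (D.TT_mul hi)
  rwa [sub_add_cancel] at this

/-- members of the generating set -/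
def Am (a : ℤ) : Prop := (TT T a ∧ D.HH (D.b - a)) ∨ a = D.d

theorem Am_zero : D.Am 0 := Or.inl ⟨TT_zero, by simpa using D.HH_b⟩

theorem Am_d : D.Am D.d := Or.inr rfl

theorem G_Am {a : ℤ} (h : D.Am a) : D.G 1 a := by
  rcases h with ⟨h1, h2⟩ | rfl
  · exact ⟨0, le_rfl, by simpa using h1, by simpa using h2⟩
  · exact ⟨1, by omega, by simpa using TT_zero, by simpa using D.HH_zero⟩

theorem Am_bounds {a : ℤ} (h : D.Am a) : 0 ≤ a ∧ a ≤ D.d := by
  have := D.b_lt_d
  have := D.m_pos
  have := D.b_pos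
  rcases h with ⟨h1, h2⟩ | rfl
  · have := TT_nonneg h1
    have := D.HH_nonneg h2
    omega
  · omega

theorem G_succ {j s : ℤ} (h : D.G j s) : D.G (j + 1) s := by
  have := D.G_add h (D.G_Am D.Am_zero)
  simpa using this

theorem G_bounds {j s : ℤ} (h : D.G j s) : 0 ≤ j ∧ 0 ≤ s ∧ s ≤ j * D.d := by
  obtain ⟨i, hi, h1, h2⟩ := h
  have h3 := TT_nonneg h1
  have h4 := D.HH_nonneg h2
  have hb := D.b_pos
  have hd := D.b_lt_d
  have hm := D.m_pos
  have h5 : 0 ≤ j - i := by
    by_contra h'
    have : (j - i) * D.b < 0 := mul_neg_of_neg_of_pos (by omega) hb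
    omega
  refine ⟨by omega, ?_, ?_⟩
  · have : 0 ≤ i * D.d := mul_nonneg hi (by omega)
    omega
  · have h6 : (j - i) * D.b ≤ (j - i) * D.d := mul_le_mul_of_nonneg_left (by omega) h5
    have h7 : (j - i) * D.d = j * D.d - i * D.d := by ring
    omega

/-- the Cohen–Macaulay property -/
theorem G_sub {j s : ℤ} (hs : TT T s) (h : D.G j (s + D.d)) : D.G (j - 1) s := by
  obtain ⟨i, hi, h1, h2⟩ := h
  rcases eq_or_lt_of_le hi with rfl | hi
  · refine ⟨0, le_rfl, by simpa using hs, D.HH_of_ge ?_⟩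
    have h3 := D.HH_nonneg h2
    have := D.b_lt_d
    have e : (j - 1 - 0) * D.b - (s - 0 * D.d) =
      ((j - 0) * D.b - (s + D.d - 0 * D.d)) + (D.d - D.b) := by ring
    rw [e]
    omega
  · refine ⟨i - 1, by omega, ?_, ?_⟩
    · rwa [show s - (i - 1) * D.d = s + D.d - i * D.d by ring]
    · rwa [show (j - 1 - (i - 1)) * D.b - (s - (i - 1) * D.d) =
        (j - i) * D.b - (s + D.d - i * D.d) by ring]

theorem peel {j s : ℤ} (hj : 0 ≤ j) (h : D.G (j + 1) s) : ∃ a, D.Am a ∧ D.G j (s - a) := by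
  obtain ⟨i, hi, h1, h2⟩ := h
  have hm0 := D.m_pos
  have hb0 := D.b_pos
  have hF0 := D.F_pos
  have hb := D.hb
  rcases eq_or_lt_of_le hi with rfl | hi
  · simp only [zero_mul, sub_zero] at h1 h2
    by_cases h3 : D.HH (j * D.b - s)
    · exact ⟨0, D.Am_zero, 0, le_rfl, by simpa using h1, by simpa using h3⟩
    · have h4 : ¬ 2 * D.m ≤ j * D.b - s := fun h' => h3 (D.HH_of_ge h')
      have h5 := D.HH_nonneg h2
      have e5 : (j + 1) * D.b = j * D.b + D.b := by ring
      rcases eq_or_lt_of_le hj with rfl | hj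
      · refine ⟨s, Or.inl ⟨h1, by simpa using h2⟩, ?_⟩
        simpa using D.G_zero
      · by_cases h6 : TT T (s - D.b)
        · refine ⟨D.b, Or.inl ⟨D.hF2 _ (by omega), by simpa using D.HH_zero⟩, 0, le_rfl,
            by simpa using h6, ?_⟩
          simpa [show j * D.b - (s - D.b) = (j + 1) * D.b - s by ring] using h2
        · have h7 : s - D.b ≤ D.F := by
            by_contra h'
            exact h6 (D.hF2 _ (by omega))
          have h8 : j < 2 := by
            by_contra h'
            have : 2 * D.b ≤ j * D.b := by nlinarith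
            omega
          have h9 : j = 1 := by omega
          subst h9
          refine ⟨2 * D.m + D.F + 1, Or.inl ⟨D.hF2 _ (by omega), D.HH_of_ge (by omega)⟩,
            0, le_rfl, ?_, ?_⟩
          · exact D.hF2 _ (by omega)
          · exact D.HH_of_ge (by omega)
  · refine ⟨D.d, Or.inr rfl, i - 1, by omega, ?_, ?_⟩
    · rwa [show s - D.d - (i - 1) * D.d = s - i * D.d by ring]
    · rwa [show (j - (i - 1)) * D.b - (s - D.d - (i - 1) * D.d) =
        (j + 1 - i) * D.b - (s - i * D.d) by ring]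

/-- the socle, necessity -/
theorem socle_nec {j s : ℤ} (h : D.G j s) (h1 : ¬ D.G (j - 1) s) (h2 : ¬ D.G (j - 1) (s - D.d))
    (hall : ∀ a, D.Am a → D.G j (s + a) ∨ D.G j (s + a - D.d)) :
    s - D.d ∈ PF T ∧ j = D.c + 1 := by
  have hx : ¬ TT T (s - D.d) := by
    intro h'
    apply h2
    apply D.G_sub h'
    rwa [sub_add_cancel]
  have key : ∀ j' s', ¬ TT T (s' - D.d) → D.G j' s' → TT T s' ∧ D.HH (j' * D.b - s') := by
    intro j' s' hx' hG
    obtain ⟨i, hi, h3, h4⟩ := hG
    rcases eq_or_lt_of_le hi with rfl | hi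
    · simp only [zero_mul, sub_zero] at h3 h4
      exact ⟨h3, h4⟩
    · exfalso
      apply hx'
      have := TT_add h3 (D.TT_mul (show 0 ≤ i - 1 by omega))
      rwa [show s' - i * D.d + (i - 1) * D.d = s' - D.d by ring] at this
  obtain ⟨hs, hh⟩ := key _ _ hx h
  have hhb : ¬ D.HH (j * D.b - s - D.b) := by
    intro h'
    apply h1
    exact ⟨0, le_rfl, by simpa using hs, by
      simpa [show (j - 1) * D.b - s = j * D.b - s - D.b by ring] using h'⟩
  have := D.core (s - D.d) (j * D.b - s) (j - D.c) hx hh hhb (by unfold d; ring) (by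
    intro a ha hba
    by_cases ht : TT T (s - D.d + a)
    · exact Or.inl ht
    · right
      have ht' : ¬ TT T (s + a - D.d) := by rwa [show s + a - D.d = s - D.d + a by ring]
      rcases hall a (Or.inl ⟨ha, hba⟩) with h3 | h3
      · have := (key _ _ ht' h3).2
        rwa [show j * D.b - s - a = j * D.b - (s + a) by ring]
      · exact absurd (D.G_TT h3) ht')
  exact ⟨this.1, by omega⟩

/-- the socle, sufficiency -/
theorem socle_suf {f : ℤ} (hf : f ∈ PF T) :
    D.G (D.c + 1) (f + D.d) ∧ ¬ D.G D.c (f + D.d) ∧ ¬ D.G D.c f ∧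
      ∀ a, D.Am a → D.G (D.c + 1) (f + D.d + a) ∨ D.G (D.c + 1) (f + a) := by
  have hm0 := D.m_pos
  have hb0 := D.b_pos
  have hF0 := D.F_pos
  have hb := D.hb
  have hb2 := D.hb2
  have hm := D.hm
  have hm2 := D.hm2
  have hf1 := D.h1
  have hf1F := D.le_F D.hf1
  have hfF := D.le_F hf
  have hff := D.hmin f hf
  have hdd := D.b_lt_d
  have hκ : D.κ = 2 * D.m - 1 + D.f1 := rfl
  have hd : D.d = D.c * D.b - D.κ := rfl
  have hG : D.G (D.c + 1) (f + D.d) := by
    refine ⟨0, le_rfl, D.hF2 _ (by omega), D.HH_of_ge ?_⟩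
    have : (D.c + 1 - 0) * D.b - (f + D.d - 0 * D.d) = D.b + D.κ - f := by rw [hd]; ring
    omega
  refine ⟨hG, ?_, fun h => hf.1 (D.G_TT h), ?_⟩
  · rintro ⟨i, hi, h1, h2⟩
    rcases eq_or_lt_of_le hi with rfl | hi
    · apply D.not_HH_PF hf
      rwa [show (D.c - 0) * D.b - (f + D.d - 0 * D.d) = D.κ - f by rw [hd]; ring] at h2
    · rcases eq_or_lt_of_le (show 1 ≤ i from hi) with rfl | hi
      · rw [show f + D.d - 1 * D.d = f by ring] at h1
        exact hf.1 h1
      · have h3 := TT_nonneg h1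
        have : 2 * D.d ≤ i * D.d := by nlinarith
        omega
  · intro a ha
    rcases ha with ⟨h1, h2⟩ | rfl
    · by_cases ha0 : a = 0
      · subst ha0; left; simpa using hG
      · right
        refine ⟨0, le_rfl, by simpa using PF_add hf h1 ha0, D.HH_of_ge ?_⟩
        have h3 := D.HH_nonneg h2
        have : (D.c + 1 - 0) * D.b - (f + a - 0 * D.d) = D.c * D.b + D.b - f - a := by ring
        omega
    · right; exact hG

end Dat

end Pool.Agent.Q86.Curve
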