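import Mathlib
import Pool.Agent.Q86.CurveComb

set_option autoImplicit false

universe u

namespace Pool.Agent.Q86.Curve

open MvPolynomial

/-- The numerical data `0 = a_0 < a_1 < ⋯ < a_n = d`, `gcd (a_1, …, a_n) = 1`, of a projective
monomial curve: `A = {a_0, …, a_n}`. -/
structure MonCurve where
  A : Finset ℕ
  d : ℕ
  zero_mem : 0 ∈ A
  d_mem : d ∈ A
  le_d : ∀ a ∈ A, a ≤ d
  gcd_eq : A.gcd id = 1

namespace MonCurve

variable (k : Type u) [Field k] (C : MonCurve)

/-- The homogeneous coordinate ring `k[u^{a_i} v^{d-a_i}] ⊆ k[u,v]`, with `u = X 0`, `v = X 1`. -/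
noncomputable def coordRing : Subalgebra k (MvPolynomial (Fin 2) k) :=
  Algebra.adjoin k {p | ∃ a ∈ C.A, p = X 0 ^ a * X 1 ^ (C.d - a)}

theorem gen_mem (a : ℕ) (h : a ∈ C.A) : X 0 ^ a * X 1 ^ (C.d - a) ∈ C.coordRing k :=
  Algebra.subset_adjoin ⟨a, h, rfl⟩

/-- The coordinate function `x_i = u^{a_i} v^{d-a_i}`. -/
noncomputable def x (a : ℕ) (h : a ∈ C.A) : C.coordRing k :=
  ⟨X 0 ^ a * X 1 ^ (C.d - a), C.gen_mem k a h⟩

/-- The curve is arithmetically Cohen–Macaulay: the homogeneous parameters `x_0 = v^d`,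
`x_n = u^d` form a regular sequence on the (two-dimensional) homogeneous coordinate ring. -/
def IsACM : Prop :=
  RingTheory.Sequence.IsRegular (C.coordRing k) [C.x k 0 C.zero_mem, C.x k C.d C.d_mem]

/-- The ideal `(x_0, x_n)` of `k[C]`. -/
noncomputable def params : Ideal (C.coordRing k) :=
  Ideal.span {C.x k 0 C.zero_mem, C.x k C.d C.d_mem}

/-- The socle of `k[C]/(x_0, x_n)`: the elements killed by all coordinate functions. -/
noncomputable def socle : Submodule k (C.coordRing k ⧸ C.params k) :=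
  ⨅ a : C.A, LinearMap.ker
    (LinearMap.mulLeft k (Ideal.Quotient.mk (C.params k) (C.x k a.1 a.2)))

theorem mem_socle_iff (z : C.coordRing k ⧸ C.params k) :
    z ∈ C.socle k ↔ ∀ (a : ℕ) (h : a ∈ C.A), Ideal.Quotient.mk _ (C.x k a h) * z = 0 := by
  simp only [socle, Submodule.mem_iInf, LinearMap.mem_ker, LinearMap.mulLeft_apply]
  exact ⟨fun h a ha => h ⟨a, ha⟩, fun h a => h a.1 a.2⟩

/-- The Cohen–Macaulay type: the `k`-dimension of the socle of `k[C]/(x_0, x_n)`. -/
noncomputable def cmType : ℕ := Module.finrank k (C.socle k)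

end MonCurve

/-- the exponent `(s, e)` -/
noncomputable def E (s e : ℕ) : Fin 2 →₀ ℕ := Finsupp.single 0 s + Finsupp.single 1 e

@[simp] theorem E_zero (s e : ℕ) : E s e 0 = s := by simp [E]
@[simp] theorem E_one (s e : ℕ) : E s e 1 = e := by simp [E]

theorem E_ext {e e' : Fin 2 →₀ ℕ} (h0 : e 0 = e' 0) (h1 : e 1 = e' 1) : e = e' := by
  ext i; fin_cases i <;> assumption

theorem E_add (s e s' e' : ℕ) : E s e + E s' e' = E (s + s') (e + e') := by
  apply E_ext <;> simp

theorem X_mul_X (k : Type u) [Field k] (s e : ℕ) :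
    (X 0 ^ s * X 1 ^ e : MvPolynomial (Fin 2) k) = monomial (E s e) 1 := by
  rw [X_pow_eq_monomial, X_pow_eq_monomial, monomial_mul, one_mul]; rfl

namespace Dat

variable {T : AddSubmonoid ℕ} (D : Dat T)

theorem d_pos : 0 < D.d := by
  have := D.b_lt_d
  have := D.m_pos
  have := D.b_pos
  omega

theorem TT_iff {n : ℕ} : TT T (n : ℤ) ↔ n ∈ T := by
  constructor
  · rintro ⟨m, hm, h⟩
    have : m = n := by exact_mod_cast h
    exact this ▸ hm
  · intro h; exact ⟨n, h, rfl⟩

open Classical in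
/-- the generating set -/
noncomputable def AA : Finset ℕ := (Finset.range (D.d.toNat + 1)).filter fun a => D.Am (a : ℤ)

theorem mem_AA {a : ℕ} : a ∈ D.AA ↔ D.Am (a : ℤ) := by
  classical
  unfold AA
  rw [Finset.mem_filter, Finset.mem_range]
  constructor
  · exact fun h => h.2
  · intro h
    have := D.Am_bounds h
    refine ⟨by omega, h⟩

theorem Am_small {n : ℕ} (h : TT T (n : ℤ)) (h2 : (n : ℤ) ≤ D.b - 2 * D.m) : D.Am (n : ℤ) :=
  Or.inl ⟨h, D.HH_of_ge (by omega)⟩

theorem closure_AA : AddSubmonoid.closure (D.AA : Set ℕ) = T := by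
  have hm0 := D.m_pos
  have hF0 := D.F_pos
  have hb := D.hb
  apply le_antisymm
  · rw [AddSubmonoid.closure_le]
    intro a ha
    have ha' : D.Am (a : ℤ) := D.mem_AA.1 ha
    rcases ha' with ⟨h1, -⟩ | h1
    · exact TT_iff.1 h1
    · exact TT_iff.1 (h1 ▸ D.TT_d)
  · intro n hn
    induction n using Nat.strong_induction_on with
    | _ n ih =>
      rcases le_or_gt (n : ℤ) (D.b - 2 * D.m) with h | h
      · exact AddSubmonoid.subset_closure (D.mem_AA.2 (D.Am_small (TT_iff.2 hn) h))
      · obtain ⟨F, hF⟩ := Int.eq_ofNat_of_zero_le hF0.le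
        have h1 : F + 1 ∈ AddSubmonoid.closure (D.AA : Set ℕ) := by
          apply AddSubmonoid.subset_closure
          refine D.mem_AA.2 (D.Am_small (D.hF2 _ ?_) ?_)
          · push_cast; omega
          · push_cast; omega
        have h2 : n - (F + 1) ∈ AddSubmonoid.closure (D.AA : Set ℕ) := by
          refine ih _ (by omega) (TT_iff.1 (D.hF2 _ ?_))
          have : ((n - (F + 1) : ℕ) : ℤ) = n - (F + 1) := by
            rw [Nat.cast_sub (by omega)]; push_cast; ring
          omega
        have := AddSubmonoid.add_mem _ h1 h2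
        rwa [show F + 1 + (n - (F + 1)) = n by omega] at this

/-- the curve of the construction -/
noncomputable def curve : MonCurve where
  A := D.AA
  d := D.d.toNat
  zero_mem := D.mem_AA.2 (by simpa using D.Am_zero)
  d_mem := D.mem_AA.2 (by
    rw [Int.toNat_of_nonneg D.d_pos.le]; exact D.Am_d)
  le_d := by
    intro a ha
    have := D.Am_bounds (D.mem_AA.1 ha)
    omega
  gcd_eq := by
    have hm0 := D.m_pos
    have hF0 := D.F_pos
    have hb := D.hb
    obtain ⟨F, hF⟩ := Int.eq_ofNat_of_zero_le hF0.le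
    have h1 : F + 1 ∈ D.AA := by
      refine D.mem_AA.2 (D.Am_small (D.hF2 _ ?_) ?_)
      · push_cast; omega
      · push_cast; omega
    have h2 : F + 2 ∈ D.AA := by
      refine D.mem_AA.2 (D.Am_small (D.hF2 _ ?_) ?_)
      · push_cast; omega
      · push_cast; omega
    have h3 : D.AA.gcd id ∣ F + 1 := Finset.gcd_dvd h1
    have h4 : D.AA.gcd id ∣ F + 2 := Finset.gcd_dvd h2
    have h5 : D.AA.gcd id ∣ (F + 2) - (F + 1) := Nat.dvd_sub h4 h3
    rw [show F + 2 - (F + 1) = 1 by omega] at h5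
    exact Nat.dvd_one.1 h5

theorem curve_d : ((D.curve.d : ℕ) : ℤ) = D.d := Int.toNat_of_nonneg D.d_pos.le

theorem mem_curve_A {a : ℕ} : a ∈ D.curve.A ↔ D.Am (a : ℤ) := D.mem_AA

/-- the exponents occurring in the coordinate ring -/
def InM (e : Fin 2 →₀ ℕ) : Prop :=
  ∃ j : ℤ, (e 0 : ℤ) + (e 1 : ℤ) = j * D.d ∧ D.G j (e 0)

theorem InM_zero : D.InM 0 := ⟨0, by simp, by simpa using D.G_zero⟩

theorem InM_add {e e' : Fin 2 →₀ ℕ} (h : D.InM e) (h' : D.InM e') : D.InM (e + e') := by
  obtain ⟨j, h1, h2⟩ := h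
  obtain ⟨j', h1', h2'⟩ := h'
  refine ⟨j + j', ?_, ?_⟩
  · simp only [Finsupp.add_apply]; push_cast; linarith
  · have := D.G_add h2 h2'
    simpa using this

theorem InM_gen {a : ℕ} (h : D.Am (a : ℤ)) : D.InM (E a (D.curve.d - a)) := by
  have := D.Am_bounds h
  have hd := D.curve_d
  refine ⟨1, ?_, by simpa using D.G_Am h⟩
  rw [E_zero, E_one, Nat.cast_sub (by omega)]
  omega

variable (k : Type u) [Field k]

theorem monomial_mem {e : Fin 2 →₀ ℕ} (h : D.InM e) :
    monomial e (1 : k) ∈ D.curve.coordRing k := by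
  obtain ⟨j, h1, h2⟩ := h
  have hj := (D.G_bounds h2).1
  obtain ⟨n, rfl⟩ := Int.eq_ofNat_of_zero_le hj
  induction n generalizing e with
  | zero =>
    have he : e = 0 := by
      apply E_ext <;> simp at h1 ⊢ <;> omega
    subst he
    exact (D.curve.coordRing k).one_mem
  | succ n ih =>
    have h3 : D.G ((n : ℤ) + 1) (e 0) := by simpa using h2
    obtain ⟨a, ha, hG⟩ := D.peel (by positivity) h3
    have hab := D.Am_bounds ha
    have hGb := D.G_bounds hG
    obtain ⟨a, rfl⟩ := Int.eq_ofNat_of_zero_le hab.1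
    have hd := D.curve_d
    have h1' : (e 0 : ℤ) + (e 1 : ℤ) = n * D.d + D.d := by rw [h1]; push_cast; ring
    have h4 : a ≤ e 0 := by omega
    have h5 : D.curve.d - a ≤ e 1 := by omega
    have he : e = E a (D.curve.d - a) + E (e 0 - a) (e 1 - (D.curve.d - a)) := by
      apply E_ext <;> simp <;> omega
    have h6 : monomial e (1 : k) = (X 0 ^ a * X 1 ^ (D.curve.d - a)) *
        monomial (E (e 0 - a) (e 1 - (D.curve.d - a))) 1 := by
      rw [X_mul_X, monomial_mul, one_mul, ← he]
    rw [h6]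
    refine Subalgebra.mul_mem _ (Algebra.subset_adjoin ⟨a, D.mem_curve_A.2 ha, rfl⟩) (ih ?_ ?_ ?_)
    · rw [E_zero, E_one, Nat.cast_sub h4, Nat.cast_sub h5, Nat.cast_sub (by omega)]
      push_cast
      omega
    · rw [E_zero, Nat.cast_sub h4]; exact hG
    · positivity

theorem mem_coordRing_iff (f : MvPolynomial (Fin 2) k) :
    f ∈ D.curve.coordRing k ↔ ∀ e ∈ f.support, D.InM e := by
  classical
  constructor
  · intro hf
    induction hf using Algebra.adjoin_induction with
    | mem p hp =>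
      obtain ⟨a, ha, rfl⟩ := hp
      intro e he
      rw [X_mul_X] at he
      have := support_monomial_subset he
      rw [Finset.mem_singleton] at this
      subst this
      exact D.InM_gen (D.mem_curve_A.1 ha)
    | algebraMap r =>
      intro e he
      rw [MvPolynomial.algebraMap_eq, ← monomial_zero'] at he
      have := support_monomial_subset he
      rw [Finset.mem_singleton] at this
      subst this
      exact D.InM_zero
    | add p q _ _ hp hq =>
      intro e he
      rcases Finset.mem_union.1 (support_add he) with h | h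
      · exact hp e h
      · exact hq e h
    | mul p q _ _ hp hq =>
      intro e he
      obtain ⟨e1, h1, e2, h2, rfl⟩ := Finset.mem_add.1 (support_mul p q he)
      exact D.InM_add (hp _ h1) (hq _ h2)
  · intro h
    rw [f.as_sum]
    refine Subalgebra.sum_mem _ fun e he => ?_
    have : monomial e (coeff e f) = (coeff e f) • monomial e (1 : k) := by
      rw [smul_monomial, smul_eq_mul, mul_one]
    rw [this]
    exact Subalgebra.smul_mem _ (D.monomial_mem k (h e he)) _

/-- divisibility by a monomial -/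
theorem exists_mul (δ : Fin 2 →₀ ℕ) (f : MvPolynomial (Fin 2) k)
    (h : ∀ e ∈ f.support, ∃ e', D.InM e' ∧ e = δ + e') :
    ∃ g ∈ D.curve.coordRing k, f = monomial δ 1 * g := by
  classical
  rw [f.as_sum]
  have key : ∀ s : Finset (Fin 2 →₀ ℕ), s ⊆ f.support → ∃ g ∈ D.curve.coordRing k,
      ∑ e ∈ s, monomial e (coeff e f) = monomial δ 1 * g := by
    intro s
    induction s using Finset.induction_on with
    | empty => intro _; exact ⟨0, Subalgebra.zero_mem _, by simp⟩
    | insert e s hes ih =>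
      intro hs
      obtain ⟨g, hg, hg2⟩ := ih fun x hx => hs (Finset.mem_insert_of_mem hx)
      obtain ⟨e', he', rfl⟩ := h e (hs (Finset.mem_insert_self _ _))
      refine ⟨(coeff (δ + e') f) • monomial e' 1 + g,
        Subalgebra.add_mem _ (Subalgebra.smul_mem _ (D.monomial_mem k he') _) hg, ?_⟩
      rw [Finset.sum_insert hes, hg2, mul_add, smul_monomial, monomial_mul]
      simp
  exact key _ subset_rfl

noncomputable abbrev R := D.curve.coordRing k

noncomputable abbrev x0 : D.R k := D.curve.x k 0 D.curve.zero_mem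
noncomputable abbrev xd : D.R k := D.curve.x k D.curve.d D.curve.d_mem

noncomputable abbrev J : Ideal (D.R k) := D.curve.params k

theorem J_eq : D.J k = Ideal.span {D.x0 k, D.xd k} := rfl

theorem coe_x {a : ℕ} (h : a ∈ D.curve.A) :
    ((D.curve.x k a h : D.R k) : MvPolynomial (Fin 2) k) = monomial (E a (D.curve.d - a)) 1 :=
  X_mul_X k _ _

theorem coe_x0 : ((D.x0 k : D.R k) : MvPolynomial (Fin 2) k) = monomial (E 0 D.curve.d) 1 := by
  rw [x0, coe_x, Nat.sub_zero]

theorem coe_xd : ((D.xd k : D.R k) : MvPolynomial (Fin 2) k) = monomial (E D.curve.d 0) 1 := by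
  rw [xd, coe_x, Nat.sub_self]

/-- exponents of monomials in the ideal `(x_0, x_n)` -/
def InJ (e : Fin 2 →₀ ℕ) : Prop :=
  ∃ j : ℤ, (e 0 : ℤ) + (e 1 : ℤ) = j * D.d ∧ (D.G (j - 1) (e 0) ∨ D.G (j - 1) (e 0 - D.d))

theorem support_monomial_mul (δ : Fin 2 →₀ ℕ) (g : MvPolynomial (Fin 2) k) {e : Fin 2 →₀ ℕ}
    (he : e ∈ (monomial δ 1 * g).support) : ∃ e' ∈ g.support, e = δ + e' := by
  classical
  obtain ⟨e1, h1, e2, h2, rfl⟩ := Finset.mem_add.1 (support_mul _ _ he)
  have := support_monomial_subset h1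
  rw [Finset.mem_singleton] at this
  subst this
  exact ⟨e2, h2, rfl⟩

theorem InJ_of_left {e' : Fin 2 →₀ ℕ} (h : D.InM e') : D.InJ (E 0 D.curve.d + e') := by
  obtain ⟨j, h1, h2⟩ := h
  refine ⟨j + 1, ?_, Or.inl ?_⟩
  · simp only [Finsupp.add_apply, E_zero, E_one]
    push_cast
    rw [D.curve_d]
    linarith
  · simpa using h2

theorem InJ_of_right {e' : Fin 2 →₀ ℕ} (h : D.InM e') : D.InJ (E D.curve.d 0 + e') := by
  obtain ⟨j, h1, h2⟩ := h
  refine ⟨j + 1, ?_, Or.inr ?_⟩
  · simp only [Finsupp.add_apply, E_zero, E_one]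
    push_cast
    rw [D.curve_d]
    linarith
  · simp only [Finsupp.add_apply, E_zero]
    push_cast
    rw [D.curve_d, add_sub_cancel_right, add_sub_cancel_left]
    exact h2

theorem left_of {e : Fin 2 →₀ ℕ} {j : ℤ} (h : (e 0 : ℤ) + (e 1 : ℤ) = j * D.d)
    (hG : D.G (j - 1) (e 0)) : ∃ e', D.InM e' ∧ e = E 0 D.curve.d + e' := by
  have hb := D.G_bounds hG
  have hd := D.curve_d
  have h3 : j * D.d = (j - 1) * D.d + D.d := by ring
  have h4 : D.curve.d ≤ e 1 := by omega
  refine ⟨E (e 0) (e 1 - D.curve.d), ⟨j - 1, ?_, by simpa using hG⟩, ?_⟩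
  · rw [E_zero, E_one, Nat.cast_sub h4]; omega
  · apply E_ext <;> simp <;> omega

theorem right_of {e : Fin 2 →₀ ℕ} {j : ℤ} (h : (e 0 : ℤ) + (e 1 : ℤ) = j * D.d)
    (hG : D.G (j - 1) (e 0 - D.d)) : ∃ e', D.InM e' ∧ e = E D.curve.d 0 + e' := by
  have hb := D.G_bounds hG
  have hd := D.curve_d
  have h3 : j * D.d = (j - 1) * D.d + D.d := by ring
  have h4 : D.curve.d ≤ e 0 := by omega
  refine ⟨E (e 0 - D.curve.d) (e 1), ⟨j - 1, ?_, ?_⟩, ?_⟩
  · rw [E_zero, E_one, Nat.cast_sub h4]; omega
  · rw [E_zero, Nat.cast_sub h4, hd]; exact hG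
  · apply E_ext <;> simp <;> omega

theorem mem_J_iff (z : D.R k) : z ∈ D.J k ↔ ∀ e ∈ (z : MvPolynomial (Fin 2) k).support, D.InJ e := by
  classical
  constructor
  · intro hz e he
    rw [J_eq] at hz
    obtain ⟨p, q, hpq⟩ := Ideal.mem_span_pair.1 hz
    have h2 : (z : MvPolynomial (Fin 2) k) = monomial (E 0 D.curve.d) 1 * (p : MvPolynomial _ k) +
        monomial (E D.curve.d 0) 1 * (q : MvPolynomial _ k) := by
      rw [← hpq]
      simp only [Subalgebra.coe_add, Subalgebra.coe_mul, coe_x0, coe_xd]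
      ring
    rw [h2] at he
    rcases Finset.mem_union.1 (support_add he) with h | h
    · obtain ⟨e', h1, rfl⟩ := support_monomial_mul k _ _ h
      exact D.InJ_of_left ((D.mem_coordRing_iff k _).1 p.2 _ h1)
    · obtain ⟨e', h1, rfl⟩ := support_monomial_mul k _ _ h
      exact D.InJ_of_right ((D.mem_coordRing_iff k _).1 q.2 _ h1)
  · intro h
    -- the set of polynomials coming from elements of `J`
    let S : AddSubmonoid (MvPolynomial (Fin 2) k) :=
      { carrier := {f | ∃ w ∈ D.J k, (w : MvPolynomial (Fin 2) k) = f}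
        zero_mem' := ⟨0, Ideal.zero_mem _, rfl⟩
        add_mem' := by
          rintro _ _ ⟨w, hw, rfl⟩ ⟨w', hw', rfl⟩
          exact ⟨w + w', Ideal.add_mem _ hw hw', rfl⟩ }
    have key : ∀ e ∈ (z : MvPolynomial (Fin 2) k).support,
        monomial e (coeff e (z : MvPolynomial (Fin 2) k)) ∈ S := by
      intro e he
      obtain ⟨j, hj, hG | hG⟩ := h e he
      · obtain ⟨e', he', he2⟩ := D.left_of hj hG
        refine ⟨D.x0 k * ((coeff e (z : MvPolynomial (Fin 2) k)) •
          (⟨monomial e' 1, D.monomial_mem k he'⟩ : D.R k)), ?_, ?_⟩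
        · exact Ideal.mul_mem_right _ _ (Ideal.subset_span (by simp))
        · rw [Subalgebra.coe_mul, Subalgebra.coe_smul, coe_x0, smul_monomial, monomial_mul, ← he2]
          simp
      · obtain ⟨e', he', he2⟩ := D.right_of hj hG
        refine ⟨D.xd k * ((coeff e (z : MvPolynomial (Fin 2) k)) •
          (⟨monomial e' 1, D.monomial_mem k he'⟩ : D.R k)), ?_, ?_⟩
        · exact Ideal.mul_mem_right _ _ (Ideal.subset_span (by simp))
        · rw [Subalgebra.coe_mul, Subalgebra.coe_smul, coe_xd, smul_monomial, monomial_mul, ← he2]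
          simp
    have h3 : (z : MvPolynomial (Fin 2) k) ∈ S := by
      rw [(z : MvPolynomial (Fin 2) k).as_sum]
      exact AddSubmonoid.sum_mem _ key
    obtain ⟨w, hw, hw2⟩ := h3
    rwa [← Subtype.ext hw2]

theorem one_notMem_J : (1 : D.R k) ∉ D.J k := by
  classical
  intro h
  obtain ⟨j, h1, h2⟩ := (D.mem_J_iff k 1).1 h 0 (by simp)
  have hd := D.d_pos
  have hj : j = 0 := by
    simp at h1
    rcases h1 with h | h
    · exact h
    · omega
  subst hj
  rcases h2 with h | h
  · have := (D.G_bounds h).1; omega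
  · have := (D.G_bounds h).1; omega

theorem isACM : D.curve.IsACM k := by
  classical
  have hx0 : D.x0 k ≠ 0 := by
    intro h
    have := congrArg Subtype.val h
    rw [coe_x0] at this
    simp at this
  refine ⟨?_, ?_⟩
  · rw [RingTheory.Sequence.isWeaklyRegular_cons_iff, RingTheory.Sequence.isWeaklyRegular_singleton_iff]
    constructor
    · intro a b hab
      exact mul_left_cancel₀ hx0 hab
    · rw [isSMulRegular_quotient_iff_mem_of_smul_mem]
      intro f hf
      obtain ⟨g, -, hg⟩ := hf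
      have hg' : (D.x0 k) * g = (D.xd k) * f := hg
      have hg2 : monomial (E 0 D.curve.d) 1 * (g : MvPolynomial (Fin 2) k) =
          monomial (E D.curve.d 0) 1 * (f : MvPolynomial (Fin 2) k) := by
        rw [← coe_x0, ← coe_xd, ← Subalgebra.coe_mul, ← Subalgebra.coe_mul, hg']
      have hd := D.curve_d
      have key : ∀ e ∈ (f : MvPolynomial (Fin 2) k).support,
          ∃ e', D.InM e' ∧ e = E 0 D.curve.d + e' := by
        intro e he
        obtain ⟨j, h1, h2⟩ := (D.mem_coordRing_iff k _).1 f.2 e he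
        have he2 : E D.curve.d 0 + e ∈
            (monomial (E D.curve.d 0) 1 * (f : MvPolynomial (Fin 2) k)).support := by
          rw [mem_support_iff, coeff_monomial_mul, one_mul]
          exact mem_support_iff.1 he
        rw [← hg2] at he2
        obtain ⟨e', he', h3⟩ := support_monomial_mul k _ _ he2
        obtain ⟨j', h1', h2'⟩ := (D.mem_coordRing_iff k _).1 g.2 e' he'
        have e0 := DFunLike.congr_fun h3 0
        have e1 := DFunLike.congr_fun h3 1
        simp only [Finsupp.add_apply, E_zero, E_one, zero_add] at e0 e1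
        have hjj : j' = j := by
          have : j' * D.d = j * D.d := by omega
          exact mul_right_cancel₀ D.d_pos.ne' this
        subst hjj
        refine D.left_of h1 (D.G_sub (D.G_TT h2) ?_)
        have : ((e 0 : ℕ) : ℤ) + D.d = ((e' 0 : ℕ) : ℤ) := by omega
        rw [this]; exact h2'
      obtain ⟨g', hg'1, hg'2⟩ := D.exists_mul k _ _ key
      refine ⟨⟨g', hg'1⟩, trivial, ?_⟩
      apply Subtype.ext
      change ((D.x0 k * ⟨g', hg'1⟩ : D.R k) : MvPolynomial (Fin 2) k) = f
      rw [Subalgebra.coe_mul, coe_x0, hg'2]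
  · intro h
    have h1 : (1 : D.R k) ∈ (⊤ : Submodule (D.R k) (D.R k)) := trivial
    rw [h] at h1
    have h2 : (1 : D.R k) ∈ Ideal.ofList [D.x0 k, D.xd k] := by
      have := h1
      rw [smul_eq_mul, Ideal.mul_top] at this
      exact this
    apply D.one_notMem_J k
    rw [J_eq, Ideal.span_insert, ← Ideal.ofList_singleton (D.xd k), ← Ideal.ofList_cons]
    exact h2

end Dat

end Pool.Agent.Q86.Curve
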