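import Mathlib
import Pool.Agent.Q86.CurveRing

set_option autoImplicit false

universe u

namespace Pool.Agent.Q86.Curve

open MvPolynomial

namespace Dat

variable {T : AddSubmonoid ℕ} (D : Dat T)

/-- the exponent of the socle element attached to the pseudo-Frobenius number `f` -/
noncomputable def mu (f : ℤ) : Fin 2 →₀ ℕ :=
  E (f + D.d).toNat ((D.c + 1) * D.d - (f + D.d)).toNat

theorem mu_zero {f : ℤ} (hf : f ∈ PF T) : ((D.mu f 0 : ℕ) : ℤ) = f + D.d := by
  have := D.hmin f hf
  have := D.h1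
  have := D.d_pos
  rw [mu, E_zero, Int.toNat_of_nonneg (by omega)]

theorem mu_one {f : ℤ} (hf : f ∈ PF T) :
    ((D.mu f 1 : ℕ) : ℤ) = (D.c + 1) * D.d - (f + D.d) := by
  have := (D.G_bounds (D.socle_suf hf).1)
  rw [mu, E_one, Int.toNat_of_nonneg (by omega)]

theorem mu_sum {f : ℤ} (hf : f ∈ PF T) :
    ((D.mu f 0 : ℕ) : ℤ) + ((D.mu f 1 : ℕ) : ℤ) = (D.c + 1) * D.d := by
  rw [D.mu_zero hf, D.mu_one hf]; ring

theorem mu_inj {f g : ℤ} (hf : f ∈ PF T) (hg : g ∈ PF T) (h : D.mu f = D.mu g) : f = g := by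
  have h1 := D.mu_zero hf
  have h2 := D.mu_zero hg
  rw [h] at h1
  omega

theorem InM_mu {f : ℤ} (hf : f ∈ PF T) : D.InM (D.mu f) :=
  ⟨D.c + 1, D.mu_sum hf, by rw [D.mu_zero hf]; exact (D.socle_suf hf).1⟩

theorem not_InJ_mu {f : ℤ} (hf : f ∈ PF T) : ¬ D.InJ (D.mu f) := by
  rintro ⟨j, h1, h2⟩
  rw [D.mu_sum hf] at h1
  have hj : D.c + 1 = j := mul_right_cancel₀ D.d_pos.ne' h1
  subst hj
  rw [D.mu_zero hf, add_sub_cancel_right, add_sub_cancel_right] at h2
  rcases h2 with h | h
  · exact (D.socle_suf hf).2.1 h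
  · exact (D.socle_suf hf).2.2.1 h

theorem InJ_gen_mu {f : ℤ} (hf : f ∈ PF T) {a : ℕ} (ha : D.Am (a : ℤ)) :
    D.InJ (E a (D.curve.d - a) + D.mu f) := by
  have hb := D.Am_bounds ha
  have hd := D.curve_d
  have h0 := D.mu_zero hf
  have h1 := D.mu_one hf
  refine ⟨D.c + 2, ?_, ?_⟩
  · simp only [Finsupp.add_apply, E_zero, E_one]
    push_cast [Nat.cast_sub (show a ≤ D.curve.d by omega)]
    rw [h0, h1, hd]; ring
  · simp only [Finsupp.add_apply, E_zero]
    push_cast
    rw [h0, show D.c + 2 - 1 = D.c + 1 by ring, show (a : ℤ) + (f + D.d) = f + D.d + a by ring,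
      show f + D.d + a - D.d = f + a by ring]
    exact (D.socle_suf hf).2.2.2 a ha

variable (k : Type u) [Field k]

/-- the socle elements -/
noncomputable def sv (f : PF T) : D.R k ⧸ D.J k :=
  Ideal.Quotient.mk _ ⟨monomial (D.mu f) 1, D.monomial_mem k (D.InM_mu f.2)⟩

theorem sv_mem (f : PF T) : D.sv k f ∈ D.curve.socle k := by
  rw [MonCurve.mem_socle_iff]
  intro a ha
  rw [sv, ← map_mul, Ideal.Quotient.eq_zero_iff_mem, mem_J_iff]
  intro e he
  rw [Subalgebra.coe_mul, coe_x, monomial_mul, one_mul] at he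
  have := support_monomial_subset he
  rw [Finset.mem_singleton] at this
  subst this
  exact D.InJ_gen_mu f.2 (D.mem_curve_A.1 ha)

include D in
theorem finite_PF : (PF T).Finite := by
  refine (Set.finite_Icc 0 D.F).subset fun f hf => ?_
  have := D.hmin f hf
  have := D.h1
  exact ⟨by omega, D.le_F hf⟩

theorem sum_coe [Fintype (PF T)] (c : PF T → k) :
    ((∑ f : PF T, c f • (⟨monomial (D.mu f) 1, D.monomial_mem k (D.InM_mu f.2)⟩ : D.R k) : D.R k)
      : MvPolynomial (Fin 2) k) = ∑ f : PF T, monomial (D.mu f) (c f) := by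
  rw [AddSubmonoidClass.coe_finset_sum]
  refine Finset.sum_congr rfl fun f _ => ?_
  rw [Subalgebra.coe_smul, smul_monomial, smul_eq_mul, mul_one]

theorem coeff_sum_mu [Fintype (PF T)] (c : PF T → k) (f : PF T) :
    coeff (D.mu f) (∑ f : PF T, monomial (D.mu f) (c f)) = c f := by
  classical
  rw [MvPolynomial.coeff_sum, Finset.sum_eq_single f]
  · simp
  · intro g _ hg
    rw [coeff_monomial, if_neg]
    intro h
    exact hg (Subtype.ext (D.mu_inj g.2 f.2 h))
  · intro h; exact absurd (Finset.mem_univ _) h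

theorem sv_li : LinearIndependent k (D.sv k) := by
  classical
  haveI : Fintype (PF T) := D.finite_PF.fintype
  rw [Fintype.linearIndependent_iff]
  intro c hc f
  by_contra hcf
  have h1 : (∑ f : PF T, c f • (⟨monomial (D.mu f) 1, D.monomial_mem k (D.InM_mu f.2)⟩ :
      D.R k)) ∈ D.J k := by
    rw [← Ideal.Quotient.eq_zero_iff_mem, map_sum, ← hc]
    rfl
  rw [mem_J_iff, sum_coe] at h1
  refine D.not_InJ_mu f.2 (h1 _ ?_)
  rw [mem_support_iff, coeff_sum_mu]
  exact hcf

theorem socle_eq : D.curve.socle k = Submodule.span k (Set.range (D.sv k)) := by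
  classical
  haveI : Fintype (PF T) := D.finite_PF.fintype
  apply le_antisymm
  · intro z hz
    obtain ⟨f, rfl⟩ := Ideal.Quotient.mk_surjective z
    have hd := D.curve_d
    -- the exponents outside `J`
    have key : ∀ e ∈ (f : MvPolynomial (Fin 2) k).support, ¬ D.InJ e →
        ∃ g : PF T, e = D.mu g := by
      intro e he hJ
      obtain ⟨j, h1, h2⟩ := (D.mem_coordRing_iff k _).1 f.2 e he
      have hn1 : ¬ D.G (j - 1) (e 0) := fun h => hJ ⟨j, h1, Or.inl h⟩
      have hn2 : ¬ D.G (j - 1) (e 0 - D.d) := fun h => hJ ⟨j, h1, Or.inr h⟩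
      have := D.socle_nec h2 hn1 hn2 (by
        intro a ha
        have hab := D.Am_bounds ha
        obtain ⟨a, rfl⟩ := Int.eq_ofNat_of_zero_le hab.1
        have h3 := (D.curve.mem_socle_iff k _).1 hz a (D.mem_curve_A.2 ha)
        rw [← map_mul, Ideal.Quotient.eq_zero_iff_mem, mem_J_iff] at h3
        obtain ⟨j', h4, h5⟩ := h3 (E a (D.curve.d - a) + e) (by
          rw [Subalgebra.coe_mul, coe_x, mem_support_iff, coeff_monomial_mul, one_mul]
          exact mem_support_iff.1 he)
        simp only [Finsupp.add_apply, E_zero, E_one] at h4 h5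
        push_cast [Nat.cast_sub (show a ≤ D.curve.d by omega)] at h4 h5
        have hj' : j' = j + 1 := by
          have : j' * D.d = (j + 1) * D.d := by
            rw [← h4, hd]; linarith
          exact mul_right_cancel₀ D.d_pos.ne' this
        subst hj'
        rw [add_sub_cancel_right] at h5
        rwa [add_comm (a : ℤ) (e 0 : ℤ)] at h5)
      refine ⟨⟨_, this.1⟩, ?_⟩
      have h6 := D.mu_zero this.1
      have h7 := D.mu_one this.1
      rw [← this.2] at h7
      apply E_ext
      · simp only; omega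
      · simp only; omega
    have h8 : Ideal.Quotient.mk (D.J k) f = Ideal.Quotient.mk (D.J k)
        (∑ g : PF T, (coeff (D.mu g) (f : MvPolynomial (Fin 2) k)) •
          (⟨monomial (D.mu g) 1, D.monomial_mem k (D.InM_mu g.2)⟩ : D.R k)) := by
      rw [Ideal.Quotient.eq, mem_J_iff]
      intro e he
      rw [Subalgebra.coe_sub, sum_coe, mem_support_iff, coeff_sub] at he
      by_contra hJ
      by_cases hef : e ∈ (f : MvPolynomial (Fin 2) k).support
      · obtain ⟨g, rfl⟩ := key e hef hJ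
        rw [D.coeff_sum_mu k (fun g => coeff (D.mu g) (f : MvPolynomial (Fin 2) k)) g, sub_self] at he
        exact he rfl
      · rw [notMem_support_iff.1 hef, zero_sub, MvPolynomial.coeff_sum, Finset.sum_eq_zero,
          neg_zero] at he
        · exact he rfl
        · intro g _
          rw [coeff_monomial]
          split_ifs with h9
          · rw [h9]; exact notMem_support_iff.1 hef
          · rfl
    change Ideal.Quotient.mk (D.J k) f ∈ _
    rw [h8, map_sum]
    refine Submodule.sum_mem _ fun g _ => ?_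
    have h9 : Ideal.Quotient.mk (D.J k) ((coeff (D.mu g) (f : MvPolynomial (Fin 2) k)) •
          (⟨monomial (D.mu g) 1, D.monomial_mem k (D.InM_mu g.2)⟩ : D.R k)) =
        (coeff (D.mu g) (f : MvPolynomial (Fin 2) k)) • D.sv k g := rfl
    rw [h9]
    exact Submodule.smul_mem _ _ (Submodule.subset_span ⟨g, rfl⟩)
  · rw [Submodule.span_le]
    rintro _ ⟨f, rfl⟩
    exact D.sv_mem k f

theorem cmType_eq : D.curve.cmType k = (PF T).ncard := by
  classical
  haveI : Fintype (PF T) := D.finite_PF.fintype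
  rw [MonCurve.cmType, socle_eq]
  rw [finrank_span_eq_card (D.sv_li k), Set.ncard_eq_toFinset_card', Set.toFinset_card]

end Dat

/-- The construction applies to every numerical semigroup with at least two pseudo-Frobenius
numbers (in fact to every one different from `ℕ`). -/
theorem exists_dat (T : AddSubmonoid ℕ) (hfin : ((T : Set ℕ)ᶜ).Finite) (hT : T ≠ ⊤) :
    Nonempty (Dat T) := by
  classical
  -- the largest gap
  have hne : ((T : Set ℕ)ᶜ).Nonempty := by
    rw [Set.nonempty_compl]
    intro h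
    exact hT (SetLike.coe_injective (by rw [h]; rfl))
  obtain ⟨F, hF, hFmax⟩ := Set.exists_max_image _ id hfin hne
  have hFT : F ∉ T := hF
  have hgt : ∀ n : ℕ, F < n → n ∈ T := by
    intro n hn
    by_contra h
    have := hFmax n h
    simp only [id] at this
    omega
  have hF0 : 0 < F := by
    rcases Nat.eq_zero_or_pos F with h | h
    · subst h; exact absurd T.zero_mem hFT
    · exact h
  have hF2 : ∀ x : ℤ, (F : ℤ) < x → TT T x := by
    intro x hx
    obtain ⟨n, rfl⟩ := Int.eq_ofNat_of_zero_le (show 0 ≤ x by omega)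
    exact Dat.TT_iff.2 (hgt n (by exact_mod_cast hx))
  have hFP : (F : ℤ) ∈ PF T := by
    refine ⟨fun h => hFT (Dat.TT_iff.1 h), fun s hs hs0 => hF2 _ (by
      have : 0 < s := Nat.pos_of_ne_zero hs0
      omega)⟩
  have hpos : ∀ f ∈ PF T, 0 < f := by
    intro f hf
    by_contra hcon
    rcases eq_or_lt_of_le (not_lt.1 hcon) with h | h
    · subst h; exact hf.1 TT_zero
    · have h1 := hf.2 (F - f).toNat (Dat.TT_iff.1 (by
        rw [Int.toNat_of_nonneg (by omega)]; exact hF2 _ (by omega))) (by omega)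
      rw [Int.toNat_of_nonneg (by omega), show f + ((F : ℤ) - f) = F by ring] at h1
      exact hFT (Dat.TT_iff.1 h1)
  have hle : ∀ f ∈ PF T, f ≤ F := by
    intro f hf
    by_contra h
    exact hf.1 (hF2 f (by omega))
  have hPfin : (PF T).Finite := (Set.finite_Icc 0 (F : ℤ)).subset fun f hf =>
    ⟨(hpos f hf).le, hle f hf⟩
  obtain ⟨f1, hf1, hf1min⟩ := Set.exists_min_image _ id hPfin ⟨_, hFP⟩
  have h1 := hpos f1 hf1
  have h2 := hle f1 hf1
  refine ⟨{
    F := F
    f1 := f1
    m := F + 2 * (F - f1) + 1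
    b := 4 * (F + 2 * (F - f1) + 1) + 2 * F + 2 + 2 * (2 * (F + 2 * (F - f1) + 1) - 1 + f1)
    c := 1 + 2 * (F + 2 * (F - f1) + 1) + (2 * (F + 2 * (F - f1) + 1) - 1 + f1)
    hF := hFP
    hF2 := hF2
    hf1 := hf1
    hmin := fun f hf => hf1min f hf
    h1 := h1
    hm := by omega
    hm2 := by omega
    hb := by omega
    hb2 := by omega
    hd := ?_ }⟩
  generalize hm : (F : ℤ) + 2 * (F - f1) + 1 = m
  have hm0 : 0 < m := by omega
  generalize hb : 4 * m + 2 * (F : ℤ) + 2 + 2 * (2 * m - 1 + f1) = b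
  have hb0 : 1 ≤ b := by omega
  generalize hκ : 2 * m - 1 + f1 = κ
  have hκ0 : 0 ≤ κ := by omega
  nlinarith

end Pool.Agent.Q86.Curve
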