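import Pool.Agent.Q86.TO15
import Pool.Agent.TH188.WP.RatF
import Pool.Agent.H519R3.RS.LUS

/-!
MP_3029eb_ag: local uniformization, at all valuations and in all dimensions, of the local rings of
the closures `X ⊆ B × 𝔸^q` of families of affine subspaces of `𝔸^q` over (singular) varieties `B`
of characteristic `p` which are defined over a surface by a complete system of relations between
products of linear forms, and of the local rings of the quotients of `X` by group schemes of order
`p` over `B` which act by translations.
-/

set_option autoImplicit false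

open AlgebraicGeometry CategoryTheory MvPolynomial Pool.Agent.W558 Pool.Agent.H519R3.RS

namespace Pool.Agent.Results.MP_3029eb_ag.FormFamilyQuotientsLU

section defs

variable {K : Type} [Field K] {q m : ℕ}

/-- The `j`-th coordinate `∑ α_j i u_i + β_j` of the point of the affine subspace with the
parameters `u = (u_1, ..., u_m)`. -/
noncomputable def coordinate (α : Fin q → Fin m → K) (β : Fin q → K) (j : Fin q) :
    MvPolynomial (Fin m) K :=
  ∑ i, C (α j i) * X i + C (β j)

/-- The translation `u ↦ u + T w` in the direction of the vector `w`: the homomorphism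
`K[u_1, ..., u_m] → K[u_1, ..., u_m][T]` which maps `u_i` to `u_i + w_i T`. -/
noncomputable def translate (w : Fin m → K) :
    MvPolynomial (Fin m) K →ₐ[K] Polynomial (MvPolynomial (Fin m) K) :=
  aeval fun j => Polynomial.C (X j) + Polynomial.X * Polynomial.C (C (w j))

/-- The polynomial `f` is invariant under the group scheme `G_c = {t : t ^ p = c t}`, which acts by
`(t, u) ↦ u + t w`: `f (u + T w) = f (u)` in `K[u][T] / (T ^ p - c T)`. -/
def IsInvariant (p : ℕ) (c : K) (w : Fin m → K) (f : MvPolynomial (Fin m) K) : Prop :=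
  Polynomial.X ^ p - Polynomial.C (C c) * Polynomial.X ∣ translate w f - Polynomial.C f

/-- The coordinate ring of the closure `X` in `B × 𝔸^q`, `B = Spec R`, of the family of affine
subspaces `{α u + β}` over the generic point of `B`: the image of `R[y_1, ..., y_q]` in the ring of
functions `K[u_1, ..., u_m]` of the affine subspace. -/
noncomputable def coordinateRing (R : Type) [CommRing R] [Algebra R K]
    (α : Fin q → Fin m → K) (β : Fin q → K) : Subalgebra R (MvPolynomial (Fin m) K) :=
  Algebra.adjoin R (Set.range (coordinate α β))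

/-- The ring of the functions on `X` which are invariant under the group scheme `G_c` acting by
`(t, u) ↦ u + t w`. -/
noncomputable def invariants {R : Type} [CommRing R] [Algebra R K] (p : ℕ)
    (α : Fin q → Fin m → K) (β : Fin q → K) (c : R) (w : Fin m → K) :
    Subalgebra R (MvPolynomial (Fin m) K) where
  carrier := {f | f ∈ coordinateRing R α β ∧ IsInvariant p (algebraMap R K c) w f}
  mul_mem' := fun hf hg => ⟨Subalgebra.mul_mem _ hf.1 hg.1,
    (Pool.Agent.Q86.TO.inv p _ w).mul_mem hf.2 hg.2⟩
  add_mem' := fun hf hg => ⟨Subalgebra.add_mem _ hf.1 hg.1,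
    (Pool.Agent.Q86.TO.inv p _ w).add_mem hf.2 hg.2⟩
  algebraMap_mem' := fun x => ⟨Subalgebra.algebraMap_mem _ x,
    (Pool.Agent.Q86.TO.inv p _ w).algebraMap_mem (algebraMap R K x)⟩

/-- The degree modulo `p` of a product of `d s` elements of `V s` for all `s` and of the powers
`f l ^ e l`, where `f l` has the degree `deg l`. -/
def degree {p n r : ℕ} (deg : Fin r → Fin n → ZMod p) (d : Fin n → ℕ) (e : Fin r → ℕ) :
    Fin n → ZMod p :=
  fun s => d s + ∑ l, e l * deg l s

/-- The group of products of forms: the subgroup of the multiplicative group of `K` generated by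
the nonzero elements of `E`, the nonzero elements of the spaces `V s` and the nonzero `f l`. -/
def products {E : Type} [Field E] [Algebra E K] {n r : ℕ}
    (V : Fin n → Submodule E K) (f : Fin r → K) : Subgroup Kˣ :=
  Subgroup.closure {x : Kˣ | (∃ b, algebraMap E K b = x) ∨ (∃ s, (x : K) ∈ V s) ∨ ∃ l, f l = x}

end defs

/-- The field `E` is the function field of a smooth projective surface over `k`, or a rational
function field in two variables, or such that any finite family of nonzero elements of `E` has its
zeros and poles in a simple normal crossings divisor on some smooth projective variety with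
function field `E`. -/
def GoodField (k E : Type) [Field k] [Field E] [Algebra k E] : Prop :=
  (Algebra.trdeg k E = 2 ∧ HasModel k E) ∨
    Nonempty (E ≃ₐ[k] FractionRing (MvPolynomial (Fin 2) k)) ∨ HasLogModels k E

lemma GoodField.hasLM {k E : Type} [Field k] [PerfectField k] [Field E] [Algebra k E]
    (h : GoodField k E) : Pool.Agent.W418.LCI.HasLM k E := by
  rcases h with h | ⟨⟨ε⟩⟩ | h
  · exact Pool.Agent.W418.LCI.hasLM_of_surface k E h.1 h.2
  · exact Pool.Agent.W418.LCI.hasLM_of_surface k E (ε.trdeg_eq.trans (trdeg_RF2 k))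
      (Pool.Agent.TH188.WP.hasModel_of_equiv ε.symm (hasModel_RF2 k))
  · exact Pool.Agent.W418.LCI.hasLM_of_models k E h

/-- A matrix whose columns are linearly independent has a minor different from zero. -/
lemma exists_minor {E : Type} [Field E] {q m : ℕ} (α : Fin q → Fin m → E)
    (h : ∀ u : Fin m → E, (∀ j, ∑ i, α j i * u i = 0) → u = 0) :
    ∃ f : Fin m → Fin q, Pool.Agent.Q86.TO.dlt α f ≠ 0 := by
  classical
  have hspan : Submodule.span E (Set.range α) = ⊤ := by
    by_contra hne
    obtain ⟨φ, hφ, hφ0⟩ := Submodule.exists_le_ker_of_lt_top _ (lt_top_iff_ne_top.2 hne)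
    apply hφ
    have h1 : (fun i => φ (Pi.single i 1)) = 0 := by
      apply h
      intro j
      have h2 : φ (α j) = 0 := hφ0 (Submodule.subset_span ⟨j, rfl⟩)
      rw [← h2]
      conv_rhs => rw [pi_eq_sum_univ' (α j), map_sum]
      refine Finset.sum_congr rfl fun i _ => ?_
      rw [map_smul, smul_eq_mul]
    apply LinearMap.pi_ext'
    intro i
    apply LinearMap.ext_ring
    exact congrFun h1 i
  obtain ⟨s, hs, hss, hli⟩ := exists_linearIndependent E (Set.range α)
  rw [hspan] at hss
  let B : Module.Basis s E (Fin m → E) := Module.Basis.mk hli (by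
    rw [Subtype.range_coe, hss])
  have hfin : Fintype s := FiniteDimensional.fintypeBasisIndex B
  have hcard : Fintype.card s = Fintype.card (Fin m) := by
    rw [← Module.finrank_eq_card_basis B, Module.finrank_fin_fun, Fintype.card_fin]
  let ε : Fin m ≃ s := (Fintype.equivOfCardEq hcard).symm
  choose g hg using fun x : s => hs x.2
  refine ⟨fun i => g (ε i), ?_⟩
  have hli' : LinearIndependent E (fun i => α (g (ε i))) := by
    have e : (fun i => α (g (ε i))) = (Subtype.val : s → (Fin m → E)) ∘ ε := by
      funext i
      exact hg (ε i)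
    rw [e]
    exact hli.comp _ ε.injective
  have h3 : IsUnit (Matrix.of fun i => α (g (ε i))) :=
    Matrix.linearIndependent_rows_iff_isUnit.1 hli'
  exact ((Matrix.isUnit_iff_isUnit_det _).1 h3).ne_zero

/-- Let `k` be a perfect field of characteristic `p`, let `E` be the function field of a smooth
projective surface over `k` (or rational of transcendence degree two, or a field with log smooth
models), and `K` a field extension of `E` which is generated by finite-dimensional `E`-subspaces
`V 0, ..., V (n - 1)`. Let `f 0, ..., f (r - 1)` be elements of `K` such that each `f j` is a sum of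
terms, where a term is the product of a nonzero element `a j i` of `E`, of `d j i s` nonzero
elements `g j i s t` of `V s` for all `s`, and of powers of elements `f l ≠ 0` with `l < j`. Give
`f j` the degree (in `(ℤ/p)^n`) of its first term, and suppose that the differences of the degrees
of the other terms of `f j` and the degree of `f j`, for all `j` together, are linearly independent
modulo `p`, and that the relations `f j = 0` are complete: the transcendence degree of `K` over `E`
is the sum of the dimensions of the `V s` minus the number of indices `j` with `f j = 0`.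

Let `R` be a `k`-algebra with fraction field `K` which is generated by a finite set `S` of products
of forms (elements of the group `products V f`), and `B = Spec R`. Let `α₀` be a `q × m`-matrix with
entries in `E` and linearly independent columns, let `λ_1, ..., λ_q`, `ρ` and `τ` be products of
forms, let `α` be the matrix with the entries `λ_j α₀_j i`, and `β` a vector with the entries
`λ_j ρ β₀_j`, `β₀_j ∈ V s₀`. Let `X ⊆ B × 𝔸^q` be the closure of the family of the affine subspaces
`{α u + β}` of dimension `m`, which is defined over a dense open subset of `B`. Let `c` be an element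
of `R`, and `w` a vector with entries in `τ V s₁` such that `ν = α w` has entries in `R`, so that the
group scheme `G_c = {t : t ^ p = c * t}` of order `p` over `B` acts on `X` by
`(t, (x, y)) ↦ (x, y + t * ν (x))`. Then the local ring of the quotient `X / G_c` (for `w = 0` this is
`X` itself) at every point admits local uniformization: `R'` is the localization of the ring of
invariants at an arbitrary prime ideal. -/
theorem result (p : ℕ) [Fact p.Prime] (k E K R : Type) [Field k] [PerfectField k] [CharP k p]
    [Field E] [Algebra k E] (hE : GoodField k E)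
    [Field K] [Algebra E K] [Algebra k K] [IsScalarTower k E K]
    (n : ℕ) (V : Fin n → Submodule E K) [∀ s, FiniteDimensional E (V s)]
    (hgen : IntermediateField.adjoin E (⋃ s, (V s : Set K)) = ⊤)
    (r : ℕ) (ι : Fin r → Type) [∀ j, Fintype (ι j)] (i₀ : ∀ j, ι j)
    (a : ∀ j, ι j → E) (ha : ∀ j i, a j i ≠ 0) (d : ∀ j, ι j → Fin n → ℕ)
    (g : ∀ j i s, Fin (d j i s) → K) (hgV : ∀ j i s t, g j i s t ∈ V s)
    (hg0 : ∀ j i s t, g j i s t ≠ 0) (e : ∀ j, ι j → Fin r → ℕ) (f : Fin r → K)
    (he : ∀ j i l, e j i l ≠ 0 → l < j ∧ f l ≠ 0)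
    (hf : ∀ j, f j = ∑ i, algebraMap E K (a j i) * ((∏ s, ∏ t, g j i s t) * ∏ l, f l ^ e j i l))
    (deg : Fin r → Fin n → ZMod p)
    (hdeg : ∀ j, deg j = degree deg (d j (i₀ j)) (e j (i₀ j)))
    (hind : LinearIndependent (ZMod p) fun q : (j : Fin r) × {i : ι j // i ≠ i₀ j} =>
      degree deg (d q.1 q.2) (e q.1 q.2) - deg q.1)
    (htr : Algebra.trdeg E K + (Nat.card {j // f j = 0} : Cardinal) =
      ((∑ s, Module.finrank E (V s) : ℕ) : Cardinal))
    [CommRing R] [IsDomain R] [Algebra k R] [Algebra R K] [IsScalarTower k R K]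
    [IsFractionRing R K] (S : Finset Kˣ) (hS : ∀ x ∈ S, x ∈ products V f)
    (hR : (IsScalarTower.toAlgHom k R K).range = Algebra.adjoin k (Units.val '' (S : Set Kˣ)))
    (q m : ℕ) (α₀ : Fin q → Fin m → E)
    (hα₀ : ∀ u : Fin m → E, (∀ j, ∑ i, α₀ j i * u i = 0) → u = 0)
    (lam : Fin q → Kˣ) (hlam : ∀ j, lam j ∈ products V f) (ρ τ : Kˣ) (hρ : ρ ∈ products V f)
    (hτ : τ ∈ products V f) (α : Fin q → Fin m → K)
    (hα : ∀ j i, α j i = lam j * algebraMap E K (α₀ j i)) (s₀ s₁ : Fin n) (β : Fin q → K)
    (hβ : ∀ j, ∃ v ∈ V s₀, β j = lam j * (ρ * v)) (c : R) (w : Fin m → K)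
    (hw : ∀ i, ∃ v ∈ V s₁, w i = τ * v) (ν : Fin q → R)
    (hν : ∀ j, algebraMap R K (ν j) = ∑ i, α j i * w i)
    (P : Ideal (invariants p α β c w)) [P.IsPrime] (R' : Type) [CommRing R'] [IsLocalRing R']
    [Algebra (invariants p α β c w) R'] [IsLocalization.AtPrime R' P] : AdmitsLU R' := by
  classical
  have hM : ∀ x : Kˣ, x ∈ products V f → (x : K) ∈ Pool.Agent.Q86.TO.ForM V f :=
    fun x hx => ⟨x, hx, rfl⟩
  choose β₀ hβ₀ hβ' using hβ
  choose w₀ hw₀ hw' using hw
  have eα : α = fun j i => (lam j : K) * algebraMap E K (α₀ j i) := by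
    funext j i
    exact hα j i
  have eβ : β = fun j => (lam j : K) * ((ρ : K) * β₀ j) := funext hβ'
  have ew : w = fun i => (τ : K) * w₀ i := funext hw'
  have hrk : ∃ g, Pool.Agent.Q86.TO.dlt α g ≠ 0 := by
    obtain ⟨g, hg⟩ := exists_minor α₀ hα₀
    refine ⟨g, ?_⟩
    rw [eα, Pool.Agent.Q86.TO.dlt_scaled]
    exact mul_ne_zero (Finset.prod_ne_zero_iff.2 fun c _ => (lam _).ne_zero)
      ((map_ne_zero _).2 hg)
  have hF : ∀ x ∈ Pool.Agent.Q86.TO.funsL p α β [(algebraMap R K c, w)], x ≠ 0 →
      x ∈ Pool.Agent.Q86.TO.EM (algebraMap E K).fieldRange (Pool.Agent.Q86.TO.ForM V f) := by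
    rw [eα, eβ, ew]
    exact Pool.Agent.Q86.TO.funsL_forms p V f α₀ _ (fun j => hM _ (hlam j)) ρ τ (hM _ hρ)
      (hM _ hτ) s₀ s₁ β₀ hβ₀ _ w₀ hw₀
  have hG : Pool.Agent.Q86.TO.GenBy (IsScalarTower.toAlgHom k R K).range
      (Pool.Agent.Q86.TO.EM (algebraMap E K).fieldRange (Pool.Agent.Q86.TO.ForM V f)) := by
    refine ⟨S.image Units.val, ?_, ?_⟩
    · rw [Finset.coe_image]
      exact hR.symm
    · intro x hx _
      obtain ⟨y, hy, rfl⟩ := Finset.mem_image.1 hx
      exact ⟨1, ⟨1, map_one _⟩, y, hM y (hS y hy), (one_mul _).symm⟩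
  have hres := Pool.Agent.Q86.TO.mainLK (p := p) (K := K)
    (Pool.Agent.Q86.TO.hasLMs_forms p k E K hE.hasLM n V hgen r ι i₀ a ha d g hgV hg0 e f he hf deg
      hdeg hind htr) hG α β hrk [(c, w)] (by
        intro it hit j
        rw [List.mem_singleton] at hit
        subst hit
        exact ⟨ν j, hν j⟩) hF (invariants p α β c w) (by
        intro x
        constructor
        · rintro ⟨h2, h3⟩
          refine ⟨h2, fun it hit => ?_⟩
          rw [List.mem_singleton] at hit
          subst hit
          exact h3
        · rintro ⟨h2, h3⟩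
          exact ⟨h2, h3 (c, w) (List.mem_singleton.2 rfl)⟩)
  exact admitsLU_of_res (k := k) hres.2 P R'

end Pool.Agent.Results.MP_3029eb_ag.FormFamilyQuotientsLU
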