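import Mathlib

/-!
# Gorenstein section rings: the numerator of the Hilbert series
-/

set_option autoImplicit false

namespace Pool.Agent.Q86.GS

open Polynomial

section num

/-- A power series with finitely many nonzero coefficients. -/
lemma exists_poly_of_eventually_zero {f : ℕ → ℤ} {N : ℕ} (h : ∀ n, N ≤ n → f n = 0) :
    ∃ Q : ℤ[X], (PowerSeries.mk f : PowerSeries ℤ) = (Q : PowerSeries ℤ) := by
  refine ⟨PowerSeries.trunc N (PowerSeries.mk f), ?_⟩
  ext n
  rw [Polynomial.coeff_coe, PowerSeries.coeff_trunc, PowerSeries.coeff_mk]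
  split_ifs with hn
  · rfl
  · exact h n (not_lt.1 hn)

lemma one_sub_X_mul_mk (f : ℕ → ℤ) : (1 - PowerSeries.X) * PowerSeries.mk f =
    PowerSeries.mk (fun n => f n - if n = 0 then 0 else f (n - 1)) := by
  ext n
  rw [sub_mul, one_mul, map_sub, PowerSeries.coeff_mk, PowerSeries.coeff_mk]
  rcases n with _ | n
  · simp
  · rw [PowerSeries.coeff_succ_X_mul, PowerSeries.coeff_mk]
    simp

/-- The difference of a polynomial. -/
lemma natDegree_diff {P : ℚ[X]} (hP : 0 < P.natDegree) :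
    (P - P.comp (X - C 1)).natDegree < P.natDegree := by
  have h1 : (P.comp (X - C 1)).natDegree = P.natDegree := by
    rw [natDegree_comp, natDegree_X_sub_C, mul_one]
  have hP0 : P ≠ 0 := by
    rintro rfl
    simp at hP
  have h2 : (P.comp (X - C 1)).leadingCoeff = P.leadingCoeff := by
    rw [leadingCoeff_comp (by rw [natDegree_X_sub_C]; exact one_ne_zero), leadingCoeff_X_sub_C,
      one_pow, mul_one]
  have hc0 : P.comp (X - C 1) ≠ 0 := by
    rw [← leadingCoeff_ne_zero, h2]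
    exact leadingCoeff_ne_zero.2 hP0
  have h3 : P.degree = (P.comp (X - C 1)).degree := by
    rw [degree_eq_natDegree hP0, degree_eq_natDegree hc0, h1]
  by_cases h0 : P - P.comp (X - C 1) = 0
  · rw [h0, natDegree_zero]
    exact hP
  · exact natDegree_lt_natDegree h0 (degree_sub_lt h3 hP0 h2.symm)

/-- The generating function of an eventually polynomial sequence. -/
theorem exists_poly (M : ℕ) : ∀ (P : ℚ[X]), P.natDegree < M → ∀ (f : ℕ → ℤ) (N : ℕ),
    (∀ n, N ≤ n → (f n : ℚ) = P.eval (n : ℚ)) →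
    ∃ Q : ℤ[X], (1 - PowerSeries.X) ^ M * (PowerSeries.mk f : PowerSeries ℤ) =
      (Q : PowerSeries ℤ) := by
  induction M with
  | zero => intro P hP; exact absurd hP (Nat.not_lt_zero _)
  | succ M ih =>
    intro P hP f N hf
    rw [pow_succ, mul_assoc, one_sub_X_mul_mk]
    have hf' : ∀ n, N + 1 ≤ n → ((f n - if n = 0 then 0 else f (n - 1) : ℤ) : ℚ) =
        (P - P.comp (X - C 1)).eval (n : ℚ) := by
      intro n hn
      have hn0 : n ≠ 0 := by omega
      rw [if_neg hn0, Int.cast_sub, hf n (by omega), hf (n - 1) (by omega), eval_sub, eval_comp,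
        eval_sub, eval_X, eval_C, Nat.cast_sub (by omega), Nat.cast_one]
    by_cases h0 : 0 < P.natDegree
    · exact ih _ (lt_of_lt_of_le (natDegree_diff h0) (by omega)) _ (N + 1) hf'
    · obtain ⟨Q, hQ⟩ := exists_poly_of_eventually_zero
        (f := fun n => f n - if n = 0 then 0 else f (n - 1)) (N := N + 1) (fun n hn => by
          have h1 := hf' n hn
          have h2 : P = C (P.coeff 0) := eq_C_of_natDegree_eq_zero (by omega)
          rw [h2, C_comp, sub_self, eval_zero] at h1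
          exact_mod_cast h1)
      refine ⟨(1 - X) ^ M * Q, ?_⟩
      rw [hQ]
      simp

/-- The geometric sum. -/
noncomputable def gs (e : ℕ) : ℤ[X] := ∑ i ∈ Finset.range e, X ^ i

lemma gs_mul (e : ℕ) : gs e * (X - 1) = X ^ e - 1 := geom_sum_mul X e

lemma gs_eval (e : ℕ) : (gs e).eval 1 = e := by
  unfold gs
  simp [eval_finset_sum]

lemma X_pow_sub_one_natDegree {e : ℕ} (he : 0 < e) : (X ^ e - 1 : ℤ[X]).natDegree = e := by
  rw [← C_1]
  exact natDegree_X_pow_sub_C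

lemma gs_ne {e : ℕ} (he : 0 < e) : gs e ≠ 0 := by
  intro h
  have h1 := gs_eval e
  rw [h, eval_zero] at h1
  have : (0 : ℤ) < e := by exact_mod_cast he
  omega

lemma gs_natDegree {e : ℕ} (he : 0 < e) : (gs e).natDegree + 1 = e := by
  have h1 := congrArg natDegree (gs_mul e)
  rw [natDegree_mul (gs_ne he) (by
    rw [← C_1]; exact X_sub_C_ne_zero 1), X_pow_sub_one_natDegree he] at h1
  have h2 : (X - 1 : ℤ[X]).natDegree = 1 := by
    rw [← C_1]; exact natDegree_X_sub_C 1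
  rw [h2] at h1
  exact h1

lemma reverse_X_pow_sub_one {e : ℕ} (he : 0 < e) :
    (X ^ e - 1 : ℤ[X]).reverse = -(X ^ e - 1) := by
  unfold reverse
  rw [X_pow_sub_one_natDegree he, reflect_sub, reflect_monomial, revAt_le le_rfl, Nat.sub_self,
    pow_zero, ← C_1, reflect_C, C_1, one_mul]
  ring

lemma gs_reverse {e : ℕ} (he : 0 < e) : (gs e).reverse = gs e := by
  have h1 := congrArg reverse (gs_mul e)
  rw [reverse_mul_of_domain, reverse_X_pow_sub_one he] at h1
  have h2 : (X - 1 : ℤ[X]).reverse = -(X - 1) := by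
    have := reverse_X_pow_sub_one one_pos
    rwa [pow_one] at this
  rw [h2, mul_neg, neg_inj] at h1
  rw [← gs_mul] at h1
  have h3 : (X - 1 : ℤ[X]) ≠ 0 := by
    rw [← C_1]; exact X_sub_C_ne_zero 1
  exact mul_right_cancel₀ h3 h1

lemma X_sub_one_prime : Prime (X - 1 : ℤ[X]) := by
  rw [← C_1]
  exact prime_X_sub_C 1

lemma not_dvd_of_eval {G : ℤ[X]} (h : G.eval 1 ≠ 0) : ¬ (X - 1 : ℤ[X]) ∣ G := by
  rw [← C_1, dvd_iff_isRoot]
  exact h

/-- **The numerator of a symmetric Hilbert series.** -/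
theorem numerator {d : ℕ} (H : ℕ → ℤ) (e : Fin d → ℕ) (he : ∀ j, 0 < e j) (Q : ℤ[X])
    (hQ : (PowerSeries.mk H : PowerSeries ℤ) * ∏ j, (1 - PowerSeries.X ^ e j) =
      (Q : PowerSeries ℤ)) (hQr : Q.reverse = Q) (hQ1 : 0 < Q.eval 1) (P : ℚ[X]) (N : ℕ)
    (hP : ∀ n, N ≤ n → (H n : ℚ) = P.eval (n : ℚ)) :
    ∃ R : ℤ[X], (PowerSeries.mk H : PowerSeries ℤ) * (1 - PowerSeries.X) ^ d =
        (R : PowerSeries ℤ) ∧ R.reverse = R ∧ 0 < R.eval 1 ∧
      R.natDegree + ∑ j, e j = Q.natDegree + d := by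
  obtain ⟨R₀, hR₀⟩ := exists_poly (d + (P.natDegree + 1)) P (by omega) H N hP
  have hX1 : (1 - X : ℤ[X]) ≠ 0 := by
    intro h
    have := congrArg (fun q : ℤ[X] => q.coeff 0) h
    simp at this
  have hcoe : ∀ q : ℤ[X], ((1 - X : ℤ[X]) : PowerSeries ℤ) = 1 - PowerSeries.X := by
    intro q
    simp
  have hgs : ∀ e : ℕ, ((gs e * (1 - X) : ℤ[X]) : PowerSeries ℤ) = 1 - PowerSeries.X ^ e := by
    intro e
    have h1 : gs e * (1 - X) = 1 - X ^ e := by
      have := gs_mul e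
      linear_combination -this
    rw [h1]
    simp
  let G : ℤ[X] := ∏ j, gs (e j)
  have hG : ((G * (1 - X) ^ d : ℤ[X]) : PowerSeries ℤ) = ∏ j, (1 - PowerSeries.X ^ e j) := by
    have h1 : G * (1 - X) ^ d = ∏ j, (gs (e j) * (1 - X)) := by
      rw [Finset.prod_mul_distrib, Finset.prod_const, Finset.card_univ, Fintype.card_fin]
    rw [h1]
    rw [← Finset.prod_congr rfl fun j _ => hgs (e j)]
    exact map_prod (Polynomial.coeToPowerSeries.ringHom (R := ℤ))
      (fun j => gs (e j) * (1 - X)) Finset.univ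
  have hG1 : 0 < G.eval 1 := by
    change 0 < (∏ j, gs (e j)).eval 1
    rw [eval_prod]
    refine Finset.prod_pos fun j _ => ?_
    rw [gs_eval]
    exact_mod_cast he j
  have hG0 : G ≠ 0 := by
    intro h
    rw [h, eval_zero] at hG1
    exact lt_irrefl _ hG1
  -- the divisibility
  have hmain : R₀ * G = Q * (1 - X) ^ (P.natDegree + 1) := by
    have h1 : ((R₀ * G * (1 - X) ^ d : ℤ[X]) : PowerSeries ℤ) =
        ((Q * (1 - X) ^ (P.natDegree + 1) * (1 - X) ^ d : ℤ[X]) : PowerSeries ℤ) := by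
      rw [mul_assoc, Polynomial.coe_mul, hG, ← hR₀, Polynomial.coe_mul, Polynomial.coe_mul,
        Polynomial.coe_pow, Polynomial.coe_pow, hcoe 0, ← hQ, pow_add]
      ring
    exact mul_right_cancel₀ (pow_ne_zero _ hX1) (Polynomial.coe_injective ℤ h1)
  have hdvd : (1 - X : ℤ[X]) ^ (P.natDegree + 1) ∣ R₀ := by
    have h1 : (X - 1 : ℤ[X]) ^ (P.natDegree + 1) ∣ R₀ * G := by
      rw [hmain]
      refine dvd_mul_of_dvd_right ?_ _
      rw [← neg_sub X 1]
      exact (Associated.pow_pow (Associated.neg_right (Associated.refl _))).dvd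
    have h2 := X_sub_one_prime.pow_dvd_of_dvd_mul_right _ (not_dvd_of_eval hG1.ne') h1
    rw [← neg_sub X 1]
    exact (Associated.pow_pow (Associated.neg_left (Associated.refl _))).dvd.trans h2
  obtain ⟨R, hR⟩ := hdvd
  have hRG : R * G = Q := by
    apply mul_left_cancel₀ (pow_ne_zero (P.natDegree + 1) hX1)
    rw [← mul_assoc, ← hR, hmain, mul_comm]
  have hQ0 : Q ≠ 0 := by
    intro h
    rw [h, eval_zero] at hQ1
    exact lt_irrefl _ hQ1
  have hR0 : R ≠ 0 := left_ne_zero_of_mul (hRG.trans_ne hQ0)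
  refine ⟨R, ?_, ?_, ?_, ?_⟩
  · have h1 : (((1 - X) ^ (P.natDegree + 1) : ℤ[X]) : PowerSeries ℤ) *
        ((PowerSeries.mk H : PowerSeries ℤ) * (1 - PowerSeries.X) ^ d) =
        (((1 - X) ^ (P.natDegree + 1) : ℤ[X]) : PowerSeries ℤ) * (R : PowerSeries ℤ) := by
      rw [← Polynomial.coe_mul, ← hR, ← hR₀, Polynomial.coe_pow, hcoe 0, pow_add]
      ring
    refine mul_left_cancel₀ ?_ h1
    intro h
    exact pow_ne_zero (P.natDegree + 1) hX1 (Polynomial.coe_injective ℤ (by rw [h]; simp))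
  · have h1 := congrArg reverse hRG
    have h2 : G.reverse = G := by
      change (∏ j, gs (e j)).reverse = ∏ j, gs (e j)
      have : ∀ s : Finset (Fin d), (∏ j ∈ s, gs (e j)).reverse = ∏ j ∈ s, gs (e j) := by
        intro s
        classical
        induction s using Finset.induction_on with
        | empty =>
          rw [Finset.prod_empty]
          exact (reverse_C 1)
        | insert a s ha ih =>
          rw [Finset.prod_insert ha, reverse_mul_of_domain, ih, gs_reverse (he a)]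
      exact this _
    rw [reverse_mul_of_domain, hQr, ← hRG, h2] at h1
    exact mul_right_cancel₀ hG0 h1
  · have h1 := congrArg (eval 1) hRG
    rw [eval_mul] at h1
    rw [← h1] at hQ1
    exact pos_of_mul_pos_left hQ1 hG1.le
  · have h1 := congrArg natDegree hRG
    rw [natDegree_mul hR0 hG0] at h1
    have h2 : G.natDegree + d = ∑ j, e j := by
      change (∏ j, gs (e j)).natDegree + d = _
      rw [natDegree_prod _ _ fun j _ => gs_ne (he j)]
      have h3 : ∑ j : Fin d, e j = ∑ j : Fin d, ((gs (e j)).natDegree + 1) :=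
        Finset.sum_congr rfl fun j _ => (gs_natDegree (he j)).symm
      rw [h3, Finset.sum_add_distrib]
      simp
    omega

lemma coeff_mul_one_sub_X_pow {d : ℕ} (H : ℕ → ℤ) (R : ℤ[X])
    (h : (PowerSeries.mk H : PowerSeries ℤ) * (1 - PowerSeries.X) ^ d = (R : PowerSeries ℤ)) :
    R.coeff 0 = H 0 ∧ R.coeff 1 = H 1 - d * H 0 := by
  have key : ∀ d : ℕ, ∀ F : PowerSeries ℤ,
      PowerSeries.coeff 0 (F * (1 - PowerSeries.X) ^ d) = PowerSeries.coeff 0 F ∧
      PowerSeries.coeff 1 (F * (1 - PowerSeries.X) ^ d) =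
        PowerSeries.coeff 1 F - d * PowerSeries.coeff 0 F := by
    intro d
    induction d with
    | zero => intro F; simp
    | succ d ih =>
      intro F
      rw [pow_succ, ← mul_assoc]
      obtain ⟨h1, h2⟩ := ih F
      have h3 : F * (1 - PowerSeries.X) ^ d * (1 - PowerSeries.X) =
          F * (1 - PowerSeries.X) ^ d - F * (1 - PowerSeries.X) ^ d * PowerSeries.X := by ring
      rw [h3, map_sub, map_sub, h1, h2, PowerSeries.coeff_zero_mul_X,
        PowerSeries.coeff_succ_mul_X, h1]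
      push_cast
      constructor <;> ring
  obtain ⟨h1, h2⟩ := key d (PowerSeries.mk H)
  rw [h, Polynomial.coeff_coe, PowerSeries.coeff_mk] at h1
  rw [h, Polynomial.coeff_coe, PowerSeries.coeff_mk, PowerSeries.coeff_mk] at h2
  exact ⟨h1, h2⟩

/-- **The bound.** -/
theorem bound {d : ℕ} (H : ℕ → ℤ) (R : ℤ[X])
    (h : (PowerSeries.mk H : PowerSeries ℤ) * (1 - PowerSeries.X) ^ d = (R : PowerSeries ℤ))
    (hr : R.reverse = R) (h1 : 0 < R.eval 1) (hH : H 0 = 1) (hdeg : R.natDegree ≤ 3) :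
    (d : ℤ) - R.natDegree ≤ H 1 ∧ (d : ℤ) - 1 ≤ H 1 := by
  obtain ⟨h2, h3⟩ := coeff_mul_one_sub_X_pow H R h
  rw [hH] at h2 h3
  have hsym : ∀ i ≤ R.natDegree, R.coeff i = R.coeff (R.natDegree - i) := by
    intro i hi
    conv_lhs => rw [← hr]
    rw [coeff_reverse, revAt_le hi]
  have hev : R.eval 1 = ∑ i ∈ Finset.range (R.natDegree + 1), R.coeff i := by
    rw [eval_eq_sum_range]
    simp
  rw [hev] at h1
  generalize hρ : R.natDegree = ρ at *
  interval_cases ρ
  · -- degree 0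
    have h4 : R.coeff 1 = 0 := coeff_eq_zero_of_natDegree_lt (by omega)
    rw [h4] at h3
    push_cast
    constructor <;> linarith
  · have h4 := hsym 0 (by omega)
    norm_num at h4
    push_cast
    constructor <;> linarith
  · have h4 := hsym 0 (by omega)
    norm_num at h4
    simp only [Finset.sum_range_succ, Finset.sum_range_zero] at h1
    push_cast
    constructor <;> linarith
  · have h4 := hsym 0 (by omega)
    have h5 := hsym 1 (by omega)
    norm_num at h4 h5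
    simp only [Finset.sum_range_succ, Finset.sum_range_zero] at h1
    push_cast
    constructor <;> linarith

end num


section ring

universe u

variable {k S : Type u} [Field k] [CommRing S] [IsDomain S] [Algebra k S] (𝒜 : ℕ → Submodule k S)
  [GradedAlgebra 𝒜]

/-- The elements of degree `n` in the ideal. -/
def deg (I : Ideal S) (n : ℕ) : Submodule k S := 𝒜 n ⊓ I.restrictScalars k

omit [IsDomain S] [GradedAlgebra 𝒜] in
lemma mem_deg {I : Ideal S} {n : ℕ} {x : S} : x ∈ deg 𝒜 I n ↔ x ∈ 𝒜 n ∧ x ∈ I := Iff.rfl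

/-- The Hilbert function of the quotient ring. -/
noncomputable def hf (I : Ideal S) (n : ℕ) : ℤ :=
  (Module.finrank k (𝒜 n) : ℤ) - Module.finrank k (deg 𝒜 I n)

omit [IsDomain S] in
lemma decompose_self {n : ℕ} {x : S} (hx : x ∈ 𝒜 n) : (DirectSum.decompose 𝒜 x n : S) = x :=
  DirectSum.decompose_of_mem_same 𝒜 hx

variable {𝒜}

omit [IsDomain S] in
/-- The elements of the ideal `I + (θ)` of degree `n`. -/
lemma exists_of_mem_sup {I : Ideal S} (hI : I.IsHomogeneous 𝒜) {e : ℕ} {θ : S} (hθ : θ ∈ 𝒜 e)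
    {n : ℕ} {x : S} (hx : x ∈ 𝒜 n) (hxI : x ∈ I ⊔ Ideal.span {θ}) :
    ∃ a ∈ deg 𝒜 I n, ∃ b : S, x = a + θ * b ∧ (e ≤ n → b ∈ 𝒜 (n - e)) ∧ (¬ e ≤ n → b = 0) := by
  obtain ⟨a, ha, c, hc, rfl⟩ := Submodule.mem_sup.1 hxI
  obtain ⟨b, rfl⟩ := Ideal.mem_span_singleton'.1 hc
  have h1 : (DirectSum.decompose 𝒜 (a + b * θ) n : S) = a + b * θ := decompose_self 𝒜 hx
  rw [DirectSum.decompose_add, DirectSum.add_apply, Submodule.coe_add] at h1
  refine ⟨DirectSum.decompose 𝒜 a n, ⟨SetLike.coe_mem _, hI n ha⟩, ?_⟩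
  by_cases hen : e ≤ n
  · refine ⟨DirectSum.decompose 𝒜 b (n - e), ?_, fun _ => SetLike.coe_mem _,
      fun h => absurd hen h⟩
    rw [DirectSum.coe_decompose_mul_of_right_mem_of_le 𝒜 hθ hen] at h1
    rw [← h1]
    ring
  · refine ⟨0, ?_, fun h => absurd h hen, fun _ => rfl⟩
    rw [DirectSum.coe_decompose_mul_of_right_mem_of_not_le 𝒜 hθ hen] at h1
    rw [← h1]
    ring

/-- The Hilbert function of the quotient by a regular element. -/
theorem hf_step (hfin : ∀ n, Module.Finite k (𝒜 n)) {I : Ideal S} (hI : I.IsHomogeneous 𝒜) {e : ℕ}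
    {θ : S} (hθ : θ ∈ 𝒜 e) (hθ0 : θ ≠ 0) (hreg : ∀ x, θ * x ∈ I → x ∈ I) (n : ℕ) :
    hf 𝒜 (I ⊔ Ideal.span {θ}) n = hf 𝒜 I n - if e ≤ n then hf 𝒜 I (n - e) else 0 := by
  classical
  have hfd : ∀ (J : Ideal S) (m : ℕ), Module.Finite k (deg 𝒜 J m) := fun J m =>
    have := hfin m
    Submodule.finiteDimensional_of_le (inf_le_left : deg 𝒜 J m ≤ 𝒜 m)
  by_cases hen : e ≤ n
  · rw [if_pos hen]
    let f : S →ₗ[k] S := LinearMap.mulLeft k θ
    have hf : Function.Injective f := fun a b hab => mul_left_cancel₀ hθ0 hab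
    have h1 : deg 𝒜 (I ⊔ Ideal.span {θ}) n = deg 𝒜 I n ⊔ (𝒜 (n - e)).map f := by
      ext x
      constructor
      · rintro ⟨hx, hxI⟩
        obtain ⟨a, ha, b, rfl, hb, -⟩ := exists_of_mem_sup hI hθ hx hxI
        exact Submodule.add_mem_sup ha ⟨b, hb hen, rfl⟩
      · intro hx
        obtain ⟨a, ha, c, ⟨b, hb, rfl⟩, rfl⟩ := Submodule.mem_sup.1 hx
        have h2 : f b ∈ 𝒜 n := by
          have h3 := SetLike.GradedMul.mul_mem hθ hb
          rwa [Nat.add_sub_cancel' hen] at h3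
        refine ⟨Submodule.add_mem _ ha.1 h2, ?_⟩
        exact Submodule.add_mem_sup (S := I) (T := Ideal.span {θ}) ha.2
          (Ideal.mem_span_singleton'.2 ⟨b, mul_comm _ _⟩)
    have h2 : deg 𝒜 I n ⊓ (𝒜 (n - e)).map f = (deg 𝒜 I (n - e)).map f := by
      ext x
      constructor
      · rintro ⟨⟨-, hxI⟩, b, hb, rfl⟩
        exact ⟨b, ⟨hb, hreg b hxI⟩, rfl⟩
      · rintro ⟨b, ⟨hb, hbI⟩, rfl⟩
        have h3 := SetLike.GradedMul.mul_mem hθ hb
        rw [Nat.add_sub_cancel' hen] at h3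
        exact ⟨⟨h3, I.mul_mem_left θ hbI⟩, b, hb, rfl⟩
    have h3 := Submodule.finrank_sup_add_finrank_inf_eq (deg 𝒜 I n) ((𝒜 (n - e)).map f)
    rw [← h1, h2] at h3
    have h4 : ∀ W : Submodule k S, Module.finrank k (W.map f) = Module.finrank k W := fun W =>
      (LinearEquiv.finrank_eq (Submodule.equivMapOfInjective f hf W)).symm
    rw [h4, h4] at h3
    unfold Pool.Agent.Q86.GS.hf
    omega
  · rw [if_neg hen, sub_zero]
    have h1 : deg 𝒜 (I ⊔ Ideal.span {θ}) n = deg 𝒜 I n := by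
      ext x
      constructor
      · rintro ⟨hx, hxI⟩
        obtain ⟨a, ha, b, rfl, -, hb⟩ := exists_of_mem_sup hI hθ hx hxI
        rw [hb hen, mul_zero, add_zero]
        exact ha
      · rintro ⟨hx, hxI⟩
        exact ⟨hx, (le_sup_left : I ≤ I ⊔ Ideal.span {θ}) hxI⟩
    unfold Pool.Agent.Q86.GS.hf
    rw [h1]

/-- The ideal generated by the first `j` parameters. -/
def chain {d : ℕ} (θ : Fin d → S) (j : ℕ) : Ideal S := Ideal.span (θ '' {i | (i : ℕ) < j})

omit [IsDomain S] in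
lemma chain_homogeneous {d : ℕ} {θ : Fin d → S} {e : Fin d → ℕ} (hθ : ∀ j, θ j ∈ 𝒜 (e j))
    (j : ℕ) : (chain θ j).IsHomogeneous 𝒜 := by
  apply Ideal.homogeneous_span
  rintro _ ⟨i, -, rfl⟩
  exact ⟨e i, hθ i⟩

omit [IsDomain S] in
lemma chain_succ {d : ℕ} (θ : Fin d → S) (j : Fin d) :
    chain θ (j + 1) = chain θ j ⊔ Ideal.span {θ j} := by
  unfold chain
  rw [← Ideal.span_union]
  congr 1
  ext x
  constructor
  · rintro ⟨i, hi, rfl⟩
    rcases Nat.lt_succ_iff_lt_or_eq.1 hi with h | h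
    · exact Or.inl ⟨i, h, rfl⟩
    · right
      rw [Fin.ext h]
      exact rfl
  · rintro (⟨i, hi, rfl⟩ | rfl)
    · exact ⟨i, Nat.lt_succ_of_lt hi, rfl⟩
    · exact ⟨j, Nat.lt_succ_self _, rfl⟩

/-- **The Hilbert series of the quotient by a regular sequence.** -/
theorem series (hfin : ∀ n, Module.Finite k (𝒜 n)) {d : ℕ} {θ : Fin d → S} {e : Fin d → ℕ}
    (hθ : ∀ j, θ j ∈ 𝒜 (e j)) (hθ0 : ∀ j, θ j ≠ 0)
    (hreg : ∀ (j : Fin d) (x : S), θ j * x ∈ chain θ j → x ∈ chain θ j) (j : ℕ) (hj : j ≤ d) :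
    (PowerSeries.mk (hf 𝒜 (chain θ j)) : PowerSeries ℤ) =
      PowerSeries.mk (hf 𝒜 (chain θ 0)) *
        ∏ i ∈ Finset.univ.filter (fun i : Fin d => (i : ℕ) < j), (1 - PowerSeries.X ^ e i) := by
  classical
  induction j with
  | zero =>
    simp
  | succ j ih =>
    have h1 : Finset.univ.filter (fun i : Fin d => (i : ℕ) < j + 1) =
        insert (⟨j, hj⟩ : Fin d) (Finset.univ.filter (fun i : Fin d => (i : ℕ) < j)) := by
      ext i
      simp only [Finset.mem_filter, Finset.mem_univ, true_and, Finset.mem_insert, Fin.ext_iff]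
      omega
    rw [h1, Finset.prod_insert (by simp), mul_left_comm, ← ih (by omega)]
    ext n
    rw [PowerSeries.coeff_mk, sub_mul, one_mul, map_sub, PowerSeries.coeff_mk,
      PowerSeries.coeff_X_pow_mul', PowerSeries.coeff_mk]
    have h2 := chain_succ θ ⟨j, hj⟩
    change chain θ (j + 1) = chain θ j ⊔ _ at h2
    rw [h2]
    exact hf_step hfin (chain_homogeneous hθ j) (hθ _) (hθ0 _) (hreg ⟨j, hj⟩) n

omit [IsDomain S] [GradedAlgebra 𝒜] in
lemma hf_bot (n : ℕ) : hf 𝒜 (⊥ : Ideal S) n = Module.finrank k (𝒜 n) := by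
  unfold hf
  have h1 : deg 𝒜 (⊥ : Ideal S) n = ⊥ := by
    rw [eq_bot_iff]
    rintro x ⟨-, hx⟩
    exact hx
  rw [h1, finrank_bot]
  simp

omit [IsDomain S] [GradedAlgebra 𝒜] in
lemma hf_nonneg (hfin : ∀ n, Module.Finite k (𝒜 n)) (I : Ideal S) (n : ℕ) : 0 ≤ hf 𝒜 I n := by
  have := hfin n
  have h1 : Module.finrank k (deg 𝒜 I n) ≤ Module.finrank k (𝒜 n) :=
    Submodule.finrank_mono inf_le_left
  unfold hf
  omega

omit [IsDomain S] [GradedAlgebra 𝒜] in
lemma hf_eq_zero (hfin : ∀ n, Module.Finite k (𝒜 n)) {I : Ideal S} {n : ℕ} :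
    hf 𝒜 I n = 0 ↔ ∀ x ∈ 𝒜 n, x ∈ I := by
  have := hfin n
  constructor
  · intro h x hx
    have h1 : deg 𝒜 I n = 𝒜 n := Submodule.eq_of_le_of_finrank_eq inf_le_left (by
      unfold hf at h
      omega)
    have h2 : x ∈ deg 𝒜 I n := by rw [h1]; exact hx
    exact h2.2
  · intro h
    have h1 : deg 𝒜 I n = 𝒜 n := le_antisymm inf_le_left fun x hx => ⟨hx, h x hx⟩
    unfold hf
    rw [h1, sub_self]

section pairing

variable (hfin : ∀ n, Module.Finite k (𝒜 n)) {I : Ideal S} (hI : I.IsHomogeneous 𝒜) {N : ℕ}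
  (hN : ∀ n, N ≤ n → ∀ x ∈ 𝒜 n, x ∈ I) {σ : ℕ} {s : S} (hs : s ∈ 𝒜 σ) (hsI : s ∉ I)
  (hsoc : ∀ x, (∀ n, 0 < n → ∀ y ∈ 𝒜 n, x * y ∈ I) → ∃ c : k, x - c • s ∈ I)

include hI hN hs hsI hsoc

omit [IsDomain S] hsI in
/-- The pairing into the socle is not degenerate. -/
lemma exists_pair {i : ℕ} {x : S} (hx : x ∈ 𝒜 i) (hxI : x ∉ I) :
    i ≤ σ ∧ ∃ y ∈ 𝒜 (σ - i), x * y ∉ I := by
  classical
  -- the largest degree of a multiplier
  have h1 : ∃ j, ∃ y ∈ 𝒜 j, x * y ∉ I := ⟨0, 1, SetLike.GradedOne.one_mem, by rwa [mul_one]⟩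
  have h2 : ∀ j, (∃ y ∈ 𝒜 j, x * y ∉ I) → j ≤ N := by
    rintro j ⟨y, hy, hxy⟩
    by_contra h
    exact hxy (hN (i + j) (by omega) _ (SetLike.GradedMul.mul_mem hx hy))
  let j := Nat.findGreatest (fun j => ∃ y ∈ 𝒜 j, x * y ∉ I) N
  obtain ⟨j0, hj0⟩ := h1
  have hj : ∃ y ∈ 𝒜 j, x * y ∉ I := Nat.findGreatest_spec (P := fun j => ∃ y ∈ 𝒜 j, x * y ∉ I)
    (h2 j0 hj0) hj0
  obtain ⟨y, hy, hxy⟩ := hj
  have h3 : ∀ n, 0 < n → ∀ z ∈ 𝒜 n, x * y * z ∈ I := by
    intro n hn z hz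
    by_contra h
    have h4 : ∃ y ∈ 𝒜 (j + n), x * y ∉ I :=
      ⟨y * z, SetLike.GradedMul.mul_mem hy hz, by rwa [← mul_assoc]⟩
    have h5 : j + n ≤ j := Nat.le_findGreatest (h2 _ h4) h4
    omega
  obtain ⟨c, hc⟩ := hsoc _ h3
  have hxy' : x * y ∈ 𝒜 (i + j) := SetLike.GradedMul.mul_mem hx hy
  have h4 : i + j = σ := by
    by_contra hne
    have h5 := hI (i + j) hc
    rw [DirectSum.decompose_sub, DirectSum.sub_apply, Submodule.coe_sub, decompose_self 𝒜 hxy',
      DirectSum.decompose_of_mem_ne 𝒜 ((𝒜 σ).smul_mem c hs) (Ne.symm hne), sub_zero] at h5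
    exact hxy h5
  refine ⟨by omega, y, ?_, hxy⟩
  have h5 : σ - i = j := by omega
  rw [h5]
  exact hy

include hfin

omit [IsDomain S] in
/-- The Hilbert function of a Gorenstein algebra of finite length is symmetric. -/
theorem hf_le {i : ℕ} (hi : i ≤ σ) : hf 𝒜 I i ≤ hf 𝒜 I (σ - i) := by
  classical
  have := hfin σ
  have := hfin i
  have := hfin (σ - i)
  -- a functional on the socle
  obtain ⟨φ, hφ, hφI⟩ : ∃ φ : S →ₗ[k] k, φ s ≠ 0 ∧ ∀ x ∈ I, x ∈ 𝒜 σ → φ x = 0 := by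
    have h1 : s ∉ deg 𝒜 I σ := fun h => hsI h.2
    obtain ⟨φ, hφ, hφ0⟩ := Submodule.exists_le_ker_of_notMem h1
    exact ⟨φ, hφ, fun x hx hxσ => hφ0 ⟨hxσ, hx⟩⟩
  have hφσ : ∀ x ∈ 𝒜 σ, φ x = 0 → x ∈ I := by
    intro x hx hx0
    obtain ⟨c, hc⟩ := hsoc x (by
      intro n hn y hy
      by_contra h
      have h1 := (exists_pair hI hN hs hsoc (SetLike.GradedMul.mul_mem hx hy) h).1
      omega)
    have h1 : φ (x - c • s) = 0 := hφI _ hc ((𝒜 σ).sub_mem hx ((𝒜 σ).smul_mem c hs))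
    rw [map_sub, hx0, zero_sub, neg_eq_zero, map_smul, smul_eq_mul] at h1
    have hc0 : c = 0 := (mul_eq_zero.1 h1).resolve_right hφ
    rw [hc0, zero_smul, sub_zero] at hc
    exact hc
  -- the pairing
  let ψ : 𝒜 i →ₗ[k] Module.Dual k (𝒜 (σ - i)) :=
    { toFun := fun x => (φ.comp (LinearMap.mulLeft k (x : S))).comp (𝒜 (σ - i)).subtype
      map_add' := fun x y => by
        ext z
        simp [add_mul]
      map_smul' := fun c x => by
        ext z
        simp }
  have hψ : ∀ (x : 𝒜 i) (y : 𝒜 (σ - i)), ψ x y = φ ((x : S) * y) := fun x y => rfl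
  have hker : Module.finrank k (LinearMap.ker ψ) ≤ Module.finrank k (deg 𝒜 I i) := by
    let g : LinearMap.ker ψ →ₗ[k] deg 𝒜 I i :=
      { toFun := fun x => ⟨x.1.1, x.1.2, by
          by_contra h
          obtain ⟨-, y, hy, hxy⟩ := exists_pair hI hN hs hsoc x.1.2 h
          apply hxy
          apply hφσ
          · have h1 := SetLike.GradedMul.mul_mem x.1.2 hy
            rwa [Nat.add_sub_cancel' hi] at h1
          · have h1 : ψ x.1 = 0 := x.2
            have h2 := hψ x.1 ⟨y, hy⟩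
            rw [h1] at h2
            exact h2.symm⟩
        map_add' := fun x y => rfl
        map_smul' := fun c x => rfl }
    have hfd : Module.Finite k (deg 𝒜 I i) :=
      Submodule.finiteDimensional_of_le (inf_le_left : deg 𝒜 I i ≤ 𝒜 i)
    refine LinearMap.finrank_le_finrank_of_injective (f := g) ?_
    intro x y hxy
    apply Subtype.ext
    apply Subtype.ext
    exact congrArg (fun z : deg 𝒜 I i => (z : S)) hxy
  -- the range
  let W : Submodule k (𝒜 (σ - i)) := (deg 𝒜 I (σ - i)).comap (𝒜 (σ - i)).subtype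
  have hW : Module.finrank k W = Module.finrank k (deg 𝒜 I (σ - i)) :=
    LinearEquiv.finrank_eq (Submodule.comapSubtypeEquivOfLe inf_le_left)
  have hrange : LinearMap.range ψ ≤ W.dualAnnihilator := by
    rintro _ ⟨x, rfl⟩
    rw [Submodule.mem_dualAnnihilator]
    intro y hy
    rw [hψ]
    have h1 : (y : S) ∈ I := hy.2
    refine hφI _ (I.mul_mem_left _ h1) ?_
    have h2 := SetLike.GradedMul.mul_mem x.2 y.2
    rwa [Nat.add_sub_cancel' hi] at h2
  have h1 := LinearMap.finrank_range_add_finrank_ker ψ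
  have h2 := Submodule.finrank_mono hrange
  have h3 := Subspace.finrank_add_finrank_dualAnnihilator_eq W
  rw [hW] at h3
  unfold hf
  omega

omit [IsDomain S] in
theorem hf_symm {i : ℕ} (hi : i ≤ σ) : hf 𝒜 I i = hf 𝒜 I (σ - i) := by
  apply le_antisymm (hf_le hfin hI hN hs hsI hsoc hi)
  have h1 := hf_le hfin hI hN hs hsI hsoc (i := σ - i) (by omega)
  rwa [Nat.sub_sub_self hi] at h1

end pairing

/-- **Main theorem.** -/
theorem main (hfin : ∀ n, Module.Finite k (𝒜 n)) (h0 : Module.finrank k (𝒜 0) = 1) {d : ℕ}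
    {θ : Fin d → S} {e : Fin d → ℕ} (he : ∀ j, 0 < e j) (hθ : ∀ j, θ j ∈ 𝒜 (e j))
    (hθ0 : ∀ j, θ j ≠ 0)
    (hreg : ∀ (j : Fin d) (x : S), θ j * x ∈ chain θ j → x ∈ chain θ j)
    {N : ℕ} (hN : ∀ n, N ≤ n → ∀ x ∈ 𝒜 n, x ∈ chain θ d) {σ : ℕ} {s : S} (hs : s ∈ 𝒜 σ)
    (hsI : s ∉ chain θ d)
    (hsoc : ∀ x, (∀ n, 0 < n → ∀ y ∈ 𝒜 n, x * y ∈ chain θ d) → ∃ c : k, x - c • s ∈ chain θ d)
    (P : ℚ[X]) (N' : ℕ)
    (hP : ∀ n, N' ≤ n → (Module.finrank k (𝒜 n) : ℚ) = P.eval (n : ℚ))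
    (had : σ + d ≤ ∑ j, e j + 3) :
    (∑ j, e j : ℤ) ≤ σ + Module.finrank k (𝒜 1) ∧ d ≤ Module.finrank k (𝒜 1) + 1 := by
  classical
  have hI := chain_homogeneous hθ d
  set I := chain θ d with hIdef
  let H : ℕ → ℤ := fun n => Module.finrank k (𝒜 n)
  have hH : (PowerSeries.mk H : PowerSeries ℤ) = PowerSeries.mk (hf 𝒜 (chain θ 0)) := by
    ext n
    rw [PowerSeries.coeff_mk, PowerSeries.coeff_mk]
    have h1 : chain θ 0 = ⊥ := by
      unfold chain
      simp
    rw [h1, hf_bot]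
  -- the numerator
  let Q : ℤ[X] := ∑ i ∈ Finset.range (σ + 1), C (hf 𝒜 I i) * X ^ i
  have hQc : ∀ i, Q.coeff i = if i ≤ σ then hf 𝒜 I i else 0 := by
    intro i
    change (∑ i ∈ Finset.range (σ + 1), C (hf 𝒜 I i) * X ^ i).coeff i = _
    rw [finset_sum_coeff]
    simp only [coeff_C_mul_X_pow]
    rw [Finset.sum_ite_eq]
    simp only [Finset.mem_range, Nat.lt_succ_iff]
  have hbig : ∀ i, σ < i → hf 𝒜 I i = 0 := by
    intro i hi
    rw [hf_eq_zero hfin]
    intro x hx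
    by_contra h
    have := (exists_pair hI hN hs hsoc hx h).1
    omega
  have hQ : (PowerSeries.mk H : PowerSeries ℤ) * ∏ j, (1 - PowerSeries.X ^ e j) =
      (Q : PowerSeries ℤ) := by
    have h1 := series hfin hθ hθ0 hreg d le_rfl
    rw [Finset.filter_true_of_mem fun i _ => i.2] at h1
    rw [hH, ← h1]
    ext n
    rw [PowerSeries.coeff_mk, Polynomial.coeff_coe, hQc]
    split_ifs with h
    · rfl
    · exact hbig n (not_le.1 h)
  have hq0 : Q.coeff 0 = 1 := by
    have h1 := congrArg (PowerSeries.coeff 0) hQ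
    rw [Polynomial.coeff_coe] at h1
    rw [← h1, PowerSeries.coeff_zero_eq_constantCoeff_apply, map_mul, map_prod]
    rw [Finset.prod_eq_one fun j _ => by
      rw [map_sub, map_one, map_pow, PowerSeries.constantCoeff_X, zero_pow (he j).ne', sub_zero]]
    rw [mul_one, ← PowerSeries.coeff_zero_eq_constantCoeff_apply, PowerSeries.coeff_mk]
    change ((Module.finrank k (𝒜 0) : ℕ) : ℤ) = 1
    rw [h0]
    rfl
  have hsym : ∀ i, i ≤ σ → Q.coeff i = Q.coeff (σ - i) := by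
    intro i hi
    rw [hQc, hQc, if_pos hi, if_pos (Nat.sub_le _ _)]
    exact hf_symm hfin hI hN hs hsI hsoc hi
  have hQσ : Q.coeff σ = 1 := by
    rw [← hq0, hsym σ le_rfl, Nat.sub_self]
  have hdeg : Q.natDegree = σ := by
    apply le_antisymm
    · rw [natDegree_le_iff_coeff_eq_zero]
      intro i hi
      rw [hQc, if_neg (not_le.2 hi)]
    · exact le_natDegree_of_ne_zero (by rw [hQσ]; exact one_ne_zero)
  have hrev : Q.reverse = Q := by
    ext i
    rw [coeff_reverse, hdeg]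
    by_cases hi : i ≤ σ
    · rw [revAt_le hi, ← hsym i hi]
    · rw [revAt_eq_self_of_lt (not_le.1 hi)]
  have hQ1 : 0 < Q.eval 1 := by
    have h1 : Q.eval 1 = ∑ i ∈ Finset.range (σ + 1), Q.coeff i := by
      rw [eval_eq_sum_range, hdeg]
      simp
    rw [h1]
    have h2 : ∀ i ∈ Finset.range (σ + 1), 0 ≤ Q.coeff i := by
      intro i _
      rw [hQc]
      split_ifs
      · exact hf_nonneg hfin I i
      · exact le_rfl
    have h3 := Finset.single_le_sum h2 (Finset.mem_range.2 (Nat.lt_succ_self σ))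
    rw [hQσ] at h3
    omega
  obtain ⟨R, hR1, hR2, hR3, hR4⟩ := numerator H e he Q hQ hrev hQ1 P N' (by
    intro n hn
    change (((Module.finrank k (𝒜 n) : ℕ) : ℤ) : ℚ) = _
    rw [Int.cast_natCast]
    exact hP n hn)
  have hH0 : H 0 = 1 := by
    change ((Module.finrank k (𝒜 0) : ℕ) : ℤ) = 1
    rw [h0]
    rfl
  obtain ⟨h1, h2⟩ := bound H R hR1 hR2 hR3 hH0 (by omega)
  have h3 : H 1 = Module.finrank k (𝒜 1) := rfl
  rw [h3] at h1 h2
  constructor
  · have h4 : (R.natDegree : ℤ) + (∑ j, e j : ℕ) = σ + d := by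
      rw [← hdeg]
      exact_mod_cast hR4
    push_cast at h4
    linarith
  · omega

end ring


section evp

/-- The sequence agrees with a polynomial for large arguments. -/
def EvPoly (h : ℕ → ℤ) : Prop := ∃ (P : ℚ[X]) (N : ℕ), ∀ n, N ≤ n → (h n : ℚ) = P.eval (n : ℚ)

lemma EvPoly.congr {h h' : ℕ → ℤ} (H : EvPoly h) {N : ℕ} (hh : ∀ n, N ≤ n → h n = h' n) :
    EvPoly h' := by
  obtain ⟨P, M, hP⟩ := H
  refine ⟨P, max M N, fun n hn => ?_⟩
  rw [← hh n (le_trans (le_max_right _ _) hn)]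
  exact hP n (le_trans (le_max_left _ _) hn)

lemma evPoly_zero : EvPoly (fun _ => 0) := ⟨0, 0, fun n _ => by simp⟩

lemma EvPoly.add {h h' : ℕ → ℤ} (H : EvPoly h) (H' : EvPoly h') : EvPoly (fun n => h n + h' n) := by
  obtain ⟨P, M, hP⟩ := H
  obtain ⟨P', M', hP'⟩ := H'
  refine ⟨P + P', max M M', fun n hn => ?_⟩
  rw [Int.cast_add, hP n (le_trans (le_max_left _ _) hn), hP' n (le_trans (le_max_right _ _) hn),
    eval_add]

lemma EvPoly.sub {h h' : ℕ → ℤ} (H : EvPoly h) (H' : EvPoly h') : EvPoly (fun n => h n - h' n) := by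
  obtain ⟨P, M, hP⟩ := H
  obtain ⟨P', M', hP'⟩ := H'
  refine ⟨P - P', max M M', fun n hn => ?_⟩
  rw [Int.cast_sub, hP n (le_trans (le_max_left _ _) hn), hP' n (le_trans (le_max_right _ _) hn),
    eval_sub]

lemma EvPoly.shift {h : ℕ → ℤ} (H : EvPoly h) (e : ℕ) :
    EvPoly (fun n => if e ≤ n then h (n - e) else 0) := by
  obtain ⟨P, M, hP⟩ := H
  refine ⟨P.comp (X - C (e : ℚ)), M + e, fun n hn => ?_⟩
  beta_reduce
  rw [if_pos (by omega), hP (n - e) (by omega), eval_comp, eval_sub, eval_X, eval_C,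
    Nat.cast_sub (by omega)]

/-- Sums of polynomials are polynomials. -/
lemma exists_antidiff (P : ℚ[X]) : ∃ T : ℚ[X], ∀ x : ℚ, T.eval (x + 1) - T.eval x = P.eval x := by
  induction P using Polynomial.induction_on' with
  | add p q hp hq =>
    obtain ⟨T, hT⟩ := hp
    obtain ⟨T', hT'⟩ := hq
    exact ⟨T + T', fun x => by rw [eval_add, eval_add, eval_add, ← hT, ← hT']; ring⟩
  | monomial m c =>
    refine ⟨C (c / (m + 1)) * Polynomial.bernoulli (m + 1), fun x => ?_⟩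
    rw [eval_mul, eval_mul, eval_C, eval_C, add_comm x 1, Polynomial.bernoulli_eval_one_add,
      eval_monomial, Nat.add_sub_cancel]
    have h1 : (m : ℚ) + 1 ≠ 0 := by positivity
    push_cast
    field_simp
    ring

lemma EvPoly.of_diff {h : ℕ → ℤ} (H : EvPoly (fun n => h (n + 1) - h n)) : EvPoly h := by
  obtain ⟨P, N, hP⟩ := H
  obtain ⟨T, hT⟩ := exists_antidiff P
  refine ⟨T + C ((h N : ℚ) - T.eval (N : ℚ)), N, fun n hn => ?_⟩
  obtain ⟨m, rfl⟩ := Nat.exists_eq_add_of_le hn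
  clear hn
  induction m with
  | zero => simp
  | succ m ih =>
    have h1 := hP (N + m) (by omega)
    have h2 := hT ((N + m : ℕ) : ℚ)
    rw [Int.cast_sub, ih] at h1
    rw [eval_add, eval_C] at h1 ⊢
    have h3 : ((N + (m + 1) : ℕ) : ℚ) = ((N + m : ℕ) : ℚ) + 1 := by push_cast; ring
    rw [h3]
    have h4 : N + (m + 1) = N + m + 1 := rfl
    rw [h4]
    linarith

/-- Two consecutive periods. -/
lemma EvPoly.of_two {h : ℕ → ℤ} {n : ℕ}
    (H : EvPoly (fun t => h t - if n ≤ t then h (t - n) else 0))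
    (H' : EvPoly (fun t => h t - if n + 1 ≤ t then h (t - (n + 1)) else 0)) : EvPoly h := by
  apply EvPoly.of_diff
  have h1 := H.shift 1
  obtain ⟨P, M, hP⟩ := H'.sub h1
  refine ⟨P.comp (X + C 1), M + n + 1, fun t ht => ?_⟩
  have h2 := hP (t + 1) (by omega)
  rw [eval_comp, eval_add, eval_X, eval_C]
  rw [Nat.cast_add, Nat.cast_one] at h2
  rw [← h2]
  beta_reduce
  rw [if_pos (by omega), if_pos (by omega), if_pos (by omega)]
  have h3 : t + 1 - (n + 1) = t - n := by omega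
  have h4 : t + 1 - 1 - n = t - n := by omega
  have h5 : t + 1 - 1 = t := by omega
  rw [h3, h5]
  push_cast
  ring

end evp

section deviss

universe u

variable {k S : Type u} [Field k] [CommRing S] [IsDomain S] [Algebra k S] {𝒜 : ℕ → Submodule k S}
  [GradedAlgebra 𝒜]

/-- The colon ideal. -/
def cln (I : Ideal S) (a : S) : Ideal S := Submodule.comap (LinearMap.mulLeft S a) I

omit [IsDomain S] in
lemma mem_cln {I : Ideal S} {a x : S} : x ∈ cln I a ↔ a * x ∈ I := Iff.rfl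

omit [IsDomain S] in
lemma cln_homogeneous {I : Ideal S} (hI : I.IsHomogeneous 𝒜) {e : ℕ} {a : S} (ha : a ∈ 𝒜 e) :
    (cln I a).IsHomogeneous 𝒜 := by
  intro i x hx
  rw [mem_cln] at hx ⊢
  have h1 := hI (e + i) hx
  rw [DirectSum.coe_decompose_mul_of_left_mem_of_le 𝒜 ha (Nat.le_add_right e i),
    Nat.add_sub_cancel_left] at h1
  exact h1

/-- The Hilbert function of the quotient by a homogeneous element. -/
theorem hf_colon (hfin : ∀ n, Module.Finite k (𝒜 n)) {I : Ideal S} (hI : I.IsHomogeneous 𝒜) {e : ℕ}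
    {θ : S} (hθ : θ ∈ 𝒜 e) (hθ0 : θ ≠ 0) (n : ℕ) :
    hf 𝒜 I n = hf 𝒜 (I ⊔ Ideal.span {θ}) n + if e ≤ n then hf 𝒜 (cln I θ) (n - e) else 0 := by
  classical
  have hfd : ∀ (J : Ideal S) (m : ℕ), Module.Finite k (deg 𝒜 J m) := fun J m =>
    have := hfin m
    Submodule.finiteDimensional_of_le (inf_le_left : deg 𝒜 J m ≤ 𝒜 m)
  by_cases hen : e ≤ n
  · rw [if_pos hen]
    let f : S →ₗ[k] S := LinearMap.mulLeft k θ
    have hf : Function.Injective f := fun a b hab => mul_left_cancel₀ hθ0 hab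
    have h1 : deg 𝒜 (I ⊔ Ideal.span {θ}) n = deg 𝒜 I n ⊔ (𝒜 (n - e)).map f := by
      ext x
      constructor
      · rintro ⟨hx, hxI⟩
        obtain ⟨a, ha, b, rfl, hb, -⟩ := exists_of_mem_sup hI hθ hx hxI
        exact Submodule.add_mem_sup ha ⟨b, hb hen, rfl⟩
      · intro hx
        obtain ⟨a, ha, c, ⟨b, hb, rfl⟩, rfl⟩ := Submodule.mem_sup.1 hx
        have h2 : f b ∈ 𝒜 n := by
          have h3 := SetLike.GradedMul.mul_mem hθ hb
          rwa [Nat.add_sub_cancel' hen] at h3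
        refine ⟨Submodule.add_mem _ ha.1 h2, ?_⟩
        exact Submodule.add_mem_sup (S := I) (T := Ideal.span {θ}) ha.2
          (Ideal.mem_span_singleton'.2 ⟨b, mul_comm _ _⟩)
    have h2 : deg 𝒜 I n ⊓ (𝒜 (n - e)).map f = (deg 𝒜 (cln I θ) (n - e)).map f := by
      ext x
      constructor
      · rintro ⟨⟨-, hxI⟩, b, hb, rfl⟩
        exact ⟨b, ⟨hb, hxI⟩, rfl⟩
      · rintro ⟨b, ⟨hb, hbI⟩, rfl⟩
        have h3 := SetLike.GradedMul.mul_mem hθ hb
        rw [Nat.add_sub_cancel' hen] at h3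
        exact ⟨⟨h3, hbI⟩, b, hb, rfl⟩
    have h3 := Submodule.finrank_sup_add_finrank_inf_eq (deg 𝒜 I n) ((𝒜 (n - e)).map f)
    rw [← h1, h2] at h3
    have h4 : ∀ W : Submodule k S, Module.finrank k (W.map f) = Module.finrank k W := fun W =>
      (LinearEquiv.finrank_eq (Submodule.equivMapOfInjective f hf W)).symm
    rw [h4, h4] at h3
    unfold Pool.Agent.Q86.GS.hf
    omega
  · rw [if_neg hen, add_zero]
    have h1 : deg 𝒜 (I ⊔ Ideal.span {θ}) n = deg 𝒜 I n := by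
      ext x
      constructor
      · rintro ⟨hx, hxI⟩
        obtain ⟨a, ha, b, rfl, -, hb⟩ := exists_of_mem_sup hI hθ hx hxI
        rw [hb hen, mul_zero, add_zero]
        exact ha
      · rintro ⟨hx, hxI⟩
        exact ⟨hx, (le_sup_left : I ≤ I ⊔ Ideal.span {θ}) hxI⟩
    unfold Pool.Agent.Q86.GS.hf
    rw [h1]

/-- **The Hilbert polynomial** if `O(1)` is invertible. -/
theorem evPoly_hf [IsNoetherianRing S] (hfin : ∀ n, Module.Finite k (𝒜 n))
    (hL : ∀ 𝔭 : Ideal S, 𝔭.IsPrime → 𝔭.IsHomogeneous 𝒜 → (∃ n, 0 < n ∧ ∃ x ∈ 𝒜 n, x ∉ 𝔭) →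
      ∃ n, (∃ x ∈ 𝒜 n, x ∉ 𝔭) ∧ ∃ y ∈ 𝒜 (n + 1), y ∉ 𝔭) (I : Ideal S) :
    I.IsHomogeneous 𝒜 → EvPoly (hf 𝒜 I) := by
  refine IsNoetherian.induction (R := S) (M := S)
    (P := fun I : Ideal S => I.IsHomogeneous 𝒜 → EvPoly (hf 𝒜 I)) ?_ I
  · clear I
    intro (I : Ideal S) ih hI
    have hlt : ∀ {a : S}, a ∉ I → I < I ⊔ Ideal.span {a} := by
      intro a ha
      refine lt_of_le_of_ne le_sup_left fun h => ha ?_
      rw [h]
      exact (le_sup_right : Ideal.span {a} ≤ _) (Ideal.mem_span_singleton_self a)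
    have hsup : ∀ {e : ℕ} {a : S}, a ∈ 𝒜 e → (I ⊔ Ideal.span {a}).IsHomogeneous 𝒜 := by
      intro e a ha
      refine Ideal.IsHomogeneous.sup hI (Ideal.homogeneous_span 𝒜 _ ?_)
      rintro x hx
      rw [Set.mem_singleton_iff] at hx
      rw [hx]
      exact ⟨e, ha⟩
    by_cases htop : I = ⊤
    · refine evPoly_zero.congr (N := 0) fun n _ => ?_
      rw [eq_comm, hf_eq_zero hfin]
      intro x _
      rw [htop]
      trivial
    by_cases hprime : I.IsPrime
    · by_cases h0 : ∃ n, 0 < n ∧ ∃ x ∈ 𝒜 n, x ∉ I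
      · obtain ⟨n, ⟨x, hx, hxI⟩, y, hy, hyI⟩ := hL I hprime hI h0
        have key : ∀ {e : ℕ} {a : S}, a ∈ 𝒜 e → a ∉ I →
            EvPoly (fun t => hf 𝒜 I t - if e ≤ t then hf 𝒜 I (t - e) else 0) := by
          intro e a ha haI
          refine (ih _ (hlt haI) (hsup ha)).congr (N := 0) fun t _ => ?_
          refine hf_step hfin hI ha ?_ ?_ t
          · rintro rfl
            exact haI I.zero_mem
          · intro z hz
            exact (hprime.mem_or_mem hz).resolve_left haI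
        exact EvPoly.of_two (key hx hxI) (key hy hyI)
      · push Not at h0
        refine evPoly_zero.congr (N := 1) fun n hn => ?_
        rw [eq_comm, hf_eq_zero hfin]
        exact h0 n hn
    · have h1 : ∃ x y : S, SetLike.IsHomogeneousElem 𝒜 x ∧ SetLike.IsHomogeneousElem 𝒜 y ∧
          x * y ∈ I ∧ x ∉ I ∧ y ∉ I := by
        by_contra h
        push Not at h
        apply hprime
        refine hI.isPrime_of_homogeneous_mem_or_mem htop fun {x y} hx hy hxy => ?_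
        by_cases hxI : x ∈ I
        · exact Or.inl hxI
        · exact Or.inr (h x y hx hy hxy hxI)
      obtain ⟨x, y, ⟨e, hx⟩, -, hxy, hxI, hyI⟩ := h1
      have h2 : I < cln I x := by
        refine lt_of_le_of_ne (fun z hz => I.mul_mem_left x hz) fun h => hyI ?_
        rw [h]
        exact hxy
      have h3 := (ih _ (hlt hxI) (hsup hx)).add ((ih _ h2 (cln_homogeneous hI hx)).shift e)
      refine h3.congr (N := 0) fun t _ => ?_
      refine (hf_colon hfin hI hx ?_ t).symm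
      rintro rfl
      exact hxI I.zero_mem

end deviss

end Pool.Agent.Q86.GS
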