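import Mathlib

/-!
# The Hilbert polynomial of a Gorenstein section ring: symmetry and zeros
-/

set_option autoImplicit false

namespace Pool.Agent.Q86.Gap

open Polynomial Finset

/-- the binomial coefficient `(x + D choose D)` as a polynomial in `x` -/
noncomputable def bp (D : ℕ) : ℝ[X] := C (1 / (D.factorial : ℝ)) * ∏ j ∈ range D, (X + C ((j : ℝ) + 1))

lemma bp_eval (D : ℕ) (x : ℝ) : (bp D).eval x = 1 / (D.factorial : ℝ) * ∏ j ∈ range D, (x + (j + 1)) := by
  unfold bp
  rw [eval_mul, eval_C, eval_prod]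
  simp

lemma bp_eval_nat (D n : ℕ) : (bp D).eval (n : ℝ) = ((n + D).choose D : ℝ) := by
  rw [bp_eval]
  have h1 : ((n + 1).ascFactorial D : ℝ) = ∏ j ∈ range D, ((n : ℝ) + (j + 1)) := by
    rw [Nat.ascFactorial_eq_prod_range]
    push_cast
    exact Finset.prod_congr rfl fun j _ => by ring
  rw [← h1, Nat.ascFactorial_eq_factorial_mul_choose]
  push_cast
  have : (D.factorial : ℝ) ≠ 0 := by exact_mod_cast D.factorial_ne_zero
  field_simp

lemma bp_eval_neg (D m : ℕ) (h1 : 1 ≤ m) (h2 : m ≤ D) : (bp D).eval (-(m : ℝ)) = 0 := by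
  rw [bp_eval]
  have : ∏ j ∈ range D, (-(m : ℝ) + (j + 1)) = 0 := by
    apply Finset.prod_eq_zero (i := m - 1) (mem_range.2 (by omega))
    have : ((m - 1 : ℕ) : ℝ) = m - 1 := by
      rw [Nat.cast_sub h1]; simp
    rw [this]
    ring
  rw [this, mul_zero]

lemma bp_symm (D : ℕ) (x : ℝ) : (bp D).eval (-((D : ℝ) + 1) - x) = (-1) ^ D * (bp D).eval x := by
  rw [bp_eval, bp_eval, mul_left_comm]
  congr 1
  rw [← Finset.prod_range_reflect]
  have h : ∀ j ∈ range D, (-((D : ℝ) + 1) - x + ((D - 1 - j : ℕ) + 1)) = (-1) * (x + (j + 1)) := by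
    intro j hj
    rw [mem_range] at hj
    have : ((D - 1 - j : ℕ) : ℝ) = D - 1 - j := by
      rw [Nat.cast_sub (by omega), Nat.cast_sub (by omega)]
      simp
    rw [this]
    ring
  rw [Finset.prod_congr rfl h, Finset.prod_mul_distrib, Finset.prod_const, Finset.card_range]

lemma bp_natDegree (D : ℕ) : (bp D).natDegree ≤ D := by
  unfold bp
  refine (natDegree_C_mul_le _ _).trans ?_
  refine (natDegree_prod_le _ _).trans ?_
  have : ∀ j ∈ range D, (X + C ((j : ℝ) + 1)).natDegree ≤ 1 := fun j _ => by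
    rw [natDegree_X_add_C]
  exact (Finset.sum_le_sum this).trans (by simp)

/-- the Hilbert polynomial with numerator `R` -/
noncomputable def hp (D : ℕ) (R : ℤ[X]) : ℝ[X] :=
  ∑ i ∈ range (R.natDegree + 1), C (R.coeff i : ℝ) * (bp D).comp (X - C (i : ℝ))

lemma hp_eval (D : ℕ) (R : ℤ[X]) (x : ℝ) : (hp D R).eval x =
    ∑ i ∈ range (R.natDegree + 1), (R.coeff i : ℝ) * (bp D).eval (x - i) := by
  unfold hp
  rw [eval_finset_sum]
  refine Finset.sum_congr rfl fun i _ => ?_
  rw [eval_mul, eval_C, eval_comp, eval_sub, eval_X, eval_C]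

lemma hp_natDegree (D : ℕ) (R : ℤ[X]) : (hp D R).natDegree ≤ D := by
  unfold hp
  refine natDegree_sum_le_of_forall_le _ _ fun i _ => ?_
  refine (natDegree_C_mul_le _ _).trans ?_
  rw [natDegree_comp, natDegree_X_sub_C, mul_one]
  exact bp_natDegree D

/-- the coefficients of the power series `R / (1 - t)^(D+1)` -/
lemma coeff_eq (D : ℕ) (H : ℕ → ℤ) (R : ℤ[X])
    (h : (PowerSeries.mk H : PowerSeries ℤ) * (1 - PowerSeries.X) ^ (D + 1) = (R : PowerSeries ℤ))
    (n : ℕ) : H n = ∑ i ∈ range (n + 1), R.coeff i * ((n - i + D).choose D : ℤ) := by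
  have h1 : (PowerSeries.mk 1 : PowerSeries ℤ) * (1 - PowerSeries.X) = 1 := by
    exact PowerSeries.mk_one_mul_one_sub_eq_one ℤ
  have h2 : (PowerSeries.mk H : PowerSeries ℤ) = (R : PowerSeries ℤ) *
      (PowerSeries.mk 1) ^ (D + 1) := by
    rw [← h, mul_assoc, ← mul_pow, mul_comm (1 - PowerSeries.X), h1, one_pow, mul_one]
  have h3 := congrArg (PowerSeries.coeff n) h2
  rw [PowerSeries.coeff_mk, PowerSeries.mk_one_pow_eq_mk_choose_add, PowerSeries.coeff_mul,
    Finset.Nat.sum_antidiagonal_eq_sum_range_succ_mk] at h3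
  rw [h3]
  refine Finset.sum_congr rfl fun i _ => ?_
  rw [Polynomial.coeff_coe, PowerSeries.coeff_mk, add_comm D]

/-- for `c ≤ D` the Hilbert function is a polynomial function -/
lemma hp_nat (D : ℕ) (H : ℕ → ℤ) (R : ℤ[X])
    (h : (PowerSeries.mk H : PowerSeries ℤ) * (1 - PowerSeries.X) ^ (D + 1) = (R : PowerSeries ℤ))
    (hc : R.natDegree ≤ D) (n : ℕ) : (hp D R).eval (n : ℝ) = H n := by
  rw [hp_eval, coeff_eq D H R h]
  push_cast
  have e1 : ∀ i ∈ range (R.natDegree + 1), (R.coeff i : ℝ) * (bp D).eval ((n : ℝ) - i) =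
      if i ≤ n then (R.coeff i : ℝ) * ((n - i + D).choose D : ℝ) else 0 := by
    intro i hi
    rw [mem_range] at hi
    split_ifs with hin
    · rw [← Nat.cast_sub hin, bp_eval_nat]
    · have : ((n : ℝ) - i) = -((i - n : ℕ) : ℝ) := by
        rw [Nat.cast_sub (by omega)]; ring
      rw [this, bp_eval_neg D (i - n) (by omega) (by omega), mul_zero]
  rw [Finset.sum_congr rfl e1, ← Finset.sum_filter]
  have e2 : ∑ i ∈ range (n + 1), (R.coeff i : ℝ) * ((n - i + D).choose D : ℝ) =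
      ∑ i ∈ (range (n + 1)).filter (fun i => i ≤ R.natDegree),
        (R.coeff i : ℝ) * ((n - i + D).choose D : ℝ) := by
    rw [Finset.sum_filter]
    refine Finset.sum_congr rfl fun i _ => ?_
    split_ifs with hi
    · rfl
    · rw [coeff_eq_zero_of_natDegree_lt (not_le.1 hi)]
      simp
  rw [e2]
  refine Finset.sum_congr ?_ fun _ _ => rfl
  ext i
  simp only [mem_filter, mem_range]
  omega

/-- the zeros `-1, ..., -(b-1)`, `b = D + 1 - c` -/
lemma hp_neg (D : ℕ) (R : ℤ[X]) (m : ℕ) (h1 : 1 ≤ m) (h2 : m + R.natDegree ≤ D) :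
    (hp D R).eval (-(m : ℝ)) = 0 := by
  rw [hp_eval]
  refine Finset.sum_eq_zero fun i hi => ?_
  rw [mem_range] at hi
  have : (-(m : ℝ) - i) = -((m + i : ℕ) : ℝ) := by push_cast; ring
  rw [this, bp_eval_neg D (m + i) (by omega) (by omega), mul_zero]

/-- the symmetry -/
lemma hp_symm (D : ℕ) (R : ℤ[X]) (hr : R.reverse = R) (x : ℝ) :
    (hp D R).eval ((R.natDegree : ℝ) - (D + 1) - x) = (-1) ^ D * (hp D R).eval x := by
  rw [hp_eval, hp_eval, Finset.mul_sum, ← Finset.sum_range_reflect]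
  refine Finset.sum_congr rfl fun i hi => ?_
  rw [mem_range] at hi
  have e0 : R.natDegree + 1 - 1 - i = R.natDegree - i := by omega
  rw [e0]
  have hsym : R.coeff (R.natDegree - i) = R.coeff i := by
    conv_rhs => rw [← hr]
    rw [coeff_reverse, revAt_le (by omega)]
  have e1 : (R.natDegree : ℝ) - (D + 1) - x - ((R.natDegree - i : ℕ) : ℝ) =
      -((D : ℝ) + 1) - (x - i) := by
    rw [Nat.cast_sub (by omega)]
    ring
  rw [hsym, e1, bp_symm]
  ring

end Pool.Agent.Q86.Gap
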