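import Mathlib

/-!
# Counting the zeros of a symmetric polynomial with nonnegative values
-/

set_option autoImplicit false

namespace Pool.Agent.Q86.Gap

open Polynomial Finset

/-- the starting points of the maximal runs of odd length of zeros of `h` -/
def oddRuns (h : ℕ → ℤ) : Set ℕ :=
  {n | h n ≠ 0 ∧ ∃ l, Odd l ∧ (∀ i, 1 ≤ i → i ≤ l → h (n + i) = 0) ∧ h (n + l + 1) ≠ 0}

/-- the integral zeros that come from a finite set of gaps -/
noncomputable def zs (D c : ℕ) (G : Finset ℕ) : Finset ℤ :=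
  (Finset.Icc (-((D : ℤ) - c)) (-1) ∪ G.image (fun g : ℕ => (g : ℤ))) ∪
    G.image (fun g : ℕ => (c : ℤ) - (D + 1) - g)

lemma mem_zs {D c : ℕ} {G : Finset ℕ} {r : ℤ} : r ∈ zs D c G ↔
    ((-((D : ℤ) - c) ≤ r ∧ r ≤ -1) ∨ ∃ g ∈ G, (g : ℤ) = r) ∨ ∃ g ∈ G, (c : ℤ) - (D + 1) - g = r := by
  simp only [zs, Finset.mem_union, Finset.mem_Icc, Finset.mem_image]

lemma zs_disj1 {D c : ℕ} (G : Finset ℕ) : Disjoint (Finset.Icc (-((D : ℤ) - c)) (-1))
    (G.image (fun g : ℕ => (g : ℤ))) := by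
  rw [Finset.disjoint_left]
  intro r h1 h2
  rw [Finset.mem_Icc] at h1
  rw [Finset.mem_image] at h2
  obtain ⟨g, -, rfl⟩ := h2
  omega

lemma zs_disj2 {D c : ℕ} (hc : c ≤ D) (G : Finset ℕ) (hG : ∀ g ∈ G, 0 < g) :
    Disjoint (Finset.Icc (-((D : ℤ) - c)) (-1) ∪ G.image (fun g : ℕ => (g : ℤ)))
      (G.image (fun g : ℕ => (c : ℤ) - (D + 1) - g)) := by
  rw [Finset.disjoint_left]
  intro r h1 h2
  rw [Finset.mem_union, Finset.mem_Icc, Finset.mem_image] at h1
  rw [Finset.mem_image] at h2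
  obtain ⟨g, hg, rfl⟩ := h2
  have := hG g hg
  rcases h1 with h1 | ⟨g', hg', h1⟩
  · omega
  · omega

lemma zs_card {D c : ℕ} (hc : c ≤ D) (G : Finset ℕ) (hG : ∀ g ∈ G, 0 < g) :
    (zs D c G).card + c = D + 2 * G.card := by
  unfold zs
  rw [Finset.card_union_of_disjoint (zs_disj2 hc G hG), Finset.card_union_of_disjoint (zs_disj1 G),
    Finset.card_image_of_injective _ Nat.cast_injective, Finset.card_image_of_injective, Int.card_Icc]
  · omega
  · intro a b hab
    simp only at hab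
    omega

variable {D c : ℕ} {h : ℕ → ℤ} {P : ℝ[X]}

lemma zs_roots (hc : c ≤ D) (hP : ∀ n : ℕ, P.eval (n : ℝ) = h n)
    (hneg : ∀ m : ℕ, 1 ≤ m → m + c ≤ D → P.eval (-(m : ℝ)) = 0)
    (hsym : ∀ x : ℝ, P.eval ((c : ℝ) - (D + 1) - x) = (-1) ^ D * P.eval x)
    (G : Finset ℕ) (hG : ∀ g ∈ G, h g = 0) : ∀ r ∈ zs D c G, P.eval (r : ℝ) = 0 := by
  intro r hr
  rw [mem_zs] at hr
  rcases hr with (⟨h1, h2⟩ | ⟨g, hg, rfl⟩) | ⟨g, hg, rfl⟩
  · obtain ⟨m, rfl⟩ : ∃ m : ℕ, r = -(m : ℤ) := ⟨(-r).toNat, by omega⟩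
    have := hneg m (by omega) (by omega)
    push_cast
    exact this
  · have := hP g
    rw [hG g hg] at this
    push_cast at this ⊢
    exact this
  · have h1 := hsym g
    rw [hP g, hG g hg] at h1
    push_cast at h1 ⊢
    rw [h1]
    ring

/-- the product over the zeros -/
noncomputable def FF (D c : ℕ) (G : Finset ℕ) : ℝ[X] := ∏ r ∈ zs D c G, (X - C (r : ℝ))

lemma FF_eval (G : Finset ℕ) (x : ℝ) : (FF D c G).eval x = ∏ r ∈ zs D c G, (x - r) := by
  unfold FF
  rw [eval_prod]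
  simp

lemma FF_ne (G : Finset ℕ) : FF D c G ≠ 0 :=
  Finset.prod_ne_zero_iff.2 fun r _ => X_sub_C_ne_zero _

lemma FF_natDegree (G : Finset ℕ) : (FF D c G).natDegree = (zs D c G).card := by
  unfold FF
  rw [natDegree_prod _ _ fun r _ => X_sub_C_ne_zero _,
    Finset.sum_congr rfl fun (r : ℤ) _ => natDegree_X_sub_C (r : ℝ)]
  simp

lemma FF_dvd (hP0 : P ≠ 0) (G : Finset ℕ) (hr : ∀ r ∈ zs D c G, P.eval (r : ℝ) = 0) :
    FF D c G ∣ P := by
  have h1 : FF D c G = (((zs D c G).val.map (fun r : ℤ => (r : ℝ))).map (fun x => X - C x)).prod := by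
    rw [Multiset.map_map]
    rfl
  rw [h1, Multiset.prod_X_sub_C_dvd_iff_le_roots hP0]
  rw [Multiset.le_iff_subset ((zs D c G).nodup.map Int.cast_injective)]
  intro x hx
  rw [Multiset.mem_map] at hx
  obtain ⟨r, hr1, rfl⟩ := hx
  rw [mem_roots hP0]
  exact hr r hr1

lemma FF_symm (hc : c ≤ D) (G : Finset ℕ) (x : ℝ) :
    (FF D c G).eval ((c : ℝ) - (D + 1) - x) = (-1) ^ (zs D c G).card * (FF D c G).eval x := by
  rw [FF_eval, FF_eval, ← Finset.prod_const, ← Finset.prod_mul_distrib]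
  refine Finset.prod_nbij' (fun r => (c : ℤ) - (D + 1) - r) (fun r => (c : ℤ) - (D + 1) - r)
    ?_ ?_ ?_ ?_ ?_
  · intro r hr
    rw [mem_zs] at hr ⊢
    rcases hr with (⟨h1, h2⟩ | ⟨g, hg, rfl⟩) | ⟨g, hg, rfl⟩
    · left; left; omega
    · right; exact ⟨g, hg, rfl⟩
    · left; right; exact ⟨g, hg, by ring⟩
  · intro r hr
    rw [mem_zs] at hr ⊢
    rcases hr with (⟨h1, h2⟩ | ⟨g, hg, rfl⟩) | ⟨g, hg, rfl⟩
    · left; left; omega
    · right; exact ⟨g, hg, rfl⟩
    · left; right; exact ⟨g, hg, by ring⟩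
  · intro r _; ring
  · intro r _; ring
  · intro r _
    push_cast
    ring

lemma prod_sign (G : Finset ℕ) (n : ℕ) (hn : n ∉ G) :
    0 < (-1 : ℝ) ^ (G.filter (fun g => n < g)).card * ∏ g ∈ G, ((n : ℝ) - g) := by
  have h1 : (-1 : ℝ) ^ (G.filter (fun g => n < g)).card = ∏ g ∈ G, (if n < g then (-1 : ℝ) else 1) := by
    rw [Finset.prod_ite, Finset.prod_const, Finset.prod_const_one, mul_one]
  rw [h1, ← Finset.prod_mul_distrib]
  refine Finset.prod_pos fun g hg => ?_
  have hne : n ≠ g := by rintro rfl; exact hn hg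
  split_ifs with hlt
  · have : (n : ℝ) < g := by exact_mod_cast hlt
    linarith
  · have : (g : ℝ) < n := by exact_mod_cast (lt_of_le_of_ne (not_lt.1 hlt) hne.symm)
    linarith

lemma FF_sign (hc : c ≤ D) (G : Finset ℕ) (hG0 : ∀ g ∈ G, 0 < g) (n : ℕ) (hn : n ∉ G) :
    0 < (-1 : ℝ) ^ (G.filter (fun g => n < g)).card * (FF D c G).eval (n : ℝ) := by
  rw [FF_eval]
  unfold zs
  rw [Finset.prod_union (zs_disj2 hc G hG0), Finset.prod_union (zs_disj1 G),
    Finset.prod_image (fun a _ b _ hab => Nat.cast_injective hab),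
    Finset.prod_image (fun a _ b _ hab => by first | omega | (simp only at hab; omega))]
  have h1 := prod_sign G n hn
  have h2 : 0 < ∏ r ∈ Finset.Icc (-((D : ℤ) - c)) (-1), ((n : ℝ) - r) := by
    refine Finset.prod_pos fun r hr => ?_
    rw [Finset.mem_Icc] at hr
    have : (r : ℝ) ≤ -1 := by exact_mod_cast hr.2
    have : (0 : ℝ) ≤ n := Nat.cast_nonneg n
    linarith
  have h3 : 0 < ∏ g ∈ G, ((n : ℝ) - (((c : ℤ) - (D + 1) - g : ℤ) : ℝ)) := by
    refine Finset.prod_pos fun g _ => ?_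
    push_cast
    have h1 : (c : ℝ) ≤ D := by exact_mod_cast hc
    have h2 : (0 : ℝ) ≤ n := Nat.cast_nonneg n
    have h3 : (0 : ℝ) ≤ g := Nat.cast_nonneg g
    linarith
  have h4 : (-1 : ℝ) ^ (G.filter (fun g => n < g)).card *
      ((∏ r ∈ Finset.Icc (-((D : ℤ) - c)) (-1), ((n : ℝ) - r)) *
        (∏ g ∈ G, ((n : ℝ) - ((g : ℤ) : ℝ))) *
        ∏ g ∈ G, ((n : ℝ) - (((c : ℤ) - (D + 1) - g : ℤ) : ℝ))) =
      ((-1 : ℝ) ^ (G.filter (fun g => n < g)).card * ∏ g ∈ G, ((n : ℝ) - g)) *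
      (∏ r ∈ Finset.Icc (-((D : ℤ) - c)) (-1), ((n : ℝ) - r)) *
        ∏ g ∈ G, ((n : ℝ) - (((c : ℤ) - (D + 1) - g : ℤ) : ℝ)) := by
    have : ∏ g ∈ G, ((n : ℝ) - ((g : ℤ) : ℝ)) = ∏ g ∈ G, ((n : ℝ) - g) :=
      Finset.prod_congr rfl fun g _ => by push_cast; rfl
    rw [this]
    ring
  rw [h4]
  exact mul_pos (mul_pos h1 h2) h3

/-- **The count of the gaps.** -/
theorem count (hc : c ≤ D) (hdeg : P.natDegree ≤ D) (h0 : h 0 ≠ 0) (hnn : ∀ n, 0 ≤ h n)
    (hP : ∀ n : ℕ, P.eval (n : ℝ) = h n)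
    (hneg : ∀ m : ℕ, 1 ≤ m → m + c ≤ D → P.eval (-(m : ℝ)) = 0)
    (hsym : ∀ x : ℝ, P.eval ((c : ℝ) - (D + 1) - x) = (-1) ^ D * P.eval x) :
    {n | h n = 0}.Finite ∧ (oddRuns h).Finite ∧
      2 * ({n | h n = 0}.ncard + (oddRuns h).ncard) ≤ c ∧
      (Odd ({n | h n = 0}.ncard) → 2 * {n | h n = 0}.ncard + 2 ≤ c) := by
  classical
  have hP0 : P ≠ 0 := by
    rintro rfl
    have := hP 0
    rw [eval_zero] at this
    exact h0 (by exact_mod_cast this.symm)
  have hroots := zs_roots hc hP hneg hsym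
  have hpos0 : ∀ (G : Finset ℕ), (∀ g ∈ G, h g = 0) → ∀ g ∈ G, 0 < g := by
    intro G hG g hg
    rcases Nat.eq_zero_or_pos g with rfl | h1
    · exact absurd (hG 0 hg) h0
    · exact h1
  -- finiteness
  have hcard : ∀ G : Finset ℕ, (∀ g ∈ G, h g = 0) → 2 * G.card ≤ c := by
    intro G hG
    have h1 := natDegree_le_of_dvd (FF_dvd hP0 G (hroots G hG)) hP0
    rw [FF_natDegree] at h1
    have h2 := zs_card hc G (hpos0 G hG)
    omega
  have hfin : {n | h n = 0}.Finite := by
    by_contra hinf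
    obtain ⟨G, hG1, hG2⟩ := Set.Infinite.exists_subset_card_eq hinf (c + 1)
    have := hcard G fun g hg => hG1 hg
    omega
  have hOfin : (oddRuns h).Finite := by
    have h1 : (oddRuns h) ⊆ (fun n => n + 1) ⁻¹' {n | h n = 0} := by
      rintro n ⟨-, l, hl, h1, -⟩
      exact h1 1 le_rfl hl.pos
    exact (hfin.preimage (fun a _ b _ hab => by simpa using hab)).subset h1
  obtain ⟨G, hG⟩ : ∃ G : Finset ℕ, ∀ n, n ∈ G ↔ h n = 0 :=
    ⟨hfin.toFinset, fun n => by simp⟩
  obtain ⟨O, hO⟩ : ∃ O : Finset ℕ, ∀ n, n ∈ O ↔ n ∈ oddRuns h :=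
    ⟨hOfin.toFinset, fun n => by simp⟩
  have hGc : {n | h n = 0}.ncard = G.card := by
    rw [← Set.ncard_coe_finset]
    congr 1
    ext n
    simp [hG]
  have hOc : (oddRuns h).ncard = O.card := by
    rw [← Set.ncard_coe_finset]
    congr 1
    ext n
    simp [hO]
  have hG1 : ∀ g ∈ G, h g = 0 := fun g hg => (hG g).1 hg
  have hG0 := hpos0 G hG1
  obtain ⟨T, hT⟩ := FF_dvd hP0 G (hroots G hG1)
  have hT0 : T ≠ 0 := by
    rintro rfl
    rw [mul_zero] at hT
    exact hP0 hT
  have hdegT : (zs D c G).card + T.natDegree ≤ D := by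
    rw [hT, natDegree_mul (FF_ne G) hT0, FF_natDegree] at hdeg
    exact hdeg
  have hz := zs_card hc G hG0
  -- symmetry of T
  have hTs : ∀ x : ℝ, T.eval x = 0 → T.eval ((c : ℝ) - (D + 1) - x) = 0 := by
    have h1 : FF D c G * (C ((-1 : ℝ) ^ (zs D c G).card) * T.comp (C ((c : ℝ) - (D + 1)) - X)) =
        FF D c G * (C ((-1 : ℝ) ^ D) * T) := by
      apply Polynomial.funext
      intro x
      have h2 := hsym x
      rw [hT, eval_mul, eval_mul, FF_symm hc] at h2
      rw [eval_mul, eval_mul, eval_mul, eval_mul, eval_C, eval_C, eval_comp, eval_sub, eval_C,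
        eval_X]
      linarith
    have h2 := mul_left_cancel₀ (FF_ne G) h1
    intro x hx
    have h3 := congrArg (eval x) h2
    rw [eval_mul, eval_mul, eval_C, eval_C, eval_comp, eval_sub, eval_C, eval_X, hx, mul_zero] at h3
    rcases mul_eq_zero.1 h3 with h4 | h4
    · exact absurd h4 (pow_ne_zero _ (by norm_num))
    · exact h4
  -- signs of T
  have hsign : ∀ n : ℕ, h n ≠ 0 → 0 < (-1 : ℝ) ^ (G.filter (fun g => n < g)).card *
      T.eval (n : ℝ) := by
    intro n hn
    have h1 := FF_sign (D := D) hc G hG0 n (fun hm => hn (hG1 n hm))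
    have h2 : 0 < P.eval (n : ℝ) := by
      rw [hP n]
      exact_mod_cast lt_of_le_of_ne (hnn n) (Ne.symm hn)
    rw [hT, eval_mul] at h2
    set s : ℝ := (-1 : ℝ) ^ (G.filter (fun g => n < g)).card with hs
    have hss : s * s = 1 := by
      rw [hs, ← mul_pow]
      norm_num
    have h3 : (FF D c G).eval (n : ℝ) * T.eval (n : ℝ) =
        (s * (FF D c G).eval (n : ℝ)) * (s * T.eval (n : ℝ)) := by
      linear_combination -((FF D c G).eval (n : ℝ) * T.eval (n : ℝ)) * hss
    rw [h3] at h2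
    exact pos_of_mul_pos_right h2 h1.le
  have hα : (c : ℝ) - (D + 1) < 0 := by
    have h1 : (c : ℝ) ≤ D := by exact_mod_cast hc
    linarith
  -- a root between two points with different signs
  have hroot : ∀ u v : ℕ, u < v → T.eval (u : ℝ) * T.eval (v : ℝ) < 0 →
      ∃ ρ : ℝ, (u : ℝ) < ρ ∧ ρ < v ∧ T.eval ρ = 0 := by
    intro u v huv hs
    have huv' : (u : ℝ) ≤ v := by exact_mod_cast huv.le
    rcases mul_neg_iff.1 hs with ⟨h1, h2⟩ | ⟨h1, h2⟩
    · obtain ⟨ρ, ⟨h3, h4⟩, h5⟩ := intermediate_value_Ioo' huv' (T.continuous.continuousOn)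
        (show (0 : ℝ) ∈ Set.Ioo (T.eval (v : ℝ)) (T.eval (u : ℝ)) from ⟨h2, h1⟩)
      exact ⟨ρ, h3, h4, h5⟩
    · obtain ⟨ρ, ⟨h3, h4⟩, h5⟩ := intermediate_value_Ioo huv' (T.continuous.continuousOn)
        (show (0 : ℝ) ∈ Set.Ioo (T.eval (u : ℝ)) (T.eval (v : ℝ)) from ⟨h1, h2⟩)
      exact ⟨ρ, h3, h4, h5⟩
  refine ⟨hfin, hOfin, ?_, ?_⟩
  · -- the odd runs
    have hch : ∀ n : ℕ, n ∈ O → ∃ (v : ℕ) (ρ : ℝ), (n : ℝ) < ρ ∧ ρ < v ∧ T.eval ρ = 0 ∧
        ∀ n', n < n' → h n' ≠ 0 → v ≤ n' := by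
      intro n hn
      obtain ⟨h1, l, hl, h2, h3⟩ := (hO n).1 hn
      have hk : (G.filter (fun g => n < g)).card =
          l + (G.filter (fun g => n + l + 1 < g)).card := by
        have h4 : G.filter (fun g => n < g) =
            Finset.Ioc n (n + l) ∪ G.filter (fun g => n + l + 1 < g) := by
          ext g
          rw [Finset.mem_filter, Finset.mem_union, Finset.mem_Ioc, Finset.mem_filter]
          constructor
          · rintro ⟨h5, h6⟩
            by_cases h7 : g ≤ n + l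
            · exact Or.inl ⟨h6, h7⟩
            · right
              refine ⟨h5, lt_of_le_of_ne (by omega) ?_⟩
              rintro rfl
              exact h3 ((hG _).1 h5)
          · rintro (⟨h5, h6⟩ | ⟨h5, h6⟩)
            · refine ⟨(hG g).2 ?_, h5⟩
              have := h2 (g - n) (by omega) (by omega)
              rwa [show n + (g - n) = g by omega] at this
            · exact ⟨h5, by omega⟩
        rw [h4, Finset.card_union_of_disjoint, Nat.card_Ioc]
        · omega
        · rw [Finset.disjoint_left]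
          intro g h5 h6
          rw [Finset.mem_Ioc] at h5
          rw [Finset.mem_filter] at h6
          omega
      have h4 := hsign n h1
      have h5 := hsign (n + l + 1) h3
      obtain ⟨ρ, h6, h7, h8⟩ := hroot n (n + l + 1) (by omega) (by
        rw [hk, pow_add, hl.neg_one_pow] at h4
        set s : ℝ := (-1 : ℝ) ^ (G.filter (fun g => n + l + 1 < g)).card with hs
        have hss : s * s = 1 := by
          rw [hs, ← mul_pow]
          norm_num
        have h9 := mul_pos h4 h5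
        have h10 : (-1 * s * T.eval (n : ℝ)) * (s * T.eval ((n + l + 1 : ℕ) : ℝ)) =
          -(T.eval (n : ℝ) * T.eval ((n + l + 1 : ℕ) : ℝ)) := by
          linear_combination -(T.eval (n : ℝ) * T.eval ((n + l + 1 : ℕ) : ℝ)) * hss
        rw [h10] at h9
        linarith)
      refine ⟨n + l + 1, ρ, h6, h7, h8, ?_⟩
      intro n' h9 h10
      by_contra h11
      have := h2 (n' - n) (by omega) (by omega)
      rw [show n + (n' - n) = n' by omega] at this
      exact h10 this
    choose! v ρ hρ1 hρ2 hρ3 hρ4 using hch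
    have hinj : Set.InjOn ρ (O : Set ℕ) := by
      have key : ∀ a ∈ O, ∀ b ∈ O, a < b → ρ a < ρ b := by
        intro a ha b hb hab
        have h1 := hρ4 a ha b hab ((hO b).1 hb).1
        have h2 : (v a : ℝ) ≤ b := by exact_mod_cast h1
        have := hρ2 a ha
        have := hρ1 b hb
        linarith
      intro a ha b hb hab
      rcases lt_trichotomy a b with h1 | h1 | h1
      · exact absurd hab (key a ha b hb h1).ne
      · exact h1
      · exact absurd hab (key b hb a ha h1).ne'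
    let W : Finset ℝ := O.image ρ ∪ O.image (fun n => (c : ℝ) - (D + 1) - ρ n)
    have hW : W.card = 2 * O.card := by
      have h1 : Disjoint (O.image ρ) (O.image (fun n => (c : ℝ) - (D + 1) - ρ n)) := by
        rw [Finset.disjoint_left]
        intro x h1 h2
        rw [Finset.mem_image] at h1 h2
        obtain ⟨n, hn, rfl⟩ := h1
        obtain ⟨m, hm, h3⟩ := h2
        have := hρ1 n hn
        have := hρ1 m hm
        have h4 : (0 : ℝ) ≤ n := Nat.cast_nonneg n
        have h5 : (0 : ℝ) ≤ m := Nat.cast_nonneg m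
        linarith
      change (O.image ρ ∪ O.image (fun n => (c : ℝ) - (D + 1) - ρ n)).card = _
      rw [Finset.card_union_of_disjoint h1, Finset.card_image_of_injOn hinj,
        Finset.card_image_of_injOn]
      · ring
      · intro a ha b hb hab
        exact hinj ha hb (by simpa using hab)
    have hW2 : W.card ≤ T.natDegree := by
      have h1 : W.val ≤ T.roots := by
        rw [Multiset.le_iff_subset W.nodup]
        intro x hx
        rw [mem_roots hT0]
        have hx' : x ∈ W := hx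
        rw [Finset.mem_union, Finset.mem_image, Finset.mem_image] at hx'
        rcases hx' with ⟨n, hn, rfl⟩ | ⟨n, hn, rfl⟩
        · exact hρ3 n hn
        · exact hTs _ (hρ3 n hn)
      have h2 := Multiset.card_le_card h1
      exact h2.trans (card_roots' T)
    rw [hGc, hOc]
    omega
  · rw [hGc]
    intro hodd
    -- a large index
    obtain ⟨m, hm⟩ : ∃ m, ∀ g ∈ G, g < m := ⟨G.sup id + 1, fun g hg => by
      have := Finset.le_sup (f := id) hg
      simp only [id] at this
      omega⟩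
    have hm0 : h m ≠ 0 := fun h1 => lt_irrefl _ (hm m ((hG m).2 h1))
    have h1 := hsign 0 h0
    have h2 := hsign m hm0
    have h3 : G.filter (fun g => 0 < g) = G := Finset.filter_true_of_mem hG0
    have h4 : G.filter (fun g => m < g) = ∅ := by
      rw [Finset.filter_eq_empty_iff]
      intro g hg
      have := hm g hg
      omega
    rw [h3, hodd.neg_one_pow] at h1
    rw [h4, Finset.card_empty, pow_zero, one_mul] at h2
    have hm1 : 0 < m := by
      rcases Nat.eq_zero_or_pos m with rfl | h5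
      · exfalso
        have : G = ∅ := by
          rw [Finset.eq_empty_iff_forall_notMem]
          intro g hg
          exact absurd (hm g hg) (Nat.not_lt_zero g)
        rw [this] at hodd
        simp at hodd
      · exact h5
    obtain ⟨ρ, h5, h6, h7⟩ := hroot 0 m hm1 (by nlinarith)
    have h8 : ({ρ, (c : ℝ) - (D + 1) - ρ} : Finset ℝ).card ≤ T.natDegree := by
      have h1 : ({ρ, (c : ℝ) - (D + 1) - ρ} : Finset ℝ).val ≤ T.roots := by
        rw [Multiset.le_iff_subset (Finset.nodup _)]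
        intro x hx
        rw [mem_roots hT0]
        have hx' : x ∈ ({ρ, (c : ℝ) - (D + 1) - ρ} : Finset ℝ) := hx
        rw [Finset.mem_insert, Finset.mem_singleton] at hx'
        rcases hx' with rfl | rfl
        · exact h7
        · exact hTs _ h7
      exact (Multiset.card_le_card h1).trans (card_roots' T)
    rw [Finset.card_pair (by
      intro h9
      push_cast at h5
      linarith)] at h8
    omega

end Pool.Agent.Q86.Gap
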