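import Pool.Agent.Q86.GS
import Pool.Agent.Q86.Gap1
import Pool.Agent.Q86.Gap2

/-!
# Gorenstein section rings: the gaps
-/

set_option autoImplicit false

namespace Pool.Agent.Q86.GS

open Polynomial

section ring

universe u

variable {k S : Type u} [Field k] [CommRing S] [IsDomain S] [Algebra k S] (𝒜 : ℕ → Submodule k S)
  [GradedAlgebra 𝒜]

variable {𝒜}

theorem exists_numerator (hfin : ∀ n, Module.Finite k (𝒜 n)) (h0 : Module.finrank k (𝒜 0) = 1) {d : ℕ}
    {θ : Fin d → S} {e : Fin d → ℕ} (he : ∀ j, 0 < e j) (hθ : ∀ j, θ j ∈ 𝒜 (e j))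
    (hθ0 : ∀ j, θ j ≠ 0)
    (hreg : ∀ (j : Fin d) (x : S), θ j * x ∈ chain θ j → x ∈ chain θ j)
    {N : ℕ} (hN : ∀ n, N ≤ n → ∀ x ∈ 𝒜 n, x ∈ chain θ d) {σ : ℕ} {s : S} (hs : s ∈ 𝒜 σ)
    (hsI : s ∉ chain θ d)
    (hsoc : ∀ x, (∀ n, 0 < n → ∀ y ∈ 𝒜 n, x * y ∈ chain θ d) → ∃ c : k, x - c • s ∈ chain θ d)
    (P : ℚ[X]) (N' : ℕ)
    (hP : ∀ n, N' ≤ n → (Module.finrank k (𝒜 n) : ℚ) = P.eval (n : ℚ)) :
    ∃ R : ℤ[X], (PowerSeries.mk (fun n => (Module.finrank k (𝒜 n) : ℤ)) : PowerSeries ℤ) *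
        (1 - PowerSeries.X) ^ d = (R : PowerSeries ℤ) ∧ R.reverse = R ∧ 0 < R.eval 1 ∧
      R.natDegree + ∑ j, e j = σ + d := by
  classical
  have hI := chain_homogeneous hθ d
  set I := chain θ d with hIdef
  let H : ℕ → ℤ := fun n => Module.finrank k (𝒜 n)
  have hH : (PowerSeries.mk H : PowerSeries ℤ) = PowerSeries.mk (hf 𝒜 (chain θ 0)) := by
    ext n
    rw [PowerSeries.coeff_mk, PowerSeries.coeff_mk]
    have h1 : chain θ 0 = ⊥ := by
      unfold chain
      simp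
    rw [h1, hf_bot]
  -- the numerator
  let Q : ℤ[X] := ∑ i ∈ Finset.range (σ + 1), C (hf 𝒜 I i) * X ^ i
  have hQc : ∀ i, Q.coeff i = if i ≤ σ then hf 𝒜 I i else 0 := by
    intro i
    change (∑ i ∈ Finset.range (σ + 1), C (hf 𝒜 I i) * X ^ i).coeff i = _
    rw [finset_sum_coeff]
    simp only [coeff_C_mul_X_pow]
    rw [Finset.sum_ite_eq]
    simp only [Finset.mem_range, Nat.lt_succ_iff]
  have hbig : ∀ i, σ < i → hf 𝒜 I i = 0 := by
    intro i hi
    rw [hf_eq_zero hfin]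
    intro x hx
    by_contra h
    have := (exists_pair hI hN hs hsoc hx h).1
    omega
  have hQ : (PowerSeries.mk H : PowerSeries ℤ) * ∏ j, (1 - PowerSeries.X ^ e j) =
      (Q : PowerSeries ℤ) := by
    have h1 := series hfin hθ hθ0 hreg d le_rfl
    rw [Finset.filter_true_of_mem fun i _ => i.2] at h1
    rw [hH, ← h1]
    ext n
    rw [PowerSeries.coeff_mk, Polynomial.coeff_coe, hQc]
    split_ifs with h
    · rfl
    · exact hbig n (not_le.1 h)
  have hq0 : Q.coeff 0 = 1 := by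
    have h1 := congrArg (PowerSeries.coeff 0) hQ
    rw [Polynomial.coeff_coe] at h1
    rw [← h1, PowerSeries.coeff_zero_eq_constantCoeff_apply, map_mul, map_prod]
    rw [Finset.prod_eq_one fun j _ => by
      rw [map_sub, map_one, map_pow, PowerSeries.constantCoeff_X, zero_pow (he j).ne', sub_zero]]
    rw [mul_one, ← PowerSeries.coeff_zero_eq_constantCoeff_apply, PowerSeries.coeff_mk]
    change ((Module.finrank k (𝒜 0) : ℕ) : ℤ) = 1
    rw [h0]
    rfl
  have hsym : ∀ i, i ≤ σ → Q.coeff i = Q.coeff (σ - i) := by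
    intro i hi
    rw [hQc, hQc, if_pos hi, if_pos (Nat.sub_le _ _)]
    exact hf_symm hfin hI hN hs hsI hsoc hi
  have hQσ : Q.coeff σ = 1 := by
    rw [← hq0, hsym σ le_rfl, Nat.sub_self]
  have hdeg : Q.natDegree = σ := by
    apply le_antisymm
    · rw [natDegree_le_iff_coeff_eq_zero]
      intro i hi
      rw [hQc, if_neg (not_le.2 hi)]
    · exact le_natDegree_of_ne_zero (by rw [hQσ]; exact one_ne_zero)
  have hrev : Q.reverse = Q := by
    ext i
    rw [coeff_reverse, hdeg]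
    by_cases hi : i ≤ σ
    · rw [revAt_le hi, ← hsym i hi]
    · rw [revAt_eq_self_of_lt (not_le.1 hi)]
  have hQ1 : 0 < Q.eval 1 := by
    have h1 : Q.eval 1 = ∑ i ∈ Finset.range (σ + 1), Q.coeff i := by
      rw [eval_eq_sum_range, hdeg]
      simp
    rw [h1]
    have h2 : ∀ i ∈ Finset.range (σ + 1), 0 ≤ Q.coeff i := by
      intro i _
      rw [hQc]
      split_ifs
      · exact hf_nonneg hfin I i
      · exact le_rfl
    have h3 := Finset.single_le_sum h2 (Finset.mem_range.2 (Nat.lt_succ_self σ))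
    rw [hQσ] at h3
    omega
  obtain ⟨R, hR1, hR2, hR3, hR4⟩ := numerator H e he Q hQ hrev hQ1 P N' (by
    intro n hn
    change (((Module.finrank k (𝒜 n) : ℕ) : ℤ) : ℚ) = _
    rw [Int.cast_natCast]
    exact hP n hn)
  exact ⟨R, hR1, hR2, hR3, by rw [hR4, hdeg]⟩

end ring

end Pool.Agent.Q86.GS
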