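import Pool.Agent.Q86.Gap3

/-!
# Gorenstein section rings: multiplicity and the first sections
-/

set_option autoImplicit false

namespace Pool.Agent.Q86.Gap

open Polynomial Finset Filter Topology

lemma tendsto_bp (D i : ℕ) : Tendsto (fun n : ℕ => (D.factorial : ℝ) * (bp D).eval ((n : ℝ) - i) /
    (n : ℝ) ^ D) atTop (𝓝 1) := by
  have h1 : ∀ j : ℕ, Tendsto (fun n : ℕ => 1 + ((j : ℝ) + 1 - i) / (n : ℝ)) atTop (𝓝 1) := by
    intro j
    have := (tendsto_const_div_atTop_nhds_zero_nat ((j : ℝ) + 1 - i)).const_add 1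
    simpa using this
  have h2 : Tendsto (fun n : ℕ => ∏ j ∈ range D, (1 + ((j : ℝ) + 1 - i) / (n : ℝ))) atTop
      (𝓝 (∏ _j ∈ range D, (1 : ℝ))) := tendsto_finset_prod _ fun j _ => h1 j
  rw [Finset.prod_const_one] at h2
  refine h2.congr' ?_
  filter_upwards [eventually_gt_atTop 0] with n hn
  have hn' : (n : ℝ) ≠ 0 := by exact_mod_cast hn.ne'
  have hD : (D.factorial : ℝ) ≠ 0 := by exact_mod_cast D.factorial_ne_zero
  rw [bp_eval]
  have h3 : ∏ j ∈ range D, (1 + ((j : ℝ) + 1 - i) / (n : ℝ)) =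
      (∏ j ∈ range D, ((n : ℝ) - i + (j + 1))) / (n : ℝ) ^ D := by
    rw [← Finset.card_range D, ← Finset.prod_const, Finset.card_range, ← Finset.prod_div_distrib]
    refine Finset.prod_congr rfl fun j _ => ?_
    field_simp
    ring
  rw [h3]
  field_simp

lemma tendsto_hp (D : ℕ) (H : ℕ → ℤ) (R : ℤ[X])
    (h : (PowerSeries.mk H : PowerSeries ℤ) * (1 - PowerSeries.X) ^ (D + 1) = (R : PowerSeries ℤ))
    (hc : R.natDegree ≤ D) :
    Tendsto (fun n : ℕ => (D.factorial : ℝ) * (H n : ℝ) / (n : ℝ) ^ D) atTop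
      (𝓝 ((R.eval 1 : ℤ) : ℝ)) := by
  have h1 : Tendsto (fun n : ℕ => ∑ i ∈ range (R.natDegree + 1), (R.coeff i : ℝ) *
      ((D.factorial : ℝ) * (bp D).eval ((n : ℝ) - i) / (n : ℝ) ^ D)) atTop
      (𝓝 (∑ i ∈ range (R.natDegree + 1), (R.coeff i : ℝ) * 1)) :=
    tendsto_finset_sum _ fun i _ => (tendsto_bp D i).const_mul _
  have h2 : (∑ i ∈ range (R.natDegree + 1), (R.coeff i : ℝ) * 1) = ((R.eval 1 : ℤ) : ℝ) := by
    rw [eval_eq_sum_range]
    push_cast
    refine Finset.sum_congr rfl fun i _ => by simp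
  rw [h2] at h1
  refine h1.congr fun n => ?_
  rw [← hp_nat D H R h hc n, hp_eval, Finset.mul_sum, Finset.sum_div]
  refine Finset.sum_congr rfl fun i _ => ?_
  ring

lemma first (D : ℕ) (H : ℕ → ℤ) (R : ℤ[X])
    (h : (PowerSeries.mk H : PowerSeries ℤ) * (1 - PowerSeries.X) ^ (D + 1) = (R : PowerSeries ℤ)) :
    H 0 = R.coeff 0 ∧ H 1 = R.coeff 0 * (D + 1) + R.coeff 1 ∧
      2 * H 2 = R.coeff 0 * ((D + 1) * (D + 2)) + 2 * R.coeff 1 * (D + 1) + 2 * R.coeff 2 := by
  have h0 := coeff_eq D H R h 0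
  have h1 := coeff_eq D H R h 1
  have h2 := coeff_eq D H R h 2
  simp only [Finset.sum_range_succ, Finset.sum_range_zero] at h0 h1 h2
  have e1 : ((1 + D).choose D : ℤ) = D + 1 := by
    rw [add_comm, Nat.choose_symm_of_eq_add (a := D) (b := 1) rfl, Nat.choose_one_right]
    push_cast; ring
  have e2 : 2 * ((2 + D).choose D : ℤ) = (D + 1) * (D + 2) := by
    rw [add_comm, Nat.choose_symm_of_eq_add (a := D) (b := 2) rfl]
    have := Nat.choose_two_right (D + 2)
    have h3 : 2 * (D + 2).choose 2 = (D + 2) * (D + 1) := by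
      rw [this]
      have h4 : 2 ∣ (D + 2) * (D + 2 - 1) := (Nat.even_mul_pred_self (D + 2)).two_dvd
      rw [Nat.mul_div_cancel' h4]
      rfl
    have h5 : (2 * (D + 2).choose 2 : ℤ) = ((D + 2) * (D + 1) : ℕ) := by exact_mod_cast h3
    rw [h5]
    push_cast; ring
  norm_num at h0 h1 h2
  rw [e1] at h1
  refine ⟨h0, by rw [h1], ?_⟩
  rw [h2, e1]
  linear_combination (R.coeff 0) * e2

theorem small (D : ℕ) (H : ℕ → ℤ) (R : ℤ[X])
    (h : (PowerSeries.mk H : PowerSeries ℤ) * (1 - PowerSeries.X) ^ (D + 1) = (R : PowerSeries ℤ))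
    (hr : R.reverse = R) (hH0 : H 0 = 1) (h1 : H 1 = 0) (h2 : 0 ≤ H 2) :
    (R.natDegree = 4 → (D : ℤ) * (D - 3) ≤ 2 * R.eval 1) ∧
    (R.natDegree = 5 → (D : ℤ) * (D - 1) ≤ R.eval 1) := by
  obtain ⟨e0, e1, e2⟩ := first D H R h
  have hsym : ∀ i ≤ R.natDegree, R.coeff i = R.coeff (R.natDegree - i) := by
    intro i hi
    conv_lhs => rw [← hr]
    rw [coeff_reverse, revAt_le hi]
  have hev : R.eval 1 = ∑ i ∈ Finset.range (R.natDegree + 1), R.coeff i := by
    rw [eval_eq_sum_range]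
    simp
  rw [hH0] at e0
  rw [← e0, h1] at e1
  rw [← e0] at e2
  have e3 : R.coeff 1 = -(D + 1) := by linarith
  rw [e3] at e2
  constructor
  · intro hd
    rw [hd] at hsym hev
    have h4 := hsym 0 (by omega)
    have h5 := hsym 1 (by omega)
    norm_num at h4 h5
    simp only [Finset.sum_range_succ, Finset.sum_range_zero] at hev
    rw [hev, ← h4, ← h5, e3, ← e0]
    nlinarith
  · intro hd
    rw [hd] at hsym hev
    have h4 := hsym 0 (by omega)
    have h5 := hsym 1 (by omega)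
    have h6 := hsym 2 (by omega)
    norm_num at h4 h5 h6
    simp only [Finset.sum_range_succ, Finset.sum_range_zero] at hev
    rw [hev, ← h4, ← h5, ← h6, e3, ← e0]
    nlinarith

/-- in a numerical semigroup the gaps are smaller than twice their number -/
lemma semigroup {p : ℕ → Prop} (hadd : ∀ m n, ¬ p m → ¬ p n → ¬ p (m + n))
    (hfin : {n | p n}.Finite) (n : ℕ) (hn : p n) : n + 1 ≤ 2 * {n | p n}.ncard := by
  classical
  obtain ⟨G, hG⟩ : ∃ G : Finset ℕ, ∀ n, n ∈ G ↔ p n := ⟨hfin.toFinset, fun n => by simp⟩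
  have hGc : {n | p n}.ncard = G.card := by
    rw [← Set.ncard_coe_finset]
    congr 1
    ext n
    simp [hG]
  rw [hGc]
  have h1 : range (n + 1) ⊆ G ∪ G.image (fun i => n - i) := by
    intro i hi
    rw [mem_range] at hi
    rw [mem_union, mem_image]
    by_contra hc
    push Not at hc
    have h2 : ¬ p i := fun h => hc.1 ((hG i).2 h)
    have h3 : ¬ p (n - i) := fun h => hc.2 (n - i) ((hG _).2 h) (by omega)
    have h4 := hadd i (n - i) h2 h3
    rw [show i + (n - i) = n by omega] at h4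
    exact h4 hn
  have h2 := card_le_card h1
  rw [card_range] at h2
  have h3 := card_union_le G (G.image (fun i => n - i))
  have h4 : (G.image (fun i => n - i)).card ≤ G.card := card_image_le
  omega

end Pool.Agent.Q86.Gap
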