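import Pool.Agent.Q86.Gap4

/-!
# Zeros of the Hilbert polynomial and of the numerator of the Hilbert series
-/

set_option autoImplicit false

namespace Pool.Agent.Q86.Gap

open Polynomial Finset Filter Topology

/-- the product over the trivial zeros -/
lemma prod_trivial (n B : ℕ) : ∏ j ∈ range B, (((n : ℝ) + (j + 1)) * (n + (B - j)) /
    (((j : ℝ) + 1) * (B - j))) = (((n + B).choose B : ℕ) : ℝ) ^ 2 := by
  have h1 : ∏ j ∈ range B, (((n : ℝ) + (j + 1)) / ((j : ℝ) + 1)) = (((n + B).choose B : ℕ) : ℝ) := by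
    rw [← bp_eval_nat, bp_eval, Finset.prod_div_distrib]
    have : ∏ j ∈ range B, ((j : ℝ) + 1) = (B.factorial : ℝ) := by
      rw [← Finset.prod_range_add_one_eq_factorial]
      push_cast
      rfl
    rw [this]
    ring
  have h2 : ∏ j ∈ range B, (((n : ℝ) + (B - j)) / ((B : ℝ) - j)) =
      (((n + B).choose B : ℕ) : ℝ) := by
    rw [← h1, ← Finset.prod_range_reflect]
    refine Finset.prod_congr rfl fun j hj => ?_
    rw [mem_range] at hj
    have : ((B - 1 - j : ℕ) : ℝ) = B - 1 - j := by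
      rw [Nat.cast_sub (by omega), Nat.cast_sub (by omega)]
      simp
    rw [this]
    congr 1 <;> ring
  rw [sq]
  nth_rewrite 1 [← h1]
  rw [← h2, ← Finset.prod_mul_distrib]
  refine Finset.prod_congr rfl fun j hj => ?_
  rw [mul_div_mul_comm]

lemma norm_prod_map (s : Multiset ℂ) (g : ℂ → ℂ) :
    ‖(s.map g).prod‖ = (s.map (fun ρ => ‖g ρ‖)).prod := by
  induction s using Multiset.induction_on with
  | empty => simp
  | cons x s ih => rw [Multiset.map_cons, Multiset.map_cons, Multiset.prod_cons,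
      Multiset.prod_cons, norm_mul, ih]

/-- **The zeros of a symmetric polynomial and its value at `n`.** -/
theorem strip (n B D : ℕ) (P : ℝ[X]) (h0 : P.eval 0 = 1) (h1 : 0 ≤ P.eval (n : ℝ))
    (hneg : ∀ m : ℕ, 1 ≤ m → m ≤ B → P.eval (-(m : ℝ)) = 0)
    (hsym : ∀ x : ℝ, P.eval (-((B : ℝ) + 1) - x) = (-1) ^ D * P.eval x)
    (hz : ∀ ρ : ℂ, aeval ρ P = 0 → (ρ * (ρ + ((B : ℂ) + 1))).re ≤ (n : ℝ) * (n + (B + 1)) / 2) :
    (((n + B).choose B : ℕ) : ℝ) ≤ P.eval (n : ℝ) := by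
  classical
  have hP0 : P ≠ 0 := by
    rintro rfl
    simp at h0
  set b : ℂ := (B : ℂ) + 1 with hb
  set Q : ℂ[X] := P.map (algebraMap ℝ ℂ) with hQ
  have hQ0 : Q ≠ 0 := (Polynomial.map_ne_zero_iff (algebraMap ℝ ℂ).injective).2 hP0
  have hQe : ∀ x : ℝ, Q.eval (x : ℂ) = ((P.eval x : ℝ) : ℂ) := by
    intro x
    rw [hQ, eval_map]
    exact (Polynomial.hom_eval₂ P (RingHom.id ℝ) (algebraMap ℝ ℂ) x).symm.trans (by
      simp [eval₂_id])
  have hQr : ∀ ρ : ℂ, ρ ∈ Q.roots → aeval ρ P = 0 := by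
    intro ρ hρ
    rw [mem_roots hQ0, IsRoot.def, hQ, eval_map] at hρ
    exact hρ
  have hfac : ∀ x : ℂ, Q.eval x = Q.leadingCoeff * (Q.roots.map (fun ρ => x - ρ)).prod := by
    intro x
    have h2 := (IsAlgClosed.splits Q).eq_prod_roots
    conv_lhs => rw [h2]
    rw [eval_mul, eval_C, eval_multiset_prod, Multiset.map_map]
    congr 2
    apply Multiset.map_congr rfl
    intro ρ _
    simp
  have hlc : Q.leadingCoeff ≠ 0 := leadingCoeff_ne_zero.2 hQ0
  -- the two products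
  have hnum : Q.eval (n : ℂ) * Q.eval (-b - n) =
      Q.leadingCoeff ^ 2 * (Q.roots.map (fun ρ : ℂ => ρ * (ρ + b) - n * (n + b))).prod := by
    rw [hfac, hfac, mul_mul_mul_comm, ← Multiset.prod_map_mul, ← sq]
    congr 2
    apply Multiset.map_congr rfl
    intro ρ _
    ring
  have hden : Q.eval (0 : ℂ) * Q.eval (-b) =
      Q.leadingCoeff ^ 2 * (Q.roots.map (fun ρ : ℂ => ρ * (ρ + b))).prod := by
    rw [hfac, hfac, mul_mul_mul_comm, ← Multiset.prod_map_mul, ← sq]
    congr 2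
    apply Multiset.map_congr rfl
    intro ρ _
    ring
  have e0 : Q.eval (0 : ℂ) * Q.eval (-b) = (-1) ^ D := by
    have a1 := hQe 0
    have a2 := hQe (-((B : ℝ) + 1))
    have a3 := hsym 0
    rw [sub_zero, h0, mul_one] at a3
    rw [h0] at a1
    rw [a3] at a2
    push_cast at a1 a2
    rw [hb, a1, a2, one_mul]
  have e1 : Q.eval (n : ℂ) * Q.eval (-b - n) = (-1) ^ D * ((P.eval (n : ℝ) : ℝ) : ℂ) ^ 2 := by
    have a1 := hQe n
    have a2 := hQe (-((B : ℝ) + 1) - n)
    have a3 := hsym n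
    rw [a3] at a2
    push_cast at a1 a2
    rw [hb, a1, a2]
    ring
  rw [e1] at hnum
  rw [e0] at hden
  have hw0 : ∀ ρ ∈ Q.roots, ρ * (ρ + b) ≠ 0 := by
    intro ρ hρ h
    have h2 : (Q.roots.map (fun ρ : ℂ => ρ * (ρ + b))).prod = 0 :=
      Multiset.prod_eq_zero (Multiset.mem_map.2 ⟨ρ, hρ, h⟩)
    rw [h2, mul_zero] at hden
    exact pow_ne_zero _ (by norm_num) hden
  -- norms
  let f : ℂ → ℝ := fun ρ => ‖ρ * (ρ + b) - n * (n + b)‖ / ‖ρ * (ρ + b)‖
  have hprod : (Q.roots.map f).prod = (P.eval (n : ℝ)) ^ 2 := by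
    have n1 : ‖Q.leadingCoeff‖ ^ 2 *
        (Q.roots.map (fun ρ : ℂ => ‖ρ * (ρ + b) - n * (n + b)‖)).prod = (P.eval (n : ℝ)) ^ 2 := by
      have := congrArg norm hnum
      rw [norm_mul, norm_mul, norm_pow, norm_pow, norm_pow, norm_neg, norm_one, one_pow, one_mul,
        Complex.norm_real, Real.norm_eq_abs, sq_abs] at this
      rw [this, norm_prod_map]
    have n2 : ‖Q.leadingCoeff‖ ^ 2 * (Q.roots.map (fun ρ : ℂ => ‖ρ * (ρ + b)‖)).prod = 1 := by
      have := congrArg norm hden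
      rw [norm_mul, norm_pow, norm_pow, norm_neg, norm_one, one_pow] at this
      rw [this, norm_prod_map]
    have n3 : (Q.roots.map f).prod * (Q.roots.map (fun ρ : ℂ => ‖ρ * (ρ + b)‖)).prod =
        (Q.roots.map (fun ρ : ℂ => ‖ρ * (ρ + b) - n * (n + b)‖)).prod := by
      rw [← Multiset.prod_map_mul]
      congr 1
      apply Multiset.map_congr rfl
      intro ρ hρ
      exact div_mul_cancel₀ _ (norm_ne_zero_iff.2 (hw0 ρ hρ))
    have n4 : ‖Q.leadingCoeff‖ ^ 2 * (Q.roots.map (fun ρ : ℂ => ‖ρ * (ρ + b)‖)).prod *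
        (Q.roots.map f).prod = (P.eval (n : ℝ)) ^ 2 := by
      rw [← n1, ← n3]
      ring
    rw [n2, one_mul] at n4
    exact n4
  have hf1 : ∀ ρ ∈ Q.roots, 1 ≤ f ρ := by
    intro ρ hρ
    have h2 := hz ρ (hQr ρ hρ)
    have h3 : 0 < ‖ρ * (ρ + b)‖ := norm_pos_iff.2 (hw0 ρ hρ)
    change 1 ≤ ‖ρ * (ρ + b) - n * (n + b)‖ / ‖ρ * (ρ + b)‖
    rw [one_le_div h3]
    set w : ℂ := ρ * (ρ + b) with hw
    have h4 : ((n : ℂ) * (n + b)) = (((n : ℝ) * (n + (B + 1)) : ℝ) : ℂ) := by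
      rw [hb]; push_cast; ring
    rw [h4]
    set u : ℝ := (n : ℝ) * (n + (B + 1)) with hu
    rw [← sq_le_sq₀ (norm_nonneg _) (norm_nonneg _), Complex.sq_norm, Complex.sq_norm,
      Complex.normSq_apply, Complex.normSq_apply]
    have h4 : (w - (u : ℂ)).re = w.re - u := by simp
    have h5 : (w - (u : ℂ)).im = w.im := by simp
    rw [h4, h5]
    have h6 : (0 : ℝ) ≤ u := by positivity
    nlinarith
  -- the trivial zeros
  let T : Multiset ℂ := (Multiset.range B).map (fun j : ℕ => -((j : ℂ) + 1))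
  have hT : T ≤ Q.roots := by
    rw [Multiset.le_iff_subset]
    · intro x hx
      rw [Multiset.mem_map] at hx
      obtain ⟨j, hj, rfl⟩ := hx
      rw [Multiset.mem_range] at hj
      rw [mem_roots hQ0, IsRoot.def]
      have h2 := hQe (-((j + 1 : ℕ) : ℝ))
      rw [hneg (j + 1) (by omega) (by omega)] at h2
      push_cast at h2
      exact h2
    · refine Multiset.Nodup.map ?_ (Multiset.nodup_range _)
      intro i j hij
      have h2 : (i : ℂ) = j := by
        have := neg_injective hij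
        exact add_right_cancel this
      exact_mod_cast h2
  obtain ⟨U, hU⟩ := Multiset.le_iff_exists_add.1 hT
  have hTp : (T.map f).prod = (((n + B).choose B : ℕ) : ℝ) ^ 2 := by
    rw [← prod_trivial n B]
    change (((Multiset.range B).map (fun j : ℕ => -((j : ℂ) + 1))).map f).prod = _
    rw [Multiset.map_map]
    change ∏ j ∈ range B, (f ∘ (fun j : ℕ => -((j : ℂ) + 1))) j = _
    refine Finset.prod_congr rfl fun j hj => ?_
    rw [mem_range] at hj
    change ‖-((j : ℂ) + 1) * (-((j : ℂ) + 1) + b) - n * (n + b)‖ /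
      ‖-((j : ℂ) + 1) * (-((j : ℂ) + 1) + b)‖ = _
    have h5 : (0 : ℝ) ≤ j := Nat.cast_nonneg j
    have h5' : (0 : ℝ) ≤ n := Nat.cast_nonneg n
    have h6 : (j : ℝ) < B := by exact_mod_cast hj
    have h7 : -((j : ℂ) + 1) * (-((j : ℂ) + 1) + b) - n * (n + b) =
        ((-(((n : ℝ) + (j + 1)) * (n + (B - j))) : ℝ) : ℂ) := by
      rw [hb]; push_cast; ring
    have h8 : -((j : ℂ) + 1) * (-((j : ℂ) + 1) + b) =
        ((-(((j : ℝ) + 1) * (B - j)) : ℝ) : ℂ) := by
      rw [hb]; push_cast; ring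
    rw [h7, h8, Complex.norm_real, Complex.norm_real, Real.norm_eq_abs, Real.norm_eq_abs, abs_neg,
      abs_neg, abs_of_nonneg (mul_nonneg (by linarith) (by linarith)),
      abs_of_nonneg (mul_nonneg (by linarith) (by linarith))]
  have hUp : 1 ≤ (U.map f).prod := by
    have h2 : ∀ ρ ∈ U, 1 ≤ f ρ := fun ρ hρ => hf1 ρ (by rw [hU]; exact Multiset.mem_add.2 (Or.inr hρ))
    clear hU
    induction U using Multiset.induction_on with
    | empty => simp
    | cons x U ih =>
      rw [Multiset.map_cons, Multiset.prod_cons]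
      exact one_le_mul_of_one_le_of_one_le (h2 x (Multiset.mem_cons_self _ _))
        (ih fun ρ hρ => h2 ρ (Multiset.mem_cons_of_mem hρ))
  have hfin : (((n + B).choose B : ℕ) : ℝ) ^ 2 ≤ (P.eval (n : ℝ)) ^ 2 := by
    rw [← hprod, hU, Multiset.map_add, Multiset.prod_add, hTp]
    have : (0 : ℝ) ≤ (((n + B).choose B : ℕ) : ℝ) ^ 2 := by positivity
    nlinarith
  exact (sq_le_sq₀ (Nat.cast_nonneg _) h1).1 hfin

/-- the first coefficient of a reciprocal polynomial whose zeros have real part at most `1` -/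
theorem first_coeff (R : ℤ[X]) (hr : R.reverse = R) (h0 : R.coeff 0 = 1)
    (hz : ∀ ζ : ℂ, aeval ζ R = 0 → ζ.re ≤ 1) (hc : 0 < R.natDegree) :
    -(R.natDegree : ℤ) ≤ R.coeff 1 := by
  have hlead : R.leadingCoeff = 1 := by
    have h1 : R.reverse.coeff 0 = R.leadingCoeff := coeff_zero_reverse R
    rw [hr, h0] at h1
    exact h1.symm
  have hmon : R.Monic := hlead
  have h1 : R.coeff 1 = R.nextCoeff := by
    rw [nextCoeff_of_natDegree_pos hc]
    conv_lhs => rw [← hr]
    rw [coeff_reverse, revAt_le (by omega)]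
  set Q : ℂ[X] := R.map (algebraMap ℤ ℂ) with hQ
  have hQm : Q.Monic := hmon.map _
  have hQn : Q.nextCoeff = ((R.coeff 1 : ℤ) : ℂ) := by
    rw [h1, hQ, nextCoeff_map (algebraMap ℤ ℂ).injective_int]
    rfl
  have hsum := (IsAlgClosed.splits Q).nextCoeff_eq_neg_sum_roots_of_monic hQm
  have hcard : Q.roots.card = R.natDegree := by
    rw [← (IsAlgClosed.splits Q).natDegree_eq_card_roots, hQ, hmon.natDegree_map]
  rw [hQn] at hsum
  have h2 : ((R.coeff 1 : ℤ) : ℂ) = - Q.roots.sum := hsum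
  have h3 : ((R.coeff 1 : ℤ) : ℝ) = - (Q.roots.sum).re := by
    have := congrArg Complex.re h2
    simpa using this
  have h4 : (Q.roots.sum).re ≤ (R.natDegree : ℝ) := by
    have h5 : ∀ ζ ∈ Q.roots, ζ.re ≤ 1 := by
      intro ζ hζ
      apply hz
      rw [mem_roots hQm.ne_zero, IsRoot.def, hQ, eval_map] at hζ
      exact hζ
    have h6 : ∀ s : Multiset ℂ, (∀ ζ ∈ s, ζ.re ≤ 1) → (s.sum).re ≤ (s.card : ℝ) := by
      intro s
      induction s using Multiset.induction_on with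
      | empty => simp
      | cons x s ih =>
        intro h
        rw [Multiset.sum_cons, Multiset.card_cons, Complex.add_re]
        push_cast
        have := h x (Multiset.mem_cons_self _ _)
        have := ih fun ζ hζ => h ζ (Multiset.mem_cons_of_mem hζ)
        linarith
    have := h6 _ h5
    rwa [hcard] at this
  have h7 : -(R.natDegree : ℝ) ≤ ((R.coeff 1 : ℤ) : ℝ) := by linarith
  exact_mod_cast h7

/-- the zeros of the numerator of the Hilbert series of a complete intersection -/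
theorem ci_zeros {m c : ℕ} (A : Fin m → ℕ) (B : Fin c → ℕ) (hB : ∀ j, 0 < B j)
    (H : ℕ → ℤ) (d : ℕ) (R : ℤ[X])
    (h : (PowerSeries.mk H : PowerSeries ℤ) * (1 - PowerSeries.X) ^ d = (R : PowerSeries ℤ))
    (hH : (PowerSeries.mk H : PowerSeries ℤ) * ∏ i, (1 - PowerSeries.X ^ A i) =
      ∏ j, (1 - PowerSeries.X ^ B j)) (ζ : ℂ) (hζ : aeval ζ R = 0) : ζ.re ≤ 1 := by
  have h1 : R * ∏ i, (1 - (X : ℤ[X]) ^ A i) = (∏ j, (1 - (X : ℤ[X]) ^ B j)) * (1 - X) ^ d := by
    apply Polynomial.coe_injective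
    have e1 : ∀ (n : ℕ), ((1 - (X : ℤ[X]) ^ n : ℤ[X]) : PowerSeries ℤ) = 1 - PowerSeries.X ^ n := by
      intro n
      rw [Polynomial.coe_sub, Polynomial.coe_one, Polynomial.coe_pow, Polynomial.coe_X]
    have e2 : ∀ {l : ℕ} (F : Fin l → ℕ), ((∏ i, (1 - (X : ℤ[X]) ^ F i) : ℤ[X]) : PowerSeries ℤ) =
        ∏ i, (1 - PowerSeries.X ^ F i) := by
      intro l F
      have := map_prod (Polynomial.coeToPowerSeries.ringHom (R := ℤ)) (fun i => 1 - (X : ℤ[X]) ^ F i)
        Finset.univ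
      simp only [Polynomial.coeToPowerSeries.ringHom_apply] at this
      rw [this]
      exact Finset.prod_congr rfl fun i _ => e1 _
    rw [Polynomial.coe_mul, Polynomial.coe_mul, e2, e2, ← h, ← hH, Polynomial.coe_pow,
      Polynomial.coe_sub, Polynomial.coe_one, Polynomial.coe_X]
    ring
  have h2 := congrArg (aeval ζ) h1
  rw [map_mul, hζ, zero_mul, map_mul, map_pow, map_prod] at h2
  have key : ∀ n : ℕ, 0 < n → ζ ^ n = 1 → ζ.re ≤ 1 := by
    intro n hn h4
    have h5 : ‖ζ‖ = 1 := by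
      have h6 : ‖ζ‖ ^ n = 1 := by rw [← norm_pow, h4, norm_one]
      exact (pow_eq_one_iff_of_nonneg (norm_nonneg _) hn.ne').1 h6
    exact (Complex.re_le_norm ζ).trans h5.le
  rcases mul_eq_zero.1 h2.symm with h4 | h4
  · obtain ⟨j, _, hj⟩ := Finset.prod_eq_zero_iff.1 h4
    simp only [map_sub, map_one, map_pow, aeval_X] at hj
    exact key (B j) (hB j) (sub_eq_zero.1 hj).symm
  · rcases Nat.eq_zero_or_pos d with hd | hd
    · rw [hd, pow_zero] at h4
      exact absurd h4 one_ne_zero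
    · have h6 := eq_zero_of_pow_eq_zero h4
      simp only [map_sub, map_one, aeval_X] at h6
      exact key 1 one_pos (by rw [pow_one]; exact (sub_eq_zero.1 h6).symm)

end Pool.Agent.Q86.Gap
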