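import Mathlib

set_option autoImplicit false

universe u

namespace Pool.Agent.Q86.LSS

open MvPolynomial SimpleGraph

/-- The Lovász–Saks–Schrijver ideal of the graph `G` in dimension `d`. -/
noncomputable def lssIdeal (K : Type u) [Field K] {V : Type} (G : SimpleGraph V) (d : ℕ) :
    Ideal (MvPolynomial (V × Fin d) K) :=
  Ideal.span {f | ∃ i l, G.Adj i l ∧ f = ∑ j : Fin d, X (i, j) * X (l, j)}

/-- `K_{m,m}` minus the edges of a Hamiltonian cycle: the left vertex `i` is adjacent to the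
right vertex `j` if and only if `j ≠ i` and `j ≠ i + 1`. -/
def cyc (m : ℕ) [NeZero m] : SimpleGraph (Fin m ⊕ Fin m) where
  Adj v w := (∃ i j, v = Sum.inl i ∧ w = Sum.inr j ∧ j ≠ i ∧ j ≠ i + 1) ∨
    (∃ i j, v = Sum.inr j ∧ w = Sum.inl i ∧ j ≠ i ∧ j ≠ i + 1)
  symm := ⟨by
    rintro v w (⟨i, j, rfl, rfl, h1, h2⟩ | ⟨i, j, rfl, rfl, h1, h2⟩)
    · exact Or.inr ⟨i, j, rfl, rfl, h1, h2⟩
    · exact Or.inl ⟨i, j, rfl, rfl, h1, h2⟩⟩
  loopless := ⟨by
    rintro v (⟨i, j, rfl, h, -⟩ | ⟨i, j, rfl, h, -⟩) <;> cases h⟩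

theorem cyc_le (m : ℕ) [NeZero m] : cyc m ≤ completeBipartiteGraph (Fin m) (Fin m) := by
  rintro v w (⟨i, j, rfl, rfl, h1, h2⟩ | ⟨i, j, rfl, rfl, h1, h2⟩) <;> simp

theorem adj_inl_inr {m : ℕ} [NeZero m] {i j : Fin m} :
    (cyc m).Adj (Sum.inl i) (Sum.inr j) ↔ j ≠ i ∧ j ≠ i + 1 := by
  constructor
  · rintro (⟨i', j', h, h', h1, h2⟩ | ⟨i', j', h, h', h1, h2⟩)
    · cases h; cases h'; exact ⟨h1, h2⟩
    · cases h
  · rintro ⟨h1, h2⟩; exact Or.inl ⟨i, j, rfl, rfl, h1, h2⟩

theorem not_adj_inl_inl {m : ℕ} [NeZero m] {i j : Fin m} :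
    ¬ (cyc m).Adj (Sum.inl i) (Sum.inl j) := by
  rintro (⟨i', j', h, h', h1, h2⟩ | ⟨i', j', h, h', h1, h2⟩)
  · cases h'
  · cases h

theorem not_adj_inr_inr {m : ℕ} [NeZero m] {i j : Fin m} :
    ¬ (cyc m).Adj (Sum.inr i) (Sum.inr j) := by
  rintro (⟨i', j', h, h', h1, h2⟩ | ⟨i', j', h, h', h1, h2⟩)
  · cases h
  · cases h'

open scoped Fin.NatCast in
/-- A nonempty set of residues closed under `+ 1` is everything. -/
theorem all_of_closed {m : ℕ} (A : Set (Fin (m + 1))) (hne : A.Nonempty)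
    (h : ∀ i ∈ A, i + 1 ∈ A) (y : Fin (m + 1)) : y ∈ A := by
  obtain ⟨x, hx⟩ := hne
  have key : ∀ k : ℕ, x + (k : Fin (m + 1)) ∈ A := by
    intro k
    induction k with
    | zero => simpa using hx
    | succ k ih =>
      have := h _ ih
      rw [add_assoc] at this
      simpa using this
  have := key (y - x).val
  rwa [Fin.cast_val_eq_self, add_sub_cancel] at this

/-- The combinatorial count. -/
theorem count {m : ℕ} (A B : Finset (Fin (m + 1))) (hA : A.Nonempty) (hB : B.Nonempty)
    (h : ∀ i ∈ A, ∀ j ∈ B, j ≠ i ∧ j ≠ i + 1) : A.card + B.card < m + 1 := by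
  classical
  by_cases hcl : ∀ i ∈ A, i + 1 ∈ A
  · obtain ⟨j, hj⟩ := hB
    have := all_of_closed (A : Set (Fin (m + 1))) hA hcl j
    exact absurd rfl (h j this j hj).1
  · push Not at hcl
    obtain ⟨i, hi, hi'⟩ := hcl
    have hd : Disjoint (insert (i + 1) A) B := by
      rw [Finset.disjoint_left]
      intro j hj hjB
      rcases Finset.mem_insert.1 hj with rfl | hj
      · exact (h i hi _ hjB).2 rfl
      · exact (h j hj j hjB).1 rfl
    have h1 := Finset.card_le_univ (insert (i + 1) A ∪ B)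
    rw [Finset.card_union_of_disjoint hd, Finset.card_insert_of_notMem hi', Fintype.card_fin] at h1
    omega

theorem no_Kab {m : ℕ} {a b : ℕ} (ha : 1 ≤ a) (hb : 1 ≤ b) (hab : m + 1 ≤ a + b) :
    ¬ (completeBipartiteGraph (Fin a) (Fin b)) ⊑ (cyc (m + 1)) := by
  classical
  rintro ⟨f⟩
  have hadj : ∀ i j, (cyc (m + 1)).Adj (f.toHom (Sum.inl i)) (f.toHom (Sum.inr j)) := by
    intro i j
    exact f.toHom.map_adj (by simp)
  have hinj := f.injective'
  let i0 : Fin a := ⟨0, ha⟩
  let j0 : Fin b := ⟨0, hb⟩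
  rcases hl : f.toHom (Sum.inl i0) with p | p
  · -- left part maps to the left
    have hr : ∀ j, ∃ q, f.toHom (Sum.inr j) = Sum.inr q := by
      intro j
      rcases hq : f.toHom (Sum.inr j) with q | q
      · have := hadj i0 j
        rw [hl, hq] at this
        exact absurd this not_adj_inl_inl
      · exact ⟨q, rfl⟩
    choose q hq using hr
    have hl' : ∀ i, ∃ p, f.toHom (Sum.inl i) = Sum.inl p := by
      intro i
      rcases hp : f.toHom (Sum.inl i) with p | p
      · exact ⟨p, rfl⟩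
      · have := hadj i j0
        rw [hp, hq] at this
        exact absurd this not_adj_inr_inr
    choose p hp using hl'
    have hpi : Function.Injective p := by
      intro i i' hii
      have : f.toHom (Sum.inl i) = f.toHom (Sum.inl i') := by rw [hp, hp, hii]
      simpa using hinj this
    have hqi : Function.Injective q := by
      intro i i' hii
      have : f.toHom (Sum.inr i) = f.toHom (Sum.inr i') := by rw [hq, hq, hii]
      simpa using hinj this
    have := count (Finset.univ.image p) (Finset.univ.image q) ⟨p i0, by simp⟩ ⟨q j0, by simp⟩ (by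
      intro i hi j hj
      simp only [Finset.mem_image, Finset.mem_univ, true_and] at hi hj
      obtain ⟨i, rfl⟩ := hi
      obtain ⟨j, rfl⟩ := hj
      have := hadj i j
      rw [hp, hq, adj_inl_inr] at this
      exact this)
    rw [Finset.card_image_of_injective _ hpi, Finset.card_image_of_injective _ hqi,
      Finset.card_univ, Finset.card_univ, Fintype.card_fin, Fintype.card_fin] at this
    omega
  · have hr : ∀ j, ∃ q, f.toHom (Sum.inr j) = Sum.inl q := by
      intro j
      rcases hq : f.toHom (Sum.inr j) with q | q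
      · exact ⟨q, rfl⟩
      · have := hadj i0 j
        rw [hl, hq] at this
        exact absurd this not_adj_inr_inr
    choose q hq using hr
    have hl' : ∀ i, ∃ p, f.toHom (Sum.inl i) = Sum.inr p := by
      intro i
      rcases hp : f.toHom (Sum.inl i) with p | p
      · have := hadj i j0
        rw [hp, hq] at this
        exact absurd this not_adj_inl_inl
      · exact ⟨p, rfl⟩
    choose p hp using hl'
    have hpi : Function.Injective p := by
      intro i i' hii
      have : f.toHom (Sum.inl i) = f.toHom (Sum.inl i') := by rw [hp, hp, hii]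
      simpa using hinj this
    have hqi : Function.Injective q := by
      intro i i' hii
      have : f.toHom (Sum.inr i) = f.toHom (Sum.inr i') := by rw [hq, hq, hii]
      simpa using hinj this
    have := count (Finset.univ.image q) (Finset.univ.image p) ⟨q j0, by simp⟩ ⟨p i0, by simp⟩ (by
      intro j hj i hi
      simp only [Finset.mem_image, Finset.mem_univ, true_and] at hi hj
      obtain ⟨i, rfl⟩ := hi
      obtain ⟨j, rfl⟩ := hj
      have := (hadj i j).symm
      rw [hp, hq, adj_inl_inr] at this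
      exact this)
    rw [Finset.card_image_of_injective _ hpi, Finset.card_image_of_injective _ hqi,
      Finset.card_univ, Finset.card_univ, Fintype.card_fin, Fintype.card_fin] at this
    omega

section upper
variable (K : Type u) [Field K] (n : ℕ)

/-- the ideal for `m = n + 3` in dimension `n + 2` -/
noncomputable abbrev PP : Ideal (MvPolynomial ((Fin (n + 3) ⊕ Fin (n + 3)) × Fin (n + 2)) K) :=
  lssIdeal K (cyc (n + 3)) (n + 2)

noncomputable def xx (i : Fin (n + 3)) (k : Fin (n + 2)) :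
    MvPolynomial ((Fin (n + 3) ⊕ Fin (n + 3)) × Fin (n + 2)) K ⧸ PP K n :=
  Ideal.Quotient.mk _ (X (Sum.inl i, k))

noncomputable def yy (i : Fin (n + 3)) (k : Fin (n + 2)) :
    MvPolynomial ((Fin (n + 3) ⊕ Fin (n + 3)) × Fin (n + 2)) K ⧸ PP K n :=
  Ideal.Quotient.mk _ (X (Sum.inr i, k))

theorem rel (i j : Fin (n + 3)) (h1 : j ≠ i) (h2 : j ≠ i + 1) :
    ∑ k, xx K n i k * yy K n j k = 0 := by
  simp only [xx, yy, ← map_mul, ← map_sum]
  rw [Ideal.Quotient.eq_zero_iff_mem]
  exact Ideal.subset_span ⟨_, _, adj_inl_inr.2 ⟨h1, h2⟩, rfl⟩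

theorem card_nbr (i : Fin (n + 3)) : Fintype.card {j : Fin (n + 3) // j ≠ i ∧ j ≠ i + 1} = n + 1 := by
  classical
  have h : (Finset.univ.filter fun j : Fin (n + 3) => j ≠ i ∧ j ≠ i + 1) =
      (Finset.univ.erase i).erase (i + 1) := by
    ext j; simp [and_comm]
  rw [Fintype.card_subtype, h, Finset.card_erase_of_mem, Finset.card_erase_of_mem,
    Finset.card_univ, Fintype.card_fin]
  · simp
  · simp
  · rw [Finset.mem_erase]
    refine ⟨?_, Finset.mem_univ _⟩
    intro h
    have h0 : (1 : Fin (n + 3)) = 0 := by simpa using h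
    have := congrArg Fin.val h0
    simp at this

/-- an enumeration of the neighbours of `i` -/
noncomputable def enum (i : Fin (n + 3)) :
    Fin (n + 1) ≃ {j : Fin (n + 3) // j ≠ i ∧ j ≠ i + 1} :=
  (Fintype.equivFinOfCardEq (card_nbr n i)).symm

/-- the square matrix of coordinates of the neighbours of `i` -/
noncomputable def MM (i : Fin (n + 3)) : Matrix (Fin (n + 1)) (Fin (n + 1))
    (MvPolynomial ((Fin (n + 3) ⊕ Fin (n + 3)) × Fin (n + 2)) K ⧸ PP K n) :=
  Matrix.of fun a k => yy K n (enum n i a) k.succ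

theorem MM_mulVec (i : Fin (n + 3)) :
    (MM K n i).mulVec (fun k => xx K n i k.succ) =
      -(xx K n i 0 • fun a => yy K n (enum n i a) 0) := by
  ext a
  have h := rel K n i (enum n i a) (enum n i a).2.1 (enum n i a).2.2
  rw [Fin.sum_univ_succ] at h
  simp only [Matrix.mulVec, dotProduct, MM, Matrix.of_apply, Pi.neg_apply, Pi.smul_apply,
    smul_eq_mul]
  rw [eq_neg_iff_add_eq_zero]
  refine Eq.trans ?_ h
  refine (add_comm _ _).trans ?_
  congr 1
  exact Finset.sum_congr rfl fun k _ => mul_comm _ _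

/-- the evaluation used to see that the determinant does not vanish -/
noncomputable def ev (i : Fin (n + 3)) :
    MvPolynomial ((Fin (n + 3) ⊕ Fin (n + 3)) × Fin (n + 2)) K →ₐ[K] K := by
  classical
  exact aeval fun v => match v with
    | (Sum.inl _, _) => 0
    | (Sum.inr j, k) => if h : j ≠ i ∧ j ≠ i + 1 then
        (if k = ((enum n i).symm ⟨j, h⟩).succ then 1 else 0) else 0

theorem PP_le_ker_ev (i : Fin (n + 3)) : PP K n ≤ RingHom.ker (ev K n i) := by
  refine Ideal.span_le.2 ?_
  rintro f ⟨v, w, (⟨a, b, rfl, rfl, -⟩ | ⟨a, b, rfl, rfl, -⟩), rfl⟩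
  · simp [ev]
  · simp [ev]

theorem det_MM_ne_zero (i : Fin (n + 3)) : (MM K n i).det ≠ 0 := by
  classical
  intro h
  have h1 : (MM K n i) = (Ideal.Quotient.mk (PP K n)).mapMatrix
      (Matrix.of fun (a k : Fin (n + 1)) => X (Sum.inr (enum n i a).1, k.succ)) := by
    ext a k; rfl
  rw [h1, ← RingHom.map_det, Ideal.Quotient.eq_zero_iff_mem] at h
  have h2 := PP_le_ker_ev K n i h
  rw [RingHom.mem_ker, AlgHom.map_det] at h2
  have h3 : (ev K n i).mapMatrix
      (Matrix.of fun (a k : Fin (n + 1)) => X (Sum.inr (enum n i a).1, k.succ)) =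
      (1 : Matrix (Fin (n + 1)) (Fin (n + 1)) K) := by
    ext a k
    simp only [AlgHom.mapMatrix_apply, Matrix.map_apply, Matrix.of_apply, ev, aeval_X]
    rw [dif_pos (enum n i a).2]
    simp only [Subtype.coe_eta, Equiv.symm_apply_apply, Fin.succ_inj, Matrix.one_apply]
    simp [eq_comm]
  rw [h3, Matrix.det_one] at h2
  exact one_ne_zero h2

/-- generators of the subalgebra over which everything is algebraic -/
def gens : Set (MvPolynomial ((Fin (n + 3) ⊕ Fin (n + 3)) × Fin (n + 2)) K ⧸ PP K n) :=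
  Set.range (Sum.elim (fun jk : Fin (n + 3) × Fin (n + 2) => yy K n jk.1 jk.2)
    (fun i : Fin (n + 3) => xx K n i 0))

theorem card_gens : Cardinal.mk (gens K n) ≤ (((n + 3) * (n + 2) + (n + 3) : ℕ) : Cardinal) := by
  have h := Cardinal.mk_range_le_lift (f := Sum.elim
    (fun jk : Fin (n + 3) × Fin (n + 2) => yy K n jk.1 jk.2)
    (fun i : Fin (n + 3) => xx K n i 0))
  have h2 : Cardinal.mk ((Fin (n + 3) × Fin (n + 2)) ⊕ Fin (n + 3)) =
      (((n + 3) * (n + 2) + (n + 3) : ℕ) : Cardinal) := by simp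
  rw [h2, Cardinal.lift_natCast, Cardinal.lift_id'] at h
  exact h

theorem mul_xx (i : Fin (n + 3)) (k : Fin (n + 1)) :
    (MM K n i).det * xx K n i k.succ =
      -(xx K n i 0 * ∑ a, (MM K n i).adjugate k a * yy K n (enum n i a) 0) := by
  have h1 : (MM K n i).adjugate.mulVec ((MM K n i).mulVec (fun k => xx K n i k.succ)) =
      (MM K n i).det • (fun k : Fin (n + 1) => xx K n i k.succ) := by
    rw [Matrix.mulVec_mulVec, Matrix.adjugate_mul, Matrix.smul_mulVec, Matrix.one_mulVec]
  have h2 := congrFun h1 k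
  rw [MM_mulVec, Pi.smul_apply, smul_eq_mul] at h2
  rw [← h2, Matrix.mulVec, dotProduct, Finset.mul_sum, ← Finset.sum_neg_distrib]
  refine Finset.sum_congr rfl fun a _ => ?_
  simp only [Pi.neg_apply, Pi.smul_apply, smul_eq_mul]
  ring

theorem yy_mem (j : Fin (n + 3)) (k : Fin (n + 2)) :
    yy K n j k ∈ Algebra.adjoin K (gens K n) :=
  Algebra.subset_adjoin ⟨Sum.inl (j, k), rfl⟩

theorem xx_mem (i : Fin (n + 3)) : xx K n i 0 ∈ Algebra.adjoin K (gens K n) :=
  Algebra.subset_adjoin ⟨Sum.inr i, rfl⟩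

theorem det_mem {ι A : Type*} [Fintype ι] [DecidableEq ι] [CommRing A] [Algebra K A]
    (B : Subalgebra K A) (M : Matrix ι ι A) (h : ∀ i j, M i j ∈ B) : M.det ∈ B := by
  rw [Matrix.det_apply]
  refine Subalgebra.sum_mem _ fun σ _ => ?_
  rw [Units.smul_def]
  exact Subalgebra.zsmul_mem _ (Subalgebra.prod_mem _ fun i _ => h _ _) _

theorem adjugate_mem {ι A : Type*} [Fintype ι] [DecidableEq ι] [CommRing A] [Algebra K A]
    (B : Subalgebra K A) (M : Matrix ι ι A) (h : ∀ i j, M i j ∈ B) (i j : ι) :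
    M.adjugate i j ∈ B := by
  rw [Matrix.adjugate_apply]
  refine det_mem K B _ fun a b => ?_
  rw [Matrix.updateRow_apply]
  split_ifs
  · by_cases hb : b = i
    · subst hb; simp [B.one_mem]
    · simp [Pi.single_apply, hb, B.zero_mem]
  · exact h _ _

theorem alg_of_mul {A : Type*} [CommRing A] [IsDomain A] [Algebra K A] (B : Subalgebra K A)
    (d c x : A) (hd : d ∈ B) (hc : c ∈ B) (hd0 : d ≠ 0) (h : d * x = c) : IsAlgebraic B x := by
  refine ⟨Polynomial.C ⟨d, hd⟩ * Polynomial.X - Polynomial.C ⟨c, hc⟩, ?_, ?_⟩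
  · intro h0
    have := congrArg (fun p => Polynomial.coeff p 1) h0
    simp only [Polynomial.coeff_sub, Polynomial.coeff_C_mul, Polynomial.coeff_X_one, mul_one,
      Polynomial.coeff_C_succ, sub_zero, Polynomial.coeff_zero] at this
    exact hd0 (congrArg Subtype.val this)
  · simp only [map_sub, map_mul, Polynomial.aeval_C, Polynomial.aeval_X]
    rw [sub_eq_zero]
    exact h

theorem upper (hP : (PP K n).IsPrime) :
    Algebra.trdeg K (MvPolynomial ((Fin (n + 3) ⊕ Fin (n + 3)) × Fin (n + 2)) K ⧸ PP K n) ≤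
      (((n + 3) * (n + 2) + (n + 3) : ℕ) : Cardinal) := by
  haveI : IsDomain (MvPolynomial ((Fin (n + 3) ⊕ Fin (n + 3)) × Fin (n + 2)) K ⧸ PP K n) :=
    Ideal.Quotient.isDomain _
  haveI : Algebra.IsAlgebraic (Algebra.adjoin K (gens K n))
      (MvPolynomial ((Fin (n + 3) ⊕ Fin (n + 3)) × Fin (n + 2)) K ⧸ PP K n) := by
    constructor
    intro a
    obtain ⟨f, rfl⟩ := Ideal.Quotient.mk_surjective a
    rw [← Subalgebra.mem_algebraicClosure]
    induction f using MvPolynomial.induction_on with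
    | C c =>
      have : (Ideal.Quotient.mk (PP K n)) (C c) =
          algebraMap (Algebra.adjoin K (gens K n)) _ (algebraMap K _ c) := rfl
      rw [this]
      exact Subalgebra.algebraMap_mem _ _
    | add p q hp hq => rw [map_add]; exact Subalgebra.add_mem _ hp hq
    | mul_X p v hp =>
      rw [map_mul]
      refine Subalgebra.mul_mem _ hp ?_
      obtain ⟨v, k⟩ := v
      rcases v with i | j
      · refine Fin.cases ?_ (fun k => ?_) k
        · have : (Ideal.Quotient.mk (PP K n)) (X (Sum.inl i, 0)) =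
            algebraMap (Algebra.adjoin K (gens K n)) _ ⟨xx K n i 0, xx_mem K n i⟩ := rfl
          rw [this]
          exact Subalgebra.algebraMap_mem _ _
        · rw [Subalgebra.mem_algebraicClosure]
          refine alg_of_mul K _ _ _ _ ?_ ?_ (det_MM_ne_zero K n i) (mul_xx K n i k)
          · exact det_mem K _ _ fun a b => yy_mem K n _ _
          · refine Subalgebra.neg_mem _ (Subalgebra.mul_mem _ (xx_mem K n i)
              (Subalgebra.sum_mem _ fun a _ => Subalgebra.mul_mem _ ?_ (yy_mem K n _ _)))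
            exact adjugate_mem K _ _ (fun a b => yy_mem K n _ _) _ _
      · have : (Ideal.Quotient.mk (PP K n)) (X (Sum.inr j, k)) =
            algebraMap (Algebra.adjoin K (gens K n)) _ ⟨yy K n j k, yy_mem K n j k⟩ := rfl
        rw [this]
        exact Subalgebra.algebraMap_mem _ _
  exact (Algebra.IsAlgebraic.trdeg_le_cardinalMk K (gens K n)).trans (card_gens K n)

end upper

section lower
variable (K : Type u) [Field K] (n : ℕ)

/-- parameters of the large component: `a_i, b_i` (`i < n+3`), `p_l, q_l` (`l < n`),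
`c_{jl}` (`j < n+3`, `l < n`). -/
abbrev Par (n : ℕ) : Type :=
  (Fin (n + 3) ⊕ Fin (n + 3)) ⊕ ((Fin n ⊕ Fin n) ⊕ (Fin (n + 3) × Fin n))

noncomputable def pa (i : Fin (n + 3)) : MvPolynomial (Par n) K := X (Sum.inl (Sum.inl i))
noncomputable def pb (i : Fin (n + 3)) : MvPolynomial (Par n) K := X (Sum.inl (Sum.inr i))
noncomputable def pp (l : Fin n) : MvPolynomial (Par n) K := X (Sum.inr (Sum.inl (Sum.inl l)))
noncomputable def pq (l : Fin n) : MvPolynomial (Par n) K := X (Sum.inr (Sum.inl (Sum.inr l)))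
noncomputable def pc (j : Fin (n + 3)) (l : Fin n) : MvPolynomial (Par n) K :=
  X (Sum.inr (Sum.inr (j, l)))

noncomputable def rowx (i : Fin (n + 3)) : Fin (n + 2) → MvPolynomial (Par n) K :=
  Fin.cons (pa K n i) (Fin.cons (pb K n i) fun l => pa K n i * pp K n l + pb K n i * pq K n l)

noncomputable def rowy (j : Fin (n + 3)) : Fin (n + 2) → MvPolynomial (Par n) K :=
  Fin.cons (-∑ l, pp K n l * pc K n j l) (Fin.cons (-∑ l, pq K n l * pc K n j l)
    fun l => pc K n j l)

theorem rows_mul (i j : Fin (n + 3)) : ∑ k, rowx K n i k * rowy K n j k = 0 := by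
  rw [Fin.sum_univ_succ, Fin.sum_univ_succ]
  simp only [rowx, rowy, Fin.cons_zero, Fin.cons_succ]
  have : ∑ l : Fin n, (pa K n i * pp K n l + pb K n i * pq K n l) * pc K n j l =
      pa K n i * ∑ l, pp K n l * pc K n j l + pb K n i * ∑ l, pq K n l * pc K n j l := by
    rw [Finset.mul_sum, Finset.mul_sum, ← Finset.sum_add_distrib]
    exact Finset.sum_congr rfl fun l _ => by ring
  rw [this]
  ring

noncomputable def phi : MvPolynomial ((Fin (n + 3) ⊕ Fin (n + 3)) × Fin (n + 2)) K →ₐ[K]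
    MvPolynomial (Par n) K :=
  aeval fun v => Sum.elim (fun i => rowx K n i v.2) (fun j => rowy K n j v.2) v.1

theorem PP_le_ker : PP K n ≤ RingHom.ker (phi K n) := by
  refine Ideal.span_le.2 ?_
  rintro f ⟨v, w, (⟨a, b, rfl, rfl, -⟩ | ⟨a, b, rfl, rfl, -⟩), rfl⟩
  · simp [phi, rows_mul]
  · simp only [SetLike.mem_coe, RingHom.mem_ker, phi, map_sum, map_mul, aeval_X, Sum.elim_inl,
      Sum.elim_inr]
    rw [← rows_mul K n a b]
    exact Finset.sum_congr rfl fun k _ => mul_comm _ _

noncomputable def phiQ : (MvPolynomial ((Fin (n + 3) ⊕ Fin (n + 3)) × Fin (n + 2)) K ⧸ PP K n)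
    →ₐ[K] MvPolynomial (Par n) K :=
  Ideal.Quotient.liftₐ (PP K n) (phi K n) fun a ha => PP_le_ker K n ha

theorem rowx_mem (i : Fin (n + 3)) (k : Fin (n + 2)) : rowx K n i k ∈ (phiQ K n).range := by
  refine ⟨Ideal.Quotient.mk _ (X (Sum.inl i, k)), ?_⟩
  have : phiQ K n (Ideal.Quotient.mk _ (X (Sum.inl i, k))) = phi K n (X (Sum.inl i, k)) := rfl
  erw [this]
  simp [phi]

theorem rowy_mem (i : Fin (n + 3)) (k : Fin (n + 2)) : rowy K n i k ∈ (phiQ K n).range := by
  refine ⟨Ideal.Quotient.mk _ (X (Sum.inr i, k)), ?_⟩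
  have : phiQ K n (Ideal.Quotient.mk _ (X (Sum.inr i, k))) = phi K n (X (Sum.inr i, k)) := rfl
  erw [this]
  simp [phi]

theorem delta_ne : pa K n 0 * pb K n 1 - pa K n 1 * pb K n 0 ≠ 0 := by
  intro h
  have := congrArg (MvPolynomial.eval (fun v : Par n => match v with
    | Sum.inl (Sum.inl i) => if i = 0 then (1 : K) else 0
    | Sum.inl (Sum.inr i) => if i = 1 then (1 : K) else 0
    | _ => 0)) h
  simp [pa, pb] at this

theorem alg : Algebra.IsAlgebraic (phiQ K n).range (MvPolynomial (Par n) K) := by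
  have ha : ∀ i, pa K n i ∈ (phiQ K n).range := fun i => rowx_mem K n i 0
  have hb : ∀ i, pb K n i ∈ (phiQ K n).range := fun i => rowx_mem K n i (Fin.succ 0)
  have hc : ∀ i l, pc K n i l ∈ (phiQ K n).range := fun i l =>
    rowy_mem K n i (Fin.succ (Fin.succ l))
  have hu : ∀ i l, pa K n i * pp K n l + pb K n i * pq K n l ∈ (phiQ K n).range := fun i l =>
    rowx_mem K n i (Fin.succ (Fin.succ l))
  constructor
  intro f
  rw [← Subalgebra.mem_algebraicClosure]
  induction f using MvPolynomial.induction_on with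
  | C c =>
    have : (C c : MvPolynomial (Par n) K) =
        algebraMap (phiQ K n).range _ (algebraMap K _ c) := rfl
    rw [this]
    exact Subalgebra.algebraMap_mem _ _
  | add p q hp hq => exact Subalgebra.add_mem _ hp hq
  | mul_X p v hp =>
    refine Subalgebra.mul_mem _ hp ?_
    rcases v with (i | i) | ((l | l) | ⟨j, l⟩)
    · have : (X (Sum.inl (Sum.inl i)) : MvPolynomial (Par n) K) =
        algebraMap (phiQ K n).range _ ⟨pa K n i, ha i⟩ := rfl
      rw [this]; exact Subalgebra.algebraMap_mem _ _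
    · have : (X (Sum.inl (Sum.inr i)) : MvPolynomial (Par n) K) =
        algebraMap (phiQ K n).range _ ⟨pb K n i, hb i⟩ := rfl
      rw [this]; exact Subalgebra.algebraMap_mem _ _
    · rw [Subalgebra.mem_algebraicClosure]
      refine alg_of_mul K _ (pa K n 0 * pb K n 1 - pa K n 1 * pb K n 0)
        (pb K n 1 * (pa K n 0 * pp K n l + pb K n 0 * pq K n l) -
          pb K n 0 * (pa K n 1 * pp K n l + pb K n 1 * pq K n l)) _ ?_ ?_ (delta_ne K n) ?_
      · exact Subalgebra.sub_mem _ (Subalgebra.mul_mem _ (ha _) (hb _))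
          (Subalgebra.mul_mem _ (ha _) (hb _))
      · exact Subalgebra.sub_mem _ (Subalgebra.mul_mem _ (hb _) (hu _ _))
          (Subalgebra.mul_mem _ (hb _) (hu _ _))
      · change (pa K n 0 * pb K n 1 - pa K n 1 * pb K n 0) * pp K n l = _
        ring
    · rw [Subalgebra.mem_algebraicClosure]
      refine alg_of_mul K _ (pa K n 0 * pb K n 1 - pa K n 1 * pb K n 0)
        (pa K n 0 * (pa K n 1 * pp K n l + pb K n 1 * pq K n l) -
          pa K n 1 * (pa K n 0 * pp K n l + pb K n 0 * pq K n l)) _ ?_ ?_ (delta_ne K n) ?_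
      · exact Subalgebra.sub_mem _ (Subalgebra.mul_mem _ (ha _) (hb _))
          (Subalgebra.mul_mem _ (ha _) (hb _))
      · exact Subalgebra.sub_mem _ (Subalgebra.mul_mem _ (ha _) (hu _ _))
          (Subalgebra.mul_mem _ (ha _) (hu _ _))
      · change (pa K n 0 * pb K n 1 - pa K n 1 * pb K n 0) * pq K n l = _
        ring
    · have : (X (Sum.inr (Sum.inr (j, l))) : MvPolynomial (Par n) K) =
        algebraMap (phiQ K n).range _ ⟨pc K n j l, hc j l⟩ := rfl
      rw [this]; exact Subalgebra.algebraMap_mem _ _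

theorem lower : ((((n + 3) + (n + 3)) + ((n + n) + (n + 3) * n) : ℕ) : Cardinal) ≤
    Algebra.trdeg K (MvPolynomial ((Fin (n + 3) ⊕ Fin (n + 3)) × Fin (n + 2)) K ⧸ PP K n) := by
  haveI := alg K n
  have h1 : Algebra.trdeg K (MvPolynomial (Par n) K) =
      ((((n + 3) + (n + 3)) + ((n + n) + (n + 3) * n) : ℕ) : Cardinal) := by
    rw [MvPolynomial.trdeg_of_isDomain]
    simp [Par]
  have h2 := trdeg_add_eq K (phiQ K n).range (A := MvPolynomial (Par n) K)
  rw [trdeg_eq_zero (R := (phiQ K n).range) (A := MvPolynomial (Par n) K), add_zero] at h2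
  rw [← h1, ← h2]
  exact trdeg_le_of_surjective (phiQ K n).rangeRestrict (phiQ K n).rangeRestrict_surjective

end lower

theorem not_prime (K : Type u) [Field K] (n : ℕ) (hn : 4 ≤ n) : ¬ (PP K n).IsPrime := by
  intro hP
  have h := (lower K n).trans (upper K n hP)
  rw [Nat.cast_le] at h
  nlinarith

end Pool.Agent.Q86.LSS
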