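import Mathlib

/-!
# A local ring with negative first normal Hilbert coefficient

`R = {(f, g) ∈ ℚ⟦x, y⟧ × ℚ⟦z⟧ : f(0) = g(0)}` (that is `ℚ⟦x,y,z⟧/(xz, yz)`) is a complete reduced
Noetherian local ring of dimension `2`; the integral closure of `m ^ n` is `m ^ n`, and
`length (R / m ^ (n+1)) = C(n+2, 2) + n = C(n+2, 2) - (-1) * (n+1) + (-1)`, so that the first normal
Hilbert coefficient of `m` is `-1`.
-/

set_option autoImplicit false

namespace Pool.Agent.Q86.NH

open MvPowerSeries IsLocalRing

abbrev A := MvPowerSeries (Fin 2) ℚ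
abbrev B := PowerSeries ℚ

/-- The fibre product `A ×_ℚ B`. -/
def Rsub : Subalgebra ℚ (A × B) where
  carrier := {p | MvPowerSeries.constantCoeff p.1 = PowerSeries.constantCoeff p.2}
  mul_mem' := by
    intro a b ha hb
    change MvPowerSeries.constantCoeff _ = PowerSeries.constantCoeff _ at ha hb ⊢
    simp only [Prod.fst_mul, Prod.snd_mul, map_mul]
    rw [ha, hb]
  add_mem' := by
    intro a b ha hb
    change MvPowerSeries.constantCoeff _ = PowerSeries.constantCoeff _ at ha hb ⊢
    simp only [Prod.fst_add, Prod.snd_add, map_add]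
    rw [ha, hb]
  algebraMap_mem' := by
    intro r
    show MvPowerSeries.constantCoeff (MvPowerSeries.C r) = PowerSeries.constantCoeff (PowerSeries.C r)
    simp

/-- The ring of the counterexample. -/
def R : Type := Rsub

noncomputable instance : CommRing R := inferInstanceAs (CommRing Rsub)
noncomputable instance : Algebra ℚ R := inferInstanceAs (Algebra ℚ Rsub)

noncomputable def p1 : R →ₐ[ℚ] A := (AlgHom.fst ℚ A B).comp Rsub.val
noncomputable def p2 : R →ₐ[ℚ] B := (AlgHom.snd ℚ A B).comp Rsub.val

theorem cc (r : R) : MvPowerSeries.constantCoeff (p1 r) = PowerSeries.constantCoeff (p2 r) := r.2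

theorem ext' {r s : R} (h1 : p1 r = p1 s) (h2 : p2 r = p2 s) : r = s :=
  Subtype.ext (Prod.ext h1 h2)

def mk (f : A) (g : B) (h : MvPowerSeries.constantCoeff f = PowerSeries.constantCoeff g) : R :=
  ⟨(f, g), h⟩

@[simp] theorem p1_mk (f : A) (g : B) (h) : p1 (mk f g h) = f := rfl
@[simp] theorem p2_mk (f : A) (g : B) (h) : p2 (mk f g h) = g := rfl

noncomputable def L1 (f : A) : R := mk f (PowerSeries.C (MvPowerSeries.constantCoeff f)) (by simp)
noncomputable def L2 (g : B) : R := mk (MvPowerSeries.C (PowerSeries.constantCoeff g)) g (by simp)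

theorem p1_surj : Function.Surjective p1 := fun f => ⟨L1 f, rfl⟩
theorem p2_surj : Function.Surjective p2 := fun g => ⟨L2 g, rfl⟩

theorem noeth_of_surj {S T : Type} [CommRing S] [CommRing T] [Algebra S T] [IsNoetherianRing T]
    (h : Function.Surjective (algebraMap S T)) : IsNoetherian S T := by
  have : RingHomSurjective (algebraMap S T) := ⟨h⟩
  let f : T →ₛₗ[algebraMap S T] T := ⟨AddHom.id T, by intro m x; simp [Algebra.smul_def]⟩
  exact (LinearMap.isNoetherian_iff_of_bijective f Function.bijective_id).2 inferInstance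

instance : IsNoetherianRing R := by
  let _ : Algebra R A := p1.toRingHom.toAlgebra
  let _ : Algebra R B := p2.toRingHom.toAlgebra
  have n1 : IsNoetherian R A := noeth_of_surj p1_surj
  have n2 : IsNoetherian R B := noeth_of_surj p2_surj
  let f : R →ₗ[R] A × B :=
    { toFun := fun r => (p1 r, p2 r)
      map_add' := fun r s => by simp
      map_smul' := fun r s => by
        ext1
        · simp only [smul_eq_mul, map_mul]; rfl
        · simp only [smul_eq_mul, map_mul]; rfl }
  have n3 : IsNoetherian R (A × B) := @isNoetherian_prod R A B _ _ _ _ _ n1 n2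
  exact isNoetherian_of_injective (σ := RingHom.id R) (σ' := RingHom.id R) f (fun r s h => by
    have h' : (p1 r, p2 r) = (p1 s, p2 s) := h
    exact ext' (congrArg Prod.fst h') (congrArg Prod.snd h'))

theorem isUnit_of {r : R} (h : MvPowerSeries.constantCoeff (p1 r) ≠ 0) : IsUnit r := by
  have h2 : PowerSeries.constantCoeff (p2 r) ≠ 0 := by rw [← cc]; exact h
  have e1 : p1 r * (p1 r)⁻¹ = 1 := MvPowerSeries.mul_inv_cancel _ h
  have e2 : p2 r * (p2 r)⁻¹ = 1 := PowerSeries.mul_inv_cancel _ h2
  refine IsUnit.of_mul_eq_one (mk (p1 r)⁻¹ (p2 r)⁻¹ ?_) ?_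
  · rw [MvPowerSeries.constantCoeff_inv, PowerSeries.constantCoeff_inv, cc]
  · exact ext' (by rw [map_mul, p1_mk, e1, map_one]) (by rw [map_mul, p2_mk, e2, map_one])

instance : Nontrivial R := ⟨⟨0, 1, fun h => by
  have := congrArg p1 h
  simp at this⟩⟩

instance : IsLocalRing R := by
  refine IsLocalRing.of_isUnit_or_isUnit_one_sub_self fun a => ?_
  by_cases h : MvPowerSeries.constantCoeff (p1 a) = 0
  · right
    apply isUnit_of
    simp [h]
  · left; exact isUnit_of h

/-- level ideals -/
def lvl (n : ℕ) : Ideal R where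
  carrier := {r | (n : ℕ∞) ≤ (p1 r).order ∧ (n : ℕ∞) ≤ (p2 r).order}
  zero_mem' := by
    change (n : ℕ∞) ≤ (p1 0).order ∧ (n : ℕ∞) ≤ (p2 0).order
    simp
  add_mem' := by
    intro a b ha hb
    change (n : ℕ∞) ≤ _ ∧ (n : ℕ∞) ≤ _ at ha hb ⊢
    rw [map_add, map_add]
    exact ⟨le_trans (le_min ha.1 hb.1) (MvPowerSeries.min_order_le_add),
      le_trans (le_min ha.2 hb.2) (PowerSeries.min_order_le_order_add _ _)⟩
  smul_mem' := by
    intro a b hb
    change (n : ℕ∞) ≤ _ ∧ (n : ℕ∞) ≤ _ at hb ⊢
    rw [smul_eq_mul, map_mul, map_mul]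
    exact ⟨le_trans (le_trans hb.1 (by simp)) (MvPowerSeries.le_order_mul),
      le_trans (le_trans hb.2 (by simp)) (PowerSeries.le_order_mul _ _)⟩

theorem mem_lvl {n : ℕ} {r : R} :
    r ∈ lvl n ↔ (n : ℕ∞) ≤ (p1 r).order ∧ (n : ℕ∞) ≤ (p2 r).order := Iff.rfl

theorem maxIdeal_eq : maximalIdeal R = lvl 1 := by
  ext r
  rw [mem_maximalIdeal, mem_nonunits_iff, mem_lvl]
  constructor
  · intro h
    have h0 : MvPowerSeries.constantCoeff (p1 r) = 0 := by
      by_contra h0; exact h (isUnit_of h0)
    constructor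
    · rw [Nat.cast_one, MvPowerSeries.one_le_order_iff_constCoeff_eq_zero]; exact h0
    · rw [Nat.cast_one, PowerSeries.one_le_order_iff_constCoeff_eq_zero, ← cc]; exact h0
  · intro h hu
    rw [Nat.cast_one, MvPowerSeries.one_le_order_iff_constCoeff_eq_zero] at h
    have := (hu.map p1).map (MvPowerSeries.constantCoeff (σ := Fin 2) (R := ℚ))
    rw [h.1] at this
    exact not_isUnit_zero this

theorem lvl_mul (m n : ℕ) : lvl m * lvl n ≤ lvl (m + n) := by
  rw [Ideal.mul_le]
  intro r hr s hs
  rw [mem_lvl] at *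
  rw [map_mul, map_mul]
  push_cast
  exact ⟨le_trans (add_le_add hr.1 hs.1) MvPowerSeries.le_order_mul,
    le_trans (add_le_add hr.2 hs.2) (PowerSeries.le_order_mul _ _)⟩

theorem pow_le_lvl (m n : ℕ) : lvl m ^ n ≤ lvl (m * n) := by
  induction n with
  | zero =>
    intro r _
    rw [mem_lvl]; simp
  | succ n ih =>
    rw [pow_succ, Nat.mul_succ]
    exact le_trans (Ideal.mul_mono_left ih) (lvl_mul _ _)

/-- decomposition -/
theorem decomp (n : ℕ) (f : A) (hf : ((n + 1 : ℕ) : ℕ∞) ≤ f.order) :
    ∃ f0 f1 : A, (n : ℕ∞) ≤ f0.order ∧ (n : ℕ∞) ≤ f1.order ∧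
      f = MvPowerSeries.X 0 * f0 + MvPowerSeries.X 1 * f1 := by
  classical
  let f0 : A := fun d => f (d + Finsupp.single 0 1)
  let f1 : A := fun d => if d 0 = 0 then f (d + Finsupp.single 1 1) else 0
  have c0 : ∀ d, MvPowerSeries.coeff d f0 = MvPowerSeries.coeff (d + Finsupp.single 0 1) f :=
    fun d => rfl
  have c1 : ∀ d, MvPowerSeries.coeff d f1 =
      if d 0 = 0 then MvPowerSeries.coeff (d + Finsupp.single 1 1) f else 0 := fun d => rfl
  refine ⟨f0, f1, ?_, ?_, ?_⟩
  · refine MvPowerSeries.nat_le_order fun d hd => ?_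
    rw [c0]
    apply MvPowerSeries.coeff_of_lt_order
    refine lt_of_lt_of_le ?_ hf
    rw [map_add, Finsupp.degree_single]
    exact_mod_cast Nat.add_lt_add_right hd 1
  · refine MvPowerSeries.nat_le_order fun d hd => ?_
    rw [c1]
    split_ifs with h
    · apply MvPowerSeries.coeff_of_lt_order
      refine lt_of_lt_of_le ?_ hf
      rw [map_add, Finsupp.degree_single]
      exact_mod_cast Nat.add_lt_add_right hd 1
    · rfl
  · ext d
    rw [map_add, MvPowerSeries.X, MvPowerSeries.X, MvPowerSeries.coeff_monomial_mul,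
      MvPowerSeries.coeff_monomial_mul, c0, c1]
    by_cases h0 : Finsupp.single 0 1 ≤ d
    · have h0' : d 0 ≠ 0 := by
        have := h0 0
        simp at this; omega
      rw [if_pos h0, tsub_add_cancel_of_le h0, one_mul]
      split_ifs with h1 h2
      · exfalso
        rw [Finsupp.tsub_apply] at h2
        simp at h2; exact h0' h2
      · simp
      · simp
    · have h0' : d 0 = 0 := by
        by_contra h
        exact h0 (Finsupp.single_le_iff.2 (by omega))
      rw [if_neg h0, zero_add]
      by_cases h1 : Finsupp.single 1 1 ≤ d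
      · rw [if_pos h1, tsub_add_cancel_of_le h1, if_pos, one_mul]
        rw [Finsupp.tsub_apply]; simp [h0']
      · have h1' : d 1 = 0 := by
          by_contra h
          exact h1 (Finsupp.single_le_iff.2 (by omega))
        rw [if_neg h1]
        have : d = 0 := by
          ext i; fin_cases i
          · exact h0'
          · exact h1'
        subst this
        apply MvPowerSeries.coeff_of_lt_order
        refine lt_of_lt_of_le ?_ hf
        simp

theorem constZero1 {f : A} {n : ℕ} (h : ((n + 1 : ℕ) : ℕ∞) ≤ f.order) :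
    MvPowerSeries.constantCoeff f = 0 := by
  rw [← MvPowerSeries.one_le_order_iff_constCoeff_eq_zero]
  exact le_trans (by simp) h

theorem constZero2 {g : B} {n : ℕ} (h : ((n + 1 : ℕ) : ℕ∞) ≤ g.order) :
    PowerSeries.constantCoeff g = 0 := by
  rw [← PowerSeries.one_le_order_iff_constCoeff_eq_zero]
  exact le_trans (by simp) h

theorem L1_mem (n : ℕ) : ∀ f : A, (n : ℕ∞) ≤ f.order → L1 f ∈ maximalIdeal R ^ n := by
  induction n with
  | zero => intro f _; simp
  | succ n ih =>
    intro f hf
    obtain ⟨f0, f1, h0, h1, he⟩ := decomp n f hf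
    have hX : ∀ i : Fin 2, L1 (MvPowerSeries.X i) ∈ maximalIdeal R := by
      intro i
      rw [maxIdeal_eq, mem_lvl]
      constructor
      · rw [Nat.cast_one, MvPowerSeries.one_le_order_iff_constCoeff_eq_zero]
        simp [L1]
      · rw [Nat.cast_one, PowerSeries.one_le_order_iff_constCoeff_eq_zero]
        simp [L1]
    have : L1 f = L1 (MvPowerSeries.X 0) * L1 f0 + L1 (MvPowerSeries.X 1) * L1 f1 := by
      apply ext'
      · rw [map_add, map_mul, map_mul]
        simp only [L1, p1_mk]
        exact he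
      · rw [map_add, map_mul, map_mul]
        simp only [L1, p2_mk]
        rw [constZero1 hf]
        simp
    rw [this, pow_succ']
    exact Ideal.add_mem _ (Ideal.mul_mem_mul (hX 0) (ih _ h0)) (Ideal.mul_mem_mul (hX 1) (ih _ h1))

theorem L2_mem (n : ℕ) (g : B) (hg : (n : ℕ∞) ≤ g.order) : L2 g ∈ maximalIdeal R ^ n := by
  rcases n with _ | n
  · simp
  · have hd : PowerSeries.X ^ (n + 1) ∣ g := by
      rw [PowerSeries.X_pow_dvd_iff]
      intro m hm
      apply PowerSeries.coeff_of_lt_order
      exact lt_of_lt_of_le (by exact_mod_cast hm) hg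
    obtain ⟨h, rfl⟩ := hd
    have hX : L2 PowerSeries.X ∈ maximalIdeal R := by
      rw [maxIdeal_eq, mem_lvl]
      constructor
      · rw [Nat.cast_one, MvPowerSeries.one_le_order_iff_constCoeff_eq_zero]
        simp [L2]
      · rw [Nat.cast_one, PowerSeries.one_le_order_iff_constCoeff_eq_zero]
        simp [L2]
    have : L2 (PowerSeries.X ^ (n + 1) * h) = L2 PowerSeries.X ^ (n + 1) * L2 h := by
      apply ext'
      · rw [map_mul, map_pow]
        simp [L2]
      · rw [map_mul, map_pow]
        rfl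
    rw [this]
    exact Ideal.mul_mem_right _ _ (Ideal.pow_mem_pow hX _)

theorem pow_eq_lvl (n : ℕ) : maximalIdeal R ^ n = lvl n := by
  apply le_antisymm
  · rw [maxIdeal_eq]
    simpa using pow_le_lvl 1 n
  · rcases n with _ | n
    · simp
    · intro r hr
      rw [mem_lvl] at hr
      have : r = L1 (p1 r) + L2 (p2 r) := by
        apply ext'
        · rw [map_add]
          simp only [L1, L2, p1_mk]
          rw [constZero2 hr.2]; simp
        · rw [map_add]
          simp only [L1, L2, p2_mk]
          rw [constZero1 hr.1]; simp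
      rw [this]
      exact Ideal.add_mem _ (L1_mem _ _ hr.1) (L2_mem _ _ hr.2)

/-- key valuation property -/
theorem sq_not_mem {r : R} {n : ℕ} (h : r ^ 2 ∈ lvl (2 * n)) : r ∈ lvl n := by
  rw [mem_lvl, map_pow, map_pow, PowerSeries.order_pow, pow_two, MvPowerSeries.order_mul] at h
  rw [mem_lvl]
  constructor
  · by_contra hc
    rw [not_le] at hc
    obtain ⟨a, ha⟩ := ENat.ne_top_iff_exists.1 (ne_top_of_lt hc)
    rw [← ha] at h hc
    have h1 := h.1
    norm_cast at h1 hc
    omega
  · by_contra hc
    rw [not_le] at hc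
    obtain ⟨a, ha⟩ := ENat.ne_top_iff_exists.1 (ne_top_of_lt hc)
    rw [← ha] at h hc
    have h1 := h.2
    rw [nsmul_eq_mul] at h1
    norm_cast at h1 hc
    omega

theorem completion_reduced : IsReduced (AdicCompletion (maximalIdeal R) R) := by
  rw [isReduced_iff_pow_one_lt 2 (by norm_num)]
  intro x hx
  apply AdicCompletion.ext_evalₐ
  intro n
  rw [map_zero]
  induction x using AdicCompletion.induction_on with
  | h a =>
    have h1 : (a (2 * n)) ^ 2 ∈ lvl (2 * n) := by
      rw [← pow_eq_lvl, ← Ideal.Quotient.eq_zero_iff_mem, map_pow, ← AdicCompletion.evalₐ_mk,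
        ← map_pow, hx, map_zero]
    have h2 := sq_not_mem h1
    rw [← pow_eq_lvl] at h2
    rw [AdicCompletion.evalₐ_mk, ← AdicCompletion.Ideal.mk_eq_mk _ (by omega : n ≤ 2 * n),
      Ideal.Quotient.eq_zero_iff_mem]
    exact h2

theorem key {D : Type} [CommRing D] (ord : D → ℕ∞) (hmul : ∀ x y, ord (x * y) = ord x + ord y)
    (hone : ord 1 = 0) (hadd : ∀ x y, ∀ m : ℕ∞, m ≤ ord x → m ≤ ord y → m ≤ ord (x + y))
    (hzero : ord 0 = ⊤) (hneg : ∀ x, ord (-x) = ord x) (n k : ℕ) (x : D) (a : ℕ → D)
    (ha : ∀ j, ((n * j : ℕ) : ℕ∞) ≤ ord (a j))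
    (h : x ^ k + ∑ j ∈ Finset.range k, a (k - j) * x ^ j = 0) : (n : ℕ∞) ≤ ord x := by
  have hpow : ∀ j : ℕ, ord (x ^ j) = j * ord x := by
    intro j
    induction j with
    | zero => simp [hone]
    | succ j ih => rw [pow_succ, hmul, ih]; push_cast; ring
  by_contra hc
  rw [not_le] at hc
  obtain ⟨v, hv⟩ := ENat.ne_top_iff_exists.1 (ne_top_of_lt hc)
  rw [← hv] at hc
  have hvn : v < n := by exact_mod_cast hc
  have hsum : ∀ s : Finset ℕ, s ⊆ Finset.range k → ((k * v + 1 : ℕ) : ℕ∞) ≤
      ord (∑ j ∈ s, a (k - j) * x ^ j) := by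
    intro s
    induction s using Finset.induction_on with
    | empty => intro _; rw [Finset.sum_empty, hzero]; exact le_top
    | insert j s hj ih =>
      intro hs
      rw [Finset.sum_insert hj]
      apply hadd
      · rw [hmul, hpow, ← hv]
        have hjk : j < k := Finset.mem_range.1 (hs (Finset.mem_insert_self _ _))
        refine le_trans ?_ (add_le_add_left (ha (k - j)) _)
        norm_cast
        obtain ⟨i, rfl⟩ := Nat.exists_eq_add_of_lt hjk
        have : j + i + 1 - j = i + 1 := by omega
        rw [this]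
        nlinarith
      · exact ih (fun i hi => hs (Finset.mem_insert_of_mem hi))
  have h1 := hsum _ (Finset.Subset.refl _)
  have h2 : x ^ k = - ∑ j ∈ Finset.range k, a (k - j) * x ^ j := by
    rw [eq_neg_iff_add_eq_zero]; exact h
  have h3 := hpow k
  rw [h2, hneg] at h3
  rw [h3, ← hv] at h1
  norm_cast at h1
  omega

/-- integral closure of powers of the maximal ideal -/
theorem closure (n : ℕ) (x : R) :
    (∃ k : ℕ, 0 < k ∧ ∃ a : ℕ → R, (∀ j, a j ∈ (maximalIdeal R ^ n) ^ j) ∧
            x ^ k + ∑ j ∈ Finset.range k, a (k - j) * x ^ j = 0) ↔ x ∈ lvl n := by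
  constructor
  · rintro ⟨k, hk, a, ha, h⟩
    have ha' : ∀ j, a j ∈ lvl (n * j) := fun j => by
      have := ha j
      rw [← pow_mul, pow_eq_lvl] at this
      exact this
    rw [mem_lvl]
    constructor
    · refine key (D := A) MvPowerSeries.order (fun x y => MvPowerSeries.order_mul x y) ?_ ?_ ?_ ?_ n k
        (p1 x) (fun j => p1 (a j)) (fun j => (ha' j).1) ?_
      · simp [MvPowerSeries.order]
      · intro x y m h1 h2
        exact le_trans (le_min h1 h2) MvPowerSeries.min_order_le_add
      · simp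
      · intro x; exact MvPowerSeries.order_neg x
      · have h1 := congrArg p1 h
        rw [map_add, map_sum, map_pow, map_zero] at h1
        simpa using h1
    · refine key (D := B) PowerSeries.order (fun x y => PowerSeries.order_mul x y) ?_ ?_ ?_ ?_ n k
        (p2 x) (fun j => p2 (a j)) (fun j => (ha' j).2) ?_
      · simp
      · intro x y m h1 h2
        exact le_trans (le_min h1 h2) (PowerSeries.min_order_le_order_add _ _)
      · simp
      · intro x; exact PowerSeries.order_neg x
      · have h1 := congrArg p2 h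
        rw [map_add, map_sum, map_pow, map_zero] at h1
        simpa using h1
  · intro hx
    refine ⟨1, one_pos, fun j => if j = 0 then 1 else if j = 1 then -x else 0, ?_, ?_⟩
    · intro j
      by_cases h0 : j = 0
      · subst h0; simp
      · by_cases h1 : j = 1
        · subst h1; simp only [h0, if_false, if_true]
          rw [pow_one, pow_eq_lvl]
          exact (Ideal.neg_mem_iff _).2 hx
        · simp [h0, h1]
    · simp

theorem decomp_r {r : R} (hr : r ∈ lvl 1) : r = L1 (p1 r) + L2 (p2 r) := by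
  have h1 : ((0 + 1 : ℕ) : ℕ∞) ≤ (p1 r).order := hr.1
  have h2 : ((0 + 1 : ℕ) : ℕ∞) ≤ (p2 r).order := hr.2
  apply ext'
  · rw [map_add]
    simp only [L1, L2, p1_mk]
    rw [constZero2 h2]; simp
  · rw [map_add]
    simp only [L1, L2, p2_mk]
    rw [constZero1 h1]; simp

theorem lvl_one_le {P : Ideal R} (h0 : L1 (MvPowerSeries.X 0) ∈ P) (h1 : L1 (MvPowerSeries.X 1) ∈ P)
    (h2 : L2 PowerSeries.X ∈ P) : lvl 1 ≤ P := by
  intro r hr
  have hr1 : ((0 + 1 : ℕ) : ℕ∞) ≤ (p1 r).order := hr.1
  have hr2 : ((0 + 1 : ℕ) : ℕ∞) ≤ (p2 r).order := hr.2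
  rw [decomp_r hr]
  apply Ideal.add_mem
  · obtain ⟨f0, f1, -, -, he⟩ := decomp 0 (p1 r) hr1
    have : L1 (p1 r) = L1 (MvPowerSeries.X 0) * L1 f0 + L1 (MvPowerSeries.X 1) * L1 f1 := by
      apply ext'
      · rw [map_add, map_mul, map_mul]
        simp only [L1, p1_mk]
        exact he
      · rw [map_add, map_mul, map_mul]
        simp only [L1, p2_mk]
        rw [constZero1 hr1]
        simp
    rw [this]
    exact Ideal.add_mem _ (Ideal.mul_mem_right _ _ h0) (Ideal.mul_mem_right _ _ h1)
  · have hd : PowerSeries.X ∣ p2 r := by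
      rw [PowerSeries.X_dvd_iff]
      exact constZero2 hr2
    obtain ⟨h, he⟩ := hd
    have : L2 (p2 r) = L2 PowerSeries.X * L2 h := by
      apply ext'
      · rw [map_mul]
        simp only [L2, p1_mk]
        rw [constZero2 hr2]
        simp
      · rw [map_mul]
        exact he
    rw [this]
    exact Ideal.mul_mem_right _ _ h2

theorem dimR : ringKrullDim R = (2 : ℕ) := by
  apply le_antisymm
  · rw [← IsLocalRing.maximalIdeal_height_eq_ringKrullDim]
    have hz : (maximalIdeal R) ∈ (Ideal.span {L1 (MvPowerSeries.X 0) + L2 PowerSeries.X,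
        L1 (MvPowerSeries.X 1)} : Ideal R).minimalPrimes := by
      have hX : ∀ i : Fin 2, L1 (MvPowerSeries.X i) ∈ maximalIdeal R := by
        intro i
        rw [maxIdeal_eq, mem_lvl]
        constructor
        · rw [Nat.cast_one, MvPowerSeries.one_le_order_iff_constCoeff_eq_zero]
          simp [L1]
        · rw [Nat.cast_one, PowerSeries.one_le_order_iff_constCoeff_eq_zero]
          simp [L1]
      have hX2 : L2 PowerSeries.X ∈ maximalIdeal R := by
        rw [maxIdeal_eq, mem_lvl]
        constructor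
        · rw [Nat.cast_one, MvPowerSeries.one_le_order_iff_constCoeff_eq_zero]
          simp [L2]
        · rw [Nat.cast_one, PowerSeries.one_le_order_iff_constCoeff_eq_zero]
          simp [L2]
      refine ⟨⟨inferInstance, ?_⟩, ?_⟩
      · rw [Ideal.span_le]
        intro x hx
        rcases hx with rfl | hx
        · exact Ideal.add_mem _ (hX 0) hX2
        · rw [Set.mem_singleton_iff] at hx
          rw [hx]; exact hX 1
      · rintro P ⟨hP, hle⟩ -
        rw [Ideal.span_le] at hle
        have m1 : L1 (MvPowerSeries.X 0) + L2 PowerSeries.X ∈ P := hle (by simp)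
        have m2 : L1 (MvPowerSeries.X 1) ∈ P := hle (by simp)
        have m3 : L1 (MvPowerSeries.X 0) ∈ P := by
          have h := Ideal.mul_mem_left P (L1 (MvPowerSeries.X 0)) m1
          have he : L1 (MvPowerSeries.X 0) * (L1 (MvPowerSeries.X 0) + L2 PowerSeries.X)
              = L1 (MvPowerSeries.X 0) ^ 2 := by
            apply ext'
            · rw [map_mul, map_add, map_pow]
              simp only [L1, L2, p1_mk]
              simp [pow_two]
            · rw [map_mul, map_add, map_pow]
              simp only [L1, L2, p2_mk]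
              simp
          rw [he] at h
          exact hP.mem_of_pow_mem _ h
        have m4 : L2 PowerSeries.X ∈ P := (Ideal.add_mem_iff_right _ m3).1 m1
        rw [maxIdeal_eq]
        exact lvl_one_le m3 m2 m4
    have := Ideal.height_le_card_of_mem_minimalPrimes_span (Set.toFinite _) hz
    have h2 := (Set.ncard_insert_le (L1 (MvPowerSeries.X 0) + L2 PowerSeries.X) {L1 (MvPowerSeries.X 1)})
    rw [Set.ncard_singleton] at h2
    have h3 : (maximalIdeal R).height ≤ (2 : ℕ) := le_trans this (by exact_mod_cast h2)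
    exact WithBot.coe_le_coe.2 h3
  · have h1 := ringKrullDim_le_of_surjective p1.toRingHom p1_surj
    refine le_trans ?_ h1
    have e := MvPowerSeries.finSuccEquiv ℚ 1
    rw [ringKrullDim_eq_of_ringEquiv e.toRingEquiv]
    have h2 := ringKrullDim_succ_le_ringKrullDim_powerseries (R := MvPowerSeries (Fin 1) ℚ)
    have h3 := ringKrullDim_succ_le_ringKrullDim_powerseries (R := MvPowerSeries (Fin 0) ℚ)
    have e' := MvPowerSeries.finSuccEquiv ℚ 0
    rw [← ringKrullDim_eq_of_ringEquiv e'.toRingEquiv] at h3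
    have h4 : (0 : WithBot ℕ∞) ≤ ringKrullDim (MvPowerSeries (Fin 0) ℚ) :=
      ringKrullDim_nonneg_of_nontrivial
    refine le_trans ?_ h2
    refine le_trans ?_ (add_le_add_left h3 1)
    refine le_trans ?_ (add_le_add_left (add_le_add_left h4 1) 1)
    norm_num

/-- truncation map -/
noncomputable def Phi (n : ℕ) :
    R →ₗ[ℚ] ((Σ i : Fin (n + 1), Fin (i.1 + 1)) → ℚ) × (Fin n → ℚ) where
  toFun r := (fun ij => MvPowerSeries.coeff
      (Finsupp.single 0 ij.2.1 + Finsupp.single 1 (ij.1.1 - ij.2.1)) (p1 r),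
    fun l => PowerSeries.coeff (l.1 + 1) (p2 r))
  map_add' r s := by
    ext <;> simp
  map_smul' c r := by
    ext <;> simp

theorem Phi_ker (n : ℕ) : LinearMap.ker (Phi n) = (lvl (n + 1)).restrictScalars ℚ := by
  ext r
  rw [LinearMap.mem_ker, Submodule.restrictScalars_mem, mem_lvl]
  constructor
  · intro h
    have h1 := congrArg Prod.fst h
    have h2 := congrArg Prod.snd h
    have hA : ∀ d : Fin 2 →₀ ℕ, d.degree < n + 1 → MvPowerSeries.coeff d (p1 r) = 0 := by
      intro d hd
      have hdeg : d.degree = d 0 + d 1 := by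
        rw [Finsupp.degree_eq_sum]; simp [Fin.sum_univ_two]
      have := congrFun h1 ⟨⟨d 0 + d 1, by omega⟩, ⟨d 0, by simp⟩⟩
      have h3 : MvPowerSeries.coeff
        (Finsupp.single 0 (d 0) + Finsupp.single 1 (d 0 + d 1 - d 0)) (p1 r) = 0 := this
      have he : Finsupp.single 0 (d 0) + Finsupp.single 1 (d 0 + d 1 - d 0) = d := by
        ext i; fin_cases i <;> simp
      rwa [he] at h3
    constructor
    · exact MvPowerSeries.nat_le_order hA
    · apply PowerSeries.nat_le_order
      intro i hi
      rcases i with _ | i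
      · have := hA 0 (by simp)
        rw [MvPowerSeries.coeff_zero_eq_constantCoeff_apply, cc] at this
        simpa using this
      · exact congrFun h2 ⟨i, by omega⟩
  · rintro ⟨h1, h2⟩
    refine Prod.ext ?_ ?_
    · funext ij
      apply MvPowerSeries.coeff_of_lt_order
      refine lt_of_lt_of_le ?_ h1
      rw [map_add, Finsupp.degree_single, Finsupp.degree_single]
      have := ij.1.2
      have := ij.2.2
      norm_cast
      omega
    · funext l
      apply PowerSeries.coeff_of_lt_order
      refine lt_of_lt_of_le ?_ h2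
      have := l.2
      norm_cast
      omega

theorem Phi_surj (n : ℕ) : Function.Surjective (Phi n) := by
  rintro ⟨u, w⟩
  let f : A := fun d => if h : d 0 + d 1 < n + 1 then u ⟨⟨d 0 + d 1, h⟩, ⟨d 0, by simp⟩⟩ else 0
  let g : B := PowerSeries.mk fun l => if l = 0 then MvPowerSeries.constantCoeff f
    else if h : l - 1 < n then w ⟨l - 1, h⟩ else 0
  refine ⟨mk f g (by simp [g]), ?_⟩
  refine Prod.ext ?_ ?_
  · funext ij
    obtain ⟨⟨i, hi⟩, ⟨j, hj⟩⟩ := ij
    show f (Finsupp.single 0 j + Finsupp.single 1 (i - j)) = u _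
    obtain ⟨b, rfl⟩ : ∃ b, i = j + b := ⟨i - j, by simp at hj; omega⟩
    rw [Nat.add_sub_cancel_left]
    have e1 : ((Finsupp.single 0 j + Finsupp.single 1 b : Fin 2 →₀ ℕ)) 0 = j := by simp
    have e2 : ((Finsupp.single 0 j + Finsupp.single 1 b : Fin 2 →₀ ℕ)) 1 = b := by simp
    generalize ((Finsupp.single 0 j + Finsupp.single 1 b : Fin 2 →₀ ℕ)) = d at e1 e2
    subst e1 e2
    exact dif_pos hi
  · funext l
    show PowerSeries.coeff (l.1 + 1) g = w l
    rw [PowerSeries.coeff_mk]
    simp

theorem finrankQ (n : ℕ) : Module.finrank ℚ (R ⧸ lvl (n + 1)) = (n + 2).choose 2 + n := by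
  have e1 := (Submodule.Quotient.restrictScalarsEquiv ℚ (lvl (n + 1)))
  rw [← e1.finrank_eq, ← Phi_ker n]
  rw [((Phi n).quotKerEquivOfSurjective (Phi_surj n)).finrank_eq]
  rw [Module.finrank_prod, Module.finrank_fintype_fun_eq_card, Module.finrank_fintype_fun_eq_card]
  rw [Fintype.card_sigma, Fintype.card_fin]
  congr 1
  simp only [Fintype.card_fin]
  rw [Fin.sum_univ_eq_sum_range (fun i => i + 1) (n + 1)]
  clear e1
  induction n with
  | zero => simp
  | succ n ih =>
    rw [Finset.sum_range_succ, ih, Nat.choose_succ_succ' (n + 2) 1, Nat.choose_one_right]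
    have : (n + 2).choose (1 + 1) = (n + 2).choose 2 := rfl
    omega

theorem lengthR (n : ℕ) :
    Module.length R (R ⧸ lvl (n + 1)) = (((n + 2).choose 2 + n : ℕ) : ℕ∞) := by
  have h := IsLocalRing.length_restrictScalars ℚ R (R ⧸ lvl (n + 1))
  have hfin : Module.Finite ℚ (R ⧸ lvl (n + 1)) := by
    have hpos : 0 < Module.finrank ℚ (R ⧸ lvl (n + 1)) := by
      rw [finrankQ]
      have : 0 < (n + 2).choose 2 := Nat.choose_pos (by omega)
      omega
    exact Module.finite_of_finrank_pos hpos
  have h1 : Module.length (ResidueField ℚ) (ResidueField R) = 1 := by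
    have hs : Function.Surjective (algebraMap (ResidueField ℚ) (ResidueField R)) := by
      intro x
      obtain ⟨r, rfl⟩ := IsLocalRing.residue_surjective x
      refine ⟨IsLocalRing.residue ℚ (MvPowerSeries.constantCoeff (p1 r)), ?_⟩
      rw [IsLocalRing.ResidueField.algebraMap_residue]
      rw [← sub_eq_zero, ← map_sub, IsLocalRing.residue_eq_zero_iff, maxIdeal_eq, mem_lvl]
      constructor
      · rw [Nat.cast_one, MvPowerSeries.one_le_order_iff_constCoeff_eq_zero]
        rw [map_sub, map_sub, AlgHom.commutes]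
        simp [MvPowerSeries.algebraMap_apply]
      · rw [Nat.cast_one, PowerSeries.one_le_order_iff_constCoeff_eq_zero]
        rw [map_sub, map_sub, AlgHom.commutes, cc]
        simp [PowerSeries.algebraMap_apply]
    rw [Module.length_eq_of_surjective (M := ResidueField R) hs]
    exact Module.length_eq_one (ResidueField R) (ResidueField R)
  rw [h1, mul_one, Module.length_eq_finrank, finrankQ] at h
  exact h.symm

theorem main :
    ¬ (∀ (R : Type) [CommRing R] [IsNoetherianRing R] [IsLocalRing R],
      IsReduced (AdicCompletion (IsLocalRing.maximalIdeal R) R) →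
      ∀ (d : ℕ), ringKrullDim R = (d : WithBot ℕ∞) → 0 < d →
      ∀ (I : Ideal R), I.radical = IsLocalRing.maximalIdeal R →
      ∀ (Ibar : ℕ → Ideal R),
        (∀ (n : ℕ) (x : R), x ∈ Ibar n ↔
          ∃ k : ℕ, 0 < k ∧ ∃ a : ℕ → R, (∀ j, a j ∈ (I ^ n) ^ j) ∧
            x ^ k + ∑ j ∈ Finset.range k, a (k - j) * x ^ j = 0) →
      ∀ (e : ℕ → ℚ),
        (∀ᶠ n in Filter.atTop, ∃ m : ℕ,
          Module.length R (R ⧸ Ibar (n + 1)) = (m : ℕ∞) ∧
          (m : ℚ) = ∑ i ∈ Finset.range (d + 1),
            (-1 : ℚ) ^ i * e i * (((n + d - i).choose (d - i) : ℕ) : ℚ)) →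
        0 ≤ e 1) := by
  intro H
  have := H R completion_reduced 2 dimR (by norm_num) (maximalIdeal R)
    (Ideal.IsPrime.radical inferInstance) lvl (fun n x => (closure n x).symm)
    (fun i => if i = 0 then 1 else -1)
    (Filter.Eventually.of_forall fun n => ⟨(n + 2).choose 2 + n, lengthR n, by
      rw [Finset.sum_range_succ, Finset.sum_range_succ, Finset.sum_range_one]
      simp; ring⟩)
  norm_num at this

end Pool.Agent.Q86.NH
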