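import Mathlib

set_option autoImplicit false

namespace Pool.Agent.Q86.Perm

open Matrix Equiv Equiv.Perm Finset

variable {R : Type*} [CommRing R]

theorem permanent_succ_column_zero {n : ℕ} (A : Matrix (Fin n.succ) (Fin n.succ) R) :
    A.permanent = ∑ i : Fin n.succ, A i 0 * (A.submatrix i.succAbove Fin.succ).permanent := by
  rw [Matrix.permanent, Finset.univ_perm_fin_succ, ← Finset.univ_product_univ]
  simp only [Finset.sum_map, Equiv.toEmbedding_apply, Finset.sum_product, Matrix.submatrix]
  refine Finset.sum_congr rfl fun i _ => Fin.cases ?_ (fun i => ?_) i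
  · simp only [Fin.prod_univ_succ, Matrix.permanent, Finset.mul_sum,
      Equiv.Perm.decomposeFin_symm_apply_zero,
      Equiv.Perm.decomposeFin_symm_apply_succ, Fin.succAbove_zero, Equiv.swap_self,
      Equiv.coe_refl, id, of_apply]
  · have h := permanent_permute_cols i.cycleRange (A.submatrix i.succ.succAbove Fin.succ)
    change _ = A i.succ 0 * (A.submatrix i.succ.succAbove Fin.succ).permanent
    rw [← h, Matrix.permanent, Finset.mul_sum]
    refine Finset.sum_congr rfl fun σ _ => ?_
    rw [Fin.prod_univ_succ, Equiv.Perm.decomposeFin_symm_apply_zero]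
    simp only [Equiv.Perm.decomposeFin_symm_apply_succ, submatrix_apply, id]
    congr 1
    refine Finset.prod_congr rfl fun j _ => ?_
    rw [Fin.succAbove_cycleRange]

theorem permanent_succ_row_zero {n : ℕ} (A : Matrix (Fin n.succ) (Fin n.succ) R) :
    A.permanent = ∑ j : Fin n.succ, A 0 j * (A.submatrix Fin.succ j.succAbove).permanent := by
  rw [← permanent_transpose, permanent_succ_column_zero]
  refine Finset.sum_congr rfl fun i _ => ?_
  rw [transpose_apply, ← permanent_transpose (A.submatrix Fin.succ i.succAbove)]
  rfl

theorem map_permanent {S : Type*} [CommRing S] {n : Type*} [Fintype n] [DecidableEq n]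
    (f : R →+* S) (A : Matrix n n R) : f A.permanent = (A.map f).permanent := by
  simp [Matrix.permanent, map_sum, map_prod]

/-- a permanent with a vanishing row vanishes -/
theorem permanent_eq_zero_of_row {n : Type*} [Fintype n] [DecidableEq n] (M : Matrix n n R)
    (i : n) (h : ∀ j, M i j = 0) : M.permanent = 0 := by
  rw [← Matrix.permanent_transpose, Matrix.permanent]
  exact Finset.sum_eq_zero fun σ _ => Finset.prod_eq_zero (Finset.mem_univ i) (h _)

theorem permanent_eq_zero_of_col {n : Type*} [Fintype n] [DecidableEq n] (M : Matrix n n R)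
    (j : n) (h : ∀ i, M i j = 0) : M.permanent = 0 := by
  rw [← Matrix.permanent_transpose]
  exact permanent_eq_zero_of_row _ j h


end Pool.Agent.Q86.Perm
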