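import Mathlib
import Pool.Agent.Q86.Perm

set_option autoImplicit false

namespace Pool.Agent.Q86.Perm

open Matrix Equiv Equiv.Perm Finset

section
variable {R : Type*} [CommRing R]

/-- the permanent with first row `w`, other rows `Y`, column `l` omitted -/
noncomputable def pm {τ : ℕ} (w : Fin (τ + 2) → R) (Y : Fin τ → Fin (τ + 2) → R)
    (l : Fin (τ + 2)) : R :=
  Matrix.permanent (Matrix.of fun (i j : Fin (τ + 1)) =>
    (Fin.cons w Y : Fin (τ + 1) → Fin (τ + 2) → R) i (l.succAbove j))

/-- the matrix of complementary permanents -/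
noncomputable def NN {τ : ℕ} (Y : Fin τ → Fin (τ + 2) → R) :
    Matrix (Fin (τ + 2)) (Fin (τ + 2)) R :=
  Matrix.of fun l m => (Fin.insertNth (α := fun _ => R) l (0 : R) (fun j : Fin (τ + 1) =>
    Matrix.permanent (Matrix.of fun (i j' : Fin τ) => Y i (l.succAbove (j.succAbove j'))))) m

theorem pm_eq_sum {τ : ℕ} (w : Fin (τ + 2) → R) (Y : Fin τ → Fin (τ + 2) → R)
    (l : Fin (τ + 2)) :
    pm w Y l = ∑ j : Fin (τ + 1), w (l.succAbove j) *
      Matrix.permanent (Matrix.of fun (i j' : Fin τ) => Y i (l.succAbove (j.succAbove j'))) := by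
  unfold pm
  rw [permanent_succ_row_zero]
  refine Finset.sum_congr rfl fun j _ => ?_
  simp only [Matrix.of_apply, Fin.cons_zero]
  rfl

theorem pm_eq {τ : ℕ} (w : Fin (τ + 2) → R) (Y : Fin τ → Fin (τ + 2) → R)
    (l : Fin (τ + 2)) : pm w Y l = (NN Y *ᵥ w) l := by
  rw [pm_eq_sum, Matrix.mulVec, dotProduct, Fin.sum_univ_succAbove _ l]
  simp only [NN, Matrix.of_apply, Fin.insertNth_apply_same, zero_mul, zero_add,
    Fin.insertNth_apply_succAbove]
  exact Finset.sum_congr rfl fun j _ => mul_comm _ _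

theorem map_NN {S : Type*} [CommRing S] (f : R →+* S) {τ : ℕ} (Y : Fin τ → Fin (τ + 2) → R) :
    (NN Y).map f = NN (fun i j => f (Y i j)) := by
  ext l m
  simp only [NN, Matrix.map_apply, Matrix.of_apply]
  rcases Fin.eq_self_or_eq_succAbove l m with h | ⟨j, h⟩
  · subst h; simp
  · subst h
    simp only [Fin.insertNth_apply_succAbove, map_permanent]
    rfl

/-- `det N * w c` lies in any ideal containing the maximal permanents. -/
theorem det_mul_mem {τ : ℕ} (w : Fin (τ + 2) → R) (Y : Fin τ → Fin (τ + 2) → R) (I : Ideal R)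
    (h : ∀ l, pm w Y l ∈ I) (c : Fin (τ + 2)) : (NN Y).det * w c ∈ I := by
  have h1 : (NN Y).adjugate *ᵥ (NN Y *ᵥ w) = (NN Y).det • w := by
    rw [Matrix.mulVec_mulVec, Matrix.adjugate_mul, Matrix.smul_mulVec, Matrix.one_mulVec]
  have h2 := congrFun h1 c
  rw [Pi.smul_apply, smul_eq_mul] at h2
  rw [← h2, Matrix.mulVec, dotProduct]
  refine Ideal.sum_mem _ fun l _ => ?_
  rw [← pm_eq]
  exact Ideal.mul_mem_left _ _ (h l)

end

section
variable {k : Type*} [Field k]

/-- indicator of the last two columns -/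
def sv (k : Type*) [Field k] : (n : ℕ) → Fin (n + 2) → k
  | 0 => fun _ => 1
  | n + 1 => (Fin.cons 0 (sv k n) : Fin (n + 3) → k)

/-- the special rows -/
def Yv (k : Type*) [Field k] : (n : ℕ) → Fin n → Fin (n + 2) → k
  | 0 => fun i => i.elim0
  | n + 1 => (Fin.cons (Fin.cons 1 (sv k n) : Fin (n + 3) → k)
      (fun i => (Fin.cons 0 (Yv k n i) : Fin (n + 3) → k)) : Fin (n + 1) → Fin (n + 3) → k)

theorem pm_add {τ : ℕ} (w w' : Fin (τ + 2) → k) (c : k) (Y : Fin τ → Fin (τ + 2) → k)
    (l : Fin (τ + 2)) : pm (w + c • w') Y l = pm w Y l + c * pm w' Y l := by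
  rw [pm_eq, pm_eq, pm_eq, Matrix.mulVec_add, Matrix.mulVec_smul]
  rfl

theorem pm_succ (n : ℕ) (w0 : k) (w : Fin (n + 2) → k) (l : Fin (n + 2)) :
    pm (Fin.cons w0 w : Fin (n + 3) → k) (Yv k (n + 1)) l.succ =
      pm w (Yv k n) l + w0 * pm (sv k n) (Yv k n) l := by
  unfold pm
  rw [permanent_succ_column_zero, Fin.sum_univ_succ, Fin.sum_univ_succ]
  have hz : l.succ.succAbove 0 = 0 := by simp
  rw [Finset.sum_eq_zero (fun i _ => ?_), add_zero]
  · have e1 : (Matrix.of fun (i j : Fin (n + 1 + 1)) =>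
        (Fin.cons (Fin.cons w0 w : Fin (n + 3) → k) (Yv k (n + 1)) :
          Fin (n + 1 + 1) → Fin (n + 3) → k) i (l.succ.succAbove j)) 0 0 = w0 := by
      simp only [Matrix.of_apply, hz, Fin.cons_zero]
    have e2 : (Matrix.of fun (i j : Fin (n + 1 + 1)) =>
        (Fin.cons (Fin.cons w0 w : Fin (n + 3) → k) (Yv k (n + 1)) :
          Fin (n + 1 + 1) → Fin (n + 3) → k) i (l.succ.succAbove j)) (Fin.succ 0) 0 = 1 := by
      simp only [Matrix.of_apply, hz, Fin.cons_succ, Yv, Fin.cons_zero]
    rw [e1, e2, one_mul, add_comm]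
    congr 1
    · congr 1
      ext i j
      simp only [Matrix.submatrix_apply, Matrix.of_apply, Fin.succ_succAbove_succ]
      refine Fin.cases ?_ (fun i => ?_) i
      · rw [Fin.succ_succAbove_zero]; simp
      · rw [Fin.succ_succAbove_succ, Fin.succAbove_zero]; simp [Yv]
    · congr 2
      ext i j
      simp only [Matrix.submatrix_apply, Matrix.of_apply, Fin.succ_succAbove_succ,
        Fin.succAbove_zero, Fin.cons_succ]
      refine Fin.cases ?_ (fun i => ?_) i <;> simp [Yv]
  · have : (Matrix.of fun (i j : Fin (n + 1 + 1)) =>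
        (Fin.cons (Fin.cons w0 w : Fin (n + 3) → k) (Yv k (n + 1)) :
          Fin (n + 1 + 1) → Fin (n + 3) → k) i (l.succ.succAbove j)) i.succ.succ 0 = 0 := by
      simp only [Matrix.of_apply, hz, Fin.cons_succ, Yv, Fin.cons_zero]
    rw [this, zero_mul]

theorem pm_zero (n : ℕ) (w0 : k) (w : Fin (n + 2) → k) :
    pm (Fin.cons w0 w : Fin (n + 3) → k) (Yv k (n + 1)) 0 =
      ∑ m, w m * pm (sv k n) (Yv k n) m := by
  unfold pm
  rw [permanent_succ_row_zero]
  refine Finset.sum_congr rfl fun m _ => ?_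
  congr 1
  congr 1
  ext i j
  simp only [Matrix.submatrix_apply, Matrix.of_apply, Fin.succAbove_zero, Fin.cons_succ]
  refine Fin.cases ?_ (fun i => ?_) i <;> simp [Yv]

theorem sum_sv (n : ℕ) : ∑ m, sv k n m * pm (sv k n) (Yv k n) m = 2 := by
  induction n with
  | zero =>
    simp [sv, pm, Fin.sum_univ_succ, Matrix.permanent]
  | succ n ih =>
    rw [Fin.sum_univ_succ]
    simp only [sv, Fin.cons_zero, zero_mul, zero_add, Fin.cons_succ]
    rw [← ih]
    refine Finset.sum_congr rfl fun m _ => ?_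
    rw [pm_succ, zero_mul, add_zero]

theorem ker_triv (h2 : (2 : k) ≠ 0) (n : ℕ) : ∀ w : Fin (n + 2) → k,
    (∀ l, pm w (Yv k n) l = 0) → w = 0 := by
  induction n with
  | zero =>
    intro w hw
    have h0 := hw 0
    have h1 := hw 1
    simp [pm, Matrix.permanent] at h0 h1
    ext i
    fin_cases i
    · exact h1
    · exact h0
  | succ n ih =>
    intro w hw
    obtain ⟨w0, w', rfl⟩ : ∃ w0 w', w = (Fin.cons w0 w' : Fin (n + 3) → k) :=
      ⟨w 0, fun i => w i.succ, (Fin.cons_self_tail w).symm⟩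
    have h1 : w' + w0 • sv k n = 0 := by
      apply ih
      intro l
      rw [pm_add, ← pm_succ]
      exact hw l.succ
    have h0 := hw 0
    rw [pm_zero] at h0
    have hw' : w' = -w0 • sv k n := by
      rw [eq_neg_iff_add_eq_zero.2 h1]; simp
    rw [hw'] at h0
    have h3 : -w0 * 2 = 0 := by
      rw [← sum_sv (k := k) n, Finset.mul_sum, ← h0]
      refine Finset.sum_congr rfl fun m _ => ?_
      simp [mul_assoc]
    have hw0 : w0 = 0 := by
      rcases mul_eq_zero.1 h3 with h | h
      · exact neg_eq_zero.1 h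
      · exact absurd h h2
    subst hw0
    rw [hw']
    ext i
    refine Fin.cases ?_ (fun i => ?_) i <;> simp

/-- **Nondegeneracy.** -/
theorem det_NN_Yv (h2 : (2 : k) ≠ 0) (n : ℕ) : (NN (Yv k n)).det ≠ 0 := by
  intro h
  obtain ⟨w, hw, hw2⟩ := Matrix.exists_mulVec_eq_zero_iff.2 h
  exact hw (ker_triv h2 n w fun l => by rw [pm_eq, hw2]; rfl)

end

section defs
variable {R : Type*} [CommRing R]

/-- The ideal generated by the permanents of all `t × t` submatrices of `X`. -/
def permIdeal {m n : ℕ} (t : ℕ) (X : Matrix (Fin m) (Fin n) R) : Ideal R :=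
  Ideal.span {f | ∃ (r : Fin t ↪o Fin m) (c : Fin t ↪o Fin n), f = (X.submatrix r c).permanent}

/-- The generic `m × n` matrix. -/
noncomputable def genericMatrix (k : Type*) [Field k] (m n : ℕ) :
    Matrix (Fin m) (Fin n) (MvPolynomial (Fin m × Fin n) k) :=
  Matrix.of fun i j => MvPolynomial.X (i, j)

/-- The generic symmetric `n × n` matrix. -/
noncomputable def symmetricMatrix (k : Type*) [Field k] (n : ℕ) :
    Matrix (Fin n) (Fin n) (MvPolynomial (Sym2 (Fin n)) k) :=
  Matrix.of fun i j => MvPolynomial.X s(i, j)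

theorem permIdeal_transpose {m n : ℕ} (t : ℕ) (X : Matrix (Fin m) (Fin n) R) :
    permIdeal t Xᵀ = permIdeal t X := by
  unfold permIdeal
  congr 1
  ext f
  constructor
  · rintro ⟨r, c, rfl⟩
    exact ⟨c, r, by rw [← Matrix.permanent_transpose]; rfl⟩
  · rintro ⟨r, c, rfl⟩
    exact ⟨c, r, by rw [← Matrix.permanent_transpose]; rfl⟩

end defs

section generic
variable {k : Type*} [Field k]

open MvPolynomial

/-- Generic matrices with at least `t + 1` columns. -/
theorem generic_wide (h2 : (2 : k) ≠ 0) (m n t : ℕ) (ht : 2 ≤ t) (htm : t ≤ m) (htn : t + 1 ≤ n) :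
    ¬ (permIdeal t (genericMatrix k m n)).IsPrime := by
  intro hP
  obtain ⟨τ, rfl⟩ : ∃ τ, t = τ + 1 := ⟨t - 1, by omega⟩
  set P := permIdeal (τ + 1) (genericMatrix k m n) with hPdef
  -- rows and columns
  let ρ : Fin (τ + 1) ↪o Fin m := Fin.castLEOrderEmb htm
  let γ : Fin (τ + 2) ↪o Fin n := Fin.castLEOrderEmb htn
  let M : Fin (τ + 1) → Fin (τ + 2) → MvPolynomial (Fin m × Fin n) k := fun i j => X (ρ i, γ j)
  have hmem : ∀ l, pm (M 0) (fun i => M i.succ) l ∈ P := by
    intro l
    apply Ideal.subset_span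
    refine ⟨ρ, (Fin.succAboveOrderEmb l).trans γ, ?_⟩
    unfold pm
    congr 1
    ext1 i j
    simp only [Matrix.of_apply, Matrix.submatrix_apply, genericMatrix]
    refine Fin.cases ?_ (fun i => ?_) i <;> simp [M]
  -- evaluation which kills everything
  have hker : ∀ v : Fin m × Fin n → k, (∀ (r : Fin (τ + 1) ↪o Fin m) (c : Fin (τ + 1) ↪o Fin n),
      (Matrix.of fun i j => v (r i, c j)).permanent = 0) → ∀ f ∈ P, eval v f = 0 := by
    intro v hv f hf
    have : P ≤ RingHom.ker (eval v) := by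
      rw [hPdef, permIdeal, Ideal.span_le]
      rintro f ⟨r, c, rfl⟩
      rw [SetLike.mem_coe, RingHom.mem_ker, map_permanent, ← hv r c]
      congr 1
      ext i j
      simp [genericMatrix]
    exact this hf
  rcases hP.mem_or_mem (det_mul_mem _ _ P hmem 0) with h | h
  · -- det
    let v : Fin m × Fin n → k := fun p =>
      if h : p.1.1 ≠ 0 ∧ p.1.1 < τ + 1 ∧ p.2.1 < τ + 2 then
        Yv k τ ⟨p.1.1 - 1, by omega⟩ ⟨p.2.1, h.2.2⟩ else 0
    have h0 := hker v ?_ _ h
    · rw [RingHom.map_det] at h0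
      have e : (RingHom.mapMatrix (eval v)) (NN fun i => M i.succ) = NN (Yv k τ) := by
        rw [RingHom.mapMatrix_apply, map_NN]
        congr 1
        funext i j
        simp only [M, eval_X, v]
        rw [dif_pos]
        · congr 1
        · refine ⟨?_, ?_, ?_⟩
          · simp [ρ]
          · simp [ρ]
          · simp [γ]
      rw [e] at h0
      exact det_NN_Yv h2 τ h0
    · intro r c
      -- pigeonhole
      obtain ⟨i, hi⟩ : ∃ i, (r i).1 = 0 ∨ τ + 1 ≤ (r i).1 := by
        by_contra hcon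
        push_neg at hcon
        let g : Fin (τ + 1) → Fin τ := fun i => ⟨(r i).1 - 1, by have := hcon i; omega⟩
        have hg : Function.Injective g := by
          intro a b hab
          have h1 : (r a).1 - 1 = (r b).1 - 1 := congrArg Fin.val hab
          have h3 : r a = r b := Fin.ext (by have := hcon a; have := hcon b; omega)
          exact r.injective h3
        have := Fintype.card_le_of_injective g hg
        simp at this
      apply permanent_eq_zero_of_row _ i
      intro j
      simp only [Matrix.of_apply, v]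
      rw [dif_neg]
      rintro ⟨h1, h3, -⟩
      omega
  · -- variable
    let v : Fin m × Fin n → k := fun p => if p.1.1 = 0 ∧ p.2.1 = 0 then 1 else 0
    have h0 := hker v ?_ _ h
    · simp [M, v, ρ, γ] at h0
    · intro r c
      obtain ⟨i, hi⟩ : ∃ i : Fin (τ + 1), (r i).1 ≠ 0 := by
        by_contra hcon
        push_neg at hcon
        have h1 := hcon ⟨0, by omega⟩
        have h3 := hcon ⟨1, by omega⟩
        have := r.injective (Fin.ext (h1.trans h3.symm))
        simp at this
      apply permanent_eq_zero_of_row _ i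
      intro j
      simp [v, hi]

end generic

end Pool.Agent.Q86.Perm
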