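import Mathlib
import Pool.Agent.Q86.Perm

set_option autoImplicit false

namespace Pool.Agent.Q86.Perm

open Matrix Equiv Equiv.Perm Finset MvPolynomial

section irr
variable {k : Type*} [Field k] {ι : Type*}

/-- the permanent of a matrix of variables -/
noncomputable def vperm (k : Type*) [Field k] {ι : Type*} {n : ℕ} (v : Fin n → Fin n → ι) :
    MvPolynomial ι k :=
  Matrix.permanent (Matrix.of fun i j => (X (v i j) : MvPolynomial ι k))

theorem eval_vperm {n : ℕ} (v : Fin n → Fin n → ι) (a : ι → k) :
    eval a (vperm k v) = Matrix.permanent (Matrix.of fun i j => a (v i j)) := by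
  rw [vperm, map_permanent]
  congr 1
  ext i j
  simp

theorem vars_vperm {n : ℕ} (v : Fin n → Fin n → ι) (x : ι) (h : ∀ i j, v i j ≠ x) :
    x ∉ (vperm k v).vars := by
  classical
  intro hx
  have h1 : vperm k v ∈ supported k {y | y ≠ x} := by
    rw [vperm, Matrix.permanent]
    refine Subalgebra.sum_mem _ fun σ _ => Subalgebra.prod_mem _ fun i _ => ?_
    simp only [Matrix.of_apply]
    exact Algebra.subset_adjoin ⟨_, h _ _, rfl⟩
  rw [mem_supported] at h1
  exact h1 hx rfl

theorem irr_step {n : ℕ} (v : Fin (n + 2) → Fin (n + 2) → ι)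
    (h0 : ∀ i j, v i j = v 0 0 → i = 0 ∧ j = 0)
    (hirr : Irreducible (vperm k fun i j : Fin (n + 1) => v i.succ j.succ))
    (a : ι → k)
    (ha1 : Matrix.permanent (Matrix.of fun i j : Fin (n + 1) => a (v i.succ j.succ)) = 0)
    (ha2 : Matrix.permanent (Matrix.of fun i j => a (v i j)) ≠ 0) :
    Irreducible (vperm k v) := by
  classical
  set A := vperm k fun i j : Fin (n + 1) => v i.succ j.succ with hA
  set B : MvPolynomial ι k := ∑ j : Fin (n + 1), X (v 0 j.succ) *
    vperm k (fun (i c : Fin (n + 1)) => v i.succ (j.succ.succAbove c)) with hB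
  have hexp : vperm k v = A * X (v 0 0) + B := by
    rw [vperm, permanent_succ_row_zero, Fin.sum_univ_succ]
    simp only [Matrix.of_apply, Fin.succAbove_zero]
    rw [mul_comm]
    rfl
  rw [hexp]
  apply irreducible_mul_X_add
  · exact hirr.ne_zero
  · apply vars_vperm
    intro i j h
    exact absurd (h0 _ _ h).1 (Fin.succ_ne_zero i)
  · intro hx
    have h1 : B ∈ supported k {y | y ≠ v 0 0} := by
      rw [hB]
      refine Subalgebra.sum_mem _ fun j _ => Subalgebra.mul_mem _ ?_ ?_
      · refine Algebra.subset_adjoin ⟨_, ?_, rfl⟩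
        intro h
        exact absurd (h0 _ _ h).2 (Fin.succ_ne_zero j)
      · rw [mem_supported]
        intro y hy
        by_contra hne
        simp only [ne_eq, Set.mem_setOf_eq, not_not] at hne
        subst hne
        refine vars_vperm _ _ ?_ hy
        intro i c h
        exact absurd (h0 _ _ h).1 (Fin.succ_ne_zero i)
    rw [mem_supported] at h1
    exact h1 hx rfl
  · rw [hirr.isRelPrime_iff_not_dvd]
    rintro ⟨q, hq⟩
    apply ha2
    rw [← eval_vperm, hexp, hq]
    have : eval a A = 0 := by rw [hA, eval_vperm]; exact ha1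
    rw [map_add, map_mul, map_mul, this]
    ring

theorem permanent_perm {R : Type*} [CommRing R] {n : Type*} [Fintype n] [DecidableEq n]
    (M : Matrix n n R) (σ : Equiv.Perm n) (h : ∀ i j, M i j = if j = σ i then 1 else 0) :
    M.permanent = 1 := by
  have : M = (1 : Matrix n n R).submatrix σ id := by
    ext i j
    rw [h, Matrix.submatrix_apply, Matrix.one_apply, id]
    simp only [eq_comm]
  rw [this, Matrix.permanent_permute_cols, Matrix.permanent_one]

theorem vperm_one (v : Fin 1 → Fin 1 → ι) : vperm k v = X (v 0 0) := by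
  rw [vperm, permanent_succ_row_zero, Fin.sum_univ_one, Matrix.permanent_isEmpty, mul_one]
  rfl

theorem irr_X (i : ι) : Irreducible (X i : MvPolynomial ι k) := by
  classical
  have := irreducible_mul_X_add (1 : MvPolynomial ι k) 0 i one_ne_zero (by simp) (by simp)
    isRelPrime_one_left
  simpa using this

/-- generic and symmetric types -/
theorem irr_gs (n : ℕ) : ∀ (v : Fin (n + 1) → Fin (n + 1) → ι)
    (_ : ∀ i j i' j', v i j = v i' j' → (i = i' ∧ j = j') ∨ (i = j' ∧ j = i')),
    Irreducible (vperm k v) := by
  classical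
  induction n with
  | zero =>
    intro v _
    rw [vperm_one]
    exact irr_X _
  | succ n ih =>
    intro v hv
    have hs : Function.Injective (Fin.succ : Fin (n + 1) → Fin (n + 2)) := Fin.succ_injective _
    have hM : ∀ i j, (if ∃ i', v i j = v i' (Equiv.swap 0 1 i') then (1 : k) else 0)
        = if j = Equiv.swap 0 1 i then 1 else 0 := by
      intro i j
      by_cases h : j = Equiv.swap 0 1 i
      · rw [if_pos h, if_pos ⟨i, by rw [h]⟩]
      · rw [if_neg h, if_neg]
        rintro ⟨i', hi⟩
        rcases hv _ _ _ _ hi with ⟨h1, h3⟩ | ⟨h1, h3⟩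
        · exact h (by rw [h3, h1])
        · apply h
          rw [h1, Equiv.swap_apply_def] 
          rw [h3]
          rw [← Equiv.swap_apply_def, Equiv.swap_apply_self]
    refine irr_step v (fun i j h => ?_)
      (ih _ fun i j i' j' h => ?_)
      (fun x => if ∃ i, x = v i (Equiv.swap 0 1 i) then 1 else 0) ?_ ?_
    · rcases hv _ _ _ _ h with ⟨h1, h3⟩ | ⟨h1, h3⟩
      · exact ⟨h1, h3⟩
      · exact ⟨h1, h3⟩
    · rcases hv _ _ _ _ h with ⟨h1, h3⟩ | ⟨h1, h3⟩
      · exact Or.inl ⟨hs h1, hs h3⟩
      · exact Or.inr ⟨hs h1, hs h3⟩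
    · -- row `1` of the matrix is supported in column `0`
      apply permanent_eq_zero_of_row _ 0
      intro j
      simp only [Matrix.of_apply]
      rw [hM, if_neg]
      intro h
      have : Equiv.swap (0 : Fin (n + 2)) 1 (Fin.succ 0) = 0 := Equiv.swap_apply_right _ _
      rw [this] at h
      exact Fin.succ_ne_zero _ h
    · refine ne_of_eq_of_ne (permanent_perm _ (Equiv.swap 0 1) fun i j => ?_) one_ne_zero
      exact hM i j

/-- Hankel type -/
theorem irr_hankel (n : ℕ) : ∀ (u : ℕ → ι) (N : ℕ) (_ : 2 * n ≤ N)
    (_ : ∀ i j, i ≤ N → j ≤ N → u i = u j → i = j),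
    Irreducible (vperm k fun i j : Fin (n + 1) => u (i.1 + j.1)) := by
  classical
  induction n with
  | zero =>
    intro u N _ _
    rw [vperm_one]
    exact irr_X _
  | succ n ih =>
    intro u N hN hu
    have hM : ∀ i j : Fin (n + 2), (if u (i.1 + j.1) = u (n + 1) then (1 : k) else 0)
        = if j = Fin.revPerm i then 1 else 0 := by
      intro i j
      have hi := i.2
      have hj := j.2
      by_cases h : j = Fin.revPerm i
      · rw [if_pos h, if_pos]
        rw [h]
        congr 1
        simp [Fin.revPerm_apply, Fin.val_rev]; omega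
      · rw [if_neg h, if_neg]
        intro hi'
        have := hu _ _ (by omega) (by omega) hi'
        apply h
        ext
        simp [Fin.revPerm_apply, Fin.val_rev]; omega
    refine irr_step _ (fun i j h => ?_) ?_
      (fun x => if x = u (n + 1) then 1 else 0) ?_ ?_
    · have hi := i.2
      have hj := j.2
      have := hu _ _ (by omega) (by simp) h
      simp at this
      exact ⟨Fin.ext (by simp; omega), Fin.ext (by simp; omega)⟩
    · have h1 := ih (fun i => u (i + 2)) (N - 2) (by omega) (fun i j hi hj h => by
        have := hu _ _ (by omega) (by omega) h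
        omega)
      have h3 : (fun i j : Fin (n + 1) => u (i.succ.1 + j.succ.1)) =
        fun i j : Fin (n + 1) => u (i.1 + j.1 + 2) := by
        funext i j
        congr 1
        simp; omega
      rw [h3]
      exact h1
    · apply permanent_eq_zero_of_row _ (Fin.last n)
      intro j
      simp only [Matrix.of_apply]
      rw [hM, if_neg]
      intro h
      have := congrArg Fin.val h
      simp [Fin.revPerm_apply, Fin.val_rev] at this
    · refine ne_of_eq_of_ne (permanent_perm _ Fin.revPerm fun i j => ?_) one_ne_zero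
      exact hM i j

end irr

end Pool.Agent.Q86.Perm
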