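import Mathlib
import Pool.Agent.Q86.PermGeneric
import Pool.Agent.Q86.PermIrr

set_option autoImplicit false

namespace Pool.Agent.Q86.Perm

open Matrix Equiv Equiv.Perm Finset MvPolynomial

section star
variable {k : Type*} [CommRing k]

/-- columns `w`, then legs `e_j + e_last` -/
def MG (n : ℕ) (w : Fin (n + 1) → k) : Matrix (Fin (n + 1)) (Fin (n + 1)) k :=
  Matrix.of fun i j => (Fin.cons (w i) (fun j' : Fin n =>
    if i = Fin.castSucc j' ∨ i = Fin.last n then (1 : k) else 0) : Fin (n + 1) → k) j

theorem MG_perm (n : ℕ) : ∀ w : Fin (n + 1) → k, (MG n w).permanent = ∑ i, w i := by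
  induction n with
  | zero =>
    intro w
    rw [permanent_succ_row_zero, Fin.sum_univ_one, Matrix.permanent_isEmpty, mul_one]
    simp [MG]
  | succ n ih =>
    intro w
    rw [permanent_succ_row_zero, Fin.sum_univ_succ, Fin.sum_univ_succ, Finset.sum_eq_zero, add_zero]
    · have e0 : MG (n + 1) w 0 0 = w 0 := by simp [MG]
      have e1 : MG (n + 1) w 0 (Fin.succ 0) = 1 := by simp [MG]
      have m0 : (MG (n + 1) w).submatrix Fin.succ (Fin.succAbove 0) =
          MG n (fun i => if i = Fin.last n then 1 else 0) := by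
        ext i j
        simp only [MG, Matrix.submatrix_apply, Matrix.of_apply, Fin.succAbove_zero, Fin.cons_succ]
        refine Fin.cases ?_ (fun j => ?_) j
        · simp only [Fin.castSucc_zero, Fin.succ_ne_zero, false_or, Fin.cons_zero]
          congr 1
          rw [← Fin.succ_last, (Fin.succ_injective _).eq_iff]
        · simp only [Fin.cons_succ]
          congr 1
          rw [← Fin.succ_last, (Fin.succ_injective _).eq_iff, ← Fin.succ_castSucc,
            (Fin.succ_injective _).eq_iff]
      have m1 : (MG (n + 1) w).submatrix Fin.succ (Fin.succAbove (Fin.succ 0)) =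
          MG n (fun i => w i.succ) := by
        ext i j
        simp only [MG, Matrix.submatrix_apply, Matrix.of_apply]
        refine Fin.cases ?_ (fun j => ?_) j
        · rw [Fin.succ_succAbove_zero]; simp
        · rw [Fin.succ_succAbove_succ, Fin.succAbove_zero]
          simp only [Fin.cons_succ]
          congr 1
          rw [← Fin.succ_last, (Fin.succ_injective _).eq_iff, ← Fin.succ_castSucc,
            (Fin.succ_injective _).eq_iff]
      rw [e0, e1, m0, m1, ih, ih, Fin.sum_univ_succ w]
      simp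
    · intro j _
      have : MG (n + 1) w 0 j.succ.succ = 0 := by
        simp only [MG, Matrix.of_apply, Fin.cons_succ]
        rw [if_neg]
        rintro (h | h)
        · have := congrArg Fin.val h
          simp at this
        · have := congrArg Fin.val h
          simp at this
      rw [this, zero_mul]

/-- columns `w`, then legs `e_0 + e_{j+1}` -/
def MG' (n : ℕ) (w : Fin (n + 1) → k) : Matrix (Fin (n + 1)) (Fin (n + 1)) k :=
  Matrix.of fun i j => (Fin.cons (w i) (fun j' : Fin n =>
    if i = Fin.succ j' ∨ i = 0 then (1 : k) else 0) : Fin (n + 1) → k) j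

theorem MG'_perm (n : ℕ) (w : Fin (n + 1) → k) : (MG' n w).permanent = ∑ i, w i := by
  rw [← Matrix.permanent_permute_cols (finRotate (n + 1)) (MG' n w)]
  have : (MG' n w).submatrix (finRotate (n + 1)) id = MG n (fun i => w (finRotate (n + 1) i)) := by
    ext i j
    simp only [MG, MG', Matrix.submatrix_apply, Matrix.of_apply, id]
    refine Fin.cases ?_ (fun j => ?_) j
    · simp
    · simp only [Fin.cons_succ]
      congr 1
      refine Fin.lastCases ?_ (fun i => ?_) i
      · rw [finRotate_last]; simp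
      · rw [finRotate_succ_apply, Fin.coeSucc_eq_succ, (Fin.succ_injective _).eq_iff,
          (Fin.castSucc_injective _).eq_iff]
        simp [Fin.succ_ne_zero, (Fin.castSucc_lt_last i).ne]
  rw [this, MG_perm]
  exact Equiv.sum_comp (finRotate (n + 1)) w

/-- the permanental adjugate (transposed) -/
noncomputable def PA {τ : ℕ} (Y : Matrix (Fin (τ + 1)) (Fin (τ + 1)) k) :
    Matrix (Fin (τ + 1)) (Fin (τ + 1)) k :=
  Matrix.of fun l i => (Y.submatrix i.succAbove l.succAbove).permanent

/-- first column `w`, then the columns of `Y` except column `l` -/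
def colM {τ : ℕ} (Y : Matrix (Fin (τ + 1)) (Fin (τ + 1)) k) (w : Fin (τ + 1) → k)
    (l : Fin (τ + 1)) : Matrix (Fin (τ + 1)) (Fin (τ + 1)) k :=
  Matrix.of fun i j => (Fin.cons (w i) (fun j' : Fin τ => Y i (l.succAbove j')) :
    Fin (τ + 1) → k) j

theorem PA_mulVec {τ : ℕ} (Y : Matrix (Fin (τ + 1)) (Fin (τ + 1)) k) (w : Fin (τ + 1) → k)
    (l : Fin (τ + 1)) : (PA Y *ᵥ w) l = (colM Y w l).permanent := by
  rw [permanent_succ_column_zero, Matrix.mulVec, dotProduct]
  refine Finset.sum_congr rfl fun i _ => ?_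
  rw [mul_comm]
  have e0 : colM Y w l i 0 = w i := by simp [colM]
  rw [e0]
  congr 1

theorem map_PA {S : Type*} [CommRing S] (f : k →+* S) {τ : ℕ}
    (Y : Matrix (Fin (τ + 1)) (Fin (τ + 1)) k) : (PA Y).map f = PA (Y.map f) := by
  ext l i
  simp only [PA, Matrix.map_apply, Matrix.of_apply, map_permanent]
  rfl

theorem det_PA_mul_mem {τ : ℕ} (Y : Matrix (Fin (τ + 1)) (Fin (τ + 1)) k) (w : Fin (τ + 1) → k)
    (I : Ideal k) (h : ∀ l, (colM Y w l).permanent ∈ I) (c : Fin (τ + 1)) :
    (PA Y).det * w c ∈ I := by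
  have h1 : (PA Y).adjugate *ᵥ (PA Y *ᵥ w) = (PA Y).det • w := by
    rw [Matrix.mulVec_mulVec, Matrix.adjugate_mul, Matrix.smul_mulVec, Matrix.one_mulVec]
  have h2 := congrFun h1 c
  rw [Pi.smul_apply, smul_eq_mul] at h2
  rw [← h2, Matrix.mulVec, dotProduct]
  refine Ideal.sum_mem _ fun l _ => ?_
  rw [PA_mulVec]
  exact Ideal.mul_mem_left _ _ (h l)

/-- the symmetric matrix: an arrow with corner `-τ` -/
def Arr (k : Type*) [CommRing k] (τ : ℕ) : Matrix (Fin (τ + 1)) (Fin (τ + 1)) k :=
  Matrix.of fun i j => if i = 0 ∧ j = 0 then -(τ : k) else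
    if i = j ∨ i = 0 ∨ j = 0 then 1 else 0

theorem Arr_symm (τ : ℕ) (i j : Fin (τ + 1)) : Arr k τ i j = Arr k τ j i := by
  simp only [Arr, Matrix.of_apply]
  congr 1
  · rw [and_comm]
  · congr 1
    rw [or_comm (a := i = 0), eq_comm (a := i) (b := j)]

theorem Arr_perm (τ : ℕ) : (Arr k τ).permanent = 0 := by
  have : Arr k τ = MG' τ (fun i => if i = 0 then -(τ : k) else 1) := by
    ext i j
    simp only [Arr, MG', Matrix.of_apply]
    refine Fin.cases ?_ (fun j => ?_) j
    · simp
    · simp [Fin.succ_ne_zero]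
  rw [this, MG'_perm, Fin.sum_univ_succ]
  simp [Fin.succ_ne_zero]

theorem colM_zero (τ : ℕ) (w : Fin (τ + 1) → k) : (colM (Arr k τ) w 0).permanent = ∑ i, w i := by
  have : colM (Arr k τ) w 0 = MG' τ w := by
    ext i j
    simp only [Arr, MG', colM, Matrix.of_apply, Fin.succAbove_zero]
    refine Fin.cases ?_ (fun j => ?_) j
    · simp
    · simp [Fin.succ_ne_zero]
  rw [this, MG'_perm]

theorem Arr_succAbove (τ : ℕ) (l : Fin (τ + 1)) (i : Fin (τ + 1)) (j : Fin τ) :
    Arr k (τ + 1) (l.succ.succAbove i) (l.succ.succAbove j.succ) =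
      if i = j.succ ∨ i = 0 then 1 else 0 := by
  have h0 : l.succ.succAbove j.succ ≠ 0 := by
    rw [Fin.succ_succAbove_succ]; exact Fin.succ_ne_zero _
  have h1 : l.succ.succAbove i = 0 ↔ i = 0 := by
    constructor
    · intro h
      apply Fin.succAbove_right_injective (p := l.succ)
      rw [h, Fin.succ_succAbove_zero]
    · rintro rfl
      exact Fin.succ_succAbove_zero _
  simp only [Arr, Matrix.of_apply]
  rw [if_neg (fun h => h0 h.2)]
  congr 1
  rw [(Fin.succAbove_right_injective (p := l.succ)).eq_iff, h1]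
  simp [h0]

theorem colM_succ (τ : ℕ) (w : Fin (τ + 2) → k) (l : Fin (τ + 1)) :
    (colM (Arr k (τ + 1)) w l.succ).permanent = ∑ i, w i - 2 * w l.succ := by
  rw [← Matrix.permanent_permute_cols (Fin.cycleRange l.succ).symm]
  rw [permanent_succ_row_zero, Fin.sum_univ_succ, Fin.sum_univ_succ, Finset.sum_eq_zero, add_zero]
  · have e0 : (colM (Arr k (τ + 1)) w l.succ).submatrix (Fin.cycleRange l.succ).symm id 0 0 =
        w l.succ := by
      simp only [Matrix.submatrix_apply, Fin.cycleRange_symm_zero, colM, Matrix.of_apply, id,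
        Fin.cons_zero]
    have e1 : (colM (Arr k (τ + 1)) w l.succ).submatrix (Fin.cycleRange l.succ).symm id 0
        (Fin.succ 0) = 1 := by
      simp only [Matrix.submatrix_apply, Fin.cycleRange_symm_zero, colM, Matrix.of_apply, id,
        Fin.cons_succ, Fin.succ_succAbove_zero, Arr]
      rw [if_neg (fun h => Fin.succ_ne_zero _ h.1)]
      simp
    have m0 : ((colM (Arr k (τ + 1)) w l.succ).submatrix (Fin.cycleRange l.succ).symm id).submatrix
        Fin.succ (Fin.succAbove 0) = MG' τ (fun i => if i = 0 then -((τ + 1 : ℕ) : k) else 1) := by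
      ext i j
      simp only [Matrix.submatrix_apply, Fin.cycleRange_symm_succ, colM, Matrix.of_apply, id,
        Fin.succAbove_zero, Fin.cons_succ, MG']
      refine Fin.cases ?_ (fun j => ?_) j
      · rw [Fin.succ_succAbove_zero, Fin.cons_zero]
        refine Fin.cases ?_ (fun i => ?_) i
        · rw [Fin.succ_succAbove_zero]; simp [Arr]
        · rw [Fin.succ_succAbove_succ]
          simp [Arr, Fin.succ_ne_zero]
      · rw [Arr_succAbove, Fin.cons_succ]
    have m1 : ((colM (Arr k (τ + 1)) w l.succ).submatrix (Fin.cycleRange l.succ).symm id).submatrix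
        Fin.succ (Fin.succAbove (Fin.succ 0)) = MG' τ (fun i => w (l.succ.succAbove i)) := by
      ext i j
      simp only [Matrix.submatrix_apply, Fin.cycleRange_symm_succ, colM, Matrix.of_apply, id,
        MG']
      refine Fin.cases ?_ (fun j => ?_) j
      · rw [Fin.succ_succAbove_zero]; simp
      · rw [Fin.succ_succAbove_succ, Fin.succAbove_zero]
        simp only [Fin.cons_succ]
        rw [Arr_succAbove]
    rw [e0, e1, m0, m1, MG'_perm, MG'_perm, Fin.sum_univ_succAbove w l.succ, Fin.sum_univ_succ]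
    simp [Fin.succ_ne_zero]
    ring
  · intro j _
    have : (colM (Arr k (τ + 1)) w l.succ).submatrix (Fin.cycleRange l.succ).symm id 0
        j.succ.succ = 0 := by
      simp only [Matrix.submatrix_apply, Fin.cycleRange_symm_zero, colM, Matrix.of_apply, id,
        Fin.cons_succ, Arr]
      rw [if_neg (fun h => Fin.succ_ne_zero _ h.1), if_neg]
      rintro (h | h | h)
      · exact Fin.succAbove_ne _ _ h.symm
      · exact Fin.succ_ne_zero _ h
      · rw [Fin.succ_succAbove_succ] at h
        exact Fin.succ_ne_zero _ h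
    rw [this, zero_mul]

theorem ker_PA_Arr {K : Type*} [Field K] (h2 : (2 : K) ≠ 0) (τ : ℕ) (w : Fin (τ + 2) → K)
    (h : ∀ l, (colM (Arr K (τ + 1)) w l).permanent = 0) : w = 0 := by
  have h0 := h 0
  rw [colM_zero] at h0
  have hs : ∀ l : Fin (τ + 1), w l.succ = 0 := by
    intro l
    have := h l.succ
    rw [colM_succ, h0, zero_sub, neg_eq_zero] at this
    exact (mul_eq_zero.1 this).resolve_left h2
  rw [Fin.sum_univ_succ, Finset.sum_eq_zero (fun i _ => hs i), add_zero] at h0
  ext i
  refine Fin.cases h0 (fun i => hs i) i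

end star

end Pool.Agent.Q86.Perm
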