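import Mathlib
import Pool.Agent.Q86.PermSym

set_option autoImplicit false

namespace Pool.Agent.Q86.Perm

open Matrix Equiv Equiv.Perm Finset MvPolynomial

section
variable {k : Type*} [Field k]

/-- No variable lies in the ideal generated by the `t × t` permanents, `t ≥ 2`. -/
theorem X_not_mem {ι : Type*} {m n : ℕ} (v : Fin m → Fin n → ι) (t : ℕ) (ht : 2 ≤ t) (x : ι) :
    (X x : MvPolynomial ι k) ∉ permIdeal t (Matrix.of fun i j => (X (v i j) : MvPolynomial ι k)) := by
  intro h
  let φ : MvPolynomial ι k →ₐ[k] DualNumber k := aeval (fun _ => DualNumber.eps)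
  have hle : permIdeal t (Matrix.of fun i j => (X (v i j) : MvPolynomial ι k)) ≤
      RingHom.ker φ.toRingHom := by
    rw [permIdeal, Ideal.span_le]
    rintro f ⟨r, c, rfl⟩
    rw [SetLike.mem_coe, RingHom.mem_ker, map_permanent, Matrix.permanent]
    refine Finset.sum_eq_zero fun σ _ => ?_
    have : ∀ i : Fin t, (((Matrix.of fun i j => (X (v i j) : MvPolynomial ι k)).submatrix r c).map
        φ.toRingHom) (σ i) i = DualNumber.eps := by
      intro i
      simp [φ]
    rw [Finset.prod_congr rfl fun i _ => this i, Finset.prod_const, Finset.card_univ,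
      Fintype.card_fin]
    obtain ⟨s, rfl⟩ : ∃ s, t = s + 2 := ⟨t - 2, by omega⟩
    rw [pow_add, pow_two, DualNumber.eps_mul_eps, mul_zero]
  have h1 : φ (X x) = 0 := hle h
  rw [aeval_X] at h1
  have h3 := congrArg TrivSqZeroExt.snd h1
  simp at h3

theorem symmetric_wide (h2 : (2 : k) ≠ 0) (n t : ℕ) (ht : 2 ≤ t) (htn : t + 1 ≤ n) :
    ¬ (permIdeal t (symmetricMatrix k n)).IsPrime := by
  classical
  intro hP
  obtain ⟨τ, rfl⟩ : ∃ τ, t = τ + 2 := ⟨t - 2, by omega⟩
  set P := permIdeal (τ + 2) (symmetricMatrix k n) with hPdef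
  let ρ : Fin (τ + 3) ↪o Fin n := Fin.castLEOrderEmb htn
  let S : Matrix (Fin (τ + 2)) (Fin (τ + 2)) (MvPolynomial (Sym2 (Fin n)) k) :=
    Matrix.of fun i j => X s(ρ i.succ, ρ j.succ)
  let c : Fin (τ + 2) → MvPolynomial (Sym2 (Fin n)) k := fun i => X s(ρ i.succ, ρ 0)
  have hmem : ∀ l, (colM S c l).permanent ∈ P := by
    intro l
    apply Ideal.subset_span
    refine ⟨(Fin.succOrderEmb (τ + 2)).trans ρ, (Fin.succAboveOrderEmb l.succ).trans ρ, ?_⟩
    congr 1
    ext1 i j
    simp only [colM, Matrix.of_apply, Matrix.submatrix_apply, symmetricMatrix]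
    refine Fin.cases ?_ (fun j => ?_) j
    · simp [c, Fin.succ_succAbove_zero]
    · simp [S, Fin.succ_succAbove_succ]
  have hker : ∀ v : Sym2 (Fin n) → k, (∀ (r : Fin (τ + 2) ↪o Fin n) (c : Fin (τ + 2) ↪o Fin n),
      (Matrix.of fun i j => v s(r i, c j)).permanent = 0) → ∀ f ∈ P, eval v f = 0 := by
    intro v hv f hf
    have : P ≤ RingHom.ker (eval v) := by
      rw [hPdef, permIdeal, Ideal.span_le]
      rintro f ⟨r, c, rfl⟩
      rw [SetLike.mem_coe, RingHom.mem_ker, map_permanent, ← hv r c]
      congr 1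
      ext i j
      simp [symmetricMatrix]
    exact this hf
  rcases hP.mem_or_mem (det_PA_mul_mem _ _ P hmem 0) with h | h
  · -- det
    let g : Fin n → Fin n → k := fun a b =>
      if h : (a.1 ≠ 0 ∧ a.1 < τ + 3) ∧ (b.1 ≠ 0 ∧ b.1 < τ + 3) then
        Arr k (τ + 1) ⟨a.1 - 1, by omega⟩ ⟨b.1 - 1, by omega⟩ else 0
    have hg : ∀ a b, g a b = g b a := by
      intro a b
      simp only [g]
      by_cases h : (a.1 ≠ 0 ∧ a.1 < τ + 3) ∧ (b.1 ≠ 0 ∧ b.1 < τ + 3)
      · rw [dif_pos h, dif_pos ⟨h.2, h.1⟩, Arr_symm]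
      · rw [dif_neg h, dif_neg (fun h' => h ⟨h'.2, h'.1⟩)]
    let v : Sym2 (Fin n) → k := Sym2.lift ⟨g, hg⟩
    have h0 := hker v ?_ _ h
    · rw [RingHom.map_det] at h0
      have e : (RingHom.mapMatrix (eval v)) (PA S) = PA (Arr k (τ + 1)) := by
        rw [RingHom.mapMatrix_apply, map_PA]
        congr 1
        ext i j
        simp only [S, Matrix.map_apply, Matrix.of_apply, eval_X, v, Sym2.lift_mk, g]
        rw [dif_pos]
        · congr 1
        · refine ⟨⟨?_, ?_⟩, ⟨?_, ?_⟩⟩ <;> simp [ρ]
      rw [e] at h0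
      obtain ⟨w, hw, hw2⟩ := Matrix.exists_mulVec_eq_zero_iff.2 h0
      exact hw (ker_PA_Arr h2 τ w fun l => by rw [← PA_mulVec, hw2]; rfl)
    · intro r c
      by_cases hr : ∀ i, (r i).1 ≠ 0 ∧ (r i).1 < τ + 3
      · by_cases hc : ∀ i, (c i).1 ≠ 0 ∧ (c i).1 < τ + 3
        · -- permutation of `Arr`
          let fr : Fin (τ + 2) → Fin (τ + 2) := fun i => ⟨(r i).1 - 1, by have := hr i; omega⟩
          let fc : Fin (τ + 2) → Fin (τ + 2) := fun i => ⟨(c i).1 - 1, by have := hc i; omega⟩
          have hfr : Function.Injective fr := by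
            intro a b hab
            have h1 : (r a).1 - 1 = (r b).1 - 1 := congrArg Fin.val hab
            exact r.injective (Fin.ext (by have := hr a; have := hr b; omega))
          have hfc : Function.Injective fc := by
            intro a b hab
            have h1 : (c a).1 - 1 = (c b).1 - 1 := congrArg Fin.val hab
            exact c.injective (Fin.ext (by have := hc a; have := hc b; omega))
          let er := Equiv.ofBijective fr (Finite.injective_iff_bijective.1 hfr)
          let ec := Equiv.ofBijective fc (Finite.injective_iff_bijective.1 hfc)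
          have : (Matrix.of fun i j => v s(r i, c j)) =
              ((Arr k (τ + 1)).submatrix er id).submatrix id ec := by
            ext i j
            simp only [Matrix.of_apply, Matrix.submatrix_apply, v, Sym2.lift_mk, g, id]
            rw [dif_pos ⟨hr i, hc j⟩]
            rfl
          rw [this, Matrix.permanent_permute_rows, Matrix.permanent_permute_cols, Arr_perm]
        · push_neg at hc
          obtain ⟨j, hj⟩ := hc
          apply permanent_eq_zero_of_col _ j
          intro i
          simp only [Matrix.of_apply, v, Sym2.lift_mk, g]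
          rw [dif_neg]
          rintro ⟨-, h1, h3⟩
          have := hj h1
          omega
      · push_neg at hr
        obtain ⟨j, hj⟩ := hr
        apply permanent_eq_zero_of_row _ j
        intro i
        simp only [Matrix.of_apply, v, Sym2.lift_mk, g]
        rw [dif_neg]
        rintro ⟨⟨h1, h3⟩, -⟩
        have := hj h1
        omega
  · exact X_not_mem (k := k) (m := n) (n := n) (fun i j => s(i, j)) (τ + 2) (by omega) _ h

theorem permIdeal_map {R S : Type*} [CommRing R] [CommRing S] (f : R →+* S) {m n : ℕ} (t : ℕ)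
    (X : Matrix (Fin m) (Fin n) R) : (permIdeal t X).map f = permIdeal t (X.map f) := by
  rw [permIdeal, Ideal.map_span, permIdeal]
  congr 1
  ext g
  constructor
  · rintro ⟨_, ⟨r, c, rfl⟩, rfl⟩
    exact ⟨r, c, by rw [map_permanent]; rfl⟩
  · rintro ⟨r, c, rfl⟩
    exact ⟨_, ⟨r, c, rfl⟩, by rw [map_permanent]; rfl⟩

theorem generic_tall (h2 : (2 : k) ≠ 0) (m n t : ℕ) (ht : 2 ≤ t) (htm : t + 1 ≤ m) (htn : t ≤ n) :
    ¬ (permIdeal t (genericMatrix k m n)).IsPrime := by
  intro h
  apply generic_wide h2 n m t ht htn htm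
  let e : MvPolynomial (Fin m × Fin n) k ≃ₐ[k] MvPolynomial (Fin n × Fin m) k :=
    renameEquiv k (Equiv.prodComm _ _)
  have h1 : (permIdeal t (genericMatrix k m n)).map e.toRingEquiv.toRingHom =
      permIdeal t (genericMatrix k n m) := by
    rw [permIdeal_map, ← permIdeal_transpose]
    congr 1
    ext i j
    simp [genericMatrix, e]
  rw [← h1]
  exact Ideal.map_isPrime_of_equiv e.toRingEquiv

/-- the square case: one generator -/
theorem permIdeal_square {R : Type*} [CommRing R] {n : ℕ} (X : Matrix (Fin n) (Fin n) R) :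
    permIdeal n X = Ideal.span {X.permanent} := by
  rw [permIdeal]
  congr 1
  ext f
  constructor
  · rintro ⟨r, c, rfl⟩
    let er := Equiv.ofBijective r (Finite.injective_iff_bijective.1 r.injective)
    let ec := Equiv.ofBijective c (Finite.injective_iff_bijective.1 c.injective)
    have : X.submatrix r c = (X.submatrix er id).submatrix id ec := rfl
    rw [Set.mem_singleton_iff, this, Matrix.permanent_permute_rows, Matrix.permanent_permute_cols]
  · rintro rfl
    exact ⟨RelEmbedding.refl _, RelEmbedding.refl _, rfl⟩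

theorem prime_of_irreducible {ι : Type*} {n : ℕ} (v : Fin n → Fin n → ι)
    (h : Irreducible (vperm k v)) :
    (permIdeal n (Matrix.of fun i j => (X (v i j) : MvPolynomial ι k))).IsPrime := by
  rw [permIdeal_square]
  exact (Ideal.span_singleton_prime h.ne_zero).2 (UniqueFactorizationMonoid.irreducible_iff_prime.1 h)

/-- **Generic matrices**. -/
theorem generic_iff (h2 : (2 : k) ≠ 0) (m n t : ℕ) (ht : 2 ≤ t) (htm : t ≤ m) (htn : t ≤ n) :
    (permIdeal t (genericMatrix k m n)).IsPrime ↔ t = m ∧ t = n := by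
  constructor
  · intro h
    by_contra hcon
    rcases Nat.lt_or_ge t n with h1 | h1
    · exact generic_wide h2 m n t ht htm h1 h
    · have : t < m := by omega
      exact generic_tall h2 m n t ht this htn h
  · rintro ⟨rfl, rfl⟩
    obtain ⟨τ, rfl⟩ : ∃ τ, t = τ + 1 := ⟨t - 1, by omega⟩
    apply prime_of_irreducible (fun i j => (i, j))
    apply irr_gs
    intro i j i' j' h
    left
    exact Prod.mk.inj h

/-- **Symmetric matrices**. -/
theorem symmetric_iff (h2 : (2 : k) ≠ 0) (n t : ℕ) (ht : 2 ≤ t) (htn : t ≤ n) :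
    (permIdeal t (symmetricMatrix k n)).IsPrime ↔ t = n := by
  constructor
  · intro h
    by_contra hcon
    exact symmetric_wide h2 n t ht (by omega) h
  · rintro rfl
    obtain ⟨τ, rfl⟩ : ∃ τ, t = τ + 1 := ⟨t - 1, by omega⟩
    apply prime_of_irreducible (fun i j => s(i, j))
    apply irr_gs
    intro i j i' j' h
    simpa using h

end

end Pool.Agent.Q86.Perm
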