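import Mathlib

set_option autoImplicit false

universe u

namespace Pool.Agent.Q86.Residue

open MvPolynomial

variable {K : Type u} [Field K] {n : ℕ}

/-- The linear form `∑ a_i x_i`. -/
noncomputable def lin (a : Fin n → K) : MvPolynomial (Fin n) K := ∑ i, C (a i) * X i

theorem lin_add (a b : Fin n → K) : lin (a + b) = lin a + lin b := by
  simp [lin, add_mul, Finset.sum_add_distrib]

theorem lin_smul (c : K) (a : Fin n → K) : lin (c • a) = C c * lin a := by
  simp [lin, Finset.mul_sum, mul_assoc]

theorem lin_zero : lin (0 : Fin n → K) = 0 := by simp [lin]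

theorem lin_sub (a b : Fin n → K) : lin (a - b) = lin a - lin b := by
  simp [lin, sub_mul, Finset.sum_sub_distrib]

theorem lin_sum {ι : Type*} (s : Finset ι) (c : ι → K) (a : ι → Fin n → K) :
    lin (∑ j ∈ s, c j • a j) = ∑ j ∈ s, C (c j) * lin (a j) := by
  classical
  induction s using Finset.induction_on with
  | empty => simp [lin_zero]
  | insert j s hj ih => rw [Finset.sum_insert hj, Finset.sum_insert hj, lin_add, lin_smul, ih]

theorem lin_single (i : Fin n) : lin (Pi.single i (1 : K)) = X i := by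
  classical
  unfold lin
  rw [Finset.sum_eq_single i]
  · simp
  · intro j _ hj; simp [Pi.single_eq_of_ne hj]
  · intro h; exact absurd (Finset.mem_univ _) h

theorem coeff_lin (a : Fin n → K) (i : Fin n) : coeff (Finsupp.single i 1) (lin a) = a i := by
  classical
  unfold lin
  rw [coeff_sum, Finset.sum_eq_single i]
  · rw [coeff_C_mul, coeff_X', if_pos rfl, mul_one]
  · intro j _ hj
    rw [coeff_C_mul, coeff_X', if_neg, mul_zero]
    intro h
    exact hj (Finsupp.single_left_injective one_ne_zero h)
  · intro h; exact absurd (Finset.mem_univ _) h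

theorem lin_eq_zero {a : Fin n → K} : lin a = 0 ↔ a = 0 := by
  constructor
  · intro h; ext i; rw [← coeff_lin a i, h]; simp
  · rintro rfl; exact lin_zero

theorem aeval_lin {s : ℕ} (m : Fin n → Fin s → K) (a : Fin n → K) :
    aeval (fun i => lin (m i)) (lin a) = lin (∑ i, a i • m i) := by
  rw [lin_sum]
  unfold lin
  simp

/-- The ideal generated by the linear forms with coefficient vector in `U`. -/
noncomputable def idealOf (U : Submodule K (Fin n → K)) : Ideal (MvPolynomial (Fin n) K) :=
  Ideal.span (lin '' (U : Set (Fin n → K)))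

theorem lin_mem_idealOf {U : Submodule K (Fin n → K)} {a : Fin n → K} (h : a ∈ U) :
    lin a ∈ idealOf U := Ideal.subset_span ⟨a, h, rfl⟩

/-- Restriction to the subspace where the forms in `U` vanish. -/
theorem exists_hom (U : Submodule K (Fin n → K)) :
    ∃ (s : ℕ) (φ : MvPolynomial (Fin n) K →ₐ[K] MvPolynomial (Fin s) K),
      (∀ f, φ f = 0 ↔ f ∈ idealOf U) ∧ ∀ a, φ (lin a) = 0 ↔ a ∈ U := by
  classical
  let b := Module.finBasis K ((Fin n → K) ⧸ U)
  let m : Fin n → Fin _ → K := fun i => b.equivFun (U.mkQ (Pi.single i 1))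
  let φ : MvPolynomial (Fin n) K →ₐ[K] MvPolynomial (Fin _) K := aeval fun i => lin (m i)
  have hφ : ∀ a, φ (lin a) = lin (b.equivFun (U.mkQ a)) := by
    intro a
    rw [aeval_lin]
    congr 1
    have : a = ∑ i, a i • (Pi.single i 1 : Fin n → K) := by
      ext j
      simp [Finset.sum_apply, Pi.single_apply]
    conv_rhs => rw [this, map_sum, map_sum]
    refine Finset.sum_congr rfl fun i _ => ?_
    rw [map_smul, map_smul]
  have hφ0 : ∀ a, φ (lin a) = 0 ↔ a ∈ U := by
    intro a
    rw [hφ, lin_eq_zero, LinearEquiv.map_eq_zero_iff, Submodule.mkQ_apply,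
      Submodule.Quotient.mk_eq_zero]
  -- section
  have hsurj : ∀ j, ∃ μ : Fin n → K, U.mkQ μ = b j := fun j => U.mkQ_surjective _
  choose μ hμ using hsurj
  let ψ : MvPolynomial (Fin _) K →ₐ[K] MvPolynomial (Fin n) K := aeval fun j => lin (μ j)
  have hψ : ∀ i, X i - ψ (φ (X i)) ∈ idealOf U := by
    intro i
    have h1 : φ (X i) = lin (m i) := aeval_X _ _
    rw [h1, aeval_lin, ← lin_single, ← lin_sub]
    apply lin_mem_idealOf
    rw [← Submodule.Quotient.mk_eq_zero, ← Submodule.mkQ_apply, map_sub, map_sum]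
    rw [sub_eq_zero]
    conv_lhs => rw [← b.sum_equivFun (U.mkQ (Pi.single i 1))]
    refine Finset.sum_congr rfl fun j _ => ?_
    rw [map_smul, hμ]
  have hψ2 : ∀ f, f - ψ (φ f) ∈ idealOf U := by
    intro f
    have : (Ideal.Quotient.mkₐ K (idealOf U)) = (Ideal.Quotient.mkₐ K (idealOf U)).comp
        (ψ.comp φ) := by
      apply MvPolynomial.algHom_ext
      intro i
      exact (Ideal.Quotient.eq.2 (hψ i))
    exact Ideal.Quotient.eq.1 (DFunLike.congr_fun this f)
  refine ⟨_, φ, fun f => ⟨fun hf => ?_, fun hf => ?_⟩, hφ0⟩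
  · have := hψ2 f
    rwa [hf, map_zero, sub_zero] at this
  · have : idealOf U ≤ RingHom.ker φ := by
      refine Ideal.span_le.2 ?_
      rintro _ ⟨a, ha, rfl⟩
      exact (hφ0 a).2 ha
    exact this hf

theorem idealOf_isPrime (U : Submodule K (Fin n → K)) : (idealOf U).IsPrime := by
  obtain ⟨s, φ, h1, -⟩ := exists_hom U
  have : idealOf U = RingHom.ker φ := by
    ext f; rw [← h1, RingHom.mem_ker]
  rw [this]
  exact RingHom.ker_isPrime φ

theorem lin_mem_idealOf_iff (U : Submodule K (Fin n → K)) (a : Fin n → K) :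
    lin a ∈ idealOf U ↔ a ∈ U := by
  obtain ⟨s, φ, h1, h2⟩ := exists_hom U
  rw [← h1, h2]

theorem idealOf_span (S : Set (Fin n → K)) :
    idealOf (Submodule.span K S) = Ideal.span (lin '' S) := by
  apply le_antisymm
  · refine Ideal.span_le.2 ?_
    rintro _ ⟨a, ha, rfl⟩
    induction ha using Submodule.span_induction with
    | mem a ha => exact Ideal.subset_span ⟨a, ha, rfl⟩
    | zero => rw [lin_zero]; exact Ideal.zero_mem _
    | add a b _ _ iha ihb => rw [lin_add]; exact Ideal.add_mem _ iha ihb
    | smul c a _ iha => rw [lin_smul]; exact Ideal.mul_mem_left _ _ iha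
  · exact Ideal.span_mono (Set.image_mono Submodule.subset_span)

theorem prime_lin {a : Fin n → K} (ha : a ≠ 0) : Prime (lin a) := by
  rw [← Ideal.span_singleton_prime (lin_eq_zero.not.2 ha)]
  have := idealOf_isPrime (Submodule.span K {a})
  rwa [idealOf_span, Set.image_singleton] at this

theorem pair_isPrime (a b : Fin n → K) : (Ideal.span {lin a, lin b}).IsPrime := by
  have := idealOf_isPrime (Submodule.span K {a, b})
  rwa [idealOf_span, Set.image_pair] at this

theorem lin_mem_pair {a b c : Fin n → K} :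
    lin c ∈ Ideal.span {lin a, lin b} ↔ c ∈ Submodule.span K {a, b} := by
  rw [← lin_mem_idealOf_iff, idealOf_span, Set.image_pair]

theorem lin_mem_single {a c : Fin n → K} :
    lin c ∈ Ideal.span {lin a} ↔ c ∈ Submodule.span K {a} := by
  rw [← lin_mem_idealOf_iff, idealOf_span, Set.image_singleton]

end Pool.Agent.Q86.Residue
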