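import Mathlib
import Pool.Agent.Q86.ResLin

set_option autoImplicit false

universe u v

namespace Pool.Agent.Q86.Residue

open MvPolynomial

/-- A (central) hyperplane arrangement in `K^ℓ`: finitely many nonzero, pairwise non-proportional
linear forms, given by their coefficient vectors `form h`. -/
structure Arr (K : Type u) [Field K] (ℓ : ℕ) where
  num : ℕ
  form : Fin num → (Fin ℓ → K)
  form_ne : ∀ h, form h ≠ 0
  form_nonprop : ∀ h h', h ≠ h' → ∀ c : K, form h ≠ c • form h'

namespace Arr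

variable {K : Type u} [Field K] {ℓ : ℕ} (A : Arr K ℓ)

/-- The defining linear form `α_H`. -/
noncomputable def α (h : Fin A.num) : MvPolynomial (Fin ℓ) K := lin (A.form h)

/-- `θ = ∑ θ_i ∂_i` is a logarithmic derivation: `θ(α_H) ∈ (α_H)` for all `H`. -/
def IsDer (θ : Fin ℓ → MvPolynomial (Fin ℓ) K) : Prop :=
  ∀ h, A.α h ∣ ∑ i, C (A.form h i) * θ i

theorem isDer_add {θ η : Fin ℓ → MvPolynomial (Fin ℓ) K} (hθ : A.IsDer θ) (hη : A.IsDer η) :
    A.IsDer (θ + η) := by
  intro h
  simp only [Pi.add_apply, mul_add, Finset.sum_add_distrib]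
  exact dvd_add (hθ h) (hη h)

theorem isDer_zero : A.IsDer 0 := by intro h; simp

theorem isDer_smul (c : MvPolynomial (Fin ℓ) K) {θ : Fin ℓ → MvPolynomial (Fin ℓ) K}
    (hθ : A.IsDer θ) : A.IsDer (c • θ) := by
  intro h
  have : ∑ i, C (A.form h i) * (c • θ) i = c * ∑ i, C (A.form h i) * θ i := by
    rw [Finset.mul_sum]
    exact Finset.sum_congr rfl fun i _ => by
      simp only [Pi.smul_apply, smul_eq_mul]; ring
  rw [this]
  exact Dvd.dvd.mul_left (hθ h) c

/-- The module `D(A)` of logarithmic derivations. -/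
noncomputable def der : Submodule (MvPolynomial (Fin ℓ) K) (Fin ℓ → MvPolynomial (Fin ℓ) K) where
  carrier := {θ | A.IsDer θ}
  add_mem' := A.isDer_add
  zero_mem' := A.isDer_zero
  smul_mem' := A.isDer_smul

/-- `A` is free if `D(A)` is a free module. -/
def IsFree : Prop := Module.Free (MvPolynomial (Fin ℓ) K) A.der

/-- `ω = Q⁻¹ ∑ f_i dx_i` is a logarithmic 1-form: `(∑ f_i dx_i) ∧ dα_H ∈ α_H Ω²` for all `H`. -/
def IsLog (f : Fin ℓ → MvPolynomial (Fin ℓ) K) : Prop :=
  ∀ h i j, A.α h ∣ C (A.form h j) * f i - C (A.form h i) * f j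

theorem isLog_add {f g : Fin ℓ → MvPolynomial (Fin ℓ) K} (hf : A.IsLog f) (hg : A.IsLog g) :
    A.IsLog (f + g) := by
  intro h i j
  have : C (A.form h j) * (f + g) i - C (A.form h i) * (f + g) j =
    (C (A.form h j) * f i - C (A.form h i) * f j) +
    (C (A.form h j) * g i - C (A.form h i) * g j) := by
    simp only [Pi.add_apply]; ring
  rw [this]
  exact dvd_add (hf h i j) (hg h i j)

theorem isLog_zero : A.IsLog 0 := by intro h i j; simp

theorem isLog_smul (c : MvPolynomial (Fin ℓ) K) {f : Fin ℓ → MvPolynomial (Fin ℓ) K}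
    (hf : A.IsLog f) : A.IsLog (c • f) := by
  intro h i j
  have : C (A.form h j) * (c • f) i - C (A.form h i) * (c • f) j =
    c * (C (A.form h j) * f i - C (A.form h i) * f j) := by
    simp only [Pi.smul_apply, smul_eq_mul]; ring
  rw [this]
  exact Dvd.dvd.mul_left (hf h i j) c

/-- The module `Ω¹(A)` of logarithmic 1-forms `ω = Q⁻¹ ∑ f_i dx_i`, represented by `f`. -/
noncomputable def omega : Submodule (MvPolynomial (Fin ℓ) K)
    (Fin ℓ → MvPolynomial (Fin ℓ) K) where
  carrier := {f | A.IsLog f}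
  add_mem' := A.isLog_add
  zero_mem' := A.isLog_zero
  smul_mem' := A.isLog_smul

/-- The submodule `Ω¹(A ∖ {H}) ⊆ Ω¹(A)`: the forms `Q⁻¹ f` with `f = α_H g`, where
`(Q/α_H)⁻¹ g` is logarithmic along all the hyperplanes different from `H`. -/
def IsDel (H : Fin A.num) (f : Fin ℓ → MvPolynomial (Fin ℓ) K) : Prop :=
  ∃ g : Fin ℓ → MvPolynomial (Fin ℓ) K, (∀ i, f i = A.α H * g i) ∧
    ∀ h, h ≠ H → ∀ i j, A.α h ∣ C (A.form h j) * g i - C (A.form h i) * g j

/-- The coordinate ring `S/(α_H)` of the hyperplane `H`. -/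
abbrev OH (H : Fin A.num) : Type u := MvPolynomial (Fin ℓ) K ⧸ Ideal.span {A.α H}

/-- `ρ` is an `S`-linear map `Ω¹(A) → S/(α_H)` with kernel `Ω¹(A ∖ {H})` (only the values of
`ρ` on logarithmic forms matter). -/
structure IsResidueMap (H : Fin A.num) (ρ : (Fin ℓ → MvPolynomial (Fin ℓ) K) → A.OH H) :
    Prop where
  map_add : ∀ f g, A.IsLog f → A.IsLog g → ρ (f + g) = ρ f + ρ g
  map_smul : ∀ c f, A.IsLog f → ρ (c • f) = Ideal.Quotient.mk (Ideal.span {A.α H}) c * ρ f
  ker : ∀ f, A.IsLog f → (ρ f = 0 ↔ A.IsDel H f)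

/-- `J` is a residue ideal of `A` along `H`: the image of an `S`-linear map
`Ω¹(A) → S/(α_H)` whose kernel is `Ω¹(A ∖ {H})`. -/
def IsResidueIdeal (H : Fin A.num) (J : Ideal (A.OH H)) : Prop :=
  ∃ ρ : (Fin ℓ → MvPolynomial (Fin ℓ) K) → A.OH H,
    A.IsResidueMap H ρ ∧ ∀ z, z ∈ J ↔ ∃ f, A.IsLog f ∧ ρ f = z

theorem α_prime (h : Fin A.num) : Prime (A.α h) := prime_lin (A.form_ne h)

theorem α_relPrime {h h' : Fin A.num} (hh : h ≠ h') : IsRelPrime (A.α h) (A.α h') := by
  rw [(A.α_prime h).irreducible.isRelPrime_iff_not_dvd]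
  intro hd
  have h1 : lin (A.form h') ∈ Ideal.span {lin (A.form h)} := Ideal.mem_span_singleton.2 hd
  rw [lin_mem_single, Submodule.mem_span_singleton] at h1
  obtain ⟨c, hc⟩ := h1
  exact A.form_nonprop h' h (Ne.symm hh) c hc.symm

/-- `Q` -/
noncomputable def Q : MvPolynomial (Fin ℓ) K := ∏ h, A.α h

theorem Q_ne : A.Q ≠ 0 := Finset.prod_ne_zero_iff.2 fun h _ => (A.α_prime h).ne_zero

theorem Q_dvd {x : MvPolynomial (Fin ℓ) K} (h : ∀ i, A.α i ∣ x) : A.Q ∣ x :=
  Fintype.prod_dvd_of_isRelPrime (fun _ _ hij => A.α_relPrime hij) h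

theorem α_dvd_Q (h : Fin A.num) : A.α h ∣ A.Q := Finset.dvd_prod_of_mem _ (Finset.mem_univ h)

theorem pairing {f θ : Fin ℓ → MvPolynomial (Fin ℓ) K} (hf : f ∈ A.omega) (hθ : θ ∈ A.der) :
    A.Q ∣ ∑ i, f i * θ i := by
  apply A.Q_dvd
  intro h
  obtain ⟨i, hi⟩ : ∃ i, A.form h i ≠ 0 := by
    by_contra hcon
    push Not at hcon
    exact A.form_ne h (funext hcon)
  have h1 : C (A.form h i) * ∑ k, f k * θ k =
      (∑ k, (C (A.form h i) * f k - C (A.form h k) * f i) * θ k) +
        f i * ∑ k, C (A.form h k) * θ k := by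
    rw [Finset.mul_sum, Finset.mul_sum, ← Finset.sum_add_distrib]
    exact Finset.sum_congr rfl fun k _ => by ring
  have h2 : A.α h ∣ C (A.form h i) * ∑ k, f k * θ k := by
    rw [h1]
    refine dvd_add (Finset.dvd_sum fun k _ => Dvd.dvd.mul_right (hf h k i) _)
      (Dvd.dvd.mul_left (hθ h) _)
  rcases (A.α_prime h).dvd_or_dvd h2 with h3 | h3
  · exfalso
    have hu : IsUnit (C (A.form h i) : MvPolynomial (Fin ℓ) K) :=
      (isUnit_iff_ne_zero.2 hi).map C
    exact (A.α_prime h).not_unit (isUnit_of_dvd_unit h3 hu)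
  · exact h3

theorem Q_single_mem (i : Fin ℓ) : (Pi.single i A.Q : Fin ℓ → MvPolynomial (Fin ℓ) K) ∈ A.der := by
  intro h
  refine Finset.dvd_sum fun k _ => Dvd.dvd.mul_left ?_ _
  by_cases hk : k = i
  · subst hk; rw [Pi.single_eq_same]; exact A.α_dvd_Q h
  · rw [Pi.single_eq_of_ne hk]; exact dvd_zero _

/-- If `A` is free then `Ω¹(A)` is generated by at most `ℓ` elements. -/
theorem omega_gen (hA : A.IsFree) : ∃ (r : ℕ) (g : Fin r → A.omega), r ≤ ℓ ∧
    Submodule.span (MvPolynomial (Fin ℓ) K) (Set.range g) = ⊤ := by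
  classical
  haveI : Module.Free (MvPolynomial (Fin ℓ) K) A.der := hA
  haveI : Module.Finite (MvPolynomial (Fin ℓ) K) A.der :=
    Module.Finite.of_fg (IsNoetherian.noetherian _)
  let b := Module.finBasis (MvPolynomial (Fin ℓ) K) A.der
  set r := Module.finrank (MvPolynomial (Fin ℓ) K) A.der with hr
  have hrl : r ≤ ℓ := by
    have := Submodule.finrank_le A.der
    simpa using this
  -- dual coordinates
  let g : Fin r → Fin ℓ → MvPolynomial (Fin ℓ) K := fun j i =>
    b.repr ⟨Pi.single i A.Q, A.Q_single_mem i⟩ j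
  have hg : ∀ j, g j ∈ A.omega := by
    intro j h i k
    -- the derivation (Q/α_h)(a_k ∂_i - a_i ∂_k)
    obtain ⟨q, hq⟩ := A.α_dvd_Q h
    have hη : (Pi.single i (q * C (A.form h k)) - Pi.single k (q * C (A.form h i)) :
        Fin ℓ → MvPolynomial (Fin ℓ) K) ∈ A.der := by
      intro h'
      have h1 : ∑ x, C (A.form h' x) * (Pi.single i (q * C (A.form h k)) -
          Pi.single k (q * C (A.form h i)) : Fin ℓ → MvPolynomial (Fin ℓ) K) x =
          q * (C (A.form h' i * A.form h k) - C (A.form h' k * A.form h i)) := by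
        simp only [Pi.sub_apply, mul_sub, Finset.sum_sub_distrib, Pi.single_apply, mul_ite,
          mul_zero, Finset.sum_ite_eq', Finset.mem_univ, if_true, C_mul]
        ring
      rw [h1]
      by_cases hh : h' = h
      · subst hh
        rw [mul_comm (A.form h' i), sub_self, mul_zero]
        exact dvd_zero _
      · refine Dvd.dvd.mul_right ?_ _
        have h2 : A.α h' ∣ A.α h * q := hq ▸ A.α_dvd_Q h'
        exact (A.α_relPrime hh).dvd_of_dvd_mul_left h2
    refine ⟨b.repr ⟨_, hη⟩ j, ?_⟩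
    have h3 : (C (A.form h k) : MvPolynomial (Fin ℓ) K) •
          (⟨Pi.single i A.Q, A.Q_single_mem i⟩ : A.der) -
        (C (A.form h i) : MvPolynomial (Fin ℓ) K) •
          (⟨Pi.single k A.Q, A.Q_single_mem k⟩ : A.der) =
        A.α h • (⟨_, hη⟩ : A.der) := by
      apply Subtype.ext
      simp only [Submodule.coe_sub, Submodule.coe_smul]
      ext1 x
      simp only [Pi.sub_apply, Pi.smul_apply, smul_eq_mul, Pi.single_apply, hq]
      split_ifs <;> ring
    have h4 := congrArg (fun z => b.repr z j) h3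
    simp only [map_sub, map_smul, Finsupp.sub_apply, Finsupp.smul_apply, smul_eq_mul] at h4
    exact h4
  refine ⟨r, fun j => ⟨g j, hg j⟩, hrl, ?_⟩
  rw [eq_top_iff]
  rintro ⟨f, hf⟩ -
  -- the coefficients
  have hc : ∀ j, ∃ c, ∑ i, f i * (b j : Fin ℓ → MvPolynomial (Fin ℓ) K) i = A.Q * c := fun j =>
    A.pairing hf (b j).2
  choose c hc using hc
  have key : (⟨f, hf⟩ : A.omega) = ∑ j, c j • (⟨g j, hg j⟩ : A.omega) := by
    apply Subtype.ext
    rw [AddSubmonoidClass.coe_finset_sum]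
    ext1 i
    rw [Finset.sum_apply]
    simp only [Submodule.coe_smul, Pi.smul_apply, smul_eq_mul]
    apply mul_left_cancel₀ A.Q_ne
    have h5 : ∀ x, (Pi.single i A.Q : Fin ℓ → MvPolynomial (Fin ℓ) K) x =
        ∑ j, g j i * (b j : Fin ℓ → MvPolynomial (Fin ℓ) K) x := by
      intro x
      have h6 := congrArg (fun z : A.der => (z : Fin ℓ → MvPolynomial (Fin ℓ) K) x)
        (b.sum_repr ⟨Pi.single i A.Q, A.Q_single_mem i⟩)
      simp only [AddSubmonoidClass.coe_finset_sum, Finset.sum_apply, Submodule.coe_smul,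
        Pi.smul_apply, smul_eq_mul] at h6
      exact h6.symm
    calc A.Q * f i = ∑ x, f x * (Pi.single i A.Q : Fin ℓ → MvPolynomial (Fin ℓ) K) x := by
          rw [Finset.sum_eq_single i]
          · rw [Pi.single_eq_same, mul_comm]
          · intro x _ hx; rw [Pi.single_eq_of_ne hx, mul_zero]
          · intro h; exact absurd (Finset.mem_univ _) h
      _ = ∑ x, ∑ j, f x * (g j i * (b j : Fin ℓ → MvPolynomial (Fin ℓ) K) x) := by
          refine Finset.sum_congr rfl fun x _ => ?_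
          rw [h5 x, Finset.mul_sum]
      _ = ∑ j, g j i * ∑ x, f x * (b j : Fin ℓ → MvPolynomial (Fin ℓ) K) x := by
          rw [Finset.sum_comm]
          refine Finset.sum_congr rfl fun j _ => ?_
          rw [Finset.mul_sum]
          exact Finset.sum_congr rfl fun x _ => by ring
      _ = A.Q * ∑ j, c j * g j i := by
          rw [Finset.mul_sum]
          refine Finset.sum_congr rfl fun j _ => ?_
          rw [hc j]; ring
  rw [key]
  exact Submodule.sum_mem _ fun j _ => Submodule.smul_mem _ _ (Submodule.subset_span ⟨j, rfl⟩)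

/-- Residue ideals of free arrangements in `K^ℓ` have at most `ℓ` generators. -/
theorem residue_gen (hA : A.IsFree) {H : Fin A.num} {J : Ideal (A.OH H)}
    (hJ : A.IsResidueIdeal H J) :
    ∃ (r : ℕ) (g : Fin r → MvPolynomial (Fin ℓ) K ⧸ Ideal.span {A.α H}), r ≤ ℓ ∧
      J = Ideal.span (Set.range g) := by
  obtain ⟨r, g, hr, hg⟩ := A.omega_gen hA
  obtain ⟨ρ, hρ', hρ⟩ := hJ
  have h0 : ρ 0 = 0 := by
    have := hρ'.map_smul 0 0 A.isLog_zero
    rw [map_zero, zero_mul, zero_smul] at this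
    exact this
  refine ⟨r, fun j => ρ (g j), hr, ?_⟩
  apply le_antisymm
  · intro z hz
    obtain ⟨f, hf, rfl⟩ := (hρ z).1 hz
    have hω : (⟨f, hf⟩ : A.omega) ∈
      Submodule.span (MvPolynomial (Fin ℓ) K) (Set.range g) := hg ▸ trivial
    have key : ∀ ω : A.omega, ω ∈ Submodule.span (MvPolynomial (Fin ℓ) K) (Set.range g) →
        ρ ω ∈ Ideal.span (Set.range fun j => ρ (g j)) := by
      intro ω hω
      induction hω using Submodule.span_induction with
      | mem x hx => obtain ⟨j, rfl⟩ := hx; exact Ideal.subset_span ⟨j, rfl⟩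
      | zero => rw [Submodule.coe_zero, h0]; exact Ideal.zero_mem _
      | add x y _ _ hx hy =>
        rw [Submodule.coe_add, hρ'.map_add _ _ x.2 y.2]
        exact Ideal.add_mem _ hx hy
      | smul c x _ hx =>
        rw [Submodule.coe_smul, hρ'.map_smul _ _ x.2]
        exact Ideal.mul_mem_left _ _ hx
    exact key _ hω
  · refine Ideal.span_le.2 ?_
    rintro _ ⟨j, rfl⟩
    exact (hρ _).2 ⟨g j, (g j).2, rfl⟩

end Arr

end Pool.Agent.Q86.Residue
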