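import Mathlib
import Pool.Agent.Q86.ResLin

set_option autoImplicit false

universe u v

namespace Pool.Agent.Q86.Residue

open MvPolynomial

section star
variable {S : Type u} [CommRing S] {ι : Type v} [DecidableEq ι]

/-- the ideal of the star configuration of the forms `l i`, `i ∈ s` -/
def starIdeal (l : ι → S) (s : Finset ι) : Ideal S :=
  ⨅ i ∈ s, ⨅ j ∈ s, ⨅ (_ : i ≠ j), Ideal.span {l i, l j}

theorem mem_starIdeal {l : ι → S} {s : Finset ι} {f : S} :
    f ∈ starIdeal l s ↔ ∀ i ∈ s, ∀ j ∈ s, i ≠ j → f ∈ Ideal.span {l i, l j} := by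
  simp [starIdeal, Submodule.mem_iInf]

/-- Hypotheses on the forms: any two generate a prime ideal containing no third one. -/
structure Good (l : ι → S) : Prop where
  prime : ∀ i j, i ≠ j → (Ideal.span {l i, l j}).IsPrime
  notMem : ∀ i j k, i ≠ j → k ≠ i → k ≠ j → l k ∉ Ideal.span {l i, l j}

variable {l : ι → S}

theorem prod_notMem (hl : Good l) {i j : ι} (hij : i ≠ j) {s : Finset ι} (hi : i ∉ s)
    (hj : j ∉ s) : ∏ k ∈ s, l k ∉ Ideal.span {l i, l j} := by
  haveI := hl.prime i j hij
  induction s using Finset.induction_on with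
  | empty =>
    rw [Finset.prod_empty, ← Ideal.eq_top_iff_one]
    exact Ideal.IsPrime.ne_top'
  | insert k s hk ih =>
    rw [Finset.prod_insert hk]
    intro h
    rcases Ideal.IsPrime.mem_or_mem inferInstance h with h | h
    · refine hl.notMem i j k hij ?_ ?_ h
      · rintro rfl; exact hi (Finset.mem_insert_self _ _)
      · rintro rfl; exact hj (Finset.mem_insert_self _ _)
    · exact ih (fun h' => hi (Finset.mem_insert_of_mem h'))
        (fun h' => hj (Finset.mem_insert_of_mem h')) h

/-- Lemma M -/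
theorem mem_prod_of_forall (hl : Good l) (c : ι) (s : Finset ι) (hc : c ∉ s) (f : S)
    (h : ∀ i ∈ s, f ∈ Ideal.span {l i, l c}) : f ∈ Ideal.span {∏ k ∈ s, l k, l c} := by
  induction s using Finset.induction_on with
  | empty =>
    rw [Finset.prod_empty]
    have : Ideal.span {(1 : S), l c} = ⊤ :=
      (Ideal.eq_top_iff_one _).2 (Ideal.subset_span (by simp))
    rw [this]; trivial
  | insert i s hi ih =>
    have hci : i ≠ c := by rintro rfl; exact hc (Finset.mem_insert_self _ _)
    have hcs : c ∉ s := fun h' => hc (Finset.mem_insert_of_mem h')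
    haveI := hl.prime i c hci
    obtain ⟨u, g, hug⟩ := Ideal.mem_span_pair.1
      (ih hcs fun j hj => h j (Finset.mem_insert_of_mem hj))
    have h1 : u * ∏ k ∈ s, l k ∈ Ideal.span {l i, l c} := by
      have h2 := h i (Finset.mem_insert_self _ _)
      rw [← hug] at h2
      have h3 : g * l c ∈ Ideal.span {l i, l c} :=
        Ideal.mul_mem_left _ _ (Ideal.subset_span (by simp))
      exact (Submodule.add_mem_iff_left _ h3).1 h2
    have h2 : u ∈ Ideal.span {l i, l c} :=
      (Ideal.IsPrime.mem_or_mem inferInstance h1).resolve_right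
        (prod_notMem hl hci hi hcs)
    obtain ⟨u', u'', hu⟩ := Ideal.mem_span_pair.1 h2
    refine Ideal.mem_span_pair.2 ⟨u', u'' * ∏ k ∈ s, l k + g, ?_⟩
    rw [Finset.prod_insert hi, ← hug, ← hu]
    ring

theorem prod_erase_mem {i : ι} {s : Finset ι} (hi : i ∈ s) :
    ∏ k ∈ s.erase i, l k ∈ starIdeal l s := by
  rw [mem_starIdeal]
  intro a ha b hb hab
  by_cases h : a = i
  · subst h
    obtain ⟨c, hc⟩ := Finset.dvd_prod_of_mem l (Finset.mem_erase.2 ⟨hab.symm, hb⟩)
    rw [hc]
    exact Ideal.mul_mem_right _ _ (Ideal.subset_span (by simp))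
  · obtain ⟨c, hc⟩ := Finset.dvd_prod_of_mem l (Finset.mem_erase.2 ⟨h, ha⟩)
    rw [hc]
    exact Ideal.mul_mem_right _ _ (Ideal.subset_span (by simp))

theorem starIdeal_mono {s t : Finset ι} (h : s ⊆ t) : starIdeal l t ≤ starIdeal l s := by
  intro f hf
  rw [mem_starIdeal] at hf ⊢
  exact fun i hi j hj => hf i (h hi) j (h hj)

/-- decomposition of the elements of the star ideal -/
theorem starIdeal_insert (hl : Good l) {c : ι} {s : Finset ι} (hc : c ∉ s) {f : S}
    (hf : f ∈ starIdeal l (insert c s)) :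
    ∃ u, ∃ g ∈ starIdeal l s, f = u * ∏ k ∈ s, l k + l c * g := by
  rw [mem_starIdeal] at hf
  have h1 := mem_prod_of_forall hl c s hc f (fun i hi => hf i (Finset.mem_insert_of_mem hi) c
    (Finset.mem_insert_self _ _) (by rintro rfl; exact hc hi))
  obtain ⟨u, g, hug⟩ := Ideal.mem_span_pair.1 h1
  refine ⟨u, g, ?_, by rw [← hug]; ring⟩
  rw [mem_starIdeal]
  intro i hi j hj hij
  haveI := hl.prime i j hij
  have h2 : ∏ k ∈ s, l k ∈ Ideal.span {l i, l j} := by
    obtain ⟨q, hq⟩ := Finset.dvd_prod_of_mem l hi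
    rw [hq]
    exact Ideal.mul_mem_right _ _ (Ideal.subset_span (by simp))
  have h3 : g * l c ∈ Ideal.span {l i, l j} := by
    have h4 := hf i (Finset.mem_insert_of_mem hi) j (Finset.mem_insert_of_mem hj) hij
    rw [← hug] at h4
    exact (Submodule.add_mem_iff_right _ (Ideal.mul_mem_left _ _ h2)).1 h4
  exact (Ideal.IsPrime.mem_or_mem inferInstance h3).resolve_right
    (hl.notMem i j c hij (by rintro rfl; exact hc hi) (by rintro rfl; exact hc hj))

theorem mul_mem_insert {c : ι} {s : Finset ι} {g : S} (hg : g ∈ starIdeal l s) :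
    l c * g ∈ starIdeal l (insert c s) := by
  rw [mem_starIdeal] at hg ⊢
  intro i hi j hj hij
  rcases Finset.mem_insert.1 hi with rfl | hi
  · exact Ideal.mul_mem_right _ _ (Ideal.subset_span (by simp))
  · rcases Finset.mem_insert.1 hj with rfl | hj
    · exact Ideal.mul_mem_right _ _ (Ideal.subset_span (by simp))
    · exact Ideal.mul_mem_left _ _ (hg i hi j hj hij)

theorem prod_mem_insert {c : ι} {s : Finset ι} (hc : c ∉ s) :
    ∏ k ∈ s, l k ∈ starIdeal l (insert c s) := by
  have := prod_erase_mem (l := l) (Finset.mem_insert_self c s)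
  rwa [Finset.erase_insert hc] at this

/-- the star ideal is generated by the products of all forms but one -/
theorem starIdeal_eq (hl : Good l) (s : Finset ι) (hs : s.Nonempty) :
    starIdeal l s = Ideal.span ((fun i => ∏ k ∈ s.erase i, l k) '' s) := by
  apply le_antisymm
  · induction hs using Finset.Nonempty.cons_induction with
    | singleton a =>
      intro f _
      have : Ideal.span ((fun i => ∏ k ∈ ({a} : Finset ι).erase i, l k) ''
          (({a} : Finset ι) : Set ι)) = ⊤ := by
        rw [Ideal.eq_top_iff_one]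
        exact Ideal.subset_span ⟨a, by simp, by simp⟩
      rw [this]; trivial
    | cons c s hc hs ih =>
      rw [Finset.cons_eq_insert]
      intro f hf
      obtain ⟨u, g, hg, rfl⟩ := starIdeal_insert hl hc hf
      refine Ideal.add_mem _ (Ideal.mul_mem_left _ _ (Ideal.subset_span
        ⟨c, by simp, by simp [Finset.erase_insert hc]⟩)) ?_
      have h1 := ih hg
      clear hg hf
      induction h1 using Submodule.span_induction with
      | mem x hx =>
        obtain ⟨i, hi, rfl⟩ := hx
        have hic : i ≠ c := by rintro rfl; exact hc hi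
        refine Ideal.subset_span ⟨i, by simp [Finset.mem_coe.1 hi], ?_⟩
        simp only
        rw [Finset.erase_insert_of_ne hic.symm, Finset.prod_insert]
        intro h; exact hc (Finset.mem_of_mem_erase h)
      | zero => rw [mul_zero]; exact Ideal.zero_mem _
      | add x y _ _ hx hy => rw [mul_add]; exact Ideal.add_mem _ hx hy
      | smul r x _ hx =>
        rw [smul_eq_mul, mul_left_comm]; exact Ideal.mul_mem_left _ _ hx
  · refine Ideal.span_le.2 ?_
    rintro _ ⟨i, hi, rfl⟩
    exact prod_erase_mem hi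

/-- A pair of parameters for all the pairs of forms. -/
structure Param (l : ι → S) (x y : S) : Prop where
  hx : ∀ i j, i ≠ j → x ∉ Ideal.span {l i, l j}
  hy : ∀ i j, i ≠ j → ∀ a, y * a ∈ Ideal.span {l i, l j, x} → a ∈ Ideal.span {l i, l j, x}

variable {x y : S}

theorem mem_triple {a b c f : S} : f ∈ Ideal.span {a, b, c} ↔ ∃ p q r, f = p * a + q * b + r * c := by
  rw [Ideal.mem_span_insert]
  constructor
  · rintro ⟨p, z, hz, rfl⟩
    obtain ⟨q, r, rfl⟩ := Ideal.mem_span_pair.1 hz
    exact ⟨p, q, r, by ring⟩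
  · rintro ⟨p, q, r, rfl⟩
    exact ⟨p, q * b + r * c, Ideal.mem_span_pair.2 ⟨q, r, rfl⟩, by ring⟩

theorem x_reg_prod (hl : Good l) (hp : Param l x y) {c : ι} {s : Finset ι} (hc : c ∉ s) {a : S}
    (h : x * a ∈ Ideal.span {∏ k ∈ s, l k, l c}) : a ∈ Ideal.span {∏ k ∈ s, l k, l c} := by
  apply mem_prod_of_forall hl c s hc
  intro i hi
  have hic : i ≠ c := by rintro rfl; exact hc hi
  haveI := hl.prime i c hic
  refine (Ideal.IsPrime.mem_or_mem inferInstance ?_).resolve_left (hp.hx i c hic)
  obtain ⟨u, v, huv⟩ := Ideal.mem_span_pair.1 h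
  obtain ⟨q, hq⟩ := Finset.dvd_prod_of_mem l hi
  rw [← huv, hq]
  exact Ideal.mem_span_pair.2 ⟨u * q, v, by ring⟩

/-- Lemma N, second half -/
theorem y_reg_prod (hl : Good l) (hp : Param l x y) (hd : ∀ i, (Ideal.span {l i}).IsPrime)
    (hd2 : ∀ i j, i ≠ j → l i ∉ Ideal.span {l j}) {c : ι} (s : Finset ι) (hc : c ∉ s) (a : S)
    (h : y * a ∈ Ideal.span {∏ k ∈ s, l k, l c, x}) : a ∈ Ideal.span {∏ k ∈ s, l k, l c, x} := by
  induction s using Finset.induction_on generalizing a with
  | empty =>
    have : Ideal.span {∏ k ∈ (∅ : Finset ι), l k, l c, x} = ⊤ := by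
      rw [Ideal.eq_top_iff_one]; exact Ideal.subset_span (by simp)
    rw [this]; trivial
  | insert i s hi ih =>
    have hci : i ≠ c := by rintro rfl; exact hc (Finset.mem_insert_self _ _)
    have hcs : c ∉ s := fun h' => hc (Finset.mem_insert_of_mem h')
    haveI := hl.prime i c hci
    haveI := hd c
    rw [Finset.prod_insert hi] at h ⊢
    obtain ⟨u, v, w, h1⟩ := mem_triple.1 h
    -- modulo (l_i, l_c)
    have h2 : a ∈ Ideal.span {l i, l c, x} := by
      apply hp.hy i c hci
      rw [h1]
      exact mem_triple.2 ⟨u * ∏ k ∈ s, l k, v, w, by ring⟩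
    obtain ⟨a2, a1, a3, h3⟩ := mem_triple.1 h2
    have h4 : x * (w - y * a3) ∈ Ideal.span {l i, l c} := by
      refine Ideal.mem_span_pair.2 ⟨y * a2 - u * ∏ k ∈ s, l k, y * a1 - v, ?_⟩
      have : x * (w - y * a3) = y * a - u * (l i * ∏ k ∈ s, l k) - v * l c - y * a3 * x := by
        rw [h1]; ring
      rw [this, h3]; ring
    have h5 : w - y * a3 ∈ Ideal.span {l i, l c} :=
      (Ideal.IsPrime.mem_or_mem inferInstance h4).resolve_left (hp.hx i c hci)
    obtain ⟨w2, w1, h6⟩ := Ideal.mem_span_pair.1 h5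
    have h7 : l i * (y * a2 - u * ∏ k ∈ s, l k - x * w2) ∈ Ideal.span {l c} := by
      refine Ideal.mem_span_singleton'.2 ⟨v + x * w1 - y * a1, ?_⟩
      have e1 : y * a = u * (l i * ∏ k ∈ s, l k) + v * l c + w * x := h1
      have e2 : w = w2 * l i + w1 * l c + y * a3 := by rw [h6]; ring
      rw [h3, e2] at e1
      linear_combination -e1
    have h8 : y * a2 - u * ∏ k ∈ s, l k - x * w2 ∈ Ideal.span {l c} :=
      (Ideal.IsPrime.mem_or_mem inferInstance h7).resolve_left (hd2 i c hci)
    obtain ⟨t, ht⟩ := Ideal.mem_span_singleton'.1 h8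
    have h9 : a2 ∈ Ideal.span {∏ k ∈ s, l k, l c, x} := by
      apply ih hcs
      exact mem_triple.2 ⟨u, t, w2, by linear_combination -ht⟩
    obtain ⟨b1, b2, b3, h10⟩ := mem_triple.1 h9
    refine mem_triple.2 ⟨b1, b2 * l i + a1, b3 * l i + a3, ?_⟩
    rw [h3, h10]; ring

/-- `x` is a nonzerodivisor modulo the star ideal. -/
theorem x_reg (hl : Good l) (hp : Param l x y) (s : Finset ι) (a : S)
    (h : x * a ∈ starIdeal l s) : a ∈ starIdeal l s := by
  rw [mem_starIdeal] at h ⊢
  intro i hi j hj hij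
  haveI := hl.prime i j hij
  exact (Ideal.IsPrime.mem_or_mem inferInstance (h i hi j hj hij)).resolve_left (hp.hx i j hij)

/-- `y` is a nonzerodivisor modulo the star ideal and `x`. -/
theorem y_reg (hl : Good l) (hp : Param l x y) (hd : ∀ i, (Ideal.span {l i}).IsPrime)
    (hd2 : ∀ i j, i ≠ j → l i ∉ Ideal.span {l j}) (s : Finset ι) (hs : s.Nonempty) (a : S)
    (h : ∃ b, y * a - x * b ∈ starIdeal l s) : ∃ b, a - x * b ∈ starIdeal l s := by
  induction hs using Finset.Nonempty.cons_induction generalizing a with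
  | singleton i =>
    refine ⟨0, ?_⟩
    rw [mem_starIdeal]
    intro j hj k hk hjk
    rw [Finset.mem_singleton] at hj hk
    exact absurd (hj.trans hk.symm) hjk
  | cons c s hc hs ih =>
    rw [Finset.cons_eq_insert] at h ⊢
    obtain ⟨b, hb⟩ := h
    obtain ⟨u, g, hg, h1⟩ := starIdeal_insert hl hc hb
    haveI := hd c
    -- modulo (l_c, prod)
    have h2 : a ∈ Ideal.span {∏ k ∈ s, l k, l c, x} := by
      apply y_reg_prod hl hp hd hd2 s hc
      exact mem_triple.2 ⟨u, g, b, by linear_combination h1⟩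
    obtain ⟨p, a', e, h3⟩ := mem_triple.1 h2
    have h4 : x * (b - y * e) ∈ Ideal.span {∏ k ∈ s, l k, l c} := by
      refine Ideal.mem_span_pair.2 ⟨y * p - u, y * a' - g, ?_⟩
      rw [h3] at h1
      linear_combination h1
    have h5 := x_reg_prod hl hp hc h4
    obtain ⟨b'', b', h6⟩ := Ideal.mem_span_pair.1 h5
    -- l_c (y a' - x b') ∈ I_n
    have h7 : l c * (y * a' - x * b') ∈ starIdeal l (insert c s) := by
      have e1 : l c * (y * a' - x * b') = (u + x * b'' - y * p) * ∏ k ∈ s, l k + l c * g := by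
        have e2 : b = b'' * ∏ k ∈ s, l k + b' * l c + y * e := by rw [h6]; ring
        rw [h3, e2] at h1
        linear_combination h1
      rw [e1]
      exact Ideal.add_mem _ (Ideal.mul_mem_left _ _ (prod_mem_insert hc)) (mul_mem_insert hg)
    have h8 : y * a' - x * b' ∈ starIdeal l s := by
      rw [mem_starIdeal] at h7 ⊢
      intro i hi j hj hij
      haveI := hl.prime i j hij
      exact (Ideal.IsPrime.mem_or_mem inferInstance
        (h7 i (Finset.mem_insert_of_mem hi) j (Finset.mem_insert_of_mem hj) hij)).resolve_left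
        (hl.notMem i j c hij (by rintro rfl; exact hc hi) (by rintro rfl; exact hc hj))
    obtain ⟨b2, hb2⟩ := ih a' ⟨b', h8⟩
    refine ⟨e + l c * b2, ?_⟩
    have : a - x * (e + l c * b2) = p * ∏ k ∈ s, l k + l c * (a' - x * b2) := by
      rw [h3]; ring
    rw [this]
    exact Ideal.add_mem _ (Ideal.mul_mem_left _ _ (prod_mem_insert hc)) (mul_mem_insert hb2)

end star

end Pool.Agent.Q86.Residue
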