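import Mathlib
import Pool.Agent.Q86.ResStar

set_option autoImplicit false

universe u v

namespace Pool.Agent.Q86.Residue

open MvPolynomial

variable {K : Type u} [Field K]

/-- The irrelevant maximal ideal. -/
noncomputable def irr (K : Type u) [Field K] (n : ℕ) : Ideal (MvPolynomial (Fin n) K) :=
  Ideal.span (Set.range X)

theorem exists_single_notMem {n : ℕ} (U : Submodule K (Fin n → K)) (hU : Module.finrank K U < n) :
    ∃ a, (Pi.single a 1 : Fin n → K) ∉ U := by
  classical
  by_contra hcon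
  push Not at hcon
  have : U = ⊤ := by
    rw [eq_top_iff]
    intro x _
    have hx : x = ∑ i, x i • (Pi.single i 1 : Fin n → K) := by
      ext j
      simp [Finset.sum_apply, Pi.single_apply]
    rw [hx]
    exact Submodule.sum_mem _ fun i _ => Submodule.smul_mem _ _ (hcon i)
  rw [this, finrank_top] at hU
  simp at hU

theorem finrank_pair_le {n : ℕ} (a b : Fin n → K) :
    Module.finrank K (Submodule.span K {a, b}) ≤ 2 := by
  classical
  have h := finrank_span_finset_le_card (R := K) ({a, b} : Finset (Fin n → K))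
  have h2 : ({a, b} : Finset (Fin n → K)).card ≤ 2 := Finset.card_le_two
  rw [Finset.coe_pair] at h
  exact le_trans h h2

theorem finrank_triple_le {n : ℕ} (a b c : Fin n → K) :
    Module.finrank K (Submodule.span K {a, b, c}) ≤ 3 := by
  classical
  have h := finrank_span_finset_le_card (R := K) ({a, b, c} : Finset (Fin n → K))
  have h2 : ({a, b, c} : Finset (Fin n → K)).card ≤ 3 := Finset.card_le_three
  rw [show ((({a, b, c} : Finset (Fin n → K)) : Set (Fin n → K))) = {a, b, c} by
    push_cast; rfl] at h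
  exact le_trans h h2

theorem X_mem_irr {n : ℕ} (a : Fin n) : (X a : MvPolynomial (Fin n) K) ∈ irr K n :=
  Ideal.subset_span ⟨a, rfl⟩

theorem lin_mem_irr {n : ℕ} (a : Fin n → K) : lin a ∈ irr K n :=
  Ideal.sum_mem _ fun i _ => Ideal.mul_mem_left _ _ (X_mem_irr i)

theorem one_notMem_irr {n : ℕ} : (1 : MvPolynomial (Fin n) K) ∉ irr K n := by
  intro h
  have h1 : irr K n ≤ RingHom.ker (constantCoeff (R := K) (σ := Fin n)) := by
    refine Ideal.span_le.2 ?_
    rintro _ ⟨i, rfl⟩
    simp [RingHom.mem_ker]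
  have := h1 h
  rw [RingHom.mem_ker, map_one] at this
  exact one_ne_zero this

variable {n : ℕ} (hn : 4 ≤ n) {ι : Type v} [Finite ι] (v : ι → Fin n → K)

include hn in
/-- avoidance of the primes `(l_i, l_j)` -/
theorem exists_x : ∃ x ∈ irr K n, ∀ i j : ι, i ≠ j → x ∉ Ideal.span {lin (v i), lin (v j)} := by
  classical
  by_contra hcon
  push Not at hcon
  let s : Set (ι × ι) := {p | p.1 ≠ p.2}
  have hsub : ((irr K n : Ideal (MvPolynomial (Fin n) K)) : Set (MvPolynomial (Fin n) K)) ⊆
      ⋃ p ∈ s, (fun p : ι × ι => Ideal.span {lin (v p.1), lin (v p.2)}) p := by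
    intro x hx
    obtain ⟨i, j, hij, h⟩ := hcon x hx
    exact Set.mem_biUnion (show (i, j) ∈ s from hij) h
  by_cases hs : s.Nonempty
  · obtain ⟨p0, hp0⟩ := hs
    rw [Ideal.subset_union_prime_finite (Set.toFinite s) p0 p0
      (fun p _ _ _ => pair_isPrime _ _)] at hsub
    obtain ⟨p, -, hp⟩ := hsub
    obtain ⟨a, ha⟩ := exists_single_notMem (Submodule.span K {v p.1, v p.2})
      (lt_of_le_of_lt (finrank_pair_le _ _) (by omega))
    apply ha
    rw [← lin_mem_pair, lin_single]
    exact hp (X_mem_irr a)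
  · rw [Set.not_nonempty_iff_eq_empty] at hs
    rw [hs] at hsub
    have := hsub (Ideal.zero_mem _)
    simp at this

theorem mem_triple_iff_dvd {S : Type u} [CommRing S] {a b x f : S} :
    f ∈ Ideal.span {a, b, x} ↔
      Ideal.Quotient.mk (Ideal.span {a, b}) x ∣ Ideal.Quotient.mk (Ideal.span {a, b}) f := by
  constructor
  · intro h
    obtain ⟨p, q, r, rfl⟩ := mem_triple.1 h
    refine ⟨Ideal.Quotient.mk _ r, ?_⟩
    rw [← map_mul, Ideal.Quotient.eq]
    exact Ideal.mem_span_pair.2 ⟨p, q, by ring⟩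
  · rintro ⟨c, hc⟩
    obtain ⟨r, rfl⟩ := Ideal.Quotient.mk_surjective c
    rw [← map_mul, Ideal.Quotient.eq] at hc
    obtain ⟨p, q, hpq⟩ := Ideal.mem_span_pair.1 hc
    exact mem_triple.2 ⟨p, q, r, by linear_combination -hpq⟩

theorem triple_isPrime {n : ℕ} (a b c : Fin n → K) :
    (Ideal.span {lin a, lin b, lin c}).IsPrime := by
  have := idealOf_isPrime (Submodule.span K {a, b, c})
  rwa [idealOf_span, Set.image_insert_eq, Set.image_pair] at this

theorem lin_mem_triple {n : ℕ} {a b c d : Fin n → K} :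
    lin d ∈ Ideal.span {lin a, lin b, lin c} ↔ d ∈ Submodule.span K {a, b, c} := by
  rw [← lin_mem_idealOf_iff, idealOf_span, Set.image_insert_eq, Set.image_pair]

include hn in
/-- the irrelevant ideal is not associated to `(l_i, l_j, x)` -/
theorem mem_of_irr_mul {a b : Fin n → K} {x h : MvPolynomial (Fin n) K}
    (hx : x ∉ Ideal.span {lin a, lin b})
    (hh : ∀ m ∈ irr K n, m * h ∈ Ideal.span {lin a, lin b, x}) :
    h ∈ Ideal.span {lin a, lin b, x} := by
  obtain ⟨s, hs⟩ := exists_single_notMem (Submodule.span K {a, b})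
    (lt_of_le_of_lt (finrank_pair_le _ _) (by omega))
  obtain ⟨t, ht⟩ := exists_single_notMem (Submodule.span K {a, b, Pi.single s 1})
    (lt_of_le_of_lt (finrank_triple_le _ _ _) (by omega))
  haveI := pair_isPrime (K := K) a b
  haveI : IsDomain (MvPolynomial (Fin n) K ⧸ Ideal.span {lin a, lin b}) :=
    Ideal.Quotient.isDomain _
  obtain ⟨p, hp⟩ := mem_triple_iff_dvd.1 (hh _ (X_mem_irr s))
  obtain ⟨q, hq⟩ := mem_triple_iff_dvd.1 (hh _ (X_mem_irr t))
  rw [map_mul] at hp hq
  have hx0 : Ideal.Quotient.mk (Ideal.span {lin a, lin b}) x ≠ 0 := by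
    rwa [Ne, Ideal.Quotient.eq_zero_iff_mem]
  have hs0 : Ideal.Quotient.mk (Ideal.span {lin a, lin b}) (X s : MvPolynomial (Fin n) K) ≠ 0 := by
    rw [Ne, Ideal.Quotient.eq_zero_iff_mem, ← lin_single, lin_mem_pair]
    exact hs
  have h1 : Ideal.Quotient.mk (Ideal.span {lin a, lin b}) (X t : MvPolynomial (Fin n) K) * p =
      Ideal.Quotient.mk (Ideal.span {lin a, lin b}) (X s : MvPolynomial (Fin n) K) * q := by
    apply mul_left_cancel₀ hx0
    linear_combination (-(Ideal.Quotient.mk (Ideal.span {lin a, lin b}))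
        (X t : MvPolynomial (Fin n) K)) * hp +
      ((Ideal.Quotient.mk (Ideal.span {lin a, lin b})) (X s : MvPolynomial (Fin n) K)) * hq
  -- X_s divides p
  obtain ⟨p0, rfl⟩ := Ideal.Quotient.mk_surjective p
  have h2 : X t * p0 ∈ Ideal.span {lin a, lin b, lin (Pi.single s (1 : K))} := by
    rw [lin_single]
    apply mem_triple_iff_dvd.2
    rw [map_mul, h1]
    exact dvd_mul_right _ _
  have h3 : p0 ∈ Ideal.span {lin a, lin b, lin (Pi.single s (1 : K))} := by
    refine ((triple_isPrime a b (Pi.single s (1 : K))).mem_or_mem h2).resolve_left ?_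
    rw [← lin_single, lin_mem_triple]
    exact ht
  rw [lin_single] at h3
  obtain ⟨p', hp'⟩ := mem_triple_iff_dvd.1 h3
  apply mem_triple_iff_dvd.2
  refine ⟨p', ?_⟩
  apply mul_left_cancel₀ hs0
  rw [hp, hp']; ring

include hn in
theorem exists_param :
    ∃ x ∈ irr K n, ∃ y ∈ irr K n, Param (fun i => lin (v i)) x y := by
  classical
  obtain ⟨x, hx, hx2⟩ := exists_x hn v
  -- the associated primes
  let P : Set (Ideal (MvPolynomial (Fin n) K)) := ⋃ p ∈ {p : ι × ι | p.1 ≠ p.2},
    associatedPrimes (MvPolynomial (Fin n) K)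
      (MvPolynomial (Fin n) K ⧸ Ideal.span {lin (v p.1), lin (v p.2), x})
  have hfin : P.Finite := Set.Finite.biUnion (Set.toFinite _) fun p _ =>
    associatedPrimes.finite _ _
  have hprime : ∀ I ∈ P, I.IsPrime := by
    intro I hI
    obtain ⟨p, -, hp⟩ := Set.mem_iUnion₂.1 hI
    exact hp.isPrime
  have hnle : ∀ I ∈ P, ¬ irr K n ≤ I := by
    intro I hI hle
    obtain ⟨p, hp, hI⟩ := Set.mem_iUnion₂.1 hI
    obtain ⟨hpr, z, hz⟩ := isAssociatedPrime_iff.1 (AssociatedPrimes.mem_iff.1 hI)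
    obtain ⟨h, rfl⟩ := Ideal.Quotient.mk_surjective z
    have h1 : h ∈ Ideal.span {lin (v p.1), lin (v p.2), x} := by
      apply mem_of_irr_mul hn (hx2 _ _ hp)
      intro m hm
      have h2 := hle hm
      rw [hz, Submodule.mem_colon_singleton, Submodule.mem_bot] at h2
      rw [← Ideal.Quotient.eq_zero_iff_mem]
      exact h2
    have h3 : (1 : MvPolynomial (Fin n) K) ∈ I := by
      rw [hz, Submodule.mem_colon_singleton, Submodule.mem_bot, one_smul,
        Ideal.Quotient.eq_zero_iff_mem]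
      exact h1
    exact hpr.ne_top ((Ideal.eq_top_iff_one _).2 h3)
  have hex : ∃ y ∈ irr K n, ∀ I ∈ P, y ∉ I := by
    by_contra hcon
    push Not at hcon
    have hsub : ((irr K n : Ideal (MvPolynomial (Fin n) K)) : Set (MvPolynomial (Fin n) K)) ⊆
        ⋃ I ∈ P, (I : Set (MvPolynomial (Fin n) K)) := by
      intro y hy
      obtain ⟨I, hI, h⟩ := hcon y hy
      exact Set.mem_biUnion hI h
    obtain ⟨I, hI, hle⟩ := (Ideal.subset_union_prime_finite
      (f := fun I : Ideal (MvPolynomial (Fin n) K) => I) hfin 0 0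
      (fun I hI _ _ => hprime I hI)).1 hsub
    exact hnle I hI hle
  obtain ⟨y, hy, hy2⟩ := hex
  refine ⟨x, hx, y, hy, ⟨hx2, ?_⟩⟩
  intro i j hij a ha
  have hreg : IsSMulRegular (MvPolynomial (Fin n) K ⧸ Ideal.span {lin (v i), lin (v j), x}) y := by
    by_contra hcon
    have h1 : y ∈ {r : MvPolynomial (Fin n) K | IsSMulRegular
      (MvPolynomial (Fin n) K ⧸ Ideal.span {lin (v i), lin (v j), x}) r}ᶜ := hcon
    rw [← biUnion_associatedPrimes_eq_compl_regular] at h1
    obtain ⟨I, hI, h2⟩ := Set.mem_iUnion₂.1 h1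
    exact hy2 I (Set.mem_biUnion (show (i, j) ∈ {p : ι × ι | p.1 ≠ p.2} from hij) hI) h2
  have h3 : y • (Ideal.Quotient.mk (Ideal.span {lin (v i), lin (v j), x}) a) =
      y • (0 : MvPolynomial (Fin n) K ⧸ Ideal.span {lin (v i), lin (v j), x}) := by
    rw [smul_zero]
    have : y • (Ideal.Quotient.mk (Ideal.span {lin (v i), lin (v j), x}) a) =
      Ideal.Quotient.mk (Ideal.span {lin (v i), lin (v j), x}) (y * a) := rfl
    rw [this, Ideal.Quotient.eq_zero_iff_mem]
    exact ha
  have h4 := hreg h3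
  rwa [Ideal.Quotient.eq_zero_iff_mem] at h4

/-- `K[W]/I` is Cohen–Macaulay of dimension `d`, for a homogeneous ideal `I` with
`dim K[W]/I = d`: there is a regular sequence of length `d` in the irrelevant ideal. -/
def IsCM (n : ℕ) (I : Ideal (MvPolynomial (Fin n) K)) (d : ℕ) : Prop :=
  ∃ rs : List (MvPolynomial (Fin n) K ⧸ I), rs.length = d ∧
    (∀ r ∈ rs, r ∈ (irr K n).map (Ideal.Quotient.mk I)) ∧
    RingTheory.Sequence.IsRegular (MvPolynomial (Fin n) K ⧸ I) rs

theorem isCM_of (I : Ideal (MvPolynomial (Fin n) K)) (hI : I ≤ irr K n)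
    {x y : MvPolynomial (Fin n) K} (hx : x ∈ irr K n) (hy : y ∈ irr K n)
    (h1 : ∀ a, x * a ∈ I → a ∈ I)
    (h2 : ∀ a, (∃ b, y * a - x * b ∈ I) → ∃ b, a - x * b ∈ I) : IsCM n I 2 := by
  refine ⟨[Ideal.Quotient.mk I x, Ideal.Quotient.mk I y], rfl, ?_, ?_, ?_⟩
  · intro r hr
    simp only [List.mem_cons, List.not_mem_nil, or_false] at hr
    rcases hr with rfl | rfl
    · exact Ideal.mem_map_of_mem _ hx
    · exact Ideal.mem_map_of_mem _ hy
  · rw [RingTheory.Sequence.isWeaklyRegular_cons_iff,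
      RingTheory.Sequence.isWeaklyRegular_singleton_iff]
    constructor
    · rw [isSMulRegular_iff_right_eq_zero_of_smul]
      intro z hz
      obtain ⟨a, rfl⟩ := Ideal.Quotient.mk_surjective z
      rw [smul_eq_mul, ← map_mul, Ideal.Quotient.eq_zero_iff_mem] at hz
      rw [Ideal.Quotient.eq_zero_iff_mem]
      exact h1 a hz
    · rw [isSMulRegular_quotient_iff_mem_of_smul_mem]
      intro z hz
      obtain ⟨a, rfl⟩ := Ideal.Quotient.mk_surjective z
      obtain ⟨w, -, hw⟩ := hz
      obtain ⟨b, rfl⟩ := Ideal.Quotient.mk_surjective w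
      have hw' : Ideal.Quotient.mk I (x * b) = Ideal.Quotient.mk I (y * a) := hw
      obtain ⟨b', hb'⟩ := h2 a ⟨b, by rw [← Ideal.Quotient.eq]; exact hw'.symm⟩
      refine ⟨Ideal.Quotient.mk I b', trivial, ?_⟩
      change Ideal.Quotient.mk I (x * b') = Ideal.Quotient.mk I a
      exact (Ideal.Quotient.eq.2 hb').symm
  · intro h
    have h3 : (1 : MvPolynomial (Fin n) K ⧸ I) ∈
        (⊤ : Submodule (MvPolynomial (Fin n) K ⧸ I) (MvPolynomial (Fin n) K ⧸ I)) := trivial
    rw [h] at h3
    have h4 : (1 : MvPolynomial (Fin n) K ⧸ I) ∈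
        Ideal.ofList [Ideal.Quotient.mk I x, Ideal.Quotient.mk I y] := by
      have := h3
      rw [smul_eq_mul, Ideal.mul_top] at this
      exact this
    have h5 : Ideal.ofList [Ideal.Quotient.mk I x, Ideal.Quotient.mk I y] ≤
        (irr K n).map (Ideal.Quotient.mk I) := by
      refine Ideal.span_le.2 ?_
      intro r hr
      simp only [List.mem_cons, List.not_mem_nil, or_false] at hr
      rcases hr with rfl | rfl
      · exact Ideal.mem_map_of_mem _ hx
      · exact Ideal.mem_map_of_mem _ hy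
    have h6 := h5 h4
    rw [← map_one (Ideal.Quotient.mk I), Ideal.mem_quotient_iff_mem hI] at h6
    exact one_notMem_irr h6

end Pool.Agent.Q86.Residue
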