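import Mathlib
import Pool.Agent.Q86.ResParam
import Pool.Agent.Q86.ResFree

set_option autoImplicit false

universe u v

namespace Pool.Agent.Q86.Residue

open MvPolynomial

variable {K : Type u} [Field K]

section gens
/-! ### Counting generators -/

variable {n : ℕ}

/-- the degree `5` coefficients -/
noncomputable def top5 (n : ℕ) : MvPolynomial (Fin n) K →ₗ[K] ((Fin n →₀ ℕ) → K) where
  toFun f := fun e => if e.degree = 5 then coeff e f else 0
  map_add' f g := by ext e; simp only [coeff_add, Pi.add_apply]; split_ifs <;> simp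
  map_smul' c f := by
    ext e; simp only [coeff_smul, Pi.smul_apply, RingHom.id_apply]; split_ifs <;> simp

/-- no terms of degree below `5` -/
def Low (f : MvPolynomial (Fin n) K) : Prop := ∀ e : Fin n →₀ ℕ, e.degree < 5 → coeff e f = 0

theorem Low.mul {f : MvPolynomial (Fin n) K} (hf : Low f) (r : MvPolynomial (Fin n) K) :
    Low (r * f) := by
  classical
  intro e he
  rw [coeff_mul]
  refine Finset.sum_eq_zero fun p hp => ?_
  rw [Finset.HasAntidiagonal.mem_antidiagonal] at hp
  have : p.2.degree ≤ e.degree := by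
    rw [← hp, map_add]; omega
  rw [hf p.2 (by omega), mul_zero]

theorem Low.add {f g : MvPolynomial (Fin n) K} (hf : Low f) (hg : Low g) : Low (f + g) := by
  intro e he
  rw [coeff_add, hf e he, hg e he, add_zero]

theorem top5_mul {f : MvPolynomial (Fin n) K} (hf : Low f) (r : MvPolynomial (Fin n) K) :
    top5 n (r * f) = coeff 0 r • top5 n f := by
  classical
  ext e
  simp only [top5, LinearMap.coe_mk, AddHom.coe_mk, Pi.smul_apply, smul_eq_mul]
  split_ifs with he
  · rw [coeff_mul, Finset.sum_eq_single (0, e)]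
    · intro p hp hne
      rw [Finset.HasAntidiagonal.mem_antidiagonal] at hp
      by_cases h0 : p.1 = 0
      · exfalso
        apply hne
        rw [h0, zero_add] at hp
        exact Prod.ext h0 hp
      · have h1 : 0 < p.1.degree := by
          rw [Nat.pos_iff_ne_zero]
          intro h; exact h0 ((Finsupp.degree_eq_zero_iff _).1 h)
        have h2 : p.1.degree + p.2.degree = e.degree := by
          rw [← hp, map_add]
        rw [hf p.2 (by omega), mul_zero]
    · intro h
      exact absurd (Finset.HasAntidiagonal.mem_antidiagonal.2 (zero_add e)) h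
  · rw [mul_zero]

theorem low_of_mem_span {m : ℕ} {P : Fin m → MvPolynomial (Fin n) K} (hP : ∀ i, Low (P i))
    {f : MvPolynomial (Fin n) K} (hf : f ∈ Ideal.span (Set.range P)) : Low f := by
  induction hf using Submodule.span_induction with
  | mem x hx => obtain ⟨i, rfl⟩ := hx; exact hP i
  | zero => intro e _; simp
  | add x y _ _ hx hy => exact hx.add hy
  | smul r x _ hx => exact hx.mul r

/-- An ideal generated by `m` forms of degree `5` linearly independent over `K` is not generated
by fewer than `m` elements. -/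
theorem le_of_span_eq {m r : ℕ} {P : Fin m → MvPolynomial (Fin n) K} (hP : ∀ i, Low (P i))
    (hP5 : ∀ i, (P i).IsHomogeneous 5) (hli : LinearIndependent K P)
    {g : Fin r → MvPolynomial (Fin n) K}
    (h : Ideal.span (Set.range P) = Ideal.span (Set.range g)) : m ≤ r := by
  classical
  have hg : ∀ j, Low (g j) := fun j =>
    low_of_mem_span hP (h ▸ Ideal.subset_span ⟨j, rfl⟩)
  have hspan : ∀ f ∈ Ideal.span (Set.range g), Low f ∧ top5 n f ∈
      Submodule.span K (Set.range fun j => top5 n (g j)) := by
    intro f hf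
    induction hf using Submodule.span_induction with
    | mem x hx =>
      obtain ⟨j, rfl⟩ := hx
      exact ⟨hg j, Submodule.subset_span ⟨j, rfl⟩⟩
    | zero => exact ⟨fun e _ => by simp, by rw [map_zero]; exact Submodule.zero_mem _⟩
    | add x y _ _ hx hy =>
      exact ⟨hx.1.add hy.1, by rw [map_add]; exact Submodule.add_mem _ hx.2 hy.2⟩
    | smul s x _ hx =>
      refine ⟨hx.1.mul s, ?_⟩
      rw [smul_eq_mul, top5_mul hx.1]
      exact Submodule.smul_mem _ _ hx.2
  have hmem : ∀ i, top5 n (P i) ∈ Submodule.span K (Set.range fun j => top5 n (g j)) := fun i =>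
    (hspan (P i) (h ▸ Ideal.subset_span ⟨i, rfl⟩)).2
  have hli2 : LinearIndependent K fun i => top5 n (P i) := by
    rw [Fintype.linearIndependent_iff] at hli ⊢
    intro c hc
    apply hli
    have hh : (∑ i, c i • P i).IsHomogeneous 5 := by
      refine IsHomogeneous.sum _ _ _ fun i _ => ?_
      rw [smul_eq_C_mul]
      simpa using (isHomogeneous_C (Fin n) (c i)).mul (hP5 i)
    have h2 : top5 n (∑ i, c i • P i) = 0 := by
      rw [map_sum, ← hc]
      exact Finset.sum_congr rfl fun i _ => by rw [map_smul]
    ext e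
    rw [coeff_zero]
    by_cases he : e.degree = 5
    · have := congrFun h2 e
      simpa [top5, he, coeff_sum] using this
    · exact hh.coeff_eq_zero he
  let W := Submodule.span K (Set.range fun j => top5 (K := K) n (g j))
  haveI : FiniteDimensional K W := FiniteDimensional.span_of_finite K (Set.finite_range _)
  have h3 : LinearIndependent K (fun i => (⟨top5 n (P i), hmem i⟩ : W)) := by
    apply LinearIndependent.of_comp W.subtype
    exact hli2
  have h4 := h3.fintype_card_le_finrank
  have h5 : Module.finrank K W ≤ Fintype.card (Fin r) := finrank_range_le_card _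
  rw [Fintype.card_fin] at h4 h5
  omega

end gens

/-! ### The six forms in four variables -/

/-- The six forms: `x_0 + (subset sum of x_1,x_2,x_3)` given by the binary digits of `i < 6`. -/
def vec (K : Type u) [Field K] (i : Fin 6) : Fin 4 → K :=
  fun t => if t = 0 then 1 else if i.val.testBit (t.val - 1) then 1 else 0

theorem vec_zero (i : Fin 6) : vec K i 0 = 1 := rfl

theorem vec_cases (i : Fin 6) (t : Fin 4) : vec K i t = 0 ∨ vec K i t = 1 := by
  unfold vec
  split_ifs <;> simp

theorem exists_digit (i j : Fin 6) (h : i ≠ j) :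
    ∃ t : Fin 4, t ≠ 0 ∧ (i.val.testBit (t.val - 1)) ≠ (j.val.testBit (t.val - 1)) := by
  revert i j; decide

theorem exists_coord {i j : Fin 6} (h : i ≠ j) : ∃ t : Fin 4, vec K i t ≠ vec K j t := by
  obtain ⟨t, ht0, ht⟩ := exists_digit i j h
  refine ⟨t, ?_⟩
  unfold vec
  rw [if_neg ht0, if_neg ht0]
  cases h1 : i.val.testBit (t.val - 1) <;> cases h2 : j.val.testBit (t.val - 1) <;>
    simp_all

theorem vec_inj {i j : Fin 6} (h : vec K i = vec K j) : i = j := by
  by_contra hij
  obtain ⟨t, ht⟩ := exists_coord (K := K) hij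
  exact ht (congrFun h t)

theorem vec_notMem_pair {i j k : Fin 6} (hij : i ≠ j) (hki : k ≠ i) (hkj : k ≠ j) :
    vec K k ∉ Submodule.span K {vec K i, vec K j} := by
  intro h
  obtain ⟨a, b, hab⟩ := Submodule.mem_span_pair.1 h
  have h0 := congrFun hab 0
  simp only [Pi.add_apply, Pi.smul_apply, smul_eq_mul, vec_zero, mul_one] at h0
  obtain ⟨t, ht⟩ := exists_coord (K := K) hij
  have h1 := congrFun hab t
  simp only [Pi.add_apply, Pi.smul_apply, smul_eq_mul] at h1
  -- `a ∈ {0, 1}`
  have ha : a = 0 ∨ a = 1 := by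
    rcases vec_cases (K := K) i t with hi | hi <;> rcases vec_cases (K := K) j t with hj | hj
    · exact absurd (hi.trans hj.symm) ht
    · rw [hi, hj, mul_zero, zero_add, mul_one] at h1
      rcases vec_cases (K := K) k t with hk | hk
      · right; rw [hk] at h1; rw [h1, add_zero] at h0; exact h0
      · left; rw [hk] at h1; rw [h1] at h0; simpa using h0
    · rw [hi, hj, mul_zero, add_zero, mul_one] at h1
      rw [h1]; exact vec_cases k t
    · exact absurd (hi.trans hj.symm) ht
  rcases ha with rfl | rfl
  · rw [zero_add] at h0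
    rw [h0, zero_smul, one_smul, zero_add] at hab
    exact hkj (vec_inj hab.symm)
  · have hb : b = 0 := by simpa using h0
    rw [hb, zero_smul, one_smul, add_zero] at hab
    exact hki (vec_inj hab.symm)

theorem vec_notMem_single {i j : Fin 6} (hij : i ≠ j) : vec K i ∉ Submodule.span K {vec K j} := by
  intro h
  obtain ⟨c, hc⟩ := Submodule.mem_span_singleton.1 h
  have h0 := congrFun hc 0
  simp only [Pi.smul_apply, smul_eq_mul, vec_zero, mul_one] at h0
  rw [h0, one_smul] at hc
  exact hij (vec_inj hc.symm)

theorem vec_ne_zero (i : Fin 6) : vec K i ≠ 0 := by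
  intro h
  have := congrFun h 0
  rw [vec_zero] at this
  exact one_ne_zero this

/-- the forms -/
noncomputable def ll (K : Type u) [Field K] (i : Fin 6) : MvPolynomial (Fin 4) K := lin (vec K i)

theorem good : Good (ll K) :=
  ⟨fun i j _ => pair_isPrime _ _, fun i j k hij hki hkj h =>
    vec_notMem_pair hij hki hkj (lin_mem_pair.1 h)⟩

theorem ll_prime (i : Fin 6) : (Ideal.span {ll K i}).IsPrime :=
  (Ideal.span_singleton_prime (lin_eq_zero.not.2 (vec_ne_zero i))).2 (prime_lin (vec_ne_zero i))

theorem ll_notMem (i j : Fin 6) (hij : i ≠ j) : ll K i ∉ Ideal.span {ll K j} := fun h =>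
  vec_notMem_single hij (lin_mem_single.1 h)

theorem lin_isHomogeneous {n : ℕ} (a : Fin n → K) : (lin a).IsHomogeneous 1 := by
  refine IsHomogeneous.sum _ _ _ fun i _ => ?_
  simpa using (isHomogeneous_C (Fin n) (a i)).mul (isHomogeneous_X K i)

/-- the product of all forms but one -/
noncomputable def PP (K : Type u) [Field K] (i : Fin 6) : MvPolynomial (Fin 4) K :=
  ∏ k ∈ Finset.univ.erase i, ll K k

theorem PP_hom (i : Fin 6) : (PP K i).IsHomogeneous 5 := by
  have := IsHomogeneous.prod (Finset.univ.erase i) (ll K) (fun _ => 1)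
    (fun k _ => lin_isHomogeneous _)
  rw [Finset.sum_const, Finset.card_erase_of_mem (Finset.mem_univ _), Finset.card_univ,
    Fintype.card_fin] at this
  exact this

theorem PP_low (i : Fin 6) : Low (PP K i) := by
  intro e he
  exact (PP_hom i).coeff_eq_zero he.ne

theorem PP_notMem (i : Fin 6) : PP K i ∉ Ideal.span {ll K i} := by
  haveI := ll_prime (K := K) i
  intro h
  obtain ⟨k, hk, hk2⟩ := (Ideal.IsPrime.prod_mem_iff).1 h
  exact ll_notMem k i (Finset.ne_of_mem_erase hk) hk2

theorem PP_li : LinearIndependent K (PP K) := by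
  rw [Fintype.linearIndependent_iff]
  intro c hc i
  by_contra hci
  apply PP_notMem (K := K) i
  have h1 : c i • PP K i = -∑ k ∈ Finset.univ.erase i, c k • PP K k := by
    rw [eq_neg_iff_add_eq_zero,
      Finset.add_sum_erase _ (fun k => c k • PP K k) (Finset.mem_univ i)]
    exact hc
  have h2 : PP K i = (c i)⁻¹ • (-∑ k ∈ Finset.univ.erase i, c k • PP K k) := by
    rw [← h1, smul_smul, inv_mul_cancel₀ hci, one_smul]
  rw [h2, smul_eq_C_mul]
  refine Ideal.mul_mem_left _ _ ((Ideal.neg_mem_iff _).2 (Ideal.sum_mem _ fun k hk => ?_))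
  rw [smul_eq_C_mul]
  refine Ideal.mul_mem_left _ _ (Ideal.mem_span_singleton.2 ?_)
  exact Finset.dvd_prod_of_mem _ (Finset.mem_erase.2
    ⟨(Finset.ne_of_mem_erase hk).symm, Finset.mem_univ _⟩)

/-! ### Subspace arrangements -/

/-- The ideal of the linear subspace `X ⊆ K^n`: generated by the linear forms vanishing on `X`. -/
noncomputable def subspaceIdeal {n : ℕ} (X : Submodule K (Fin n → K)) :
    Ideal (MvPolynomial (Fin n) K) :=
  Ideal.span {f | ∃ a : Fin n → K, (∀ x ∈ X, ∑ i, a i * x i = 0) ∧ f = lin a}

/-- The defining ideal of a subspace arrangement. -/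
noncomputable def defIdeal {n : ℕ} (B : Set (Submodule K (Fin n → K))) :
    Ideal (MvPolynomial (Fin n) K) := ⨅ X ∈ B, subspaceIdeal X

/-- the functional of a coefficient vector -/
noncomputable def dotL {n : ℕ} (a : Fin n → K) : (Fin n → K) →ₗ[K] K where
  toFun x := ∑ i, a i * x i
  map_add' x y := by simp [mul_add, Finset.sum_add_distrib]
  map_smul' c x := by
    simp only [Pi.smul_apply, smul_eq_mul, RingHom.id_apply, Finset.mul_sum]
    exact Finset.sum_congr rfl fun i _ => by ring

theorem dotL_single {n : ℕ} (a : Fin n → K) (i : Fin n) : dotL a (Pi.single i 1) = a i := by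
  classical
  simp [dotL, Pi.single_apply]

/-- the codimension two subspace `l_i = l_j = 0` -/
noncomputable def XX (K : Type u) [Field K] (i j : Fin 6) : Submodule K (Fin 4 → K) :=
  LinearMap.ker (dotL (vec K i)) ⊓ LinearMap.ker (dotL (vec K j))

theorem XX_finrank {i j : Fin 6} (hij : i ≠ j) : Module.finrank K (XX K i j) = 2 := by
  classical
  have h1 : XX K i j = LinearMap.ker ((dotL (vec K i)).prod (dotL (vec K j))) := by
    rw [LinearMap.ker_prod]; rfl
  obtain ⟨t, ht⟩ := exists_coord (K := K) hij
  have hd : vec K i t - vec K j t ≠ 0 := sub_ne_zero.2 ht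
  have hsurj : Function.Surjective ((dotL (vec K i)).prod (dotL (vec K j))) := by
    rintro ⟨p, q⟩
    refine ⟨((p - q) / (vec K i t - vec K j t)) • Pi.single t 1 +
      (p - (p - q) / (vec K i t - vec K j t) * vec K i t) • Pi.single 0 1, ?_⟩
    refine Prod.ext ?_ ?_
    · change dotL (vec K i) _ = p
      simp only [map_add, map_smul, dotL_single, smul_eq_mul, vec_zero, mul_one]
      ring
    · change dotL (vec K j) _ = q
      simp only [map_add, map_smul, dotL_single, smul_eq_mul, vec_zero, mul_one]
      field_simp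
      ring
  have h2 := LinearMap.finrank_range_add_finrank_ker ((dotL (vec K i)).prod (dotL (vec K j)))
  rw [LinearMap.range_eq_top.2 hsurj, finrank_top, ← h1] at h2
  simp at h2
  omega

theorem subspaceIdeal_XX (i j : Fin 6) :
    subspaceIdeal (XX K i j) = Ideal.span {ll K i, ll K j} := by
  apply le_antisymm
  · refine Ideal.span_le.2 ?_
    rintro _ ⟨a, ha, rfl⟩
    have h1 : dotL a ∈ Submodule.span K
        (Set.range (fun b : Bool => dotL (if b then vec K i else vec K j))) := by
      apply mem_span_of_iInf_ker_le_ker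
      intro x hx
      rw [Submodule.mem_iInf] at hx
      exact ha x ⟨hx true, hx false⟩
    obtain ⟨c, hc⟩ := (Submodule.mem_span_range_iff_exists_fun K).1 h1
    rw [Fintype.sum_bool] at hc
    simp only [if_true, Bool.false_eq_true, if_false] at hc
    have h2 : a = c true • vec K i + c false • vec K j := by
      ext s
      have := congrArg (fun φ => φ (Pi.single s 1)) hc
      simp only [LinearMap.add_apply, LinearMap.smul_apply, dotL_single, smul_eq_mul] at this
      simp [← this]
    change lin a ∈ _
    rw [h2, lin_add, lin_smul, lin_smul]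
    exact Ideal.mem_span_pair.2 ⟨_, _, rfl⟩
  · refine Ideal.span_le.2 ?_
    intro f hf
    rcases hf with rfl | rfl
    · exact Ideal.subset_span ⟨vec K i, fun x hx => hx.1, rfl⟩
    · exact Ideal.subset_span ⟨vec K j, fun x hx => hx.2, rfl⟩

/-- The arrangement of the `15` subspaces `l_i = l_j = 0`, `i ≠ j`. -/
def BB (K : Type u) [Field K] : Set (Submodule K (Fin 4 → K)) :=
  {X | ∃ i j : Fin 6, i ≠ j ∧ X = XX K i j}

theorem BB_finite : (BB K).Finite := by
  refine (Set.finite_range (fun p : Fin 6 × Fin 6 => XX K p.1 p.2)).subset ?_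
  rintro X ⟨i, j, -, rfl⟩
  exact ⟨(i, j), rfl⟩

theorem defIdeal_BB : defIdeal (BB K) = starIdeal (ll K) Finset.univ := by
  ext f
  rw [mem_starIdeal]
  simp only [defIdeal, Submodule.mem_iInf]
  constructor
  · intro h i _ j _ hij
    rw [← subspaceIdeal_XX]
    exact h _ ⟨i, j, hij, rfl⟩
  · rintro h X ⟨i, j, hij, rfl⟩
    rw [subspaceIdeal_XX]
    exact h i (Finset.mem_univ _) j (Finset.mem_univ _) hij

theorem defIdeal_BB_eq : defIdeal (BB K) = Ideal.span (Set.range (PP K)) := by
  rw [defIdeal_BB, starIdeal_eq good _ ⟨0, Finset.mem_univ _⟩, Finset.coe_univ, Set.image_univ]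
  rfl

theorem BB_isCM : IsCM 4 (defIdeal (BB K)) 2 := by
  obtain ⟨x, hx, y, hy, hp⟩ := exists_param (K := K) (n := 4) le_rfl (vec K)
  rw [defIdeal_BB]
  refine isCM_of _ ?_ hx hy (x_reg good hp _)
    (y_reg good hp (ll_prime (K := K)) (ll_notMem (K := K)) _ ⟨0, Finset.mem_univ _⟩)
  intro f hf
  have h1 := mem_starIdeal.1 hf 0 (Finset.mem_univ _) 1 (Finset.mem_univ _) (by decide)
  refine (Ideal.span_le.2 ?_ : Ideal.span {ll K 0, ll K 1} ≤ irr K 4) h1
  intro g hg
  rcases hg with rfl | rfl
  · exact lin_mem_irr (vec K 0)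
  · exact lin_mem_irr (vec K 1)

/-- The defining ideal needs six generators. -/
theorem six_le {r : ℕ} {g : Fin r → MvPolynomial (Fin 4) K}
    (h : defIdeal (BB K) = Ideal.span (Set.range g)) : 6 ≤ r :=
  le_of_span_eq (K := K) PP_low PP_hom PP_li (defIdeal_BB_eq (K := K) ▸ h)

end Pool.Agent.Q86.Residue
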