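import Mathlib
import Pool.Agent.Q86.ResArr

set_option autoImplicit false

universe u v

namespace Pool.Agent.Q86.Residue

open MvPolynomial

variable {K : Type u} [Field K]

/-- Pull-back of polynomials along a linear map `ψ : K^n → K^ℓ`. -/
noncomputable def pull {n ℓ : ℕ} (ψ : (Fin n → K) →ₗ[K] (Fin ℓ → K)) :
    MvPolynomial (Fin ℓ) K →ₐ[K] MvPolynomial (Fin n) K :=
  aeval fun i => lin fun j => ψ (Pi.single j 1) i

theorem pull_lin {n ℓ : ℕ} (ψ : (Fin n → K) →ₗ[K] (Fin ℓ → K)) (a : Fin ℓ → K) :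
    pull ψ (lin a) = lin fun j => ∑ i, a i * ψ (Pi.single j 1) i := by
  unfold pull
  rw [aeval_lin]
  congr 1
  ext j
  simp [Finset.sum_apply]

/-- The ideal `J` of `S/(α_H)`, the coordinate ring of `H`, corresponds to the ideal `I` of `K[W]`,
`W = K^n`, under some linear isomorphism `ψ : W ≅ H`. -/
def Corresponds {ℓ n : ℕ} (A : Arr K ℓ) (H : Fin A.num)
    (J : Ideal (A.OH H))
    (I : Ideal (MvPolynomial (Fin n) K)) : Prop :=
  ∃ ψ : (Fin n → K) →ₗ[K] (Fin ℓ → K), Function.Injective ψ ∧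
    (∀ y : Fin ℓ → K, (∃ x, ψ x = y) ↔ ∑ i, A.form H i * y i = 0) ∧
    ∃ φ : A.OH H →+* MvPolynomial (Fin n) K,
      (∀ f, φ (Ideal.Quotient.mk _ f) = pull ψ f) ∧ J.map φ = I

theorem ell_eq {ℓ : ℕ} (A : Arr K ℓ) (H : Fin A.num) (ψ : (Fin 4 → K) →ₗ[K] (Fin ℓ → K))
    (hinj : Function.Injective ψ)
    (hr : ∀ y : Fin ℓ → K, (∃ x, ψ x = y) ↔ ∑ i, A.form H i * y i = 0) : ℓ = 5 := by
  classical
  have h1 : LinearMap.range ψ = LinearMap.ker (dotL (A.form H)) := by
    ext y; exact hr y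
  have h2 : Module.finrank K (LinearMap.range ψ) = 4 := by
    rw [LinearMap.finrank_range_of_inj hinj]; simp
  obtain ⟨i, hi⟩ : ∃ i, A.form H i ≠ 0 := by
    by_contra hcon
    push Not at hcon
    exact A.form_ne H (funext hcon)
  have hsurj : Function.Surjective (dotL (A.form H)) := by
    intro c
    refine ⟨(c / A.form H i) • Pi.single i 1, ?_⟩
    rw [map_smul, dotL_single, smul_eq_mul, div_mul_cancel₀ _ hi]
  have h3 := LinearMap.finrank_range_add_finrank_ker (dotL (A.form H))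
  rw [LinearMap.range_eq_top.2 hsurj, finrank_top, ← h1, h2] at h3
  simp at h3
  omega

theorem main {ℓ : ℕ} (A : Arr K ℓ) (hA : A.IsFree) (H : Fin A.num)
    (J : Ideal (A.OH H)) (hJ : A.IsResidueIdeal H J) :
    ¬ Corresponds A H J (defIdeal (BB K)) := by
  rintro ⟨ψ, hinj, hr, φ, -, hφ⟩
  have hℓ := ell_eq A H ψ hinj hr
  obtain ⟨r, g, hrl, hg⟩ := A.residue_gen hA hJ
  have h1 : defIdeal (BB K) = Ideal.span (Set.range fun j => φ (g j)) := by
    rw [← hφ, hg, Ideal.map_span, ← Set.range_comp]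
    rfl
  have := six_le h1
  omega

end Pool.Agent.Q86.Residue
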