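import Mathlib

/-!
# Invariants of translations by group schemes of order `p`: one variable
-/

set_option autoImplicit false
set_option linter.unusedSectionVars false

open Polynomial

namespace Pool.Agent.Q86.TO

section one

variable {D : Type*} [CommRing D] [IsDomain D] {p : ℕ} [hp : Fact p.Prime] [CharP D p] (c a : D)

/-- The translation `T ↦ T + a X`. -/
noncomputable def trl : D[X] →ₐ[D] D[X][X] := aeval (C X + X * C (C a))

/-- The equation `X ^ p = c X`. -/
noncomputable def mo1 (p : ℕ) {B : Type*} [CommRing B] (b : B) : B[X] := X ^ p - C b * X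

lemma mo1_monic {B : Type*} [CommRing B] [Nontrivial B] (b : B) : (mo1 p b).Monic := by
  have h2 : 1 < p := hp.out.one_lt
  unfold mo1
  refine monic_X_pow_sub ?_
  refine (degree_C_mul_X_le b).trans_lt ?_
  exact_mod_cast h2

lemma mo1_natDegree {B : Type*} [CommRing B] [Nontrivial B] (b : B) :
    (mo1 p b).natDegree = p := by
  have h2 : 1 < p := hp.out.one_lt
  unfold mo1
  rw [natDegree_sub_eq_left_of_natDegree_lt, natDegree_X_pow]
  rw [natDegree_X_pow]
  refine (natDegree_C_mul_le b X).trans_lt ?_
  rw [natDegree_X]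
  exact h2

lemma mo1_degree {B : Type*} [CommRing B] [Nontrivial B] (b : B) :
    (mo1 p b).degree = p := by
  rw [degree_eq_natDegree (mo1_monic b).ne_zero, mo1_natDegree]

/-- Bounds for the degrees in both variables. -/
def Bd2 (F : D[X][X]) (d : ℕ) : Prop := F.natDegree ≤ d ∧ ∀ s, (F.coeff s).natDegree ≤ d

lemma bd2_pow (n : ℕ) : Bd2 ((C X + X * C (C a) : D[X][X]) ^ n) n := by
  induction n with
  | zero =>
    rw [pow_zero]
    refine ⟨by simp, fun s => ?_⟩
    rw [coeff_one]
    split <;> simp
  | succ n ih =>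
    obtain ⟨h1, h2⟩ := ih
    rw [pow_succ']
    constructor
    · refine natDegree_mul_le.trans ?_
      have : (C X + X * C (C a) : D[X][X]).natDegree ≤ 1 := by
        refine (natDegree_add_le _ _).trans (max_le (by simp) ?_)
        exact natDegree_mul_le.trans (by simp)
      omega
    · intro s
      rw [add_mul, coeff_add, coeff_C_mul, mul_assoc]
      refine (natDegree_add_le _ _).trans (max_le ?_ ?_)
      · refine natDegree_mul_le.trans ?_
        have := h2 s
        have h3 : (X : D[X]).natDegree ≤ 1 := natDegree_X_le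
        omega
      · rcases s with _ | s
        · simp
        · rw [coeff_X_mul, coeff_C_mul]
          refine natDegree_mul_le.trans ?_
          rw [natDegree_C, zero_add]
          exact (h2 s).trans (Nat.le_succ n)

lemma Bd2.sum {ι : Type*} (s : Finset ι) (F : ι → D[X][X]) (d : ℕ) (h : ∀ i ∈ s, Bd2 (F i) d) :
    Bd2 (∑ i ∈ s, F i) d := by
  constructor
  · exact natDegree_sum_le_of_forall_le s F fun i hi => (h i hi).1
  · intro n
    rw [finset_sum_coeff]
    exact natDegree_sum_le_of_forall_le s _ fun i hi => (h i hi).2 n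

lemma bd2_trl (r : D[X]) : Bd2 (trl a r) r.natDegree := by
  unfold trl
  rw [aeval_eq_sum_range]
  refine Bd2.sum _ _ _ fun i hi => ?_
  have hi' : i ≤ r.natDegree := by
    have := Finset.mem_range.1 hi; omega
  obtain ⟨h1, h2⟩ := bd2_pow a i
  constructor
  · exact ((natDegree_smul_le _ _).trans h1).trans hi'
  · intro s
    rw [coeff_smul]
    exact ((natDegree_smul_le _ _).trans (h2 s)).trans hi'

lemma trl_X : trl a (X : D[X]) = C X + X * C (C a) := by
  unfold trl; exact aeval_X _

lemma trl_C (b : D) : trl a (C b) = C (C b) := by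
  unfold trl
  rw [aeval_C]
  rfl

lemma trl_N : trl a (mo1 p (c * a ^ (p - 1)) : D[X]) =
    C (mo1 p (c * a ^ (p - 1))) + C (C (a ^ p)) * mo1 p (C c) := by
  have h2 : 1 < p := hp.out.one_lt
  have e : a ^ p = a ^ (p - 1) * a := by
    rw [← pow_succ]; congr 1; omega
  unfold mo1
  rw [map_sub, map_mul, map_pow, trl_X, trl_C, add_pow_char, mul_pow, e]
  simp only [C_sub, C_mul, C_pow]
  have e2 : (C (C a) : D[X][X]) ^ p = C (C a) ^ (p - 1) * C (C a) := by
    rw [← pow_succ]; congr 1; omega
  rw [e2]
  ring

/-- **Invariants of a translation.** -/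
theorem inv_one (ha : a ≠ 0) (f : D[X]) (hf : mo1 p (C c) ∣ trl a f - C f) :
    ∃ h : D[X], f = h.comp (mo1 p (c * a ^ (p - 1))) := by
  have h2 : 1 < p := hp.out.one_lt
  obtain ⟨n, hn⟩ : ∃ n, f.natDegree = n := ⟨_, rfl⟩
  induction n using Nat.strong_induction_on generalizing f with
  | _ n ih =>
  set N : D[X] := mo1 p (c * a ^ (p - 1)) with hN
  have hNm : N.Monic := mo1_monic _
  have hNd : N.natDegree = p := mo1_natDegree _
  have hM : (mo1 p (C c : D[X])).Monic := mo1_monic _
  set g := f /ₘ N with hg
  set r := f %ₘ N with hr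
  have hfe : f = r + N * g := (modByMonic_add_div f N).symm
  have hrd : r.natDegree < p := by
    have h1 := natDegree_modByMonic_lt f hNm (by
      intro h
      rw [h, natDegree_one] at hNd
      omega)
    rw [hNd] at h1
    exact h1
  obtain ⟨b1, b2⟩ := bd2_trl a r
  -- the difference for `g`
  set Q := (trl a g - C g) %ₘ mo1 p (C c) with hQ
  have hQd : Q.degree < p := by
    have := degree_modByMonic_lt (trl a g - C g) hM
    rwa [mo1_degree] at this
  have hgQ : trl a g - C g = Q + mo1 p (C c) * ((trl a g - C g) /ₘ mo1 p (C c)) :=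
    (modByMonic_add_div _ _).symm
  have h3 : mo1 p (C c) ∣ (trl a r - C r) + C N * Q := by
    have e : (trl a r - C r) + C N * Q = (trl a f - C f) -
        mo1 p (C c) * (C N * ((trl a g - C g) /ₘ mo1 p (C c)) + C (C (a ^ p)) * trl a g) := by
      have e1 : trl a f = trl a r + (C N + C (C (a ^ p)) * mo1 p (C c)) * trl a g := by
        rw [hfe, map_add, map_mul, hN, trl_N]
      have e2 : C f = C r + C N * C g := by
        conv_lhs => rw [hfe]
        rw [C_add, C_mul]
      have e3 : Q = trl a g - C g - mo1 p (C c) * ((trl a g - C g) /ₘ mo1 p (C c)) := by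
        rw [eq_sub_iff_add_eq]; exact hgQ.symm
      rw [e1, e2]
      conv_lhs => rw [e3]
      ring
    rw [e]
    exact dvd_sub hf (dvd_mul_right _ _)
  have hrd' : (trl a r - C r).degree < p := by
    refine (degree_sub_le _ _).trans_lt (max_lt ?_ ?_)
    · refine degree_le_natDegree.trans_lt ?_
      exact_mod_cast b1.trans_lt hrd
    · refine degree_C_le.trans_lt ?_
      exact_mod_cast hp.out.pos
  have h4 : (trl a r - C r) + C N * Q = 0 := by
    by_contra hne
    refine hM.not_dvd_of_degree_lt hne ?_ h3
    rw [mo1_degree]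
    refine (degree_add_le _ _).trans_lt (max_lt hrd' ?_)
    refine ((degree_mul_le _ _).trans ?_).trans_lt hQd
    calc (C N : D[X][X]).degree + Q.degree ≤ 0 + Q.degree := by gcongr; exact degree_C_le
      _ = Q.degree := zero_add _
  have h5 : ∀ s, (trl a r - C r).coeff s = 0 := by
    intro s
    have e1 : (trl a r - C r).coeff s + N * Q.coeff s = 0 := by
      have := congrArg (fun F => F.coeff s) h4
      simpa [coeff_add, coeff_C_mul] using this
    by_contra hne
    refine hNm.not_dvd_of_natDegree_lt hne ?_ ⟨- Q.coeff s, ?_⟩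
    · rw [hNd]
      rw [coeff_sub]
      refine (natDegree_sub_le _ _).trans_lt (max_lt ((b2 s).trans_lt hrd) ?_)
      rw [coeff_C]
      split
      · exact hrd
      · simpa using hp.out.pos
    · rw [mul_neg, eq_neg_iff_add_eq_zero]
      exact e1
  have h6 : trl a r - C r = 0 := by
    ext1 s
    rw [h5 s, coeff_zero]
  have h7 : C N * Q = 0 := by rwa [h6, zero_add] at h4
  have hN0 : (C N : D[X][X]) ≠ 0 := by
    rw [Ne, C_eq_zero]
    exact hNm.ne_zero
  have hQ0 : Q = 0 := (mul_eq_zero.1 h7).resolve_left hN0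
  have hgdvd : mo1 p (C c) ∣ trl a g - C g := by
    rw [hgQ, hQ0, zero_add]
    exact dvd_mul_right _ _
  -- `r` is constant
  have h8 : ∀ m, m ≠ 0 → r.coeff m = 0 := by
    intro m hm
    have e1 : (trl a r).map (evalRingHom (0 : D)) = r.comp (C a * X) := by
      have : ((mapRingHom (evalRingHom (0 : D))).comp (trl a : D[X] →+* D[X][X])) =
          (compRingHom (C a * X) : D[X] →+* D[X]) := by
        apply Polynomial.ringHom_ext
        · intro b
          simp [trl_C]
        · change ((trl a (X : D[X])).map (evalRingHom (0 : D))) = (X : D[X]).comp (C a * X)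
          rw [trl_X, X_comp]
          simp only [Polynomial.map_add, Polynomial.map_mul, map_C, map_X, coe_evalRingHom, eval_X,
            eval_C, C_0, zero_add]
          ring
      exact congrArg (fun φ : D[X] →+* D[X] => φ r) this
    have e2 : (C r : D[X][X]).map (evalRingHom (0 : D)) = C (r.eval 0) := by simp
    have e3 : trl a r = C r := sub_eq_zero.1 h6
    have e4 := congrArg (fun F : D[X][X] => (F.map (evalRingHom (0 : D))).coeff m) e3
    beta_reduce at e4
    rw [e1, e2, comp_C_mul_X_coeff, coeff_C, if_neg hm] at e4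
    exact (mul_eq_zero.1 e4).resolve_right (pow_ne_zero _ ha)
  have hrC : r = C (r.coeff 0) := by
    ext m
    rw [coeff_C]
    split
    · subst_vars; rfl
    · exact h8 m ‹_›
  -- induction
  by_cases hg0 : g = 0
  · refine ⟨C (r.coeff 0), ?_⟩
    rw [C_comp, hfe, hg0, mul_zero, add_zero]
    exact hrC
  · have hgd : g.natDegree < n := by
      have e1 : f.natDegree = (N * g).natDegree := by
        rw [hfe, hrC, natDegree_C_add]
      rw [hNm.natDegree_mul' hg0, hNd] at e1
      omega
    obtain ⟨h, hh⟩ := ih _ hgd g hgdvd rfl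
    refine ⟨C (r.coeff 0) + X * h, ?_⟩
    rw [add_comp, mul_comp, X_comp, C_comp, ← hh, ← hrC]
    exact hfe

end one

end Pool.Agent.Q86.TO
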