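import Pool.Agent.Q86.TO5

/-!
# Resolution of the spectra of families of subalgebras generated by given functions
-/

set_option autoImplicit false
set_option linter.unusedSectionVars false

universe u

open MvPolynomial Pool.Agent.W558 Pool.Agent.W418.LCI AlgebraicGeometry

namespace Pool.Agent.Q86.TO

section cg

variable {σ : Type} {k E : Type u} [Field k] [Field E] [Algebra k E]

/-- The algebra generated by `D` and the functions in `G`. -/
noncomputable def CG (G : Set (MvPolynomial σ E)) (D : Subalgebra k E) :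
    Subalgebra k (MvPolynomial σ E) := Algebra.adjoin k (C '' (D : Set E) ∪ G)

variable {G : Set (MvPolynomial σ E)} {D D' : Subalgebra k E}

lemma C_mem_CG {a : E} (ha : a ∈ D) : C a ∈ CG G D :=
  Algebra.subset_adjoin (Or.inl ⟨a, ha, rfl⟩)

lemma G_mem_CG {g : MvPolynomial σ E} (hg : g ∈ G) : g ∈ CG G D :=
  Algebra.subset_adjoin (Or.inr hg)

lemma CG_mono (h : D ≤ D') : CG G D ≤ CG G D' :=
  Algebra.adjoin_mono (Set.union_subset_union_left _ (Set.image_mono h))

lemma CG_scale {h : E} (hh : h ∈ D) (hD : ∀ a ∈ D', ∃ n : ℕ, h ^ n * a ∈ D)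
    {f : MvPolynomial σ E} (hf : f ∈ CG G D') : ∃ n : ℕ, C (h ^ n) * f ∈ CG G D := by
  induction hf using Algebra.adjoin_induction with
  | mem x hx =>
    rcases hx with ⟨a, ha, rfl⟩ | hx
    · obtain ⟨n, hn⟩ := hD a ha
      refine ⟨n, ?_⟩
      rw [← C_mul]
      exact C_mem_CG hn
    · refine ⟨0, ?_⟩
      rw [pow_zero, C_1, one_mul]
      exact G_mem_CG hx
  | algebraMap r =>
    refine ⟨0, ?_⟩
    rw [pow_zero, C_1, one_mul]
    exact (CG G D).algebraMap_mem r
  | add x y _ _ hx hy =>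
    obtain ⟨n, hn⟩ := hx
    obtain ⟨m, hm⟩ := hy
    refine ⟨n + m, ?_⟩
    have e : C (h ^ (n + m)) * (x + y) = C (h ^ m) * (C (h ^ n) * x) +
        C (h ^ n) * (C (h ^ m) * y) := by
      rw [pow_add, C_mul]; ring
    rw [e]
    exact (CG G D).add_mem ((CG G D).mul_mem (C_mem_CG (D.pow_mem hh m)) hn)
      ((CG G D).mul_mem (C_mem_CG (D.pow_mem hh n)) hm)
  | mul x y _ _ hx hy =>
    obtain ⟨n, hn⟩ := hx
    obtain ⟨m, hm⟩ := hy
    refine ⟨n + m, ?_⟩
    have e : C (h ^ (n + m)) * (x * y) = (C (h ^ n) * x) * (C (h ^ m) * y) := by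
      rw [pow_add, C_mul]; ring
    rw [e]
    exact (CG G D).mul_mem hn hm

/-- The elements of the subalgebra `AE` of the algebra generated by `D` and `G`. -/
noncomputable def cg (AE : Subalgebra E (MvPolynomial σ E)) (G : Set (MvPolynomial σ E))
    (D : Subalgebra k E) : Subalgebra k (MvPolynomial σ E) :=
  AE.restrictScalars k ⊓ CG G D

lemma mem_cg {AE : Subalgebra E (MvPolynomial σ E)} {f : MvPolynomial σ E} :
    f ∈ cg AE G D ↔ f ∈ AE ∧ f ∈ CG G D := Iff.rfl

/-- **Resolution of families of subalgebras of polynomial rings**, second version. -/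
theorem general2 [Finite σ] {P : Set E} (hE : HasLMs k P) (R : Subalgebra k E) (hfg : GenBy R P)
    (hfr : ∀ x : E, ∃ a ∈ R, ∃ b ∈ R, b ≠ 0 ∧ x = a * b⁻¹) (F : Set E) (hF : F.Finite)
    (hFP : ∀ x ∈ F, x ≠ 0 → x ∈ P)
    (AE : Subalgebra E (MvPolynomial σ E)) (G : Set (MvPolynomial σ E))
    (hint : ∀ g ∈ G, ∃ Q : Polynomial R, Q.Monic ∧ Q.natDegree ≠ 0 ∧
      Polynomial.aeval g (Q.map R.val.toRingHom) ∈ AE)
    (hsm : ∀ D : Subalgebra k E, R ≤ D → Algebra.Smooth k D →
      (∀ a ∈ F, ∀ b ∈ F, a ≠ 0 → b ≠ 0 → b / a ∈ D ∨ a / b ∈ D) → Algebra.Smooth k (cg AE G D))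
    {A : Type u} [CommRing A] [IsDomain A] [Algebra k A] (g0 : A →ₐ[k] MvPolynomial σ E)
    (hg0 : Function.Injective g0) (hgr : g0.range = cg AE G R) :
    Pool.Agent.H920R2.HasResolution (X := Spec (CommRingCat.of A))
      (Spec.map (CommRingCat.ofHom (algebraMap k A))) := by
  classical
  obtain ⟨T, I, i1, i2, M, hM⟩ := exists_model hE R hfg hfr F hF hFP
  let L := FractionRing (MvPolynomial σ E)
  let j : MvPolynomial σ E →ₐ[k] L := IsScalarTower.toAlgHom k _ _
  have hj : Function.Injective j := IsFractionRing.injective (MvPolynomial σ E) L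
  let Ct : T → Subalgebra k L := fun t => (cg AE G (M.A t)).map j
  let Ht : T → L := fun t => j (C (M.H t))
  have hR : ∀ x, x ∈ cg AE G R → ∃ a, g0 a = x := by
    intro x hx
    rw [← hgr] at hx
    exact hx
  have hR' : ∀ a, g0 a ∈ cg AE G R := by
    intro a
    rw [← hgr]
    exact ⟨a, rfl⟩
  have hCE : ∀ a : E, (C a : MvPolynomial σ E) ∈ AE := fun a => AE.algebraMap_mem a
  have hdiv : ∀ t t', Ht t' / Ht t = j (C (M.H t' / M.H t)) := by
    intro t t'
    have h0 : Ht t ≠ 0 := by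
      intro h
      have h1 := hj (h.trans (map_zero j).symm)
      exact M.H0 t ((MvPolynomial.C_injective _ _) (h1.trans (map_zero C).symm))
    rw [div_eq_iff h0]
    change j _ = j _ * j _
    rw [← map_mul, ← C_mul, div_mul_cancel₀ _ (M.H0 t)]
  refine hasResolution_of_atl (T := T) (j.comp g0) (hj.comp hg0) (C := Ct) (H := Ht) ⟨?_, ?_, ?_,
    ?_, ?_, ?_, ?_, ?_⟩
  · intro t
    have h1 := hsm (M.A t) (M.base t) (M.sm t) (hM t)
    exact Algebra.Smooth.of_equiv ((cg AE G (M.A t)).equivMapOfInjective j hj)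
  · intro t a
    exact ⟨g0 a, ⟨(hR' a).1, CG_mono (M.base t) (hR' a).2⟩, rfl⟩
  · intro t h
    have h1 := hj (h.trans (map_zero j).symm)
    exact M.H0 t ((MvPolynomial.C_injective _ _) (h1.trans (map_zero C).symm))
  · intro t
    obtain ⟨a, ha⟩ := hR _ (⟨hCE _, C_mem_CG (M.HR t)⟩ : C (M.H t) ∈ cg AE G R)
    exact ⟨a, by rw [AlgHom.comp_apply, ha]⟩
  · intro t t'
    rw [hdiv]
    exact ⟨_, ⟨hCE _, C_mem_CG (M.rt t t')⟩, rfl⟩
  · rintro t t' _ ⟨f, hf, rfl⟩
    obtain ⟨n, hn⟩ := CG_scale (D := M.A t) (M.rt t t') (fun a ha => M.gl t t' a ha) hf.2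
    refine ⟨n, ?_⟩
    rw [hdiv, ← map_pow, ← C_pow]
    change j _ * j f ∈ _
    rw [← map_mul]
    exact ⟨_, ⟨AE.mul_mem (hCE _) hf.1, hn⟩, rfl⟩
  · rintro t _ ⟨f, hf, rfl⟩
    obtain ⟨n, hn⟩ := CG_scale (D := R) (M.HR t) (fun a ha => M.dn t a ha) hf.2
    obtain ⟨a, ha⟩ := hR _ (⟨AE.mul_mem (hCE _) hf.1, hn⟩ : C (M.H t ^ n) * f ∈ cg AE G R)
    refine ⟨n, a, ?_⟩
    rw [AlgHom.comp_apply, ha, map_mul, C_pow, map_pow]
    rfl
  · intro V hV
    have hVR : ∀ x ∈ cg AE G R, j x ∈ V := by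
      intro x hx
      obtain ⟨a, rfl⟩ := hR x hx
      exact hV a
    let V' : ValuationSubring E := V.comap (algebraMap E L)
    have hjC : ∀ a : E, j (C a) = algebraMap E L a := by
      intro a
      change algebraMap (MvPolynomial σ E) L (C a) = _
      rw [IsScalarTower.algebraMap_apply E (MvPolynomial σ E) L]
      rfl
    have hRV : ∀ a ∈ R, a ∈ V' := by
      intro a ha
      change algebraMap E L a ∈ V
      rw [← hjC]
      exact hVR _ ⟨hCE _, C_mem_CG ha⟩
    obtain ⟨t, ht⟩ := M.cv V' hRV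
    refine ⟨t, ?_⟩
    have hX : ∀ g ∈ G, j g ∈ V := by
      intro g hg
      obtain ⟨Q, hQ, hQd, hQA⟩ := hint g hg
      let ψ : R →+* V := (algebraMap E L).comp R.val.toRingHom |>.codRestrict V.toSubring
        (fun a => hRV a.1 a.2)
      refine mem_valuation V (j g) (j (Polynomial.aeval g
        (Q.map R.val.toRingHom))) ?_ (Q.map ψ) (hQ.map ψ) ?_ ?_
      · apply hVR
        refine ⟨hQA, ?_⟩
        rw [Polynomial.aeval_def, Polynomial.eval₂_map, Polynomial.eval₂_eq_sum_range]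
        refine Subalgebra.sum_mem _ fun i _ => Subalgebra.mul_mem _ ?_
          (Subalgebra.pow_mem _ (G_mem_CG hg) _)
        exact C_mem_CG (Subtype.property _)
      · rw [hQ.natDegree_map]
        exact hQd
      · rw [Polynomial.eval₂_map, Polynomial.aeval_def, Polynomial.eval₂_map]
        change _ = (j : MvPolynomial σ E →+* L) _
        rw [Polynomial.hom_eval₂]
        congr 1
    rintro _ ⟨f, hf, rfl⟩
    have hf2 : f ∈ CG G (M.A t) := hf.2
    unfold CG at hf2
    change j f ∈ V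
    clear hf
    induction hf2 using Algebra.adjoin_induction with
    | mem x hx =>
      rcases hx with ⟨a, ha, rfl⟩ | hx
      · rw [hjC]
        exact ht a ha
      · exact hX x hx
    | algebraMap r =>
      rw [AlgHom.commutes]
      have h1 := hRV _ (R.algebraMap_mem r)
      change algebraMap E L (algebraMap k E r) ∈ V at h1
      rwa [← IsScalarTower.algebraMap_apply] at h1
    | add x y _ _ hx hy =>
      rw [map_add]
      exact V.add_mem _ _ hx hy
    | mul x y _ _ hx hy =>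
      rw [map_mul]
      exact V.mul_mem _ _ hx hy

lemma CG_fg (hG : G.Finite) (hD : D.FG) : (CG G D).FG := by
  classical
  obtain ⟨S, hS⟩ := hD
  refine ⟨S.image C ∪ hG.toFinset, ?_⟩
  rw [Finset.coe_union, Finset.coe_image, Set.Finite.coe_toFinset]
  apply le_antisymm
  · refine Algebra.adjoin_mono (Set.union_subset_union_left _ (Set.image_mono ?_))
    intro x hx
    rw [← hS]
    exact Algebra.subset_adjoin hx
  · unfold CG
    rw [Algebra.adjoin_le_iff]
    rintro _ (⟨a, ha, rfl⟩ | hx)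
    · have h1 : (C a : MvPolynomial σ E) ∈ (Algebra.adjoin k (S : Set E)).map
          (IsScalarTower.toAlgHom k E (MvPolynomial σ E)) := ⟨a, by rw [hS]; exact ha, rfl⟩
      rw [AlgHom.map_adjoin] at h1
      exact Algebra.adjoin_mono Set.subset_union_left h1
    · exact Algebra.subset_adjoin (Or.inr hx)

/-- The subalgebras are finitely generated. -/
theorem general2_finiteType (R : Subalgebra k E) (hfg : R.FG)
    (AE : Subalgebra E (MvPolynomial σ E)) (G : Set (MvPolynomial σ E)) (hG : G.Finite)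
    (hint : ∀ g ∈ G, ∃ Q : Polynomial R, Q.Monic ∧ Q.natDegree ≠ 0 ∧
      Polynomial.aeval g (Q.map R.val.toRingHom) ∈ AE)
    {A : Type u} [CommRing A] [Algebra k A] (g0 : A →ₐ[k] MvPolynomial σ E)
    (hg0 : Function.Injective g0) (hgr : g0.range = cg AE G R) : Algebra.FiniteType k A := by
  classical
  let B : Subalgebra k (MvPolynomial σ E) := CG G R
  let A' : Subalgebra k B := (AE.restrictScalars k).comap B.val
  have hA' : A'.map B.val = cg AE G R := by
    ext f
    constructor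
    · rintro ⟨g, hg, rfl⟩
      exact ⟨hg, g.2⟩
    · rintro ⟨h1, h2⟩
      exact ⟨⟨f, h2⟩, h1, rfl⟩
  have hftB : Algebra.FiniteType k B := B.fg_iff_finiteType.1 (CG_fg hG hfg)
  let ψ : R →+* B :=
    { toFun := fun a => ⟨C a.1, C_mem_CG a.2⟩
      map_one' := Subtype.ext C_1
      map_zero' := Subtype.ext C_0
      map_mul' := fun a b => Subtype.ext C_mul
      map_add' := fun a b => Subtype.ext C_add }
  have hψ : ∀ a, ψ a ∈ A' := fun a => AE.algebraMap_mem a.1
  have hi : ∀ x : B, IsIntegral A' x := by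
    rintro ⟨x, hx⟩
    have hx2 : x ∈ CG G R := hx
    unfold CG at hx2
    induction hx2 using Algebra.adjoin_induction with
    | mem x hx3 =>
      rcases hx3 with ⟨a, ha, rfl⟩ | hg
      · exact isIntegral_algebraMap (x := (⟨ψ ⟨a, ha⟩, hψ ⟨a, ha⟩⟩ : A'))
      · obtain ⟨Q, hQ, hQd, hQA⟩ := hint x hg
        refine isIntegral_of A' _ Q ψ hψ hQ hQd ?_
        change B.val _ ∈ AE
        change (B.val : B →+* MvPolynomial σ E) _ ∈ AE
        rw [Polynomial.hom_eval₂]
        rw [Polynomial.aeval_def, Polynomial.eval₂_map] at hQA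
        exact hQA
    | algebraMap r =>
      exact isIntegral_algebraMap (x := (algebraMap k A' r))
    | add x y hx' hy' hx2 hy2 => exact (hx2 hx').add (hy2 hy')
    | mul x y hx' hy' hx2 hy2 => exact (hx2 hx').mul (hy2 hy')
  have h3 : Algebra.FiniteType k A' := finiteType_of_integral A' hi
  let e : A' ≃ₐ[k] A := ((A'.equivMapOfInjective B.val Subtype.val_injective).trans
    (Subalgebra.equivOfEq _ _ (hA'.trans hgr.symm))).trans (AlgEquiv.ofInjective g0 hg0).symm
  exact Algebra.FiniteType.equiv h3 e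

end cg

end Pool.Agent.Q86.TO
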