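import Pool.Agent.Q86.TO10

/-!
# Families of affine subspaces and translations
-/

set_option autoImplicit false
set_option linter.unusedSectionVars false

universe u

open MvPolynomial Pool.Agent.W558 Pool.Agent.W418.LCI AlgebraicGeometry

namespace Pool.Agent.Q86.TO

section loc

variable {k E : Type u} [Field k] [Field E] [Algebra k E]

lemma smooth_adjoin_one (D : Subalgebra k E) (hD : Algebra.Smooth k D) (x : E)
    (hx : x ∈ D ∨ x⁻¹ ∈ D) : Algebra.Smooth k (D ⊔ Algebra.adjoin k {x} : Subalgebra k E) := by
  by_cases hxD : x ∈ D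
  · have : D ⊔ Algebra.adjoin k {x} = D := by
      rw [sup_eq_left, Algebra.adjoin_le_iff]
      intro y hy
      rw [Set.mem_singleton_iff.1 hy]
      exact hxD
    rw [this]
    exact hD
  · have hxi := hx.resolve_left hxD
    have hx0 : x ≠ 0 := fun h => hxD (by rw [h]; exact D.zero_mem)
    let a : D := ⟨x⁻¹, hxi⟩
    let S := Localization.Away a
    have hu : ∀ y : Submonoid.powers a, IsUnit (D.val y) := by
      rintro ⟨_, n, rfl⟩
      refine IsUnit.mk0 _ ?_
      change D.val (a ^ n) ≠ 0
      rw [map_pow]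
      exact pow_ne_zero _ (inv_ne_zero hx0)
    let g : S →ₐ[k] E := IsLocalization.liftAlgHom (M := Submonoid.powers a) (f := D.val) hu
    have hg : ∀ y : D, g (algebraMap D S y) = y := fun y =>
      IsLocalization.lift_eq (M := Submonoid.powers a) (S := S) (g := D.val.toRingHom) hu y
    have hginj : Function.Injective g := by
      rw [injective_iff_map_eq_zero]
      intro z hz
      obtain ⟨y, s, rfl⟩ := IsLocalization.exists_mk'_eq (Submonoid.powers a) z
      have h1 : algebraMap D S s * IsLocalization.mk' S y s = algebraMap D S y :=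
        IsLocalization.mk'_spec' S y s
      have h2 := congrArg g h1
      rw [map_mul, hz, mul_zero, hg] at h2
      have h3 : y = 0 := Subtype.ext h2.symm
      rw [h3, IsLocalization.mk'_zero]
    have hgr : g.range = D ⊔ Algebra.adjoin k {x} := by
      apply le_antisymm
      · rintro _ ⟨z, rfl⟩
        obtain ⟨y, s, rfl⟩ := IsLocalization.exists_mk'_eq (Submonoid.powers a) z
        obtain ⟨n, hn⟩ := s.2
        have h1 : algebraMap D S s * IsLocalization.mk' S y s = algebraMap D S y :=
          IsLocalization.mk'_spec' S y s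
        have h2 := congrArg g h1
        rw [map_mul, hg, hg] at h2
        have h3 : ((s : D) : E) = (x⁻¹) ^ n := by
          rw [← hn]; rfl
        have h4 : g (IsLocalization.mk' S y s) = y * x ^ n := by
          rw [h3] at h2
          rw [← h2, mul_comm (x⁻¹ ^ n), mul_assoc, ← mul_pow, inv_mul_cancel₀ hx0, one_pow,
            mul_one]
        change g (IsLocalization.mk' S y s) ∈ _
        rw [h4]
        refine Subalgebra.mul_mem _ ?_ (Subalgebra.pow_mem _ ?_ n)
        · exact (le_sup_left : D ≤ D ⊔ Algebra.adjoin k {x}) y.2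
        · exact (le_sup_right : Algebra.adjoin k {x} ≤ D ⊔ Algebra.adjoin k {x})
            (Algebra.subset_adjoin rfl)
      · refine sup_le (fun y hy => ⟨algebraMap D S ⟨y, hy⟩, hg _⟩) ?_
        rw [Algebra.adjoin_le_iff]
        intro y hy
        rw [Set.mem_singleton_iff.1 hy]
        refine ⟨IsLocalization.mk' S (1 : D) (⟨a, Submonoid.mem_powers a⟩ : Submonoid.powers a), ?_⟩
        have h1 : algebraMap D S a * IsLocalization.mk' S (1 : D)
            (⟨a, Submonoid.mem_powers a⟩ : Submonoid.powers a) = algebraMap D S 1 :=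
          IsLocalization.mk'_spec' S 1 _
        have h2 := congrArg g h1
        rw [map_mul, hg, hg] at h2
        have h3 : (a : E) = x⁻¹ := rfl
        rw [h3] at h2
        change g _ = x
        have h4 : x⁻¹ * g (IsLocalization.mk' S (1 : D)
            (⟨a, Submonoid.mem_powers a⟩ : Submonoid.powers a)) = 1 := h2
        field_simp at h4
        exact h4
    have hDS : Algebra.Smooth D S := Algebra.Smooth.of_isLocalization_Away a
    have hkS : Algebra.Smooth k S := Algebra.Smooth.comp k D S
    exact Algebra.Smooth.of_equiv ((AlgEquiv.ofInjective g hginj).trans (Subalgebra.equivOfEq _ _ hgr))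

lemma smooth_adjoin_fin {J : Type} [Finite J] (D : Subalgebra k E) (hD : Algebra.Smooth k D)
    (x : J → E) (hx : ∀ j, x j ∈ D ∨ (x j)⁻¹ ∈ D) :
    Algebra.Smooth k (D ⊔ Algebra.adjoin k (Set.range x) : Subalgebra k E) := by
  classical
  have : Fintype J := Fintype.ofFinite J
  have key : ∀ s : Finset J, Algebra.Smooth k (D ⊔ Algebra.adjoin k (x '' s) : Subalgebra k E) := by
    intro s
    induction s using Finset.induction_on with
    | empty =>
      have : (D ⊔ Algebra.adjoin k (x '' (∅ : Finset J)) : Subalgebra k E) = D := by simp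
      rw [this]
      exact hD
    | insert a s _ ih =>
      have e : (D ⊔ Algebra.adjoin k (x '' ((insert a s : Finset J) : Set J)) : Subalgebra k E) =
          (D ⊔ Algebra.adjoin k (x '' (s : Set J))) ⊔ Algebra.adjoin k {x a} := by
        rw [Finset.coe_insert, Set.image_insert_eq, Set.insert_eq, Algebra.adjoin_union, sup_assoc,
          sup_comm (Algebra.adjoin k {x a})]
      rw [e]
      refine smooth_adjoin_one _ ih (x a) ?_
      rcases hx a with h | h
      · exact Or.inl ((le_sup_left : D ≤ _) h)
      · exact Or.inr ((le_sup_left : D ≤ _) h)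
  have h1 := key Finset.univ
  rw [Finset.coe_univ, Set.image_univ] at h1
  exact h1

end loc

section lin

variable {σ J : Type} [Fintype σ] [DecidableEq σ] {E : Type u} [Field E] (α : J → σ → E)
  (b : J → E)

/-- The affine linear functions. -/
noncomputable def ell (j : J) : MvPolynomial σ E := ∑ a, C (α j a) * X a + C (b j)

/-- The minors. -/
noncomputable def dlt (f : σ → J) : E := Matrix.det (fun a c => α (f a) c)

/-- The quotients of the minors. -/
noncomputable def quo (f : σ → J) (j : J) (a : σ) : E := dlt α (Function.update f a j) / dlt α f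

/-- The constants. -/
noncomputable def cst (f : σ → J) (j : J) : E := b j - ∑ a, quo α f j a * b (f a)

lemma cramer_rows (f : σ → J) (hf : dlt α f ≠ 0) (j : J) (c : σ) :
    ∑ a, quo α f j a * α (f a) c = α j c := by
  let M : Matrix σ σ E := fun a c => α (f a) c
  have h1 : M.transpose.mulVec (M.transpose.cramer (α j)) c = dlt α f * α j c := by
    have h0 := congrFun (Matrix.mulVec_cramer M.transpose (α j)) c
    rw [Matrix.det_transpose, Pi.smul_apply, smul_eq_mul] at h0
    exact h0
  have h2 : ∀ a, Matrix.cramer M.transpose (α j) a = dlt α (Function.update f a j) := by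
    intro a
    rw [Matrix.cramer_transpose_apply]
    unfold dlt
    congr 1
    funext i l
    by_cases hi : i = a
    · subst hi
      rw [Matrix.updateRow_self, Function.update_self]
    · rw [Matrix.updateRow_ne hi, Function.update_of_ne hi]
  have h3 : ∑ a, dlt α (Function.update f a j) * α (f a) c = dlt α f * α j c := by
    rw [← h1]
    refine Finset.sum_congr rfl fun a _ => ?_
    rw [h2, mul_comm]
    rfl
  unfold quo
  have h4 : ∑ a, dlt α (Function.update f a j) / dlt α f * α (f a) c =
      (∑ a, dlt α (Function.update f a j) * α (f a) c) / dlt α f := by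
    rw [Finset.sum_div]
    exact Finset.sum_congr rfl fun a _ => by ring
  rw [h4, h3, mul_div_cancel_left₀ _ hf]

lemma ell_eq (f : σ → J) (hf : dlt α f ≠ 0) (j : J) :
    ell α b j = ∑ a, C (quo α f j a) * ell α b (f a) + C (cst α b f j) := by
  unfold ell cst
  have e1 : ∑ a, C (quo α f j a) * (∑ c, C (α (f a) c) * X c + C (b (f a)) :
      MvPolynomial σ E) = ∑ c, C (α j c) * X c + C (∑ a, quo α f j a * b (f a)) := by
    simp only [mul_add, Finset.sum_add_distrib, Finset.mul_sum]
    congr 1
    · rw [Finset.sum_comm]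
      refine Finset.sum_congr rfl fun c _ => ?_
      rw [← cramer_rows α f hf j c, map_sum, Finset.sum_mul]
      refine Finset.sum_congr rfl fun a _ => ?_
      rw [C_mul, mul_assoc]
    · rw [map_sum]
      exact Finset.sum_congr rfl fun a _ => by rw [C_mul]
  rw [e1, C_sub]
  ring

/-- The new coordinates. -/
noncomputable def psi (f : σ → J) : MvPolynomial σ E →ₐ[E] MvPolynomial σ E :=
  aeval fun a => ell α b (f a)

lemma psi_X (f : σ → J) (a : σ) : psi α b f (X a) = ell α b (f a) := aeval_X _ _

lemma psi_C (f : σ → J) (x : E) : psi α b f (C x) = C x := aeval_C _ _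

lemma psi_injective (f : σ → J) (hf : dlt α f ≠ 0) : Function.Injective (psi α b f) := by
  let M : Matrix σ σ E := fun a c => α (f a) c
  have hM : IsUnit M.det := IsUnit.mk0 _ hf
  let Φ : MvPolynomial σ E →ₐ[E] MvPolynomial σ E :=
    aeval fun c => ∑ a, C (M⁻¹ c a) * (X a - C (b (f a)))
  have h : Φ.comp (psi α b f) = AlgHom.id E _ := by
    apply MvPolynomial.algHom_ext
    intro a
    rw [AlgHom.comp_apply, psi_X]
    unfold ell
    rw [map_add, map_sum]
    have e1 : ∀ x : E, Φ (C x) = C x := fun x => aeval_C _ _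
    rw [e1]
    have e2 : ∑ c, Φ (C (α (f a) c) * X c) = X a - C (b (f a)) := by
      have e3 : ∀ c, Φ (C (α (f a) c) * X c) =
          ∑ a', C (M a c * M⁻¹ c a') * (X a' - C (b (f a'))) := by
        intro c
        rw [map_mul, e1]
        have e4 : Φ (X c) = ∑ a, C (M⁻¹ c a) * (X a - C (b (f a))) := aeval_X _ _
        rw [e4, Finset.mul_sum]
        refine Finset.sum_congr rfl fun a' _ => ?_
        rw [C_mul, mul_assoc]
      rw [Finset.sum_congr rfl fun c _ => e3 c, Finset.sum_comm]
      have e5 : ∀ a', ∑ c, C (M a c * M⁻¹ c a') * (X a' - C (b (f a'))) =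
          C ((M * M⁻¹) a a') * (X a' - C (b (f a'))) := by
        intro a'
        rw [← Finset.sum_mul, ← map_sum]
        rfl
      rw [Finset.sum_congr rfl fun a' _ => e5 a', Matrix.mul_nonsing_inv M hM,
        Finset.sum_eq_single a]
      · rw [Matrix.one_apply_eq, C_1, one_mul]
      · intro a' _ ha'
        rw [Matrix.one_apply_ne ha'.symm, C_0, zero_mul]
      · intro h0
        exact absurd (Finset.mem_univ a) h0
    rw [e2]
    change X a - C (b (f a)) + C (b (f a)) = X a
    ring
  intro x y hxy
  have h1 := congrArg Φ hxy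
  have h2 : ∀ z, Φ (psi α b f z) = z := fun z => congrArg (fun φ => φ z) h
  rwa [h2, h2] at h1

/-- The translation in the new coordinates. -/
lemma psi_tr (f : σ → J) (w : σ → E) (g : MvPolynomial σ E) :
    (tr (fun a => ∑ c, α (f a) c * w c) g).map (psi α b f : MvPolynomial σ E →+* _) =
      tr w (psi α b f g) := by
  have : (Polynomial.mapRingHom (psi α b f : MvPolynomial σ E →+* MvPolynomial σ E)).comp
      (tr (fun a => ∑ c, α (f a) c * w c)).toRingHom =
      (tr w).toRingHom.comp (psi α b f : MvPolynomial σ E →+* MvPolynomial σ E) := by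
    apply MvPolynomial.ringHom_ext
    · intro x
      change (tr _ (C x)).map (psi α b f : MvPolynomial σ E →+* _) = tr w (psi α b f (C x))
      rw [tr_C, psi_C, tr_C, Polynomial.map_C]
      exact congrArg _ (psi_C α b f x)
    · intro a
      change (tr _ (X a)).map (psi α b f : MvPolynomial σ E →+* _) = tr w (psi α b f (X a))
      rw [tr_X, psi_X, Polynomial.map_add, Polynomial.map_mul, Polynomial.map_C, Polynomial.map_C,
        Polynomial.map_X]
      have e1 : (psi α b f : MvPolynomial σ E →+* MvPolynomial σ E) (X a) = ell α b (f a) :=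
        psi_X α b f a
      have e2 : (psi α b f : MvPolynomial σ E →+* MvPolynomial σ E)
          (C (∑ c, α (f a) c * w c)) = C (∑ c, α (f a) c * w c) := psi_C α b f _
      rw [e1, e2]
      have e3 : ∀ c, tr w (C (α (f a) c) * X c) = Polynomial.C (C (α (f a) c) * X c) +
          Polynomial.X * Polynomial.C (C (α (f a) c * w c)) := by
        intro c
        rw [map_mul, tr_C, tr_X, C_mul, Polynomial.C_mul, Polynomial.C_mul]
        ring
      have e4 : tr w (ell α b (f a)) = ∑ c, tr w (C (α (f a) c) * X c) +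
          Polynomial.C (C (b (f a))) := by
        unfold ell
        rw [map_add, map_sum, tr_C]
      rw [e4, Finset.sum_congr rfl fun c _ => e3 c, Finset.sum_add_distrib, ← Finset.mul_sum]
      unfold ell
      simp only [map_add, map_sum]
      ring
  exact congrArg (fun φ : MvPolynomial σ E →+* _ => φ g) this

lemma psi_mem_inv {p : ℕ} [hp : Fact p.Prime] (f : σ → J) (hf : dlt α f ≠ 0) (c : E) (w : σ → E)
    (g : MvPolynomial σ E) :
    psi α b f g ∈ inv p c w ↔ g ∈ inv p c (fun a => ∑ e, α (f a) e * w e) := by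
  rw [mem_inv, mem_inv, ← psi_tr]
  have h1 : (mo1 p (C c) : Polynomial (MvPolynomial σ E)) =
      (mo1 p (C c)).map (psi α b f : MvPolynomial σ E →+* _) := by
    unfold mo1
    rw [Polynomial.map_sub, Polynomial.map_mul, Polynomial.map_pow, Polynomial.map_X,
      Polynomial.map_C]
    congr 3
    exact (psi_C α b f c).symm
  have h2 : Polynomial.C (psi α b f g) =
      (Polynomial.C g).map (psi α b f : MvPolynomial σ E →+* _) := by
    rw [Polynomial.map_C]; rfl
  conv_lhs => rw [h1, h2, ← Polynomial.map_sub]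
  exact Polynomial.map_dvd_map _ (psi_injective α b f hf) (mo1_monic (p := p) _)

end lin

section chart

variable {σ J : Type} [Fintype σ] [DecidableEq σ] [Finite J] {k E : Type u} [Field k] [Field E]
  [Algebra k E]

/-- The item in the new coordinates. -/
noncomputable def nu (α : J → σ → E) (f : σ → J) (it : E × (σ → E)) : E × (σ → E) :=
  (it.1, fun a => ∑ e, α (f a) e * it.2 e)

/-- The functions which have to be comparable. -/
noncomputable def funsL (p : ℕ) (α : J → σ → E) (b : J → E) (l : List (E × (σ → E))) : Set E :=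
  {1} ∪ (Set.range (dlt α) ∪ (Set.range (fun q : (σ → J) × J => cst α b q.1 q.2) ∪
    ⋃ f : σ → J, funs p l.length (l.map (nu α f))))

lemma funsL_finite (p : ℕ) (α : J → σ → E) (b : J → E) (l : List (E × (σ → E))) :
    (funsL p α b l).Finite := by
  unfold funsL
  refine (Set.finite_singleton _).union ((Set.finite_range _).union ((Set.finite_range _).union
    (Set.finite_iUnion fun f => funs_finite _ _ _)))

/-- **The charts.** -/
theorem chart_lin {p : ℕ} [hp : Fact p.Prime] [CharP E p] (α : J → σ → E) (b : J → E)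
    (hrk : ∃ f, dlt α f ≠ 0) (l : List (E × (σ → E))) (AE : Subalgebra E (MvPolynomial σ E))
    (hAE : ∀ f, f ∈ AE ↔ ∀ it ∈ l, f ∈ inv p it.1 it.2) (D : Subalgebra k E)
    (hD : Algebra.Smooth k D) (hc : ∀ it ∈ l, it.1 ∈ D)
    (hν : ∀ it ∈ l, ∀ j, ∑ e, α j e * it.2 e ∈ D)
    (hcmp : ∀ x ∈ funsL p α b l, ∀ y ∈ funsL p α b l, x ≠ 0 → y ≠ 0 → y / x ∈ D ∨ x / y ∈ D) :
    Algebra.Smooth k (cg AE (Set.range (ell α b)) D) := by
  classical
  have hval : Function.Injective D.val.toRingHom := Subtype.val_injective
  have m1 : (1 : E) ∈ funsL p α b l := Or.inl rfl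
  have m2 : ∀ f, dlt α f ∈ funsL p α b l := fun f => Or.inr (Or.inl ⟨f, rfl⟩)
  have m3 : ∀ f j, cst α b f j ∈ funsL p α b l := fun f j => Or.inr (Or.inr (Or.inl ⟨(f, j), rfl⟩))
  have m4 : ∀ f, ∀ x ∈ funs p l.length (l.map (nu α f)), x ∈ funsL p α b l := fun f x hx =>
    Or.inr (Or.inr (Or.inr (Set.mem_iUnion.2 ⟨f, hx⟩)))
  -- the pivot
  obtain ⟨f, hf, hfq⟩ := exists_pivot D.val.toRingHom (dlt α) (by
    obtain ⟨f, hf⟩ := hrk
    intro h
    exact hf (congrFun h f)) (by
    intro f g hf hg
    rcases hcmp _ (m2 f) _ (m2 g) hf hg with h | h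
    · exact Or.inl ⟨⟨_, h⟩, rfl⟩
    · exact Or.inr ⟨⟨_, h⟩, rfl⟩)
  have hq : ∀ j a, quo α f j a ∈ D := by
    intro j a
    obtain ⟨d, hd⟩ := hfq (Function.update f a j)
    have : quo α f j a = d := hd.symm
    rw [this]
    exact d.2
  -- the constants
  have hcs : ∀ j, cst α b f j ∈ D ∨ (cst α b f j)⁻¹ ∈ D := by
    intro j
    by_cases h0 : cst α b f j = 0
    · left; rw [h0]; exact D.zero_mem
    · rcases hcmp _ m1 _ (m3 f j) one_ne_zero h0 with h | h
      · left; rwa [div_one] at h
      · right; rwa [one_div] at h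
  obtain ⟨D', hD'⟩ : ∃ D' : Subalgebra k E,
      D' = D ⊔ Algebra.adjoin k (Set.range (cst α b f)) := ⟨_, rfl⟩
  have hsm : Algebra.Smooth k D' := by rw [hD']; exact smooth_adjoin_fin D hD _ hcs
  have hDD : D ≤ D' := by rw [hD']; exact le_sup_left
  have hcD : ∀ j, cst α b f j ∈ D' := by
    intro j
    rw [hD']
    exact (le_sup_right : Algebra.adjoin k (Set.range (cst α b f)) ≤ _)
      (Algebra.subset_adjoin ⟨j, rfl⟩)
  have hval' : Function.Injective D'.val.toRingHom := Subtype.val_injective
  have hcharD : CharP D' p := (RingHom.charP_iff D'.val.toRingHom hval' p).2 inferInstance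
  -- the translations in the new coordinates
  have hνD : ∀ it ∈ l, ∃ it' : D' × (σ → D'), mpi D'.val.toRingHom it' = nu α f it := by
    intro it hit
    refine ⟨(⟨it.1, hDD (hc it hit)⟩, fun a => ⟨_, hDD (hν it hit (f a))⟩), rfl⟩
  obtain ⟨l', hl'⟩ : ∃ l' : List (D' × (σ → D')), l'.map (mpi D'.val.toRingHom) =
      l.map (nu α f) := by
    have : ∀ m : List (E × (σ → E)), (∀ it ∈ m, ∃ it' : D' × (σ → D'),
        mpi D'.val.toRingHom it' = nu α f it) → ∃ m' : List (D' × (σ → D')),
        m'.map (mpi D'.val.toRingHom) = m.map (nu α f) := by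
      intro m
      induction m with
      | nil => intro _; exact ⟨[], rfl⟩
      | cons it m ih =>
        intro h
        obtain ⟨it', hit'⟩ := h it List.mem_cons_self
        obtain ⟨m', hm'⟩ := ih fun x hx => h x (List.mem_cons_of_mem _ hx)
        exact ⟨it' :: m', by rw [List.map_cons, List.map_cons, hit', hm']⟩
    exact this l hνD
  have hlen : l'.length ≤ l.length := by
    have := congrArg List.length hl'
    rw [List.length_map, List.length_map] at this
    exact this.le
  have hch : Chain p l' := by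
    refine chain_of_cmp p D'.val.toRingHom hval' l.length l' hlen ?_
    rw [hl']
    intro x hx y hy hx0 hy0
    rcases hcmp x (m4 f x hx) y (m4 f y hy) hx0 hy0 with h | h
    · exact Or.inl ⟨⟨_, hDD h⟩, rfl⟩
    · exact Or.inr ⟨⟨_, hDD h⟩, rfl⟩
  obtain ⟨φ, hφ, hφr⟩ := hch.exists_hom
  -- the chart
  let Θ : MvPolynomial σ D' →ₐ[k] MvPolynomial σ E :=
    ((psi α b f).restrictScalars k).comp (MvPolynomial.mapAlgHom D'.val)
  have hΘ : Function.Injective Θ :=
    (psi_injective α b f hf).comp (MvPolynomial.map_injective _ Subtype.val_injective)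
  have hΘX : ∀ a, Θ (X a) = ell α b (f a) := by
    intro a
    change psi α b f (MvPolynomial.map _ (X a)) = _
    rw [map_X, psi_X]
  have hΘC : ∀ x, Θ (C x) = C (x : E) := by
    intro x
    change psi α b f (MvPolynomial.map _ (C x)) = _
    rw [map_C, psi_C]
    rfl
  have hΘr : Θ.range = CG (Set.range (ell α b)) D := by
    apply le_antisymm
    · have hmem : ∀ x : D', (C (x : E) : MvPolynomial σ E) ∈ CG (Set.range (ell α b)) D := by
        rintro ⟨x, hx⟩
        change (C x : MvPolynomial σ E) ∈ CG (Set.range (ell α b)) D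
        rw [hD'] at hx
        have h1 : (D ⊔ Algebra.adjoin k (Set.range (cst α b f)) : Subalgebra k E) ≤
            (CG (Set.range (ell α b)) D).comap (IsScalarTower.toAlgHom k E (MvPolynomial σ E)) := by
          refine sup_le (fun y hy => C_mem_CG hy) ?_
          rw [Algebra.adjoin_le_iff]
          rintro _ ⟨j, rfl⟩
          change (C (cst α b f j) : MvPolynomial σ E) ∈ CG (Set.range (ell α b)) D
          have e : C (cst α b f j) = ell α b j - ∑ a, C (quo α f j a) * ell α b (f a) := by
            rw [ell_eq α b f hf j]; ring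
          rw [e]
          refine Subalgebra.sub_mem _ (G_mem_CG ⟨j, rfl⟩) (Subalgebra.sum_mem _ fun a _ =>
            Subalgebra.mul_mem _ (C_mem_CG (hq j a)) (G_mem_CG ⟨f a, rfl⟩))
        exact h1 hx
      rintro _ ⟨g, rfl⟩
      change Θ g ∈ _
      induction g using MvPolynomial.induction_on with
      | C x => rw [hΘC]; exact hmem x
      | add x y hx hy => rw [map_add]; exact Subalgebra.add_mem _ hx hy
      | mul_X x a hx =>
        rw [map_mul, hΘX]
        exact Subalgebra.mul_mem _ hx (G_mem_CG ⟨f a, rfl⟩)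
    · unfold CG
      rw [Algebra.adjoin_le_iff]
      rintro _ (⟨x, hx, rfl⟩ | ⟨j, rfl⟩)
      · exact ⟨C ⟨x, hDD hx⟩, hΘC _⟩
      · refine ⟨∑ a, C ⟨_, hDD (hq j a)⟩ * X a + C ⟨_, hcD j⟩, ?_⟩
        change Θ _ = _
        rw [map_add, map_sum, hΘC, ell_eq α b f hf j]
        congr 1
        refine Finset.sum_congr rfl fun a _ => ?_
        rw [map_mul, hΘC, hΘX]
  have hinv : ∀ g, Θ g ∈ AE ↔ ∃ g', φ g' = g := by
    intro g
    rw [← hφr, hAE]
    have h1 : ∀ it : D' × (σ → D'), g ∈ inv p it.1 it.2 ↔
        MvPolynomial.map D'.val.toRingHom g ∈ inv p (mpi D'.val.toRingHom it).1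
          (mpi D'.val.toRingHom it).2 := fun it =>
      (map_mem_inv (p := p) D'.val.toRingHom hval' it.1 it.2 g).symm
    have h2 : ∀ it : E × (σ → E), Θ g ∈ inv p it.1 it.2 ↔
        MvPolynomial.map D'.val.toRingHom g ∈ inv p (nu α f it).1 (nu α f it).2 := fun it =>
      psi_mem_inv α b f hf it.1 it.2 _
    constructor
    · intro h it hit
      rw [h1]
      have h3 : mpi D'.val.toRingHom it ∈ l.map (nu α f) := by
        rw [← hl']; exact List.mem_map_of_mem hit
      obtain ⟨it0, hit0, h4⟩ := List.mem_map.1 h3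
      rw [← h4, ← h2]
      exact h it0 hit0
    · intro h it hit
      rw [h2]
      have h3 : nu α f it ∈ l'.map (mpi D'.val.toRingHom) := by
        rw [hl']; exact List.mem_map_of_mem hit
      obtain ⟨it0, hit0, h4⟩ := List.mem_map.1 h3
      rw [← h4, ← h1]
      exact h it0 hit0
  have hr : (Θ.comp (φ.restrictScalars k)).range = cg AE (Set.range (ell α b)) D := by
    ext x
    constructor
    · rintro ⟨g, rfl⟩
      refine ⟨(hinv (φ g)).2 ⟨g, rfl⟩, ?_⟩
      rw [← hΘr]
      exact ⟨φ g, rfl⟩
    · rintro ⟨h1, h2⟩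
      rw [← hΘr] at h2
      obtain ⟨g, rfl⟩ := h2
      obtain ⟨g', rfl⟩ := (hinv g).1 h1
      exact ⟨g', rfl⟩
  have hψ : Function.Injective (Θ.comp (φ.restrictScalars k)) := hΘ.comp hφ
  have hDm : Algebra.Smooth D' (MvPolynomial σ D') := ⟨inferInstance, inferInstance⟩
  have hkm : Algebra.Smooth k (MvPolynomial σ D') := Algebra.Smooth.comp k D' (MvPolynomial σ D')
  exact Algebra.Smooth.of_equiv ((AlgEquiv.ofInjective _ hψ).trans (Subalgebra.equivOfEq _ _ hr))

end chart

end Pool.Agent.Q86.TO
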