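import Pool.Agent.Q86.TO11

/-!
# Families of affine subspaces modulo translations
-/

set_option autoImplicit false
set_option linter.unusedSectionVars false

universe u

open MvPolynomial Pool.Agent.W558 Pool.Agent.W418.LCI AlgebraicGeometry

namespace Pool.Agent.Q86.TO

section int

variable {σ J : Type} [Fintype σ] [DecidableEq σ] {k E : Type u} [Field k] [Field E]
  [Algebra k E] {p : ℕ} [hp : Fact p.Prime] [CharP E p]

/-- The evaluation at the affine linear functions. -/
noncomputable def ev (α : J → σ → E) (b : J → E) (Rb : Subalgebra k E) :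
    MvPolynomial J Rb →+* MvPolynomial σ E :=
  eval₂Hom ((C : E →+* MvPolynomial σ E).comp Rb.val.toRingHom) (ell α b)

lemma ev_C (α : J → σ → E) (b : J → E) (Rb : Subalgebra k E) (x : Rb) :
    ev α b Rb (C x) = C (x : E) := by
  unfold ev
  rw [coe_eval₂Hom, eval₂_C]
  rfl

lemma ev_X (α : J → σ → E) (b : J → E) (Rb : Subalgebra k E) (j : J) :
    ev α b Rb (X j) = ell α b j := by
  unfold ev
  rw [coe_eval₂Hom, eval₂_X]

lemma tr_ell (α : J → σ → E) (b : J → E) (w : σ → E) (j : J) :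
    tr w (ell α b j) = Polynomial.C (ell α b j) +
      Polynomial.X * Polynomial.C (C (∑ e, α j e * w e)) := by
  have e3 : ∀ c, tr w (C (α j c) * X c) = Polynomial.C (C (α j c) * X c) +
      Polynomial.X * Polynomial.C (C (α j c * w c)) := by
    intro c
    rw [map_mul, tr_C, tr_X, C_mul, Polynomial.C_mul, Polynomial.C_mul]
    ring
  have e4 : tr w (ell α b j) = ∑ c, tr w (C (α j c) * X c) + Polynomial.C (C (b j)) := by
    unfold ell
    rw [map_add, map_sum, tr_C]
  rw [e4, Finset.sum_congr rfl fun c _ => e3 c, Finset.sum_add_distrib, ← Finset.mul_sum]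
  unfold ell
  simp only [map_add, map_sum]
  ring

lemma ev_tr (α : J → σ → E) (b : J → E) (Rb : Subalgebra k E) (w : σ → E) (ν : J → Rb)
    (hν : ∀ j, (ν j : E) = ∑ e, α j e * w e) (g : MvPolynomial J Rb) :
    (tr ν g).map (ev α b Rb) = tr w (ev α b Rb g) := by
  have : (Polynomial.mapRingHom (ev α b Rb)).comp (tr ν).toRingHom =
      (tr w).toRingHom.comp (ev α b Rb) := by
    apply MvPolynomial.ringHom_ext
    · intro x
      change (tr _ (C x)).map (ev α b Rb) = tr w (ev α b Rb (C x))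
      rw [tr_C, ev_C, tr_C, Polynomial.map_C, ev_C]
    · intro j
      change (tr _ (X j)).map (ev α b Rb) = tr w (ev α b Rb (X j))
      rw [tr_X, ev_X, tr_ell, Polynomial.map_add, Polynomial.map_mul, Polynomial.map_C,
        Polynomial.map_C, Polynomial.map_X, ev_C, ev_X, hν]
  exact congrArg (fun φ : MvPolynomial J Rb →+* _ => φ g) this

lemma exists_int_ell (α : J → σ → E) (b : J → E) (Rb : Subalgebra k E) (l : List (E × (σ → E)))
    (hc : ∀ it ∈ l, it.1 ∈ Rb) (hν : ∀ it ∈ l, ∀ j, ∑ e, α j e * it.2 e ∈ Rb)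
    (AE : Subalgebra E (MvPolynomial σ E))
    (hAE : ∀ f, f ∈ AE ↔ ∀ it ∈ l, f ∈ inv p it.1 it.2) :
    ∀ g ∈ Set.range (ell α b), ∃ Q : Polynomial Rb, Q.Monic ∧ Q.natDegree ≠ 0 ∧
      Polynomial.aeval g (Q.map Rb.val.toRingHom) ∈ AE := by
  rintro _ ⟨j, rfl⟩
  have hval : Function.Injective Rb.val.toRingHom := Subtype.val_injective
  have hcR : CharP Rb p := (RingHom.charP_iff Rb.val.toRingHom hval p).2 inferInstance
  obtain ⟨Q, hQ, hQd, hQA⟩ := exists_int' (p := p) (κ := Fin l.length) (σ := J) (D := Rb)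
    (fun i => ⟨(l.get i).1, hc _ (List.get_mem l i)⟩)
    (fun i j => ⟨∑ e, α j e * (l.get i).2 e, hν _ (List.get_mem l i) j⟩) j
  refine ⟨Q, hQ, hQd, ?_⟩
  rw [hAE]
  intro it hit
  obtain ⟨i, rfl⟩ := List.get_of_mem hit
  have h1 := hQA i
  rw [mem_inv] at h1 ⊢
  have h2 := Polynomial.map_dvd (ev α b Rb) h1
  rw [Polynomial.map_sub, Polynomial.map_C, ev_tr α b Rb (l.get i).2 _ (fun j => rfl)] at h2
  have e1 : (mo1 p (C (⟨(l.get i).1, hc _ (List.get_mem l i)⟩ : Rb)) :
      Polynomial (MvPolynomial J Rb)).map (ev α b Rb) = mo1 p (C (l.get i).1) := by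
    unfold mo1
    rw [Polynomial.map_sub, Polynomial.map_mul, Polynomial.map_pow, Polynomial.map_X,
      Polynomial.map_C, ev_C]
  have e2 : ev α b Rb (Polynomial.aeval (X j : MvPolynomial J Rb) Q) =
      Polynomial.aeval (ell α b j) (Q.map Rb.val.toRingHom) := by
    rw [Polynomial.aeval_def, Polynomial.hom_eval₂, ev_X, Polynomial.aeval_def,
      Polynomial.eval₂_map]
    congr 1
    apply RingHom.ext
    intro a
    exact ev_C α b Rb a
  rw [e1, e2] at h2
  exact h2

/-- **Main theorem** for families of affine subspaces. -/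
theorem mainL [Finite J] {P : Set E} (hE : HasLMs k P) (Rb : Subalgebra k E) (hfg : GenBy Rb P)
    (hfr : ∀ x : E, ∃ a ∈ Rb, ∃ b ∈ Rb, b ≠ 0 ∧ x = a * b⁻¹)
    (α : J → σ → E) (b : J → E) (hrk : ∃ f, dlt α f ≠ 0) (l : List (E × (σ → E)))
    (hc : ∀ it ∈ l, it.1 ∈ Rb) (hν : ∀ it ∈ l, ∀ j, ∑ e, α j e * it.2 e ∈ Rb)
    (hF : ∀ x ∈ funsL p α b l, x ≠ 0 → x ∈ P)
    {A : Type u} [CommRing A] [IsDomain A] [Algebra k A] (g0 : A →ₐ[k] MvPolynomial σ E)
    (hg0 : Function.Injective g0)
    (hgr : ∀ x, (∃ a, g0 a = x) ↔ (∀ it ∈ l, x ∈ inv p it.1 it.2) ∧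
      x ∈ CG (Set.range (ell α b)) Rb) :
    IsResolvableVariety (X := Spec (CommRingCat.of A))
      (Spec.map (CommRingCat.ofHom (algebraMap k A))) := by
  classical
  obtain ⟨AE, hAE⟩ : ∃ AE : Subalgebra E (MvPolynomial σ E),
      ∀ f, f ∈ AE ↔ ∀ it ∈ l, f ∈ inv p it.1 it.2 := by
    refine ⟨⨅ it : {it // it ∈ l}, inv p it.1.1 it.1.2, fun f => ?_⟩
    rw [Algebra.mem_iInf]
    exact ⟨fun h it hit => h ⟨it, hit⟩, fun h it => h it.1 it.2⟩
  have hgr' : g0.range = cg AE (Set.range (ell α b)) Rb := by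
    ext x
    rw [mem_cg, hAE, ← hgr]
    exact Iff.rfl
  have hint := exists_int_ell α b Rb l hc hν AE hAE
  have hft : Algebra.FiniteType k A := general2_finiteType Rb hfg.fg AE (Set.range (ell α b))
    (Set.finite_range _) hint g0 hg0 hgr'
  refine isResolvableVariety_spec (general2 hE Rb hfg hfr _ (funsL_finite p α b l) hF AE
    (Set.range (ell α b)) hint ?_ g0 hg0 hgr')
  intro D hRD hD hcmp
  exact chart_lin α b hrk l AE hAE D hD (fun it hit => hRD (hc it hit))
    (fun it hit j => hRD (hν it hit j)) hcmp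

end int

section surf

variable {σ J : Type} [Fintype σ] [DecidableEq σ] [Finite J] {k : Type u} [Field k] {p : ℕ}
  [hp : Fact p.Prime] [CharP k p]

lemma CG_eq {R E : Type u} [CommRing R] [Algebra k R] [Field E] [Algebra k E] [Algebra R E]
    [IsScalarTower k R E] (G : Set (MvPolynomial σ E)) (x : MvPolynomial σ E) :
    x ∈ CG G (IsScalarTower.toAlgHom k R E).range ↔ x ∈ Algebra.adjoin R G := by
  constructor
  · intro hx
    have h1 : CG G (IsScalarTower.toAlgHom k R E).range ≤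
        (Algebra.adjoin R G).restrictScalars k := by
      unfold CG
      rw [Algebra.adjoin_le_iff]
      rintro _ (⟨_, ⟨a, rfl⟩, rfl⟩ | hx)
      · exact (Algebra.adjoin R G).algebraMap_mem a
      · exact Algebra.subset_adjoin hx
    exact h1 hx
  · intro hx
    induction hx using Algebra.adjoin_induction with
    | mem x hx => exact G_mem_CG hx
    | algebraMap r => exact C_mem_CG ⟨r, rfl⟩
    | add x y _ _ hx hy => exact Subalgebra.add_mem _ hx hy
    | mul x y _ _ hx hy => exact Subalgebra.mul_mem _ hx hy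

/-- **Main theorem** for families of affine subspaces over bases with log models. -/
theorem main_surf {R : Type u} [CommRing R] [IsDomain R] [Algebra k R] [Algebra.FiniteType k R]
    (hE : HasLM k (FractionRing R)) (α : J → σ → FractionRing R) (b : J → FractionRing R)
    (hrk : ∃ f, dlt α f ≠ 0) (l : List (R × (σ → FractionRing R)))
    (hν : ∀ it ∈ l, ∀ j, ∃ a : R, algebraMap R (FractionRing R) a = ∑ e, α j e * it.2 e)
    (A : Subalgebra R (MvPolynomial σ (FractionRing R)))
    (hA : ∀ f, f ∈ A ↔ f ∈ Algebra.adjoin R (Set.range (ell α b)) ∧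
      ∀ it ∈ l, f ∈ inv p (algebraMap R (FractionRing R) it.1) it.2) :
    IsResolvableVariety (X := Spec (CommRingCat.of A))
      (Spec.map (CommRingCat.ofHom (algebraMap k A))) := by
  classical
  let E := FractionRing R
  have hcE : CharP E p := charP_of_injective_algebraMap (algebraMap k E).injective p
  refine mainL (p := p) (hasLMs_of hE) (IsScalarTower.toAlgHom k R E).range ?_ ?_ α b hrk
    (l.map fun it => (algebraMap R E it.1, it.2)) ?_ ?_ (fun x _ _ => Set.mem_univ x)
    (A.val.restrictScalars k) Subtype.val_injective ?_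
  · obtain ⟨S, hS⟩ := (inferInstance : Algebra.FiniteType k R)
    refine ⟨S.image (algebraMap R E), ?_, fun x _ _ => Set.mem_univ x⟩
    have h1 := congrArg (Subalgebra.map (IsScalarTower.toAlgHom k R E)) hS
    rw [AlgHom.map_adjoin, Algebra.map_top] at h1
    rw [Finset.coe_image]
    exact h1
  · intro x
    obtain ⟨a, c, hc, rfl⟩ := IsFractionRing.div_surjective (A := R) x
    refine ⟨_, ⟨a, rfl⟩, _, ⟨c, rfl⟩, ?_, div_eq_mul_inv _ _⟩
    exact (FaithfulSMul.algebraMap_eq_zero_iff R E).not.2 (nonZeroDivisors.ne_zero hc)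
  · intro it hit
    obtain ⟨it', -, rfl⟩ := List.mem_map.1 hit
    exact ⟨it'.1, rfl⟩
  · intro it hit j
    obtain ⟨it', hit', rfl⟩ := List.mem_map.1 hit
    obtain ⟨a, ha⟩ := hν it' hit' j
    exact ⟨a, ha⟩
  · intro x
    rw [CG_eq]
    constructor
    · rintro ⟨a, rfl⟩
      obtain ⟨h1, h2⟩ := (hA a.1).1 a.2
      refine ⟨fun it hit => ?_, h1⟩
      obtain ⟨it', hit', rfl⟩ := List.mem_map.1 hit
      exact h2 it' hit'
    · rintro ⟨h1, h2⟩
      have h3 : ∀ it ∈ l, x ∈ inv p (algebraMap R (FractionRing R) it.1) it.2 := fun it hit =>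
        h1 (algebraMap R (FractionRing R) it.1, it.2) (List.mem_map.2 ⟨it, hit, rfl⟩)
      exact ⟨⟨x, (hA x).2 ⟨h2, h3⟩⟩, rfl⟩

end surf

end Pool.Agent.Q86.TO
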