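import Pool.Agent.Q86.TO7

/-!
# Quotients by translations along products of linear forms
-/

set_option autoImplicit false
set_option linter.unusedSectionVars false

universe u

open MvPolynomial Pool.Agent.W558 Pool.Agent.W418.LCI Pool.Agent.W418.Lin AlgebraicGeometry

namespace Pool.Agent.Q86.TO

section frac

variable {k R E K : Type u} [Field k] [CommRing R] [IsDomain R] [Algebra k R] [Field E]
  [Algebra k E] [Algebra R E] [IsScalarTower k R E] [IsFractionRing R E] [Field K] [Algebra k K]
  [Algebra E K] [IsScalarTower k E K] {a : ℕ}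

/-- The embedding of the polynomial ring. -/
noncomputable def emb (x : Fin a → K) : MvPolynomial (Fin a) R →ₐ[k] K :=
  ((aeval x : MvPolynomial (Fin a) E →ₐ[E] K).restrictScalars k).comp
    (MvPolynomial.mapAlgHom (IsScalarTower.toAlgHom k R E))

lemma emb_C (x : Fin a → K) (b : R) :
    emb (k := k) (E := E) x (C b) = algebraMap E K (algebraMap R E b) := by
  change aeval x (MvPolynomial.map _ (C b)) = _
  rw [map_C, aeval_C]
  rfl

lemma emb_X (x : Fin a → K) (i : Fin a) : emb (k := k) (R := R) (E := E) x (X i) = x i := by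
  change aeval x (MvPolynomial.map _ (X i)) = _
  rw [map_X, aeval_X]

lemma emb_injective (x : Fin a → K) (hx : AlgebraicIndependent E x) :
    Function.Injective (emb (k := k) (R := R) (E := E) x) := by
  have h1 : Function.Injective (MvPolynomial.map (σ := Fin a) (algebraMap R E)) :=
    MvPolynomial.map_injective _ (IsFractionRing.injective R E)
  exact Function.Injective.comp (g := aeval x) (f := MvPolynomial.map (algebraMap R E)) hx h1

lemma emb_frac (x : Fin a → K)
    (hK : ∀ z : K, ∃ f g : MvPolynomial (Fin a) E, aeval x g ≠ 0 ∧ z = aeval x f / aeval x g)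
    (z : K) : ∃ f g : MvPolynomial (Fin a) R, z = emb (k := k) (E := E) x f /
      emb (k := k) (E := E) x g := by
  obtain ⟨f, g, hg, rfl⟩ := hK z
  have hcl : ∀ f : MvPolynomial (Fin a) E, ∃ (d : R) (f' : MvPolynomial (Fin a) R), d ≠ 0 ∧
      C (algebraMap R E d) * f = MvPolynomial.map (algebraMap R E) f' := by
    intro f
    induction f using MvPolynomial.induction_on with
    | C b =>
      obtain ⟨u, w, hw, rfl⟩ := IsFractionRing.div_surjective (A := R) b
      refine ⟨w, C u, nonZeroDivisors.ne_zero hw, ?_⟩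
      rw [map_C, ← C_mul, mul_div_cancel₀]
      exact (FaithfulSMul.algebraMap_eq_zero_iff R E).not.2 (nonZeroDivisors.ne_zero hw)
    | add f g hf hg =>
      obtain ⟨d, f', hd, hf⟩ := hf
      obtain ⟨d', g', hd', hg⟩ := hg
      refine ⟨d * d', C d' * f' + C d * g', mul_ne_zero hd hd', ?_⟩
      have e1 : MvPolynomial.map (algebraMap R E) (C d' * f' + C d * g') =
          C (algebraMap R E d') * MvPolynomial.map (algebraMap R E) f' +
            C (algebraMap R E d) * MvPolynomial.map (algebraMap R E) g' := by
        rw [map_add, map_mul, map_mul, map_C, map_C]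
      rw [e1, ← hf, ← hg, map_mul, C_mul]
      ring
    | mul_X f i hf =>
      obtain ⟨d, f', hd, hf⟩ := hf
      refine ⟨d, f' * X i, hd, ?_⟩
      rw [map_mul, map_X, ← hf]
      ring
  obtain ⟨d, f', hd, hf⟩ := hcl f
  obtain ⟨d', g', hd', hg'⟩ := hcl g
  have hE : ∀ f', emb (k := k) (E := E) x f' = aeval x (MvPolynomial.map (algebraMap R E) f') :=
    fun f' => rfl
  have hne : ∀ d : R, d ≠ 0 → algebraMap E K (algebraMap R E d) ≠ 0 := by
    intro d hd
    rw [Ne, map_eq_zero, FaithfulSMul.algebraMap_eq_zero_iff]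
    exact hd
  have h1 := hne d hd
  have h2 := hne d' hd'
  refine ⟨C d' * f', C d * g', ?_⟩
  rw [map_mul, map_mul, emb_C, emb_C, hE, hE, ← hf, ← hg', map_mul, map_mul, aeval_C, aeval_C]
  field_simp

end frac

section final

variable {σ : Type} [DecidableEq σ] [Finite σ] {k : Type u} [Field k] [PerfectField k]

/-- **Main theorem** for products of linear forms. -/
theorem main_lin {p : ℕ} [hp : Fact p.Prime] {R : Type u} [CharP k p] [CommRing R] [IsDomain R]
    [Algebra k R] [Algebra.FiniteType k R] (hE : HasLM k (FractionRing R)) {a : ℕ}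
    (l : List (MvPolynomial (Fin a) R × (σ → MvPolynomial (Fin a) R)))
    (μ : σ → MvPolynomial (Fin a) R)
    (hμ : ∀ j, ∃ (d : ℕ) (b : Fin d → Fin a → R), μ j = ∏ i, ∑ q, C (b i q) * X q)
    (h : ∀ it ∈ l, (∃ c : R, it.1 = C c) ∧ ∀ j, ∃ e : R, it.2 j = C e * μ j)
    (A : Subalgebra (MvPolynomial (Fin a) R) (MvPolynomial σ (MvPolynomial (Fin a) R)))
    (hA : ∀ f, f ∈ A ↔ ∀ it ∈ l, f ∈ inv p it.1 it.2) :
    IsResolvableVariety (X := Spec (CommRingCat.of A))
      (Spec.map (CommRingCat.ofHom (algebraMap k A))) := by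
  classical
  let E := FractionRing R
  let K := FractionRing (MvPolynomial (Fin a) E)
  let x : Fin a → K := fun i => algebraMap (MvPolynomial (Fin a) E) K (X i)
  have hxa : ∀ f, aeval x f = algebraMap (MvPolynomial (Fin a) E) K f := by
    intro f
    have : (aeval x : MvPolynomial (Fin a) E →ₐ[E] K) = IsScalarTower.toAlgHom E _ K := by
      apply MvPolynomial.algHom_ext
      intro i
      rw [aeval_X]
      rfl
    rw [this]
    rfl
  have hx : AlgebraicIndependent E x := by
    rw [algebraicIndependent_iff]
    intro f hf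
    rw [hxa] at hf
    exact (FaithfulSMul.algebraMap_eq_zero_iff (MvPolynomial (Fin a) E) K).1 hf
  let ε : MvPolynomial (Fin a) R →ₐ[k] K := emb (k := k) (E := E) x
  have hε : Function.Injective ε := emb_injective x hx
  letI : Algebra (MvPolynomial (Fin a) R) K := ε.toRingHom.toAlgebra
  have tw : IsScalarTower k (MvPolynomial (Fin a) R) K :=
    IsScalarTower.of_algebraMap_eq fun c => (ε.commutes c).symm
  have hfs : FaithfulSMul (MvPolynomial (Fin a) R) K :=
    (faithfulSMul_iff_algebraMap_injective _ _).2 hε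
  have hfr : IsFractionRing (MvPolynomial (Fin a) R) K := by
    refine IsFractionRing.of_field _ _ fun z => ?_
    refine emb_frac (k := k) x (fun z => ?_) z
    obtain ⟨f, g, hg, rfl⟩ := IsFractionRing.div_surjective (A := MvPolynomial (Fin a) E) z
    refine ⟨f, g, ?_, ?_⟩
    · rw [hxa]
      exact (FaithfulSMul.algebraMap_eq_zero_iff _ K).not.2 (nonZeroDivisors.ne_zero hg)
    · rw [hxa, hxa]
  have hεC : ∀ b : R, algebraMap (MvPolynomial (Fin a) R) K (C b) =
      algebraMap E K (algebraMap R E b) := fun b => emb_C x b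
  have hεX : ∀ i, algebraMap (MvPolynomial (Fin a) R) K (X i) = x i := fun i => emb_X x i
  have hlin : ∀ b : Fin a → R, (∑ q, C (b q) * X q : MvPolynomial (Fin a) R) = 0 ∨
      algebraMap (MvPolynomial (Fin a) R) K (∑ q, C (b q) * X q) ∈ LinM (E := E) x := by
    intro b
    by_cases hb : b = 0
    · left
      rw [hb]
      simp
    · right
      have e1 : algebraMap (MvPolynomial (Fin a) R) K (∑ q, C (b q) * X q) =
          ∑ q, algebraMap E K (algebraMap R E (b q)) * x q := by
        rw [map_sum]
        refine Finset.sum_congr rfl fun q _ => ?_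
        rw [map_mul, hεC, hεX]
      rw [e1]
      refine lf_mem_linM x _ ?_
      intro h0
      apply hb
      funext q
      exact IsFractionRing.injective R E ((congrFun h0 q).trans (map_zero _).symm)
  have hEe : ∀ b : R, algebraMap E K (algebraMap R E b) ∈ (algebraMap E K).fieldRange :=
    fun b => ⟨_, rfl⟩
  -- the base
  have hgen : GenBy (IsScalarTower.toAlgHom k (MvPolynomial (Fin a) R) K).range
      (EM (algebraMap E K).fieldRange (LinM (E := E) x)) := by
    obtain ⟨S, hS⟩ := (inferInstance : Algebra.FiniteType k R)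
    have e1 : Algebra.adjoin k (((S.image (C : R → MvPolynomial (Fin a) R)) ∪
        (Finset.univ.image (X : Fin a → MvPolynomial (Fin a) R)) :
        Finset (MvPolynomial (Fin a) R)) : Set (MvPolynomial (Fin a) R)) = ⊤ := by
      rw [eq_top_iff]
      intro f _
      induction f using MvPolynomial.induction_on with
      | C b =>
        have hb : b ∈ Algebra.adjoin k (S : Set R) := by rw [hS]; trivial
        have h2 : C b ∈ (Algebra.adjoin k (S : Set R)).map
            (IsScalarTower.toAlgHom k R (MvPolynomial (Fin a) R)) := ⟨b, hb, rfl⟩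
        rw [AlgHom.map_adjoin] at h2
        refine Algebra.adjoin_mono ?_ h2
        rintro _ ⟨s, hs, rfl⟩
        rw [Finset.coe_union]
        exact Or.inl (Finset.mem_coe.2 (Finset.mem_image.2 ⟨s, hs, rfl⟩))
      | add f g hf hg => exact Subalgebra.add_mem _ (hf trivial) (hg trivial)
      | mul_X f i hf =>
        refine Subalgebra.mul_mem _ (hf trivial) (Algebra.subset_adjoin ?_)
        rw [Finset.coe_union]
        exact Or.inr (Finset.mem_coe.2 (Finset.mem_image.2 ⟨i, Finset.mem_univ i, rfl⟩))
    refine ⟨((S.image (C : R → MvPolynomial (Fin a) R)) ∪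
        (Finset.univ.image (X : Fin a → MvPolynomial (Fin a) R))).image
        (IsScalarTower.toAlgHom k (MvPolynomial (Fin a) R) K), ?_, ?_⟩
    · rw [Finset.coe_image, ← AlgHom.map_adjoin, e1, Algebra.map_top]
    · intro y hy _
      obtain ⟨f, hf, rfl⟩ := Finset.mem_image.1 hy
      rcases Finset.mem_union.1 hf with hf | hf
      · obtain ⟨s, hs, rfl⟩ := Finset.mem_image.1 hf
        exact ⟨_, hEe s, 1, Submonoid.one_mem _, (hεC s).trans (mul_one _).symm⟩
      · obtain ⟨i, -, rfl⟩ := Finset.mem_image.1 hf
        refine ⟨1, ⟨1, map_one _⟩, x i, ?_, (hεX i).trans (one_mul _).symm⟩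
        have h3 := lf_mem_linM (E := E) x (Pi.single i 1) (by
          intro h0
          have := congrFun h0 i
          rw [Pi.single_eq_same] at this
          exact one_ne_zero this)
        rw [Finset.sum_eq_single i] at h3
        · rw [Pi.single_eq_same, map_one, one_mul] at h3
          exact h3
        · intro j _ hj
          rw [Pi.single_eq_of_ne hj, map_zero, zero_mul]
        · intro h0
          exact absurd (Finset.mem_univ i) h0
  refine mainK (K := K) (hasLMs_lin hE x hx) hgen l ?_ A hA
  -- the functions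
  have hμ' : ∀ j, μ j = 0 ∨ algebraMap (MvPolynomial (Fin a) R) K (μ j) ∈ LinM (E := E) x := by
    intro j
    obtain ⟨d, b, hb⟩ := hμ j
    by_cases h0 : μ j = 0
    · exact Or.inl h0
    · right
      rw [hb, map_prod]
      refine Submonoid.prod_mem _ fun i _ => ?_
      refine (hlin (b i)).resolve_left fun h1 => h0 ?_
      rw [hb]
      exact Finset.prod_eq_zero (Finset.mem_univ i) h1
  intro y hy _
  refine funs_mul hp.out (algebraMap E K).fieldRange (LinM (E := E) x) (linM_inv x)
    (linM_ne x hx) l.length _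
    (fun j => if μ j = 0 then 1 else algebraMap (MvPolynomial (Fin a) R) K (μ j)) ?_ ?_ y hy
  · intro j
    change (if μ j = 0 then (1 : K) else algebraMap (MvPolynomial (Fin a) R) K (μ j)) ∈ _
    split
    · exact Submonoid.one_mem _
    · exact (hμ' j).resolve_left ‹_›
  · intro it hit
    obtain ⟨it', hit', rfl⟩ := List.mem_map.1 hit
    obtain ⟨⟨c, hc⟩, hv⟩ := h it' hit'
    refine ⟨1, Submonoid.one_mem _, ⟨_, hEe c, ?_⟩, fun j => ?_⟩
    · change algebraMap (MvPolynomial (Fin a) R) K it'.1 = _
      rw [hc, hεC, one_pow, mul_one]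
    · obtain ⟨e, he⟩ := hv j
      change ∃ e ∈ _, algebraMap (MvPolynomial (Fin a) R) K (it'.2 j) =
        e * ((if μ j = 0 then 1 else algebraMap (MvPolynomial (Fin a) R) K (μ j)) * 1⁻¹)
      rw [he, _root_.inv_one, mul_one]
      by_cases h0 : μ j = 0
      · refine ⟨0, Subfield.zero_mem _, ?_⟩
        rw [h0, mul_zero, map_zero, zero_mul]
      · refine ⟨_, hEe e, ?_⟩
        rw [if_neg h0, map_mul, hεC]

end final

end Pool.Agent.Q86.TO
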