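import Pool.Agent.Q86.TO12
import Pool.Agent.Q86.TO8

/-!
# Linear actions whose square is zero
-/

set_option autoImplicit false
set_option linter.unusedSectionVars false

universe u

open MvPolynomial Pool.Agent.W558 Pool.Agent.W418.LCI Pool.Agent.W418.Lin AlgebraicGeometry

namespace Pool.Agent.Q86.TO

section basis

variable {E : Type u} [Field E] {m : ℕ}

lemma exists_adapted_basis (W : Submodule E (Fin m → E)) :
    ∃ (s r : ℕ) (B : Module.Basis (Fin s ⊕ Fin r) E (Fin m → E)), (∀ a, B (Sum.inr a) ∈ W) ∧
      ∀ v ∈ W, ∀ c, B.repr v (Sum.inl c) = 0 := by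
  classical
  obtain ⟨W', hW'⟩ := W.exists_isCompl
  let b1 := Module.finBasis E W
  let b2 := Module.finBasis E W'
  let e := Submodule.prodEquivOfIsCompl W' W hW'.symm
  refine ⟨_, _, (b2.prod b1).map e, fun a => ?_, fun v hv c => ?_⟩
  · rw [Module.Basis.map_apply]
    have : (b2.prod b1) (Sum.inr a) = ((0 : W'), b1 a) := by
      rw [Module.Basis.prod_apply]
      rfl
    rw [this]
    change (((0 : W') : Fin m → E) + (b1 a : Fin m → E)) ∈ W
    rw [Submodule.coe_zero, zero_add]
    exact (b1 a).2
  · rw [Module.Basis.map_repr, LinearEquiv.trans_apply]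
    have : e.symm v = ((0 : W'), ⟨v, hv⟩) := by
      rw [LinearEquiv.symm_apply_eq]
      change v = ((0 : W') : Fin m → E) + v
      rw [Submodule.coe_zero, zero_add]
    rw [this]
    simp

end basis

section minor

lemma exists_minor_of_span {E : Type u} [Field E] {q m : ℕ} (α : Fin q → Fin m → E)
    (hspan : Submodule.span E (Set.range α) = ⊤) : ∃ f : Fin m → Fin q, dlt α f ≠ 0 := by
  classical
  obtain ⟨s, hs, hss, hli⟩ := exists_linearIndependent E (Set.range α)
  rw [hspan] at hss
  let B : Module.Basis s E (Fin m → E) := Module.Basis.mk hli (by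
    rw [Subtype.range_coe, hss])
  have hfin : Fintype s := FiniteDimensional.fintypeBasisIndex B
  have hcard : Fintype.card s = Fintype.card (Fin m) := by
    rw [← Module.finrank_eq_card_basis B, Module.finrank_fin_fun, Fintype.card_fin]
  let ε : Fin m ≃ s := (Fintype.equivOfCardEq hcard).symm
  choose g hg using fun x : s => hs x.2
  refine ⟨fun i => g (ε i), ?_⟩
  have hli' : LinearIndependent E (fun i => α (g (ε i))) := by
    have e : (fun i => α (g (ε i))) = (Subtype.val : s → (Fin m → E)) ∘ ε := by
      funext i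
      exact hg (ε i)
    rw [e]
    exact hli.comp _ ε.injective
  have h3 : IsUnit (Matrix.of fun i => α (g (ε i))) :=
    Matrix.linearIndependent_rows_iff_isUnit.1 hli'
  exact ((Matrix.isUnit_iff_isUnit_det _).1 h3).ne_zero

lemma span_of_injective {E : Type u} [Field E] {q m : ℕ} (α : Fin q → Fin m → E)
    (h : ∀ u : Fin m → E, (∀ j, ∑ i, α j i * u i = 0) → u = 0) :
    Submodule.span E (Set.range α) = ⊤ := by
  by_contra hne
  obtain ⟨φ, hφ, hφ0⟩ := Submodule.exists_le_ker_of_lt_top _ (lt_top_iff_ne_top.2 hne)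
  apply hφ
  have h1 : (fun i => φ (Pi.single i 1)) = 0 := by
    apply h
    intro j
    have h2 : φ (α j) = 0 := hφ0 (Submodule.subset_span ⟨j, rfl⟩)
    rw [← h2]
    conv_rhs => rw [pi_eq_sum_univ' (α j), map_sum]
    refine Finset.sum_congr rfl fun i _ => ?_
    rw [map_smul, smul_eq_mul]
  apply LinearMap.pi_ext'
  intro i
  apply LinearMap.ext_ring
  exact congrFun h1 i

end minor

section forms

variable {k E : Type u} [Field k] [Field E] [Algebra k E] {m s r : ℕ}

/-- The linear form with the coefficients `v`. -/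
noncomputable def frm (v : Fin m → E) : MvPolynomial (Fin m) E := ∑ i, C (v i) * X i

lemma frm_add (v w : Fin m → E) : frm (v + w) = frm v + frm w := by
  unfold frm
  rw [← Finset.sum_add_distrib]
  exact Finset.sum_congr rfl fun i _ => by rw [Pi.add_apply, C_add]; ring

lemma frm_smul (a : E) (v : Fin m → E) : frm (a • v) = C a * frm v := by
  unfold frm
  rw [Finset.mul_sum]
  exact Finset.sum_congr rfl fun i _ => by rw [Pi.smul_apply, smul_eq_mul, C_mul]; ring

lemma frm_sum {ι : Type*} (t : Finset ι) (v : ι → Fin m → E) :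
    frm (∑ i ∈ t, v i) = ∑ i ∈ t, frm (v i) := by
  classical
  induction t using Finset.induction_on with
  | empty => simp [frm]
  | insert a t ha ih => rw [Finset.sum_insert ha, Finset.sum_insert ha, frm_add, ih]

lemma frm_single (i : Fin m) : frm (Pi.single i (1 : E)) = X i := by
  unfold frm
  rw [Finset.sum_eq_single i]
  · rw [Pi.single_eq_same, C_1, one_mul]
  · intro l _ hl
    rw [Pi.single_eq_of_ne hl, C_0, zero_mul]
  · intro h; exact absurd (Finset.mem_univ i) h

variable (B : Module.Basis (Fin s ⊕ Fin r) E (Fin m → E))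

/-- The change of coordinates. -/
noncomputable def th0 : MvPolynomial (Fin m) E →ₐ[E] MvPolynomial (Fin s) (MvPolynomial (Fin r) E) :=
  aeval fun i => ∑ c, C (C (B.repr (Pi.single i 1) (Sum.inl c))) * X c +
    C (frm fun a => B.repr (Pi.single i 1) (Sum.inr a))

lemma th0_C (a : E) : th0 B (C a) = C (C a) := by
  exact (th0 B).commutes a

lemma th0_frm (v : Fin m → E) : th0 B (frm v) = ∑ c, C (C (B.repr v (Sum.inl c))) * X c +
    C (frm fun a => B.repr v (Sum.inr a)) := by
  have h1 : th0 B (frm v) = ∑ i, C (C (v i)) * (∑ c, C (C (B.repr (Pi.single i 1) (Sum.inl c))) *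
      X c + C (frm fun a => B.repr (Pi.single i 1) (Sum.inr a))) := by
    conv_lhs => unfold frm
    rw [map_sum]
    refine Finset.sum_congr rfl fun i _ => ?_
    rw [map_mul, th0_C]
    congr 1
    unfold th0
    rw [aeval_X]
  have hv : v = ∑ i, v i • Pi.single i (1 : E) := pi_eq_sum_univ' v |>.trans (by
    refine Finset.sum_congr rfl fun i _ => ?_
    congr 1)
  have h2 : ∀ x, B.repr v x = ∑ i, v i * B.repr (Pi.single i 1) x := by
    intro x
    conv_lhs => rw [hv]
    rw [map_sum, Finsupp.coe_finset_sum, Finset.sum_apply]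
    exact Finset.sum_congr rfl fun i _ => by rw [map_smul]; rfl
  rw [h1]
  simp only [mul_add, Finset.sum_add_distrib, Finset.mul_sum]
  congr 1
  · rw [Finset.sum_comm]
    refine Finset.sum_congr rfl fun c _ => ?_
    rw [h2, map_sum, map_sum, Finset.sum_mul]
    exact Finset.sum_congr rfl fun i _ => by rw [C_mul, C_mul, mul_assoc]
  · have h3 : (fun a => B.repr v (Sum.inr a)) =
        ∑ i, v i • fun a => B.repr (Pi.single i 1) (Sum.inr a) := by
      funext a
      rw [h2, Finset.sum_apply]
      rfl
    rw [h3, frm_sum, map_sum]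
    exact Finset.sum_congr rfl fun i _ => by rw [frm_smul, C_mul]

lemma th0_injective : Function.Injective (th0 B) := by
  let g : MvPolynomial (Fin r) E →ₐ[E] MvPolynomial (Fin m) E := aeval fun a => frm (B (Sum.inr a))
  let Φ : MvPolynomial (Fin s) (MvPolynomial (Fin r) E) →+* MvPolynomial (Fin m) E :=
    eval₂Hom (g : MvPolynomial (Fin r) E →+* _) fun c => frm (B (Sum.inl c))
  have hΦC : ∀ z, Φ (C z) = g z := fun z => by
    change eval₂Hom _ _ (C z) = _
    rw [coe_eval₂Hom, eval₂_C]
    rfl
  have hΦX : ∀ c, Φ (X c) = frm (B (Sum.inl c)) := fun c => by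
    change eval₂Hom _ _ (X c) = _
    rw [coe_eval₂Hom, eval₂_X]
  have hgC : ∀ a : E, g (C a) = C a := fun a => aeval_C _ _
  have hgf : ∀ v, g (frm v) = ∑ a, C (v a) * frm (B (Sum.inr a)) := by
    intro v
    conv_lhs => unfold frm
    rw [map_sum]
    refine Finset.sum_congr rfl fun a _ => ?_
    rw [map_mul, hgC]
    congr 1
    exact aeval_X _ _
  have h : Φ.comp (th0 B : MvPolynomial (Fin m) E →+* _) = RingHom.id _ := by
    apply MvPolynomial.ringHom_ext
    · intro a
      change Φ (th0 B (C a)) = C a
      rw [th0_C, hΦC, hgC]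
    · intro i
      change Φ (th0 B (X i)) = X i
      rw [← frm_single i, th0_frm, map_add, map_sum, hΦC, hgf]
      have h1 : ∀ c, Φ (C (C (B.repr (Pi.single i 1) (Sum.inl c))) * X c) =
          frm (B.repr (Pi.single i 1) (Sum.inl c) • B (Sum.inl c)) := by
        intro c
        rw [map_mul, hΦC, hΦX, hgC, frm_smul]
      rw [Finset.sum_congr rfl fun c _ => h1 c]
      have h2 : ∀ a, C (B.repr (Pi.single i 1) (Sum.inr a)) * frm (B (Sum.inr a)) =
          frm (B.repr (Pi.single i 1) (Sum.inr a) • B (Sum.inr a)) := fun a => (frm_smul _ _).symm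
      rw [Finset.sum_congr rfl fun a _ => h2 a, ← frm_sum, ← frm_sum, ← frm_add]
      congr 1
      have h3 := B.sum_repr (Pi.single i (1 : E))
      rw [Fintype.sum_sum_type] at h3
      exact h3
  intro x y hxy
  have h1 := congrArg Φ hxy
  have h2 : ∀ z, Φ (th0 B z) = z := fun z =>
    congrArg (fun φ : MvPolynomial (Fin m) E →+* _ => φ z) h
  rwa [h2, h2] at h1

end forms

section main

variable {k : Type u} [Field k] [PerfectField k] {p : ℕ} [hp : Fact p.Prime] [CharP k p]

/-- The linear action `u ↦ u + T N u`. -/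
noncomputable def trN {E : Type u} [CommRing E] {m : ℕ} (N : Fin m → Fin m → E) :
    MvPolynomial (Fin m) E →ₐ[E] Polynomial (MvPolynomial (Fin m) E) :=
  aeval fun i => Polynomial.C (X i) + Polynomial.X * Polynomial.C (∑ l, C (N i l) * X l)

/-- **Main theorem** for linear actions whose square is zero. -/
theorem main_sq {R : Type u} [CommRing R] [IsDomain R] [Algebra k R] [Algebra.FiniteType k R]
    (hE : HasLM k (FractionRing R)) {q m : ℕ} (α : Fin q → Fin m → FractionRing R)
    (hα : Submodule.span (FractionRing R) (Set.range α) = ⊤)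
    (N : Fin m → Fin m → FractionRing R)
    (hN2 : ∀ i l, ∑ j, N i j * N j l = 0) (N' : Fin q → Fin q → R)
    (hN' : ∀ j i, ∑ l, α j l * N l i = ∑ j', algebraMap R (FractionRing R) (N' j j') * α j' i)
    (c : R) (A : Subalgebra R (MvPolynomial (Fin m) (FractionRing R)))
    (hA : ∀ f, f ∈ A ↔ f ∈ Algebra.adjoin R (Set.range fun j => frm (α j)) ∧
      mo1 p (C (algebraMap R (FractionRing R) c)) ∣ trN N f - Polynomial.C f) :
    IsResolvableVariety (X := Spec (CommRingCat.of A))
      (Spec.map (CommRingCat.ofHom (algebraMap k A))) := by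
  classical
  obtain ⟨E, hEdef⟩ : ∃ E : Type u, E = FractionRing R := ⟨_, rfl⟩
  let E := FractionRing R
  have hcE : CharP E p := charP_of_injective_algebraMap (algebraMap k E).injective p
  -- multiplication of rows by `N`
  let μ : (Fin m → E) →ₗ[E] (Fin m → E) := Matrix.vecMulLinear (R := E) N
  have hμ : ∀ v i, μ v i = ∑ l, v l * N l i := fun v i => rfl
  have hμμ : ∀ v, μ (μ v) = 0 := by
    intro v
    funext i
    have h0 : μ (μ v) i = ∑ j, ∑ l, v l * N l j * N j i := by
      rw [hμ]
      refine Finset.sum_congr rfl fun j _ => ?_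
      rw [hμ]
      exact Finset.sum_mul _ (fun l => v l * N l j) (N j i)
    rw [h0, Finset.sum_comm]
    have : ∀ l, ∑ j, v l * N l j * N j i = 0 := by
      intro l
      have := hN2 l i
      calc ∑ j, v l * N l j * N j i = v l * ∑ j, N l j * N j i := by
            rw [Finset.mul_sum]; exact Finset.sum_congr rfl fun j _ => mul_assoc _ _ _
        _ = 0 := by rw [this, mul_zero]
    rw [Finset.sum_congr rfl fun l _ => this l, Finset.sum_const_zero]
    rfl
  obtain ⟨s, r, B, hB1, hB2⟩ := exists_adapted_basis (LinearMap.range μ)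
  have hB2' : ∀ v c, B.repr (μ v) (Sum.inl c) = 0 := fun v c => hB2 _ ⟨v, rfl⟩ c
  have hμr : ∀ a, μ (B (Sum.inr a)) = 0 := by
    intro a
    obtain ⟨v, hv⟩ := hB1 a
    rw [← hv, hμμ]
  -- the base field
  let K := FractionRing (MvPolynomial (Fin r) E)
  let x : Fin r → K := fun i => algebraMap (MvPolynomial (Fin r) E) K (X i)
  have hxa : ∀ f, aeval x f = algebraMap (MvPolynomial (Fin r) E) K f := by
    intro f
    have : (aeval x : MvPolynomial (Fin r) E →ₐ[E] K) = IsScalarTower.toAlgHom E _ K := by
      apply MvPolynomial.algHom_ext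
      intro i
      rw [aeval_X]
      rfl
    rw [this]
    rfl
  have hx : AlgebraicIndependent E x := by
    rw [algebraicIndependent_iff]
    intro f hf
    rw [hxa] at hf
    exact (FaithfulSMul.algebraMap_eq_zero_iff (MvPolynomial (Fin r) E) K).1 hf
  have hcK : CharP K p := charP_of_injective_algebraMap (algebraMap E K).injective p
  -- linear forms in `x`
  let lx : (Fin r → E) → K := fun v => ∑ a, algebraMap E K (v a) * x a
  have hlxa : ∀ v, lx v = algebraMap (MvPolynomial (Fin r) E) K (frm v) := by
    intro v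
    change ∑ a, algebraMap E K (v a) * x a = _
    unfold frm
    rw [map_sum]
    refine Finset.sum_congr rfl fun a _ => ?_
    rw [map_mul]
    rfl
  have hlx_add : ∀ v w, lx (v + w) = lx v + lx w := by
    intro v w
    rw [hlxa, hlxa, hlxa, frm_add, map_add]
  have hlx_smul : ∀ (e : E) v, lx (e • v) = algebraMap E K e * lx v := by
    intro e v
    rw [hlxa, hlxa, frm_smul, map_mul]
    rfl
  have hlx_EM : ∀ v, lx v ≠ 0 → lx v ∈ EM (algebraMap E K).fieldRange (LinM (E := E) x) := by
    intro v hv
    refine ⟨1, ⟨1, map_one _⟩, lx v, lf_mem_linM x v ?_, (one_mul _).symm⟩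
    intro h0
    apply hv
    change ∑ a, algebraMap E K (v a) * x a = 0
    rw [h0]
    simp
  -- the data over `K`
  let cr : (Fin m → E) → Fin r → E := fun v a => B.repr v (Sum.inr a)
  have hcr_add : ∀ v w, cr (v + w) = cr v + cr w := fun v w => by
    funext a
    change B.repr (v + w) _ = B.repr v _ + B.repr w _
    rw [map_add]; rfl
  have hcr_smul : ∀ (e : E) v, cr (e • v) = e • cr v := fun e v => by
    funext a
    change B.repr (e • v) _ = e * B.repr v _
    rw [map_smul]; rfl
  let α' : Fin q → Fin s → K := fun j c => algebraMap E K (B.repr (α j) (Sum.inl c))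
  let b' : Fin q → K := fun j => lx (cr (α j))
  let w : Fin s → K := fun c => lx (cr (μ (B (Sum.inl c))))
  -- the homomorphism
  let Θ : MvPolynomial (Fin m) E →ₐ[k] MvPolynomial (Fin s) K :=
    (MvPolynomial.mapAlgHom (IsScalarTower.toAlgHom k (MvPolynomial (Fin r) E) K)).comp
      ((th0 B).restrictScalars k)
  have hΘ : Function.Injective Θ := (MvPolynomial.map_injective _
    (IsFractionRing.injective (MvPolynomial (Fin r) E) K)).comp (th0_injective B)
  have hΘC : ∀ a : E, Θ (C a) = C (algebraMap E K a) := by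
    intro a
    change MvPolynomial.map _ (th0 B (C a)) = _
    rw [th0_C, map_C]
    rfl
  have hΘf : ∀ v, Θ (frm v) = ∑ c, C (algebraMap E K (B.repr v (Sum.inl c))) * X c +
      C (lx (cr v)) := by
    intro v
    change MvPolynomial.map _ (th0 B (frm v)) = _
    rw [th0_frm, map_add, map_sum, map_C, hlxa]
    congr 1
    refine Finset.sum_congr rfl fun c _ => ?_
    rw [map_mul, map_C, map_X]
    rfl
  have hΘℓ : ∀ j, Θ (frm (α j)) = ell α' b' j := fun j => hΘf (α j)
  have hΘμ : ∀ v, Θ (frm (μ v)) = C (lx (cr (μ v))) := by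
    intro v
    rw [hΘf]
    have : ∑ c, C (algebraMap E K (B.repr (μ v) (Sum.inl c))) * (X c : MvPolynomial (Fin s) K) =
        0 := by
      refine Finset.sum_eq_zero fun c _ => ?_
      rw [hB2', map_zero, C_0, zero_mul]
    rw [this, zero_add]
  -- the translation
  have hν : ∀ v, ∑ c, algebraMap E K (B.repr v (Sum.inl c)) * w c = lx (cr (μ v)) := by
    intro v
    have h1 : μ v = ∑ c, B.repr v (Sum.inl c) • μ (B (Sum.inl c)) := by
      conv_lhs => rw [← B.sum_repr v]
      rw [Fintype.sum_sum_type, map_add, map_sum, map_sum]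
      have : ∑ a, μ (B.repr v (Sum.inr a) • B (Sum.inr a)) = 0 := by
        refine Finset.sum_eq_zero fun a _ => ?_
        rw [map_smul, hμr, smul_zero]
      rw [this, add_zero]
      exact Finset.sum_congr rfl fun c _ => map_smul _ _ _
    let Λ : (Fin m → E) →ₗ[E] K :=
      { toFun := fun v => lx (cr v)
        map_add' := fun v w => by rw [hcr_add, hlx_add]
        map_smul' := fun e v => by
          rw [hcr_smul, hlx_smul, RingHom.id_apply, Algebra.smul_def] }
    have h2 : lx (cr (μ v)) = Λ (μ v) := rfl
    rw [h2, h1, map_sum]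
    refine Finset.sum_congr rfl fun c _ => ?_
    rw [map_smul, Algebra.smul_def]
    rfl
  have hνj : ∀ j, ∑ c, α' j c * w c = lx (cr (μ (α j))) := fun j => hν (α j)
  -- compatibility with the action
  have hact : ∀ f, (trN N f).map (Θ : MvPolynomial (Fin m) E →+* _) = tr w (Θ f) := by
    intro f
    have : (Polynomial.mapRingHom (Θ : MvPolynomial (Fin m) E →+* MvPolynomial (Fin s) K)).comp
        (trN N : MvPolynomial (Fin m) E →+* _) =
        ((tr w : MvPolynomial (Fin s) K →ₐ[K] _) : MvPolynomial (Fin s) K →+* _).comp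
          (Θ : MvPolynomial (Fin m) E →+* MvPolynomial (Fin s) K) := by
      apply MvPolynomial.ringHom_ext
      · intro a
        change (trN N (C a)).map (Θ : MvPolynomial (Fin m) E →+* _) = tr w (Θ (C a))
        have e1 : trN N (C a) = Polynomial.C (C a) := (trN N).commutes a
        have e2 : (Θ : MvPolynomial (Fin m) E →+* MvPolynomial (Fin s) K) (C a) =
          C (algebraMap E K a) := hΘC a
        rw [e1, Polynomial.map_C, e2, hΘC, tr_C]
      · intro i
        change (trN N (X i)).map (Θ : MvPolynomial (Fin m) E →+* _) = tr w (Θ (X i))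
        have e1 : trN N (X i) = Polynomial.C (X i) + Polynomial.X *
            Polynomial.C (∑ l, C (N i l) * X l) := aeval_X _ _
        have e2 : ∑ l, C (N i l) * X l = frm (μ (Pi.single i 1)) := by
          unfold frm
          refine Finset.sum_congr rfl fun l _ => ?_
          rw [hμ, Finset.sum_eq_single i]
          · rw [Pi.single_eq_same, one_mul]
          · intro l' _ hl'
            rw [Pi.single_eq_of_ne hl', zero_mul]
          · intro h; exact absurd (Finset.mem_univ i) h
        have e3 : (Θ : MvPolynomial (Fin m) E →+* MvPolynomial (Fin s) K)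
            (frm (μ (Pi.single i 1))) = C (lx (cr (μ (Pi.single i 1)))) := hΘμ _
        have e4 : Θ (X i) = ell (fun (_ : Unit) c => algebraMap E K
            (B.repr (Pi.single i 1) (Sum.inl c))) (fun _ => lx (cr (Pi.single i 1))) () := by
          rw [← frm_single i]
          exact hΘf _
        have e5 : (Θ : MvPolynomial (Fin m) E →+* MvPolynomial (Fin s) K) (X i) = Θ (X i) := rfl
        rw [e1, e2, Polynomial.map_add, Polynomial.map_mul, Polynomial.map_C, Polynomial.map_C,
          Polynomial.map_X, e3, e5, e4, tr_ell]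
        congr 3
        rw [hν]
    exact congrArg (fun φ : MvPolynomial (Fin m) E →+* _ => φ f) this
  have hdvd : ∀ f, mo1 p (C (algebraMap R E c)) ∣ trN N f - Polynomial.C f ↔
      Θ f ∈ inv p (algebraMap E K (algebraMap R E c)) w := by
    intro f
    rw [mem_inv, ← hact]
    have e1 : (mo1 p (C (algebraMap E K (algebraMap R E c))) : Polynomial (MvPolynomial (Fin s) K)) =
        (mo1 p (C (algebraMap R E c))).map (Θ : MvPolynomial (Fin m) E →+* _) := by
      unfold mo1
      rw [Polynomial.map_sub, Polynomial.map_mul, Polynomial.map_pow, Polynomial.map_X,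
        Polynomial.map_C]
      congr 3
      exact (hΘC _).symm
    have e2 : Polynomial.C (Θ f) = (Polynomial.C f).map (Θ : MvPolynomial (Fin m) E →+* _) := by
      rw [Polynomial.map_C]; rfl
    rw [e1, e2, ← Polynomial.map_sub]
    exact (Polynomial.map_dvd_map _ hΘ (mo1_monic (p := p) _)).symm
  -- the base ring
  obtain ⟨S, hS⟩ := (inferInstance : Algebra.FiniteType k R)
  let νj : Fin q → K := fun j => lx (cr (μ (α j)))
  let G : Finset K := S.image (fun a => algebraMap E K (algebraMap R E a)) ∪ Finset.univ.image νj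
  let Rb : Subalgebra k K := Algebra.adjoin k (G : Set K)
  have hRb1 : ∀ a : R, algebraMap E K (algebraMap R E a) ∈ Rb := by
    intro a
    let ψ : R →ₐ[k] K := (IsScalarTower.toAlgHom k E K).comp (IsScalarTower.toAlgHom k R E)
    have ha : a ∈ Algebra.adjoin k (S : Set R) := by rw [hS]; trivial
    have h2 : ψ a ∈ (Algebra.adjoin k (S : Set R)).map ψ := ⟨a, ha, rfl⟩
    rw [AlgHom.map_adjoin] at h2
    refine Algebra.adjoin_mono ?_ h2
    rintro _ ⟨t, ht, rfl⟩
    exact Finset.mem_coe.2 (Finset.mem_union_left _ (Finset.mem_image.2 ⟨t, ht, rfl⟩))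
  have hRb2 : ∀ j, νj j ∈ Rb := fun j => Algebra.subset_adjoin (Finset.mem_coe.2
    (Finset.mem_union_right _ (Finset.mem_image.2 ⟨j, Finset.mem_univ j, rfl⟩)))
  have hgen : GenBy Rb (EM (algebraMap E K).fieldRange (LinM (E := E) x)) := by
    refine ⟨G, rfl, fun y hy hy0 => ?_⟩
    rcases Finset.mem_union.1 hy with hy | hy
    · obtain ⟨t, -, rfl⟩ := Finset.mem_image.1 hy
      exact ⟨_, ⟨_, rfl⟩, 1, Submonoid.one_mem _, (mul_one _).symm⟩
    · obtain ⟨j, -, rfl⟩ := Finset.mem_image.1 hy
      exact hlx_EM _ hy0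
  have hfr : ∀ z : K, ∃ a ∈ Rb, ∃ b ∈ Rb, b ≠ 0 ∧ z = a * b⁻¹ := by
    let F : Subfield K := Subfield.closure (Rb : Set K)
    have hF0 : ∀ y ∈ Rb, y ∈ F := fun y hy => Subfield.subset_closure hy
    have hF1 : ∀ e : E, algebraMap E K e ∈ F := by
      intro e
      obtain ⟨a, b, hb, rfl⟩ := IsFractionRing.div_surjective (A := R) e
      rw [map_div₀]
      exact F.div_mem (hF0 _ (hRb1 a)) (hF0 _ (hRb1 b))
    have hF2 : ∀ v : Fin m → E, lx (cr (μ v)) ∈ F := by
      intro v
      have hv : v ∈ Submodule.span E (Set.range α) := by rw [hα]; trivial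
      induction hv using Submodule.span_induction with
      | mem v hv =>
        obtain ⟨j, rfl⟩ := hv
        exact hF0 _ (hRb2 j)
      | zero =>
        rw [map_zero]
        have : cr 0 = 0 := by
          funext a
          change B.repr 0 _ = 0
          rw [map_zero]; rfl
        rw [this]
        have : lx 0 = 0 := by
          change ∑ a, algebraMap E K ((0 : Fin r → E) a) * x a = 0
          simp
        rw [this]
        exact F.zero_mem
      | add v w _ _ hv hw =>
        rw [map_add, hcr_add, hlx_add]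
        exact F.add_mem hv hw
      | smul e v _ hv =>
        rw [map_smul, hcr_smul, hlx_smul]
        exact F.mul_mem (hF1 e) hv
    have hF3 : ∀ a, x a ∈ F := by
      intro a
      obtain ⟨v, hv⟩ := hB1 a
      have h1 := hF2 v
      rw [hv] at h1
      have h2 : cr (B (Sum.inr a)) = Pi.single a 1 := by
        funext a'
        change B.repr (B (Sum.inr a)) (Sum.inr a') = _
        rw [B.repr_self, Finsupp.single_apply, Pi.single_apply]
        simp only [Sum.inr.injEq, eq_comm]
      rw [h2] at h1
      have h3 : lx (Pi.single a 1) = x a := by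
        rw [hlxa, frm_single]
      rwa [h3] at h1
    have hF4 : ∀ f : MvPolynomial (Fin r) E, algebraMap (MvPolynomial (Fin r) E) K f ∈ F := by
      intro f
      induction f using MvPolynomial.induction_on with
      | C e => exact hF1 e
      | add f g hf hg => rw [map_add]; exact F.add_mem hf hg
      | mul_X f a hf => rw [map_mul]; exact F.mul_mem hf (hF3 a)
    intro z
    have hz : z ∈ F := by
      obtain ⟨f, g, hg, rfl⟩ := IsFractionRing.div_surjective (A := MvPolynomial (Fin r) E) z
      exact F.div_mem (hF4 f) (hF4 g)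
    obtain ⟨y, hy, y', hy', rfl⟩ := Subfield.mem_closure_iff.1 hz
    have hcl : ∀ y ∈ Subring.closure (Rb : Set K), y ∈ Rb := by
      intro y hy
      have : Subring.closure (Rb : Set K) ≤ Rb.toSubring := Subring.closure_le.2 fun _ h => h
      exact this hy
    by_cases h0 : y' = 0
    · refine ⟨0, Rb.zero_mem, 1, Rb.one_mem, one_ne_zero, ?_⟩
      rw [h0, div_zero, zero_mul]
    · exact ⟨y, hcl y hy, y', hcl y' hy', h0, div_eq_mul_inv _ _⟩
  -- `N'`
  have hμα : ∀ j, frm (μ (α j)) = ∑ j', C (algebraMap R E (N' j j')) * frm (α j') := by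
    intro j
    have h1 : μ (α j) = ∑ j', algebraMap R E (N' j j') • α j' := by
      funext i
      rw [hμ, hN', Finset.sum_apply]
      rfl
    rw [h1, frm_sum]
    exact Finset.sum_congr rfl fun j' _ => frm_smul _ _
  -- the images
  have hCG : ∀ y, y ∈ CG (Set.range (ell α' b')) Rb ↔
      ∃ f ∈ Algebra.adjoin R (Set.range fun j => frm (α j)), Θ f = y := by
    intro y
    constructor
    · intro hy
      have h1 : CG (Set.range (ell α' b')) Rb ≤
          ((Algebra.adjoin R (Set.range fun j => frm (α j))).restrictScalars k).map Θ := by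
        unfold CG
        rw [Algebra.adjoin_le_iff]
        rintro _ (⟨z, hz, rfl⟩ | ⟨j, rfl⟩)
        · have h2 : Rb ≤ (((Algebra.adjoin R (Set.range fun j => frm (α j))).restrictScalars
              k).map Θ).comap (IsScalarTower.toAlgHom k K (MvPolynomial (Fin s) K)) := by
            change Algebra.adjoin k (G : Set K) ≤ _
            rw [Algebra.adjoin_le_iff]
            intro t ht
            rcases Finset.mem_union.1 (Finset.mem_coe.1 ht) with ht | ht
            · obtain ⟨a, -, rfl⟩ := Finset.mem_image.1 ht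
              exact ⟨C (algebraMap R E a), Subalgebra.algebraMap_mem _ a, hΘC _⟩
            · obtain ⟨j, -, rfl⟩ := Finset.mem_image.1 ht
              refine ⟨frm (μ (α j)), ?_, hΘμ (α j)⟩
              rw [hμα]
              refine Subalgebra.sum_mem _ fun j' _ => Subalgebra.mul_mem _ ?_
                (Algebra.subset_adjoin ⟨j', rfl⟩)
              exact (Algebra.adjoin R (Set.range fun j => frm (α j))).algebraMap_mem (N' j j')
          exact h2 hz
        · exact ⟨frm (α j), Algebra.subset_adjoin ⟨j, rfl⟩, hΘℓ j⟩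
      obtain ⟨f, hf, hf'⟩ := h1 hy
      exact ⟨f, hf, hf'⟩
    · rintro ⟨f, hf, rfl⟩
      induction hf using Algebra.adjoin_induction with
      | mem f hf =>
        obtain ⟨j, rfl⟩ := hf
        rw [hΘℓ]
        exact G_mem_CG ⟨j, rfl⟩
      | algebraMap a =>
        have h2 : Θ (algebraMap R (MvPolynomial (Fin m) E) a) =
            C (algebraMap E K (algebraMap R E a)) := hΘC _
        rw [h2]
        exact C_mem_CG (hRb1 a)
      | add f g _ _ hf hg => rw [map_add]; exact Subalgebra.add_mem _ hf hg
      | mul f g _ _ hf hg => rw [map_mul]; exact Subalgebra.mul_mem _ hf hg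
  -- the rank
  let β : Fin q → Fin s → E := fun j c => B.repr (α j) (Sum.inl c)
  have hβ : ∀ f, dlt α' f = algebraMap E K (dlt β f) := by
    intro f
    exact (RingHom.map_det (algebraMap E K) (Matrix.of fun a c => β (f a) c)).symm
  have hrk : ∃ f, dlt α' f ≠ 0 := by
    have h1 : Submodule.span E (Set.range β) = ⊤ := by
      let π : (Fin m → E) →ₗ[E] (Fin s → E) :=
        { toFun := fun v c => B.repr v (Sum.inl c)
          map_add' := fun v w => by
            funext c
            rw [map_add]; rfl
          map_smul' := fun e v => by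
            funext c
            rw [map_smul]; rfl }
      have h2 : Set.range β = π '' Set.range α := by
        rw [← Set.range_comp]
        rfl
      rw [h2, ← Submodule.map_span, hα, Submodule.map_top, LinearMap.range_eq_top]
      intro z
      refine ⟨∑ c, z c • B (Sum.inl c), ?_⟩
      rw [map_sum]
      funext c
      rw [Finset.sum_apply, Finset.sum_eq_single c]
      · rw [map_smul, Pi.smul_apply]
        change z c • B.repr (B (Sum.inl c)) (Sum.inl c) = z c
        rw [B.repr_self, Finsupp.single_eq_same, smul_eq_mul, mul_one]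
      · intro c' _ hc'
        rw [map_smul, Pi.smul_apply]
        change z c' • B.repr (B (Sum.inl c')) (Sum.inl c) = 0
        rw [B.repr_self, Finsupp.single_eq_of_ne, smul_zero]
        simpa [eq_comm] using hc'
      · intro h; exact absurd (Finset.mem_univ c) h
    obtain ⟨f, hf⟩ := exists_minor_of_span β h1
    refine ⟨f, ?_⟩
    rw [hβ]
    exact (map_ne_zero _).2 hf
  refine mainL (p := p) (hasLMs_lin hE x hx) Rb hgen hfr α' b' hrk
    [(algebraMap E K (algebraMap R E c), w)] ?_ ?_ ?_
    (Θ.comp (A.val.restrictScalars k)) (hΘ.comp Subtype.val_injective) ?_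
  · intro it hit
    rw [List.mem_singleton.1 hit]
    exact hRb1 c
  · intro it hit j
    rw [List.mem_singleton.1 hit]
    change ∑ c, α' j c * w c ∈ Rb
    rw [hνj]
    exact hRb2 j
  · have hP1 : ∀ e : E, algebraMap E K e ∈ EM (algebraMap E K).fieldRange (LinM (E := E) x) :=
      fun e => ⟨_, ⟨e, rfl⟩, 1, Submonoid.one_mem _, (mul_one _).symm⟩
    have hdl : ∀ f, ∃ e : E, dlt α' f = algebraMap E K e := by
      intro f
      exact ⟨dlt β f, hβ f⟩
    intro y hy hy0
    rcases hy with hy | ⟨f, rfl⟩ | ⟨⟨f, j⟩, rfl⟩ | hy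
    · rw [Set.mem_singleton_iff.1 hy, ← map_one (algebraMap E K)]
      exact hP1 1
    · obtain ⟨e, he⟩ := hdl f
      rw [he]
      exact hP1 e
    · have hq : ∀ a, ∃ e : E, quo α' f j a = algebraMap E K e := by
        intro a
        obtain ⟨e, he⟩ := hdl (Function.update f a j)
        obtain ⟨e', he'⟩ := hdl f
        exact ⟨e / e', by unfold quo; rw [he, he', map_div₀]⟩
      choose e he using hq
      have h1 : cst α' b' f j = lx (cr (α j) - ∑ a, e a • cr (α (f a))) := by
        let Λ : (Fin r → E) →ₗ[E] K :=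
          { toFun := lx
            map_add' := hlx_add
            map_smul' := fun e v => by rw [hlx_smul, RingHom.id_apply, Algebra.smul_def] }
        change b' j - ∑ a, quo α' f j a * b' (f a) = Λ _
        rw [map_sub, map_sum]
        congr 1
        refine Finset.sum_congr rfl fun a _ => ?_
        rw [map_smul, Algebra.smul_def, he]
        rfl
      change cst α' b' f j ∈ _
      change cst α' b' f j ≠ 0 at hy0
      rw [h1] at hy0 ⊢
      exact hlx_EM _ hy0
    · obtain ⟨f, hy⟩ := Set.mem_iUnion.1 hy
      rcases hy with ⟨a, rfl⟩ | hy | hy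
      · have h1 : (nu α' f (algebraMap E K (algebraMap R E c), w)).2 a = νj (f a) := hνj (f a)
        rw [h1] at hy0 ⊢
        exact hlx_EM _ hy0
      · exact absurd hy (Set.notMem_empty y)
      · obtain ⟨i, hy⟩ := Set.mem_iUnion.1 hy
        exact absurd hy (Set.notMem_empty y)
  · intro y
    constructor
    · rintro ⟨a, rfl⟩
      obtain ⟨h1, h2⟩ := (hA a.1).1 a.2
      refine ⟨fun it hit => ?_, (hCG _).2 ⟨a.1, h1, rfl⟩⟩
      rw [List.mem_singleton.1 hit]
      exact (hdvd a.1).1 h2
    · rintro ⟨h1, h2⟩
      obtain ⟨f, hf, rfl⟩ := (hCG _).1 h2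
      have h3 := h1 (algebraMap E K (algebraMap R E c), w) (List.mem_singleton.2 rfl)
      exact ⟨⟨f, (hA f).2 ⟨hf, (hdvd f).2 h3⟩⟩, rfl⟩

end main

end Pool.Agent.Q86.TO
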