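import Pool.Agent.Q86.TO7

/-!
# Fields generated by spaces of forms with a complete system of relations
-/

set_option autoImplicit false
set_option linter.unusedSectionVars false

universe u

open MvPolynomial Pool.Agent.W558 Pool.Agent.W418.LCI Pool.Agent.W418.Lin AlgebraicGeometry

namespace Pool.Agent.Q86.TO

section closure

variable {G : Type*} [CommGroup G]

theorem exists_finset_cl (s : Set G) {x : G} (hx : x ∈ Subgroup.closure s) :
    ∃ T : Finset G, (T : Set G) ⊆ s ∧ x ∈ Subgroup.closure (T : Set G) := by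
  classical
  induction hx using Subgroup.closure_induction with
  | mem x hx =>
    exact ⟨{x}, by simpa using hx, Subgroup.subset_closure (by simp)⟩
  | one => exact ⟨∅, by simp, Subgroup.one_mem _⟩
  | mul x y _ _ hx hy =>
    obtain ⟨T, hT, h1⟩ := hx
    obtain ⟨T', hT', h2⟩ := hy
    refine ⟨T ∪ T', ?_, Subgroup.mul_mem _ ?_ ?_⟩
    · rw [Finset.coe_union]; exact Set.union_subset hT hT'
    · exact Subgroup.closure_mono (by rw [Finset.coe_union]; exact Set.subset_union_left) h1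
    · exact Subgroup.closure_mono (by rw [Finset.coe_union]; exact Set.subset_union_right) h2
  | inv x _ hx =>
    obtain ⟨T, hT, h1⟩ := hx
    exact ⟨T, hT, Subgroup.inv_mem _ h1⟩

theorem exists_finset_cl' {n : ℕ} (s : Set G) (S : Fin n → G)
    (hS : ∀ i, S i ∈ Subgroup.closure s) :
    ∃ T : Finset G, (T : Set G) ⊆ s ∧ ∀ i, S i ∈ Subgroup.closure (T : Set G) := by
  classical
  choose T hT h1 using fun i => exists_finset_cl s (hS i)
  refine ⟨Finset.univ.biUnion T, ?_, fun i => ?_⟩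
  · rw [Finset.coe_biUnion]
    exact Set.iUnion₂_subset fun x _ => hT x
  · exact Subgroup.closure_mono
      (Finset.coe_subset.2 (Finset.subset_biUnion_of_mem T (Finset.mem_univ i))) (h1 i)

end closure

/-- The generators of the group of products of forms. -/
def genSet {E K : Type u} [Field E] [Field K] [Algebra E K] {n r : ℕ}
    (V : Fin n → Submodule E K) (f : Fin r → K) : Set Kˣ :=
  {x : Kˣ | (∃ b, algebraMap E K b = x) ∨ (∃ s, (x : K) ∈ V s) ∨ ∃ l, f l = x}

/-- The products of forms. -/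
def ForM {E K : Type u} [Field E] [Field K] [Algebra E K] {n r : ℕ}
    (V : Fin n → Submodule E K) (f : Fin r → K) : Submonoid K :=
  (Subgroup.closure (genSet V f)).toSubmonoid.map (Units.coeHom K)

lemma forM_inv {E K : Type u} [Field E] [Field K] [Algebra E K] {n r : ℕ}
    (V : Fin n → Submodule E K) (f : Fin r → K) : ∀ μ ∈ ForM V f, μ⁻¹ ∈ ForM V f := by
  rintro _ ⟨x, hx, rfl⟩
  exact ⟨x⁻¹, Subgroup.inv_mem _ hx, by simp⟩

lemma forM_ne {E K : Type u} [Field E] [Field K] [Algebra E K] {n r : ℕ}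
    (V : Fin n → Submodule E K) (f : Fin r → K) : ∀ μ ∈ ForM V f, μ ≠ 0 := by
  rintro _ ⟨x, hx, rfl⟩
  exact x.ne_zero

/-- Products of elements of `E` and forms are locally monomials. -/
theorem hasLMs_forms (p : ℕ) [Fact p.Prime] (k E K : Type u) [Field k] [PerfectField k] [CharP k p]
    [Field E] [Algebra k E] [Field K] [Algebra E K] [Algebra k K] [IsScalarTower k E K]
    (hE : HasLM k E)
    (n : ℕ) (V : Fin n → Submodule E K) [∀ s, FiniteDimensional E (V s)]
    (hgen : IntermediateField.adjoin E (⋃ s, (V s : Set K)) = ⊤)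
    (r : ℕ) (ι : Fin r → Type) [∀ j, Fintype (ι j)] (i₀ : ∀ j, ι j)
    (c : ∀ j, ι j → E) (hc : ∀ j i, c j i ≠ 0) (d : ∀ j, ι j → Fin n → ℕ)
    (g : ∀ j i s, Fin (d j i s) → K) (hgV : ∀ j i s t, g j i s t ∈ V s)
    (hg0 : ∀ j i s t, g j i s t ≠ 0) (e : ∀ j, ι j → Fin r → ℕ) (f : Fin r → K)
    (he : ∀ j i l, e j i l ≠ 0 → l < j ∧ f l ≠ 0)
    (hf : ∀ j, f j = ∑ i, algebraMap E K (c j i) * ((∏ s, ∏ t, g j i s t) * ∏ l, f l ^ e j i l))
    (deg : Fin r → Fin n → ZMod p) (hdeg : ∀ j, deg j = dg deg (d j (i₀ j)) (e j (i₀ j)))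
    (hind : LinearIndependent (ZMod p) fun q : (j : Fin r) × {i : ι j // i ≠ i₀ j} =>
      dg deg (d q.1 q.2) (e q.1 q.2) - deg q.1)
    (htr : Algebra.trdeg E K + (Nat.card {j // f j = 0} : Cardinal.{u}) =
      ((∑ s, Module.finrank E (V s) : ℕ) : Cardinal.{u})) :
    HasLMs k (EM (algebraMap E K).fieldRange (ForM V f)) := by
  classical
  intro m q hq0 hq
  -- units
  let S : Fin m → Kˣ := fun b => Units.mk0 (q b) (hq0 b)
  have hS : ∀ b, S b ∈ Subgroup.closure (genSet V f) := by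
    intro b
    obtain ⟨x, ⟨x', hx'⟩, _, ⟨y, hy, rfl⟩, hqb⟩ := hq b
    have hx0 : x ≠ 0 := by
      intro h
      apply hq0 b
      rw [hqb, h, zero_mul]
    have : S b = Units.mk0 x hx0 * y := Units.ext hqb
    rw [this]
    exact Subgroup.mul_mem _ (Subgroup.subset_closure (Or.inl ⟨x', hx'⟩)) hy
  obtain ⟨T, hT, hST⟩ := exists_finset_cl' _ S hS
  let N := T.card
  let tt : Fin N → Kˣ := fun i => (T.equivFin.symm i).1
  have htt : ∀ i, tt i ∈ T := fun i => (T.equivFin.symm i).2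
  have htt' : ∀ x ∈ T, ∃ i, tt i = x := fun x hx =>
    ⟨T.equivFin ⟨x, hx⟩, by
      change (T.equivFin.symm (T.equivFin ⟨x, hx⟩)).1 = x
      rw [Equiv.symm_apply_apply]⟩
  let H' : Type := {i : Fin N // ∃ b, algebraMap E K b = tt i}
  let h' : H' → E := fun i => i.2.choose
  have hh' : ∀ i, algebraMap E K (h' i) = tt i.1 := fun i => i.2.choose_spec
  have hh0 : ∀ i, h' i ≠ 0 := by
    intro i h
    have h1 := hh' i
    rw [h, map_zero] at h1
    exact (tt i.1).ne_zero h1.symm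
  let Λ' : Type := {i : Fin N // ∃ s, (tt i : K) ∈ V s}
  let u : Λ' → K := fun i => tt i.1
  let ub : Λ' → Fin n := fun i => i.2.choose
  have hu : ∀ q, u q ∈ V (ub q) := fun q => q.2.choose_spec
  have hu0 : ∀ q, u q ≠ 0 := fun q => (tt q.1).ne_zero
  obtain ⟨Q, Ds, hst, hQ⟩ := exists_sta' p k E K hE n V hgen r ι i₀ c hc d g
    hgV hg0 e f he hf deg hdeg hind htr H' h' hh0 Λ' u ub hu hu0
  obtain ⟨-, -, -, T1, I1, j1, j2, -, M1, Γ1, -, -, hΓ1, -⟩ := hst
  let G : Type := H' ⊕ (Λ' ⊕ Fin r)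
  let gg : G → K := Sum.elim (fun b => algebraMap E K (h' b)) (Sum.elim u
        (fun l => open Classical in if f l = 0 then 1 else f l))
  have hgg : ∀ a, gg a ≠ 0 := by
    rintro (i | i | l)
    · exact (map_ne_zero _).2 (hh0 i)
    · exact hu0 i
    · change (if f l = 0 then 1 else f l) ≠ 0
      by_cases h : f l = 0
      · rw [if_pos h]; exact one_ne_zero
      · rw [if_neg h]; exact h
  let gu : G → Kˣ := fun a => Units.mk0 (gg a) (hgg a)
  have hTg : (T : Set Kˣ) ⊆ Set.range gu := by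
    intro x hx
    obtain ⟨i, rfl⟩ := htt' x hx
    rcases hT hx with h | h | ⟨l, hl⟩
    · refine ⟨Sum.inl ⟨i, h⟩, Units.ext ?_⟩
      exact hh' ⟨i, h⟩
    · refine ⟨Sum.inr (Sum.inl ⟨i, h⟩), Units.ext rfl⟩
    · refine ⟨Sum.inr (Sum.inr l), Units.ext ?_⟩
      change (if f l = 0 then 1 else f l) = _
      have hl0 : f l ≠ 0 := by rw [hl]; exact (tt i).ne_zero
      rw [if_neg hl0, hl]
  have hSe : ∀ b, ∃ a : G → ℤ, S b = ∏ i, gu i ^ a i := by
    intro b
    have h1 : S b ∈ Subgroup.closure (Set.range gu) :=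
      Subgroup.closure_mono hTg (hST b)
    obtain ⟨a, ha⟩ := Subgroup.mem_closure_range_iff_of_fintype.1 h1
    exact ⟨a, ha⟩
  choose ex hex using hSe
  have h1 : (fun b => ∏ a, gg a ^ ex b a) = q := by
    funext b
    have h2 := congrArg Units.val (hex b)
    rw [Units.coe_prod] at h2
    refine Eq.trans ?_ h2.symm
    refine Finset.prod_congr rfl fun i _ => ?_
    rw [Units.val_zpow_eq_zpow_val]
    rfl
  have hmono := fn_mono hΓ1 (ι := Fin m) ex
  change Fn M1 (fun b => ∏ a, gg a ^ ex b a) _ at hmono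
  rw [h1] at hmono
  exact ⟨T1, I1, j1, j2, M1, _, hmono⟩

end Pool.Agent.Q86.TO
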