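import Pool.Agent.Q86.TO12
import Pool.Agent.Q86.TO14

/-!
# Families of affine subspaces modulo translations over varieties of products of forms
-/

set_option autoImplicit false
set_option linter.unusedSectionVars false

universe u

open MvPolynomial Pool.Agent.W558 Pool.Agent.W418.LCI AlgebraicGeometry

namespace Pool.Agent.Q86.TO

section mainLK

variable {σ J : Type} [Fintype σ] [DecidableEq σ] [Finite J] {k : Type u} [Field k] {p : ℕ}
  [hp : Fact p.Prime] [CharP k p]

/-- **Main theorem** for families of affine subspaces, arbitrary field of fractions. -/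
theorem mainLK {R K : Type u} [CommRing R] [IsDomain R] [Algebra k R] [Field K] [Algebra k K]
    [Algebra R K] [IsScalarTower k R K] [IsFractionRing R K] {P : Set K} (hE : HasLMs k P)
    (hR : GenBy (IsScalarTower.toAlgHom k R K).range P)
    (α : J → σ → K) (b : J → K) (hrk : ∃ f, dlt α f ≠ 0) (l : List (R × (σ → K)))
    (hν : ∀ it ∈ l, ∀ j, ∃ a : R, algebraMap R K a = ∑ e, α j e * it.2 e)
    (hF : ∀ x ∈ funsL p α b (l.map fun it => (algebraMap R K it.1, it.2)), x ≠ 0 → x ∈ P)
    (A : Subalgebra R (MvPolynomial σ K))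
    (hA : ∀ f, f ∈ A ↔ f ∈ Algebra.adjoin R (Set.range (ell α b)) ∧
      ∀ it ∈ l, f ∈ inv p (algebraMap R K it.1) it.2) :
    IsResolvableVariety (X := Spec (CommRingCat.of A))
      (Spec.map (CommRingCat.ofHom (algebraMap k A))) := by
  classical
  have hcK : CharP K p := charP_of_injective_algebraMap (algebraMap k K).injective p
  obtain ⟨Rb, hRb⟩ : ∃ Rb : Subalgebra k K, Rb = (IsScalarTower.toAlgHom k R K).range := ⟨_, rfl⟩
  rw [← hRb] at hR
  have hmem : ∀ a : R, algebraMap R K a ∈ Rb := fun a => by rw [hRb]; exact ⟨a, rfl⟩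
  have hfr : ∀ x : K, ∃ a ∈ Rb, ∃ b ∈ Rb, b ≠ 0 ∧ x = a * b⁻¹ := by
    intro x
    obtain ⟨a, c, hc, rfl⟩ := IsFractionRing.div_surjective (A := R) x
    refine ⟨_, hmem a, _, hmem c, ?_, div_eq_mul_inv _ _⟩
    exact (FaithfulSMul.algebraMap_eq_zero_iff R K).not.2 (nonZeroDivisors.ne_zero hc)
  obtain ⟨l', hl'⟩ : ∃ l' : List (K × (σ → K)),
    l' = l.map fun it => (algebraMap R K it.1, it.2) := ⟨_, rfl⟩
  rw [← hl'] at hF
  have hc : ∀ it ∈ l', it.1 ∈ Rb := by
    intro it hit
    rw [hl'] at hit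
    obtain ⟨it', -, rfl⟩ := List.mem_map.1 hit
    exact hmem _
  have hν' : ∀ it ∈ l', ∀ j, ∑ e, α j e * it.2 e ∈ Rb := by
    intro it hit j
    rw [hl'] at hit
    obtain ⟨it', hit', rfl⟩ := List.mem_map.1 hit
    obtain ⟨a, ha⟩ := hν it' hit' j
    change ∑ e, α j e * it'.2 e ∈ Rb
    rw [← ha]
    exact hmem a
  have hgr : ∀ x, (∃ a, (A.val.restrictScalars k) a = x) ↔ (∀ it ∈ l', x ∈ inv p it.1 it.2) ∧
      x ∈ CG (Set.range (ell α b)) Rb := by
    intro x
    rw [hRb, CG_eq, hl']
    constructor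
    · rintro ⟨a, rfl⟩
      obtain ⟨h1, h2⟩ := (hA a.1).1 a.2
      refine ⟨fun it hit => ?_, h1⟩
      obtain ⟨it', hit', rfl⟩ := List.mem_map.1 hit
      exact h2 it' hit'
    · rintro ⟨h1, h2⟩
      have h3 : ∀ it ∈ l, x ∈ inv p (algebraMap R K it.1) it.2 := fun it hit =>
        h1 (algebraMap R K it.1, it.2) (List.mem_map.2 ⟨it, hit, rfl⟩)
      exact ⟨⟨x, (hA x).2 ⟨h2, h3⟩⟩, rfl⟩
  exact mainL (p := p) (k := k) (E := K) (A := A) hE Rb hR hfr α b hrk l' hc hν' hF
    (A.val.restrictScalars k) Subtype.val_injective hgr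

end mainLK

section forms

variable {σ J : Type} [Fintype σ] [DecidableEq σ] [Finite J] {E K : Type u} [Field E] [Field K]
  [Algebra E K] {n r : ℕ}

lemma dlt_scaled (a : J → σ → E) (lam : J → K) (f : σ → J) :
    dlt (fun j i => lam j * algebraMap E K (a j i)) f =
      (∏ c, lam (f c)) * algebraMap E K (dlt a f) := by
  unfold dlt
  have h1 : (fun c i => lam (f c) * algebraMap E K (a (f c) i) : σ → σ → K) =
      fun c i => lam (f c) * (Matrix.of fun c i => algebraMap E K (a (f c) i) :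
        Matrix σ σ K) c i := rfl
  have h2 := Matrix.det_mul_column (fun c => lam (f c))
    (Matrix.of fun c i => algebraMap E K (a (f c) i) : Matrix σ σ K)
  have h3 : Matrix.det (Matrix.of fun c i => algebraMap E K (a (f c) i) : Matrix σ σ K) =
      algebraMap E K (Matrix.det (Matrix.of fun c i => a (f c) i : Matrix σ σ E)) := by
    rw [RingHom.map_det]
    rfl
  rw [h3] at h2
  exact h2

lemma mem_EM_forM (V : Fin n → Submodule E K) (f : Fin r → K) {x : K} (hx0 : x ≠ 0)
    (e : E) (μ : K) (hμ : μ ∈ ForM V f) (s : Fin n) (v : K) (hv : v ∈ V s)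
    (hx : x = algebraMap E K e * (μ * v)) : x ∈ EM (algebraMap E K).fieldRange (ForM V f) := by
  have hv0 : v ≠ 0 := by
    rintro rfl
    rw [mul_zero, mul_zero] at hx
    exact hx0 hx
  have hvM : v ∈ ForM V f :=
    ⟨Units.mk0 v hv0, Subgroup.subset_closure (Or.inr (Or.inl ⟨s, hv⟩)), rfl⟩
  exact ⟨algebraMap E K e, ⟨e, rfl⟩, μ * v, Submonoid.mul_mem _ hμ hvM, hx⟩

lemma mem_EM_forM' (V : Fin n → Submodule E K) (f : Fin r → K) {x : K}
    (e : E) (μ : K) (hμ : μ ∈ ForM V f)
    (hx : x = algebraMap E K e * μ) : x ∈ EM (algebraMap E K).fieldRange (ForM V f) :=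
  ⟨algebraMap E K e, ⟨e, rfl⟩, μ, hμ, hx⟩

/-- The functions of the charts are products of forms. -/
theorem funsL_forms (p : ℕ) (V : Fin n → Submodule E K) (f : Fin r → K)
    (a : J → σ → E) (lam : J → K) (hlam : ∀ j, lam j ∈ ForM V f) (ρ τ : K) (hρ : ρ ∈ ForM V f)
    (hτ : τ ∈ ForM V f) (s t : Fin n) (b : J → K) (hb : ∀ j, b j ∈ V s) (c : K) (w : σ → K)
    (hw : ∀ i, w i ∈ V t) :
    ∀ x ∈ funsL p (fun j i => lam j * algebraMap E K (a j i)) (fun j => lam j * (ρ * b j))
      [(c, fun i => τ * w i)], x ≠ 0 → x ∈ EM (algebraMap E K).fieldRange (ForM V f) := by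
  classical
  have hne := forM_ne V f
  have hinv := forM_inv V f
  intro x hx hx0
  rcases hx with hx | ⟨g, rfl⟩ | ⟨⟨g, j⟩, rfl⟩ | hx
  · rw [Set.mem_singleton_iff] at hx
    exact mem_EM_forM' V f 1 1 (Submonoid.one_mem _) (by rw [hx, map_one, mul_one])
  · exact mem_EM_forM' V f (dlt a g) _ (Submonoid.prod_mem _ fun c _ => hlam _)
      ((dlt_scaled a lam g).trans (mul_comm _ _))
  · change cst _ _ g j ≠ 0 at hx0
    change cst _ _ g j ∈ _
    have hq : ∀ c : σ, quo (fun j i => lam j * algebraMap E K (a j i)) g j c *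
        (lam (g c) * (ρ * b (g c))) = lam j * ρ * (algebraMap E K (quo a g j c) * b (g c)) := by
      intro c
      unfold quo
      rw [dlt_scaled, dlt_scaled, map_div₀]
      have h1 : ∏ c', lam (Function.update g c j c') =
          lam j * ∏ c' ∈ Finset.univ.erase c, lam (g c') := by
        rw [← Finset.mul_prod_erase _ _ (Finset.mem_univ c), Function.update_self]
        congr 1
        refine Finset.prod_congr rfl fun c' hc' => ?_
        rw [Function.update_of_ne (Finset.ne_of_mem_erase hc')]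
      have h2 : ∏ c', lam (g c') = lam (g c) * ∏ c' ∈ Finset.univ.erase c, lam (g c') :=
        (Finset.mul_prod_erase _ _ (Finset.mem_univ c)).symm
      rw [h1, h2]
      have h3 : ∏ c' ∈ Finset.univ.erase c, lam (g c') ≠ 0 :=
        Finset.prod_ne_zero_iff.2 fun c' _ => hne _ (hlam _)
      have h4 : lam (g c) ≠ 0 := hne _ (hlam _)
      by_cases h5 : algebraMap E K (dlt a g) = 0
      · rw [h5]
        simp
      · field_simp
    have h6 : cst (fun j i => lam j * algebraMap E K (a j i)) (fun j => lam j * (ρ * b j)) g j =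
        algebraMap E K 1 * ((lam j * ρ) * (b j - ∑ c, algebraMap E K (quo a g j c) * b (g c))) := by
      unfold cst
      rw [Finset.sum_congr rfl fun c _ => hq c, ← Finset.mul_sum, map_one, one_mul]
      ring
    refine mem_EM_forM V f hx0 1 (lam j * ρ) (Submonoid.mul_mem _ (hlam j) hρ) s _ ?_ h6
    refine Submodule.sub_mem _ (hb j) (Submodule.sum_mem _ fun c _ => ?_)
    rw [← Algebra.smul_def]
    exact Submodule.smul_mem _ _ (hb _)
  · obtain ⟨g, hg⟩ := Set.mem_iUnion.1 hx
    change x ∈ funs p 1 [nu _ g (c, fun i => τ * w i)] at hg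
    rcases hg with ⟨i, hi⟩ | hg | hg
    · have h1 : x = algebraMap E K 1 * ((lam (g i) * τ) * ∑ e, algebraMap E K (a (g i) e) * w e) := by
        rw [← hi, map_one, one_mul]
        change ∑ e, lam (g i) * algebraMap E K (a (g i) e) * (τ * w e) = _
        rw [Finset.mul_sum]
        exact Finset.sum_congr rfl fun e _ => by ring
      refine mem_EM_forM V f hx0 1 _ (Submonoid.mul_mem _ (hlam _) hτ) t _ ?_ h1
      refine Submodule.sum_mem _ fun e _ => ?_
      rw [← Algebra.smul_def]
      exact Submodule.smul_mem _ _ (hw _)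
    · exact absurd hg (Set.notMem_empty x)
    · obtain ⟨i, hi⟩ := Set.mem_iUnion.1 hg
      exact absurd hi (Set.notMem_empty x)

end forms

end Pool.Agent.Q86.TO
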