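import Pool.Agent.Q86.TO12

/-!
# Relative local uniformization

A valuation of the function field of a family of quotients of affine spaces over a base with the
function field `E` is uniformizable if its restriction to `E` is uniformizable.
-/

set_option autoImplicit false
set_option linter.unusedSectionVars false

universe u

open MvPolynomial Pool.Agent.W558 Pool.Agent.W418.LCI AlgebraicGeometry

namespace Pool.Agent.Q86.TO

/-- Valuation rings extend to extension fields. -/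
theorem exists_ext {F L : Type*} [Field F] [Field L] (ι : F →+* L) (V : ValuationSubring F) :
    ∃ W : ValuationSubring L, ∀ x, ι x ∈ W ↔ x ∈ V := by
  let f : V →+* L := ι.comp V.subtype
  obtain ⟨W, hW⟩ := (LocalSubring.range f).exists_le_valuationSubring
  obtain ⟨h1, h2⟩ := hW
  have hle : ∀ x : F, x ∈ V → ι x ∈ W := by
    intro x hx
    exact h1 ⟨⟨x, hx⟩, rfl⟩
  refine ⟨W, fun x => ⟨fun hx => ?_, hle x⟩⟩
  by_contra hxV
  have hx0 : x ≠ 0 := by
    rintro rfl
    exact hxV V.zero_mem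
  have hinv : x⁻¹ ∈ V := (V.mem_or_inv_mem x).resolve_left hxV
  let y : (LocalSubring.range f).toSubring := ⟨f ⟨x⁻¹, hinv⟩, ⟨⟨x⁻¹, hinv⟩, rfl⟩⟩
  have hy : IsUnit (Subring.inclusion h1 y) := by
    refine isUnit_iff_exists_inv.2 ⟨⟨ι x, hx⟩, ?_⟩
    apply Subtype.ext
    change ι x⁻¹ * ι x = 1
    rw [← map_mul, inv_mul_cancel₀ hx0, map_one]
  obtain ⟨z, hz⟩ := isUnit_iff_exists_inv.1 (h2.1 _ hy)
  obtain ⟨⟨v, hv⟩⟩ : ∃ v : V, f v = (z : L) := z.2
  have h3 : ι x⁻¹ * ι v = 1 := by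
    have := congrArg Subtype.val hz
    change ι x⁻¹ * (z : L) = 1 at this
    rwa [← ‹f _ = (z : L)›] at this
  rw [← map_mul, ← map_one ι] at h3
  have h4 := ι.injective h3
  have h5 : x = v := by
    field_simp at h4
    exact h4.symm
  exact hxV (h5 ▸ hv)

/-- The valuation ring `W` of `E` is uniformizable: every finite subset of `W` is contained in a
smooth `k`-subalgebra of `E` inside `W`. -/
def UnifAt (k : Type*) {E : Type*} [Field k] [Field E] [Algebra k E] (W : ValuationSubring E) :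
    Prop :=
  ∀ Z : Finset E, (∀ z ∈ Z, z ∈ W) →
    ∃ D : Subalgebra k E, Algebra.Smooth k D ∧ (∀ z ∈ Z, z ∈ D) ∧ ∀ x ∈ D, x ∈ W

section general

variable {σ : Type} {k E : Type u} [Field k] [Field E] [Algebra k E]

/-- Common denominators. -/
lemma CG_denom (G : Set (MvPolynomial σ E)) (D R : Subalgebra k E)
    (hfr : ∀ x : E, ∃ a ∈ R, ∃ b ∈ R, b ≠ 0 ∧ x = a * b⁻¹) {f : MvPolynomial σ E}
    (hf : f ∈ CG G D) : ∃ r ∈ R, r ≠ 0 ∧ C r * f ∈ CG G R := by
  unfold CG at hf
  induction hf using Algebra.adjoin_induction with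
  | mem x hx =>
    rcases hx with ⟨a, ha, rfl⟩ | hx
    · obtain ⟨c, hc, b, hb, hb0, rfl⟩ := hfr a
      refine ⟨b, hb, hb0, ?_⟩
      rw [← C_mul]
      have : b * (c * b⁻¹) = c := by field_simp
      rw [this]
      exact C_mem_CG hc
    · refine ⟨1, R.one_mem, one_ne_zero, ?_⟩
      rw [C_1, one_mul]
      exact G_mem_CG hx
  | algebraMap r =>
    refine ⟨1, R.one_mem, one_ne_zero, ?_⟩
    rw [C_1, one_mul]
    exact Subalgebra.algebraMap_mem _ _
  | add x y _ _ hx hy =>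
    obtain ⟨a, ha, ha0, hx⟩ := hx
    obtain ⟨b, hb, hb0, hy⟩ := hy
    refine ⟨a * b, R.mul_mem ha hb, mul_ne_zero ha0 hb0, ?_⟩
    have e : C (a * b) * (x + y) = C b * (C a * x) + C a * (C b * y) := by
      rw [C_mul]; ring
    rw [e]
    exact Subalgebra.add_mem _ (Subalgebra.mul_mem _ (C_mem_CG hb) hx)
      (Subalgebra.mul_mem _ (C_mem_CG ha) hy)
  | mul x y _ _ hx hy =>
    obtain ⟨a, ha, ha0, hx⟩ := hx
    obtain ⟨b, hb, hb0, hy⟩ := hy
    refine ⟨a * b, R.mul_mem ha hb, mul_ne_zero ha0 hb0, ?_⟩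
    have e : C (a * b) * (x * y) = (C a * x) * (C b * y) := by
      rw [C_mul]; ring
    rw [e]
    exact Subalgebra.mul_mem _ hx hy

/-- **Relative local uniformization of families of subalgebras of polynomial rings.** -/
theorem general2LU [Finite σ] (R : Subalgebra k E) (hfg : R.FG)
    (hfr : ∀ x : E, ∃ a ∈ R, ∃ b ∈ R, b ≠ 0 ∧ x = a * b⁻¹) (F : Set E) (hF : F.Finite)
    (AE : Subalgebra E (MvPolynomial σ E)) (G : Set (MvPolynomial σ E))
    (hint : ∀ g ∈ G, ∃ Q : Polynomial R, Q.Monic ∧ Q.natDegree ≠ 0 ∧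
      Polynomial.aeval g (Q.map R.val.toRingHom) ∈ AE)
    (hsm : ∀ D : Subalgebra k E, R ≤ D → Algebra.Smooth k D →
      (∀ a ∈ F, ∀ b ∈ F, a ≠ 0 → b ≠ 0 → b / a ∈ D ∨ a / b ∈ D) → Algebra.Smooth k (cg AE G D))
    {A : Type u} [CommRing A] [IsDomain A] [Algebra k A] (g0 : A →ₐ[k] MvPolynomial σ E)
    (hg0 : Function.Injective g0) (hgr : g0.range = cg AE G R)
    {K : Type u} [Field K] [Algebra k K] (g : A →ₐ[k] K) (hg : Function.Injective g)
    (hK : ∀ x : K, ∃ a b : A, b ≠ 0 ∧ x = g a / g b) (V : ValuationSubring K)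
    (hV : ∀ a, g a ∈ V) (e : E →+* K) (he : ∀ a : A, ∀ x ∈ R, g0 a = C x → g a = e x)
    (hU : UnifAt k (V.comap e)) :
    ∃ D' : Subalgebra k K, Algebra.Smooth k D' ∧ (∀ a, g a ∈ D') ∧ ∀ x ∈ D', x ∈ V := by
  classical
  let L := FractionRing (MvPolynomial σ E)
  let j : MvPolynomial σ E →ₐ[k] L := IsScalarTower.toAlgHom k _ _
  have hj : Function.Injective j := IsFractionRing.injective (MvPolynomial σ E) L
  have hjC : ∀ a : E, j (C a) = algebraMap E L a := by
    intro a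
    change algebraMap (MvPolynomial σ E) L (C a) = _
    rw [IsScalarTower.algebraMap_apply E (MvPolynomial σ E) L]
    rfl
  have hCE : ∀ a : E, (C a : MvPolynomial σ E) ∈ AE := fun a => AE.algebraMap_mem a
  have hR : ∀ x, x ∈ cg AE G R → ∃ a, g0 a = x := by
    intro x hx
    rw [← hgr] at hx
    exact hx
  have hR' : ∀ a, g0 a ∈ cg AE G R := by
    intro a
    rw [← hgr]
    exact ⟨a, rfl⟩
  -- the embedding of `K`
  obtain ⟨ι, hι⟩ : ∃ ι : K →ₐ[k] L, ∀ a, ι (g a) = j (g0 a) := by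
    letI : Algebra A K := g.toRingHom.toAlgebra
    have hAK : ∀ a, algebraMap A K a = g a := fun a => rfl
    haveI : IsFractionRing A K := by
      haveI : FaithfulSMul A K := (faithfulSMul_iff_algebraMap_injective A K).2 hg
      refine IsFractionRing.of_field A K fun z => ?_
      obtain ⟨a, b, -, rfl⟩ := hK z
      exact ⟨a, b, rfl⟩
    have hjg : Function.Injective (j.comp g0) := hj.comp hg0
    let ι0 : K →+* L := IsFractionRing.lift (A := A) (g := (j.comp g0 : A →+* L)) hjg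
    have h0 : ∀ a, ι0 (g a) = j (g0 a) := by
      intro a
      rw [← hAK]
      exact IsFractionRing.lift_algebraMap (A := A) hjg a
    refine ⟨{ ι0 with commutes' := fun r => ?_ }, h0⟩
    change ι0 (algebraMap k K r) = _
    rw [← g.commutes, h0, AlgHom.commutes, AlgHom.commutes]
  have hιe : ∀ x : E, ι (e x) = algebraMap E L x := by
    have h1 : ∀ x ∈ R, ι (e x) = algebraMap E L x := by
      intro x hx
      obtain ⟨a, ha⟩ := hR (C x) ⟨hCE x, C_mem_CG hx⟩
      rw [← he a x hx ha, hι, ha, hjC]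
    intro x
    obtain ⟨a, ha, b, hb, hb0, rfl⟩ := hfr x
    rw [map_mul, map_mul, map_inv₀, map_inv₀, h1 a ha, h1 b hb, map_mul, map_inv₀]
  obtain ⟨VL, hVL⟩ := exists_ext (ι : K →+* L) V
  have hVL' : ∀ x : K, ι x ∈ VL ↔ x ∈ V := hVL
  have hcomap : ∀ x : E, algebraMap E L x ∈ VL ↔ x ∈ V.comap e := by
    intro x
    rw [← hιe, hVL', ValuationSubring.mem_comap]
  have hVR : ∀ x ∈ cg AE G R, j x ∈ VL := by
    intro x hx
    obtain ⟨a, rfl⟩ := hR x hx
    rw [← hι, hVL']
    exact hV a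
  have hRV : ∀ a ∈ R, a ∈ V.comap e := by
    intro a ha
    rw [← hcomap, ← hjC]
    exact hVR _ ⟨hCE _, C_mem_CG ha⟩
  -- the base
  obtain ⟨S, hS⟩ := hfg
  have hSV : ∀ z ∈ S, z ∈ V.comap e := fun z hz =>
    hRV z (by rw [← hS]; exact Algebra.subset_adjoin hz)
  let Z1 : Finset E := ((hF.toFinset ×ˢ hF.toFinset).image fun q => q.1 / q.2).filter
    fun z => z ∈ V.comap e
  obtain ⟨D, hD, hZD, hDW⟩ := hU (S ∪ Z1) (by
    intro z hz
    rcases Finset.mem_union.1 hz with h | h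
    · exact hSV z h
    · exact (Finset.mem_filter.1 h).2)
  have hRD : R ≤ D := by
    rw [← hS, Algebra.adjoin_le_iff]
    intro z hz
    exact hZD z (Finset.mem_union_left _ hz)
  have hZ : ∀ a ∈ F, ∀ b ∈ F, a / b ∈ V.comap e → a / b ∈ D := by
    intro a ha b hb hab
    refine hZD _ (Finset.mem_union_right _ (Finset.mem_filter.2 ⟨?_, hab⟩))
    exact Finset.mem_image.2 ⟨(a, b), Finset.mem_product.2 ⟨hF.mem_toFinset.2 ha,
      hF.mem_toFinset.2 hb⟩, rfl⟩
  have hsmD := hsm D hRD hD (by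
    intro a ha b hb _ _
    rcases (V.comap e).mem_or_inv_mem (b / a) with h | h
    · exact Or.inl (hZ b hb a ha h)
    · rw [inv_div] at h
      exact Or.inr (hZ a ha b hb h))
  -- the chart is contained in the valuation ring
  have hX : ∀ x ∈ G, j x ∈ VL := by
    intro x hx
    obtain ⟨Q, hQ, hQd, hQA⟩ := hint x hx
    let ψ : R →+* VL := (algebraMap E L).comp R.val.toRingHom |>.codRestrict VL.toSubring
      (fun a => (hcomap _).2 (hRV a.1 a.2))
    refine mem_valuation VL (j x) (j (Polynomial.aeval x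
      (Q.map R.val.toRingHom))) ?_ (Q.map ψ) (hQ.map ψ) ?_ ?_
    · apply hVR
      refine ⟨hQA, ?_⟩
      rw [Polynomial.aeval_def, Polynomial.eval₂_map, Polynomial.eval₂_eq_sum_range]
      refine Subalgebra.sum_mem _ fun i _ => Subalgebra.mul_mem _ ?_
        (Subalgebra.pow_mem _ (G_mem_CG hx) _)
      exact C_mem_CG (Subtype.property _)
    · rw [hQ.natDegree_map]
      exact hQd
    · rw [Polynomial.eval₂_map, Polynomial.aeval_def, Polynomial.eval₂_map]
      change _ = (j : MvPolynomial σ E →+* L) _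
      rw [Polynomial.hom_eval₂]
      congr 1
  have hchart : ∀ f ∈ CG G D, j f ∈ VL := by
    intro f hf
    unfold CG at hf
    induction hf using Algebra.adjoin_induction with
    | mem x hx =>
      rcases hx with ⟨a, ha, rfl⟩ | hx
      · rw [hjC, hcomap]
        exact hDW a ha
      · exact hX x hx
    | algebraMap r =>
      rw [AlgHom.commutes]
      have h1 := (hcomap _).2 (hRV _ (R.algebraMap_mem r))
      rwa [← IsScalarTower.algebraMap_apply] at h1
    | add x y _ _ hx hy =>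
      rw [map_add]
      exact VL.add_mem _ _ hx hy
    | mul x y _ _ hx hy =>
      rw [map_mul]
      exact VL.mul_mem _ _ hx hy
  -- the chart is contained in `K`
  have hrange : ∀ f ∈ cg AE G D, ∃ x : K, ι x = j f := by
    intro f hf
    obtain ⟨r, hr, hr0, hrf⟩ := CG_denom G D R hfr hf.2
    obtain ⟨a, ha⟩ := hR (C r * f) ⟨AE.mul_mem (hCE r) hf.1, hrf⟩
    obtain ⟨b, hb⟩ := hR (C r) ⟨hCE r, C_mem_CG hr⟩
    refine ⟨g a / g b, ?_⟩
    have h1 : j (C r) ≠ 0 := by
      rw [hjC]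
      exact (map_ne_zero _).2 hr0
    rw [map_div₀, hι, hι, ha, hb, map_mul, mul_div_cancel_left₀ _ h1]
  let D' : Subalgebra k K := ((cg AE G D).map j).comap ι
  have hD'map : D'.map ι = (cg AE G D).map j := by
    apply le_antisymm
    · rintro _ ⟨x, hx, rfl⟩
      exact hx
    · rintro _ ⟨f, hf, rfl⟩
      obtain ⟨x, hx⟩ := hrange f hf
      refine ⟨x, ?_, hx⟩
      change ι x ∈ (cg AE G D).map j
      rw [hx]
      exact ⟨f, hf, rfl⟩
  refine ⟨D', ?_, ?_, ?_⟩
  · have e1 := (cg AE G D).equivMapOfInjective j hj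
    have e2 := D'.equivMapOfInjective ι ι.toRingHom.injective
    exact Algebra.Smooth.of_equiv (e1.trans ((Subalgebra.equivOfEq _ _ hD'map.symm).trans e2.symm))
  · intro a
    change ι (g a) ∈ (cg AE G D).map j
    rw [hι]
    exact ⟨g0 a, ⟨(hR' a).1, CG_mono hRD (hR' a).2⟩, rfl⟩
  · intro x hx
    obtain ⟨f, hf, hfx⟩ : ι x ∈ (cg AE G D).map j := hx
    rw [← hVL', ← hfx]
    exact hchart f hf.2

end general

section mainLLU

variable {σ J : Type} [Fintype σ] [DecidableEq σ] [Finite J] {k : Type u} [Field k] {p : ℕ}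
  [hp : Fact p.Prime] [CharP k p]

/-- **Relative local uniformization** for families of affine subspaces modulo translations. -/
theorem mainLLU {R E : Type u} [CommRing R] [IsDomain R] [Algebra k R] [Algebra.FiniteType k R]
    [Field E] [Algebra k E] [Algebra R E] [IsScalarTower k R E] [IsFractionRing R E]
    (α : J → σ → E) (b : J → E) (hrk : ∃ f, dlt α f ≠ 0) (l : List (R × (σ → E)))
    (hν : ∀ it ∈ l, ∀ j, ∃ a : R, algebraMap R E a = ∑ e, α j e * it.2 e)
    (A : Subalgebra R (MvPolynomial σ E))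
    (hA : ∀ f, f ∈ A ↔ f ∈ Algebra.adjoin R (Set.range (ell α b)) ∧
      ∀ it ∈ l, f ∈ inv p (algebraMap R E it.1) it.2)
    {K : Type u} [Field K] [Algebra k K] (g : A →ₐ[k] K) (hg : Function.Injective g)
    (hK : ∀ x : K, ∃ a b : A, b ≠ 0 ∧ x = g a / g b) (V : ValuationSubring K)
    (hV : ∀ a, g a ∈ V) (e : E →+* K)
    (he : ∀ r : R, g (algebraMap R A r) = e (algebraMap R E r))
    (hU : UnifAt k (V.comap e)) :
    ∃ D' : Subalgebra k K, Algebra.Smooth k D' ∧ (∀ a, g a ∈ D') ∧ ∀ x ∈ D', x ∈ V := by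
  classical
  have hcE : CharP E p := charP_of_injective_algebraMap (algebraMap k E).injective p
  obtain ⟨Rb, hRb⟩ : ∃ Rb : Subalgebra k E, Rb = (IsScalarTower.toAlgHom k R E).range := ⟨_, rfl⟩
  have hmem : ∀ a : R, algebraMap R E a ∈ Rb := fun a => by rw [hRb]; exact ⟨a, rfl⟩
  have hfg : Rb.FG := by
    rw [hRb]
    obtain ⟨S, hS⟩ := (inferInstance : Algebra.FiniteType k R)
    refine ⟨S.image (algebraMap R E), ?_⟩
    have h1 := congrArg (Subalgebra.map (IsScalarTower.toAlgHom k R E)) hS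
    rw [AlgHom.map_adjoin, Algebra.map_top] at h1
    rw [Finset.coe_image]
    exact h1
  have hfr : ∀ x : E, ∃ a ∈ Rb, ∃ b ∈ Rb, b ≠ 0 ∧ x = a * b⁻¹ := by
    intro x
    obtain ⟨a, c, hc, rfl⟩ := IsFractionRing.div_surjective (A := R) x
    refine ⟨_, hmem a, _, hmem c, ?_, div_eq_mul_inv _ _⟩
    exact (FaithfulSMul.algebraMap_eq_zero_iff R E).not.2 (nonZeroDivisors.ne_zero hc)
  obtain ⟨l', hl'⟩ : ∃ l' : List (E × (σ → E)),
    l' = l.map fun it => (algebraMap R E it.1, it.2) := ⟨_, rfl⟩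
  have hc : ∀ it ∈ l', it.1 ∈ Rb := by
    intro it hit
    rw [hl'] at hit
    obtain ⟨it', -, rfl⟩ := List.mem_map.1 hit
    exact hmem _
  have hν' : ∀ it ∈ l', ∀ j, ∑ e, α j e * it.2 e ∈ Rb := by
    intro it hit j
    rw [hl'] at hit
    obtain ⟨it', hit', rfl⟩ := List.mem_map.1 hit
    obtain ⟨a, ha⟩ := hν it' hit' j
    change ∑ e, α j e * it'.2 e ∈ Rb
    rw [← ha]
    exact hmem a
  obtain ⟨AE, hAE⟩ : ∃ AE : Subalgebra E (MvPolynomial σ E),
      ∀ f, f ∈ AE ↔ ∀ it ∈ l', f ∈ inv p it.1 it.2 := by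
    refine ⟨⨅ it : {it // it ∈ l'}, inv p it.1.1 it.1.2, fun f => ?_⟩
    rw [Algebra.mem_iInf]
    exact ⟨fun h it hit => h ⟨it, hit⟩, fun h it => h it.1 it.2⟩
  have hgr : (A.val.restrictScalars k).range = cg AE (Set.range (ell α b)) Rb := by
    ext x
    rw [mem_cg, hAE, hRb, CG_eq, hl']
    constructor
    · rintro ⟨a, rfl⟩
      obtain ⟨h1, h2⟩ := (hA a.1).1 a.2
      refine ⟨fun it hit => ?_, h1⟩
      obtain ⟨it', hit', rfl⟩ := List.mem_map.1 hit
      exact h2 it' hit'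
    · rintro ⟨h1, h2⟩
      have h3 : ∀ it ∈ l, x ∈ inv p (algebraMap R E it.1) it.2 := fun it hit =>
        h1 (algebraMap R E it.1, it.2) (List.mem_map.2 ⟨it, hit, rfl⟩)
      exact ⟨⟨x, (hA x).2 ⟨h2, h3⟩⟩, rfl⟩
  refine general2LU Rb hfg hfr _ (funsL_finite p α b l') AE (Set.range (ell α b))
    (exists_int_ell α b Rb l' hc hν' AE hAE) ?_ (A.val.restrictScalars k) Subtype.val_injective hgr
    g hg hK V hV e ?_ hU
  · intro D hRD hD hcmp
    exact chart_lin α b hrk l' AE hAE D hD (fun it hit => hRD (hc it hit))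
      (fun it hit j => hRD (hν' it hit j)) hcmp
  · intro a x hx hax
    rw [hRb] at hx
    obtain ⟨r, rfl⟩ := hx
    have h1 : a = algebraMap R A r := Subtype.ext hax
    rw [h1]
    exact he r

end mainLLU

end Pool.Agent.Q86.TO
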