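import Pool.Agent.Q86.TO1

/-!
# Invariants of translations by group schemes of order `p`: several variables
-/

set_option autoImplicit false
set_option linter.unusedSectionVars false

universe u

open MvPolynomial

namespace Pool.Agent.Q86.TO

section defs

variable {σ : Type} {D : Type u} [CommRing D]

/-- The translation `y ↦ y + X v` in the direction of the vector `v`. -/
noncomputable def tr (v : σ → D) : MvPolynomial σ D →ₐ[D] Polynomial (MvPolynomial σ D) :=
  MvPolynomial.aeval fun j =>
    Polynomial.C (MvPolynomial.X j) + Polynomial.X * Polynomial.C (MvPolynomial.C (v j))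

lemma tr_X (v : σ → D) (j : σ) : tr v (X j) =
    Polynomial.C (X j) + Polynomial.X * Polynomial.C (C (v j)) := aeval_X _ _

lemma tr_C (v : σ → D) (b : D) : tr v (C b) = Polynomial.C (C b) := by
  unfold tr
  rw [← MvPolynomial.algebraMap_eq, AlgHom.commutes]
  rfl

/-- The polynomials which are invariant under the group scheme `{t : t ^ p = c t}` acting by the
translations `y ↦ y + t v`. -/
noncomputable def inv (p : ℕ) (c : D) (v : σ → D) : Subalgebra D (MvPolynomial σ D) where
  carrier := {f | mo1 p (C c) ∣ tr v f - Polynomial.C f}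
  mul_mem' := by
    intro f g hf hg
    have e : tr v (f * g) - Polynomial.C (f * g) =
        (tr v f - Polynomial.C f) * tr v g + Polynomial.C f * (tr v g - Polynomial.C g) := by
      rw [map_mul, Polynomial.C_mul]; ring
    change mo1 p (C c) ∣ _
    rw [e]
    exact dvd_add (dvd_mul_of_dvd_left hf _) (dvd_mul_of_dvd_right hg _)
  add_mem' := by
    intro f g hf hg
    have e : tr v (f + g) - Polynomial.C (f + g) =
        (tr v f - Polynomial.C f) + (tr v g - Polynomial.C g) := by
      rw [map_add, Polynomial.C_add]; ring
    change mo1 p (C c) ∣ _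
    rw [e]
    exact dvd_add hf hg
  algebraMap_mem' := by
    intro b
    change mo1 p (C c) ∣ _
    rw [MvPolynomial.algebraMap_eq, tr_C, sub_self]
    exact dvd_zero _

lemma mem_inv {p : ℕ} {c : D} {v : σ → D} {f : MvPolynomial σ D} :
    f ∈ inv p c v ↔ mo1 p (C c) ∣ tr v f - Polynomial.C f := Iff.rfl

variable [DecidableEq σ] (p : ℕ) (i : σ) (q : σ → D) (c : D) (v : σ → D)

/-- The vector `v'` in the new coordinates. -/
def stv (c' : D) (v' : σ → D) : σ → D := fun j =>
  if j = i then c' * v' i ^ p - c * v i ^ (p - 1) * v' i else v' j - q j * v' i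

/-- The new coordinates. -/
noncomputable def ph : MvPolynomial σ D →ₐ[D] MvPolynomial σ D :=
  aeval fun j => if j = i then X i ^ p - C (c * v i ^ (p - 1)) * X i else X j - C (q j) * X i

lemma ph_self : ph p i q c v (X i) = X i ^ p - C (c * v i ^ (p - 1)) * X i := by
  unfold ph
  rw [aeval_X, if_pos rfl]

lemma ph_ne {j : σ} (hj : j ≠ i) : ph p i q c v (X j) = X j - C (q j) * X i := by
  unfold ph
  rw [aeval_X, if_neg hj]

lemma ph_C (b : D) : ph p i q c v (C b) = C b := by
  rw [← MvPolynomial.algebraMap_eq, AlgHom.commutes]

end defs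

section main

variable {σ : Type} [DecidableEq σ] {D : Type u} [CommRing D] [IsDomain D] {p : ℕ}
  [hp : Fact p.Prime] [CharP D p] (i : σ) (q : σ → D) (c : D) (v : σ → D)

instance : CharP (MvPolynomial σ D) p := inferInstance

/-- Congruences. -/
lemma congr_ph (c' : D) (v' : σ → D) (g : MvPolynomial σ D) :
    mo1 p (C c') ∣ tr v' (ph p i q c v g) -
      (tr (stv p i q c v c' v') g).map (ph p i q c v : MvPolynomial σ D →+* MvPolynomial σ D) := by
  have h2 : 1 < p := hp.out.one_lt
  induction g using MvPolynomial.induction_on with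
  | C b =>
    rw [ph_C, tr_C, tr_C, Polynomial.map_C]
    have : (ph p i q c v : MvPolynomial σ D →+* MvPolynomial σ D) (C b) = C b := ph_C p i q c v b
    rw [this, sub_self]
    exact dvd_zero _
  | add f g hf hg =>
    have e : tr v' (ph p i q c v (f + g)) - (tr (stv p i q c v c' v') (f + g)).map
        (ph p i q c v : MvPolynomial σ D →+* MvPolynomial σ D) =
        (tr v' (ph p i q c v f) - (tr (stv p i q c v c' v') f).map
          (ph p i q c v : MvPolynomial σ D →+* MvPolynomial σ D)) +
        (tr v' (ph p i q c v g) - (tr (stv p i q c v c' v') g).map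
          (ph p i q c v : MvPolynomial σ D →+* MvPolynomial σ D)) := by
      rw [map_add, map_add, map_add, Polynomial.map_add]; ring
    rw [e]
    exact dvd_add hf hg
  | mul_X f j hf =>
    have hX : mo1 p (C c') ∣ tr v' (ph p i q c v (X j)) - (tr (stv p i q c v c' v') (X j)).map
        (ph p i q c v : MvPolynomial σ D →+* MvPolynomial σ D) := by
      rw [tr_X, Polynomial.map_add, Polynomial.map_mul, Polynomial.map_C, Polynomial.map_C,
        Polynomial.map_X]
      have e1 : (ph p i q c v : MvPolynomial σ D →+* MvPolynomial σ D)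
          (C (stv p i q c v c' v' j)) = C (stv p i q c v c' v' j) := ph_C p i q c v _
      have e2 : (ph p i q c v : MvPolynomial σ D →+* MvPolynomial σ D) (X j) =
        ph p i q c v (X j) := rfl
      rw [e1, e2]
      by_cases hj : j = i
      · subst hj
        rw [ph_self, map_sub, map_mul, map_pow, tr_X, tr_C]
        refine ⟨Polynomial.C (C (v' j ^ p)), ?_⟩
        unfold stv mo1
        rw [if_pos rfl, add_pow_char, mul_pow]
        simp only [Polynomial.C_sub, Polynomial.C_mul, Polynomial.C_pow, C_sub, C_mul, C_pow]
        ring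
      · rw [ph_ne p _ _ _ _ hj, map_sub, map_mul, tr_X, tr_X, tr_C]
        have e3 : stv p i q c v c' v' j = v' j - q j * v' i := if_neg hj
        rw [e3]
        simp only [Polynomial.C_sub, Polynomial.C_mul, C_sub, C_mul]
        have : (0 : Polynomial (MvPolynomial σ D)) = Polynomial.C (X j) + Polynomial.X * Polynomial.C (C (v' j)) -
            Polynomial.C (C (q j)) * (Polynomial.C (X i) + Polynomial.X * Polynomial.C (C (v' i))) -
            (Polynomial.C (X j) - Polynomial.C (C (q j)) * Polynomial.C (X i) +
              Polynomial.X * (Polynomial.C (C (v' j)) - Polynomial.C (C (q j)) *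
                Polynomial.C (C (v' i)))) := by ring
        rw [← this]
        exact dvd_zero _
    have e : tr v' (ph p i q c v (f * X j)) - (tr (stv p i q c v c' v') (f * X j)).map
        (ph p i q c v : MvPolynomial σ D →+* MvPolynomial σ D) =
        (tr v' (ph p i q c v f) - (tr (stv p i q c v c' v') f).map
          (ph p i q c v : MvPolynomial σ D →+* MvPolynomial σ D)) * tr v' (ph p i q c v (X j)) +
        (tr (stv p i q c v c' v') f).map
          (ph p i q c v : MvPolynomial σ D →+* MvPolynomial σ D) *
        (tr v' (ph p i q c v (X j)) - (tr (stv p i q c v c' v') (X j)).map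
          (ph p i q c v : MvPolynomial σ D →+* MvPolynomial σ D)) := by
      rw [map_mul, map_mul, map_mul, Polynomial.map_mul]; ring
    rw [e]
    exact dvd_add (dvd_mul_of_dvd_left hf _) (dvd_mul_of_dvd_right hX _)

/-- The coordinates other than `i` as constants. -/
noncomputable def spl (q : σ → D) :
    MvPolynomial σ D →ₐ[D] Polynomial (MvPolynomial {j // j ≠ i} D) :=
  aeval fun j => if h : j = i then Polynomial.X else
    Polynomial.C (X ⟨j, h⟩) + Polynomial.C (C (q j)) * Polynomial.X

/-- The inverse. -/
noncomputable def unspl (q : σ → D) : Polynomial (MvPolynomial {j // j ≠ i} D) →+*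
    MvPolynomial σ D :=
  Polynomial.eval₂RingHom ((aeval fun j : {j // j ≠ i} => X j.1 - C (q j.1) * X i :
    MvPolynomial {j // j ≠ i} D →ₐ[D] MvPolynomial σ D) : _ →+* _) (X i)

lemma spl_self : spl i q (X i) = Polynomial.X := by
  unfold spl
  rw [aeval_X, dif_pos rfl]

lemma spl_ne {j : σ} (hj : j ≠ i) : spl i q (X j) =
    Polynomial.C (X ⟨j, hj⟩) + Polynomial.C (C (q j)) * Polynomial.X := by
  unfold spl
  rw [aeval_X, dif_neg hj]

lemma spl_C (b : D) : spl i q (C b) = Polynomial.C (C b) := by
  rw [← MvPolynomial.algebraMap_eq, AlgHom.commutes]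
  rfl

lemma unspl_X : unspl i q Polynomial.X = X i := by
  unfold unspl
  simp

lemma unspl_C (b : MvPolynomial {j // j ≠ i} D) : unspl i q (Polynomial.C b) =
    aeval (fun j : {j // j ≠ i} => X j.1 - C (q j.1) * X i) b := by
  unfold unspl
  simp

lemma unspl_spl (f : MvPolynomial σ D) : unspl i q (spl i q f) = f := by
  have : ((unspl i q).comp (spl i q).toRingHom) = RingHom.id _ := by
    apply MvPolynomial.ringHom_ext
    · intro b
      change unspl i q (spl i q (C b)) = C b
      rw [spl_C, unspl_C]
      exact aeval_C _ _
    · intro j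
      change unspl i q (spl i q (X j)) = X j
      by_cases hj : j = i
      · subst hj
        rw [spl_self, unspl_X]
      · rw [spl_ne i q hj, map_add, map_mul, unspl_C, unspl_C, unspl_X, aeval_X]
        have e1 : (aeval fun j : {j // j ≠ i} => (X j.1 - C (q j.1) * X i : MvPolynomial σ D))
            (C (q j)) = C (q j) := aeval_C _ _
        rw [e1]
        ring
  exact congrArg (fun φ : MvPolynomial σ D →+* MvPolynomial σ D => φ f) this

lemma spl_inj : Function.Injective (spl i q) := by
  intro f g h
  rw [← unspl_spl i q f, ← unspl_spl i q g, h]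

lemma comp_inj {B : Type u} [CommRing B] [IsDomain B] (N : Polynomial B) (hN : N.natDegree ≠ 0) :
    Function.Injective (fun h : Polynomial B => h.comp N) := by
  intro f g h
  have h1 : (f - g).comp N = 0 := by
    rw [Polynomial.sub_comp, sub_eq_zero]
    exact h
  rcases Polynomial.comp_eq_zero_iff.1 h1 with h2 | ⟨-, h2⟩
  · exact sub_eq_zero.1 h2
  · exfalso
    apply hN
    rw [h2]
    exact Polynomial.natDegree_C _

lemma spl_ph (f : MvPolynomial σ D) : spl i q (ph p i q c v f) =
    (spl i 0 f).comp (mo1 p (C c * C (v i) ^ (p - 1))) := by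
  have : ((spl i q).toRingHom.comp (ph p i q c v).toRingHom) =
      (Polynomial.compRingHom (mo1 p (C c * C (v i) ^ (p - 1)))).comp
        (spl i 0).toRingHom := by
    apply MvPolynomial.ringHom_ext
    · intro b
      change spl i q (ph p i q c v (C b)) = (spl i 0 (C b)).comp _
      rw [ph_C, spl_C, spl_C, Polynomial.C_comp]
    · intro j
      change spl i q (ph p i q c v (X j)) = (spl i 0 (X j)).comp _
      by_cases hj : j = i
      · subst hj
        rw [ph_self, spl_self, Polynomial.X_comp, map_sub, map_mul, map_pow, spl_C, spl_self]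
        unfold mo1
        rw [C_mul, C_pow]
      · rw [ph_ne p i q c v hj, spl_ne i 0 hj, map_sub, map_mul, spl_C, spl_self, spl_ne i q hj]
        simp
  exact congrArg (fun φ : MvPolynomial σ D →+* _ => φ f) this

theorem ph_injective : Function.Injective (ph p i q c v) := by
  intro f g h
  have h1 := congrArg (spl i q) h
  rw [spl_ph, spl_ph] at h1
  have h2 : (spl i 0 f) = spl i 0 g := by
    refine comp_inj _ ?_ h1
    rw [mo1_natDegree]
    exact hp.out.ne_zero
  exact spl_inj i 0 h2

variable {i q c v}

lemma ph_dvd (c' : D) (F : Polynomial (MvPolynomial σ D)) :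
    mo1 p (C c') ∣ F.map (ph p i q c v : MvPolynomial σ D →+* MvPolynomial σ D) ↔
      mo1 p (C c') ∣ F := by
  have h1 : (mo1 p (C c') : Polynomial (MvPolynomial σ D)) = (mo1 p (C c')).map
      (ph p i q c v : MvPolynomial σ D →+* MvPolynomial σ D) := by
    unfold mo1
    rw [Polynomial.map_sub, Polynomial.map_mul, Polynomial.map_pow, Polynomial.map_X,
      Polynomial.map_C]
    have : (ph p i q c v : MvPolynomial σ D →+* MvPolynomial σ D) (C c') = C c' := ph_C p i q c v c'
    rw [this]
  conv_lhs => rw [h1]
  exact Polynomial.map_dvd_map _ (ph_injective i q c v) (mo1_monic _)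

/-- Invariants in the new coordinates. -/
theorem ph_mem_inv (c' : D) (v' : σ → D) (g : MvPolynomial σ D) :
    ph p i q c v g ∈ inv p c' v' ↔ g ∈ inv p c' (stv p i q c v c' v') := by
  rw [mem_inv, mem_inv, ← ph_dvd (i := i) (q := q) (c := c) (v := v) c'
    (tr (stv p i q c v c' v') g - Polynomial.C g)]
  have h1 := congr_ph (p := p) i q c v c' v' g
  rw [Polynomial.map_sub, Polynomial.map_C]
  have e : (ph p i q c v : MvPolynomial σ D →+* MvPolynomial σ D) g = ph p i q c v g := rfl
  rw [e]
  constructor
  · intro h
    have := dvd_sub h h1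
    have e2 : tr v' (ph p i q c v g) - Polynomial.C (ph p i q c v g) -
        (tr v' (ph p i q c v g) - (tr (stv p i q c v c' v') g).map
          (ph p i q c v : MvPolynomial σ D →+* MvPolynomial σ D)) =
        (tr (stv p i q c v c' v') g).map
          (ph p i q c v : MvPolynomial σ D →+* MvPolynomial σ D) -
          Polynomial.C (ph p i q c v g) := by ring
    rwa [e2] at this
  · intro h
    have := dvd_add h h1
    have e2 : (tr (stv p i q c v c' v') g).map
          (ph p i q c v : MvPolynomial σ D →+* MvPolynomial σ D) -
          Polynomial.C (ph p i q c v g) + (tr v' (ph p i q c v g) -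
          (tr (stv p i q c v c' v') g).map
          (ph p i q c v : MvPolynomial σ D →+* MvPolynomial σ D)) =
        tr v' (ph p i q c v g) - Polynomial.C (ph p i q c v g) := by ring
    rwa [e2] at this

/-- The translation after splitting. -/
lemma spl_tr (hq : ∀ j, v j = q j * v i) (f : MvPolynomial σ D) :
    (tr v f).map (spl i q).toRingHom = trl (C (v i)) (spl i q f) := by
  have : (Polynomial.mapRingHom (spl i q).toRingHom).comp
      (tr v).toRingHom =
      (trl (C (v i))).toRingHom.comp
        (spl i q).toRingHom := by
    apply MvPolynomial.ringHom_ext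
    · intro b
      change (tr v (C b)).map (spl i q).toRingHom =
        trl (C (v i)) (spl i q (C b))
      rw [tr_C, spl_C, trl_C, Polynomial.map_C]
      congr 1
      exact spl_C i q b
    · intro j
      change (tr v (X j)).map (spl i q).toRingHom =
        trl (C (v i)) (spl i q (X j))
      rw [tr_X, Polynomial.map_add, Polynomial.map_mul, Polynomial.map_C, Polynomial.map_C,
        Polynomial.map_X]
      have e1 : (spl i q).toRingHom (X j) = spl i q (X j) := rfl
      have e2 : (spl i q).toRingHom (C (v j)) =
        Polynomial.C (C (v j)) := spl_C i q (v j)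
      rw [e1, e2]
      by_cases hj : j = i
      · subst hj
        rw [spl_self, trl_X]
      · have e4 : trl (C (v i)) (Polynomial.C (X ⟨j, hj⟩) + Polynomial.C (C (q j)) *
            (Polynomial.X : Polynomial (MvPolynomial {j // j ≠ i} D))) =
            Polynomial.C (Polynomial.C (X ⟨j, hj⟩)) + Polynomial.C (Polynomial.C (C (q j))) *
            (Polynomial.C Polynomial.X + Polynomial.X * Polynomial.C (Polynomial.C (C (v i)))) := by
          rw [map_add, map_mul, trl_C, trl_C, trl_X]
        rw [spl_ne i q hj, e4, hq j]
        simp only [Polynomial.C_add, Polynomial.C_mul, C_mul]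
        ring
  exact congrArg (fun φ : MvPolynomial σ D →+* _ => φ f) this

/-- **The invariants of one translation.** -/
theorem inv_eq_range (hv : v i ≠ 0) (hqi : q i = 1) (hq : ∀ j, v j = q j * v i)
    (f : MvPolynomial σ D) : f ∈ inv p c v ↔ ∃ g, f = ph p i q c v g := by
  have h2 : 1 < p := hp.out.one_lt
  constructor
  · intro hf
    have h1 : mo1 p (Polynomial.C (C c)) ∣ trl (C (v i)) (spl i q f) -
        Polynomial.C (spl i q f) := by
      rw [← spl_tr hq]
      have h3 := Polynomial.map_dvd (spl i q).toRingHom hf
      rw [Polynomial.map_sub, Polynomial.map_C] at h3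
      have e1 : (mo1 p (C c) : Polynomial (MvPolynomial σ D)).map
          (spl i q).toRingHom = mo1 p (Polynomial.C (C c)) := by
        unfold mo1
        rw [Polynomial.map_sub, Polynomial.map_mul, Polynomial.map_pow, Polynomial.map_X,
          Polynomial.map_C]
        congr 3
        exact spl_C i q c
      rw [e1] at h3
      exact h3
    obtain ⟨h, hh⟩ := inv_one (C c) (C (v i)) (fun h0 => hv ((MvPolynomial.C_injective _ _)
      (h0.trans (map_zero C).symm))) _ h1
    refine ⟨unspl i 0 h, ?_⟩
    apply spl_inj i q
    rw [hh, spl_ph]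
    congr 1
    have : ∀ h, spl i (0 : σ → D) (unspl i 0 h) = h := by
      intro h
      have : ((spl i (0 : σ → D)).toRingHom.comp (unspl i 0)) = RingHom.id _ := by
        apply Polynomial.ringHom_ext
        · intro b
          change spl i 0 (unspl i 0 (Polynomial.C b)) = Polynomial.C b
          rw [unspl_C]
          have : ((spl i (0 : σ → D)).comp (aeval fun j : {j // j ≠ i} =>
              (X j.1 - C ((0 : σ → D) j.1) * X i : MvPolynomial σ D))) =
              (Algebra.ofId _ _ : MvPolynomial {j // j ≠ i} D →ₐ[MvPolynomial {j // j ≠ i} D]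
                Polynomial (MvPolynomial {j // j ≠ i} D)).restrictScalars D := by
            apply MvPolynomial.algHom_ext
            intro j
            rw [AlgHom.comp_apply, aeval_X]
            simp only [Pi.zero_apply, C_0, zero_mul, sub_zero]
            rw [spl_ne i 0 j.2]
            simp
          exact congrArg (fun φ : MvPolynomial {j // j ≠ i} D →ₐ[D] _ => φ b) this
        · change spl i 0 (unspl i 0 Polynomial.X) = Polynomial.X
          rw [unspl_X, spl_self]
      exact congrArg (fun φ : _ →+* Polynomial (MvPolynomial {j // j ≠ i} D) => φ h) this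
    rw [this]
  · rintro ⟨g, rfl⟩
    rw [ph_mem_inv]
    have e : stv p i q c v c v = 0 := by
      funext j
      unfold stv
      by_cases hj : j = i
      · rw [if_pos hj]
        have : v i ^ p = v i ^ (p - 1) * v i := by rw [← pow_succ]; congr 1; omega
        rw [this, Pi.zero_apply]; ring
      · rw [if_neg hj, hq j, sub_self]; rfl
    rw [e, mem_inv]
    have : tr (0 : σ → D) g = Polynomial.C g := by
      have : (tr (0 : σ → D)) = (Algebra.ofId _ _ : MvPolynomial σ D →ₐ[MvPolynomial σ D]
                Polynomial (MvPolynomial σ D)).restrictScalars D := by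
        apply MvPolynomial.algHom_ext
        intro j
        rw [tr_X]
        simp
      rw [this]
      rfl
    rw [this, sub_self]
    exact dvd_zero _

lemma tr_zero (g : MvPolynomial σ D) : tr (0 : σ → D) g = Polynomial.C g := by
  have : (tr (0 : σ → D)) = (Algebra.ofId _ _ : MvPolynomial σ D →ₐ[MvPolynomial σ D]
            Polynomial (MvPolynomial σ D)).restrictScalars D := by
    apply MvPolynomial.algHom_ext
    intro j
    rw [tr_X]
    simp
  rw [this]
  rfl

lemma mem_inv_zero (c : D) (g : MvPolynomial σ D) : g ∈ inv p c (0 : σ → D) := by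
  rw [mem_inv, tr_zero, sub_self]
  exact dvd_zero _

end main

section chain

variable {σ : Type} [DecidableEq σ] {D : Type u} [CommRing D] (p : ℕ)

/-- The new item. -/
def stp (i : σ) (q : σ → D) (c : D) (v : σ → D) (it : D × (σ → D)) : D × (σ → D) :=
  (it.1, stv p i q c v it.1 it.2)

/-- Families of translations which can be divided out one after the other. -/
inductive Chain : List (D × (σ → D)) → Prop
  | nil : Chain []
  | zero (c : D) (l : List (D × (σ → D))) : Chain l → Chain ((c, 0) :: l)
  | step (c : D) (v : σ → D) (l : List (D × (σ → D))) (i : σ) (q : σ → D) : v i ≠ 0 → q i = 1 →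
      (∀ j, v j = q j * v i) → Chain (l.map (stp p i q c v)) → Chain ((c, v) :: l)

variable {p} [IsDomain D] [hp : Fact p.Prime] [CharP D p]

/-- The ring of invariants is a polynomial ring. -/
theorem Chain.exists_hom {l : List (D × (σ → D))} (h : Chain p l) :
    ∃ φ : MvPolynomial σ D →ₐ[D] MvPolynomial σ D, Function.Injective φ ∧
      ∀ f, (∀ it ∈ l, f ∈ inv p it.1 it.2) ↔ ∃ g, φ g = f := by
  induction h with
  | nil =>
    exact ⟨AlgHom.id _ _, Function.injective_id, fun f => by simp⟩
  | zero c l _ ih =>
    obtain ⟨φ, hφ, h⟩ := ih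
    refine ⟨φ, hφ, fun f => ?_⟩
    rw [← h f]
    constructor
    · intro h' it hit
      exact h' it (List.mem_cons_of_mem _ hit)
    · intro h' it hit
      rcases List.mem_cons.1 hit with rfl | hit
      · exact mem_inv_zero c f
      · exact h' it hit
  | step c v l i q hv hqi hq _ ih =>
    obtain ⟨φ, hφ, h⟩ := ih
    refine ⟨(ph p i q c v).comp φ, (ph_injective i q c v).comp hφ, fun f => ?_⟩
    constructor
    · intro h'
      obtain ⟨g, rfl⟩ := (inv_eq_range hv hqi hq f).1 (h' (c, v) List.mem_cons_self)
      obtain ⟨g', rfl⟩ := (h g).1 (by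
        intro it hit
        obtain ⟨it', hit', rfl⟩ := List.mem_map.1 hit
        exact (ph_mem_inv _ _ g).1 (h' it' (List.mem_cons_of_mem _ hit')))
      exact ⟨g', rfl⟩
    · rintro ⟨g, rfl⟩ it hit
      have h3 := (h (φ g)).2 ⟨g, rfl⟩
      rw [AlgHom.comp_apply]
      rcases List.mem_cons.1 hit with rfl | hit
      · exact (inv_eq_range hv hqi hq _).2 ⟨_, rfl⟩
      · rw [ph_mem_inv]
        exact h3 (stp p i q c v it) (List.mem_map_of_mem hit)

end chain

end Pool.Agent.Q86.TO
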