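import Pool.Agent.Q86.TO2

/-!
# Base change, integrality and comparable functions
-/

set_option autoImplicit false
set_option linter.unusedSectionVars false

universe u

open MvPolynomial

namespace Pool.Agent.Q86.TO

section bc

variable {σ : Type} {D E : Type u} [CommRing D] [IsDomain D] [CommRing E] [IsDomain E] {p : ℕ}
  [hp : Fact p.Prime] (ι : D →+* E)

lemma map_tr (v : σ → D) (f : MvPolynomial σ D) : (tr v f).map (MvPolynomial.map ι) =
    tr (fun j => ι (v j)) (MvPolynomial.map ι f) := by
  have : (Polynomial.mapRingHom (MvPolynomial.map (σ := σ) ι)).comp (tr v).toRingHom =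
      (tr (fun j => ι (v j))).toRingHom.comp (MvPolynomial.map ι) := by
    apply MvPolynomial.ringHom_ext
    · intro b
      change (tr v (C b)).map (MvPolynomial.map ι) = tr _ (MvPolynomial.map ι (C b))
      rw [tr_C, Polynomial.map_C, map_C, tr_C]
    · intro j
      change (tr v (X j)).map (MvPolynomial.map ι) = tr _ (MvPolynomial.map ι (X j))
      rw [tr_X, map_X, tr_X, Polynomial.map_add, Polynomial.map_mul, Polynomial.map_C,
        Polynomial.map_C, Polynomial.map_X, map_X, map_C]
  exact congrArg (fun φ : MvPolynomial σ D →+* _ => φ f) this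

/-- Base change of invariants. -/
theorem map_mem_inv (hι : Function.Injective ι) (c : D) (v : σ → D) (f : MvPolynomial σ D) :
    MvPolynomial.map ι f ∈ inv p (ι c) (fun j => ι (v j)) ↔ f ∈ inv p c v := by
  rw [mem_inv, mem_inv, ← map_tr]
  have h1 : (mo1 p (C (ι c)) : Polynomial (MvPolynomial σ E)) =
      (mo1 p (C c)).map (MvPolynomial.map ι) := by
    unfold mo1
    rw [Polynomial.map_sub, Polynomial.map_mul, Polynomial.map_pow, Polynomial.map_X,
      Polynomial.map_C, map_C]
  have h2 : (Polynomial.C (MvPolynomial.map ι f) : Polynomial (MvPolynomial σ E)) =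
      (Polynomial.C f).map (MvPolynomial.map ι) := by rw [Polynomial.map_C]
  rw [h1, h2, ← Polynomial.map_sub]
  exact Polynomial.map_dvd_map _ (MvPolynomial.map_injective ι hι) (mo1_monic _)

end bc

section int

variable {σ : Type} {D : Type u} [CommRing D] [IsDomain D] {p : ℕ} [hp : Fact p.Prime] [CharP D p]

/-- The coordinates are integral over the ring of invariants. -/
theorem exists_int {κ : Type*} [DecidableEq κ] (c : κ → D) (v : κ → σ → D) (j : σ)
    (s : Finset κ) :
    ∃ (Q : Polynomial D) (w : κ → D), Q.Monic ∧ Q.natDegree ≠ 0 ∧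
      (∀ l, mo1 p (C (c l)) ∣ tr (v l) (Polynomial.aeval (X j : MvPolynomial σ D) Q) -
        (Polynomial.C (Polynomial.aeval (X j : MvPolynomial σ D) Q) +
          Polynomial.X * Polynomial.C (C (w l)))) ∧ ∀ l ∈ s, w l = 0 := by
  induction s using Finset.induction_on with
  | empty =>
    refine ⟨Polynomial.X, fun l => v l j, Polynomial.monic_X, by simp, fun l => ?_, by simp⟩
    rw [Polynomial.aeval_X, tr_X, sub_self]
    exact dvd_zero _
  | insert l0 s hl0 ih =>
    obtain ⟨Q, w, hQ, hQd, h1, h2⟩ := ih
    have hp2 : 1 < p := hp.out.one_lt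
    set b : D := c l0 * w l0 ^ (p - 1) with hb
    refine ⟨Q ^ p - Polynomial.C b * Q, fun l => c l * w l ^ p - b * w l, ?_, ?_, fun l => ?_, ?_⟩
    · refine (hQ.pow p).sub_of_left ?_
      rw [Polynomial.degree_eq_natDegree (hQ.pow p).ne_zero, hQ.natDegree_pow]
      refine Polynomial.degree_le_natDegree.trans_lt ?_
      have h3 : (Polynomial.C b * Q).natDegree ≤ Q.natDegree := Polynomial.natDegree_C_mul_le _ _
      have h4 : Q.natDegree < p * Q.natDegree := by
        have : 0 < Q.natDegree := Nat.pos_of_ne_zero hQd
        nlinarith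
      exact_mod_cast h3.trans_lt h4
    · have h3 : (Polynomial.C b * Q).natDegree ≤ Q.natDegree := Polynomial.natDegree_C_mul_le _ _
      have h4 : Q.natDegree < p * Q.natDegree := by
        have : 0 < Q.natDegree := Nat.pos_of_ne_zero hQd
        nlinarith
      rw [Polynomial.natDegree_sub_eq_left_of_natDegree_lt, hQ.natDegree_pow]
      · exact mul_ne_zero hp.out.ne_zero hQd
      · rw [hQ.natDegree_pow]
        exact h3.trans_lt h4
    · set g := Polynomial.aeval (X j : MvPolynomial σ D) Q with hg
      obtain ⟨m, hm⟩ := h1 l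
      have e1 : tr (v l) g = Polynomial.C g + Polynomial.X * Polynomial.C (C (w l)) +
          mo1 p (C (c l)) * m := by rw [← hm]; ring
      have e2 : Polynomial.aeval (X j : MvPolynomial σ D) (Q ^ p - Polynomial.C b * Q) =
          g ^ p - C b * g := by
        rw [map_sub, map_mul, map_pow, Polynomial.aeval_C]
        rfl
      have e3 : (Polynomial.X ^ p : Polynomial (MvPolynomial σ D)) =
          mo1 p (C (c l)) + Polynomial.C (C (c l)) * Polynomial.X := by
        unfold mo1; ring
      rw [e2, map_sub, map_mul, map_pow, tr_C, e1]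
      refine ⟨Polynomial.C (C (w l)) ^ p + mo1 p (C (c l)) ^ (p - 1) * m ^ p -
        Polynomial.C (C b) * m, ?_⟩
      have e4 : mo1 p (C (c l)) ^ p = mo1 p (C (c l) : MvPolynomial σ D) *
          mo1 p (C (c l)) ^ (p - 1) := by
        rw [← pow_succ']; congr 1; omega
      rw [add_pow_char, add_pow_char, mul_pow, mul_pow, e3, e4]
      simp only [Polynomial.C_sub, Polynomial.C_mul, Polynomial.C_pow, C_sub, C_mul, C_pow]
      ring
    · intro l hl
      rcases Finset.mem_insert.1 hl with rfl | hl
      · change c l * w l ^ p - b * w l = 0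
        have : w l ^ p = w l ^ (p - 1) * w l := by rw [← pow_succ]; congr 1; omega
        rw [this, hb]; ring
      · change c l * w l ^ p - b * w l = 0
        rw [h2 l hl, zero_pow hp.out.ne_zero, mul_zero, mul_zero, sub_zero]

/-- The coordinates are integral over the ring of invariants. -/
theorem exists_int' {κ : Type*} [Finite κ] (c : κ → D) (v : κ → σ → D) (j : σ) :
    ∃ Q : Polynomial D, Q.Monic ∧ Q.natDegree ≠ 0 ∧
      ∀ l, Polynomial.aeval (X j : MvPolynomial σ D) Q ∈ inv p (c l) (v l) := by
  classical
  have : Fintype κ := Fintype.ofFinite κ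
  obtain ⟨Q, w, h1, h2, h3, h4⟩ := exists_int (p := p) c v j Finset.univ
  refine ⟨Q, h1, h2, fun l => ?_⟩
  have := h3 l
  rw [h4 l (Finset.mem_univ l)] at this
  rw [mem_inv]
  simpa using this

end int

section funs

variable {σ : Type} [DecidableEq σ] {E : Type u} [Field E] (p : ℕ)

/-- The functions which have to be comparable. -/
def funs : ℕ → List (E × (σ → E)) → Set E
  | 0, _ => ∅
  | _ + 1, [] => ∅
  | n + 1, it :: l => Set.range it.2 ∪ (funs n l ∪
      ⋃ i, funs n (l.map (stp p i (fun j => it.2 j / it.2 i) it.1 it.2)))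

lemma funs_finite [Finite σ] (n : ℕ) (l : List (E × (σ → E))) : (funs p n l).Finite := by
  induction n generalizing l with
  | zero => exact Set.finite_empty
  | succ n ih =>
    rcases l with _ | ⟨it, l⟩
    · exact Set.finite_empty
    · exact (Set.finite_range _).union ((ih l).union (Set.finite_iUnion fun i => ih _))

/-- Change of rings. -/
def mpi {D : Type u} [CommRing D] (ι : D →+* E) (it : D × (σ → D)) : E × (σ → E) :=
  (ι it.1, fun j => ι (it.2 j))

lemma exists_pivot {D : Type u} [CommRing D] (ι : D →+* E) [Finite σ] (v : σ → E) (hv : v ≠ 0)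
    (h : ∀ i j, v i ≠ 0 → v j ≠ 0 → (∃ d, ι d = v j / v i) ∨ ∃ d, ι d = v i / v j) :
    ∃ i, v i ≠ 0 ∧ ∀ j, ∃ d, ι d = v j / v i := by
  classical
  have : Fintype σ := Fintype.ofFinite σ
  have key : ∀ s : Finset σ, (∃ i ∈ s, v i ≠ 0) → ∃ i, v i ≠ 0 ∧ ∀ j ∈ s, ∃ d, ι d = v j / v i := by
    intro s
    induction s using Finset.induction_on with
    | empty => rintro ⟨i, hi, -⟩; exact absurd hi (Finset.notMem_empty i)
    | insert a s ha ih =>
      intro h0
      by_cases hva : v a = 0
      · obtain ⟨i, hi, hj⟩ := ih (by
          obtain ⟨i, hi, hi'⟩ := h0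
          rcases Finset.mem_insert.1 hi with rfl | hi
          · exact absurd hva hi'
          · exact ⟨i, hi, hi'⟩)
        refine ⟨i, hi, fun j hj' => ?_⟩
        rcases Finset.mem_insert.1 hj' with rfl | hj'
        · exact ⟨0, by rw [map_zero, hva, zero_div]⟩
        · exact hj j hj'
      · by_cases hs : ∃ i ∈ s, v i ≠ 0
        · obtain ⟨i, hi, hj⟩ := ih hs
          rcases h a i hva hi with h1 | h1
          · refine ⟨a, hva, fun j hj' => ?_⟩
            rcases Finset.mem_insert.1 hj' with rfl | hj'
            · exact ⟨1, by rw [map_one, div_self hva]⟩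
            · obtain ⟨d, hd⟩ := hj j hj'
              obtain ⟨e, he⟩ := h1
              refine ⟨d * e, ?_⟩
              rw [map_mul, hd, he]
              field_simp
          · refine ⟨i, hi, fun j hj' => ?_⟩
            rcases Finset.mem_insert.1 hj' with rfl | hj'
            · exact h1
            · exact hj j hj'
        · refine ⟨a, hva, fun j hj' => ?_⟩
          rcases Finset.mem_insert.1 hj' with rfl | hj'
          · exact ⟨1, by rw [map_one, div_self hva]⟩
          · have : v j = 0 := by
              by_contra hne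
              exact hs ⟨j, hj', hne⟩
            exact ⟨0, by rw [map_zero, this, zero_div]⟩
  obtain ⟨i, hi⟩ : ∃ i, v i ≠ 0 := by
    by_contra hcon
    push Not at hcon
    exact hv (funext hcon)
  obtain ⟨a, ha, h1⟩ := key Finset.univ ⟨i, Finset.mem_univ i, hi⟩
  exact ⟨a, ha, fun j => h1 j (Finset.mem_univ j)⟩

/-- Families of translations on charts where finitely many functions are comparable. -/
theorem chain_of_cmp [Finite σ] {D : Type u} [CommRing D] (ι : D →+* E)
    (hι : Function.Injective ι) (n : ℕ) (l : List (D × (σ → D))) (hl : l.length ≤ n)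
    (h : ∀ a ∈ funs p n (l.map (mpi ι)), ∀ b ∈ funs p n (l.map (mpi ι)), a ≠ 0 → b ≠ 0 →
      (∃ d, ι d = b / a) ∨ ∃ d, ι d = a / b) : Chain p l := by
  induction n generalizing l with
  | zero =>
    have : l = [] := List.length_eq_zero_iff.1 (by omega)
    rw [this]
    exact Chain.nil
  | succ n ih =>
    rcases l with _ | ⟨⟨c, v⟩, l⟩
    · exact Chain.nil
    · have hln : l.length ≤ n := by simpa using hl
      rw [List.map_cons] at h
      have hfs : ∀ x, x ∈ funs p (n + 1) (mpi ι (c, v) :: l.map (mpi ι)) ↔
          x ∈ Set.range (mpi ι (c, v)).2 ∪ (funs p n (l.map (mpi ι)) ∪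
      ⋃ i, funs p n ((l.map (mpi ι)).map (stp p i
        (fun j => (mpi ι (c, v)).2 j / (mpi ι (c, v)).2 i) (mpi ι (c, v)).1 (mpi ι (c, v)).2))) :=
        fun x => Iff.rfl
      by_cases hv : v = 0
      · rw [hv]
        refine Chain.zero c l (ih l hln fun a ha b hb => ?_)
        exact h a ((hfs a).2 (Or.inr (Or.inl ha))) b ((hfs b).2 (Or.inr (Or.inl hb)))
      · have hv' : (fun j => ι (v j)) ≠ 0 := by
          intro h0
          apply hv
          funext j
          exact hι ((congrFun h0 j).trans (map_zero ι).symm)
        obtain ⟨i, hi, hj⟩ := exists_pivot ι (fun j => ι (v j)) hv' (by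
          intro i j hi hj
          exact h _ ((hfs _).2 (Or.inl ⟨i, rfl⟩)) _ ((hfs _).2 (Or.inl ⟨j, rfl⟩)) hi hj)
        choose q hq using hj
        have hvi : v i ≠ 0 := fun h0 => hi (by
          change ι (v i) = 0
          rw [h0, map_zero])
        refine Chain.step c v l i q hvi ?_ ?_ ?_
        · apply hι
          rw [hq, map_one]
          exact div_self hi
        · intro j
          apply hι
          rw [map_mul, hq]
          exact (div_mul_cancel₀ _ hi).symm
        · have e : (l.map (stp p i q c v)).map (mpi ι) = (l.map (mpi ι)).map (stp p i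
              (fun j => (mpi ι (c, v)).2 j / (mpi ι (c, v)).2 i) (mpi ι (c, v)).1
              (mpi ι (c, v)).2) := by
            rw [List.map_map, List.map_map]
            apply List.map_congr_left
            intro it _
            change (ι it.1, fun j => ι (stv p i q c v it.1 it.2 j)) =
              (ι it.1, stv p i (fun j => ι (v j) / ι (v i)) (ι c) (fun j => ι (v j)) (ι it.1)
                (fun j => ι (it.2 j)))
            congr 1
            funext j
            unfold stv
            by_cases hji : j = i
            · rw [if_pos hji, if_pos hji]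
              simp
            · rw [if_neg hji, if_neg hji, map_sub, map_mul]
              rw [hq j]
          refine ih (l.map (stp p i q c v)) (by simpa using hln) ?_
          rw [e]
          intro a ha b hb
          exact h a ((hfs a).2 (Or.inr (Or.inr (Set.mem_iUnion.2 ⟨i, ha⟩)))) b
            ((hfs b).2 (Or.inr (Or.inr (Set.mem_iUnion.2 ⟨i, hb⟩))))

end funs

end Pool.Agent.Q86.TO
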