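import Pool.Agent.W418.LCI.Field
import Pool.Agent.W558.Var
import Pool.Agent.Q86.TO3

/-!
# Resolution of the spectra of families of subalgebras of polynomial rings
-/

set_option autoImplicit false
set_option linter.unusedSectionVars false

universe u

open MvPolynomial Pool.Agent.W558 Pool.Agent.W418.LCI AlgebraicGeometry

namespace Pool.Agent.Q86.TO

section model

variable {k E : Type u} [Field k] [Field E] [Algebra k E]

/-- Finite families of nonzero elements of the set `P` of functions are locally monomials on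
suitable models. -/
def HasLMs (k : Type u) {E : Type u} [Field k] [Field E] [Algebra k E] (P : Set E) : Prop :=
  ∀ (n : ℕ) (h : Fin n → E), (∀ t, h t ≠ 0) → (∀ t, h t ∈ P) →
    ∃ (T I : Type) (_ : Finite T) (_ : Fintype I) (M : LM (⊥ : Subalgebra k E) ⊤ T I)
      (Γ : Fin n → I → ℤ), Fn M h Γ

lemma hasLMs_of (hE : HasLM k E) : HasLMs k (Set.univ : Set E) := by
  intro n h hh _
  obtain ⟨T, I, i1, i2, M, Γ, hΓ, -⟩ := hE (Fin n) h hh
  exact ⟨T, I, i1, i2, M, Γ, hΓ⟩

/-- The subalgebra is generated by finitely many functions in `P`. -/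
def GenBy (R : Subalgebra k E) (P : Set E) : Prop :=
  ∃ G : Finset E, Algebra.adjoin k (G : Set E) = R ∧ ∀ x ∈ G, x ≠ 0 → x ∈ P

lemma GenBy.fg {R : Subalgebra k E} {P : Set E} (h : GenBy R P) : R.FG := by
  obtain ⟨G, hG, -⟩ := h
  exact ⟨G, hG⟩

/-- A model on which finitely many functions are pairwise comparable. -/
theorem exists_model {P : Set E} (hE : HasLMs k P) (R : Subalgebra k E) (hfg : GenBy R P)
    (hfr : ∀ x : E, ∃ a ∈ R, ∃ b ∈ R, b ≠ 0 ∧ x = a * b⁻¹) (F : Set E) (hF : F.Finite)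
    (hFP : ∀ x ∈ F, x ≠ 0 → x ∈ P) :
    ∃ (T I : Type) (_ : Finite T) (_ : Fintype I) (M : LM R R T I), ∀ t, ∀ a ∈ F, ∀ b ∈ F,
      a ≠ 0 → b ≠ 0 → b / a ∈ M.A t ∨ a / b ∈ M.A t := by
  classical
  obtain ⟨G, hG, hGP⟩ := hfg
  let s : Finset E := (G ∪ hF.toFinset).erase 0
  let e : Fin s.card ≃ s := (s.equivFin).symm
  let h : Fin s.card → E := fun i => (e i : E)
  have hh : ∀ i, h i ≠ 0 := fun i => (Finset.mem_erase.1 (e i).2).1
  have hhP : ∀ i, h i ∈ P := by
    intro i
    rcases Finset.mem_union.1 (Finset.mem_erase.1 (e i).2).2 with h1 | h1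
    · exact hGP _ h1 (hh i)
    · exact hFP _ (hF.mem_toFinset.1 h1) (hh i)
  have hs : ∀ x ∈ s, ∃ i, h i = x := fun x hx => ⟨e.symm ⟨x, hx⟩, by
    change ((e (e.symm ⟨x, hx⟩) : s) : E) = x
    rw [Equiv.apply_symm_apply]⟩
  obtain ⟨T, I, i1, i2, M, Γ, hΓ⟩ := hE s.card h hh hhP
  have hR : R = Algebra.adjoin k (h '' {i | h i ∈ G}) := by
    apply le_antisymm
    · rw [← hG, Algebra.adjoin_le_iff]
      intro x hx
      by_cases hx0 : x = 0
      · rw [hx0]; exact Subalgebra.zero_mem _
      · obtain ⟨i, rfl⟩ := hs x (Finset.mem_erase.2 ⟨hx0, Finset.mem_union_left _ hx⟩)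
        exact Algebra.subset_adjoin ⟨i, hx, rfl⟩
    · rw [Algebra.adjoin_le_iff]
      rintro _ ⟨i, hi, rfl⟩
      rw [← hG]
      exact Algebra.subset_adjoin hi
  obtain ⟨T1, I1, j1, j2, M1, Γ1, hΓ1, -⟩ := all_restr k E T I (Fin s.card) M h Γ hΓ
    {i | h i ∈ G} R hR hfr
  obtain ⟨T2, I2, l1, l2, -, M2, Γ2, hE2, hC2⟩ := princ_all h M1 Γ1
  refine ⟨T2, I2, l1, l2, M2, fun t a ha b hb ha0 hb0 => ?_⟩
  obtain ⟨i, rfl⟩ := hs a (Finset.mem_erase.2 ⟨ha0, Finset.mem_union_right _ (hF.mem_toFinset.2 ha)⟩)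
  obtain ⟨j, rfl⟩ := hs b (Finset.mem_erase.2 ⟨hb0, Finset.mem_union_right _ (hF.mem_toFinset.2 hb)⟩)
  rcases hC2 i j t with h1 | h1
  · exact Or.inl (div_mem_of_le M2 t h Γ2 (hE2.fn hΓ1) h1)
  · exact Or.inr (div_mem_of_le M2 t h Γ2 (hE2.fn hΓ1) h1)

end model

section cs

variable {σ : Type} {k E : Type u} [Field k] [Field E] [Algebra k E]

/-- The polynomials with coefficients in `D` which belong to the subalgebra `AE`. -/
noncomputable def cs (AE : Subalgebra E (MvPolynomial σ E)) (D : Subalgebra k E) :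
    Subalgebra k (MvPolynomial σ E) :=
  AE.restrictScalars k ⊓ (MvPolynomial.mapAlgHom D.val).range

lemma mem_cs {AE : Subalgebra E (MvPolynomial σ E)} {D : Subalgebra k E}
    {f : MvPolynomial σ E} : f ∈ cs AE D ↔ f ∈ AE ∧ ∀ s, coeff s f ∈ D := by
  constructor
  · rintro ⟨h1, g, rfl⟩
    refine ⟨h1, fun s => ?_⟩
    have : (MvPolynomial.mapAlgHom D.val : MvPolynomial σ D →ₐ[k] MvPolynomial σ E) g =
      MvPolynomial.map D.val.toRingHom g := rfl
    change coeff s ((MvPolynomial.mapAlgHom D.val : MvPolynomial σ D →ₐ[k] MvPolynomial σ E) g) ∈ D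
    rw [this, coeff_map]
    exact (coeff s g).2
  · rintro ⟨h1, h2⟩
    refine ⟨h1, ?_⟩
    have h3 : f ∈ Set.range (MvPolynomial.map (σ := σ) (D.val.toRingHom)) := by
      rw [MvPolynomial.mem_range_map_iff_coeffs_subset]
      intro x hx
      obtain ⟨s, hs, rfl⟩ := MvPolynomial.mem_coeffs_iff.1 hx
      exact ⟨⟨_, h2 s⟩, rfl⟩
    obtain ⟨g, hg⟩ := h3
    exact ⟨g, hg⟩

lemma cs_mono {AE : Subalgebra E (MvPolynomial σ E)} {D D' : Subalgebra k E} (h : D ≤ D') :
    cs AE D ≤ cs AE D' := by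
  intro f hf
  rw [mem_cs] at hf ⊢
  exact ⟨hf.1, fun s => h (hf.2 s)⟩

lemma C_mem_cs {AE : Subalgebra E (MvPolynomial σ E)} {D : Subalgebra k E} {a : E} (ha : a ∈ D) :
    C a ∈ cs AE D := by
  rw [mem_cs]
  refine ⟨AE.algebraMap_mem a, fun s => ?_⟩
  classical
  rw [coeff_C]
  split
  · exact ha
  · exact D.zero_mem

lemma C_mul_mem_cs {AE : Subalgebra E (MvPolynomial σ E)} {D : Subalgebra k E} {a : E}
    {f : MvPolynomial σ E} (hf : f ∈ AE) (h : ∀ s, a * coeff s f ∈ D) : C a * f ∈ cs AE D := by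
  rw [mem_cs]
  refine ⟨AE.mul_mem (AE.algebraMap_mem a) hf, fun s => ?_⟩
  rw [coeff_C_mul]
  exact h s

lemma mem_valuation {L : Type u} [Field L] (V : ValuationSubring L) (x a : L) (ha : a ∈ V)
    (P : Polynomial V) (hP : P.Monic) (hPd : P.natDegree ≠ 0)
    (h : Polynomial.eval₂ (algebraMap V L) x P = a) : x ∈ V := by
  have h1 : IsIntegral V x := by
    refine ⟨P - Polynomial.C ⟨a, ha⟩, ?_, ?_⟩
    · refine hP.sub_of_left ?_
      refine Polynomial.degree_C_le.trans_lt ?_
      rw [← Polynomial.natDegree_pos_iff_degree_pos]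
      exact Nat.pos_of_ne_zero hPd
    · rw [Polynomial.eval₂_sub, h, Polynomial.eval₂_C]
      exact sub_self a
  obtain ⟨y, rfl⟩ := IsIntegrallyClosed.isIntegral_iff.1 h1
  exact y.2

/-- **Resolution of families of subalgebras of polynomial rings.** -/
theorem general [Finite σ] {P : Set E} (hE : HasLMs k P) (R : Subalgebra k E) (hfg : GenBy R P)
    (hfr : ∀ x : E, ∃ a ∈ R, ∃ b ∈ R, b ≠ 0 ∧ x = a * b⁻¹) (F : Set E) (hF : F.Finite)
    (hFP : ∀ x ∈ F, x ≠ 0 → x ∈ P)
    (AE : Subalgebra E (MvPolynomial σ E))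
    (hint : ∀ j, ∃ Q : Polynomial R, Q.Monic ∧ Q.natDegree ≠ 0 ∧
      Polynomial.aeval (X j : MvPolynomial σ E) (Q.map R.val.toRingHom) ∈ AE)
    (hsm : ∀ D : Subalgebra k E, R ≤ D → Algebra.Smooth k D →
      (∀ a ∈ F, ∀ b ∈ F, a ≠ 0 → b ≠ 0 → b / a ∈ D ∨ a / b ∈ D) → Algebra.Smooth k (cs AE D))
    {A : Type u} [CommRing A] [IsDomain A] [Algebra k A] (g0 : A →ₐ[k] MvPolynomial σ E)
    (hg0 : Function.Injective g0) (hgr : g0.range = cs AE R) :
    Pool.Agent.H920R2.HasResolution (X := Spec (CommRingCat.of A))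
      (Spec.map (CommRingCat.ofHom (algebraMap k A))) := by
  classical
  obtain ⟨T, I, i1, i2, M, hM⟩ := exists_model hE R hfg hfr F hF hFP
  let L := FractionRing (MvPolynomial σ E)
  let j : MvPolynomial σ E →ₐ[k] L := IsScalarTower.toAlgHom k _ _
  have hj : Function.Injective j := IsFractionRing.injective (MvPolynomial σ E) L
  let Ct : T → Subalgebra k L := fun t => (cs AE (M.A t)).map j
  let Ht : T → L := fun t => j (C (M.H t))
  have hR : ∀ x, x ∈ cs AE R → ∃ a, g0 a = x := by
    intro x hx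
    rw [← hgr] at hx
    exact hx
  have hR' : ∀ a, g0 a ∈ cs AE R := by
    intro a
    rw [← hgr]
    exact ⟨a, rfl⟩
  have hdiv : ∀ t t', Ht t' / Ht t = j (C (M.H t' / M.H t)) := by
    intro t t'
    have h0 : Ht t ≠ 0 := by
      intro h
      have h1 := hj (h.trans (map_zero j).symm)
      exact M.H0 t ((MvPolynomial.C_injective _ _) (h1.trans (map_zero C).symm))
    rw [div_eq_iff h0]
    change j _ = j _ * j _
    rw [← map_mul, ← C_mul, div_mul_cancel₀ _ (M.H0 t)]
  refine hasResolution_of_atl (T := T) (j.comp g0) (hj.comp hg0) (C := Ct) (H := Ht) ⟨?_, ?_, ?_,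
    ?_, ?_, ?_, ?_, ?_⟩
  · intro t
    have h1 := hsm (M.A t) (M.base t) (M.sm t) (hM t)
    exact Algebra.Smooth.of_equiv ((cs AE (M.A t)).equivMapOfInjective j hj)
  · intro t a
    exact ⟨g0 a, cs_mono (M.base t) (hR' a), rfl⟩
  · intro t h
    have h1 := hj (h.trans (map_zero j).symm)
    exact M.H0 t ((MvPolynomial.C_injective _ _) (h1.trans (map_zero C).symm))
  · intro t
    obtain ⟨a, ha⟩ := hR _ (C_mem_cs (AE := AE) (M.HR t))
    exact ⟨a, by rw [AlgHom.comp_apply, ha]⟩
  · intro t t'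
    rw [hdiv]
    exact ⟨_, C_mem_cs (M.rt t t'), rfl⟩
  · rintro t t' _ ⟨f, hf, rfl⟩
    have hf' := mem_cs.1 hf
    choose n hn using fun s => M.gl t t' _ (hf'.2 s)
    refine ⟨f.support.sup n, ?_⟩
    rw [hdiv, ← map_pow, ← C_pow]
    change j _ * j f ∈ _
    rw [← map_mul]
    refine ⟨_, C_mul_mem_cs hf'.1 fun s => ?_, rfl⟩
    by_cases hs : s ∈ f.support
    · exact M.gl_mono (Finset.le_sup hs) (hn s)
    · rw [notMem_support_iff.1 hs, mul_zero]
      exact (M.A t).zero_mem
  · rintro t _ ⟨f, hf, rfl⟩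
    have hf' := mem_cs.1 hf
    choose n hn using fun s => M.dn t _ (hf'.2 s)
    have h1 : C (M.H t ^ (f.support.sup n)) * f ∈ cs AE R := by
      refine C_mul_mem_cs hf'.1 fun s => ?_
      by_cases hs : s ∈ f.support
      · exact M.dn_mono (Finset.le_sup hs) (hn s)
      · rw [notMem_support_iff.1 hs, mul_zero]
        exact R.zero_mem
    obtain ⟨a, ha⟩ := hR _ h1
    refine ⟨f.support.sup n, a, ?_⟩
    rw [AlgHom.comp_apply, ha, map_mul, C_pow, map_pow]
    rfl
  · intro V hV
    have hVR : ∀ x ∈ cs AE R, j x ∈ V := by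
      intro x hx
      obtain ⟨a, rfl⟩ := hR x hx
      exact hV a
    let V' : ValuationSubring E := V.comap (algebraMap E L)
    have hjC : ∀ a : E, j (C a) = algebraMap E L a := by
      intro a
      change algebraMap (MvPolynomial σ E) L (C a) = _
      rw [IsScalarTower.algebraMap_apply E (MvPolynomial σ E) L]
      rfl
    have hRV : ∀ a ∈ R, a ∈ V' := by
      intro a ha
      change algebraMap E L a ∈ V
      rw [← hjC]
      exact hVR _ (C_mem_cs ha)
    obtain ⟨t, ht⟩ := M.cv V' hRV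
    refine ⟨t, ?_⟩
    have hX : ∀ i, j (X i) ∈ V := by
      intro i
      obtain ⟨Q, hQ, hQd, hQA⟩ := hint i
      let ψ : R →+* V := (algebraMap E L).comp R.val.toRingHom |>.codRestrict V.toSubring
        (fun a => hRV a.1 a.2)
      refine mem_valuation V (j (X i)) (j (Polynomial.aeval (X i : MvPolynomial σ E)
        (Q.map R.val.toRingHom))) ?_ (Q.map ψ) (hQ.map ψ) ?_ ?_
      · apply hVR
        rw [mem_cs]
        refine ⟨hQA, fun s => ?_⟩
        have h1 : Polynomial.aeval (X i : MvPolynomial σ E) (Q.map R.val.toRingHom) =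
            MvPolynomial.map R.val.toRingHom (Polynomial.aeval (X i : MvPolynomial σ R) Q) := by
          rw [Polynomial.aeval_def, Polynomial.eval₂_map, Polynomial.aeval_def,
            Polynomial.hom_eval₂, map_X]
          congr 1
          ext a
          simp
        rw [h1, coeff_map]
        exact Subtype.property _
      · rw [hQ.natDegree_map]
        exact hQd
      · rw [Polynomial.eval₂_map, Polynomial.aeval_def, Polynomial.eval₂_map]
        change _ = (j : MvPolynomial σ E →+* L) _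
        rw [Polynomial.hom_eval₂]
        congr 1
    rintro _ ⟨f, hf, rfl⟩
    obtain ⟨-, g, rfl⟩ := hf
    change j (MvPolynomial.map (M.A t).val.toRingHom g) ∈ V
    induction g using MvPolynomial.induction_on with
    | C a =>
      rw [map_C, hjC]
      exact ht a.1 a.2
    | add p q hp hq =>
      rw [map_add, map_add]
      exact V.add_mem _ _ hp hq
    | mul_X p i hp =>
      rw [map_mul, map_mul, map_X]
      exact V.mul_mem _ _ hp (hX i)

lemma isIntegral_of {k B R : Type u} [Field k] [CommRing B] [Algebra k B] [CommRing R]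
    (A' : Subalgebra k B) (x : B) (Q : Polynomial R) (ψ : R →+* B) (hψ : ∀ a, ψ a ∈ A')
    (hQ : Q.Monic) (hQd : Q.natDegree ≠ 0) (h : Polynomial.eval₂ ψ x Q ∈ A') :
    IsIntegral A' x := by
  rcases subsingleton_or_nontrivial B with hB | hB
  · have : x = algebraMap A' B 0 := Subsingleton.elim _ _
    rw [this]
    exact isIntegral_algebraMap
  let ψ' : R →+* A' :=
    { toFun := fun a => ⟨ψ a, hψ a⟩
      map_one' := Subtype.ext (map_one ψ)
      map_zero' := Subtype.ext (map_zero ψ)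
      map_mul' := fun a b => Subtype.ext (map_mul ψ a b)
      map_add' := fun a b => Subtype.ext (map_add ψ a b) }
  refine ⟨Q.map ψ' - Polynomial.C (⟨_, h⟩ : A'), ?_, ?_⟩
  · refine (hQ.map ψ').sub_of_left ?_
    refine Polynomial.degree_C_le.trans_lt ?_
    rw [← Polynomial.natDegree_pos_iff_degree_pos, hQ.natDegree_map]
    exact Nat.pos_of_ne_zero hQd
  · rw [Polynomial.eval₂_sub, Polynomial.eval₂_C, Polynomial.eval₂_map, sub_eq_zero]
    rfl

lemma finiteType_of_integral {k B : Type u} [Field k] [CommRing B] [Algebra k B]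
    [Algebra.FiniteType k B] (A' : Subalgebra k B) (h : ∀ x : B, IsIntegral A' x) :
    Algebra.FiniteType k A' := by
  have hint' : Algebra.IsIntegral A' B := ⟨h⟩
  have hft' : Algebra.FiniteType A' B :=
    Algebra.FiniteType.of_restrictScalars_finiteType k A' B
  have hfin : Module.Finite A' B := Algebra.IsIntegral.finite
  have h2 : (⊤ : Subalgebra k A').FG := fg_of_fg_of_fg k A' B
    Algebra.FiniteType.out hfin.fg_top Subtype.val_injective
  exact ⟨h2⟩

/-- The subalgebras are finitely generated. -/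
theorem general_finiteType [Finite σ] (R : Subalgebra k E) (hfg : R.FG)
    (AE : Subalgebra E (MvPolynomial σ E))
    (hint : ∀ j, ∃ Q : Polynomial R, Q.Monic ∧ Q.natDegree ≠ 0 ∧
      Polynomial.aeval (X j : MvPolynomial σ E) (Q.map R.val.toRingHom) ∈ AE)
    {A : Type u} [CommRing A] [Algebra k A] (g0 : A →ₐ[k] MvPolynomial σ E)
    (hg0 : Function.Injective g0) (hgr : g0.range = cs AE R) : Algebra.FiniteType k A := by
  classical
  let mp : MvPolynomial σ R →ₐ[k] MvPolynomial σ E := MvPolynomial.mapAlgHom R.val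
  have hmp : Function.Injective mp := MvPolynomial.map_injective _ Subtype.val_injective
  let A' : Subalgebra k (MvPolynomial σ R) := (AE.restrictScalars k).comap mp
  have hA' : A'.map mp = cs AE R := by
    ext f
    constructor
    · rintro ⟨g, hg, rfl⟩
      exact ⟨hg, ⟨g, rfl⟩⟩
    · rintro ⟨h1, g, rfl⟩
      exact ⟨g, h1, rfl⟩
  have hftR : Algebra.FiniteType k R := R.fg_iff_finiteType.1 hfg
  have hft : Algebra.FiniteType k (MvPolynomial σ R) := Algebra.FiniteType.trans hftR inferInstance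
  have hC : ∀ a : R, (C a : MvPolynomial σ R) ∈ A' := by
    intro a
    change MvPolynomial.map R.val.toRingHom (C a) ∈ AE
    rw [map_C]
    exact AE.algebraMap_mem _
  have hi : ∀ f : MvPolynomial σ R, IsIntegral A' f := by
    intro f
    induction f using MvPolynomial.induction_on with
    | C a => exact isIntegral_algebraMap (x := (⟨C a, hC a⟩ : A'))
    | add p q hp hq => exact hp.add hq
    | mul_X p i hp =>
      refine hp.mul ?_
      obtain ⟨Q, hQ, hQd, hQA⟩ := hint i
      refine isIntegral_of A' (X i) Q C hC hQ hQd ?_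
      change MvPolynomial.map R.val.toRingHom _ ∈ AE
      rw [Polynomial.hom_eval₂, map_X]
      rw [Polynomial.aeval_def, Polynomial.eval₂_map] at hQA
      have e : (MvPolynomial.map (σ := σ) R.val.toRingHom).comp (C : R →+* MvPolynomial σ R) =
          (algebraMap E (MvPolynomial σ E)).comp R.val.toRingHom := by
        apply RingHom.ext
        intro a
        exact map_C _ _
      rw [e]
      exact hQA
  have h3 : Algebra.FiniteType k A' := finiteType_of_integral A' hi
  let e : A' ≃ₐ[k] A := ((A'.equivMapOfInjective mp hmp).trans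
    (Subalgebra.equivOfEq _ _ (hA'.trans hgr.symm))).trans (AlgEquiv.ofInjective g0 hg0).symm
  exact Algebra.FiniteType.equiv h3 e

end cs

end Pool.Agent.Q86.TO
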