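import Pool.Agent.Q86.TO4

/-!
# Quotients of families of affine spaces by translation group schemes
-/

set_option autoImplicit false
set_option linter.unusedSectionVars false

universe u

open MvPolynomial Pool.Agent.W558 Pool.Agent.W418.LCI AlgebraicGeometry

namespace Pool.Agent.Q86.TO

section special

variable {σ : Type} {D : Type u} [CommRing D] [IsDomain D] {p : ℕ} [hp : Fact p.Prime] [CharP D p]

lemma eval_tr (v : σ → D) (a : D) (f : MvPolynomial σ D) :
    (tr v f).eval (C a) = aeval (fun j => X j + C (a * v j)) f := by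
  have : (Polynomial.evalRingHom (C a : MvPolynomial σ D)).comp (tr v).toRingHom =
      (aeval (fun j => X j + C (a * v j)) : MvPolynomial σ D →ₐ[D] MvPolynomial σ D).toRingHom := by
    apply MvPolynomial.ringHom_ext
    · intro b
      change (tr v (C b)).eval (C a) = aeval _ (C b)
      rw [tr_C, Polynomial.eval_C]
      exact (aeval_C _ _).symm
    · intro j
      change (tr v (X j)).eval (C a) = aeval _ (X j)
      rw [tr_X, aeval_X, Polynomial.eval_add, Polynomial.eval_mul, Polynomial.eval_C,
        Polynomial.eval_C, Polynomial.eval_X, C_mul]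
  exact congrArg (fun φ : MvPolynomial σ D →+* _ => φ f) this

/-- Translations by vectors. -/
theorem mem_inv_one (v : σ → D) (f : MvPolynomial σ D) :
    f ∈ inv p 1 v ↔ aeval (fun j => X j + C (v j)) f = f := by
  have hp1 : 1 < p := hp.out.one_lt
  rw [mem_inv]
  constructor
  · rintro ⟨m, hm⟩
    have h1 := congrArg (Polynomial.eval (C 1)) hm
    rw [Polynomial.eval_sub, eval_tr, Polynomial.eval_mul, Polynomial.eval_C] at h1
    unfold mo1 at h1
    simp only [one_mul, map_one, Polynomial.eval_sub, Polynomial.eval_pow, Polynomial.eval_X,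
      Polynomial.eval_mul, Polynomial.eval_one, one_pow, sub_self, zero_mul] at h1
    exact sub_eq_zero.1 h1
  · intro h
    have hn : ∀ n : ℕ, aeval (fun j => X j + C ((n : D) * v j)) f = f := by
      intro n
      induction n with
      | zero => simp
      | succ n ih =>
        have e : (aeval (fun j => X j + C (((n + 1 : ℕ) : D) * v j)) :
            MvPolynomial σ D →ₐ[D] MvPolynomial σ D) =
            (aeval (fun j => X j + C (v j))).comp (aeval (fun j => X j + C ((n : D) * v j))) := by
          apply MvPolynomial.algHom_ext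
          intro j
          rw [AlgHom.comp_apply, aeval_X, aeval_X, map_add, aeval_X]
          have : (aeval (fun j => X j + C (v j)) : MvPolynomial σ D →ₐ[D] MvPolynomial σ D)
              (C ((n : D) * v j)) = C ((n : D) * v j) := aeval_C _ _
          rw [this, Nat.cast_succ, add_mul, one_mul, C_add]
          ring
        rw [e, AlgHom.comp_apply, ih, h]
    set G := tr v f - Polynomial.C f with hG
    have hM : (mo1 p (C (1 : D) : MvPolynomial σ D)).Monic := mo1_monic _
    have hMn : ∀ n : ℕ, (mo1 p (C (1 : D) : MvPolynomial σ D)).eval (n : MvPolynomial σ D) = 0 := by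
      intro n
      unfold mo1
      simp only [map_one, one_mul, Polynomial.eval_sub, Polynomial.eval_pow, Polynomial.eval_X]
      have : (n : MvPolynomial σ D) ^ p = n := by
        have := map_natCast (frobenius (MvPolynomial σ D) p) n
        rwa [frobenius_def] at this
      rw [this, sub_self]
    have hGn : ∀ n : ℕ, G.eval (n : MvPolynomial σ D) = 0 := by
      intro n
      have e : (n : MvPolynomial σ D) = C (n : D) := by rw [map_natCast]
      rw [hG, e, Polynomial.eval_sub, eval_tr, Polynomial.eval_C, hn, sub_self]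
    have h0 : G %ₘ mo1 p (C (1 : D)) = 0 := by
      refine Polynomial.eq_zero_of_natDegree_lt_card_of_eval_eq_zero _
        (f := fun i : Fin p => ((i : ℕ) : MvPolynomial σ D)) ?_ ?_ ?_
      · intro i j hij
        exact Fin.ext (CharP.natCast_injOn_Iio (MvPolynomial σ D) p i.2 j.2 hij)
      · intro i
        have e := Polynomial.modByMonic_add_div G (mo1 p (C (1 : D)))
        have e2 := congrArg (Polynomial.eval ((i : ℕ) : MvPolynomial σ D)) e
        rw [Polynomial.eval_add, Polynomial.eval_mul, hMn, zero_mul, add_zero, hGn] at e2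
        exact e2
      · rw [Fintype.card_fin]
        have := Polynomial.natDegree_modByMonic_lt G hM (by
          intro h
          have := mo1_natDegree (p := p) (C (1 : D) : MvPolynomial σ D)
          rw [h, Polynomial.natDegree_one] at this
          omega)
        rwa [mo1_natDegree] at this
    rw [← Polynomial.modByMonic_eq_zero_iff_dvd hM]
    exact h0

lemma derivative_tr (v : σ → D) (f : MvPolynomial σ D) :
    Polynomial.derivative (tr v f) = tr v (mkDerivation D (fun j => (C (v j) :
      MvPolynomial σ D)) f) := by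
  induction f using MvPolynomial.induction_on with
  | C a =>
    rw [tr_C, Polynomial.derivative_C]
    have : mkDerivation D (fun j => (C (v j) : MvPolynomial σ D)) (C a) = 0 :=
      Derivation.map_algebraMap _ a
    rw [this, map_zero]
  | add p q hp hq => rw [map_add, map_add, map_add, map_add, hp, hq]
  | mul_X f j hf =>
    rw [map_mul, Polynomial.derivative_mul, hf, Derivation.leibniz, map_add, smul_eq_mul,
      smul_eq_mul, map_mul, map_mul, mkDerivation_X, tr_C, tr_X]
    simp only [Polynomial.derivative_add, Polynomial.derivative_C, Polynomial.derivative_mul,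
      Polynomial.derivative_X, one_mul, zero_add, mul_zero, add_zero]
    ring

/-- Constants of vector fields. -/
theorem mem_inv_zero_iff (v : σ → D) (f : MvPolynomial σ D) :
    f ∈ inv p 0 v ↔ mkDerivation D (fun j => (C (v j) : MvPolynomial σ D)) f = 0 := by
  have hp1 : 1 < p := hp.out.one_lt
  have hmo : (mo1 p (C (0 : D)) : Polynomial (MvPolynomial σ D)) = Polynomial.X ^ p := by
    unfold mo1; simp
  have hev : ∀ g : MvPolynomial σ D, (tr v g).eval 0 = g := by
    intro g
    have := eval_tr v 0 g
    rw [map_zero] at this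
    rw [this]
    simp
  rw [mem_inv, hmo]
  constructor
  · rintro ⟨m, hm⟩
    have h1 := congrArg Polynomial.derivative hm
    rw [Polynomial.derivative_sub, Polynomial.derivative_C, sub_zero, derivative_tr,
      Polynomial.derivative_mul, Polynomial.derivative_X_pow, CharP.cast_eq_zero, map_zero,
      zero_mul, zero_mul, zero_add] at h1
    have h2 := congrArg (Polynomial.eval 0) h1
    rw [hev, Polynomial.eval_mul, Polynomial.eval_pow, Polynomial.eval_X,
      zero_pow hp.out.ne_zero, zero_mul] at h2
    exact h2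
  · intro h
    rw [Polynomial.X_pow_dvd_iff]
    intro d hd
    rcases d with _ | d
    · rw [Polynomial.coeff_zero_eq_eval_zero, Polynomial.eval_sub, hev, Polynomial.eval_C,
        sub_self]
    · rw [Polynomial.coeff_sub, Polynomial.coeff_C_ne_zero (Nat.succ_ne_zero d), sub_zero]
      have h1 := derivative_tr v f
      rw [h, map_zero] at h1
      have h2 := congrArg (fun F => Polynomial.coeff F d) h1
      simp only [Polynomial.coeff_derivative, Polynomial.coeff_zero] at h2
      refine (mul_eq_zero.1 h2).resolve_right ?_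
      intro h0
      have h3 : ((d + 1 : ℕ) : MvPolynomial σ D) = 0 := by
        rw [Nat.cast_succ]; exact h0
      have h4 := (CharP.cast_eq_zero_iff (MvPolynomial σ D) p (d + 1)).1 h3
      exact absurd (Nat.le_of_dvd (Nat.succ_pos d) h4) (by omega)

end special

section final

variable {σ : Type} {k : Type u} [Field k]

lemma smooth_chart [Finite σ] {E : Type u} [Field E] [Algebra k E] (D : Subalgebra k E)
    [Algebra.Smooth k D] (AE : Subalgebra E (MvPolynomial σ E))
    (φ : MvPolynomial σ D →ₐ[D] MvPolynomial σ D) (hφ : Function.Injective φ)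
    (h : ∀ g : MvPolynomial σ D, MvPolynomial.map D.val.toRingHom g ∈ AE ↔ ∃ g', φ g' = g) :
    Algebra.Smooth k (cs AE D) := by
  have hmp : Function.Injective (MvPolynomial.mapAlgHom D.val :
      MvPolynomial σ D →ₐ[k] MvPolynomial σ E) :=
    MvPolynomial.map_injective _ Subtype.val_injective
  have hψ : Function.Injective ((MvPolynomial.mapAlgHom D.val :
      MvPolynomial σ D →ₐ[k] MvPolynomial σ E).comp (φ.restrictScalars k)) := hmp.comp hφ
  have hr : ((MvPolynomial.mapAlgHom D.val :
      MvPolynomial σ D →ₐ[k] MvPolynomial σ E).comp (φ.restrictScalars k)).range = cs AE D := by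
    ext f
    constructor
    · rintro ⟨g, rfl⟩
      exact ⟨(h (φ g)).2 ⟨g, rfl⟩, ⟨φ g, rfl⟩⟩
    · rintro ⟨h1, g, rfl⟩
      obtain ⟨g', rfl⟩ := (h g).1 h1
      exact ⟨g', rfl⟩
  have hDm : Algebra.Smooth D (MvPolynomial σ D) := ⟨inferInstance, inferInstance⟩
  have hkm : Algebra.Smooth k (MvPolynomial σ D) := Algebra.Smooth.comp k D (MvPolynomial σ D)
  exact Algebra.Smooth.of_equiv ((AlgEquiv.ofInjective _ hψ).trans (Subalgebra.equivOfEq _ _ hr))

lemma range_restr {R E : Type u} [CommRing R] [Algebra k R] [Field E] [Algebra k E]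
    (ιk : R →ₐ[k] E) (AE : Subalgebra E (MvPolynomial σ E)) (A : Subalgebra R (MvPolynomial σ R))
    (h : ∀ f, MvPolynomial.map (ιk : R →+* E) f ∈ AE ↔ f ∈ A) :
    ((MvPolynomial.mapAlgHom ιk : MvPolynomial σ R →ₐ[k] MvPolynomial σ E).comp
      (A.val.restrictScalars k)).range = cs AE ιk.range := by
  ext f
  rw [mem_cs]
  constructor
  · rintro ⟨a, rfl⟩
    refine ⟨(h a.1).2 a.2, fun s => ⟨coeff s a.1, ?_⟩⟩
    exact (coeff_map _ _ _).symm
  · rintro ⟨h1, h2⟩
    have h3 : f ∈ Set.range (MvPolynomial.map (σ := σ) (ιk : R →+* E)) := by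
      rw [MvPolynomial.mem_range_map_iff_coeffs_subset]
      intro x hx
      obtain ⟨s, hs, rfl⟩ := MvPolynomial.mem_coeffs_iff.1 hx
      exact h2 s
    obtain ⟨g, rfl⟩ := h3
    exact ⟨⟨g, (h g).1 h1⟩, rfl⟩

variable [DecidableEq σ] [Finite σ]

lemma exists_intE {p : ℕ} [hp : Fact p.Prime] {R E : Type u} [CommRing R] [IsDomain R]
    [Algebra k R] [Field E] [Algebra k E] [CharP R p] (ιk : R →ₐ[k] E) (l : List (R × (σ → R)))
    (AE : Subalgebra E (MvPolynomial σ E)) (A : Subalgebra R (MvPolynomial σ R))
    (h : ∀ f, MvPolynomial.map (ιk : R →+* E) f ∈ AE ↔ f ∈ A)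
    (hA : ∀ f, f ∈ A ↔ ∀ it ∈ l, f ∈ inv p it.1 it.2) (j : σ) :
    ∃ Q : Polynomial ιk.range, Q.Monic ∧ Q.natDegree ≠ 0 ∧
      Polynomial.aeval (X j : MvPolynomial σ E) (Q.map ιk.range.val.toRingHom) ∈ AE := by
  obtain ⟨Q, hQ, hQd, hQA⟩ := exists_int' (p := p) (κ := Fin l.length) (fun i => (l.get i).1)
    (fun i => (l.get i).2) j
  have hE : Nontrivial ιk.range := inferInstance
  refine ⟨Q.map ιk.rangeRestrict.toRingHom, hQ.map _, ?_, ?_⟩
  · rw [hQ.natDegree_map]; exact hQd
  · have e : Polynomial.aeval (X j : MvPolynomial σ E)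
        ((Q.map ιk.rangeRestrict.toRingHom).map ιk.range.val.toRingHom) =
        MvPolynomial.map (ιk : R →+* E) (Polynomial.aeval (X j : MvPolynomial σ R) Q) := by
      rw [Polynomial.aeval_def, Polynomial.eval₂_map, Polynomial.eval₂_map, Polynomial.aeval_def,
        Polynomial.hom_eval₂, map_X]
      congr 1
      apply RingHom.ext
      intro a
      exact (map_C (ιk : R →+* E) a).symm
    rw [e, h, hA]
    intro it hit
    obtain ⟨i, rfl⟩ := List.get_of_mem hit
    exact hQA i

lemma chart_chain {p : ℕ} [hp : Fact p.Prime] {R E : Type u} [CommRing R]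
    [Field E] [Algebra k E] [CharP E p] (ι : R →+* E) (l : List (R × (σ → R)))
    (AE : Subalgebra E (MvPolynomial σ E))
    (hAE : ∀ f, f ∈ AE ↔ ∀ it ∈ l, f ∈ inv p (ι it.1) (fun j => ι (it.2 j)))
    (D : Subalgebra k E) (hRD : ∀ a, ι a ∈ D) [hD : Algebra.Smooth k D]
    (hcmp : ∀ a ∈ funs p l.length (l.map (mpi ι)), ∀ b ∈ funs p l.length (l.map (mpi ι)),
        a ≠ 0 → b ≠ 0 → b / a ∈ D ∨ a / b ∈ D) : Algebra.Smooth k (cs AE D) := by
  have hval : Function.Injective D.val.toRingHom := Subtype.val_injective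
  have hcD : CharP D p := (RingHom.charP_iff D.val.toRingHom hval p).2 inferInstance
  obtain ⟨ιD, hιD⟩ : ∃ ιD : R →+* D, ∀ a, D.val.toRingHom (ιD a) = ι a :=
    ⟨{ toFun := fun a => ⟨ι a, hRD a⟩
       map_one' := Subtype.ext (map_one ι)
       map_zero' := Subtype.ext (map_zero ι)
       map_mul' := fun a b => Subtype.ext (map_mul ι a b)
       map_add' := fun a b => Subtype.ext (map_add ι a b) }, fun a => rfl⟩
  obtain ⟨l', hl'1, hl'2, hl'3⟩ : ∃ l' : List (D × (σ → D)), l'.length ≤ l.length ∧
      l'.map (mpi D.val.toRingHom) = l.map (mpi ι) ∧ ∀ P : D × (σ → D) → Prop,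
        (∀ it ∈ l', P it) ↔ ∀ it ∈ l, P (ιD it.1, fun j => ιD (it.2 j)) := by
    refine ⟨l.map fun it => (ιD it.1, fun j => ιD (it.2 j)), by simp, ?_,
      fun P => List.forall_mem_map⟩
    rw [List.map_map]
    apply List.map_congr_left
    intro it _
    change (D.val.toRingHom (ιD it.1), fun j => D.val.toRingHom (ιD (it.2 j))) =
      (ι it.1, fun j => ι (it.2 j))
    simp only [hιD]
  have hch : Chain p l' := by
    refine chain_of_cmp p D.val.toRingHom hval l.length l' hl'1 ?_
    rw [hl'2]
    intro a ha b hb ha0 hb0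
    rcases hcmp a ha b hb ha0 hb0 with h | h
    · exact Or.inl ⟨⟨_, h⟩, rfl⟩
    · exact Or.inr ⟨⟨_, h⟩, rfl⟩
  obtain ⟨φ, hφ, hφr⟩ := hch.exists_hom
  refine smooth_chart D AE φ hφ fun g => ?_
  rw [← hφr, hAE, hl'3]
  refine forall₂_congr fun it _ => ?_
  have h1 := map_mem_inv (p := p) D.val.toRingHom hval (ιD it.1) (fun j => ιD (it.2 j)) g
  simp only [hιD] at h1
  exact h1

/-- **Main theorem.** -/
theorem main {p : ℕ} [hp : Fact p.Prime] {R : Type u} [CharP k p]
    [CommRing R] [IsDomain R] [Algebra k R] {P : Set (FractionRing R)} (hE : HasLMs k P)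
    (hR : GenBy (IsScalarTower.toAlgHom k R (FractionRing R)).range P)
    (l : List (R × (σ → R)))
    (hl : ∀ x ∈ funs p l.length (l.map (mpi (algebraMap R (FractionRing R)))), x ≠ 0 → x ∈ P)
    (A : Subalgebra R (MvPolynomial σ R))
    (hA : ∀ f, f ∈ A ↔ ∀ it ∈ l, f ∈ inv p it.1 it.2) :
    IsResolvableVariety (X := Spec (CommRingCat.of A))
      (Spec.map (CommRingCat.ofHom (algebraMap k A))) := by
  classical
  have hcE : CharP (FractionRing R) p :=
    charP_of_injective_algebraMap (algebraMap k (FractionRing R)).injective p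
  have hcR : CharP R p := charP_of_injective_algebraMap (algebraMap k R).injective p
  obtain ⟨ιk, hιk, hιk2, hιk3⟩ : ∃ ιk : R →ₐ[k] FractionRing R,
      (∀ a, ιk a = algebraMap R (FractionRing R) a) ∧
      (ιk : R →+* FractionRing R) = algebraMap R (FractionRing R) ∧
      ιk = IsScalarTower.toAlgHom k R (FractionRing R) :=
    ⟨IsScalarTower.toAlgHom k R (FractionRing R), fun a => rfl, rfl, rfl⟩
  rw [← hιk3] at hR
  rw [← hιk2] at hl
  have hι : Function.Injective (ιk : R →+* FractionRing R) := by
    intro a b hab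
    have : ιk a = ιk b := hab
    rw [hιk, hιk] at this
    exact IsFractionRing.injective R (FractionRing R) this
  have hfg : ιk.range.FG := hR.fg
  have hfr : ∀ x : FractionRing R, ∃ a ∈ ιk.range, ∃ b ∈ ιk.range, b ≠ 0 ∧ x = a * b⁻¹ := by
    intro x
    obtain ⟨a, b, hb, rfl⟩ := IsFractionRing.div_surjective (A := R) x
    refine ⟨_, ⟨a, hιk a⟩, _, ⟨b, hιk b⟩, ?_, div_eq_mul_inv _ _⟩
    exact (FaithfulSMul.algebraMap_eq_zero_iff R (FractionRing R)).not.2
      (nonZeroDivisors.ne_zero hb)
  obtain ⟨AE, hAE⟩ : ∃ AE : Subalgebra (FractionRing R) (MvPolynomial σ (FractionRing R)),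
      ∀ f, f ∈ AE ↔ ∀ it ∈ l, f ∈ inv p ((ιk : R →+* FractionRing R) it.1)
        (fun j => (ιk : R →+* FractionRing R) (it.2 j)) := by
    refine ⟨⨅ it : {it // it ∈ l}, inv p ((ιk : R →+* FractionRing R) it.1.1)
      (fun j => (ιk : R →+* FractionRing R) (it.1.2 j)), fun f => ?_⟩
    rw [Algebra.mem_iInf]
    exact ⟨fun h it hit => h ⟨it, hit⟩, fun h it => h it.1 it.2⟩
  have hAA : ∀ f, MvPolynomial.map (ιk : R →+* FractionRing R) f ∈ AE ↔ f ∈ A := by
    intro f
    rw [hAE, hA]
    exact forall₂_congr fun it _ => map_mem_inv _ hι it.1 it.2 f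
  have hint := exists_intE ιk l AE A hAA hA
  have hg0 : Function.Injective ((MvPolynomial.mapAlgHom ιk :
      MvPolynomial σ R →ₐ[k] MvPolynomial σ (FractionRing R)).comp (A.val.restrictScalars k)) :=
    (MvPolynomial.map_injective _ hι).comp Subtype.val_injective
  have hgr := range_restr ιk AE A hAA
  have hft : Algebra.FiniteType k A := general_finiteType ιk.range hfg AE hint _ hg0 hgr
  refine isResolvableVariety_spec (general hE ιk.range hR hfr _
    (funs_finite p l.length (l.map (mpi (ιk : R →+* FractionRing R)))) hl AE hint ?_ _ hg0 hgr)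
  intro D hRD hD hcmp
  exact chart_chain (ιk : R →+* FractionRing R) l AE hAE D (fun a => hRD ⟨a, rfl⟩) hcmp

end final

end Pool.Agent.Q86.TO
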