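import Pool.Agent.Q86.TO5

/-!
# Graded bases
-/

set_option autoImplicit false
set_option linter.unusedSectionVars false

universe u

open MvPolynomial Pool.Agent.W558 Pool.Agent.W418.LCI AlgebraicGeometry Pool.Agent.W466.RS.Gr

namespace Pool.Agent.Q86.TO

section graded

variable {k A : Type u} [Field k] [CommRing A] [IsDomain A] [Algebra k A] {r : ℕ}
  (𝒜 : (Fin r → ℤ) → Submodule k A) [GradedAlgebra 𝒜]

/-- A finite family of homogeneous fractions. -/
theorem exists_deg {s : ℕ} (x : Fin s → FractionRing A) (d : Fin s → Fin r → ℤ)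
    (hx0 : ∀ b, x b ≠ 0) (hx : ∀ b, HF 𝒜 (d b) (x b)) :
    ∃ (n : ℕ) (z : Fin n → FractionRing A) (h : Fin s → homFrac 𝒜) (c : Fin s → Fin n → ℤ),
      AlgebraicIndependent (homFrac 𝒜) z ∧ (∀ b, h b ≠ 0) ∧
      ∀ b, x b = (h b : FractionRing A) * ∏ j, z j ^ c b j := by
  classical
  let L : Submodule ℤ (Fin r → ℤ) := Submodule.span ℤ (Set.range d)
  obtain ⟨n, bL⟩ := Submodule.basisOfPid (Pi.basisFun ℤ (Fin r)) L
  have hL : ∀ l ∈ L, ∃ x : FractionRing A, x ≠ 0 ∧ HF 𝒜 l x := by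
    intro l hl
    induction hl using Submodule.span_induction with
    | mem l hl =>
      obtain ⟨b, rfl⟩ := hl
      exact ⟨_, hx0 b, hx b⟩
    | zero => exact ⟨1, one_ne_zero, HF.one⟩
    | add l l' _ _ ih ih' =>
      obtain ⟨x, hx0, hx⟩ := ih
      obtain ⟨y, hy0, hy⟩ := ih'
      exact ⟨x * y, mul_ne_zero hx0 hy0, hx.mul hy⟩
    | smul c l _ ih =>
      obtain ⟨x, hx0, hx⟩ := ih
      exact ⟨x ^ c, zpow_ne_zero _ hx0, hx.zpow hx0 c⟩
  choose z hz0 hz using fun j : Fin n => hL (bL j : Fin r → ℤ) (bL j).2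
  have hdL : ∀ b, d b ∈ L := fun b => Submodule.subset_span ⟨b, rfl⟩
  let c : Fin s → Fin n → ℤ := fun b j => bL.repr ⟨d b, hdL b⟩ j
  have hc : ∀ b, ∑ j, c b j • (bL j : Fin r → ℤ) = d b := by
    intro b
    have h1 := bL.sum_repr ⟨d b, hdL b⟩
    have h2 : ((∑ j, c b j • bL j : L) : Fin r → ℤ) = d b :=
      congrArg (Subtype.val : L → (Fin r → ℤ)) h1
    rw [AddSubmonoidClass.coe_finsetSum] at h2
    exact h2
  have hP : ∀ b, HF 𝒜 (d b) (∏ j, z j ^ c b j) := by
    intro b
    have h1 := HF.prod (𝒜 := 𝒜) Finset.univ (fun j => c b j • (bL j : Fin r → ℤ))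
      (fun j => z j ^ c b j) (fun j _ => (hz j).zpow (hz0 j) _)
    rw [hc b] at h1
    exact h1
  have hP0 : ∀ b, ∏ j, z j ^ c b j ≠ 0 := fun b =>
    Finset.prod_ne_zero_iff.2 fun j _ => zpow_ne_zero _ (hz0 j)
  have hh : ∀ b, x b * (∏ j, z j ^ c b j)⁻¹ ∈ homFrac 𝒜 := by
    intro b
    apply HF.mem
    have h1 := (hx b).mul ((hP b).inv (hP0 b))
    rw [add_neg_cancel] at h1
    exact h1
  refine ⟨n, z, fun b => ⟨_, hh b⟩, c, ?_, ?_, ?_⟩
  · refine algInd (𝒜 := 𝒜) z (fun j => (bL j : Fin r → ℤ)) ?_ hz hz0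
    have h1 := bL.linearIndependent
    exact h1.map' L.subtype (Submodule.ker_subtype L)
  · intro b h0
    have h1 : x b * (∏ j, z j ^ c b j)⁻¹ = 0 := congrArg Subtype.val h0
    exact mul_ne_zero (hx0 b) (inv_ne_zero (hP0 b)) h1
  · intro b
    exact (inv_mul_cancel_right₀ (hP0 b) (x b)).symm

/-- Homogeneous fractions are locally monomials. -/
theorem hasLMs_graded (hE : HasLM k (homFrac 𝒜)) :
    HasLMs k {x : FractionRing A | ∃ d, HF 𝒜 d x} := by
  classical
  intro s x hx0 hx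
  choose d hd using hx
  obtain ⟨n, z, h, c, hz, hh, he⟩ := exists_deg 𝒜 x d hx0 hd
  obtain ⟨T, I, i1, i2, M, Γ, hΓ, -⟩ := hE (Fin s) h hh
  obtain ⟨T1, I1, j1, j2, M1, Γ1, hΓ1⟩ :=
    all_tor k (homFrac 𝒜) (FractionRing A) T I (Fin s) M h Γ hΓ n z hz
  have hmono := fn_mono hΓ1 (ι := Fin s)
    (fun b => Sum.elim (fun b' => if b' = b then (1 : ℤ) else 0) (c b))
  have e1 : (fun i => ∏ b : Fin s ⊕ Fin n, (Sum.elim (fun b => algebraMap (homFrac 𝒜)
      (FractionRing A) (h b)) z) b ^ (Sum.elim (fun b' => if b' = i then (1 : ℤ) else 0) (c i)) b)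
      = x := by
    funext b
    rw [Fintype.prod_sum_type, he b]
    congr 1
    rw [Finset.prod_eq_single b]
    · simp
    · intro b' _ hb'
      simp [hb']
    · simp
  rw [e1] at hmono
  exact ⟨T1, I1, j1, j2, M1, _, hmono⟩

variable {𝒜}

lemma HF_sub {d : Fin r → ℤ} {x y : FractionRing A} (hx : HF 𝒜 d x) (hy : HF 𝒜 d y) :
    HF 𝒜 d (x - y) := by
  obtain ⟨e, a, ha, b, hb, hb0, rfl⟩ := hx
  obtain ⟨e', a', ha', b', hb', hb0', rfl⟩ := hy
  refine ⟨e + e', a * b' - b * a', ?_, b * b', SetLike.mul_mem_graded hb hb', mul_ne_zero hb0 hb0',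
    ?_⟩
  · have h1 := SetLike.mul_mem_graded (A := 𝒜) ha hb'
    have h2 := SetLike.mul_mem_graded (A := 𝒜) hb ha'
    have e1 : e + (d + e') = d + e + e' := by abel
    rw [e1] at h2
    rw [← add_assoc]
    exact Submodule.sub_mem _ h1 h2
  · have h1 := am_ne hb0
    have h2 := am_ne hb0'
    rw [map_sub, map_mul, map_mul, map_mul, div_sub_div _ _ h1 h2]

lemma HF_zero (d : Fin r → ℤ) : HF 𝒜 d (0 : FractionRing A) :=
  ⟨0, 0, Submodule.zero_mem _, 1, SetLike.one_mem_graded 𝒜, one_ne_zero, by simp⟩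

/-- The functions of the tree are homogeneous. -/
theorem funs_hom {σ : Type} [DecidableEq σ] {p : ℕ} (hp : p.Prime) (n : ℕ)
    (l : List (FractionRing A × (σ → FractionRing A))) (α : σ → Fin r → ℤ)
    (h : ∀ it ∈ l, ∃ τ : Fin r → ℤ, HF 𝒜 ((p - 1) • τ) it.1 ∧ ∀ j, HF 𝒜 (α j - τ) (it.2 j)) :
    ∀ x ∈ funs p n l, x ≠ 0 → ∃ d, HF 𝒜 d x := by
  have hp1 : 1 < p := hp.one_lt
  induction n generalizing l α with
  | zero =>
    intro x hx
    exact absurd hx (Set.notMem_empty x)
  | succ n ih =>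
    rcases l with _ | ⟨⟨c, v⟩, l⟩
    · intro x hx
      exact absurd hx (Set.notMem_empty x)
    · obtain ⟨τ, hc, hv⟩ := h (c, v) List.mem_cons_self
      intro x hx hx0
      rcases hx with ⟨j, rfl⟩ | hx | hx
      · exact ⟨_, hv j⟩
      · exact ih l α (fun it hit => h it (List.mem_cons_of_mem _ hit)) x hx hx0
      · obtain ⟨i, hx⟩ := Set.mem_iUnion.1 hx
        refine ih _ (fun j => if j = i then p • α i else α j) ?_ x hx hx0
        intro it hit
        obtain ⟨⟨c', v'⟩, hit', rfl⟩ := List.mem_map.1 hit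
        obtain ⟨τ', hc', hv'⟩ := h (c', v') (List.mem_cons_of_mem _ hit')
        refine ⟨τ', hc', fun j => ?_⟩
        change HF 𝒜 _ (stv p i (fun j => v j / v i) c v c' v' j)
        unfold stv
        by_cases hji : j = i
        · rw [if_pos hji, if_pos hji]
          have h1 : HF 𝒜 (p • α i - τ') (c' * v' i ^ p) := by
            have := hc'.mul ((hv' i).pow p)
            have e : (p - 1) • τ' + p • (α i - τ') = p • α i - τ' := by
              obtain ⟨q, rfl⟩ : ∃ q, p = q + 1 := ⟨p - 1, by omega⟩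
              rw [Nat.add_sub_cancel]
              module
            rwa [e] at this
          have h2 : HF 𝒜 (p • α i - τ') (c * v i ^ (p - 1) * v' i) := by
            have := (hc.mul ((hv i).pow (p - 1))).mul (hv' i)
            have e : (p - 1) • τ + (p - 1) • (α i - τ) + (α i - τ') = p • α i - τ' := by
              obtain ⟨q, rfl⟩ : ∃ q, p = q + 1 := ⟨p - 1, by omega⟩
              rw [Nat.add_sub_cancel]
              module
            rwa [e] at this
          exact HF_sub h1 h2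
        · rw [if_neg hji, if_neg hji]
          change HF 𝒜 _ (v' j - v j / v i * v' i)
          by_cases hvi : v i = 0
          · rw [hvi, div_zero, zero_mul, sub_zero]
            exact hv' j
          · have h1 := ((hv j).mul ((hv i).inv hvi)).mul (hv' i)
            have e : α j - τ + -(α i - τ) + (α i - τ') = α j - τ' := by abel
            rw [e, ← div_eq_mul_inv] at h1
            exact HF_sub (hv' j) h1

lemma genBy_graded [Algebra.FiniteType k A] :
    GenBy (IsScalarTower.toAlgHom k A (FractionRing A)).range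
      {x : FractionRing A | ∃ d, HF 𝒜 d x} := by
  classical
  obtain ⟨S, hS⟩ := (inferInstance : Algebra.FiniteType k A)
  refine ⟨((S.biUnion fun s => (DirectSum.decompose 𝒜 s).support.image
      fun d => ((DirectSum.decompose 𝒜 s) d : A))).image
      (IsScalarTower.toAlgHom k A (FractionRing A)), ?_, ?_⟩
  · rw [Finset.coe_image, ← AlgHom.map_adjoin, ← Algebra.map_top]
    congr 1
    rw [eq_top_iff, ← hS]
    apply Algebra.adjoin_le
    intro s hs
    rw [← DirectSum.sum_support_decompose 𝒜 s]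
    apply Subalgebra.sum_mem
    intro d hd
    apply Algebra.subset_adjoin
    rw [Finset.mem_coe, Finset.mem_biUnion]
    exact ⟨s, hs, Finset.mem_image.2 ⟨d, hd, rfl⟩⟩
  · intro x hx _
    obtain ⟨g, hg, rfl⟩ := Finset.mem_image.1 hx
    obtain ⟨s, hs, hg⟩ := Finset.mem_biUnion.1 hg
    obtain ⟨d, hd, rfl⟩ := Finset.mem_image.1 hg
    exact ⟨d, HF.of_mem (SetLike.coe_mem _)⟩

end graded

lemma genBy_univ {k A : Type u} [Field k] [CommRing A] [IsDomain A] [Algebra k A]
    [Algebra.FiniteType k A] :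
    GenBy (IsScalarTower.toAlgHom k A (FractionRing A)).range
      (Set.univ : Set (FractionRing A)) := by
  classical
  obtain ⟨S, hS⟩ := (inferInstance : Algebra.FiniteType k A)
  refine ⟨S.image (IsScalarTower.toAlgHom k A (FractionRing A)), ?_, fun _ _ _ => trivial⟩
  rw [Finset.coe_image, ← AlgHom.map_adjoin, ← Algebra.map_top, hS]

end Pool.Agent.Q86.TO
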