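import Pool.Agent.Q86.TO6

/-!
# Products of linear forms
-/

set_option autoImplicit false
set_option linter.unusedSectionVars false

universe u

open MvPolynomial Pool.Agent.W558 Pool.Agent.W418.LCI Pool.Agent.W418.Lin AlgebraicGeometry

namespace Pool.Agent.Q86.TO

section mainK

variable {σ : Type} [DecidableEq σ] [Finite σ] {k : Type u} [Field k]

/-- **Main theorem**, arbitrary field of fractions. -/
theorem mainK {p : ℕ} [hp : Fact p.Prime] {R K : Type u} [CharP k p]
    [CommRing R] [IsDomain R] [Algebra k R] [Field K] [Algebra k K] [Algebra R K]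
    [IsScalarTower k R K] [IsFractionRing R K] {P : Set K} (hE : HasLMs k P)
    (hR : GenBy (IsScalarTower.toAlgHom k R K).range P)
    (l : List (R × (σ → R)))
    (hl : ∀ x ∈ funs p l.length (l.map (mpi (algebraMap R K))), x ≠ 0 → x ∈ P)
    (A : Subalgebra R (MvPolynomial σ R))
    (hA : ∀ f, f ∈ A ↔ ∀ it ∈ l, f ∈ inv p it.1 it.2) :
    IsResolvableVariety (X := Spec (CommRingCat.of A))
      (Spec.map (CommRingCat.ofHom (algebraMap k A))) := by
  classical
  have hcE : CharP K p := charP_of_injective_algebraMap (algebraMap k K).injective p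
  have hcR : CharP R p := charP_of_injective_algebraMap (algebraMap k R).injective p
  obtain ⟨ιk, hιk, hιk2, hιk3⟩ : ∃ ιk : R →ₐ[k] K,
      (∀ a, ιk a = algebraMap R K a) ∧
      (ιk : R →+* K) = algebraMap R K ∧
      ιk = IsScalarTower.toAlgHom k R K :=
    ⟨IsScalarTower.toAlgHom k R K, fun a => rfl, rfl, rfl⟩
  rw [← hιk3] at hR
  rw [← hιk2] at hl
  have hι : Function.Injective (ιk : R →+* K) := by
    intro a b hab
    have : ιk a = ιk b := hab
    rw [hιk, hιk] at this
    exact IsFractionRing.injective R K this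
  have hfg : ιk.range.FG := hR.fg
  have hfr : ∀ x : K, ∃ a ∈ ιk.range, ∃ b ∈ ιk.range, b ≠ 0 ∧ x = a * b⁻¹ := by
    intro x
    obtain ⟨a, b, hb, rfl⟩ := IsFractionRing.div_surjective (A := R) x
    refine ⟨_, ⟨a, hιk a⟩, _, ⟨b, hιk b⟩, ?_, div_eq_mul_inv _ _⟩
    exact (FaithfulSMul.algebraMap_eq_zero_iff R K).not.2 (nonZeroDivisors.ne_zero hb)
  obtain ⟨AE, hAE⟩ : ∃ AE : Subalgebra K (MvPolynomial σ K),
      ∀ f, f ∈ AE ↔ ∀ it ∈ l, f ∈ inv p ((ιk : R →+* K) it.1)
        (fun j => (ιk : R →+* K) (it.2 j)) := by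
    refine ⟨⨅ it : {it // it ∈ l}, inv p ((ιk : R →+* K) it.1.1)
      (fun j => (ιk : R →+* K) (it.1.2 j)), fun f => ?_⟩
    rw [Algebra.mem_iInf]
    exact ⟨fun h it hit => h ⟨it, hit⟩, fun h it => h it.1 it.2⟩
  have hAA : ∀ f, MvPolynomial.map (ιk : R →+* K) f ∈ AE ↔ f ∈ A := by
    intro f
    rw [hAE, hA]
    exact forall₂_congr fun it _ => map_mem_inv _ hι it.1 it.2 f
  have hint := exists_intE ιk l AE A hAA hA
  have hg0 : Function.Injective ((MvPolynomial.mapAlgHom ιk :
      MvPolynomial σ R →ₐ[k] MvPolynomial σ K).comp (A.val.restrictScalars k)) :=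
    (MvPolynomial.map_injective _ hι).comp Subtype.val_injective
  have hgr := range_restr ιk AE A hAA
  have hft : Algebra.FiniteType k A := general_finiteType ιk.range hfg AE hint _ hg0 hgr
  refine isResolvableVariety_spec (general hE ιk.range hR hfr _
    (funs_finite p l.length (l.map (mpi (ιk : R →+* K)))) hl AE hint ?_ _ hg0 hgr)
  intro D hRD hD hcmp
  exact chart_chain (ιk : R →+* K) l AE hAE D (fun a => hRD ⟨a, rfl⟩) hcmp

end mainK

section mult

variable {K : Type u} [Field K]

/-- The products of an element of `E` and an element of `M`. -/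
def EM (E : Subfield K) (M : Submonoid K) : Set K := {x | ∃ e ∈ E, ∃ μ ∈ M, x = e * μ}

/-- The functions of the tree. -/
theorem funs_mul {σ : Type} [DecidableEq σ] {p : ℕ} (hp : p.Prime) (E : Subfield K)
    (M : Submonoid K) (hinv : ∀ μ ∈ M, μ⁻¹ ∈ M) (h0 : ∀ μ ∈ M, μ ≠ 0) (n : ℕ)
    (l : List (K × (σ → K))) (μ : σ → K) (hμ : ∀ j, μ j ∈ M)
    (h : ∀ it ∈ l, ∃ ε ∈ M, (∃ e ∈ E, it.1 = e * ε ^ (p - 1)) ∧
      ∀ j, ∃ e ∈ E, it.2 j = e * (μ j * ε⁻¹)) :
    ∀ x ∈ funs p n l, x ∈ EM E M := by
  have hp1 : 1 < p := hp.one_lt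
  induction n generalizing l μ with
  | zero =>
    intro x hx
    exact absurd hx (Set.notMem_empty x)
  | succ n ih =>
    rcases l with _ | ⟨⟨c, v⟩, l⟩
    · intro x hx
      exact absurd hx (Set.notMem_empty x)
    · obtain ⟨ε, hε, ⟨e, he, hc⟩, hv⟩ := h (c, v) List.mem_cons_self
      have hε0 := h0 ε hε
      intro x hx
      rcases hx with ⟨j, rfl⟩ | hx | hx
      · obtain ⟨f, hf, hfj⟩ := hv j
        exact ⟨f, hf, _, M.mul_mem (hμ j) (hinv ε hε), hfj⟩
      · exact ih l μ hμ (fun it hit => h it (List.mem_cons_of_mem _ hit)) x hx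
      · obtain ⟨i, hx⟩ := Set.mem_iUnion.1 hx
        refine ih _ (fun j => if j = i then μ i ^ p else μ j) ?_ ?_ x hx
        · intro j
          change (if j = i then μ i ^ p else μ j) ∈ M
          split
          · exact M.pow_mem (hμ i) p
          · exact hμ j
        intro it hit
        obtain ⟨⟨c', v'⟩, hit', rfl⟩ := List.mem_map.1 hit
        obtain ⟨ε', hε', ⟨e', he', hc'⟩, hv'⟩ := h (c', v') (List.mem_cons_of_mem _ hit')
        have hε0' := h0 ε' hε'
        refine ⟨ε', hε', ⟨e', he', hc'⟩, fun j => ?_⟩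
        change ∃ e ∈ E, stv p i (fun j => v j / v i) c v c' v' j =
          e * ((if j = i then μ i ^ p else μ j) * ε'⁻¹)
        obtain ⟨f, hf, hfi⟩ := hv i
        obtain ⟨f', hf', hfi'⟩ := hv' i
        have hμi := h0 _ (hμ i)
        unfold stv
        by_cases hji : j = i
        · rw [if_pos hji, if_pos hji]
          refine ⟨e' * f' ^ p - e * f ^ (p - 1) * f', E.sub_mem (E.mul_mem he' (E.pow_mem hf' p))
            (E.mul_mem (E.mul_mem he (E.pow_mem hf _)) hf'), ?_⟩
          change c' * v' i ^ p - c * v i ^ (p - 1) * v' i = _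
          have e1 : c' * v' i ^ p = e' * f' ^ p * (μ i ^ p * ε'⁻¹) := by
            have h1 : c' = e' * ε' ^ (p - 1) := hc'
            have h2 : v' i = f' * (μ i * ε'⁻¹) := hfi'
            rw [h1, h2, mul_pow, mul_pow]
            have h3 : (ε'⁻¹) ^ p = (ε'⁻¹) ^ (p - 1) * ε'⁻¹ := by
              rw [← pow_succ]; congr 1; omega
            rw [h3]
            have h4 : ε' ^ (p - 1) * (ε'⁻¹) ^ (p - 1) = 1 := by
              rw [← mul_pow, mul_inv_cancel₀ hε0', one_pow]
            linear_combination (e' * f' ^ p * μ i ^ p * ε'⁻¹) * h4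
          have e2 : c * v i ^ (p - 1) * v' i = e * f ^ (p - 1) * f' * (μ i ^ p * ε'⁻¹) := by
            have h1 : c = e * ε ^ (p - 1) := hc
            have h2 : v i = f * (μ i * ε⁻¹) := hfi
            have h2' : v' i = f' * (μ i * ε'⁻¹) := hfi'
            rw [h1, h2, h2', mul_pow, mul_pow]
            have h3 : μ i ^ p = μ i ^ (p - 1) * μ i := by
              rw [← pow_succ]; congr 1; omega
            rw [h3]
            have h4 : ε ^ (p - 1) * (ε⁻¹) ^ (p - 1) = 1 := by
              rw [← mul_pow, mul_inv_cancel₀ hε0, one_pow]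
            linear_combination (e * f ^ (p - 1) * f' * μ i ^ (p - 1) * μ i * ε'⁻¹) * h4
          rw [e1, e2]
          ring
        · rw [if_neg hji, if_neg hji]
          obtain ⟨g, hg, hgj⟩ := hv j
          obtain ⟨g', hg', hgj'⟩ := hv' j
          refine ⟨g' - g / f * f', E.sub_mem hg' (E.mul_mem (E.div_mem hg hf) hf'), ?_⟩
          change v' j - v j / v i * v' i = _
          have h1 : v j = g * (μ j * ε⁻¹) := hgj
          have h1' : v' j = g' * (μ j * ε'⁻¹) := hgj'
          have h2 : v i = f * (μ i * ε⁻¹) := hfi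
          have h2' : v' i = f' * (μ i * ε'⁻¹) := hfi'
          rw [h1, h1', h2, h2']
          by_cases hf0 : f = 0
          · rw [hf0]; simp
          · field_simp

end mult

section lin

variable {k E K : Type u} [Field k] [Field E] [Field K] [Algebra k E] [Algebra k K] [Algebra E K]
  [IsScalarTower k E K] {a : ℕ}

/-- The group generated by the nonzero linear forms. -/
def LinM (x : Fin a → K) : Submonoid K where
  carrier := {μ | ∃ (J : Type) (_ : Fintype J) (v : J → Fin a → E) (s : J → ℤ), (∀ i, v i ≠ 0) ∧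
    μ = ∏ i, lf v x i ^ s i}
  mul_mem' := by
    rintro _ _ ⟨J, _, v, s, hv, rfl⟩ ⟨J', _, v', s', hv', rfl⟩
    refine ⟨J ⊕ J', inferInstance, Sum.elim v v', Sum.elim s s', ?_, ?_⟩
    · rintro (i | i)
      · exact hv i
      · exact hv' i
    · rw [Fintype.prod_sum_type]
      rfl
  one_mem' := ⟨Empty, inferInstance, Empty.elim, Empty.elim, fun i => i.elim, by simp⟩

lemma lf_ne {J : Type} (x : Fin a → K) (hx : AlgebraicIndependent E x) (v : J → Fin a → E) (j : J)
    (hv : v j ≠ 0) : lf v x j ≠ 0 := by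
  intro h
  apply hv
  have h1 : aeval x (∑ i, C (v j i) * X i : MvPolynomial (Fin a) E) = 0 := by
    rw [map_sum]
    unfold lf at h
    rw [← h]
    refine Finset.sum_congr rfl fun i _ => ?_
    rw [map_mul, aeval_X, aeval_C]
  have h2 := (algebraicIndependent_iff.1 hx) _ h1
  funext i
  have h3 := congrArg (MvPolynomial.coeff (Finsupp.single i 1)) h2
  rw [coeff_sum, Finset.sum_eq_single i] at h3
  · rw [coeff_C_mul, coeff_X', if_pos rfl, mul_one, coeff_zero] at h3
    exact h3
  · intro b _ hb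
    rw [coeff_C_mul, coeff_X', if_neg, mul_zero]
    intro h4
    exact hb (Finsupp.single_left_injective one_ne_zero h4)
  · intro h
    exact absurd (Finset.mem_univ i) h

lemma linM_inv (x : Fin a → K) : ∀ μ ∈ LinM (E := E) x, μ⁻¹ ∈ LinM (E := E) x := by
  rintro _ ⟨J, _, v, s, hv, rfl⟩
  refine ⟨J, inferInstance, v, fun i => - s i, hv, ?_⟩
  rw [← Finset.prod_inv_distrib]
  exact Finset.prod_congr rfl fun i _ => (zpow_neg _ _).symm

lemma linM_ne (x : Fin a → K) (hx : AlgebraicIndependent E x) : ∀ μ ∈ LinM (E := E) x, μ ≠ 0 := by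
  rintro _ ⟨J, _, v, s, hv, rfl⟩
  exact Finset.prod_ne_zero_iff.2 fun i _ => zpow_ne_zero _ (lf_ne x hx v i (hv i))

lemma lf_mem_linM (x : Fin a → K) (v : Fin a → E) (hv : v ≠ 0) :
    ∑ i, algebraMap E K (v i) * x i ∈ LinM (E := E) x := by
  refine ⟨Unit, inferInstance, fun _ => v, fun _ => 1, fun _ => hv, ?_⟩
  simp [lf]

/-- Elements of the base field and products of linear forms are locally monomials. -/
theorem hasLMs_lin [PerfectField k] (hE : HasLM k E) (x : Fin a → K)
    (hx : AlgebraicIndependent E x) :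
    HasLMs k (EM (algebraMap E K).fieldRange (LinM (E := E) x)) := by
  classical
  intro n q hq0 hq
  choose e he μ hμ hqe using hq
  choose e' he' using he
  choose J hJ v s hv hμe using hμ
  have he0 : ∀ b, e' b ≠ 0 := by
    intro b h
    apply hq0 b
    rw [hqe b, ← he' b, h, map_zero, zero_mul]
  let V : ((Σ b, J b) ⊕ Fin a) → Fin a → E := Sum.elim (fun i => v i.1 i.2) fun i => Pi.single i 1
  have hV : ∀ i, V i ≠ 0 := by
    rintro (i | i)
    · exact hv i.1 i.2
    · intro h
      have := congrFun h i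
      change (Pi.single i (1 : E) : Fin a → E) i = 0 at this
      rw [Pi.single_eq_same] at this
      exact one_ne_zero this
  let H : Type := Fin n ⊕ {s : Fin a → ((Σ b, J b) ⊕ Fin a) // pl V s ≠ 0}
  let h : H → E := Sum.elim e' fun s => pl V s.1
  have hh : ∀ t, h t ≠ 0 := by
    rintro (b | s)
    · exact he0 b
    · exact s.2
  obtain ⟨T, I, i1, i2, M, Γ, hΓ, hfr⟩ := hE H h hh
  have hx' : AlgebraicIndependent E (Sum.elim x (Empty.elim : Empty → K)) := by
    have h1 := hx.comp (Sum.elim id Empty.elim : Fin a ⊕ Empty → Fin a) (by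
      rintro (a | a) (b | b) h
      · exact congrArg Sum.inl h
      · exact b.elim
      · exact a.elim
      · exact a.elim)
    convert h1 using 1
    funext a
    rcases a with a | a
    · rfl
    · exact a.elim
  have hr : ∃ s, pl V s ≠ 0 := by
    refine ⟨fun i => Sum.inr i, ?_⟩
    have : (fun i => V (Sum.inr i)) = (1 : Matrix (Fin a) (Fin a) E) := by
      funext i j
      change (Pi.single i (1 : E) : Fin a → E) j = _
      rw [Matrix.one_apply, Pi.single_apply]
      simp only [eq_comm]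
    change Matrix.det (fun i => V (Sum.inr i)) ≠ 0
    rw [this, Matrix.det_one]
    exact one_ne_zero
  obtain ⟨-, -, -, T1, I1, j1, j2, -, M1, Γ1, -, -, hΓ1, -⟩ :=
    lin_stage_DI (L := K) Pool.Agent.W417.Tor.main princ3_main M h Γ hΓ hfr V
      (fun s hs => ⟨Sum.inr ⟨s, hs⟩, rfl⟩) hr hV x (Empty.elim : Empty → K) hx'
  have hmono := fn_mono hΓ1 (ι := Fin n)
    (fun b => Sum.elim (fun t => if t = Sum.inl b then (1 : ℤ) else 0)
      (Sum.elim (Sum.elim (fun i => if hb : i.1 = b then s b (hb ▸ i.2) else 0) fun _ => 0)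
        fun _ => 0))
  have e1 : (fun b : Fin n => ∏ y : H ⊕ (((Σ b, J b) ⊕ Fin a) ⊕ Empty),
      (Sum.elim (fun b => algebraMap E K (h b)) (Sum.elim (lf V x) (Empty.elim : Empty → K))) y ^
      (Sum.elim (fun t => if t = Sum.inl b then (1 : ℤ) else 0)
      (Sum.elim (Sum.elim (fun i => if hb : i.1 = b then s b (hb ▸ i.2) else 0) fun _ => 0)
        fun _ => 0)) y) = q := by
    funext b
    refine (Fintype.prod_sum_type _).trans ?_
    rw [hqe b, ← he' b, hμe b]
    congr 1
    · refine (Finset.prod_eq_single (Sum.inl b) ?_ ?_).trans ?_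
      · intro y _ hy
        change _ ^ (if y = Sum.inl b then (1 : ℤ) else 0) = 1
        rw [if_neg hy, zpow_zero]
      · intro h; exact absurd (Finset.mem_univ _) h
      · change _ ^ (if (Sum.inl b : H) = Sum.inl b then (1 : ℤ) else 0) = _
        rw [if_pos rfl, zpow_one]
        rfl
    · refine (Fintype.prod_sum_type _).trans ?_
      refine (congrArg₂ (· * ·) (Fintype.prod_sum_type _) (Fintype.prod_empty _)).trans ?_
      beta_reduce
      rw [mul_one]
      have e2 : ∏ i : Fin a, (lf V x (Sum.inr i)) ^ (0 : ℤ) = 1 := by simp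
      have e3 : (∏ i : (Σ b, J b), lf V x (Sum.inl i) ^
          (if hb : i.1 = b then s b (hb ▸ i.2) else 0)) = ∏ i, lf (v b) x i ^ s b i := by
        rw [Fintype.prod_sigma, Finset.prod_eq_single b]
        · refine Finset.prod_congr rfl fun i _ => ?_
          rw [dif_pos rfl]
          rfl
        · intro b' _ hb'
          refine Finset.prod_eq_one fun i _ => ?_
          rw [dif_neg hb', zpow_zero]
        · intro h; exact absurd (Finset.mem_univ _) h
      change (∏ i : (Σ b, J b), lf V x (Sum.inl i) ^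
          (if hb : i.1 = b then s b (hb ▸ i.2) else 0)) *
        ∏ i : Fin a, (lf V x (Sum.inr i)) ^ (0 : ℤ) = _
      rw [e2, e3, mul_one]
  rw [e1] at hmono
  exact ⟨T1, I1, j1, j2, M1, _, hmono⟩

end lin

end Pool.Agent.Q86.TO
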