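import Pool.Agent.Q86.TO7
import Pool.Agent.TH188.WP.Core
import Pool.Agent.H920R2.Cu10

/-!
# Products of bases
-/

set_option autoImplicit false
set_option linter.unusedSectionVars false

universe u

open MvPolynomial Pool.Agent.W558 Pool.Agent.W558.WT Pool.Agent.W418.LCI Pool.Agent.TH188.WP
  AlgebraicGeometry TensorProduct

namespace Pool.Agent.Q86.TO

section pi

variable {k K : Type u} [Field k] [Field K] [Algebra k K] {n : ℕ} {E : Fin n → Type u}
  [∀ i, Field (E i)] [∀ i, Algebra k (E i)]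

/-- The products of functions of the factors. -/
def Prods (e : ∀ i, E i →ₐ[k] K) : Set K := {x | ∃ s : ∀ i, E i, x = ∏ i, e i (s i)}

theorem hasLMs_pi (p : ℕ) [Fact p.Prime] (e : ∀ i, E i →ₐ[k] K) (φ : (⨂[k] i, E i) →ₐ[k] K)
    (hφ : ∀ i a, φ (PiTensorProduct.singleAlgHom (R := k) (A := E) i a) = e i a)
    (hinj : Function.Injective φ) (hfr : ∀ x : K, ∃ a b, φ b ≠ 0 ∧ x * φ b = φ a)
    (hE : ∀ i, HasLM k (E i)) : HasLMs k (Prods e) := by
  classical
  intro N h hh hP
  choose s hs using hP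
  have hs0 : ∀ t i, s t i ≠ 0 := by
    intro t i h0
    apply hh t
    rw [hs t]
    exact Finset.prod_eq_zero (Finset.mem_univ i) (by rw [h0, map_zero])
  have hGM : ∀ i, GM p k (fun j : Empty => (j.elim : E i)) (fun t : Fin N => s t i) := by
    intro i
    obtain ⟨T, I, i1, i2, M, Γ, hΓ, hfr⟩ := hE i (Fin N) (fun t => s t i) (fun t => hs0 t i)
    exact ⟨T, I, i1, i2, M, fun j => isEmptyElim j, fun _ j => isEmptyElim j,
      fun _ j => isEmptyElim j, Γ, ⟨fun _ j => isEmptyElim j, fun _ j => isEmptyElim j,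
      fun _ κ _ _ φ j => isEmptyElim j⟩, hΓ, hfr⟩
  obtain ⟨T, I, i1, i2, M, -, -, -, Γ, -, hΓ, -⟩ := Fam.main wd_prod p k K n E e φ hφ hinj hfr
    (Fin N) (fun _ => Empty) (fun i j => j.elim) (fun i t => s t i) hGM
  have hy : ∀ t, h t ∈ Submonoid.closure
      (Set.range (fun q : Fin n × Fin N => e q.1 (s q.2 q.1))) := by
    intro t
    rw [hs t]
    exact Submonoid.prod_mem _ fun i _ => Submonoid.subset_closure ⟨(i, t), rfl⟩
  choose Γ' hΓ' using fun t => isFn_of_closure hΓ (hy t)
  exact ⟨T, I, i1, i2, M, Γ', fun b t => hΓ' b t⟩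

end pi

section base

variable {k : Type u} [Field k] {n : ℕ} {R : Fin n → Type u} [∀ i, CommRing (R i)]
  [∀ i, IsDomain (R i)] [∀ i, Algebra k (R i)]

/-- The product of the elements of the factors. -/
noncomputable def tp (s : ∀ i, R i) : ⨂[k] i, R i := ∏ i, sg (k := k) (A := R) i (s i)

lemma tp_mul (s s' : ∀ i, R i) : tp (k := k) (s * s') = tp (k := k) s * tp (k := k) s' := by
  unfold tp
  rw [← Finset.prod_mul_distrib]
  exact Finset.prod_congr rfl fun i _ => map_mul _ _ _

lemma tp_eq (s : ∀ i, R i) : tp (k := k) s = PiTensorProduct.tprod k s := by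
  obtain ⟨g, hg⟩ := pi_lift (k := k) (A := R) (⨂[k] i, R i) fun i => sg (k := k) (A := R) i
  have h1 : g = AlgHom.id k _ := pi_ext fun i a => hg i a
  unfold tp
  have h2 : ∀ i, sg (k := k) (A := R) i (s i) =
      PiTensorProduct.tprod k (Pi.mulSingle i (s i)) := fun i => rfl
  have h3 := map_prod (PiTensorProduct.tprodMonoidHom k (A := R)) (fun i => Pi.mulSingle i (s i))
    Finset.univ
  rw [Finset.univ_prod_mulSingle] at h3
  exact h3.symm

theorem exists_fields [IsDomain (⨂[k] i, R i)] :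
    ∃ (e : ∀ i, FractionRing (R i) →ₐ[k] FractionRing (⨂[k] i, R i))
      (φ : (⨂[k] i, FractionRing (R i)) →ₐ[k] FractionRing (⨂[k] i, R i)),
      (∀ i a, φ (PiTensorProduct.singleAlgHom (R := k) (A := fun i => FractionRing (R i)) i a) =
        e i a) ∧ Function.Injective φ ∧ (∀ x, ∃ a b, φ b ≠ 0 ∧ x * φ b = φ a) ∧
      ∀ i a, e i (algebraMap (R i) _ a) = algebraMap (⨂[k] i, R i) _ (sg i a) := by
  classical
  let B := ⨂[k] i, R i
  let K := FractionRing B
  let E : Fin n → Type u := fun i => FractionRing (R i)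
  have hBK : Function.Injective (algebraMap B K) := IsFractionRing.injective B K
  let g : ∀ i, R i →ₐ[k] K := fun i => (IsScalarTower.toAlgHom k B K).comp (sg i)
  have hg : ∀ i, Function.Injective (g i) := fun i =>
    hBK.comp (Pool.Agent.H920R2.single_injective (k := k) (A := R) i)
  let e : ∀ i, E i →ₐ[k] K := fun i => IsFractionRing.liftAlgHom (g := g i) (hg i)
  have he : ∀ i a, e i (algebraMap (R i) (E i) a) = algebraMap B K (sg i a) := by
    intro i a
    exact IsFractionRing.lift_algebraMap (hg i) a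
  obtain ⟨φ, hφ⟩ := pi_lift (k := k) (A := E) K e
  obtain ⟨mE, hmE⟩ := pi_lift (k := k) (A := R) (⨂[k] i, E i)
    fun i => (sg (k := k) (A := E) i).comp (IsScalarTower.toAlgHom k (R i) (E i))
  have hcomp : φ.comp mE = IsScalarTower.toAlgHom k B K := by
    apply pi_ext
    intro i a
    rw [AlgHom.comp_apply, hmE]
    change φ (sg i (algebraMap (R i) (E i) a)) = _
    rw [hφ, he]
    rfl
  have hcomp' : ∀ b, φ (mE b) = algebraMap B K b := fun b => congrArg (fun f => f b) hcomp
  have htp : ∀ d : ∀ i, R i, (∀ i, d i ≠ 0) → IsUnit (mE (tp d)) := by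
    intro d hd
    unfold tp
    rw [map_prod]
    have hu : ∀ i, IsUnit (mE (sg i (d i))) := by
      intro i
      rw [hmE]
      exact (IsUnit.mk0 _ ((FaithfulSMul.algebraMap_eq_zero_iff (R i) (E i)).not.2 (hd i))).map
        (sg (k := k) (A := E) i)
    exact Finset.prod_induction _ IsUnit (fun a b => IsUnit.mul) isUnit_one fun i _ => hu i
  have hden : ∀ x : ⨂[k] i, E i, ∃ d : ∀ i, R i, (∀ i, d i ≠ 0) ∧ ∃ z, mE (tp d) * x = mE z := by
    intro x
    have hx : x ∈ Algebra.adjoin k (⋃ i, Set.range (sg (k := k) (A := E) i)) := by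
      rw [pi_adjoin]; trivial
    induction hx using Algebra.adjoin_induction with
    | mem x hx =>
      obtain ⟨i, a, rfl⟩ := Set.mem_iUnion.1 hx
      obtain ⟨u, w, hw, rfl⟩ := IsFractionRing.div_surjective (A := R i) a
      have hw0 := nonZeroDivisors.ne_zero hw
      refine ⟨Pi.mulSingle i w, ?_, sg i u, ?_⟩
      · intro l
        by_cases hl : l = i
        · subst hl
          rw [Pi.mulSingle_eq_same]
          exact hw0
        · rw [Pi.mulSingle_eq_of_ne hl]
          exact one_ne_zero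
      · have e1 : tp (k := k) (Pi.mulSingle i w) = sg i w := by
          unfold tp
          rw [Finset.prod_eq_single i]
          · rw [Pi.mulSingle_eq_same]
          · intro l _ hl
            rw [Pi.mulSingle_eq_of_ne hl, map_one]
          · intro h; exact absurd (Finset.mem_univ i) h
        rw [e1, hmE, hmE, AlgHom.comp_apply, AlgHom.comp_apply, ← map_mul]
        congr 1
        change algebraMap (R i) (E i) w * (algebraMap (R i) (E i) u / algebraMap (R i) (E i) w) =
          algebraMap (R i) (E i) u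
        exact mul_div_cancel₀ _ ((FaithfulSMul.algebraMap_eq_zero_iff (R i) (E i)).not.2 hw0)
    | algebraMap r =>
      refine ⟨1, fun i => one_ne_zero, algebraMap k _ r, ?_⟩
      have e1 : tp (k := k) (1 : ∀ i, R i) = 1 := by
        unfold tp
        exact Finset.prod_eq_one fun i _ => map_one _
      rw [e1, map_one, one_mul, AlgHom.commutes]
    | add x y _ _ hx hy =>
      obtain ⟨d, hd, z, hz⟩ := hx
      obtain ⟨d', hd', z', hz'⟩ := hy
      refine ⟨d * d', fun i => mul_ne_zero (hd i) (hd' i), tp d' * z + tp d * z', ?_⟩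
      rw [tp_mul, map_mul, map_add, map_mul, map_mul, ← hz, ← hz']
      ring
    | mul x y _ _ hx hy =>
      obtain ⟨d, hd, z, hz⟩ := hx
      obtain ⟨d', hd', z', hz'⟩ := hy
      refine ⟨d * d', fun i => mul_ne_zero (hd i) (hd' i), z * z', ?_⟩
      rw [tp_mul, map_mul, map_mul, ← hz, ← hz']
      ring
  refine ⟨e, φ, hφ, ?_, ?_, he⟩
  · rw [injective_iff_map_eq_zero]
    intro x hx
    obtain ⟨d, hd, z, hz⟩ := hden x
    have h1 : algebraMap B K z = 0 := by
      rw [← hcomp', ← hz, map_mul, hx, mul_zero]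
    have h2 : z = 0 := hBK (h1.trans (map_zero _).symm)
    rw [h2, map_zero] at hz
    exact (htp d hd).mul_right_eq_zero.1 hz
  · intro x
    obtain ⟨a, b, hb, rfl⟩ := IsFractionRing.div_surjective (A := B) x
    have hb0 : algebraMap B K b ≠ 0 :=
      (FaithfulSMul.algebraMap_eq_zero_iff B K).not.2 (nonZeroDivisors.ne_zero hb)
    refine ⟨mE a, mE b, by rw [hcomp']; exact hb0, ?_⟩
    rw [hcomp', hcomp']
    exact div_mul_cancel₀ _ hb0

end base

section final

variable {σ : Type} [DecidableEq σ] [Finite σ] {k : Type u} [Field k] {n : ℕ} {R : Fin n → Type u}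
  [∀ i, CommRing (R i)] [∀ i, IsDomain (R i)] [∀ i, Algebra k (R i)]

lemma single_mem_prods {K : Type u} [Field K] [Algebra k K] {E : Fin n → Type u}
    [∀ i, Field (E i)] [∀ i, Algebra k (E i)] (e : ∀ i, E i →ₐ[k] K) (i : Fin n) (a : E i) :
    e i a ∈ Prods e := by
  classical
  refine ⟨Pi.mulSingle i a, ?_⟩
  rw [Finset.prod_eq_single i]
  · rw [Pi.mulSingle_eq_same]
  · intro l _ hl
    rw [Pi.mulSingle_eq_of_ne hl, map_one]
  · intro h; exact absurd (Finset.mem_univ i) h

lemma prods_mul {K : Type u} [Field K] [Algebra k K] {E : Fin n → Type u}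
    [∀ i, Field (E i)] [∀ i, Algebra k (E i)] (e : ∀ i, E i →ₐ[k] K) {x y : K}
    (hx : x ∈ Prods e) (hy : y ∈ Prods e) : x * y ∈ Prods e := by
  obtain ⟨s, rfl⟩ := hx
  obtain ⟨t, rfl⟩ := hy
  refine ⟨s * t, ?_⟩
  rw [← Finset.prod_mul_distrib]
  exact Finset.prod_congr rfl fun i _ => (map_mul _ _ _).symm

/-- The products of nonzero functions of the factors. -/
def ProdM {K : Type u} [Field K] [Algebra k K] {E : Fin n → Type u}
    [∀ i, Field (E i)] [∀ i, Algebra k (E i)] (e : ∀ i, E i →ₐ[k] K) : Submonoid K where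
  carrier := {x | x ≠ 0 ∧ x ∈ Prods e}
  mul_mem' := fun hx hy => ⟨mul_ne_zero hx.1 hy.1, prods_mul e hx.2 hy.2⟩
  one_mem' := ⟨one_ne_zero, 1, by simp⟩

/-- **Main theorem** for products of bases. -/
theorem main_pi {p : ℕ} [hp : Fact p.Prime] [CharP k p] [∀ i, Algebra.FiniteType k (R i)]
    [IsDomain (⨂[k] i, R i)] (hE : ∀ i, HasLM k (FractionRing (R i)))
    (l : List ((⨂[k] i, R i) × (σ → ⨂[k] i, R i)))
    (hl : (∃ c v, l = [(c, v)] ∧ ∀ j, ∃ s : ∀ i, R i, v j = tp s) ∨
      (∃ (i0 : Fin n) (μ : σ → ∀ i, R i), ∀ it ∈ l, (∃ a : R i0, it.1 = sg i0 a) ∧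
        ∀ j, ∃ a : R i0, it.2 j = sg i0 a * tp (μ j)))
    (A : Subalgebra (⨂[k] i, R i) (MvPolynomial σ (⨂[k] i, R i)))
    (hA : ∀ f, f ∈ A ↔ ∀ it ∈ l, f ∈ inv p it.1 it.2) :
    IsResolvableVariety (X := Spec (CommRingCat.of A))
      (Spec.map (CommRingCat.ofHom (algebraMap k A))) := by
  classical
  obtain ⟨e, φ, hφ, hinj, hfr, he⟩ := exists_fields (k := k) (R := R)
  let B := ⨂[k] i, R i
  let K := FractionRing B
  have htp : ∀ s : ∀ i, R i, algebraMap B K (tp s) = ∏ i, e i (algebraMap (R i) _ (s i)) := by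
    intro s
    unfold tp
    rw [map_prod]
    exact Finset.prod_congr rfl fun i _ => (he i _).symm
  -- the base
  have hgen : GenBy (IsScalarTower.toAlgHom k B K).range (Prods e) := by
    choose S hS using fun i => (inferInstance : Algebra.FiniteType k (R i)).1
    let ψ : ∀ i, R i →ₐ[k] K := fun i => (IsScalarTower.toAlgHom k B K).comp (sg i)
    refine ⟨Finset.univ.biUnion fun i => (S i).image (ψ i), ?_, ?_⟩
    · apply le_antisymm
      · rw [Algebra.adjoin_le_iff]
        intro x hx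
        obtain ⟨i, -, hx⟩ := Finset.mem_biUnion.1 (Finset.mem_coe.1 hx)
        obtain ⟨a, -, rfl⟩ := Finset.mem_image.1 hx
        exact ⟨sg i a, rfl⟩
      · set AG := Algebra.adjoin k ((Finset.univ.biUnion fun i => (S i).image (ψ i) :
          Finset K) : Set K) with hAG
        have h1 : ∀ i a, ψ i a ∈ AG := by
          intro i a
          have ha : a ∈ Algebra.adjoin k (S i : Set (R i)) := by rw [hS i]; trivial
          have h2 : ψ i a ∈ (Algebra.adjoin k (S i : Set (R i))).map (ψ i) := ⟨a, ha, rfl⟩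
          rw [AlgHom.map_adjoin] at h2
          refine Algebra.adjoin_mono ?_ h2
          rintro _ ⟨s, hs, rfl⟩
          exact Finset.mem_coe.2 (Finset.mem_biUnion.2 ⟨i, Finset.mem_univ i,
            Finset.mem_image.2 ⟨s, hs, rfl⟩⟩)
        rintro _ ⟨b, rfl⟩
        have hb : b ∈ Algebra.adjoin k (⋃ i, Set.range (sg (k := k) (A := R) i)) := by
          rw [pi_adjoin]; trivial
        have h2 : (IsScalarTower.toAlgHom k B K) b ∈ (Algebra.adjoin k
            (⋃ i, Set.range (sg (k := k) (A := R) i))).map (IsScalarTower.toAlgHom k B K) :=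
          ⟨b, hb, rfl⟩
        rw [AlgHom.map_adjoin] at h2
        refine (Algebra.adjoin_le_iff.2 ?_) h2
        rintro _ ⟨x, hx, rfl⟩
        obtain ⟨i, a, rfl⟩ := Set.mem_iUnion.1 hx
        exact h1 i a
    · intro x hx _
      obtain ⟨i, -, hx⟩ := Finset.mem_biUnion.1 hx
      obtain ⟨a, -, rfl⟩ := Finset.mem_image.1 hx
      have := single_mem_prods e i (algebraMap (R i) _ a)
      rw [he] at this
      exact this
  refine mainK (K := K) (hasLMs_pi p e φ hφ hinj hfr hE) hgen l ?_ A hA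
  rcases hl with ⟨c, v, rfl, hv⟩ | ⟨i0, μ, hl⟩
  · intro x hx _
    rcases hx with ⟨j, rfl⟩ | hx | hx
    · obtain ⟨s, hs⟩ := hv j
      refine ⟨fun i => algebraMap (R i) _ (s i), ?_⟩
      rw [← htp, ← hs]
      rfl
    · exact absurd hx (Set.notMem_empty x)
    · obtain ⟨i, hx⟩ := Set.mem_iUnion.1 hx
      exact absurd hx (Set.notMem_empty x)
  · have hEM : ∀ x ∈ EM (e i0 : FractionRing (R i0) →+* K).fieldRange (ProdM e), x ∈ Prods e := by
      rintro _ ⟨_, ⟨a, rfl⟩, μ', hμ', rfl⟩
      exact prods_mul e (single_mem_prods e i0 a) hμ'.2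
    have hsub : ∀ b : R i0, algebraMap B K (sg i0 b) ∈
        (e i0 : FractionRing (R i0) →+* K).fieldRange := fun b => ⟨_, he i0 b⟩
    intro y hy _
    apply hEM
    refine funs_mul hp.out (e i0 : FractionRing (R i0) →+* K).fieldRange (ProdM e) ?_
      (fun μ hμ => hμ.1) l.length _
      (fun j => if tp (k := k) (μ j) = 0 then 1 else algebraMap B K (tp (μ j))) ?_ ?_ y hy
    · rintro μ' ⟨h0, s, hs⟩
      refine ⟨inv_ne_zero h0, fun i => (s i)⁻¹, ?_⟩
      rw [hs, ← Finset.prod_inv_distrib]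
      exact Finset.prod_congr rfl fun i _ => (map_inv₀ _ _).symm
    · intro j
      change (if tp (k := k) (μ j) = 0 then (1 : K) else algebraMap B K (tp (μ j))) ∈ _
      split
      · exact Submonoid.one_mem _
      · rename_i h0
        refine ⟨(FaithfulSMul.algebraMap_eq_zero_iff B K).not.2 h0, _, htp (μ j)⟩
    · intro it hit
      obtain ⟨it', hit', rfl⟩ := List.mem_map.1 hit
      obtain ⟨⟨c, hc⟩, hv⟩ := hl it' hit'
      refine ⟨1, Submonoid.one_mem _, ⟨_, hsub c, ?_⟩, fun j => ?_⟩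
      · change algebraMap B K it'.1 = _
        rw [hc, one_pow, mul_one]
      · obtain ⟨a, ha⟩ := hv j
        change ∃ e ∈ _, algebraMap B K (it'.2 j) =
          e * ((if tp (k := k) (μ j) = 0 then (1 : K) else algebraMap B K (tp (μ j))) * 1⁻¹)
        rw [ha, _root_.inv_one, mul_one]
        by_cases h0 : tp (k := k) (μ j) = 0
        · refine ⟨0, Subfield.zero_mem _, ?_⟩
          rw [h0, mul_zero, map_zero, zero_mul]
        · refine ⟨_, hsub a, ?_⟩
          rw [if_neg h0, map_mul]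

end final

end Pool.Agent.Q86.TO
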