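import Pool.Agent.Q86.TO6
import Pool.Agent.TH188.WP.RatF

/-!
MP_b525bf_ag: resolution of singularities of the quotients `(S × 𝔸^m) / G`, where `S` is an affine
surface (or a variety with torus action of complexity two) over a perfect field of characteristic
`p` and `G` is a product of group schemes of order `p` over `S` which acts on the fibres by
translations; in particular of the quotients by finite groups of translations and by families of
vertical vector fields, without any condition on the zeros of the translation vectors.
-/

set_option autoImplicit false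

open AlgebraicGeometry CategoryTheory MvPolynomial Pool.Agent.W558

universe u

namespace Pool.Agent.Results.MP_b525bf_ag.TranslationGroupSchemes

variable {R : Type u} [CommRing R] {r m : ℕ}

/-- The translation `y ↦ y + X v` in the direction of the vector `v`: the homomorphism
`R[y_1, ..., y_m] → R[y_1, ..., y_m][X]` which maps `y_j` to `y_j + v_j X`. -/
noncomputable def translate (v : Fin m → R) :
    MvPolynomial (Fin m) R →ₐ[R] Polynomial (MvPolynomial (Fin m) R) :=
  aeval fun j => Polynomial.C (X j) + Polynomial.X * Polynomial.C (C (v j))

/-- The polynomial `f` is invariant under the group scheme `G_c = {t : t ^ p = c t}`, which acts on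
`𝔸^m` by `(t, y) ↦ y + t v`: `f (y + X v) = f (y)` in `R[y][X] / (X ^ p - c X)`. -/
def IsInvariant (p : ℕ) (c : R) (v : Fin m → R) (f : MvPolynomial (Fin m) R) : Prop :=
  Polynomial.X ^ p - Polynomial.C (C c) * Polynomial.X ∣ translate v f - Polynomial.C f

/-- The ring of invariants of the group schemes `G_(c l)` acting by `(t, y) ↦ y + t (v l)`. -/
noncomputable def invariants (p : ℕ) (c : Fin r → R) (v : Fin r → Fin m → R) :
    Subalgebra R (MvPolynomial (Fin m) R) where
  carrier := {f | ∀ l, IsInvariant p (c l) (v l) f}
  mul_mem' := fun hf hg l => (Pool.Agent.Q86.TO.inv p (c l) (v l)).mul_mem (hf l) (hg l)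
  add_mem' := fun hf hg l => (Pool.Agent.Q86.TO.inv p (c l) (v l)).add_mem (hf l) (hg l)
  algebraMap_mem' := fun b l => (Pool.Agent.Q86.TO.inv p (c l) (v l)).algebraMap_mem b

/-- `Spec A` is a variety over `k` and has a resolution of singularities. -/
def Resolvable (k A : Type u) [Field k] [CommRing A] [Algebra k A] : Prop :=
  IsResolvableVariety (X := Spec (CommRingCat.of A))
    (Spec.map (CommRingCat.ofHom (algebraMap k A)))

/-- The field `E` is the function field of a smooth projective surface over `k`, or a rational
function field in two variables, or such that any finite family of nonzero elements of `E` has its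
zeros and poles in a simple normal crossings divisor on some smooth projective variety with
function field `E`. -/
def GoodField (k E : Type u) [Field k] [Field E] [Algebra k E] : Prop :=
  (Algebra.trdeg k E = 2 ∧ HasModel k E) ∨
    Nonempty (E ≃ₐ[k] FractionRing (MvPolynomial (Fin 2) k)) ∨ HasLogModels k E

lemma GoodField.hasLM {k E : Type u} [Field k] [PerfectField k] [Field E] [Algebra k E]
    (h : GoodField k E) : Pool.Agent.W418.LCI.HasLM k E := by
  rcases h with h | ⟨⟨ε⟩⟩ | h
  · exact Pool.Agent.W418.LCI.hasLM_of_surface k E h.1 h.2
  · exact Pool.Agent.W418.LCI.hasLM_of_surface k E (ε.trdeg_eq.trans (trdeg_RF2 k))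
      (Pool.Agent.TH188.WP.hasModel_of_equiv ε.symm (hasModel_RF2 k))
  · exact Pool.Agent.W418.LCI.hasLM_of_models k E h

/-- The base `R` is `GoodBase` for the coefficients `c l` and the vectors `v l` if the fraction field
of `R` is a `GoodField`, or if `R` has a grading by some `ℤ ^ n` (a torus acts on `Spec R`) such that
the field of homogeneous fractions of degree zero is a `GoodField`, and there are `α j`, `τ l` in
`ℤ ^ n` such that `v l j` is homogeneous of degree `α j - τ l` and `c l` is homogeneous of degree
`(p - 1) * τ l`. -/
def GoodBase (p : ℕ) (k : Type u) [Field k] (R : Type u) [CommRing R] [IsDomain R] [Algebra k R]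
    {r m : ℕ} (c : Fin r → R) (v : Fin r → Fin m → R) : Prop :=
  GoodField k (FractionRing R) ∨
    ∃ (n : ℕ) (𝒜 : (Fin n → ℤ) → Submodule k R) (_ : GradedAlgebra 𝒜) (α : Fin m → Fin n → ℤ)
      (τ : Fin r → Fin n → ℤ), GoodField k (homFrac 𝒜) ∧ (∀ l, c l ∈ 𝒜 ((p - 1) • τ l)) ∧
        ∀ l j, v l j ∈ 𝒜 (α j - τ l)

/-- Let `k` be a perfect field of characteristic `p` and `R` a finitely generated `k`-algebra
without zero divisors, `S = Spec R`. Let `c 1, ..., c r` be elements and `v 1, ..., v r` vectors of
length `m` of elements of `R`. The group scheme `G_(c l) = {t : t ^ p = c l * t}` of order `p` over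
`S` acts on `S × 𝔸^m` by `(t, (s, y)) ↦ (s, y + t * v l (s))`. Suppose that the fraction field of
`R` is rational of transcendence degree two or the function field of a smooth projective surface
(or has log smooth models), or that a torus acts on `S` such that the field of rational invariants
has this property, and the action is homogeneous (`GoodBase`). Then the quotient of `S × 𝔸^m` by
these `r` group schemes, the spectrum of the ring of invariants, is a variety and has a resolution
of singularities. If all `c l` are `1` this is the quotient by the (arbitrary) finite group of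
translations generated by the `v l`, and if all `c l` are `0` it is the quotient by the (arbitrary)
vertical vector fields `∑ j, v l j * ∂/∂y_j`. -/
theorem result (p : ℕ) [Fact p.Prime] (k : Type u) [Field k] [CharP k p] [PerfectField k]
    (R : Type u) [CommRing R] [IsDomain R] [Algebra k R] [Algebra.FiniteType k R] (r m : ℕ)
    (c : Fin r → R) (v : Fin r → Fin m → R) (h : GoodBase p k R c v) :
    Resolvable k (invariants p c v) ∧
    ((∀ l, c l = 1) → ∀ f, f ∈ invariants p c v ↔
      ∀ γ ∈ AddSubgroup.closure (Set.range v), aeval (fun j => X j + C (γ j)) f = f) ∧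
    ((∀ l, c l = 0) → ∀ f, f ∈ invariants p c v ↔ ∀ l, ∑ j, C (v l j) * pderiv j f = 0) := by
  have hcR : CharP R p := charP_of_injective_algebraMap (algebraMap k R).injective p
  have key : ∀ f : MvPolynomial (Fin m) R,
      f ∈ invariants p c v ↔ ∀ it ∈ List.ofFn (fun l => (c l, v l)),
        f ∈ Pool.Agent.Q86.TO.inv p it.1 it.2 := by
    intro f
    rw [List.forall_mem_ofFn_iff]
    exact Iff.rfl
  refine ⟨?_, ?_, ?_⟩
  · rcases h with h | ⟨n, 𝒜, _, α, τ, hE, hc, hv⟩
    · exact Pool.Agent.Q86.TO.main (Pool.Agent.Q86.TO.hasLMs_of h.hasLM)
        Pool.Agent.Q86.TO.genBy_univ (List.ofFn (fun l => (c l, v l))) (fun _ _ _ => trivial) _ key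
    · refine Pool.Agent.Q86.TO.main (Pool.Agent.Q86.TO.hasLMs_graded 𝒜 hE.hasLM)
        Pool.Agent.Q86.TO.genBy_graded (List.ofFn (fun l => (c l, v l))) ?_ _ key
      refine Pool.Agent.Q86.TO.funs_hom (Fact.out : p.Prime) _ _ α ?_
      intro it hit
      obtain ⟨it', hit', rfl⟩ := List.mem_map.1 hit
      obtain ⟨l, rfl⟩ := (List.mem_ofFn' _ _).1 hit'
      exact ⟨τ l, Pool.Agent.W466.RS.Gr.HF.of_mem (hc l),
        fun j => Pool.Agent.W466.RS.Gr.HF.of_mem (hv l j)⟩
  · intro hc f
    have h1 : f ∈ invariants p c v ↔ ∀ l, aeval (fun j => X j + C (v l j)) f = f := by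
      refine forall_congr' fun l => ?_
      have := Pool.Agent.Q86.TO.mem_inv_one (p := p) (v l) f
      rw [← hc l] at this
      exact this
    rw [h1]
    constructor
    · intro hf γ hγ
      have hcomp : ∀ γ γ' : Fin m → R, aeval (fun j => X j + C (γ j))
          (aeval (fun j => X j + C (γ' j)) f) = aeval (fun j => X j + C ((γ + γ') j)) f := by
        intro γ γ'
        have e : ((aeval (fun j => X j + C (γ j)) :
            MvPolynomial (Fin m) R →ₐ[R] MvPolynomial (Fin m) R).comp
            (aeval (fun j => X j + C (γ' j)))) = aeval (fun j => X j + C ((γ + γ') j)) := by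
          apply MvPolynomial.algHom_ext
          intro j
          have e1 : (aeval (fun j => X j + C (γ j)) :
            MvPolynomial (Fin m) R →ₐ[R] MvPolynomial (Fin m) R) (C (γ' j)) = C (γ' j) :=
            aeval_C _ _
          rw [AlgHom.comp_apply, aeval_X, aeval_X, map_add, aeval_X, e1, Pi.add_apply, C_add]
          ring
        exact congrArg (fun φ : MvPolynomial (Fin m) R →ₐ[R] MvPolynomial (Fin m) R => φ f) e
      have hzero : aeval (fun j => X j + C ((0 : Fin m → R) j)) f = f := by simp
      induction hγ using AddSubgroup.closure_induction with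
      | mem γ hγ =>
        obtain ⟨l, rfl⟩ := hγ
        exact hf l
      | zero => exact hzero
      | add γ γ' _ _ ih ih' => rw [← hcomp, ih', ih]
      | neg γ _ ih =>
        have h2 := hcomp (-γ) γ
        rw [ih, neg_add_cancel, hzero] at h2
        exact h2
    · intro hf l
      exact hf _ (AddSubgroup.subset_closure ⟨l, rfl⟩)
  · intro hc f
    have h1 : f ∈ invariants p c v ↔ ∀ l,
        mkDerivation R (fun j => (C (v l j) : MvPolynomial (Fin m) R)) f = 0 := by
      refine forall_congr' fun l => ?_
      have := Pool.Agent.Q86.TO.mem_inv_zero_iff (p := p) (v l) f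
      rw [← hc l] at this
      exact this
    rw [h1]
    refine forall_congr' fun l => ?_
    have h3 : mkDerivation R (fun j => (C (v l j) : MvPolynomial (Fin m) R)) f =
        ∑ j, C (v l j) * pderiv j f := by
      clear h1
      induction f using MvPolynomial.induction_on with
      | C a =>
        have h4 : ∀ D : Derivation R (MvPolynomial (Fin m) R) (MvPolynomial (Fin m) R),
            D (C a) = 0 := fun D => D.map_algebraMap a
        rw [h4]
        exact (Finset.sum_eq_zero fun j _ => by rw [h4, mul_zero]).symm
      | add f g hf hg =>
        rw [map_add, hf, hg, ← Finset.sum_add_distrib]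
        exact Finset.sum_congr rfl fun j _ => by rw [map_add, mul_add]
      | mul_X f i hf =>
        rw [Derivation.leibniz, hf, mkDerivation_X, smul_eq_mul, smul_eq_mul, Finset.mul_sum]
        have h5 : f * C (v l i) = ∑ j, f * (C (v l j) * pderiv j (X i : MvPolynomial (Fin m) R)) := by
          rw [Finset.sum_eq_single i]
          · rw [pderiv_X_self, mul_one]
          · intro j _ hj
            rw [pderiv_X_of_ne hj.symm, mul_zero, mul_zero]
          · intro h
            exact absurd (Finset.mem_univ i) h
        rw [h5, ← Finset.sum_add_distrib]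
        refine Finset.sum_congr rfl fun j _ => ?_
        rw [pderiv_mul]
        ring
    rw [h3]

end Pool.Agent.Results.MP_b525bf_ag.TranslationGroupSchemes
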