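import Mathlib

/-!
# Arithmetic of regular pairs of codimension two
-/

set_option autoImplicit false

namespace Pool.Agent.Q86.WF

open Finset

/-- the indicator of divisibility -/
def ind (h n : ℕ) : ℤ := if h ∣ n then 1 else 0

lemma ind_nonneg (h n : ℕ) : 0 ≤ ind h n := by
  unfold ind; split <;> simp

lemma ind_le (h n : ℕ) : ind h n ≤ 1 := by
  unfold ind; split <;> simp

lemma ind_of {h n : ℕ} (H : h ∣ n) : ind h n = 1 := if_pos H

lemma ind_not {h n : ℕ} (H : ¬ h ∣ n) : ind h n = 0 := if_neg H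

lemma sum_phi (n M : ℕ) (hn : 0 < n) (hM : n ≤ M) :
    ∑ h ∈ Icc 2 M, (Nat.totient h : ℤ) * ind h n = n - 1 := by
  have h1 : ∑ h ∈ Icc 1 M, (Nat.totient h : ℤ) * ind h n = n := by
    have h2 := Nat.sum_totient n
    have h3 : ∑ h ∈ Icc 1 M, (Nat.totient h : ℤ) * ind h n =
        ∑ h ∈ n.divisors, (Nat.totient h : ℤ) := by
      unfold ind
      simp only [mul_ite, mul_one, mul_zero]
      rw [← Finset.sum_filter]
      refine Finset.sum_congr ?_ fun _ _ => rfl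
      ext h
      simp only [mem_filter, mem_Icc, Nat.mem_divisors]
      constructor
      · rintro ⟨_, h5⟩
        exact ⟨h5, by omega⟩
      · rintro ⟨h5, h6⟩
        have := Nat.le_of_dvd hn h5
        have : 0 < h := Nat.pos_of_dvd_of_pos h5 hn
        exact ⟨⟨this, by omega⟩, h5⟩
    rw [h3]
    exact_mod_cast h2
  have h4 : Icc 1 M = insert 1 (Icc 2 M) := by
    ext h
    simp only [mem_Icc, mem_insert]
    omega
  rw [h4, Finset.sum_insert (by simp)] at h1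
  have h5 : ind 1 n = 1 := ind_of (one_dvd n)
  rw [h5, Nat.totient_one] at h1
  push_cast at h1
  linarith

/-- **The main inequality.** -/
lemma main_ineq {ι : Type*} (O : Finset ι) (a : ι → ℕ) (ha : ∀ i ∈ O, 0 < a i) (x y d1 d2 : ℕ)
    (hx : 0 < x) (hy : 0 < y) (h1 : 0 < d1) (h2 : 0 < d2)
    (H : ∀ h, 2 ≤ h → ∑ i ∈ O, ind h (a i) + ind h x + ind h y ≤ ind h d1 + ind h d2) :
    ∑ i ∈ O, ((a i : ℤ) - 1) + (x - 1) + (y - 1) ≤ (d1 - 1) + (d2 - 1) := by
  obtain ⟨M, hM⟩ : ∃ M, M = (∑ i ∈ O, a i) + x + y + d1 + d2 := ⟨_, rfl⟩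
  have hle : ∀ i ∈ O, a i ≤ ∑ i ∈ O, a i := fun i hi =>
    Finset.single_le_sum (f := a) (fun _ _ => Nat.zero_le _) hi
  rw [← sum_phi x M hx (by omega), ← sum_phi y M hy (by omega), ← sum_phi d1 M h1 (by omega),
    ← sum_phi d2 M h2 (by omega)]
  have e1 : ∑ i ∈ O, ((a i : ℤ) - 1) = ∑ h ∈ Icc 2 M, (Nat.totient h : ℤ) * ∑ i ∈ O, ind h (a i) := by
    simp only [Finset.mul_sum]
    rw [Finset.sum_comm]
    refine Finset.sum_congr rfl fun i hi => ?_
    rw [sum_phi (a i) M (ha i hi) (by have := hle i hi; omega)]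
  rw [e1, ← Finset.sum_add_distrib, ← Finset.sum_add_distrib, ← Finset.sum_add_distrib]
  refine Finset.sum_le_sum fun h hh => ?_
  rw [mem_Icc] at hh
  have h3 := H h hh.1
  have h4 : (0 : ℤ) ≤ Nat.totient h := Int.natCast_nonneg _
  nlinarith

/-- two coprime numbers -/
lemma two (a b : ℕ) (ha : 0 < a) (hb : 0 < b) (hab : Nat.Coprime a b) (n : ℤ)
    (hn : ((a : ℤ) - 1) * (b - 1) ≤ n) : ∃ u v : ℕ, n = u * a + v * b := by
  have ha' : (0 : ℤ) < a := by exact_mod_cast ha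
  have hb' : (0 : ℤ) < b := by exact_mod_cast hb
  have hcop : IsCoprime (a : ℤ) b := Nat.isCoprime_iff_coprime.2 hab
  obtain ⟨s, t, hst⟩ := hcop
  -- `v` with `n ≡ v b` modulo `a`
  have hv0 := Int.emod_nonneg (n * t) ha'.ne'
  have hv1 := Int.emod_lt_of_pos (n * t) ha'
  set v : ℤ := (n * t) % a with hv
  have h1 : (a : ℤ) ∣ n - v * b := by
    have h2 : (a : ℤ) ∣ n * t - v := Int.dvd_self_sub_emod
    have h3 : n - v * b = (n * t - v) * b + n * s * a := by
      linear_combination (-n) * hst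
    rw [h3]
    exact dvd_add (dvd_mul_of_dvd_left h2 _) (dvd_mul_left _ _)
  obtain ⟨u, hu⟩ := h1
  have hu0 : 0 ≤ u := by
    by_contra hneg
    push Not at hneg
    have : (a : ℤ) * u ≤ a * (-1) := by
      apply mul_le_mul_of_nonneg_left (by omega) ha'.le
    nlinarith
  refine ⟨u.toNat, v.toNat, ?_⟩
  rw [Int.toNat_of_nonneg hu0, Int.toNat_of_nonneg hv0]
  linarith

/-- three numbers -/
lemma three (a b c : ℕ) (ha : 0 < a) (hb : 0 < b) (hc : 0 < c)
    (hg : Nat.Coprime (Nat.gcd a b) c) (n : ℤ)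
    (hn : (Nat.lcm a b : ℤ) + Nat.gcd a b * c - a - b - c + 1 ≤ n) :
    ∃ u v w : ℕ, n = u * a + v * b + w * c := by
  obtain ⟨g, hgdef⟩ : ∃ g, g = Nat.gcd a b := ⟨_, rfl⟩
  rw [← hgdef] at hg hn
  have hg0 : 0 < g := by rw [hgdef]; exact Nat.gcd_pos_of_pos_left _ ha
  obtain ⟨a', ha'⟩ : g ∣ a := by rw [hgdef]; exact Nat.gcd_dvd_left _ _
  obtain ⟨b', hb'⟩ : g ∣ b := by rw [hgdef]; exact Nat.gcd_dvd_right _ _
  have hcop : Nat.Coprime a' b' := by
    have := Nat.coprime_div_gcd_div_gcd (m := a) (n := b) (by rw [← hgdef]; exact hg0)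
    rw [← hgdef, ha', hb', Nat.mul_div_cancel_left _ hg0, Nat.mul_div_cancel_left _ hg0] at this
    exact this
  have hlcm : Nat.lcm a b = g * (a' * b') := by
    have h1 := Nat.gcd_mul_lcm a b
    rw [← hgdef] at h1
    have h2 : g * Nat.lcm a b = g * (g * (a' * b')) := by
      rw [h1, ha', hb']; ring
    exact Nat.eq_of_mul_eq_mul_left hg0 h2
  have ha0 : 0 < a' := Nat.pos_of_ne_zero (by rintro rfl; omega)
  have hb0 : 0 < b' := Nat.pos_of_ne_zero (by rintro rfl; omega)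
  have hgz : (0 : ℤ) < g := by exact_mod_cast hg0
  have hcz : (0 : ℤ) < c := by exact_mod_cast hc
  obtain ⟨s, t, hst⟩ := Nat.isCoprime_iff_coprime.2 hg
  have hv0 := Int.emod_nonneg (n * t) hgz.ne'
  have hv1 := Int.emod_lt_of_pos (n * t) hgz
  set w : ℤ := (n * t) % g with hw
  have h1 : (g : ℤ) ∣ n - w * c := by
    have h2 : (g : ℤ) ∣ n * t - w := Int.dvd_self_sub_emod
    have h3 : n - w * c = (n * t - w) * c + n * s * g := by
      linear_combination (-n) * hst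
    rw [h3]
    exact dvd_add (dvd_mul_of_dvd_left h2 _) (dvd_mul_left _ _)
  obtain ⟨m, hm⟩ := h1
  rw [hlcm, ha', hb'] at hn
  push_cast at hn
  have h4 : (g : ℤ) * (a' * b' - a' - b') < g * m := by
    rw [← hm]
    have : w * c ≤ (g - 1) * c := mul_le_mul_of_nonneg_right (by omega) hcz.le
    nlinarith
  have h5 : (a' : ℤ) * b' - a' - b' < m := lt_of_mul_lt_mul_left h4 hgz.le
  obtain ⟨u, v, huv⟩ := two a' b' ha0 hb0 hcop m (by nlinarith)
  refine ⟨u, v, w.toNat, ?_⟩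
  rw [Int.toNat_of_nonneg hv0, ha', hb']
  push_cast
  have h6 : n = g * m + w * c := by linarith
  rw [h6, huv]
  ring

end Pool.Agent.Q86.WF
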