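import Pool.Agent.Q86.WF1

/-!
# Regular pairs of codimension two and numerical semigroups
-/

set_option autoImplicit false

namespace Pool.Agent.Q86.WF

open Finset

variable {ι : Type*} [Fintype ι] [DecidableEq ι] {a : ι → ℕ} {d1 d2 : ℕ}

/-- The pair is regular: every `h ≥ 2` divides at most as many weights as degrees. -/
def Reg (a : ι → ℕ) (d1 d2 : ℕ) : Prop :=
  ∀ h, 2 ≤ h → ∑ i, ind h (a i) ≤ ind h d1 + ind h d2

lemma Reg.swap (R : Reg a d1 d2) : Reg a d2 d1 := fun h hh => by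
  rw [add_comm]; exact R h hh

lemma sum_ind (O : Finset ι) (h : ℕ) : ∑ i ∈ O, ind h (a i) = ((O.filter fun i => h ∣ a i).card : ℤ) := by
  unfold ind
  rw [← Finset.sum_filter]
  simp

lemma Reg.card (R : Reg a d1 d2) {h : ℕ} (hh : 2 ≤ h) (S : Finset ι) (hS : ∀ i ∈ S, h ∣ a i) :
    (S.card : ℤ) ≤ ind h d1 + ind h d2 := by
  refine le_trans ?_ (R h hh)
  rw [sum_ind]
  exact_mod_cast Finset.card_le_card fun i hi => mem_filter.2 ⟨mem_univ i, hS i hi⟩

lemma Reg.one (R : Reg a d1 d2) {h : ℕ} (hh : 2 ≤ h) (i : ι) (hi : h ∣ a i) : h ∣ d1 ∨ h ∣ d2 := by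
  have h1 := R.card hh {i} (by simpa using hi)
  by_contra hcon
  push Not at hcon
  rw [ind_not hcon.1, ind_not hcon.2, card_singleton] at h1
  norm_num at h1

lemma Reg.two (R : Reg a d1 d2) {h : ℕ} (hh : 2 ≤ h) {i j : ι} (hij : i ≠ j) (hi : h ∣ a i)
    (hj : h ∣ a j) : h ∣ d1 ∧ h ∣ d2 := by
  have h1 := R.card hh {i, j} (by
    intro m hm
    rcases mem_insert.1 hm with rfl | hm
    · exact hi
    · rw [mem_singleton.1 hm]; exact hj)
  rw [card_pair hij] at h1
  have h2 := ind_le h d1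
  have h3 := ind_le h d2
  constructor
  · by_contra hcon
    rw [ind_not hcon] at h1
    push_cast at h1
    linarith
  · by_contra hcon
    rw [ind_not hcon] at h1
    push_cast at h1
    linarith

lemma Reg.three (R : Reg a d1 d2) {h : ℕ} (hh : 2 ≤ h) {i j l : ι} (hij : i ≠ j) (hil : i ≠ l)
    (hjl : j ≠ l) (hi : h ∣ a i) (hj : h ∣ a j) (hl : h ∣ a l) : False := by
  have h1 := R.card hh {i, j, l} (by
    intro m hm
    rcases mem_insert.1 hm with rfl | hm
    · exact hi
    · rcases mem_insert.1 hm with rfl | hm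
      · exact hj
      · rw [mem_singleton.1 hm]; exact hl)
  have h4 : ({i, j, l} : Finset ι).card = 3 := by
    rw [card_insert_of_notMem (by simp [hij, hil]), card_pair hjl]
  rw [h4] at h1
  have h2 := ind_le h d1
  have h3 := ind_le h d2
  push_cast at h1
  linarith

lemma pp_lcm {p k x y : ℕ} (hp : p.Prime) (hx : x ≠ 0) (hy : y ≠ 0) (h : p ^ k ∣ Nat.lcm x y) :
    p ^ k ∣ x ∨ p ^ k ∣ y := by
  rw [hp.pow_dvd_iff_le_factorization (Nat.lcm_ne_zero hx hy), Nat.factorization_lcm hx hy] at h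
  rw [hp.pow_dvd_iff_le_factorization hx, hp.pow_dvd_iff_le_factorization hy]
  rw [Finsupp.sup_apply] at h
  exact le_sup_iff.1 h

lemma two_le_pp {p k : ℕ} (hp : p.Prime) (hk : k ≠ 0) : 2 ≤ p ^ k :=
  le_trans hp.two_le (Nat.le_self_pow hk p)

lemma dvd_of_pp {h n : ℕ} (H : ∀ p k : ℕ, p.Prime → k ≠ 0 → p ^ k ∣ h → p ^ k ∣ n) : h ∣ n := by
  rw [Nat.dvd_iff_prime_pow_dvd_dvd]
  intro p k hp hk
  rcases Nat.eq_zero_or_pos k with h0 | h0
  · rw [h0, pow_zero]; exact one_dvd n
  · exact H p k hp h0.ne' hk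

lemma exists_prime {h : ℕ} (hh : 2 ≤ h) : ∃ p, p.Prime ∧ p ∣ h :=
  Nat.exists_prime_and_dvd (by omega)

/-- two weights dividing the same degree, and a third weight -/
theorem triple (R : Reg a d1 d2) (ha : ∀ i, 0 < a i) (h1 : 0 < d1) (h2 : 0 < d2) {i j l : ι}
    (hij : i ≠ j) (hil : i ≠ l) (hjl : j ≠ l) (hi : a i ∣ d1) (hj : a j ∣ d1) (n : ℤ)
    (hn : ((d1 : ℤ) - 1) + (d2 - 1) - ∑ m, ((a m : ℤ) - 1) ≤ n) :
    ∃ u v w : ℕ, n = u * a i + v * a j + w * a l := by
  classical
  obtain ⟨O, hO⟩ : ∃ O : Finset ι, O = ((univ.erase i).erase j).erase l := ⟨_, rfl⟩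
  have hOm : ∀ m ∈ O, m ≠ i ∧ m ≠ j ∧ m ≠ l := by
    intro m hm
    rw [hO] at hm
    simp only [mem_erase] at hm
    exact ⟨hm.2.2.1, hm.2.1, hm.1⟩
  have hsum : ∀ f : ι → ℤ, ∑ m, f m = f i + f j + f l + ∑ m ∈ O, f m := by
    intro f
    rw [hO, ← Finset.add_sum_erase univ f (mem_univ i),
      ← Finset.add_sum_erase (univ.erase i) f (mem_erase.2 ⟨hij.symm, mem_univ j⟩),
      ← Finset.add_sum_erase ((univ.erase i).erase j) f
        (mem_erase.2 ⟨hjl.symm, mem_erase.2 ⟨hil.symm, mem_univ l⟩⟩)]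
    ring
  have hgcop : Nat.Coprime (Nat.gcd (a i) (a j)) (a l) := by
    rw [Nat.coprime_iff_gcd_eq_one]
    by_contra hne
    obtain ⟨p, hp, hpd⟩ := Nat.exists_prime_and_dvd hne
    have h3 := hpd.trans (Nat.gcd_dvd_left _ _)
    exact R.three hp.two_le hij hil hjl (h3.trans (Nat.gcd_dvd_left _ _))
      (h3.trans (Nat.gcd_dvd_right _ _)) (hpd.trans (Nat.gcd_dvd_right _ _))
  have hxd : Nat.lcm (a i) (a j) ∣ d1 := Nat.lcm_dvd hi hj
  have hai := ha i
  have haj := ha j
  have hal := ha l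
  have hmain := main_ineq O a (fun m _ => ha m) (Nat.lcm (a i) (a j))
    (Nat.gcd (a i) (a j) * a l) d1 d2 (Nat.lcm_pos hai haj)
    (Nat.mul_pos (Nat.gcd_pos_of_pos_left _ hai) hal) h1 h2 (by
    intro h hh
    have hR := R h hh
    rw [hsum] at hR
    have i1 := ind_nonneg h (a i)
    have i2 := ind_nonneg h (a j)
    have i3 := ind_nonneg h (a l)
    have j1 := ind_nonneg h d1
    have j2 := ind_nonneg h d2
    rw [sum_ind] at hR ⊢
    by_cases hx : h ∣ Nat.lcm (a i) (a j)
    · -- every prime power divides `a i` or `a j`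
      have hq : ∀ p k : ℕ, p.Prime → p ^ k ∣ h → p ^ k ∣ a i ∨ p ^ k ∣ a j := fun p k hp hk =>
        pp_lcm hp hai.ne' haj.ne' (hk.trans hx)
      have hq1 : ∀ p : ℕ, p.Prime → p ∣ h → p ∣ a i ∨ p ∣ a j := fun p hp hk => by
        have := hq p 1 hp (by rwa [pow_one])
        rwa [pow_one] at this
      rw [ind_of hx, ind_of (hx.trans hxd)]
      by_cases hy : h ∣ Nat.gcd (a i) (a j) * a l
      · have hqy : ∀ p k : ℕ, p.Prime → k ≠ 0 → p ^ k ∣ h →
            p ^ k ∣ Nat.gcd (a i) (a j) ∨ p ^ k ∣ a l := fun p k hp hk hkh =>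
          (hgcop.isPrimePow_dvd_mul (hp.isPrimePow.pow hk)).1 (hkh.trans hy)
        have hd2 : h ∣ d2 := by
          refine dvd_of_pp fun p k hp hk hkh => ?_
          rcases hqy p k hp hk hkh with h3 | h3
          · exact (R.two (two_le_pp hp hk) hij (h3.trans (Nat.gcd_dvd_left _ _))
              (h3.trans (Nat.gcd_dvd_right _ _))).2
          · rcases hq p k hp hkh with h4 | h4
            · exact (R.two (two_le_pp hp hk) hil h4 h3).2
            · exact (R.two (two_le_pp hp hk) hjl h4 h3).2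
        have hO0 : O.filter (fun m => h ∣ a m) = ∅ := by
          rw [Finset.filter_eq_empty_iff]
          intro m hm hdm
          obtain ⟨m1, m2, m3⟩ := hOm m hm
          obtain ⟨p, hp, hph⟩ := exists_prime hh
          rcases hqy p 1 hp one_ne_zero (by rwa [pow_one]) with h3 | h3
          · rw [pow_one] at h3
            exact R.three hp.two_le hij m1.symm m2.symm (h3.trans (Nat.gcd_dvd_left _ _))
              (h3.trans (Nat.gcd_dvd_right _ _)) (hph.trans hdm)
          · rw [pow_one] at h3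
            rcases hq1 p hp hph with h4 | h4
            · exact R.three hp.two_le hil m1.symm m3.symm h4 h3 (hph.trans hdm)
            · exact R.three hp.two_le hjl m2.symm m3.symm h4 h3 (hph.trans hdm)
        rw [ind_of hy, ind_of hd2, hO0, card_empty]
        norm_num
      · rw [ind_not hy]
        by_cases hO0 : O.filter (fun m => h ∣ a m) = ∅
        · rw [hO0, card_empty]
          push_cast
          linarith
        · obtain ⟨m, hm⟩ := Finset.nonempty_iff_ne_empty.2 hO0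
          rw [mem_filter] at hm
          obtain ⟨m1, m2, m3⟩ := hOm m hm.1
          have hd2 : h ∣ d2 := by
            refine dvd_of_pp fun p k hp hk hkh => ?_
            rcases hq p k hp hkh with h4 | h4
            · exact (R.two (two_le_pp hp hk) m1.symm h4 (hkh.trans hm.2)).2
            · exact (R.two (two_le_pp hp hk) m2.symm h4 (hkh.trans hm.2)).2
          have hc : (O.filter (fun m => h ∣ a m)).card ≤ 1 := by
            rw [Finset.card_le_one]
            intro x hx' y hy'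
            by_contra hxy
            rw [mem_filter] at hx' hy'
            obtain ⟨x1, x2, x3⟩ := hOm x hx'.1
            obtain ⟨y1, y2, y3⟩ := hOm y hy'.1
            obtain ⟨p, hp, hph⟩ := exists_prime hh
            rcases hq1 p hp hph with h4 | h4
            · exact R.three hp.two_le x1.symm y1.symm hxy h4 (hph.trans hx'.2) (hph.trans hy'.2)
            · exact R.three hp.two_le x2.symm y2.symm hxy h4 (hph.trans hx'.2) (hph.trans hy'.2)
          rw [ind_of hd2]
          have hc' : (((O.filter (fun m => h ∣ a m)).card : ℕ) : ℤ) ≤ 1 := by exact_mod_cast hc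
          linarith
    · rw [ind_not hx]
      by_cases hy : h ∣ Nat.gcd (a i) (a j) * a l
      · rw [ind_of hy]
        by_cases hO0 : O.filter (fun m => h ∣ a m) = ∅
        · rw [hO0, card_empty]
          have hg : Nat.gcd (a i) (a j) ∣ d1 ∧ Nat.gcd (a i) (a j) ∣ d2 := by
            rcases Nat.lt_or_ge (Nat.gcd (a i) (a j)) 2 with h3 | h3
            · have h4 : Nat.gcd (a i) (a j) = 1 := by
                have := Nat.gcd_pos_of_pos_left (a j) hai
                omega
              rw [h4]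
              exact ⟨one_dvd _, one_dvd _⟩
            · exact R.two h3 hij (Nat.gcd_dvd_left _ _) (Nat.gcd_dvd_right _ _)
          have hl : a l ∣ d1 ∨ a l ∣ d2 := by
            rcases Nat.lt_or_ge (a l) 2 with h3 | h3
            · have h4 : a l = 1 := by omega
              rw [h4]
              exact Or.inl (one_dvd _)
            · exact R.one h3 l dvd_rfl
          rcases hl with h3 | h3
          · rw [ind_of (hy.trans (hgcop.mul_dvd_of_dvd_of_dvd hg.1 h3))]
            push_cast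
            linarith
          · rw [ind_of (hy.trans (hgcop.mul_dvd_of_dvd_of_dvd hg.2 h3))]
            push_cast
            linarith
        · obtain ⟨m, hm⟩ := Finset.nonempty_iff_ne_empty.2 hO0
          rw [mem_filter] at hm
          obtain ⟨m1, m2, m3⟩ := hOm m hm.1
          have hl : h ∣ a l := by
            refine dvd_of_pp fun p k hp hk hkh => ?_
            rcases (hgcop.isPrimePow_dvd_mul (hp.isPrimePow.pow hk)).1 (hkh.trans hy) with h3 | h3
            · exact (R.three (two_le_pp hp hk) hij m1.symm m2.symm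
                (h3.trans (Nat.gcd_dvd_left _ _)) (h3.trans (Nat.gcd_dvd_right _ _))
                (hkh.trans hm.2)).elim
            · exact h3
          rw [ind_of hl] at hR
          linarith
      · rw [ind_not hy]
        linarith)
  apply three (a i) (a j) (a l) hai haj hal hgcop n
  rw [hsum] at hn
  push_cast at hmain hn ⊢
  linarith

/-- two coprime weights dividing the same degree -/
theorem same (R : Reg a d1 d2) (ha : ∀ i, 0 < a i) (h1 : 0 < d1) (h2 : 0 < d2) {i j : ι}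
    (hij : i ≠ j) (hcop : Nat.Coprime (a i) (a j)) (hi : a i ∣ d1) (hj : a j ∣ d1) (n : ℤ)
    (hn : ((d1 : ℤ) - 1) + (d2 - 1) - ∑ m, ((a m : ℤ) - 1) ≤ n) :
    ∃ u v : ℕ, n = u * a i + v * a j := by
  classical
  obtain ⟨O, hO⟩ : ∃ O : Finset ι, O = (univ.erase i).erase j := ⟨_, rfl⟩
  have hOm : ∀ m ∈ O, m ≠ i ∧ m ≠ j := by
    intro m hm
    rw [hO] at hm
    simp only [mem_erase] at hm
    exact ⟨hm.2.1, hm.1⟩
  have hsum : ∀ f : ι → ℤ, ∑ m, f m = f i + f j + ∑ m ∈ O, f m := by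
    intro f
    rw [hO, ← Finset.add_sum_erase univ f (mem_univ i),
      ← Finset.add_sum_erase (univ.erase i) f (mem_erase.2 ⟨hij.symm, mem_univ j⟩)]
    ring
  have hai := ha i
  have haj := ha j
  have hmain := main_ineq O a (fun m _ => ha m) (a i * a j) 1 d1 d2 (Nat.mul_pos hai haj)
    one_pos h1 h2 (by
    intro h hh
    have hR := R h hh
    rw [hsum] at hR
    have i1 := ind_nonneg h (a i)
    have i2 := ind_nonneg h (a j)
    have j1 := ind_nonneg h d1
    have j2 := ind_nonneg h d2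
    have k1 : ind h 1 = 0 := ind_not (fun h3 => by
      have := Nat.le_of_dvd one_pos h3
      omega)
    rw [k1]
    rw [sum_ind] at hR ⊢
    by_cases hx : h ∣ a i * a j
    · have hq : ∀ p k : ℕ, p.Prime → k ≠ 0 → p ^ k ∣ h → p ^ k ∣ a i ∨ p ^ k ∣ a j :=
        fun p k hp hk hkh => (hcop.isPrimePow_dvd_mul (hp.isPrimePow.pow hk)).1 (hkh.trans hx)
      rw [ind_of hx, ind_of (hx.trans (hcop.mul_dvd_of_dvd_of_dvd hi hj))]
      by_cases hO0 : O.filter (fun m => h ∣ a m) = ∅
      · rw [hO0, card_empty]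
        push_cast
        linarith
      · obtain ⟨m, hm⟩ := Finset.nonempty_iff_ne_empty.2 hO0
        rw [mem_filter] at hm
        obtain ⟨m1, m2⟩ := hOm m hm.1
        have hd2 : h ∣ d2 := by
          refine dvd_of_pp fun p k hp hk hkh => ?_
          rcases hq p k hp hk hkh with h4 | h4
          · exact (R.two (two_le_pp hp hk) m1.symm h4 (hkh.trans hm.2)).2
          · exact (R.two (two_le_pp hp hk) m2.symm h4 (hkh.trans hm.2)).2
        have hc : (O.filter (fun m => h ∣ a m)).card ≤ 1 := by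
          rw [Finset.card_le_one]
          intro x hx' y hy'
          by_contra hxy
          rw [mem_filter] at hx' hy'
          obtain ⟨x1, x2⟩ := hOm x hx'.1
          obtain ⟨y1, y2⟩ := hOm y hy'.1
          obtain ⟨p, hp, hph⟩ := exists_prime hh
          rcases hq p 1 hp one_ne_zero (by rwa [pow_one]) with h4 | h4
          · rw [pow_one] at h4
            exact R.three hp.two_le x1.symm y1.symm hxy h4 (hph.trans hx'.2) (hph.trans hy'.2)
          · rw [pow_one] at h4
            exact R.three hp.two_le x2.symm y2.symm hxy h4 (hph.trans hx'.2) (hph.trans hy'.2)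
        rw [ind_of hd2]
        have hc' : (((O.filter (fun m => h ∣ a m)).card : ℕ) : ℤ) ≤ 1 := by exact_mod_cast hc
        linarith
    · rw [ind_not hx]
      linarith)
  apply WF.two (a i) (a j) hai haj hcop n
  rw [hsum] at hn
  push_cast at hmain hn ⊢
  linarith

/-- division by a prime whose power does not divide `h` -/
lemma dvd_div {p k h d : ℕ} (hp : p.Prime) (hd : p ^ k ∣ d) (hk : k ≠ 0) (hh : ¬ p ^ k ∣ h)
    (hhd : h ∣ d) : h ∣ d / p := by
  have hpd : p ∣ d := (dvd_pow_self p hk).trans hd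
  obtain ⟨e, rfl⟩ := hpd
  rw [Nat.mul_div_cancel_left _ hp.pos]
  refine dvd_of_pp fun r s hr hs hrs => ?_
  by_cases hrp : r = p
  · subst hrp
    have h1 : s < k := by
      by_contra h2
      exact hh ((pow_dvd_pow r (not_lt.1 h2)).trans hrs)
    have h2 : r ^ (s + 1) ∣ r * e := (pow_dvd_pow r h1).trans hd
    rw [pow_succ'] at h2
    exact Nat.dvd_of_mul_dvd_mul_left hr.pos h2
  · have hcop : Nat.Coprime (r ^ s) p :=
      Nat.Coprime.pow_left s ((Nat.coprime_primes hr hp).2 hrp)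
    exact hcop.dvd_of_dvd_mul_left (hrs.trans hhd)

/-- two coprime weights dividing different degrees -/
theorem different (R : Reg a d1 d2) (ha : ∀ i, 0 < a i) (h1 : 0 < d1) (h2 : 0 < d2) {i j : ι}
    (hij : i ≠ j) (hcop : Nat.Coprime (a i) (a j)) (hi : a i ∣ d1) (hi' : ¬ a i ∣ d2)
    (hj : a j ∣ d2) (hj' : ¬ a j ∣ d1) (hd1 : a i * a j ≤ d1) (hd2 : a i * a j ≤ d2) (n : ℤ)
    (hn : ((d1 : ℤ) - 1) + (d2 - 1) - ∑ m, ((a m : ℤ) - 1) ≤ n) :
    ∃ u v : ℕ, n = u * a i + v * a j := by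
  classical
  obtain ⟨O, hO⟩ : ∃ O : Finset ι, O = (univ.erase i).erase j := ⟨_, rfl⟩
  have hOm : ∀ m ∈ O, m ≠ i ∧ m ≠ j := by
    intro m hm
    rw [hO] at hm
    simp only [mem_erase] at hm
    exact ⟨hm.2.1, hm.1⟩
  have hsum : ∀ f : ι → ℤ, ∑ m, f m = f i + f j + ∑ m ∈ O, f m := by
    intro f
    rw [hO, ← Finset.add_sum_erase univ f (mem_univ i),
      ← Finset.add_sum_erase (univ.erase i) f (mem_erase.2 ⟨hij.symm, mem_univ j⟩)]
    ring
  have hai := ha i
  have haj := ha j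
  -- the primes
  obtain ⟨p, α, hp, hα, hα2⟩ : ∃ p α : ℕ, p.Prime ∧ p ^ α ∣ a i ∧ ¬ p ^ α ∣ d2 := by
    by_contra hcon
    push Not at hcon
    exact hi' ((Nat.dvd_iff_prime_pow_dvd_dvd _ _).2 fun p k hp hk => hcon p k hp hk)
  obtain ⟨r, β, hr, hβ, hβ1⟩ : ∃ r β : ℕ, r.Prime ∧ r ^ β ∣ a j ∧ ¬ r ^ β ∣ d1 := by
    by_contra hcon
    push Not at hcon
    exact hj' ((Nat.dvd_iff_prime_pow_dvd_dvd _ _).2 fun p k hp hk => hcon p k hp hk)
  have hα0 : α ≠ 0 := by
    rintro rfl
    exact hα2 (by rw [pow_zero]; exact one_dvd _)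
  have hβ0 : β ≠ 0 := by
    rintro rfl
    exact hβ1 (by rw [pow_zero]; exact one_dvd _)
  have hpd1 : p ∣ d1 := (dvd_pow_self p hα0).trans (hα.trans hi)
  have hrd2 : r ∣ d2 := (dvd_pow_self r hβ0).trans (hβ.trans hj)
  have hp2 := hp.two_le
  have hr2 := hr.two_le
  have hmain := main_ineq O a (fun m _ => ha m) 1 1 (d1 / p) (d2 / r) one_pos one_pos
    (Nat.div_pos (Nat.le_of_dvd h1 hpd1) hp.pos) (Nat.div_pos (Nat.le_of_dvd h2 hrd2) hr.pos) (by
    intro h hh
    have hR := R h hh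
    rw [hsum] at hR
    have i1 := ind_nonneg h (a i)
    have i2 := ind_nonneg h (a j)
    have j1 := ind_nonneg h (d1 / p)
    have j2 := ind_nonneg h (d2 / r)
    have k1 : ind h 1 = 0 := ind_not (fun h3 => by
      have := Nat.le_of_dvd one_pos h3
      omega)
    rw [k1]
    rw [sum_ind] at hR ⊢
    by_cases hO0 : O.filter (fun m => h ∣ a m) = ∅
    · rw [hO0, card_empty]
      push_cast
      linarith
    · obtain ⟨m, hm⟩ := Finset.nonempty_iff_ne_empty.2 hO0
      rw [mem_filter] at hm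
      obtain ⟨m1, m2⟩ := hOm m hm.1
      have hph : ¬ p ^ α ∣ h := fun h3 =>
        hα2 (R.two (two_le_pp hp hα0) m1.symm hα (h3.trans hm.2)).2
      have hrh : ¬ r ^ β ∣ h := fun h3 =>
        hβ1 (R.two (two_le_pp hr hβ0) m2.symm hβ (h3.trans hm.2)).1
      have e1 : ind h d1 ≤ ind h (d1 / p) := by
        by_cases h3 : h ∣ d1
        · rw [ind_of h3, ind_of (dvd_div hp (hα.trans hi) hα0 hph h3)]
        · rw [ind_not h3]; exact j1
      have e2 : ind h d2 ≤ ind h (d2 / r) := by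
        by_cases h3 : h ∣ d2
        · rw [ind_of h3, ind_of (dvd_div hr (hβ.trans hj) hβ0 hrh h3)]
        · rw [ind_not h3]; exact j2
      linarith)
  apply WF.two (a i) (a j) hai haj hcop n
  rw [hsum] at hn
  have hq1 : 2 * (d1 / p) ≤ d1 := (Nat.mul_le_mul_right _ hp2).trans (Nat.mul_div_le _ _)
  have hq2 : 2 * (d2 / r) ≤ d2 := (Nat.mul_le_mul_right _ hr2).trans (Nat.mul_div_le _ _)
  have z1 : 2 * ((d1 / p : ℕ) : ℤ) ≤ d1 := by exact_mod_cast hq1
  have z2 : 2 * ((d2 / r : ℕ) : ℤ) ≤ d2 := by exact_mod_cast hq2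
  have z3 : ((a i : ℤ) * a j) ≤ d1 := by exact_mod_cast hd1
  have z4 : ((a i : ℤ) * a j) ≤ d2 := by exact_mod_cast hd2
  have z5 : (1 : ℤ) ≤ a i := by exact_mod_cast hai
  have z6 : (1 : ℤ) ≤ a j := by exact_mod_cast haj
  have hm' : ∑ m ∈ O, ((a m : ℤ) - 1) ≤ (((d1 / p : ℕ) : ℤ) - 1) + (((d2 / r : ℕ) : ℤ) - 1) := by
    have := hmain
    push_cast at this ⊢
    linarith
  nlinarith

/-- three weights -/
theorem rep3 (R : Reg a d1 d2) (ha : ∀ i, 0 < a i) (h1 : 0 < d1) (h2 : 0 < d2) {i j l : ι}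
    (hij : i ≠ j) (hil : i ≠ l) (hjl : j ≠ l) (n : ℤ)
    (hn : ((d1 : ℤ) - 1) + (d2 - 1) - ∑ m, ((a m : ℤ) - 1) ≤ n) :
    ∃ u v w : ℕ, n = u * a i + v * a j + w * a l := by
  have hdv : ∀ m, a m ∣ d1 ∨ a m ∣ d2 := by
    intro m
    rcases Nat.lt_or_ge (a m) 2 with h3 | h3
    · have h4 : a m = 1 := by have := ha m; omega
      rw [h4]
      exact Or.inl (one_dvd _)
    · exact R.one h3 m dvd_rfl
  have hn' : ((d2 : ℤ) - 1) + (d1 - 1) - ∑ m, ((a m : ℤ) - 1) ≤ n := by linarith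
  have key : ∀ x y z : ι, x ≠ y → x ≠ z → y ≠ z → ((a x ∣ d1 ∧ a y ∣ d1) ∨ (a x ∣ d2 ∧ a y ∣ d2)) →
      ∃ u v w : ℕ, n = u * a x + v * a y + w * a z := by
    intro x y z hxy hxz hyz hh
    rcases hh with hh | hh
    · exact triple R ha h1 h2 hxy hxz hyz hh.1 hh.2 n hn
    · exact triple R.swap ha h2 h1 hxy hxz hyz hh.1 hh.2 n hn'
  rcases hdv i with hi | hi <;> rcases hdv j with hj | hj <;> rcases hdv l with hl | hl
  · exact key i j l hij hil hjl (Or.inl ⟨hi, hj⟩)
  · exact key i j l hij hil hjl (Or.inl ⟨hi, hj⟩)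
  · obtain ⟨u, v, w, h⟩ := key i l j hil hij hjl.symm (Or.inl ⟨hi, hl⟩)
    exact ⟨u, w, v, by rw [h]; ring⟩
  · obtain ⟨u, v, w, h⟩ := key j l i hjl hij.symm hil.symm (Or.inr ⟨hj, hl⟩)
    exact ⟨w, u, v, by rw [h]; ring⟩
  · obtain ⟨u, v, w, h⟩ := key j l i hjl hij.symm hil.symm (Or.inl ⟨hj, hl⟩)
    exact ⟨w, u, v, by rw [h]; ring⟩
  · obtain ⟨u, v, w, h⟩ := key i l j hil hij hjl.symm (Or.inr ⟨hi, hl⟩)
    exact ⟨u, w, v, by rw [h]; ring⟩
  · exact key i j l hij hil hjl (Or.inr ⟨hi, hj⟩)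
  · exact key i j l hij hil hjl (Or.inr ⟨hi, hj⟩)

end Pool.Agent.Q86.WF
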