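import Pool.Agent.Q86.WF2
import Pool.Agent.H552R3.Tsen.Zero

/-!
# Base points of sheaves on weighted complete intersections of codimension two
-/

set_option autoImplicit false

namespace Pool.Agent.Q86.WF

open Finset MvPolynomial

variable {n : ℕ} {a : Fin n → ℕ}

lemma weight_eq {f : MvPolynomial (Fin n) ℂ} {d : ℕ} (hf : IsWeightedHomogeneous a f d)
    {m : Fin n →₀ ℕ} (hm : m ∈ f.support) : ∑ i, m i * a i = d := by
  have h1 := hf (mem_support_iff.1 hm)
  rw [Finsupp.weight_apply, Finsupp.sum_fintype _ _ (fun i => by simp)] at h1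
  simpa using h1

/-- forms of degree not divisible by `h` vanish on the stratum -/
lemma vanish {f : MvPolynomial (Fin n) ℂ} {d h : ℕ} (hf : IsWeightedHomogeneous a f d)
    (hd : ¬ h ∣ d) (v : Fin n → ℂ) (hv : ∀ i, v i ≠ 0 → h ∣ a i) : eval v f = 0 := by
  rw [eval_eq']
  refine Finset.sum_eq_zero fun m hm => ?_
  have h1 := weight_eq hf hm
  obtain ⟨i, hi1, hi2⟩ : ∃ i, m i ≠ 0 ∧ v i = 0 := by
    by_contra hcon
    push Not at hcon
    apply hd
    rw [← h1]
    refine Finset.dvd_sum fun i _ => ?_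
    by_cases h0 : m i = 0
    · rw [h0, zero_mul]; exact dvd_zero _
    · exact dvd_mul_of_dvd_right (hv i (hcon i h0)) _
  rw [Finset.prod_eq_zero (mem_univ i) (by rw [hi2, zero_pow hi1]), mul_zero]

lemma eval_zero' {f : MvPolynomial (Fin n) ℂ} {d : ℕ} (hf : IsWeightedHomogeneous a f d)
    (hd : 0 < d) : eval (0 : Fin n → ℂ) f = 0 :=
  vanish (h := d + 1) hf (fun h => by
    have := Nat.le_of_dvd hd h
    omega) 0 (fun i hi => (hi rfl).elim)

/-- **The pair is regular** if `O(1)` is invertible. -/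
theorem regular {d1 d2 : ℕ} (h1 : 0 < d1) (h2 : 0 < d2) {f1 f2 : MvPolynomial (Fin n) ℂ}
    (hf1 : IsWeightedHomogeneous a f1 d1) (hf2 : IsWeightedHomogeneous a f2 d2)
    (hgcd : ∀ v : Fin n → ℂ, v ≠ 0 → eval v f1 = 0 → eval v f2 = 0 →
      ∀ g : ℕ, (∀ i, v i ≠ 0 → g ∣ a i) → g = 1) : Reg a d1 d2 := by
  classical
  intro h hh
  by_contra hcon
  push Not at hcon
  obtain ⟨K, hK⟩ : ∃ K : Finset (Fin n), K = univ.filter fun i => h ∣ a i := ⟨_, rfl⟩
  rw [sum_ind, ← hK] at hcon
  let dd : Fin 2 → ℕ := ![d1, d2]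
  let ff : Fin 2 → MvPolynomial (Fin n) ℂ := ![f1, f2]
  have hdd : ∀ j, 0 < dd j := by
    intro j
    fin_cases j
    · exact h1
    · exact h2
  have hff : ∀ j, IsWeightedHomogeneous a (ff j) (dd j) := by
    intro j
    fin_cases j
    · exact hf1
    · exact hf2
  let θ : MvPolynomial (Fin n) ℂ →ₐ[ℂ] MvPolynomial {i // i ∈ K} ℂ :=
    aeval fun i => if hi : i ∈ K then X ⟨i, hi⟩ else 0
  let ext : ({i // i ∈ K} → ℂ) → Fin n → ℂ := fun v i => if hi : i ∈ K then v ⟨i, hi⟩ else 0
  have hθ : ∀ (v : {i // i ∈ K} → ℂ) (f : MvPolynomial (Fin n) ℂ), eval v (θ f) = eval (ext v) f := by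
    intro v f
    have : (eval v).comp (θ : MvPolynomial (Fin n) ℂ →+* _) = eval (ext v) := by
      apply MvPolynomial.ringHom_ext
      · intro r
        change eval v (θ (C r)) = _
        rw [← MvPolynomial.algebraMap_eq, AlgHom.commutes]
        simp
      · intro i
        change eval v (θ (X i)) = _
        rw [aeval_X, eval_X]
        change eval v (if hi : i ∈ K then X ⟨i, hi⟩ else 0) = if hi : i ∈ K then v ⟨i, hi⟩ else 0
        split
        · rw [eval_X]
        · rw [map_zero]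
    exact congrArg (fun φ : MvPolynomial (Fin n) ℂ →+* ℂ => φ f) this
  have hcard : Fintype.card {j : Fin 2 // h ∣ dd j} < Fintype.card {i // i ∈ K} := by
    rw [Fintype.card_subtype, Fintype.card_coe]
    have h3 : (((univ.filter fun j : Fin 2 => h ∣ dd j).card : ℕ) : ℤ) = ind h d1 + ind h d2 := by
      rw [← sum_ind (ι := Fin 2) (a := dd) univ h, Fin.sum_univ_two]
      rfl
    rw [← h3] at hcon
    exact_mod_cast hcon
  obtain ⟨v, hv0, hv⟩ := Pool.Agent.H552R3.Tsen.exists_common_zero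
    (fun j : {j : Fin 2 // h ∣ dd j} => θ (ff j.1)) (by
      intro j
      rw [hθ]
      have : ext 0 = 0 := by
        funext i
        change (if hi : i ∈ K then (0 : {i // i ∈ K} → ℂ) ⟨i, hi⟩ else 0) = 0
        split <;> rfl
      rw [this]
      exact eval_zero' (hff j.1) (hdd j.1)) hcard
  have hsupp : ∀ i, ext v i ≠ 0 → h ∣ a i := by
    intro i hi
    by_cases hiK : i ∈ K
    · rw [hK, mem_filter] at hiK
      exact hiK.2
    · exact (hi (dif_neg hiK)).elim
  have hz : ∀ j, eval (ext v) (ff j) = 0 := by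
    intro j
    by_cases hj : h ∣ dd j
    · rw [← hθ]
      exact hv ⟨j, hj⟩
    · exact vanish (hff j) hj _ hsupp
  have hne : ext v ≠ 0 := by
    intro h0
    apply hv0
    funext i
    have h3 := congrFun h0 i.1
    change (if hi : i.1 ∈ K then v ⟨i.1, hi⟩ else 0) = 0 at h3
    rw [dif_pos i.2] at h3
    exact h3
  have := hgcd (ext v) hne (hz 0) (hz 1) h hsupp
  omega

/-- the value at the vertex -/
lemma vertex {f : MvPolynomial (Fin n) ℂ} {d : ℕ} (hf : IsWeightedHomogeneous a f d) {i j : Fin n}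
    (hij : i ≠ j) (haj : 0 < a j) (hcop : Nat.Coprime (a i) (a j)) (hi : a i ∣ d) (hlt : d < a i * a j)
    (v : Fin n → ℂ) (hv : ∀ l, v l ≠ 0 → l = i ∨ l = j) :
    eval (Pi.single i (v i)) f = eval v f := by
  classical
  rw [eval_eq', eval_eq']
  refine Finset.sum_congr rfl fun m hm => ?_
  congr 1
  have hw := weight_eq hf hm
  by_cases hex : ∃ l, l ≠ i ∧ l ≠ j ∧ m l ≠ 0
  · obtain ⟨l, hli, hlj, hl⟩ := hex
    have h1 : v l = 0 := by
      by_contra h0
      rcases hv l h0 with h | h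
      · exact hli h
      · exact hlj h
    rw [Finset.prod_eq_zero (mem_univ l) (by rw [Pi.single_eq_of_ne hli, zero_pow hl]),
      Finset.prod_eq_zero (mem_univ l) (by rw [h1, zero_pow hl])]
  · push Not at hex
    have hsum : m i * a i + m j * a j = d := by
      rw [← hw, ← Finset.add_sum_erase univ _ (mem_univ i),
        ← Finset.add_sum_erase (univ.erase i) _ (mem_erase.2 ⟨hij.symm, mem_univ j⟩)]
      have h0 : ∑ l ∈ (univ.erase i).erase j, m l * a l = 0 := by
        refine Finset.sum_eq_zero fun l hl => ?_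
        simp only [mem_erase] at hl
        rw [hex l hl.2.1 hl.1, zero_mul]
      rw [h0, add_zero]
    have hmj : m j = 0 := by
      by_contra hne
      have h1 : a i ∣ m j * a j := by
        have h2 : a i ∣ m i * a i := dvd_mul_left _ _
        rw [← hsum] at hi
        exact (Nat.dvd_add_right h2).1 hi
      have h2 : a i ∣ m j := hcop.dvd_of_dvd_mul_right h1
      have h3 := Nat.le_of_dvd (Nat.pos_of_ne_zero hne) h2
      have h4 : a i * a j ≤ m j * a j := Nat.mul_le_mul_right _ h3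
      omega
    refine Finset.prod_congr rfl fun l _ => ?_
    by_cases hl : l = i
    · subst hl
      rw [Pi.single_eq_same]
    · have : m l = 0 := by
        by_cases hlj : l = j
        · rw [hlj]; exact hmj
        · exact hex l hl hlj
      rw [this, pow_zero, pow_zero]

lemma mono_section {α : Fin n → ℕ} {e : ℕ} (hα : ∑ i, α i * a i = e) (v : Fin n → ℂ)
    (hv : ∀ i, α i ≠ 0 → v i ≠ 0) :
    ∃ s : MvPolynomial (Fin n) ℂ, IsWeightedHomogeneous a s e ∧ eval v s ≠ 0 := by
  classical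
  refine ⟨monomial (Finsupp.equivFunOnFinite.symm α) 1, ?_, ?_⟩
  · refine isWeightedHomogeneous_monomial _ _ _ ?_
    rw [Finsupp.weight_apply, Finsupp.sum_fintype _ _ (fun i => by simp)]
    simpa using hα
  · rw [eval_monomial, one_mul, Finsupp.prod_fintype _ _ (fun i => by simp)]
    refine Finset.prod_ne_zero_iff.2 fun i _ => ?_
    by_cases h0 : α i = 0
    · have : (Finsupp.equivFunOnFinite.symm α) i = 0 := h0
      rw [this, pow_zero]
      exact one_ne_zero
    · exact pow_ne_zero _ (hv i h0)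

/-- **No base points.** -/
theorem freeness (ha : ∀ i, 0 < a i) {d1 d2 : ℕ} (h1 : 0 < d1) (h2 : 0 < d2)
    {f1 f2 : MvPolynomial (Fin n) ℂ}
    (hf1 : IsWeightedHomogeneous a f1 d1) (hf2 : IsWeightedHomogeneous a f2 d2)
    (hgcd : ∀ v : Fin n → ℂ, v ≠ 0 → eval v f1 = 0 → eval v f2 = 0 →
      ∀ g : ℕ, (∀ i, v i ≠ 0 → g ∣ a i) → g = 1) (e : ℕ)
    (he : d1 + d2 + n ≤ e + ∑ i, a i + 2) (v : Fin n → ℂ) (hv0 : v ≠ 0) (hv1 : eval v f1 = 0)
    (hv2 : eval v f2 = 0) :
    ∃ s : MvPolynomial (Fin n) ℂ, IsWeightedHomogeneous a s e ∧ eval v s ≠ 0 := by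
  classical
  have R := regular h1 h2 hf1 hf2 hgcd
  have hn : ((d1 : ℤ) - 1) + (d2 - 1) - ∑ m, ((a m : ℤ) - 1) ≤ e := by
    rw [Finset.sum_sub_distrib]
    simp only [Finset.sum_const, Finset.card_univ, Fintype.card_fin, nsmul_eq_mul, mul_one]
    have : ((d1 + d2 + n : ℕ) : ℤ) ≤ ((e + ∑ i, a i + 2 : ℕ) : ℤ) := by exact_mod_cast he
    push_cast at this
    linarith
  have hn' : ((d2 : ℤ) - 1) + (d1 - 1) - ∑ m, ((a m : ℤ) - 1) ≤ e := by linarith
  obtain ⟨i, hi⟩ : ∃ i, v i ≠ 0 := by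
    by_contra hcon
    push Not at hcon
    exact hv0 (funext hcon)
  by_cases hone : ∃ l, v l ≠ 0 ∧ a l = 1
  · obtain ⟨l, hl, hal⟩ := hone
    refine mono_section (α := Pi.single l e) ?_ v ?_
    · rw [Finset.sum_eq_single l, Pi.single_eq_same, hal, mul_one]
      · intro b _ hb
        rw [Pi.single_eq_of_ne hb, zero_mul]
      · intro h; exact (h (mem_univ _)).elim
    · intro m hm
      by_cases hml : m = l
      · rw [hml]; exact hl
      · rw [Pi.single_eq_of_ne hml] at hm
        exact (hm rfl).elim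
  push Not at hone
  obtain ⟨j, hj, hji⟩ : ∃ j, v j ≠ 0 ∧ j ≠ i := by
    by_contra hcon
    push Not at hcon
    refine hone i hi (hgcd v hv0 hv1 hv2 (a i) fun m hm => ?_)
    rw [hcon m hm]
  -- sections from two coordinates
  have two' : ∀ x y : Fin n, x ≠ y → v x ≠ 0 → v y ≠ 0 → (∃ u w : ℕ, (e : ℤ) = u * a x + w * a y) →
      ∃ s : MvPolynomial (Fin n) ℂ, IsWeightedHomogeneous a s e ∧ eval v s ≠ 0 := by
    rintro x y hxy hx hy ⟨u, w, huw⟩
    refine mono_section (α := Pi.single x u + Pi.single y w) ?_ v ?_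
    · have h3 : ∑ l, (Pi.single x u + Pi.single y w : Fin n → ℕ) l * a l = u * a x + w * a y := by
        simp only [Pi.add_apply, add_mul, Finset.sum_add_distrib]
        rw [Finset.sum_eq_single x, Finset.sum_eq_single y, Pi.single_eq_same, Pi.single_eq_same]
        · intro b _ hb
          rw [Pi.single_eq_of_ne hb, zero_mul]
        · intro h; exact (h (mem_univ _)).elim
        · intro b _ hb
          rw [Pi.single_eq_of_ne hb, zero_mul]
        · intro h; exact (h (mem_univ _)).elim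
      rw [h3]
      exact_mod_cast huw.symm
    · intro m hm
      by_cases hmx : m = x
      · rw [hmx]; exact hx
      · by_cases hmy : m = y
        · rw [hmy]; exact hy
        · rw [Pi.add_apply, Pi.single_eq_of_ne hmx, Pi.single_eq_of_ne hmy] at hm
          exact (hm rfl).elim
  by_cases hthird : ∃ l, v l ≠ 0 ∧ l ≠ i ∧ l ≠ j
  · obtain ⟨l, hl, hli, hlj⟩ := hthird
    obtain ⟨u, w, z, huwz⟩ := rep3 R ha h1 h2 hji.symm hli.symm hlj.symm e hn
    refine mono_section (α := Pi.single i u + (Pi.single j w + Pi.single l z)) ?_ v ?_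
    · have h3 : ∑ m, (Pi.single i u + (Pi.single j w + Pi.single l z) : Fin n → ℕ) m * a m =
          u * a i + (w * a j + z * a l) := by
        simp only [Pi.add_apply, add_mul, Finset.sum_add_distrib]
        rw [Finset.sum_eq_single i, Finset.sum_eq_single j, Finset.sum_eq_single l,
          Pi.single_eq_same, Pi.single_eq_same, Pi.single_eq_same]
        · intro b _ hb
          rw [Pi.single_eq_of_ne hb, zero_mul]
        · intro h; exact (h (mem_univ _)).elim
        · intro b _ hb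
          rw [Pi.single_eq_of_ne hb, zero_mul]
        · intro h; exact (h (mem_univ _)).elim
        · intro b _ hb
          rw [Pi.single_eq_of_ne hb, zero_mul]
        · intro h; exact (h (mem_univ _)).elim
      rw [h3]
      have : (e : ℤ) = ((u * a i + (w * a j + z * a l) : ℕ) : ℤ) := by
        push_cast
        linarith
      exact_mod_cast this.symm
    · intro m hm
      by_cases hmi : m = i
      · rw [hmi]; exact hi
      · by_cases hmj : m = j
        · rw [hmj]; exact hj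
        · by_cases hml : m = l
          · rw [hml]; exact hl
          · rw [Pi.add_apply, Pi.add_apply, Pi.single_eq_of_ne hmi, Pi.single_eq_of_ne hmj,
              Pi.single_eq_of_ne hml] at hm
            exact (hm rfl).elim
  push Not at hthird
  have hsupp : ∀ l, v l ≠ 0 → l = i ∨ l = j := by
    intro l hl
    by_cases hli : l = i
    · exact Or.inl hli
    · exact Or.inr (hthird l hl hli)
  have hcop : Nat.Coprime (a i) (a j) := by
    refine hgcd v hv0 hv1 hv2 (Nat.gcd (a i) (a j)) fun l hl => ?_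
    rcases hsupp l hl with h | h
    · rw [h]; exact Nat.gcd_dvd_left _ _
    · rw [h]; exact Nat.gcd_dvd_right _ _
  have hdv : ∀ m, v m ≠ 0 → a m ∣ d1 ∨ a m ∣ d2 := by
    intro m hm
    have h3 := hone m hm
    have h4 := ha m
    exact R.one (by omega) m dvd_rfl
  -- the vertices
  have hvert : ∀ x y : Fin n, x ≠ y → v x ≠ 0 → v y ≠ 0 → Nat.Coprime (a x) (a y) →
      (∀ l, v l ≠ 0 → l = x ∨ l = y) → ∀ (c1 c2 : ℕ) (g1 g2 : MvPolynomial (Fin n) ℂ),
      IsWeightedHomogeneous a g1 c1 → IsWeightedHomogeneous a g2 c2 → eval v g1 = 0 →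
      (∀ w, w ≠ 0 → eval w g1 = 0 → eval w g2 = 0 → ∀ g : ℕ, (∀ i, w i ≠ 0 → g ∣ a i) → g = 1) →
      a x ∣ c1 → ¬ a x ∣ c2 → a x * a y ≤ c1 := by
    intro x y hxy hx hy hc hs c1 c2 g1 g2 hg1 hg2 hz hgc hx1 hx2
    by_contra hlt
    push Not at hlt
    have h3 := vertex hg1 hxy (ha y) hc hx1 hlt v hs
    rw [hz] at h3
    have hs' : ∀ l, (Pi.single x (v x) : Fin n → ℂ) l ≠ 0 → a x ∣ a l := by
      intro l hl
      by_cases hlx : l = x
      · rw [hlx]
      · rw [Pi.single_eq_of_ne hlx] at hl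
        exact (hl rfl).elim
    have h4 := vanish hg2 hx2 (Pi.single x (v x)) hs'
    exact hone x hx (hgc _ (fun h0 => hx (by
      have := congrFun h0 x
      rwa [Pi.single_eq_same] at this)) h3 h4 (a x) hs')
  have hgcd' : ∀ w : Fin n → ℂ, w ≠ 0 → eval w f2 = 0 → eval w f1 = 0 →
      ∀ g : ℕ, (∀ i, w i ≠ 0 → g ∣ a i) → g = 1 := fun w h3 h4 h5 => hgcd w h3 h5 h4
  have hsupp' : ∀ l, v l ≠ 0 → l = j ∨ l = i := fun l hl => (hsupp l hl).symm
  by_cases hA : a i ∣ d1 ∧ a j ∣ d1
  · exact two' i j hji.symm hi hj (same R ha h1 h2 hji.symm hcop hA.1 hA.2 e hn)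
  by_cases hB : a i ∣ d2 ∧ a j ∣ d2
  · exact two' i j hji.symm hi hj (same R.swap ha h2 h1 hji.symm hcop hB.1 hB.2 e hn')
  rcases hdv i hi with hi1 | hi1
  · have hj1 : ¬ a j ∣ d1 := fun h => hA ⟨hi1, h⟩
    have hj2 : a j ∣ d2 := (hdv j hj).resolve_left hj1
    have hi2 : ¬ a i ∣ d2 := fun h => hB ⟨h, hj2⟩
    have e1 := hvert i j hji.symm hi hj hcop hsupp d1 d2 f1 f2 hf1 hf2 hv1 hgcd hi1 hi2
    have e2 := hvert j i hji hj hi hcop.symm hsupp' d2 d1 f2 f1 hf2 hf1 hv2 hgcd' hj2 hj1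
    rw [mul_comm] at e2
    exact two' i j hji.symm hi hj (different R ha h1 h2 hji.symm hcop hi1 hi2 hj2 hj1 e1 e2 e hn)
  · have hj2 : ¬ a j ∣ d2 := fun h => hB ⟨hi1, h⟩
    have hj1 : a j ∣ d1 := (hdv j hj).resolve_right hj2
    have hi2 : ¬ a i ∣ d1 := fun h => hA ⟨h, hj1⟩
    have e1 := hvert i j hji.symm hi hj hcop hsupp d2 d1 f2 f1 hf2 hf1 hv2 hgcd' hi1 hi2
    have e2 := hvert j i hji hj hi hcop.symm hsupp' d1 d2 f1 f2 hf1 hf2 hv1 hgcd hj1 hj2
    rw [mul_comm] at e2
    exact two' i j hji.symm hi hj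
      (different R.swap ha h2 h1 hji.symm hcop hi1 hi2 hj1 hj2 e1 e2 e hn')

end Pool.Agent.Q86.WF
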