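import Pool.Agent.Q86.WF1

/-!
# A bound for the Frobenius number of pairwise coprime generators

If every generator `a_l` has a relation `t a_l ∈ ⟨a_i : i ≠ l⟩` with `1 ≤ t ≤ s_l`, then all
`n ≥ ∑ (s_l - 1) (a_l - 1)` are in the semigroup.
-/

set_option autoImplicit false

namespace Pool.Agent.Q86.WF

open Finset

variable {ι : Type*} [DecidableEq ι]

/-- `n` is a combination of the `a i`, `i ∈ K` -/
def Rep (a : ι → ℕ) (K : Finset ι) (n : ℕ) : Prop := ∃ m : ι → ℕ, n = ∑ i ∈ K, m i * a i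

lemma Rep.mono {a : ι → ℕ} {K L : Finset ι} (h : K ⊆ L) {n : ℕ} (hn : Rep a K n) : Rep a L n := by
  obtain ⟨m, rfl⟩ := hn
  refine ⟨fun i => if i ∈ K then m i else 0, ?_⟩
  rw [← Finset.sum_subset h]
  · exact Finset.sum_congr rfl fun i hi => by
      dsimp only
      rw [if_pos hi]
  · intro i _ hi
    dsimp only
    rw [if_neg hi, zero_mul]

lemma Rep.add {a : ι → ℕ} {K : Finset ι} {n m : ℕ} (hn : Rep a K n) (hm : Rep a K m) :
    Rep a K (n + m) := by
  obtain ⟨u, rfl⟩ := hn
  obtain ⟨v, rfl⟩ := hm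
  exact ⟨fun i => u i + v i, by
    rw [← Finset.sum_add_distrib]
    exact Finset.sum_congr rfl fun i _ => by ring⟩

lemma Rep.single {a : ι → ℕ} {K : Finset ι} {i : ι} (hi : i ∈ K) (t : ℕ) : Rep a K (t * a i) :=
  ⟨Pi.single i t, by
    rw [Finset.sum_eq_single i]
    · rw [Pi.single_eq_same]
    · intro b _ hb
      rw [Pi.single_eq_of_ne hb, zero_mul]
    · intro h
      exact (h hi).elim⟩

lemma weights (K : Finset ι) (c : ι → ℕ) (m : ι → ι → ℕ) (k : ι) (hk : k ∈ K)
    (hconn : ∀ U ⊆ K, k ∉ U → U.Nonempty → ∃ l ∈ U, ∃ i ∈ K, i ∉ U ∧ 0 < m l i) :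
    ∃ W : ι → ℕ, ∀ l ∈ K.erase k, c l * W l < ∑ i ∈ K.erase l, m l i * W i := by
  classical
  have key : ∀ T : Finset ι, T ⊆ K → k ∈ T → (∃ W : ι → ℕ, (∀ i ∈ T, 0 < W i) ∧
      ∀ l ∈ T.erase k, c l * W l < ∑ i ∈ T.erase l, m l i * W i) →
      ∃ W : ι → ℕ, ∀ l ∈ K.erase k, c l * W l < ∑ i ∈ K.erase l, m l i * W i := by
    intro T
    induction hn : (K \ T).card using Nat.strong_induction_on generalizing T with
    | _ n ih =>
      intro hT hkT hW
      by_cases hne : (K \ T).Nonempty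
      · obtain ⟨W, hW0, hW1⟩ := hW
        obtain ⟨l, hl, i, hi, hiU, hm⟩ := hconn (K \ T) sdiff_subset (by simp [hkT]) hne
        have hlK := (mem_sdiff.1 hl).1
        have hlT := (mem_sdiff.1 hl).2
        have hiT : i ∈ T := by
          by_contra h
          exact hiU (mem_sdiff.2 ⟨hi, h⟩)
        have hil : i ≠ l := fun h => hlT (h ▸ hiT)
        refine ih (K \ insert l T).card ?_ (insert l T) rfl
          (insert_subset hlK hT) (mem_insert_of_mem hkT)
          ⟨fun x => if x = l then 1 else (c l + 1) * W x, ?_, ?_⟩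
        · rw [← hn]
          apply Finset.card_lt_card
          refine ⟨sdiff_subset_sdiff (Subset.refl _) (subset_insert _ _), fun h => ?_⟩
          have := h hl
          rw [mem_sdiff] at this
          exact this.2 (mem_insert_self _ _)
        · intro x hx
          dsimp only
          split
          · exact one_pos
          · rename_i hxl
            exact Nat.mul_pos (Nat.succ_pos _) (hW0 x ((mem_insert.1 hx).resolve_left hxl))
        · intro x hx
          rw [mem_erase, mem_insert] at hx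
          dsimp only
          by_cases hxl : x = l
          · subst hxl
            rw [if_pos rfl, erase_insert hlT]
            calc c x * 1 < 1 * ((c x + 1) * 1) := by omega
              _ ≤ m x i * ((c x + 1) * W i) :=
                Nat.mul_le_mul hm (Nat.mul_le_mul_left _ (hW0 i hiT))
              _ = m x i * (if i = x then 1 else (c x + 1) * W i) := by rw [if_neg hil]
              _ ≤ _ := Finset.single_le_sum
                (f := fun i => m x i * (if i = x then 1 else (c x + 1) * W i))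
                (fun _ _ => Nat.zero_le _) hiT
          · have hxT : x ∈ T := hx.2.resolve_left hxl
            rw [if_neg hxl]
            have h1 := hW1 x (mem_erase.2 ⟨hx.1, hxT⟩)
            calc c x * ((c l + 1) * W x) = (c l + 1) * (c x * W x) := by ring
              _ < (c l + 1) * ∑ i ∈ T.erase x, m x i * W i :=
                Nat.mul_lt_mul_of_pos_left h1 (Nat.succ_pos _)
              _ = ∑ i ∈ T.erase x, m x i * (if i = l then 1 else (c l + 1) * W i) := by
                rw [Finset.mul_sum]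
                refine Finset.sum_congr rfl fun i hi => ?_
                have : i ≠ l := fun h => hlT (h ▸ (mem_erase.1 hi).2)
                rw [if_neg this]
                ring
              _ ≤ _ := Finset.sum_le_sum_of_subset (erase_subset_erase _ (subset_insert _ _))
      · have hTK : T = K := by
          refine Subset.antisymm hT fun x hx => ?_
          by_contra h
          exact hne ⟨x, mem_sdiff.2 ⟨hx, h⟩⟩
        subst hTK
        obtain ⟨W, _, hW1⟩ := hW
        exact ⟨W, hW1⟩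
  exact key {k} (singleton_subset_iff.2 hk) (mem_singleton_self k)
    ⟨fun _ => 1, fun _ _ => one_pos, fun l hl => by
      rw [mem_erase, mem_singleton] at hl
      exact (hl.1 hl.2).elim⟩

lemma apery (K : Finset ι) (a c : ι → ℕ) (ha : ∀ i ∈ K, 0 < a i) (m : ι → ι → ℕ)
    (hrel : ∀ l ∈ K, c l * a l = ∑ i ∈ K.erase l, m l i * a i) (k : ι) (hk : k ∈ K)
    (W : ι → ℕ) (hW : ∀ l ∈ K.erase k, c l * W l < ∑ i ∈ K.erase l, m l i * W i)
    (N : ℕ) (hN : Rep a K N) (hN' : ∀ r, Rep a K r → N ≠ r + a k) :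
    N ≤ ∑ l ∈ K.erase k, (c l - 1) * a l := by
  classical
  obtain ⟨l0, hl0⟩ := hN
  let P : ℕ → Prop := fun φ => ∃ t : ι → ℕ, N = ∑ i ∈ K, t i * a i ∧ φ = ∑ i ∈ K, t i * W i
  have hbound : ∀ φ, P φ → φ ≤ N * ∑ i ∈ K, W i := by
    rintro φ ⟨t, ht, rfl⟩
    rw [Finset.mul_sum]
    refine Finset.sum_le_sum fun i hi => Nat.mul_le_mul_right _ ?_
    calc t i = t i * 1 := (mul_one _).symm
      _ ≤ t i * a i := Nat.mul_le_mul_left _ (ha i hi)
      _ ≤ ∑ i ∈ K, t i * a i := Finset.single_le_sum (f := fun i => t i * a i)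
        (fun _ _ => Nat.zero_le _) hi
      _ = N := ht.symm
  have hP0 : P (∑ i ∈ K, l0 i * W i) := ⟨l0, hl0, rfl⟩
  have hspec : P (Nat.findGreatest P (N * ∑ i ∈ K, W i)) :=
    Nat.findGreatest_spec (hbound _ hP0) hP0
  have hmax : ∀ φ, P φ → φ ≤ Nat.findGreatest P (N * ∑ i ∈ K, W i) := fun φ hφ =>
    Nat.le_findGreatest (hbound _ hφ) hφ
  obtain ⟨t, ht, hφ⟩ := hspec
  rw [hφ] at hmax
  have hk0 : t k = 0 := by
    by_contra h0
    refine hN' (∑ i ∈ K, (if i = k then t i - 1 else t i) * a i) ⟨_, rfl⟩ ?_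
    rw [ht, ← Finset.add_sum_erase K _ hk, ← Finset.add_sum_erase K _ hk]
    rw [if_pos rfl]
    have h1 : ∑ i ∈ K.erase k, (if i = k then t i - 1 else t i) * a i =
        ∑ i ∈ K.erase k, t i * a i := Finset.sum_congr rfl fun i hi => by
      rw [if_neg (mem_erase.1 hi).1]
    rw [h1]
    obtain ⟨u, hu⟩ := Nat.exists_eq_succ_of_ne_zero h0
    rw [hu]
    simp only [Nat.succ_eq_add_one, Nat.add_sub_cancel]
    ring
  have hlt : ∀ l ∈ K.erase k, t l < c l := by
    intro l hl
    by_contra hge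
    push Not at hge
    have hlK : l ∈ K := (mem_erase.1 hl).2
    obtain ⟨u, hu⟩ := Nat.exists_eq_add_of_le hge
    have h1 := hmax (∑ i ∈ K, (if i = l then t i - c i else t i + m l i) * W i)
      ⟨fun i => if i = l then t i - c i else t i + m l i, ?_, rfl⟩
    · rw [← Finset.add_sum_erase K _ hlK, ← Finset.add_sum_erase K _ hlK] at h1
      rw [if_pos rfl] at h1
      have h2 : ∑ i ∈ K.erase l, (if i = l then t i - c i else t i + m l i) * W i =
          ∑ i ∈ K.erase l, t i * W i + ∑ i ∈ K.erase l, m l i * W i := by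
        rw [← Finset.sum_add_distrib]
        refine Finset.sum_congr rfl fun i hi => ?_
        rw [if_neg (mem_erase.1 hi).1]
        ring
      rw [h2, hu, Nat.add_sub_cancel_left] at h1
      have h3 := hW l hl
      have h4 : (c l + u) * W l = c l * W l + u * W l := by ring
      omega
    · rw [ht, ← Finset.add_sum_erase K _ hlK]
      conv_rhs => rw [← Finset.add_sum_erase K _ hlK]
      dsimp only
      rw [if_pos rfl]
      have h2 : ∑ i ∈ K.erase l, (if i = l then t i - c i else t i + m l i) * a i =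
          ∑ i ∈ K.erase l, t i * a i + ∑ i ∈ K.erase l, m l i * a i := by
        rw [← Finset.sum_add_distrib]
        refine Finset.sum_congr rfl fun i hi => ?_
        rw [if_neg (mem_erase.1 hi).1]
        ring
      rw [h2, hu, Nat.add_sub_cancel_left, ← hrel l hlK]
      ring
  rw [ht, ← Finset.add_sum_erase K _ hk, hk0, zero_mul, zero_add]
  refine Finset.sum_le_sum fun l hl => Nat.mul_le_mul_right _ ?_
  have := hlt l hl
  omega

lemma count (K : Finset ι) (a c : ι → ℕ) (ha : ∀ i ∈ K, 0 < a i)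
    (hmin : ∀ l ∈ K, ∀ t, 1 ≤ t → t < c l → ¬ Rep a (K.erase l) (t * a l)) (k : ι) (hk : k ∈ K) :
    ∑ l ∈ K.erase k, (c l - 1) ≤ a k - 1 := by
  classical
  have hak := ha k hk
  -- the main point
  have main : ∀ l ∈ K.erase k, ∀ j, 1 ≤ j → j < c l → ∀ l' ∈ K.erase k, ∀ j' t,
      j * a l = j' * a l' + t * a k → l = l' ∧ j ≤ j' := by
    intro l hl j hj1 hj2 l' hl' j' t h
    rw [mem_erase] at hl hl'
    by_cases hll : l = l'
    · refine ⟨hll, ?_⟩
      subst hll
      by_contra hlt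
      push Not at hlt
      obtain ⟨u, rfl⟩ := Nat.exists_eq_add_of_lt hlt
      refine hmin l hl.2 (u + 1) (by omega) (by omega) ?_
      have h2 : (u + 1) * a l = t * a k := by
        have : (j' + u + 1) * a l = j' * a l + (u + 1) * a l := by ring
        omega
      rw [h2]
      exact Rep.single (mem_erase.2 ⟨fun h => hl.1 h.symm, hk⟩) t
    · exfalso
      refine hmin l hl.2 j hj1 hj2 ?_
      rw [h]
      exact (Rep.single (mem_erase.2 ⟨fun h => hll h.symm, hl'.2⟩) j').add
        (Rep.single (mem_erase.2 ⟨fun h => hl.1 h.symm, hk⟩) t)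
  have h1 : ((K.erase k).sigma fun l => Ico 1 (c l)).card ≤ (Ico 1 (a k)).card := by
    refine Finset.card_le_card_of_injOn (fun p => (p.2 * a p.1) % a k) ?_ ?_
    · rintro ⟨l, j⟩ hp
      rw [mem_coe, mem_sigma, mem_Ico] at hp
      dsimp only at hp ⊢
      rw [mem_coe, mem_Ico]
      refine ⟨?_, Nat.mod_lt _ hak⟩
      by_contra h0
      have h2 : (j * a l) % a k = 0 := by omega
      obtain ⟨t, ht⟩ := Nat.dvd_of_mod_eq_zero h2
      refine hmin l (mem_erase.1 hp.1).2 j hp.2.1 hp.2.2 ?_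
      rw [ht, mul_comm]
      exact Rep.single (mem_erase.2 ⟨fun h => (mem_erase.1 hp.1).1 h.symm, hk⟩) t
    · rintro ⟨l, j⟩ hp ⟨l', j'⟩ hp' h
      rw [mem_coe, mem_sigma, mem_Ico] at hp hp'
      dsimp only at hp hp' h
      have h2 : j * a l ≡ j' * a l' [MOD a k] := h
      rcases le_total (j' * a l') (j * a l) with hle | hle
      · obtain ⟨t, ht⟩ := (Nat.modEq_iff_dvd' hle).1 h2.symm
        have h3 : j * a l = j' * a l' + t * a k := by
          rw [mul_comm t]; omega
        obtain ⟨rfl, hjj⟩ := main l hp.1 j hp.2.1 hp.2.2 l' hp'.1 j' t h3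
        have : j' ≤ j := Nat.le_of_mul_le_mul_right hle (ha _ (mem_erase.1 hp.1).2)
        have : j = j' := by omega
        rw [this]
      · obtain ⟨t, ht⟩ := (Nat.modEq_iff_dvd' hle).1 h2
        have h3 : j' * a l' = j * a l + t * a k := by
          rw [mul_comm t]; omega
        obtain ⟨rfl, hjj⟩ := main l' hp'.1 j' hp'.2.1 hp'.2.2 l hp.1 j t h3
        have : j ≤ j' := Nat.le_of_mul_le_mul_right hle (ha _ (mem_erase.1 hp.1).2)
        have : j = j' := by omega
        rw [this]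
  rw [Finset.card_sigma] at h1
  simpa only [Nat.card_Ico] using h1

theorem core (K : Finset ι) (a c : ι → ℕ) (ha : ∀ i ∈ K, 0 < a i)
    (hcop : ∀ i ∈ K, ∀ j ∈ K, i ≠ j → Nat.Coprime (a i) (a j)) (m : ι → ι → ℕ)
    (hc : ∀ l ∈ K, 1 ≤ c l)
    (hrel : ∀ l ∈ K, c l * a l = ∑ i ∈ K.erase l, m l i * a i)
    (hmin : ∀ l ∈ K, ∀ t, 1 ≤ t → t < c l → ¬ Rep a (K.erase l) (t * a l)) (k : ι) (hk : k ∈ K)
    (hconn : ∀ U ⊆ K, k ∉ U → U.Nonempty → ∃ l ∈ U, ∃ i ∈ K, i ∉ U ∧ 0 < m l i) (n : ℕ)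
    (hn : ∑ l ∈ K, (c l - 1) * (a l - 1) ≤ n) : Rep a K n := by
  classical
  obtain ⟨W, hW⟩ := weights K c m k hk hconn
  have hcount := count K a c ha hmin k hk
  have hak := ha k hk
  obtain ⟨l0, hl0⟩ : (K.erase k).Nonempty := by
    by_contra h
    rw [not_nonempty_iff_eq_empty] at h
    have h1 := hrel k hk
    rw [h, Finset.sum_empty] at h1
    have := Nat.mul_pos (hc k hk) hak
    omega
  have hl0K := (mem_erase.1 hl0).2
  have hex : ∃ w, Rep a K w ∧ w ≡ n [MOD a k] := by
    refine ⟨n + a k * a l0, ?_, ?_⟩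
    · obtain ⟨u, v, huv⟩ := two (a k) (a l0) hak (ha l0 hl0K)
        (hcop k hk l0 hl0K (fun h => (mem_erase.1 hl0).1 h.symm)) ((n + a k * a l0 : ℕ) : ℤ) (by
          have h1 : (1 : ℤ) ≤ a k := by exact_mod_cast hak
          have h2 : (1 : ℤ) ≤ a l0 := by exact_mod_cast ha l0 hl0K
          push_cast
          nlinarith [Int.natCast_nonneg n])
      have h3 : n + a k * a l0 = u * a k + v * a l0 := by exact_mod_cast huv
      rw [h3]
      exact (Rep.single hk u).add (Rep.single hl0K v)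
    · exact (Nat.add_mul_mod_self_left n (a k) (a l0))
  obtain ⟨hw1, hw2⟩ := Nat.find_spec hex
  have hw3 : ∀ r, Rep a K r → Nat.find hex ≠ r + a k := by
    intro r hr h
    have h1 : r < Nat.find hex := by omega
    refine Nat.find_min hex h1 ⟨hr, ?_⟩
    rw [h] at hw2
    have h2 : r + a k ≡ r [MOD a k] := by
      unfold Nat.ModEq
      exact Nat.add_mod_right r (a k)
    exact h2.symm.trans hw2
  have hA := apery K a c ha m hrel k hk W hW _ hw1 hw3
  rcases le_or_gt (Nat.find hex) n with hle | hgt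
  · obtain ⟨t, ht⟩ := (Nat.modEq_iff_dvd' hle).1 hw2
    have h1 : n = Nat.find hex + t * a k := by rw [mul_comm t]; omega
    rw [h1]
    exact hw1.add (Rep.single hk t)
  · exfalso
    obtain ⟨t, ht⟩ := (Nat.modEq_iff_dvd' hgt.le).1 hw2.symm
    have ht0 : 0 < t := by
      rcases Nat.eq_zero_or_pos t with h | h
      · subst h; omega
      · exact h
    have h1 : a k ≤ a k * t := Nat.le_mul_of_pos_right _ ht0
    have h2 : ∑ l ∈ K.erase k, (c l - 1) * a l =
        ∑ l ∈ K.erase k, (c l - 1) * (a l - 1) + ∑ l ∈ K.erase k, (c l - 1) := by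
      rw [← Finset.sum_add_distrib]
      refine Finset.sum_congr rfl fun l hl => ?_
      obtain ⟨u, hu⟩ := Nat.exists_eq_succ_of_ne_zero (ha l (mem_erase.1 hl).2).ne'
      rw [hu]
      simp only [Nat.succ_eq_add_one, Nat.add_sub_cancel]
      ring
    have h3 : ∑ l ∈ K.erase k, (c l - 1) * (a l - 1) ≤ ∑ l ∈ K, (c l - 1) * (a l - 1) :=
      Finset.sum_le_sum_of_subset (erase_subset _ _)
    omega

/-- **A bound for the Frobenius number.** -/
theorem frobenius (I : Finset ι) (hI : I.Nonempty) (a s : ι → ℕ) (ha : ∀ i ∈ I, 0 < a i)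
    (hcop : ∀ i ∈ I, ∀ j ∈ I, i ≠ j → Nat.Coprime (a i) (a j))
    (hs : ∀ l ∈ I, ∃ t, 1 ≤ t ∧ t ≤ s l ∧ Rep a (I.erase l) (t * a l)) (n : ℕ)
    (hn : ∑ l ∈ I, (s l - 1) * (a l - 1) ≤ n) : Rep a I n := by
  classical
  have h1 : ∀ l, ∃ c, l ∈ I → 1 ≤ c ∧ c ≤ s l ∧ Rep a (I.erase l) (c * a l) ∧
      ∀ t, 1 ≤ t → t < c → ¬ Rep a (I.erase l) (t * a l) := by
    intro l
    by_cases hl : l ∈ I
    · obtain ⟨t, ht1, ht2, ht3⟩ := hs l hl
      have hex : ∃ t, 1 ≤ t ∧ Rep a (I.erase l) (t * a l) := ⟨t, ht1, ht3⟩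
      refine ⟨Nat.find hex, fun _ => ⟨(Nat.find_spec hex).1,
        (Nat.find_min' hex ⟨ht1, ht3⟩).trans ht2, (Nat.find_spec hex).2, ?_⟩⟩
      intro u hu1 hu2 hu3
      exact Nat.find_min hex hu2 ⟨hu1, hu3⟩
    · exact ⟨0, fun h => (hl h).elim⟩
  choose c hc using h1
  have h2 : ∀ l, ∃ m : ι → ℕ, l ∈ I → c l * a l = ∑ i ∈ I.erase l, m i * a i := by
    intro l
    by_cases hl : l ∈ I
    · obtain ⟨m, hm⟩ := (hc l hl).2.2.1
      exact ⟨m, fun _ => hm⟩
    · exact ⟨0, fun h => (hl h).elim⟩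
  choose m hm using h2
  let C : Finset ι → Prop := fun K => ∀ l ∈ K, ∀ i ∈ I.erase l, 0 < m l i → i ∈ K
  obtain ⟨K, hK, hKmin⟩ := Finset.exists_min_image
    (I.powerset.filter fun K => K.Nonempty ∧ C K) Finset.card
    ⟨I, by
      rw [mem_filter, mem_powerset]
      exact ⟨Subset.refl _, hI, fun l _ i hi _ => (mem_erase.1 hi).2⟩⟩
  rw [mem_filter, mem_powerset] at hK
  obtain ⟨hKI, ⟨k, hk⟩, hKC⟩ := hK
  refine Rep.mono hKI ?_
  refine core K a c (fun i hi => ha i (hKI hi))
    (fun i hi j hj => hcop i (hKI hi) j (hKI hj)) m (fun l hl => (hc l (hKI hl)).1) ?_ ?_ k hk ?_ n ?_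
  · intro l hl
    rw [hm l (hKI hl)]
    symm
    refine Finset.sum_subset (erase_subset_erase _ hKI) fun i hi hi' => ?_
    rcases Nat.eq_zero_or_pos (m l i) with h | h
    · rw [h, zero_mul]
    · exact (hi' (mem_erase.2 ⟨(mem_erase.1 hi).1, hKC l hl i hi h⟩)).elim
  · intro l hl t ht1 ht2 ht3
    exact (hc l (hKI hl)).2.2.2 t ht1 ht2 (ht3.mono (erase_subset_erase _ hKI))
  · intro U hU hkU hne
    by_contra hcon
    push Not at hcon
    have h3 : U ∈ I.powerset.filter fun K => K.Nonempty ∧ C K := by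
      rw [mem_filter, mem_powerset]
      refine ⟨hU.trans hKI, hne, fun l hl i hi hm0 => ?_⟩
      by_contra hiU
      have h4 := hcon l hl i (hKC l (hU hl) i hi hm0) hiU
      omega
    have h4 := hKmin U h3
    have h5 : U.card < K.card := Finset.card_lt_card ⟨hU, fun h => hkU (h hk)⟩
    omega
  · refine le_trans ?_ hn
    calc ∑ l ∈ K, (c l - 1) * (a l - 1) ≤ ∑ l ∈ K, (s l - 1) * (a l - 1) := by
          refine Finset.sum_le_sum fun l hl => Nat.mul_le_mul_right _ ?_
          have := (hc l (hKI hl)).2.1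
          omega
      _ ≤ _ := Finset.sum_le_sum_of_subset hKI

end Pool.Agent.Q86.WF
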