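import Pool.Agent.Q86.WF3
import Pool.Agent.Q86.WF4

/-!
# Base points of sheaves on weighted complete intersections with pairwise coprime weights
-/

set_option autoImplicit false

namespace Pool.Agent.Q86.WF

open Finset MvPolynomial

variable {n : ℕ} {a : Fin n → ℕ}

lemma prod_bound (O : Finset (Fin n)) (ha : ∀ i, 0 < a i) :
    ∑ i ∈ O, ((a i : ℤ) - 1) ≤ ∏ i ∈ O, (a i : ℤ) - 1 ∧ 1 ≤ ∏ i ∈ O, (a i : ℤ) := by
  classical
  induction O using Finset.induction_on with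
  | empty => simp
  | insert i O hi ih =>
    rw [Finset.sum_insert hi, Finset.prod_insert hi]
    have h1 : (1 : ℤ) ≤ a i := by exact_mod_cast ha i
    obtain ⟨h2, h3⟩ := ih
    constructor
    · nlinarith
    · nlinarith

lemma prod_dvd' (O : Finset (Fin n)) (hcop : ∀ i j, i ≠ j → Nat.Coprime (a i) (a j)) (d : ℕ)
    (hd : ∀ i ∈ O, a i ∣ d) : ∏ i ∈ O, (a i : ℤ) ∣ (d : ℤ) := by
  refine Finset.prod_dvd_of_coprime ?_ fun i hi => Int.natCast_dvd_natCast.2 (hd i hi)
  intro i _ j _ hij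
  exact Nat.isCoprime_iff_coprime.2 (hcop i j hij)

lemma fibre0 (ha : ∀ i, 0 < a i) (O : Finset (Fin n))
    (hcop : ∀ i j, i ≠ j → Nat.Coprime (a i) (a j)) (d : ℕ) (hd0 : 0 < d)
    (hd : ∀ i ∈ O, a i ∣ d) : 0 ≤ ((d : ℤ) - 1) - ∑ i ∈ O, ((a i : ℤ) - 1) := by
  obtain ⟨h1, h2⟩ := prod_bound O ha
  have h3 := Int.le_of_dvd (by exact_mod_cast hd0) (prod_dvd' O hcop d hd)
  linarith

lemma fibre1 (ha : ∀ i, 0 < a i) (O : Finset (Fin n))
    (hcop : ∀ i j, i ≠ j → Nat.Coprime (a i) (a j)) (d s : ℕ) (hd0 : 0 < d)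
    (hd : ∀ i ∈ O, a i ∣ d) {l : Fin n} (hl : l ∈ O) (hs : d = s * a l) :
    ((s : ℤ) - 1) * (a l - 1) ≤ ((d : ℤ) - 1) - ∑ i ∈ O, ((a i : ℤ) - 1) := by
  classical
  obtain ⟨h1, h2⟩ := prod_bound (O.erase l) ha
  have h3 := prod_dvd' O hcop d hd
  rw [← Finset.mul_prod_erase O _ hl, hs] at h3
  push_cast at h3
  rw [mul_comm (s : ℤ)] at h3
  have hal : (a l : ℤ) ≠ 0 := by exact_mod_cast (ha l).ne'
  have h4 : ∏ i ∈ O.erase l, (a i : ℤ) ∣ (s : ℤ) := (mul_dvd_mul_iff_left hal).1 h3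
  have hs0 : 0 < s := Nat.pos_of_ne_zero (by rintro rfl; omega)
  have h5 := Int.le_of_dvd (by exact_mod_cast hs0) h4
  rw [← Finset.add_sum_erase O _ hl, hs]
  push_cast
  nlinarith

lemma fibre2 (ha : ∀ i, 0 < a i) (O : Finset (Fin n))
    (hcop : ∀ i j, i ≠ j → Nat.Coprime (a i) (a j)) (d : ℕ) (hd0 : 0 < d)
    (hd : ∀ i ∈ O, a i ∣ d) {i l : Fin n} (hi : i ∈ O) (hl : l ∈ O) (hil : i ≠ l) :
    ((a i : ℤ) - 1) * (a l - 1) ≤ ((d : ℤ) - 1) - ∑ i ∈ O, ((a i : ℤ) - 1) := by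
  classical
  have hl' : l ∈ O.erase i := mem_erase.2 ⟨hil.symm, hl⟩
  obtain ⟨h1, h2⟩ := prod_bound ((O.erase i).erase l) ha
  have h3 := prod_dvd' O hcop d hd
  rw [← Finset.mul_prod_erase O _ hi, ← Finset.mul_prod_erase (O.erase i) _ hl'] at h3
  have h5 := Int.le_of_dvd (by exact_mod_cast hd0) h3
  rw [← Finset.add_sum_erase O _ hi, ← Finset.add_sum_erase (O.erase i) _ hl']
  have h6 : (1 : ℤ) ≤ a i := by exact_mod_cast ha i
  have h7 : (1 : ℤ) ≤ a l := by exact_mod_cast ha l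
  have h8 : (1 : ℤ) ≤ a i * a l := by nlinarith
  nlinarith

/-- a form which does not vanish at the vertex contains a power of the variable -/
lemma vertex_monomial (f : MvPolynomial (Fin n) ℂ) (i : Fin n)
    (h : eval (Pi.single i (1 : ℂ)) f ≠ 0) : ∃ m ∈ f.support, ∀ l, l ≠ i → m l = 0 := by
  classical
  rw [eval_eq'] at h
  obtain ⟨m, hm, hne⟩ := Finset.exists_ne_zero_of_sum_ne_zero h
  refine ⟨m, hm, fun l hl => ?_⟩
  by_contra h0
  apply hne
  rw [Finset.prod_eq_zero (mem_univ l) (by rw [Pi.single_eq_of_ne hl, zero_pow h0]), mul_zero]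

/-- the relation given by an equation -/
lemma relation (ha : ∀ i, 0 < a i) {f : MvPolynomial (Fin n) ℂ} {d s : ℕ}
    (hf : IsWeightedHomogeneous a f d) {l : Fin n} (hs : d = s * a l) {m0 : Fin n →₀ ℕ}
    (hm0 : m0 ∈ f.support) (hm0' : ∀ i, i ≠ l → m0 i = 0) (v : Fin n → ℂ) (hvl : v l ≠ 0)
    (hv : eval v f = 0) :
    ∃ t, 1 ≤ t ∧ t ≤ s ∧ Rep a ((univ.filter fun i => v i ≠ 0).erase l) (t * a l) := by
  classical
  obtain ⟨m, hm, hmne, hmv⟩ : ∃ m ∈ f.support, m ≠ m0 ∧ ∀ i, m i ≠ 0 → v i ≠ 0 := by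
    by_contra hcon
    push Not at hcon
    rw [eval_eq', Finset.sum_eq_single_of_mem m0 hm0] at hv
    · rcases mul_eq_zero.1 hv with h | h
      · exact (mem_support_iff.1 hm0) h
      · obtain ⟨i, _, hi⟩ := Finset.prod_eq_zero_iff.1 h
        by_cases hil : i = l
        · subst hil
          exact pow_ne_zero _ hvl hi
        · rw [hm0' i hil, pow_zero] at hi
          exact one_ne_zero hi
    · intro m hm hne
      obtain ⟨i, hi, hvi⟩ := hcon m hm hne
      rw [Finset.prod_eq_zero (mem_univ i) (by rw [hvi, zero_pow hi]), mul_zero]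
  have h1 := weight_eq hf hm
  have h0 := weight_eq hf hm0
  rw [← Finset.add_sum_erase univ _ (mem_univ l)] at h1 h0
  have h0' : ∑ i ∈ univ.erase l, m0 i * a i = 0 := Finset.sum_eq_zero fun i hi => by
    rw [hm0' i (mem_erase.1 hi).1, zero_mul]
  rw [h0', add_zero, hs] at h0
  have h0s : m0 l = s := Nat.eq_of_mul_eq_mul_right (ha l) h0
  have hlt : m l < s := by
    have hle : m l ≤ s := by
      refine Nat.le_of_mul_le_mul_right ?_ (ha l)
      rw [← hs, ← h1]
      exact Nat.le_add_right _ _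
    rcases Nat.lt_or_eq_of_le hle with h | h
    · exact h
    · exfalso
      apply hmne
      rw [h, ← hs] at h1
      have h2 : ∑ i ∈ univ.erase l, m i * a i = 0 := by omega
      ext i
      by_cases hil : i = l
      · rw [hil, h, h0s]
      · rw [hm0' i hil]
        have h3 := Finset.sum_eq_zero_iff.1 h2 i (mem_erase.2 ⟨hil, mem_univ i⟩)
        rcases Nat.mul_eq_zero.1 h3 with h4 | h4
        · exact h4
        · exact ((ha i).ne' h4).elim
  refine ⟨s - m l, by omega, by omega, fun i => m i, ?_⟩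
  have h2 : (s - m l) * a l = ∑ i ∈ univ.erase l, m i * a i := by
    rw [Nat.sub_mul, ← hs, ← h1, Nat.add_sub_cancel_left]
  rw [h2]
  symm
  refine Finset.sum_subset (erase_subset_erase _ (subset_univ _)) fun i hi hi' => ?_
  have h3 : m i = 0 := by
    by_contra h4
    exact hi' (mem_erase.2 ⟨(mem_erase.1 hi).1, mem_filter.2 ⟨mem_univ i, hmv i h4⟩⟩)
  dsimp only
  rw [h3, zero_mul]

/-- **No base points.** -/
theorem freeness_coprime (ha : ∀ i, 0 < a i) (hcop : ∀ i j, i ≠ j → Nat.Coprime (a i) (a j))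
    {c : ℕ} (d : Fin c → ℕ) (hd : ∀ j, 0 < d j) (f : Fin c → MvPolynomial (Fin n) ℂ)
    (hf : ∀ j, IsWeightedHomogeneous a (f j) (d j))
    (hgcd : ∀ v : Fin n → ℂ, v ≠ 0 → (∀ j, eval v (f j) = 0) →
      ∀ g : ℕ, (∀ i, v i ≠ 0 → g ∣ a i) → g = 1) (e : ℕ)
    (he : ∑ j, d j + n ≤ e + ∑ i, a i + c) (v : Fin n → ℂ) (hv0 : v ≠ 0)
    (hv : ∀ j, eval v (f j) = 0) :
    ∃ s : MvPolynomial (Fin n) ℂ, IsWeightedHomogeneous a s e ∧ eval v s ≠ 0 := by
  classical
  obtain ⟨i0, hi0⟩ : ∃ i, v i ≠ 0 := by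
    by_contra hcon
    push Not at hcon
    exact hv0 (funext hcon)
  by_cases hone : ∃ l, v l ≠ 0 ∧ a l = 1
  · obtain ⟨l, hl, hal⟩ := hone
    refine mono_section (α := Pi.single l e) ?_ v ?_
    · rw [Finset.sum_eq_single l, Pi.single_eq_same, hal, mul_one]
      · intro b _ hb
        rw [Pi.single_eq_of_ne hb, zero_mul]
      · intro h; exact (h (mem_univ _)).elim
    · intro m hm
      by_cases hml : m = l
      · rw [hml]; exact hl
      · rw [Pi.single_eq_of_ne hml] at hm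
        exact (hm rfl).elim
  push Not at hone
  -- the equations at the vertices
  have hvx : ∀ i, a i ≠ 1 → ∃ j, ∃ m ∈ (f j).support, ∀ l, l ≠ i → m l = 0 := by
    intro i hi
    by_contra hcon
    push Not at hcon
    refine hi (hgcd (Pi.single i 1) ?_ ?_ (a i) ?_)
    · intro h
      have := congrFun h i
      rw [Pi.single_eq_same] at this
      exact one_ne_zero this
    · intro j
      by_contra hne
      obtain ⟨m, hm, hm'⟩ := vertex_monomial (f j) i hne
      obtain ⟨l, hl, hl'⟩ := hcon j m hm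
      exact hl' (hm' l hl)
    · intro l hl
      by_cases hli : l = i
      · rw [hli]
      · rw [Pi.single_eq_of_ne hli] at hl
        exact (hl rfl).elim
  obtain ⟨j0, -⟩ := hvx i0 (hone i0 hi0)
  have hvx' : ∀ i, ∃ j, a i ∣ d j ∧ (a i ≠ 1 → ∃ m ∈ (f j).support, ∀ l, l ≠ i → m l = 0) := by
    intro i
    by_cases h1 : a i = 1
    · exact ⟨j0, by rw [h1]; exact one_dvd _, fun h => (h h1).elim⟩
    · obtain ⟨j, m, hm, hm'⟩ := hvx i h1
      refine ⟨j, ?_, fun _ => ⟨m, hm, hm'⟩⟩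
      have h2 := weight_eq (hf j) hm
      rw [← Finset.add_sum_erase univ _ (mem_univ i)] at h2
      have h3 : ∑ l ∈ univ.erase i, m l * a l = 0 := Finset.sum_eq_zero fun l hl => by
        rw [hm' l (mem_erase.1 hl).1, zero_mul]
      rw [h3, add_zero] at h2
      exact ⟨m i, by rw [← h2, mul_comm]⟩
  choose J hJ using hvx'
  let F : Fin c → Finset (Fin n) := fun j => univ.filter fun i => J i = j
  let E : Fin c → ℤ := fun j => ((d j : ℤ) - 1) - ∑ i ∈ F j, ((a i : ℤ) - 1)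
  have hFd : ∀ j, ∀ i ∈ F j, a i ∣ d j := by
    intro j i hi
    have h1 := (mem_filter.1 hi).2
    rw [← h1]
    exact (hJ i).1
  have hFm : ∀ i, i ∈ F (J i) := fun i => mem_filter.2 ⟨mem_univ i, rfl⟩
  have hE0 : ∀ j, 0 ≤ E j := fun j => fibre0 ha (F j) hcop (d j) (hd j) (hFd j)
  have hEe : ∑ j, E j ≤ e := by
    have h1 : ∑ j, E j = ∑ j, ((d j : ℤ) - 1) - ∑ i, ((a i : ℤ) - 1) := by
      rw [Finset.sum_sub_distrib]
      congr 1
      exact Finset.sum_fiberwise univ J fun i => ((a i : ℤ) - 1)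
    rw [h1, Finset.sum_sub_distrib, Finset.sum_sub_distrib]
    simp only [Finset.sum_const, Finset.card_univ, Fintype.card_fin, nsmul_eq_mul, mul_one]
    have : ((∑ j, d j + n : ℕ) : ℤ) ≤ ((e + ∑ i, a i + c : ℕ) : ℤ) := by exact_mod_cast he
    push_cast at this
    linarith
  obtain ⟨I, hI⟩ : ∃ I : Finset (Fin n), I = univ.filter fun i => v i ≠ 0 := ⟨_, rfl⟩
  have hIv : ∀ i, i ∈ I ↔ v i ≠ 0 := fun i => by rw [hI]; simp
  suffices hrep : Rep a I e by
    obtain ⟨m, hm⟩ := hrep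
    refine mono_section (α := fun i => if i ∈ I then m i else 0) ?_ v ?_
    · rw [hm, ← Finset.sum_subset (subset_univ I)]
      · exact Finset.sum_congr rfl fun i hi => by
          rw [if_pos hi]
      · intro i _ hi
        rw [if_neg hi, zero_mul]
    · intro i hi
      by_cases h : i ∈ I
      · exact (hIv i).1 h
      · rw [if_neg h] at hi
        exact (hi rfl).elim
  by_cases hA : ∃ i ∈ I, ∃ l ∈ I, i ≠ l ∧ J i = J l
  · obtain ⟨i, hi, l, hl, hil, hJJ⟩ := hA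
    have h1 : ((a i : ℤ) - 1) * (a l - 1) ≤ E (J i) :=
      fibre2 ha (F (J i)) hcop (d (J i)) (hd _) (hFd _) (hFm i) (by rw [hJJ]; exact hFm l) hil
    have h2 : E (J i) ≤ ∑ j, E j := Finset.single_le_sum (fun j _ => hE0 j) (mem_univ _)
    obtain ⟨u, w, huw⟩ := two (a i) (a l) (ha i) (ha l) (hcop i l hil) (e : ℤ) (by linarith)
    have h3 : e = u * a i + w * a l := by exact_mod_cast huw
    rw [h3]
    exact (Rep.single hi u).add (Rep.single hl w)
  push Not at hA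
  have hex : ∀ l, ∃ s, d (J l) = s * a l := fun l => by
    obtain ⟨s, hs⟩ := (hJ l).1
    exact ⟨s, by rw [hs, mul_comm]⟩
  choose s hs using hex
  refine frobenius I ⟨i0, (hIv i0).2 hi0⟩ a s (fun i _ => ha i) (fun i _ j _ => hcop i j) ?_ e ?_
  · intro l hl
    have hvl := (hIv l).1 hl
    obtain ⟨m0, hm0, hm0'⟩ := (hJ l).2 (hone l hvl)
    rw [hI]
    exact relation ha (hf (J l)) (hs l) hm0 hm0' v hvl (hv _)
  · have h1 : ∑ l ∈ I, ((s l : ℤ) - 1) * (a l - 1) ≤ ∑ l ∈ I, E (J l) :=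
      Finset.sum_le_sum fun l _ =>
        fibre1 ha (F (J l)) hcop (d (J l)) (s l) (hd _) (hFd _) (hFm l) (hs l)
    have hinj : Set.InjOn J I := by
      intro i hi l hl h
      by_contra hne
      exact hA i hi l hl hne h
    have h2 : ∑ l ∈ I, E (J l) = ∑ j ∈ I.image J, E j := (Finset.sum_image hinj).symm
    have h3 : ∑ j ∈ I.image J, E j ≤ ∑ j, E j :=
      Finset.sum_le_sum_of_subset_of_nonneg (subset_univ _) fun j _ _ => hE0 j
    have hs0 : ∀ l, 1 ≤ s l := by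
      intro l
      have h4 := hd (J l)
      rw [hs l] at h4
      exact Nat.pos_of_ne_zero (by rintro h5; rw [h5, zero_mul] at h4; exact lt_irrefl _ h4)
    have h4 : ((∑ l ∈ I, (s l - 1) * (a l - 1) : ℕ) : ℤ) =
        ∑ l ∈ I, ((s l : ℤ) - 1) * (a l - 1) := by
      push_cast
      refine Finset.sum_congr rfl fun l _ => ?_
      rw [Nat.cast_sub (hs0 l), Nat.cast_sub (ha l)]
      push_cast
      ring
    have h5 : ((∑ l ∈ I, (s l - 1) * (a l - 1) : ℕ) : ℤ) ≤ (e : ℤ) := by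
      rw [h4]
      linarith
    exact_mod_cast h5

end Pool.Agent.Q86.WF
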